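import Pool.Agent.Lib.MP_1acd66_nt.Gen.CuspMain

/-!
The cusp bound: summation over reduced unbalanced frames.
-/

namespace Pool.Agent.Lib.MP_1acd66_nt.Gen

open Finset

theorem spread_le_of_close {k : ℕ} {x y : Fin k → ℝ} (h : ∀ i, y i ≤ x i ∧ x i ≤ y i + 1) :
    spread x ≤ spread y + (k : ℝ) ^ 2 := by
  have h1 : ∀ i j, max 0 (x i - x j) ≤ max 0 (y i - y j) + 1 := by
    intro i j
    refine max_le ?_ ?_
    · have := le_max_left 0 (y i - y j); linarith
    · have := le_max_right 0 (y i - y j)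
      have := (h i).2
      have := (h j).1
      linarith
  calc spread x ≤ ∑ i, ∑ j, (max 0 (y i - y j) + 1) :=
        sum_le_sum fun i _ => sum_le_sum fun j _ => h1 i j
    _ = spread y + (k : ℝ) ^ 2 := by
        rw [spread]
        have : ∀ i, ∑ j, (max 0 (y i - y j) + 1) = ∑ j, max 0 (y i - y j) + k := by
          intro i
          rw [sum_add_distrib, sum_const, card_univ, Fintype.card_fin, nsmul_eq_mul, mul_one]
        rw [sum_congr rfl fun i _ => this i, sum_add_distrib, sum_const, card_univ,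
          Fintype.card_fin, nsmul_eq_mul]
        ring

theorem spread_le_of_close' {k : ℕ} {x y : Fin k → ℝ} (h : ∀ i, y i ≤ x i ∧ x i ≤ y i + 1) :
    spread y ≤ spread x + (k : ℝ) ^ 2 := by
  have h1 : ∀ i j, max 0 (y i - y j) ≤ max 0 (x i - x j) + 1 := by
    intro i j
    refine max_le ?_ ?_
    · have := le_max_left 0 (x i - x j); linarith
    · have := le_max_right 0 (x i - x j)
      have := (h i).1
      have := (h j).2
      linarith
  calc spread y ≤ ∑ i, ∑ j, (max 0 (x i - x j) + 1) :=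
        sum_le_sum fun i _ => sum_le_sum fun j _ => h1 i j
    _ = spread x + (k : ℝ) ^ 2 := by
        rw [spread]
        have : ∀ i, ∑ j, (max 0 (x i - x j) + 1) = ∑ j, max 0 (x i - x j) + k := by
          intro i
          rw [sum_add_distrib, sum_const, card_univ, Fintype.card_fin, nsmul_eq_mul, mul_one]
        rw [sum_congr rfl fun i _ => this i, sum_add_distrib, sum_const, card_univ,
          Fintype.card_fin, nsmul_eq_mul]
        ring

variable {k : ℕ} {r N : Fin k → ℕ} {W : Type} [Fintype W]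
variable {Red : ∀ {r N : ℕ}, (Fin r → Fin N → ℤ) → Prop}
  {gsl : ∀ {r N : ℕ}, (Fin r → Fin N → ℤ) → Fin r → ℝ}

/-- an unbalanced reduced frame has a large spread -/
theorem log_le_spread (hapi : RedAPI Red gsl) {r N : ℕ} (hr : 0 < r) (Z : Fin r → Fin N → ℤ)
    (hZ : IsFrame Z) (hred : Red Z) {t : ℝ} (ht : 1 ≤ t)
    (hbal : bal t (fun a j => (Z a j : ℝ)) < 1) :
    Real.log t ≤ spread (fun a => Real.log (gsl Z a)) + Real.log (2 * (r : ℝ) ^ r) := by
  obtain ⟨T, Q, hQ, hZQ, hTd, hTu, hTl⟩ := hapi.decomp Z hZ hred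
  have hl : ∀ a, 0 < gsl Z a := hapi.pos Z hZ
  have hQo : Orthonormal' Q := hQ
  have : Nonempty (Fin r) := ⟨⟨0, hr⟩⟩
  have hr0 : (0 : ℝ) < r := by exact_mod_cast hr
  obtain ⟨m, _, hm⟩ := exists_max_image (univ : Finset (Fin r)) (gsl Z) univ_nonempty
  have hTab : ∀ a b, |T a b| ≤ gsl Z b := by
    intro a b
    rcases lt_trichotomy a b with h | h | h
    · rw [hTu a b h, abs_zero]; exact (hl b).le
    · subst h
      rw [hTd a, abs_of_pos (hl a)]
    · exact hTl a b h
  have hnorm : ‖(fun a j => (Z a j : ℝ) : Fin r → Fin N → ℝ)‖ ≤ r * gsl Z m := by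
    have h0 : 0 ≤ r * gsl Z m := mul_nonneg hr0.le (hl m).le
    rw [pi_norm_le_iff_of_nonneg h0]
    intro a
    rw [pi_norm_le_iff_of_nonneg h0]
    intro j
    have h1 : (Z a j : ℝ) = ∑ b, T a b * Q b j := congrFun (congrFun hZQ a) j
    rw [h1, Real.norm_eq_abs]
    calc |∑ b, T a b * Q b j| ≤ ∑ b, |T a b * Q b j| := abs_sum_le_sum_abs _ _
      _ ≤ ∑ _b : Fin r, gsl Z m := by
          refine sum_le_sum fun b _ => ?_
          rw [abs_mul]
          have h2 := hTab a b
          have h3 := hQo.abs_le b j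
          have h4 := hm b (mem_univ b)
          calc |T a b| * |Q b j| ≤ gsl Z b * 1 :=
                mul_le_mul h2 h3 (abs_nonneg _) (hl b).le
            _ ≤ gsl Z m := by rw [mul_one]; exact h4
      _ = r * gsl Z m := by rw [sum_const, card_univ, Fintype.card_fin, nsmul_eq_mul]
  have hgram : √(gram (fun a j => (Z a j : ℝ))) = ∏ a, gsl Z a := by
    rw [hZQ, gram_rowOp, hQo.gram, mul_one, Matrix.det_of_isLowerTriangular]
    · rw [Real.sqrt_sq]
      · exact prod_congr rfl fun a _ => hTd a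
      · exact prod_nonneg fun a _ => by rw [hTd a]; exact (hl a).le
    · intro a b hab
      exact hTu a b hab
  have hnpos : 0 < ‖(fun a j => (Z a j : ℝ) : Fin r → Fin N → ℝ)‖ := by
    rw [norm_pos_iff]
    intro h0
    have h1 : gram (fun a j => (Z a j : ℝ)) = 0 := by
      rw [h0, gram]
      have : (Matrix.of fun a b => dot ((0 : Fin r → Fin N → ℝ) a) ((0 : Fin r → Fin N → ℝ) b)) =
          (0 : Matrix (Fin r) (Fin r) ℝ) := by
        ext a b
        simp [dot]
      rw [this, Matrix.det_zero]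
    have h2 : 0 < ∏ a, gsl Z a := prod_pos fun a _ => hl a
    rw [← hgram, h1, Real.sqrt_zero] at h2
    exact lt_irrefl _ h2
  set ν := ‖(fun a j => (Z a j : ℝ) : Fin r → Fin N → ℝ)‖ with hν
  have h3 : t * (∏ a, gsl Z a) < 2 * ν ^ r := by
    rw [bal, ← hν, hgram] at hbal
    by_contra hcon
    push Not at hcon
    have h4 : 1 ≤ t * (∏ a, gsl Z a) / ν ^ r - 1 := by
      have h5 : 2 ≤ t * (∏ a, gsl Z a) / ν ^ r := by
        rw [le_div_iff₀ (pow_pos hnpos r)]; exact hcon
      linarith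
    have h6 : (1 : ℝ) ≤ min 1 (max 0 (t * (∏ a, gsl Z a) / ν ^ r - 1)) :=
      le_min le_rfl (h4.trans (le_max_right _ _))
    linarith
  have h4 : t * (∏ a, gsl Z a) ≤ 2 * (r : ℝ) ^ r * gsl Z m ^ r := by
    have h5 : ν ^ r ≤ (r * gsl Z m) ^ r := pow_le_pow_left₀ hnpos.le hnorm r
    rw [mul_pow] at h5
    linarith
  have hprod : 0 < ∏ a, gsl Z a := prod_pos fun a _ => hl a
  have h5 := Real.log_le_log (mul_pos (by linarith) hprod) h4
  rw [Real.log_mul (by linarith) hprod.ne', Real.log_prod fun a _ => (hl a).ne',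
    Real.log_mul (by positivity) (pow_pos (hl m) r).ne', Real.log_pow] at h5
  have h6 : ∑ a, (Real.log (gsl Z m) - Real.log (gsl Z a)) ≤
      spread (fun a => Real.log (gsl Z a)) := by
    calc ∑ a, (Real.log (gsl Z m) - Real.log (gsl Z a))
        ≤ ∑ a, max 0 (Real.log (gsl Z m) - Real.log (gsl Z a)) :=
          sum_le_sum fun a _ => le_max_right _ _
      _ ≤ _ := single_le_sum
          (f := fun i => ∑ j, max 0 (Real.log (gsl Z i) - Real.log (gsl Z j)))
          (fun i _ => sum_nonneg fun j _ => le_max_left _ _) (mem_univ m)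
  rw [sum_sub_distrib, sum_const, card_univ, Fintype.card_fin, nsmul_eq_mul] at h6
  linarith

/-- A good vector of bounded height bounds the shortest lengths. -/
theorem first_le (hapi : RedAPI Red gsl) {ρ : FRep r W} {Good : (W → ℚ) → Prop}
    (hd : CuspData ρ Good) {M : Frm ℝ r N → (W → ℝ) → ℝ} (hM : IsLocalNorm ℝ N ρ M)
    (i0 : ∀ i, Fin (r i)) (hi0 : ∀ i, ((i0 i : Fin (r i)) : ℕ) = 0) :
    ∃ C : ℝ, 0 < C ∧ ∀ B : ℝ, 0 < B → ∀ Z : Frm ℤ r N, AllFrame Z → (∀ i, Red (Z i)) →
      ∀ A : W → ℤ, A ≠ 0 → M (realF Z) (realW A) ≤ B → ∀ i, gsl (Z i) (i0 i) ≤ C * B := by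
  classical
  obtain ⟨c0, hc0, hper⟩ := per_frame (N := N) hapi hM
  obtain ⟨ht, htri⟩ := hd.tri
  choose cr hcr hmono using fun i => hapi.mono (r i)
  obtain ⟨c, hc1, hc⟩ : ∃ c : ℝ, 1 ≤ c ∧ ∀ i, cr i ≤ c := by
    refine ⟨∏ i, cr i, ?_, fun i => ?_⟩
    · have : ∏ _i : Fin k, (1 : ℝ) ≤ ∏ i, cr i := prod_le_prod (fun _ _ => zero_le_one) fun i _ => hcr i
      simpa using this
    · rw [← mul_prod_erase univ cr (mem_univ i)]
      have h1 : 1 ≤ ∏ j ∈ univ.erase i, cr j := by
        have : ∏ _j ∈ univ.erase i, (1 : ℝ) ≤ ∏ j ∈ univ.erase i, cr j :=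
          prod_le_prod (fun _ _ => zero_le_one) fun j _ => hcr j
        simpa using this
      have := hcr i
      nlinarith
  have hc0' : 0 < c := by linarith
  set D := Fintype.card W with hD
  set E : ℝ := ∏ i, (∏ _a : Fin (r i), c⁻¹) ^ (N i - ρ.b i) with hE
  have hE0 : 0 < E := prod_pos fun i _ => pow_pos (prod_pos fun _ _ => inv_pos.2 hc0') _
  set G : ℝ := ∏ i, (c⁻¹) ^ ρ.deg i with hG
  have hG0 : 0 < G := prod_pos fun i _ => pow_pos (inv_pos.2 hc0') _
  refine ⟨(c0 * E * G ^ D)⁻¹, by positivity, ?_⟩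
  intro B hB Z hZ hred A hA hAM i
  have hl : ∀ i a, 0 < gsl (Z i) a := fun i a => hapi.pos (Z i) (hZ i) a
  set l : ∀ i, Fin (r i) → ℝ := fun i => gsl (Z i) with hldef
  have hlmono : ∀ i a b, a ≤ b → l i a ≤ c * l i b := by
    intro i a b hab
    refine (hmono i (N i) (Z i) (hZ i) (hred i) a b hab).trans ?_
    exact mul_le_mul_of_nonneg_right (hc i) (hl i b).le
  have hi0le : ∀ i a, i0 i ≤ a := by
    intro i a
    rw [Fin.le_def, hi0 i]
    exact Nat.zero_le _
  have hl1 : ∀ i, 1 ≤ l i (i0 i) := fun i => hapi.one_le (Z i) (hZ i) (i0 i) (hi0 i)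
  have hlc : ∀ i a, c⁻¹ ≤ l i a := by
    intro i a
    have h1 := hlmono i (i0 i) a (hi0le i a)
    have h2 := hl1 i
    rw [inv_le_iff_one_le_mul₀ hc0']
    linarith
  obtain ⟨μ, hμ, hlow⟩ := hper Z hZ hred
  obtain ⟨U, hU, hpull⟩ := htri μ hμ
  have hrA : realW A ≠ 0 := by
    intro h
    apply hA
    funext w
    have := congrFun h w
    simp only [realW, Pi.zero_apply] at this
    exact_mod_cast this
  obtain ⟨R, hR, hRw, hRM⟩ := hlow (realW A) hrA
  -- the top nonzero coordinate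
  obtain ⟨w, hwA, hwtop⟩ : ∃ w, A w ≠ 0 ∧ ∀ w', w' ≠ w → ht w < ht w' → A w' = 0 := by
    have hne : (univ.filter (fun w => A w ≠ 0)).Nonempty := by
      by_contra h
      rw [not_nonempty_iff_eq_empty, filter_eq_empty_iff] at h
      apply hA
      funext w
      have := h (mem_univ w)
      push Not at this
      exact this
    obtain ⟨w, hw, hmax⟩ := exists_max_image _ ht hne
    refine ⟨w, (mem_filter.1 hw).2, ?_⟩
    intro w' _ hlt
    by_contra h
    have := hmax w' (mem_filter.2 ⟨mem_univ _, h⟩)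
    omega
  have hpw : ρ.pull ℝ μ (realW A) w = (A w : ℝ) := by
    rw [hpull, sum_eq_single w]
    · rw [hU.diag, one_mul]; rfl
    · intro w' _ hne
      rcases lt_or_ge (ht w) (ht w') with h | h
      · have : realW A w' = 0 := by
          simp only [realW]
          rw [hwtop w' hne h]; simp
        rw [this, mul_zero]
      · rw [hU.tri w w' hne h, zero_mul]
    · intro h; exact absurd (mem_univ _) h
  have hmR : mono ρ l w ≤ R := by
    have h1 := hRw w
    rw [hpw, abs_mul, abs_of_pos (mono_pos ρ hl w)] at h1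
    have h2 : (1 : ℝ) ≤ |(A w : ℝ)| := by
      have : (1 : ℤ) ≤ |A w| := Int.one_le_abs hwA
      exact_mod_cast this
    have h3 : mono ρ l w * 1 ≤ mono ρ l w * |(A w : ℝ)| :=
      mul_le_mul_of_nonneg_left h2 (mono_pos ρ hl w).le
    linarith
  have hmG : G * l i (i0 i) ≤ R := by
    refine le_trans ?_ ((mono_ge ρ hc1 hl i0 (fun i a => hlmono i (i0 i) a (hi0le i a)) w).trans hmR)
    have h1 : ∏ i, (l i (i0 i) / c) ^ ρ.deg i = G * ∏ i, l i (i0 i) ^ ρ.deg i := by
      rw [hG, ← prod_mul_distrib]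
      refine prod_congr rfl fun i _ => ?_
      rw [← mul_pow, div_eq_inv_mul]
    rw [h1]
    refine mul_le_mul_of_nonneg_left ?_ hG0.le
    calc l i (i0 i) ≤ l i (i0 i) ^ ρ.deg i := le_self_pow₀ (hl1 i) (hd.deg_pos i).ne'
      _ ≤ ∏ i, l i (i0 i) ^ ρ.deg i := by
          rw [← mul_prod_erase univ (fun i => l i (i0 i) ^ ρ.deg i) (mem_univ i)]
          have h2 : 1 ≤ ∏ j ∈ univ.erase i, l j (i0 j) ^ ρ.deg j := by
            have : ∏ _j ∈ univ.erase i, (1 : ℝ) ≤ ∏ j ∈ univ.erase i, l j (i0 j) ^ ρ.deg j :=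
              prod_le_prod (fun _ _ => zero_le_one) fun j _ => one_le_pow₀ (hl1 j)
            simpa using this
          have h3 : 0 ≤ l i (i0 i) ^ ρ.deg i := pow_nonneg (hl i _).le _
          nlinarith
  have hPE : E ≤ ∏ i, (∏ a, l i a) ^ (N i - ρ.b i) := by
    refine prod_le_prod (fun i _ => pow_nonneg (prod_nonneg fun _ _ => (inv_pos.2 hc0').le) _) ?_
    intro i _
    refine pow_le_pow_left₀ (prod_nonneg fun _ _ => (inv_pos.2 hc0').le) ?_ _
    exact prod_le_prod (fun _ _ => (inv_pos.2 hc0').le) fun a _ => hlc i a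
  have : Nonempty W := ⟨w⟩
  have hD0 : D ≠ 0 := Fintype.card_ne_zero
  have h1 : c0 * E * (G * l i (i0 i)) ^ D ≤ B := by
    refine le_trans ?_ (hRM.trans hAM)
    refine mul_le_mul (mul_le_mul_of_nonneg_left hPE hc0.le) ?_ (by
      have := hl i (i0 i); positivity) ?_
    · exact pow_le_pow_left₀ (by have := hl i (i0 i); positivity) hmG _
    · exact mul_nonneg hc0.le (hE0.le.trans hPE)
  rw [mul_pow, ← mul_assoc] at h1
  rw [le_inv_mul_iff₀ (by positivity)]
  refine le_trans (mul_le_mul_of_nonneg_left ?_ (by positivity)) h1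
  exact le_self_pow₀ (hl1 i) hD0

/-- The cusp bound. -/
theorem cuspBound_of (hapi : RedAPI Red gsl) {ρ : FRep r W} {Good : (W → ℚ) → Prop}
    (hd : CuspData ρ Good) (hr : ∀ i, 0 < r i) (hb : ∀ i, ρ.b i ≤ N i) :
    CuspBound N ρ Red Good := by
  classical
  intro M hM
  rcases isEmpty_or_nonempty W with hW | hW
  · refine ⟨1, 1, one_pos, one_pos, ?_⟩
    intro t ht B hB F hF
    have : F = ∅ := by
      by_contra hne
      obtain ⟨x, hx⟩ := nonempty_iff_ne_empty.2 hne
      exact (hF x hx).2.2.1 (Subsingleton.elim _ _)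
    rw [this, card_empty, Nat.cast_zero]
    have h1 : 0 ≤ Real.log (max 1 (1 * B)) := Real.log_nonneg (le_max_left _ _)
    positivity
  obtain ⟨C1, θ0, hC1, hθ0, hover⟩ := count_over_frame (N := N) hapi hd hb hM
  set θ := max θ0 0 with hθ
  have hθ1 : θ < 1 := max_lt hθ0 one_pos
  have hθnn : 0 ≤ θ := le_max_right _ _
  set i0 : ∀ i, Fin (r i) := fun i => ⟨0, hr i⟩ with hi0
  obtain ⟨C2, hC2, hfirst⟩ := first_le (N := N) hapi hd hM i0 (fun i => rfl)
  have hδ : 0 < 1 - θ := by linarith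
  obtain ⟨C3, hC3, hsum⟩ := sum_exp_spread_prod i0 hδ
  choose Cc hCc hcount using fun i => hapi.count (r i) (N i)
  -- constants
  set rr : ℝ := ∑ i, ((r i : ℝ)) ^ 2 with hrr
  set K0 : ℝ := ∑ i, (Real.log (2 * (r i : ℝ) ^ (r i)) + (r i : ℝ) ^ 2) with hK0
  have hlogpos : ∀ i, 0 ≤ Real.log (2 * (r i : ℝ) ^ (r i)) := by
    intro i
    refine Real.log_nonneg ?_
    have h1 : (1 : ℝ) ≤ r i := by exact_mod_cast hr i
    have := one_le_pow₀ (n := r i) h1
    linarith
  set C4 : ℝ := C1 * (∏ i, Cc i) * Real.exp (θ * rr) * C3 * Real.exp ((1 - θ) / 2 * K0) with hC4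
  have hC40 : 0 < C4 := by
    have : 0 < ∏ i, Cc i := prod_pos fun i _ => hCc i
    positivity
  refine ⟨C4 + C2, (1 - θ) / 2, by positivity, by linarith, ?_⟩
  intro t ht B hB F hF
  set X : ℝ := Real.log (max 1 ((C4 + C2) * B)) with hX
  have hX0 : 0 ≤ X := Real.log_nonneg (le_max_left _ _)
  set G := F.image Prod.fst with hG
  have hGmem : ∀ Z ∈ G, AllFrame Z ∧ (∀ i, Red (Z i)) ∧ (∃ i, bal t (realF Z i) < 1) ∧
      ∀ i, gsl (Z i) (i0 i) ≤ C2 * B := by
    intro Z hZ
    obtain ⟨⟨Z', A⟩, hx, rfl⟩ := mem_image.1 hZ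
    obtain ⟨h1, h2, h3, h4, h5, h6⟩ := hF _ hx
    exact ⟨h1, h2, h6, hfirst B hB Z' h1 h2 A h3 h5⟩
  -- exponents
  set ex : Frm ℤ r N → (∀ i, Fin (r i) → ℤ) := fun Z i a => ⌊Real.log (gsl (Z i) a)⌋ with hex
  set wgt : Frm ℤ r N → ℝ := fun Z => (∏ i, ((∏ a, gsl (Z i) a) ^ N i)⁻¹) *
      Real.exp (θ * ∑ i, spread (fun a => Real.log (gsl (Z i) a))) with hwgt
  have hcardF : (F.card : ℝ) ≤ C1 * B * ∑ Z ∈ G, wgt Z := by
    have h1 : F.card = ∑ Z ∈ G, (F.filter (fun x => x.1 = Z)).card :=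
      card_eq_sum_card_fiberwise fun x hx => mem_image_of_mem _ hx
    rw [h1, Nat.cast_sum, mul_sum]
    refine sum_le_sum fun Z hZ => ?_
    have h2 : (F.filter (fun x => x.1 = Z)).card =
        ((F.filter (fun x => x.1 = Z)).image Prod.snd).card := by
      rw [card_image_of_injOn]
      rintro ⟨Z1, A1⟩ h1 ⟨Z2, A2⟩ h2 h3
      rw [mem_coe, mem_filter] at h1 h2
      simp only at h1 h2 h3
      rw [h1.2, h2.2, h3]
    rw [h2]
    obtain ⟨hZ1, hZ2, _, _⟩ := hGmem Z hZ
    refine (hover B hB Z hZ1 hZ2 _ ?_).trans ?_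
    · intro A hA
      obtain ⟨⟨Z', A'⟩, hx, rfl⟩ := mem_image.1 hA
      rw [mem_filter] at hx
      obtain ⟨hx1, hx2⟩ := hx
      simp only at hx2
      subst hx2
      obtain ⟨_, _, h3, h4, h5, _⟩ := hF _ hx1
      exact ⟨h3, h4, h5⟩
    · rw [hwgt, mul_assoc]
      have h3 : 0 ≤ ∏ i, ((∏ a, gsl (Z i) a) ^ N i)⁻¹ :=
        prod_nonneg fun i _ => inv_nonneg.2 (pow_nonneg
          (prod_nonneg fun a _ => (hapi.pos (Z i) (hZ1 i) a).le) _)
      refine mul_le_mul_of_nonneg_left (mul_le_mul_of_nonneg_left ?_ h3) (by positivity)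
      rw [Real.exp_le_exp]
      exact mul_le_mul_of_nonneg_right (le_max_left _ _)
        (sum_nonneg fun i _ => spread_nonneg _)
  -- group by exponents
  have hclose : ∀ Z ∈ G, ∀ i a, ((ex Z i a : ℤ) : ℝ) ≤ Real.log (gsl (Z i) a) ∧
      Real.log (gsl (Z i) a) ≤ ((ex Z i a : ℤ) : ℝ) + 1 := by
    intro Z _ i a
    exact ⟨Int.floor_le _, (Int.lt_floor_add_one _).le⟩
  have hbox : ∀ n ∈ G.image ex, ∑ Z ∈ G.filter (fun Z => ex Z = n), wgt Z ≤
      (∏ i, Cc i) * Real.exp (θ * rr) *
        Real.exp (-(1 - θ) * ∑ i, spread (castR (n i))) := by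
    intro n _
    set L : ∀ i, Fin (r i) → ℝ := fun i a => Real.exp (n i a) with hL
    have hL0 : ∀ i a, 0 < L i a := fun i a => Real.exp_pos _
    have h1 : ∀ Z ∈ G.filter (fun Z => ex Z = n), wgt Z ≤
        (∏ i, ((∏ a, L i a) ^ N i)⁻¹) *
          Real.exp (θ * (∑ i, spread (castR (n i)) + rr)) := by
      intro Z hZ
      rw [mem_filter] at hZ
      obtain ⟨hZG, hZn⟩ := hZ
      obtain ⟨hZ1, _, _, _⟩ := hGmem Z hZG
      have hLl : ∀ i a, L i a ≤ gsl (Z i) a := by
        intro i a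
        have h2 := (hclose Z hZG i a).1
        rw [hZn] at h2
        rw [hL, ← Real.exp_log (hapi.pos (Z i) (hZ1 i) a)]
        exact Real.exp_le_exp.2 h2
      rw [hwgt]
      refine mul_le_mul ?_ ?_ (Real.exp_pos _).le ?_
      · refine prod_le_prod (fun i _ => inv_nonneg.2 (pow_nonneg
          (prod_nonneg fun a _ => (hapi.pos (Z i) (hZ1 i) a).le) _)) fun i _ => ?_
        refine inv_anti₀ (pow_pos (prod_pos fun a _ => hL0 i a) _) ?_
        refine pow_le_pow_left₀ (prod_nonneg fun a _ => (hL0 i a).le) ?_ _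
        exact prod_le_prod (fun a _ => (hL0 i a).le) fun a _ => hLl i a
      · rw [Real.exp_le_exp]
        refine mul_le_mul_of_nonneg_left ?_ hθnn
        rw [hrr, ← sum_add_distrib]
        refine sum_le_sum fun i _ => ?_
        refine spread_le_of_close ?_
        intro a
        have h2 := hclose Z hZG i a
        rw [hZn] at h2
        exact h2
      · exact prod_nonneg fun i _ => inv_nonneg.2 (pow_nonneg
          (prod_nonneg fun a _ => (hL0 i a).le) _)
    have h2 : ((G.filter (fun Z => ex Z = n)).card : ℝ) ≤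
        ∏ i, (Cc i * (∏ a, L i a) ^ N i * Real.exp (-spread (castR (n i)))) := by
      have h3 : G.filter (fun Z => ex Z = n) ⊆
          Fintype.piFinset (fun i => (G.filter (fun Z => ex Z = n)).image (fun Z => Z i)) := by
        intro Z hZ
        rw [Fintype.mem_piFinset]
        exact fun i => mem_image_of_mem _ hZ
      have h4 := card_le_card h3
      rw [Fintype.card_piFinset] at h4
      calc ((G.filter (fun Z => ex Z = n)).card : ℝ)
          ≤ ((∏ i, ((G.filter (fun Z => ex Z = n)).image (fun Z => Z i)).card : ℕ) : ℝ) := by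
            exact_mod_cast h4
        _ = ∏ i, (((G.filter (fun Z => ex Z = n)).image (fun Z => Z i)).card : ℝ) := by
            push_cast; rfl
        _ ≤ _ := by
            refine prod_le_prod (fun i _ => Nat.cast_nonneg _) fun i _ => ?_
            have h5 : castR (n i) = fun a => Real.log (L i a) := by
              funext a
              rw [hL, Real.log_exp]; rfl
            rw [h5]
            refine hcount i (L i) (hL0 i) _ ?_
            intro Z' hZ'
            obtain ⟨Z, hZ, rfl⟩ := mem_image.1 hZ'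
            rw [mem_filter] at hZ
            obtain ⟨hZG, hZn⟩ := hZ
            obtain ⟨hZ1, hZ2, _, _⟩ := hGmem Z hZG
            refine ⟨hZ1 i, hZ2 i, fun a => ?_⟩
            have h6 := hclose Z hZG i a
            rw [hZn] at h6
            have h7 := hapi.pos (Z i) (hZ1 i) a
            constructor
            · rw [hL, ← Real.exp_log h7]
              exact Real.exp_le_exp.2 h6.1
            · have h8 : gsl (Z i) a ≤ Real.exp ((n i a : ℝ) + 1) := by
                rw [← Real.exp_log h7]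
                exact Real.exp_le_exp.2 h6.2
              rw [Real.exp_add] at h8
              have h9 : Real.exp 1 ≤ 3 := by
                have := Real.exp_one_lt_d9
                linarith
              have h10 : 0 < Real.exp (n i a : ℝ) := Real.exp_pos _
              rw [hL]
              nlinarith
    calc ∑ Z ∈ G.filter (fun Z => ex Z = n), wgt Z
        ≤ ∑ _Z ∈ G.filter (fun Z => ex Z = n), (∏ i, ((∏ a, L i a) ^ N i)⁻¹) *
          Real.exp (θ * (∑ i, spread (castR (n i)) + rr)) := sum_le_sum h1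
      _ = ((G.filter (fun Z => ex Z = n)).card : ℝ) * ((∏ i, ((∏ a, L i a) ^ N i)⁻¹) *
          Real.exp (θ * (∑ i, spread (castR (n i)) + rr))) := by
          rw [sum_const, nsmul_eq_mul]
      _ ≤ (∏ i, (Cc i * (∏ a, L i a) ^ N i * Real.exp (-spread (castR (n i))))) *
          ((∏ i, ((∏ a, L i a) ^ N i)⁻¹) *
          Real.exp (θ * (∑ i, spread (castR (n i)) + rr))) := by
          refine mul_le_mul_of_nonneg_right h2 ?_
          refine mul_nonneg (prod_nonneg fun i _ => inv_nonneg.2 (pow_nonneg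
            (prod_nonneg fun a _ => (hL0 i a).le) _)) (Real.exp_pos _).le
      _ = _ := by
          rw [prod_mul_distrib, prod_mul_distrib, prod_inv_distrib, ← Real.exp_sum,
            sum_neg_distrib]
          have h11 : (∏ i, (∏ a, L i a) ^ N i) ≠ 0 :=
            (prod_pos fun i _ => pow_pos (prod_pos fun a _ => hL0 i a) _).ne'
          have h12 : Real.exp (-(1 - θ) * ∑ i, spread (castR (n i))) =
              Real.exp (-∑ i, spread (castR (n i))) *
                Real.exp (θ * ∑ i, spread (castR (n i))) := by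
            rw [← Real.exp_add]; congr 1; ring
          rw [h12, mul_add, Real.exp_add]
          field_simp
  have hsumG : ∑ Z ∈ G, wgt Z ≤ (∏ i, Cc i) * Real.exp (θ * rr) *
      (C3 * (1 + X) ^ k * Real.exp (-((1 - θ) / 2) * (Real.log t - K0))) := by
    have h1 : ∑ Z ∈ G, wgt Z = ∑ n ∈ G.image ex, ∑ Z ∈ G.filter (fun Z => ex Z = n), wgt Z :=
      (sum_fiberwise_of_maps_to (fun Z hZ => mem_image_of_mem _ hZ) _).symm
    rw [h1]
    refine (sum_le_sum hbox).trans ?_
    rw [← mul_sum]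
    refine mul_le_mul_of_nonneg_left ?_ ?_
    · have h2 := hsum (G.image ex) X (Real.log t - K0) hX0 ?_ ?_
      · rw [Fintype.card_fin] at h2
        exact h2
      · intro n hn a
        obtain ⟨Z, hZ, rfl⟩ := mem_image.1 hn
        obtain ⟨hZ1, _, _, hZ4⟩ := hGmem Z hZ
        constructor
        · exact Int.floor_nonneg.2 (Real.log_nonneg (hapi.one_le (Z a) (hZ1 a) (i0 a) rfl))
        · refine (hclose Z hZ a (i0 a)).1.trans ?_
          rw [hX]
          refine Real.log_le_log (hapi.pos (Z a) (hZ1 a) _) ?_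
          refine (hZ4 a).trans ((mul_le_mul_of_nonneg_right ?_ hB.le).trans (le_max_right _ _))
          linarith
      · intro n hn
        obtain ⟨Z, hZ, rfl⟩ := mem_image.1 hn
        obtain ⟨hZ1, hZ2, ⟨i, hi⟩, _⟩ := hGmem Z hZ
        have h3 := log_le_spread hapi (hr i) (Z i) (hZ1 i) (hZ2 i) ht hi
        have h4 : spread (fun a => Real.log (gsl (Z i) a)) ≤
            spread (castR (ex Z i)) + (r i : ℝ) ^ 2 :=
          spread_le_of_close (fun a => hclose Z hZ i a)
        have h5 : spread (castR (ex Z i)) ≤ ∑ a, spread (castR (ex Z a)) :=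
          single_le_sum (f := fun a => spread (castR (ex Z a)))
            (fun a _ => spread_nonneg _) (mem_univ i)
        have h6 : Real.log (2 * (r i : ℝ) ^ (r i)) + (r i : ℝ) ^ 2 ≤ K0 :=
          single_le_sum (f := fun i => Real.log (2 * (r i : ℝ) ^ (r i)) + (r i : ℝ) ^ 2)
            (fun a _ => add_nonneg (hlogpos a) (sq_nonneg _)) (mem_univ i)
        linarith
    · have : 0 < ∏ i, Cc i := prod_pos fun i _ => hCc i
      positivity
  have hexp : Real.exp (-((1 - θ) / 2) * (Real.log t - K0)) =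
      t ^ (-((1 - θ) / 2)) * Real.exp ((1 - θ) / 2 * K0) := by
    rw [Real.rpow_def_of_pos (by linarith), ← Real.exp_add]
    congr 1; ring
  calc (F.card : ℝ) ≤ C1 * B * ∑ Z ∈ G, wgt Z := hcardF
    _ ≤ C1 * B * ((∏ i, Cc i) * Real.exp (θ * rr) *
      (C3 * (1 + X) ^ k * Real.exp (-((1 - θ) / 2) * (Real.log t - K0)))) :=
        mul_le_mul_of_nonneg_left hsumG (by positivity)
    _ = C4 * t ^ (-((1 - θ) / 2)) * B * (1 + X) ^ k := by rw [hexp, hC4]; ring
    _ ≤ (C4 + C2) * t ^ (-((1 - θ) / 2)) * B * (1 + X) ^ k := by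
        have h1 : 0 ≤ t ^ (-((1 - θ) / 2)) := Real.rpow_nonneg (by linarith) _
        have h2 : 0 ≤ (1 + X) ^ k := by positivity
        have h3 : C4 ≤ C4 + C2 := by linarith
        refine mul_le_mul_of_nonneg_right (mul_le_mul_of_nonneg_right
          (mul_le_mul_of_nonneg_right h3 h1) hB.le) h2

end Pool.Agent.Lib.MP_1acd66_nt.Gen
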