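import Pool.Agent.Lib.MP_1acd66_nt.Gen.Count
import Pool.Agent.Lib.MP_1acd66_nt.Gen.MainSum

/-! The asymptotic formula, from the asymptotics of the weighted counts. -/

set_option linter.unusedSectionVars false

namespace Pool.Agent.Lib.MP_1acd66_nt.Gen

open MeasureTheory Filter Metric Set Topology

variable {k : ℕ} {r N : Fin k → ℕ} {W : Type} [Fintype W] {ρ : FRep r W}
  {Good : (W → ℚ) → Prop}

theorem countSet_mono (h : AdelicNorm N ρ.toRepData) {B B' : ℝ} (hB : B ≤ B') :
    countSet Good h B ⊆ countSet Good h B' := by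
  rintro P ⟨x, h1, h2, h3⟩
  exact ⟨x, h1, h2, h3.trans hB⟩

/-- from the limits of the weighted counts to the number of points -/
theorem main_of_kappa (Red : ∀ {r N : ℕ}, (Fin r → Fin N → ℤ) → Prop) (hG : GoodInv ρ Good)
    (hred : ∀ {r N : ℕ} (Z : Fin r → Fin N → ℤ), IsFrame Z →
      ∃ g : Matrix (Fin r) (Fin r) ℤ, IsUnit g.det ∧ Red (rowOp g Z))
    (hcusp : CuspBound N ρ Red Good) (h : AdelicNorm N ρ.toRepData)
    (hr : ∀ i, 0 < r i) (hn : ∀ i, 0 < r i * N i)
    (hw : ∀ i, ρ.b i ≤ N i) (hW : 0 < Fintype.card W)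
    (hκ : ∀ t : ℝ, 1 ≤ t → ∃ κ : ℝ,
      Tendsto (fun B => XH Good h.inf h.ff t B / (B * Real.log B ^ k)) atTop (𝓝 κ))
    (hpos : ∃ t κ : ℝ, 1 ≤ t ∧ 0 < κ ∧
      Tendsto (fun B => XH Good h.inf h.ff t B / (B * Real.log B ^ k)) atTop (𝓝 κ)) :
    (∀ B, (countSet Good h B).Finite) ∧ ∃ c : ℝ, 0 < c ∧
      Tendsto (fun B : ℝ => ((countSet Good h B).ncard : ℝ) / (B * Real.log B ^ k))
        atTop (𝓝 c) := by
  obtain ⟨f0, f1, hf⟩ := h.tame
  obtain ⟨C, c, hC, hc, hbad⟩ := bad_bound Red h hf hcusp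
  refine ⟨?_, ?_⟩
  · intro B
    have hB1 : 0 < max B 1 := lt_max_of_lt_right one_pos
    have h1 := (count_compare Red hG hred h hf hr hn hw hW (t := 1) (B := max B 1) one_pos
      (hbad 1 le_rfl _ hB1).1).1
    exact h1.subset (countSet_mono h (le_max_left _ _))
  set g : ℝ → ℝ := fun B => 2 * ((countSet Good h B).ncard : ℝ) / (B * Real.log B ^ k) with hg
  obtain ⟨t0, κ0, ht0, hκ0, hκ0t⟩ := hpos
  choose! κ hκt using hκ
  have hκt0 : κ t0 = κ0 := tendsto_nhds_unique (hκt t0 ht0) hκ0t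
  set K : ℝ := 2 * C * 2 ^ k with hK
  have hKp : 0 < K := by positivity
  have hcomp : ∀ t : ℝ, 1 ≤ t → ∀ᶠ B in atTop,
      XH Good h.inf h.ff t B / (B * Real.log B ^ k) ≤ g B ∧
      g B ≤ XH Good h.inf h.ff t B / (B * Real.log B ^ k) + K * t ^ (-c) := by
    intro t ht
    have ht0 : 0 < t := by linarith
    have htc : 0 < t ^ (-c) := Real.rpow_pos_of_pos ht0 _
    filter_upwards [log_max_le hC, eventually_gt_atTop 1] with B hB1 hB2
    have hB : 0 < B := by linarith
    have hlog : 0 < Real.log B := Real.log_pos hB2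
    have hBl : 0 < B * Real.log B ^ k := by positivity
    obtain ⟨hb1, hb2⟩ := hbad t ht B hB
    obtain ⟨_, c1, c2⟩ := count_compare Red hG hred h hf hr hn hw hW ht0 hb1
    constructor
    · exact div_le_div_of_nonneg_right c1 hBl.le
    · have h3 : 2 * ((badSet Red Good h t B).ncard : ℝ) ≤
          K * t ^ (-c) * (B * Real.log B ^ k) := by
        have h4 : (0:ℝ) ≤ 1 + Real.log (max 1 (C * B)) := by
          have := Real.log_nonneg (le_max_left 1 (C * B))
          linarith
        calc 2 * ((badSet Red Good h t B).ncard : ℝ)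
            ≤ 2 * (C * t ^ (-c) * B * (1 + Real.log (max 1 (C * B))) ^ k) := by linarith
          _ ≤ 2 * (C * t ^ (-c) * B * (2 * Real.log B) ^ k) := by
              apply mul_le_mul_of_nonneg_left _ zero_le_two
              apply mul_le_mul_of_nonneg_left _ (by positivity)
              exact pow_le_pow_left₀ h4 hB1 k
          _ = K * t ^ (-c) * (B * Real.log B ^ k) := by rw [hK, mul_pow]; ring
      simp only [hg]
      rw [div_add' _ _ _ hBl.ne']
      exact div_le_div_of_nonneg_right (by linarith) hBl.le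
  -- comparison of the constants
  have hcmp : ∀ s t : ℝ, 1 ≤ s → 1 ≤ t → κ s ≤ κ t + K * t ^ (-c) := by
    intro s t hs ht
    have h1 := hκt s hs
    have h2 := (hκt t ht).add_const (K * t ^ (-c))
    refine le_of_tendsto_of_tendsto h1 h2 ?_
    filter_upwards [hcomp s hs, hcomp t ht] with B a1 a2
    exact a1.1.trans a2.2
  -- small error
  have hsmall : ∀ η : ℝ, 0 < η → ∃ t : ℝ, 1 ≤ t ∧ K * t ^ (-c) ≤ η := by
    intro η hη
    have h1 : Tendsto (fun t : ℝ => K * t ^ (-c)) atTop (𝓝 (K * 0)) :=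
      (tendsto_rpow_neg_atTop hc).const_mul K
    rw [mul_zero] at h1
    have h2 := (h1.eventually (gt_mem_nhds hη)).and (eventually_ge_atTop (1:ℝ))
    obtain ⟨t, h3, h4⟩ := h2.exists
    exact ⟨t, h4, h3.le⟩
  obtain ⟨l, hl1, _, hl3⟩ := exists_lim_of_approx (g := g) (a := κ0 / 2)
    (b := κ t0 + K * t0 ^ (-c)) (by
      intro δ hδ
      obtain ⟨t, ht, hts⟩ := hsmall (min (δ / 2) (κ0 / 2)) (lt_min (by positivity) (by positivity))
      have hts1 : K * t ^ (-c) ≤ δ / 2 := hts.trans (min_le_left _ _)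
      have hts2 : K * t ^ (-c) ≤ κ0 / 2 := hts.trans (min_le_right _ _)
      refine ⟨κ t, ?_, hcmp t t0 ht ht0, ?_⟩
      · have := hcmp t0 t ht0 ht
        rw [hκt0] at this
        linarith
      · have h1 := (Metric.tendsto_nhds.1 (hκt t ht)) (δ / 2) (by positivity)
        filter_upwards [h1, hcomp t ht] with B a1 a2
        rw [Real.dist_eq] at a1
        have b1 := abs_lt.1 a1
        rw [abs_le]
        constructor
        · linarith [a2.1, b1.1]
        · linarith [a2.2, b1.2])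
  refine ⟨l / 2, by linarith, ?_⟩
  have h1 := hl3.div_const 2
  refine h1.congr fun B => ?_
  simp only [hg]
  ring

end Pool.Agent.Lib.MP_1acd66_nt.Gen
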