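import Pool.Agent.Lib.MP_1acd66_nt.Gen.FrameSum

/-! The density of the weighted count and positivity of its constant. -/

set_option linter.unusedSectionVars false

namespace Pool.Agent.Lib.MP_1acd66_nt.Gen

open MeasureTheory Metric Set Filter Topology
open scoped Classical

variable {k : ℕ} {r N : Fin k → ℕ} {W : Type} [Fintype W] {ρ : FRep r W}
  {M : Frm ℝ r N → (W → ℝ) → ℝ}

theorem IsLocalNorm.bodyVol_pos (hM : IsLocalNorm ℝ N ρ M) (hW : 0 < Fintype.card W)
    {Z : Frm ℝ r N} (hZ : AllFrame Z) : 0 < bodyVol M Z := by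
  obtain ⟨c, C, hc, hC, hb⟩ := hM.compact_bound (K := {Z}) isCompact_singleton
    (by rintro Z' rfl; exact hZ)
  set D := Fintype.card W with hD
  have : Nonempty W := Fintype.card_pos_iff.1 hW
  set r : ℝ := min 1 (1 / C) with hr
  have hr0 : 0 < r := lt_min one_pos (by positivity)
  have hr1 : r ≤ 1 := min_le_left _ _
  have hrC : C * r ≤ 1 := by
    calc C * r ≤ C * (1 / C) := mul_le_mul_of_nonneg_left (min_le_right _ _) hC.le
      _ = 1 := by field_simp
  set y : W → ℝ := fun _ => r / 2 with hy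
  have hyn : ‖y‖ = r / 2 := by
    rw [hy, pi_norm_const, Real.norm_eq_abs, abs_of_pos (by positivity)]
  have hsub : ball y (r / 4) ⊆ sub (M Z) 1 := by
    intro x hx
    rw [mem_ball, dist_eq_norm] at hx
    have h1 : ‖y‖ ≤ ‖x‖ + ‖x - y‖ := by
      have : y = x - (x - y) := by abel
      calc ‖y‖ = ‖x - (x - y)‖ := by rw [← this]
        _ ≤ _ := norm_sub_le _ _
    have h2 : ‖x‖ ≤ ‖y‖ + ‖x - y‖ := by
      have : x = y + (x - y) := by abel
      calc ‖x‖ = ‖y + (x - y)‖ := by rw [← this]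
        _ ≤ _ := norm_add_le _ _
    have hxpos : 0 < ‖x‖ := by linarith
    have hxr : ‖x‖ ≤ r := by linarith
    have hx0 : x ≠ 0 := norm_pos_iff.1 hxpos
    refine ⟨hx0, (hb Z rfl x hx0).2.trans ?_⟩
    have h3 : ‖x‖ ^ D ≤ r := by
      calc ‖x‖ ^ D ≤ r ^ D := pow_le_pow_left₀ hxpos.le hxr D
        _ ≤ r ^ 1 := pow_le_pow_of_le_one hr0.le hr1 hW
        _ = r := pow_one r
    calc C * ‖x‖ ^ D ≤ C * r := mul_le_mul_of_nonneg_left h3 hC.le
      _ ≤ 1 := hrC
  have h1 : (volume : Measure (W → ℝ)).real (ball y (r / 4)) ≤ bodyVol M Z :=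
    measureReal_mono hsub (measure_sub_lt_top _ hW hc (fun A hA => (hb Z rfl A hA).1) _).ne
  have h2 : 0 < (volume : Measure (W → ℝ)).real (ball y (r / 4)) :=
    ENNReal.toReal_pos (measure_ball_pos _ _ (by positivity)).ne' measure_ball_lt_top.ne
  linarith

/-- the standard frame -/
def stdF {r N : ℕ} (h : r ≤ N) : Fin r → Fin N → ℝ :=
  fun a j => if j = Fin.castLE h a then 1 else 0

theorem dot_stdF {r N : ℕ} (h : r ≤ N) (a b : Fin r) :
    dot (stdF h a) (stdF h b) = if a = b then 1 else 0 := by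
  rw [dot, Finset.sum_eq_single (Fin.castLE h a)]
  · by_cases hab : a = b
    · simp [stdF, hab]
    · have : Fin.castLE h a ≠ Fin.castLE h b := fun h' => hab (Fin.castLE_injective h h')
      simp [stdF, hab, this]
  · intro j _ hj
    simp [stdF, hj]
  · intro h'; exact absurd (Finset.mem_univ _) h'

theorem gram_stdF {r N : ℕ} (h : r ≤ N) : gram (stdF h) = 1 := by
  have : (Matrix.of fun a b => dot (stdF h a) (stdF h b)) = (1 : Matrix (Fin r) (Fin r) ℝ) := by
    ext a b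
    rw [Matrix.of_apply, dot_stdF, Matrix.one_apply]
  rw [gram, this, Matrix.det_one]

theorem norm_stdF {r N : ℕ} (hr : 0 < r) (h : r ≤ N) : ‖stdF h‖ = 1 := by
  refine le_antisymm ?_ ?_
  · rw [pi_norm_le_iff_of_nonneg zero_le_one]
    intro a
    rw [pi_norm_le_iff_of_nonneg zero_le_one]
    intro j
    simp only [stdF]
    split_ifs <;> simp
  · have h1 : ‖stdF h ⟨0, hr⟩ (Fin.castLE h ⟨0, hr⟩)‖ ≤ ‖stdF h‖ :=
      (norm_le_pi_norm (stdF h ⟨0, hr⟩) _).trans (norm_le_pi_norm (stdF h) _)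
    simpa [stdF] using h1

theorem kapM_dens_pos (hM : IsLocalNorm ℝ N ρ M) (hw : ∀ i, ρ.b i ≤ N i)
    (hr : ∀ i, 0 < r i) (hrN : ∀ i, r i ≤ N i) (hW : 0 < Fintype.card W) {t : ℝ} (ht : 2 ≤ t) :
    0 < kapM (dens t M) := by
  have hn : ∀ i, 0 < r i * N i := fun i => Nat.mul_pos (hr i) ((hr i).trans_le (hrN i))
  set Z : Frm ℝ r N := fun i => stdF (hrN i) with hZ
  have hnorm : ∀ i, ‖Z i‖ = 1 := fun i => norm_stdF (hr i) (hrN i)
  have hgram : ∀ i, gram (Z i) = 1 := fun i => gram_stdF (hrN i)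
  have hne : ∀ i, Z i ≠ 0 := by
    intro i h
    have := hnorm i
    rw [h, norm_zero] at this
    exact zero_ne_one this
  have hfr : AllFrame Z := fun i => (gram_pos_iff (Z i)).1 (by rw [hgram i]; exact one_pos)
  have hbal : ∀ i, bal t (Z i) = 1 := by
    intro i
    refine bal_eq_one (hne i) ?_
    rw [hnorm i, hgram i, Real.sqrt_one]
    simpa using ht
  have hwt : 0 < wtt t Z := by
    rw [wtt]
    refine Finset.prod_pos fun i _ => ?_
    rw [wt, hbal i]
    exact div_pos one_pos (lt_of_lt_of_le one_pos (le_max_left _ _))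
  exact kapM_pos hn (mHom_dens hM hw hr hW t) hne (mul_pos hwt (hM.bodyVol_pos hW hfr))

end Pool.Agent.Lib.MP_1acd66_nt.Gen
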