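import Pool.Agent.Lib.MP_1acd66_nt.Gen.Bounds
import Pool.Agent.Lib.MP_1acd66_nt.Dyadic

/-! The contribution of the frames that are not saturated at some large prime. -/

set_option linter.unusedSectionVars false

namespace Pool.Agent.Lib.MP_1acd66_nt.Gen

open Finset

/-- the covolume of a single integral frame -/
noncomputable def sgr {r N : ℕ} (Z : Fin r → Fin N → ℤ) : ℝ := √(gram (real1 Z))

/-- the sum over reduced frames -/
def RedSum (Red : ∀ {r N : ℕ}, (Fin r → Fin N → ℤ) → Prop) (r N : ℕ) : Prop :=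
  ∃ C : ℝ, 0 < C ∧ ∀ T : ℝ, 1 ≤ T → ∀ S : Finset (Fin r → Fin N → ℤ),
    (∀ V ∈ S, IsFrame V ∧ Red V ∧ sgr V ≤ T) → ∑ V ∈ S, (sgr V ^ N)⁻¹ ≤ C * (1 + Real.log T)

/-- every frame can be reduced -/
def RedEx (Red : ∀ {r N : ℕ}, (Fin r → Fin N → ℤ) → Prop) (r N : ℕ) : Prop :=
  ∀ Z : Fin r → Fin N → ℤ, IsFrame Z → ∃ g : Matrix (Fin r) (Fin r) ℤ, IsUnit g.det ∧
    Red (rowOp g Z)

section single

variable {r N : ℕ}

theorem sgr_nonneg (Z : Fin r → Fin N → ℤ) : 0 ≤ sgr Z := Real.sqrt_nonneg _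

theorem sgr_rowOp (h : Matrix (Fin r) (Fin r) ℤ) (Z : Fin r → Fin N → ℤ) :
    sgr (rowOp h Z) = |(h.det : ℝ)| * sgr Z := by
  have e : real1 (rowOp h Z) = rowOp (castM h) (real1 Z) := rowOp_real1 h Z
  rw [sgr, sgr, e, gram_rowOp, castM_det, Real.sqrt_mul (sq_nonneg _), Real.sqrt_sq_eq_abs]

theorem one_le_sgr {Z : Fin r → Fin N → ℤ} (hZ : IsFrame Z) : 1 ≤ sgr Z := by
  have h1 := gram_pos_int hZ
  have h2 : (1:ℤ) ≤ gram Z := h1
  have h3 : (1:ℝ) ≤ gram (real1 Z) := by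
    rw [gram_real1]; exact_mod_cast h2
  rw [sgr]
  exact Real.one_le_sqrt.2 h3

/-- the constant in the Hadamard bound -/
noncomputable def hc (r N : ℕ) : ℝ := max 1 ((r.factorial : ℝ) * (N:ℝ) ^ r)

theorem one_le_hc (r N : ℕ) : 1 ≤ hc r N := le_max_left _ _

theorem sgr_le (Z : Fin r → Fin N → ℤ) : sgr Z ≤ hc r N * ‖real1 Z‖ ^ r := by
  rw [sgr]
  apply Real.sqrt_le_iff.2
  have h1 := one_le_hc r N
  refine ⟨by positivity, ?_⟩
  refine (gram_le (real1 Z)).trans ?_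
  have h2 : ∏ a, ‖real1 Z a‖ ≤ ‖real1 Z‖ ^ r := by
    calc ∏ a, ‖real1 Z a‖ ≤ ∏ _a : Fin r, ‖real1 Z‖ :=
          Finset.prod_le_prod (fun _ _ => norm_nonneg _) fun a _ => norm_le_pi_norm (real1 Z) a
      _ = _ := by rw [Finset.prod_const, Finset.card_univ, Fintype.card_fin]
  have h0 : 0 ≤ ∏ a, ‖real1 Z a‖ := Finset.prod_nonneg fun _ _ => norm_nonneg _
  have h3 : (∏ a, ‖real1 Z a‖) ^ 2 ≤ (‖real1 Z‖ ^ r) ^ 2 := pow_le_pow_left₀ h0 h2 2
  have h4 : (r.factorial : ℝ) * (N:ℝ) ^ r ≤ hc r N := le_max_right _ _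
  have h5 : hc r N ≤ hc r N ^ 2 := by nlinarith
  rw [mul_pow]
  exact mul_le_mul (h4.trans h5) h3 (by positivity) (by positivity)

theorem nonsat_sum1 {Red : ∀ {r N : ℕ}, (Fin r → Fin N → ℤ) → Prop} (hr : 0 < r) (hrN : r < N)
    (hex' : RedEx Red r N) (hsum : RedSum Red r N) : ∃ C : ℝ, 0 < C ∧ ∀ t : ℝ, 0 < t →
    ∀ p : ℕ, p.Prime → ∀ T : ℝ, 1 ≤ T → ∀ S : Finset (Fin r → Fin N → ℤ),
      (∀ Z ∈ S, IsFrame Z ∧ NonSatAt p Z ∧ sgr Z ≤ T) →
      ∑ Z ∈ S, wt t (real1 Z) * (sgr Z ^ N)⁻¹ ≤ C * (2 * ((p:ℝ) ^ 2)⁻¹) * (1 + Real.log T) := by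
  classical
  obtain ⟨C, hC, hred⟩ := hsum
  refine ⟨C, hC, ?_⟩
  intro t ht p hp T hT S hS
  have hppos : (0:ℝ) < p := by exact_mod_cast hp.pos
  have hp2 : (2:ℝ) ≤ p := by exact_mod_cast hp.two_le
  have hex : ∀ Z ∈ S, ∃ (h : Matrix (Fin r) (Fin r) ℤ) (W : Fin r → Fin N → ℤ), |h.det| = p ∧
      Z = rowOp h W ∧ Red W ∧ IsFrame W := by
    intro Z hZ
    obtain ⟨hF, hns, _⟩ := hS Z hZ
    obtain ⟨h, W, hdet, rfl⟩ := exists_super hp hns
    have hFW := isFrame_of_rowOp hF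
    obtain ⟨g, hg, hW⟩ := hex' W hFW
    refine ⟨h * g⁻¹, rowOp g W, ?_, ?_, hW, ?_⟩
    · rw [Matrix.det_mul, abs_mul, hdet]
      have := isUnit_det_inv hg
      rw [Int.isUnit_iff_abs_eq] at this
      rw [this, mul_one]
      exact abs_of_nonneg (Int.natCast_nonneg _)
    · rw [← rowOp_mul, Matrix.mul_assoc, Matrix.nonsing_inv_mul g hg, Matrix.mul_one]
    · obtain ⟨s, hs⟩ := hFW
      exact ⟨s, by rw [minor_rowOp]; exact mul_ne_zero hg.ne_zero hs⟩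
  choose! H W hdet hZW hWred hWfr using hex
  have hmaps : ∀ Z ∈ S, W Z ∈ S.image W := fun Z hZ => Finset.mem_image_of_mem _ hZ
  have hsg : ∀ Z ∈ S, sgr Z = p * sgr (W Z) := by
    intro Z hZ
    conv_lhs => rw [hZW Z hZ]
    rw [sgr_rowOp]
    have : |((H Z).det : ℝ)| = p := by
      have := hdet Z hZ
      exact_mod_cast this
    rw [this]
  rw [← Finset.sum_fiberwise_of_maps_to hmaps]
  have hinner : ∀ V ∈ S.image W, ∑ Z ∈ S with W Z = V, wt t (real1 Z) * (sgr Z ^ N)⁻¹ ≤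
      (gs r p * ((p:ℝ) ^ N)⁻¹) * (sgr V ^ N)⁻¹ := by
    intro V _
    have e1 : ∀ Z ∈ S.filter (fun Z => W Z = V), wt t (real1 Z) * (sgr Z ^ N)⁻¹ =
        (((p:ℝ) ^ N)⁻¹ * (sgr V ^ N)⁻¹) * wt t (rowOp (castM (H Z)) (real1 V)) := by
      intro Z hZ
      obtain ⟨a1, a2⟩ := Finset.mem_filter.1 hZ
      have hZ' : Z = rowOp (H Z) V := by rw [← a2]; exact hZW Z a1
      have hd : sgr Z = p * sgr V := by rw [hsg Z a1, a2]
      have hc : real1 Z = rowOp (castM (H Z)) (real1 V) := by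
        conv_lhs => rw [hZ']
        exact rowOp_real1 (H Z) V
      rw [hd, hc, mul_pow, mul_inv]
      ring
    rw [Finset.sum_congr rfl e1, ← Finset.mul_sum]
    have hinj : Set.InjOn H (S.filter (fun Z => W Z = V)) := by
      intro Z hZ Z' hZ' hHH
      obtain ⟨a1, a2⟩ := Finset.mem_filter.1 hZ
      obtain ⟨b1, b2⟩ := Finset.mem_filter.1 hZ'
      rw [hZW Z a1, hZW Z' b1, hHH, a2, b2]
    have e2 : ∑ Z ∈ S with W Z = V, wt t (rowOp (castM (H Z)) (real1 V)) =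
        ∑ h ∈ (S.filter (fun Z => W Z = V)).image H, wt t (rowOp (castM h) (real1 V)) := by
      rw [Finset.sum_image hinj]
    have h3 := wt_sum_det hr ht hp (real1 V) ((S.filter (fun Z => W Z = V)).image H) (by
      intro h hh
      obtain ⟨Z, hZ, rfl⟩ := Finset.mem_image.1 hh
      exact hdet Z (Finset.mem_filter.1 hZ).1)
    rw [← e2] at h3
    have hd0 : 0 ≤ sgr V := Real.sqrt_nonneg _
    calc (((p:ℝ) ^ N)⁻¹ * (sgr V ^ N)⁻¹) * ∑ Z ∈ S with W Z = V, wt t (rowOp (castM (H Z)) (real1 V))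
        ≤ (((p:ℝ) ^ N)⁻¹ * (sgr V ^ N)⁻¹) * gs r p :=
          mul_le_mul_of_nonneg_left h3 (by positivity)
      _ = _ := by ring
  refine (Finset.sum_le_sum hinner).trans ?_
  rw [← Finset.mul_sum]
  have h4 := hred T hT (S.image W) (by
    intro V hV
    obtain ⟨Z, hZ, rfl⟩ := Finset.mem_image.1 hV
    refine ⟨hWfr Z hZ, hWred Z hZ, ?_⟩
    have h5 := (hS Z hZ).2.2
    have hd := hsg Z hZ
    have h6 : 1 ≤ sgr (W Z) := one_le_sgr (hWfr Z hZ)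
    nlinarith)
  have hlog : 0 ≤ C * (1 + Real.log T) := by
    have := Real.log_nonneg hT
    positivity
  have h5 : gs r p * ((p:ℝ) ^ N)⁻¹ ≤ 2 * ((p:ℝ) ^ 2)⁻¹ := by
    refine (gs_mul_le hp.two_le hrN).trans ?_
    rw [← div_eq_mul_inv, inv_eq_one_div, div_le_div_iff₀ (by nlinarith) (by positivity)]
    nlinarith
  have h50 : 0 ≤ gs r p * ((p:ℝ) ^ N)⁻¹ := mul_nonneg (gs_nonneg _ _) (by positivity)
  calc gs r p * ((p:ℝ) ^ N)⁻¹ * ∑ V ∈ S.image W, (sgr V ^ N)⁻¹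
      ≤ gs r p * ((p:ℝ) ^ N)⁻¹ * (C * (1 + Real.log T)) := mul_le_mul_of_nonneg_left h4 h50
    _ ≤ 2 * ((p:ℝ) ^ 2)⁻¹ * (C * (1 + Real.log T)) := mul_le_mul_of_nonneg_right h5 hlog
    _ = _ := by ring

theorem finite_box1 (r N : ℕ) (R : ℝ) :
    {Z : Fin r → Fin N → ℤ | Z ≠ 0 ∧ ‖real1 Z‖ ≤ R}.Finite := by
  have h : {Z : Fin r → Fin N → ℤ | ∀ i, Z i ∈ {x : Fin N → ℤ | ∀ j, x j ∈
      Set.Icc (-⌊R⌋) ⌊R⌋}}.Finite :=
    Set.Finite.pi' fun _ => Set.Finite.pi' fun _ => Set.finite_Icc _ _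
  refine h.subset ?_
  rintro Z ⟨_, hZ⟩ i j
  have h1 : |((Z i j : ℤ) : ℝ)| ≤ R :=
    ((norm_le_pi_norm (real1 Z i) j).trans (norm_le_pi_norm (real1 Z) i)).trans hZ
  rw [abs_le] at h1
  constructor
  · have : -(Z i j) ≤ ⌊R⌋ := Int.le_floor.2 (by push_cast; linarith)
    linarith
  · exact Int.le_floor.2 h1.2

/-- nonzero integral arrays in a box -/
noncomputable def box1 (r N : ℕ) (R : ℝ) : Finset (Fin r → Fin N → ℤ) := (finite_box1 r N R).toFinset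

theorem mem_box1 {R : ℝ} {Z : Fin r → Fin N → ℤ} : Z ∈ box1 r N R ↔ Z ≠ 0 ∧ ‖real1 Z‖ ≤ R := by
  simp [box1]

theorem card_box1 {R : ℝ} (hR : 1 ≤ R) (S : Finset (Fin r → Fin N → ℤ))
    (hS : ∀ Z ∈ S, ‖real1 Z‖ ≤ R) : (S.card : ℝ) ≤ (3 * R) ^ (r * N) := by
  classical
  set e : (Fin r → Fin N → ℤ) → (Fin r × Fin N → ℤ) := fun Z x => Z x.1 x.2 with he
  have hinj : Function.Injective e := by
    intro Z Z' h
    funext i j
    exact congrFun h (i, j)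
  have h := card_boxW (W := Fin r × Fin N) (B := fun _ => R) (fun _ => hR) (S.image e) (by
    intro A hA w
    obtain ⟨Z, hZ, rfl⟩ := Finset.mem_image.1 hA
    exact ((norm_le_pi_norm (real1 Z w.1) w.2).trans (norm_le_pi_norm (real1 Z) w.1)).trans
      (hS Z hZ))
  rw [Finset.card_image_of_injective _ hinj, Finset.prod_const, Finset.card_univ,
    Fintype.card_prod, Fintype.card_fin, Fintype.card_fin] at h
  exact h

theorem sum_norm1 {R : ℝ} (hR : 1 ≤ R) :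
    ∑ Z ∈ box1 r N R, (‖real1 Z‖ ^ (r * N))⁻¹ ≤
      2 ^ (r * N + 1) * 3 ^ (r * N) * (1 + Real.log R) := by
  refine dyadic_log (box1 r N R) (fun Z => ‖real1 Z‖) (K := 3 ^ (r * N)) (α := r * N)
    (by positivity) ?_ hR ?_ ?_
  · intro Z hZ
    exact one_le_norm_real1 (mem_box1.1 hZ).1
  · intro Z hZ
    exact (mem_box1.1 hZ).2
  · intro R' hR'
    rw [← mul_pow]
    exact card_box1 hR' _ (fun Z hZ => (Finset.mem_filter.1 hZ).2)

theorem sum_biUnion_le' {ι α : Type*} [DecidableEq α] (s : Finset ι) (t : ι → Finset α)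
    (g : α → ℝ) (hg : ∀ x, 0 ≤ g x) :
    ∑ x ∈ s.biUnion t, g x ≤ ∑ i ∈ s, ∑ x ∈ t i, g x := by
  classical
  induction s using Finset.induction_on with
  | empty => simp
  | insert a s ha ih =>
    rw [Finset.biUnion_insert, Finset.sum_insert ha]
    refine le_trans ?_ (add_le_add_right ih _)
    have h := Finset.sum_union_inter (s₁ := t a) (s₂ := s.biUnion t) (f := g)
    have h0 : 0 ≤ ∑ x ∈ t a ∩ s.biUnion t, g x := Finset.sum_nonneg fun x _ => hg x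
    linarith

open scoped Classical in
/-- The contribution of single frames that are not saturated at some large prime. -/
theorem sum_nonsat1 {Red : ∀ {r N : ℕ}, (Fin r → Fin N → ℤ) → Prop} (hr : 0 < r) (hrN : r < N)
    (hex' : RedEx Red r N) (hsum : RedSum Red r N) : ∃ C : ℝ, 0 < C ∧ ∀ t : ℝ, 0 < t →
    ∀ P : ℕ, 0 < P → ∀ R : ℝ, 1 ≤ R →
    ∑ Z ∈ (box1 r N R).filter (fun Z => IsFrame Z ∧ ∃ p : ℕ, p.Prime ∧ P < p ∧ NonSatAt p Z),
      wt t (real1 Z) * (‖real1 Z‖ ^ (r * N))⁻¹ ≤ C * (P:ℝ)⁻¹ * (1 + Real.log R) := by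
  obtain ⟨C, hC, hns⟩ := nonsat_sum1 hr hrN hex' hsum
  set c0 := hc r N with hc0
  have hc1 : 1 ≤ c0 := one_le_hc r N
  have hlogc : 0 ≤ Real.log c0 := Real.log_nonneg hc1
  refine ⟨c0 ^ N * (C * 2) * ((1 + Real.log c0) + r), by positivity, ?_⟩
  intro t ht P hP R hR
  have hlogR : 0 ≤ Real.log R := Real.log_nonneg hR
  set S := (box1 r N R).filter (fun Z => IsFrame Z ∧ ∃ p : ℕ, p.Prime ∧ P < p ∧ NonSatAt p Z)
    with hS
  set L : ℕ := (box1 r N R).sup (fun Z => Finset.univ.sup (fun s => (minor Z s).natAbs)) with hL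
  set T : ℝ := c0 * R ^ r with hT
  have hT1 : 1 ≤ T := by
    have h2 : (1:ℝ) ≤ R ^ r := one_le_pow₀ hR
    nlinarith
  have hsT : ∀ Z ∈ box1 r N R, sgr Z ≤ T := by
    intro Z hZ
    refine (sgr_le Z).trans ?_
    exact mul_le_mul_of_nonneg_left (pow_le_pow_left₀ (norm_nonneg _) (mem_box1.1 hZ).2 r)
      (by linarith)
  -- comparison of norms
  have hcomp : ∀ Z ∈ S, wt t (real1 Z) * (‖real1 Z‖ ^ (r * N))⁻¹ ≤
      c0 ^ N * (wt t (real1 Z) * (sgr Z ^ N)⁻¹) := by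
    intro Z hZ
    obtain ⟨h1, h2⟩ := Finset.mem_filter.1 hZ
    have hd1 := one_le_sgr h2.1
    have hn1 := one_le_norm_real1 (mem_box1.1 h1).1
    have h3 : (‖real1 Z‖ ^ (r * N))⁻¹ ≤ c0 ^ N * (sgr Z ^ N)⁻¹ := by
      rw [← div_eq_mul_inv, inv_eq_one_div, div_le_div_iff₀ (by positivity) (by positivity), one_mul,
        pow_mul, ← mul_pow]
      exact pow_le_pow_left₀ (by linarith) (sgr_le Z) N
    calc wt t (real1 Z) * (‖real1 Z‖ ^ (r * N))⁻¹ ≤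
        wt t (real1 Z) * (c0 ^ N * (sgr Z ^ N)⁻¹) :=
          mul_le_mul_of_nonneg_left h3 (wt_nonneg _ _)
      _ = _ := by ring
  refine (Finset.sum_le_sum hcomp).trans ?_
  rw [← Finset.mul_sum]
  -- union over primes
  have hsub : S ⊆ ((Finset.Ioc P (max P L)).filter Nat.Prime).biUnion (fun p =>
      (box1 r N R).filter (fun Z => IsFrame Z ∧ NonSatAt p Z)) := by
    intro Z hZ
    obtain ⟨h1, h2, p, hp, hPp, hns'⟩ := Finset.mem_filter.1 hZ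
    rw [Finset.mem_biUnion]
    refine ⟨p, Finset.mem_filter.2 ⟨Finset.mem_Ioc.2 ⟨hPp, ?_⟩, hp⟩,
      Finset.mem_filter.2 ⟨h1, h2, hns'⟩⟩
    obtain ⟨s, hs⟩ := h2
    have h7 : p ≤ (minor Z s).natAbs :=
      Nat.le_of_dvd (Int.natAbs_pos.2 hs) (Int.natCast_dvd.1 (hns' s))
    have h8 : (minor Z s).natAbs ≤ Finset.univ.sup (fun s => (minor Z s).natAbs) :=
      Finset.le_sup (f := fun s => (minor Z s).natAbs) (Finset.mem_univ s)
    have h9 : Finset.univ.sup (fun s => (minor Z s).natAbs) ≤ L :=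
      Finset.le_sup (f := fun Z : Fin r → Fin N → ℤ =>
        Finset.univ.sup (fun s => (minor Z s).natAbs)) h1
    exact ((h7.trans h8).trans h9).trans (le_max_right _ _)
  have hnn : ∀ Z : Fin r → Fin N → ℤ, 0 ≤ wt t (real1 Z) * (sgr Z ^ N)⁻¹ := fun Z =>
    mul_nonneg (wt_nonneg _ _) (inv_nonneg.2 (pow_nonneg (Real.sqrt_nonneg _) _))
  have h1 : ∑ Z ∈ S, wt t (real1 Z) * (sgr Z ^ N)⁻¹ ≤
      ∑ p ∈ (Finset.Ioc P (max P L)).filter Nat.Prime,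
        ∑ Z ∈ (box1 r N R).filter (fun Z => IsFrame Z ∧ NonSatAt p Z),
          wt t (real1 Z) * (sgr Z ^ N)⁻¹ := by
    refine (Finset.sum_le_sum_of_subset_of_nonneg hsub (fun Z _ _ => hnn Z)).trans ?_
    exact sum_biUnion_le' _ _ _ hnn
  have h2 : ∀ p ∈ (Finset.Ioc P (max P L)).filter Nat.Prime,
      ∑ Z ∈ (box1 r N R).filter (fun Z => IsFrame Z ∧ NonSatAt p Z),
        wt t (real1 Z) * (sgr Z ^ N)⁻¹ ≤ (C * 2 * (1 + Real.log T)) * ((p:ℝ) ^ 2)⁻¹ := by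
    intro p hp
    obtain ⟨hp1, hp2⟩ := Finset.mem_filter.1 hp
    have h3 := hns t ht p hp2 T hT1 ((box1 r N R).filter (fun Z => IsFrame Z ∧ NonSatAt p Z)) (by
      intro Z hZ
      obtain ⟨a1, a2, a3⟩ := Finset.mem_filter.1 hZ
      exact ⟨a2, a3, hsT Z a1⟩)
    refine h3.trans (le_of_eq ?_)
    ring
  have h3 : ∑ p ∈ (Finset.Ioc P (max P L)).filter Nat.Prime, ((p:ℝ) ^ 2)⁻¹ ≤ (P:ℝ)⁻¹ := by
    refine (Finset.sum_le_sum_of_subset_of_nonneg (Finset.filter_subset _ _)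
      (fun _ _ _ => by positivity)).trans ?_
    have := sum_Ioc_inv_sq_le_sub (α := ℝ) hP.ne' (le_max_left P L)
    have h5 : (0:ℝ) ≤ ((max P L : ℕ) : ℝ)⁻¹ := by positivity
    linarith
  have hlogT : 1 + Real.log T ≤ ((1 + Real.log c0) + r) * (1 + Real.log R) := by
    rw [hT, Real.log_mul (by positivity) (by positivity), Real.log_pow]
    have hr0 : (0:ℝ) ≤ r := Nat.cast_nonneg r
    nlinarith
  have hlT0 : 0 ≤ 1 + Real.log T := by
    have := Real.log_nonneg hT1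
    linarith
  calc c0 ^ N * ∑ Z ∈ S, wt t (real1 Z) * (sgr Z ^ N)⁻¹
      ≤ c0 ^ N * ∑ p ∈ (Finset.Ioc P (max P L)).filter Nat.Prime,
          (C * 2 * (1 + Real.log T)) * ((p:ℝ) ^ 2)⁻¹ :=
        mul_le_mul_of_nonneg_left (h1.trans (Finset.sum_le_sum h2)) (by positivity)
    _ = c0 ^ N * ((C * 2 * (1 + Real.log T)) *
          ∑ p ∈ (Finset.Ioc P (max P L)).filter Nat.Prime, ((p:ℝ) ^ 2)⁻¹) := by
        congr 1
        rw [Finset.mul_sum]
    _ ≤ c0 ^ N * ((C * 2 * (1 + Real.log T)) * (P:ℝ)⁻¹) := by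
        apply mul_le_mul_of_nonneg_left _ (by positivity)
        exact mul_le_mul_of_nonneg_left h3 (by positivity)
    _ = c0 ^ N * (C * 2) * (P:ℝ)⁻¹ * (1 + Real.log T) := by ring
    _ ≤ c0 ^ N * (C * 2) * (P:ℝ)⁻¹ * (((1 + Real.log c0) + r) * (1 + Real.log R)) :=
        mul_le_mul_of_nonneg_left hlogT (by positivity)
    _ = _ := by ring

end single

section product

variable {k : ℕ} {r N : Fin k → ℕ}

open scoped Classical

/-- the sum over all families -/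
theorem sum_PN (r N : Fin k → ℕ) : ∃ C : ℝ, 0 < C ∧ ∀ R : ℝ, 1 ≤ R →
    ∀ S : Finset (Frm ℤ r N), (∀ Z ∈ S, ∀ i, Z i ≠ 0 ∧ ‖realF Z i‖ ≤ R) →
    ∑ Z ∈ S, (PN (realF Z))⁻¹ ≤ C * (1 + Real.log R) ^ k := by
  refine ⟨∏ i : Fin k, (2 ^ (r i * N i + 1) * 3 ^ (r i * N i)), by positivity, ?_⟩
  intro R hR S hS
  have hlog := Real.log_nonneg hR
  have hsub : S ⊆ Fintype.piFinset (fun i => box1 (r i) (N i) R) := by
    intro Z hZ
    rw [Fintype.mem_piFinset]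
    intro i
    exact mem_box1.2 (hS Z hZ i)
  refine (Finset.sum_le_sum_of_subset_of_nonneg hsub fun Z _ _ =>
    inv_nonneg.2 (Finset.prod_nonneg fun _ _ => by positivity)).trans ?_
  have e : ∀ Z : Frm ℤ r N, (PN (realF Z))⁻¹ = ∏ i, (‖real1 (Z i)‖ ^ (r i * N i))⁻¹ := by
    intro Z
    rw [PN, Finset.prod_inv_distrib]
    rfl
  rw [Finset.sum_congr rfl fun Z _ => e Z, ← Finset.prod_univ_sum (fun i => box1 (r i) (N i) R)
    (fun i Z => (‖real1 Z‖ ^ (r i * N i))⁻¹)]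
  calc ∏ i, ∑ Z ∈ box1 (r i) (N i) R, (‖real1 Z‖ ^ (r i * N i))⁻¹
      ≤ ∏ i : Fin k, (2 ^ (r i * N i + 1) * 3 ^ (r i * N i) * (1 + Real.log R)) :=
        Finset.prod_le_prod (fun i _ => Finset.sum_nonneg fun _ _ => by positivity)
          fun i _ => sum_norm1 hR
    _ = _ := by
        rw [Finset.prod_mul_distrib, Finset.prod_const, Finset.card_univ, Fintype.card_fin]

/-- the sum over the families with a member which is not saturated at a large prime -/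
theorem sum_nonF {Red : ∀ {r N : ℕ}, (Fin r → Fin N → ℤ) → Prop} (hr : ∀ i, 0 < r i)
    (hrN : ∀ i, r i < N i) (hex' : ∀ i, RedEx Red (r i) (N i))
    (hsum : ∀ i, RedSum Red (r i) (N i)) : ∃ C : ℝ, 0 < C ∧ ∀ t : ℝ, 0 < t →
    ∀ P : ℕ, 0 < P → ∀ R : ℝ, 1 ≤ R → ∀ S : Finset (Frm ℤ r N),
    (∀ Z ∈ S, ∀ i, Z i ≠ 0 ∧ ‖realF Z i‖ ≤ R) →
    ∑ Z ∈ S.filter (NonF P), wtt t (realF Z) * (PN (realF Z))⁻¹ ≤
      C * (P:ℝ)⁻¹ * (1 + Real.log R) ^ k := by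
  have h1 : ∀ i, ∃ C : ℝ, 0 < C ∧ ∀ t : ℝ, 0 < t →
    ∀ P : ℕ, 0 < P → ∀ R : ℝ, 1 ≤ R →
    ∑ Z ∈ (box1 (r i) (N i) R).filter
        (fun Z => IsFrame Z ∧ ∃ p : ℕ, p.Prime ∧ P < p ∧ NonSatAt p Z),
      wt t (real1 Z) * (‖real1 Z‖ ^ (r i * N i))⁻¹ ≤ C * (P:ℝ)⁻¹ * (1 + Real.log R) :=
    fun i => sum_nonsat1 (hr i) (hrN i) (hex' i) (hsum i)
  choose C1 hC1 H1 using h1
  set K : Fin k → ℝ := fun i => max (C1 i) (2 ^ (r i * N i + 1) * 3 ^ (r i * N i)) with hK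
  have hKp : ∀ i, 0 < K i := fun i => lt_max_of_lt_left (hC1 i)
  refine ⟨k * ∏ i, K i + 1, ?_, ?_⟩
  · have : 0 < ∏ i, K i := Finset.prod_pos fun i _ => hKp i
    positivity
  intro t ht P hP R hR S hS
  have hlog := Real.log_nonneg hR
  have hP' : (0:ℝ) < P := by exact_mod_cast hP
  set g : Frm ℤ r N → ℝ := fun Z => wtt t (realF Z) * (PN (realF Z))⁻¹ with hg
  have hgn : ∀ Z, 0 ≤ g Z := fun Z => mul_nonneg (wtt_nonneg _ _)
    (inv_nonneg.2 (Finset.prod_nonneg fun _ _ => by positivity))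
  have hge : ∀ Z, g Z = ∏ i, (wt t (real1 (Z i)) * (‖real1 (Z i)‖ ^ (r i * N i))⁻¹) := by
    intro Z
    simp only [hg]
    rw [PN, ← Finset.prod_inv_distrib, wtt, ← Finset.prod_mul_distrib]
    rfl
  set Bx : Fin k → ∀ i : Fin k, Finset (Fin (r i) → Fin (N i) → ℤ) := fun i0 i =>
    if i = i0 then (box1 (r i) (N i) R).filter
        (fun Z => IsFrame Z ∧ ∃ p : ℕ, p.Prime ∧ P < p ∧ NonSatAt p Z)
      else box1 (r i) (N i) R with hBx
  have hsub : S.filter (NonF P) ⊆ (Finset.univ : Finset (Fin k)).biUnion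
      (fun i0 => Fintype.piFinset (Bx i0)) := by
    intro Z hZ
    obtain ⟨hZ1, hfr, i0, p, hp, hPp, hns⟩ := Finset.mem_filter.1 hZ
    rw [Finset.mem_biUnion]
    refine ⟨i0, Finset.mem_univ _, ?_⟩
    rw [Fintype.mem_piFinset]
    intro i
    have hb : Z i ∈ box1 (r i) (N i) R := mem_box1.2 (hS Z hZ1 i)
    simp only [hBx]
    split_ifs with hi
    · subst hi
      exact Finset.mem_filter.2 ⟨hb, hfr i, p, hp, hPp, hns⟩
    · exact hb
  have h2 : ∑ Z ∈ S.filter (NonF P), g Z ≤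
      ∑ i0 : Fin k, ∑ Z ∈ Fintype.piFinset (Bx i0), g Z :=
    (Finset.sum_le_sum_of_subset_of_nonneg hsub (fun Z _ _ => hgn Z)).trans
      (sum_biUnion_le' _ _ _ hgn)
  have h3 : ∀ i0 : Fin k, ∑ Z ∈ Fintype.piFinset (Bx i0), g Z ≤
      (∏ i, K i) * (P:ℝ)⁻¹ * (1 + Real.log R) ^ k := by
    intro i0
    rw [Finset.sum_congr rfl fun Z _ => hge Z, ← Finset.prod_univ_sum (Bx i0)
      (fun i Z => wt t (real1 Z) * (‖real1 Z‖ ^ (r i * N i))⁻¹)]
    calc ∏ i, ∑ Z ∈ Bx i0 i, wt t (real1 Z) * (‖real1 Z‖ ^ (r i * N i))⁻¹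
        ≤ ∏ i : Fin k, (K i * (if i = i0 then (P:ℝ)⁻¹ else 1) * (1 + Real.log R)) := by
          refine Finset.prod_le_prod (fun i _ => Finset.sum_nonneg fun Z _ =>
            mul_nonneg (wt_nonneg _ _) (by positivity)) fun i _ => ?_
          by_cases hi : i = i0
          · have e1 : Bx i0 i = (box1 (r i) (N i) R).filter
                (fun Z => IsFrame Z ∧ ∃ p : ℕ, p.Prime ∧ P < p ∧ NonSatAt p Z) := if_pos hi
            rw [e1, if_pos hi]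
            refine (H1 i t ht P hP R hR).trans ?_
            apply mul_le_mul_of_nonneg_right _ (by linarith)
            exact mul_le_mul_of_nonneg_right (le_max_left _ _) (by positivity)
          · have e1 : Bx i0 i = box1 (r i) (N i) R := if_neg hi
            rw [e1, if_neg hi, mul_one]
            calc ∑ Z ∈ box1 (r i) (N i) R, wt t (real1 Z) * (‖real1 Z‖ ^ (r i * N i))⁻¹
                ≤ ∑ Z ∈ box1 (r i) (N i) R, (‖real1 Z‖ ^ (r i * N i))⁻¹ := by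
                  refine Finset.sum_le_sum fun Z _ => ?_
                  exact mul_le_of_le_one_left (by positivity) (wt_le_one _ _)
              _ ≤ 2 ^ (r i * N i + 1) * 3 ^ (r i * N i) * (1 + Real.log R) := sum_norm1 hR
              _ ≤ _ := mul_le_mul_of_nonneg_right (le_max_right _ _) (by linarith)
      _ = _ := by
          rw [Finset.prod_mul_distrib, Finset.prod_mul_distrib, Finset.prod_const,
            Finset.card_univ, Fintype.card_fin, Finset.prod_ite_eq' Finset.univ i0 (fun _ => (P:ℝ)⁻¹)]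
          simp
  refine h2.trans ((Finset.sum_le_sum fun i0 _ => h3 i0).trans ?_)
  rw [Finset.sum_const, Finset.card_univ, Fintype.card_fin, nsmul_eq_mul]
  have h4 : 0 ≤ (P:ℝ)⁻¹ * (1 + Real.log R) ^ k := by positivity
  calc (k:ℝ) * ((∏ i, K i) * (P:ℝ)⁻¹ * (1 + Real.log R) ^ k)
      = (k * ∏ i, K i) * ((P:ℝ)⁻¹ * (1 + Real.log R) ^ k) := by ring
    _ ≤ (k * ∏ i, K i + 1) * ((P:ℝ)⁻¹ * (1 + Real.log R) ^ k) := by
        apply mul_le_mul_of_nonneg_right _ h4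
        linarith
    _ = _ := by ring

end product

end Pool.Agent.Lib.MP_1acd66_nt.Gen
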