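import Pool.Agent.Lib.MP_1acd66_nt.Gen.Reduce
import Pool.Agent.Lib.MP_1acd66_nt.Gen.NonSat

/-!
The sum of `covol ^ (-N)` over the reduced frames of bounded covolume.
-/

namespace Pool.Agent.Lib.MP_1acd66_nt.Gen

open Finset

theorem Redu.sqrt_gram {r N : ℕ} {Y : Fin r → Fin N → ℝ} {T : Matrix (Fin r) (Fin r) ℝ}
    {Q : Fin r → Fin N → ℝ} {l : Fin r → ℝ} (h : Redu Y T Q l) : √(gram Y) = ∏ a, l a := by
  have hdet : T.det = ∏ a, l a := by
    rw [Matrix.det_of_isLowerTriangular]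
    · exact prod_congr rfl fun a _ => h.diag a
    · intro a b hab
      exact h.upper a b hab
  rw [h.eq, gram_rowOp, h.ortho.gram, mul_one, Real.sqrt_sq_eq_abs, hdet,
    abs_of_pos (prod_pos fun a _ => h.pos a)]

theorem sgr_eq_prod {r N : ℕ} {Z : Fin r → Fin N → ℤ} (h : Red Z) : sgr Z = ∏ a, gsl Z a := by
  obtain ⟨T, Q, h, -⟩ := h.spec
  exact h.sqrt_gram

theorem redSum {r N : ℕ} (hr : 0 < r) : RedSum (fun {_ _} Z => Red Z) r N := by
  classical
  obtain ⟨Cc, hCc, hcount⟩ := redAPI.count r N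
  set i0 : Fin r := ⟨0, hr⟩ with hi0
  obtain ⟨C3, hC3, hsum⟩ := sum_exp_spread i0 one_pos
  set c : ℝ := 2 ^ r with hc
  have hc1 : 1 ≤ c := one_le_pow₀ (by norm_num)
  have hc0 : 0 < c := by linarith
  have hlc : 0 ≤ Real.log c := Real.log_nonneg hc1
  refine ⟨Cc * (C3 * (1 + Real.log c)), by positivity, ?_⟩
  intro T hT S hS
  have hlT : 0 ≤ Real.log T := Real.log_nonneg hT
  set ex : (Fin r → Fin N → ℤ) → (Fin r → ℤ) := fun Z a => ⌊Real.log (gsl Z a)⌋ with hex
  have hpos : ∀ Z ∈ S, ∀ a, 0 < gsl Z a := fun Z hZ a => redAPI.pos Z (hS Z hZ).1 a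
  have hclose : ∀ Z ∈ S, ∀ a, ((ex Z a : ℤ) : ℝ) ≤ Real.log (gsl Z a) ∧
      Real.log (gsl Z a) ≤ ((ex Z a : ℤ) : ℝ) + 1 := by
    intro Z _ a
    exact ⟨Int.floor_le _, (Int.lt_floor_add_one _).le⟩
  have hbox : ∀ n ∈ S.image ex, ∑ Z ∈ S.filter (fun Z => ex Z = n), (sgr Z ^ N)⁻¹ ≤
      Cc * Real.exp (-1 * spread (castR n)) := by
    intro n _
    set L : Fin r → ℝ := fun a => Real.exp (n a) with hL
    have hL0 : ∀ a, 0 < L a := fun a => Real.exp_pos _
    have hPL : 0 < ∏ a, L a := prod_pos fun a _ => hL0 a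
    have h1 : ∀ Z ∈ S.filter (fun Z => ex Z = n), (sgr Z ^ N)⁻¹ ≤ ((∏ a, L a) ^ N)⁻¹ := by
      intro Z hZ
      rw [mem_filter] at hZ
      obtain ⟨hZG, hZn⟩ := hZ
      have hLl : ∀ a, L a ≤ gsl Z a := by
        intro a
        have h2 := (hclose Z hZG a).1
        rw [hZn] at h2
        rw [hL, ← Real.exp_log (hpos Z hZG a)]
        exact Real.exp_le_exp.2 h2
      rw [sgr_eq_prod (hS Z hZG).2.1]
      refine inv_anti₀ (by positivity) (pow_le_pow_left₀ hPL.le ?_ _)
      exact prod_le_prod (fun a _ => (hL0 a).le) fun a _ => hLl a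
    have h2 : ((S.filter (fun Z => ex Z = n)).card : ℝ) ≤
        Cc * (∏ a, L a) ^ N * Real.exp (-spread (castR n)) := by
      have h5 : castR n = fun a => Real.log (L a) := by
        funext a
        rw [hL, Real.log_exp]; rfl
      rw [h5]
      refine hcount L hL0 _ ?_
      intro Z hZ
      rw [mem_filter] at hZ
      obtain ⟨hZG, hZn⟩ := hZ
      refine ⟨(hS Z hZG).1, (hS Z hZG).2.1, fun a => ?_⟩
      have h6 := hclose Z hZG a
      rw [hZn] at h6
      have h7 := hpos Z hZG a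
      constructor
      · rw [hL, ← Real.exp_log h7]
        exact Real.exp_le_exp.2 h6.1
      · have h8 : gsl Z a ≤ Real.exp ((n a : ℝ) + 1) := by
          rw [← Real.exp_log h7]
          exact Real.exp_le_exp.2 h6.2
        rw [Real.exp_add] at h8
        have h9 : Real.exp 1 ≤ 3 := by
          have := Real.exp_one_lt_d9
          linarith
        have h10 : 0 < Real.exp (n a : ℝ) := Real.exp_pos _
        rw [hL]
        nlinarith
    calc ∑ Z ∈ S.filter (fun Z => ex Z = n), (sgr Z ^ N)⁻¹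
        ≤ ∑ _Z ∈ S.filter (fun Z => ex Z = n), ((∏ a, L a) ^ N)⁻¹ := sum_le_sum h1
      _ = ((S.filter (fun Z => ex Z = n)).card : ℝ) * ((∏ a, L a) ^ N)⁻¹ := by
          rw [sum_const, nsmul_eq_mul]
      _ ≤ Cc * (∏ a, L a) ^ N * Real.exp (-spread (castR n)) * ((∏ a, L a) ^ N)⁻¹ :=
          mul_le_mul_of_nonneg_right h2 (by positivity)
      _ = _ := by
          rw [neg_one_mul]
          field_simp
  have h1 : ∑ Z ∈ S, (sgr Z ^ N)⁻¹ =
      ∑ n ∈ S.image ex, ∑ Z ∈ S.filter (fun Z => ex Z = n), (sgr Z ^ N)⁻¹ :=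
    (sum_fiberwise_of_maps_to (fun Z hZ => mem_image_of_mem _ hZ) _).symm
  rw [h1]
  refine (sum_le_sum hbox).trans ?_
  rw [← mul_sum, mul_assoc]
  refine mul_le_mul_of_nonneg_left ?_ hCc.le
  have h2 := hsum (S.image ex) (Real.log c + Real.log T) (by positivity) ?_
  · refine h2.trans ?_
    rw [mul_assoc]
    refine mul_le_mul_of_nonneg_left ?_ (by linarith)
    nlinarith
  · intro n hn
    obtain ⟨Z, hZ, rfl⟩ := mem_image.1 hn
    constructor
    · exact Int.floor_nonneg.2 (Real.log_nonneg (redAPI.one_le Z (hS Z hZ).1 i0 rfl))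
    · refine (hclose Z hZ i0).1.trans ?_
      obtain ⟨Tm, Q, h, h1⟩ := (hS Z hZ).2.1.spec
      have hp := hpos Z hZ
      have h0 := h1 i0 rfl
      -- all lengths are at least `gsl i0 / c`
      have h3 : ∀ a, gsl Z i0 ≤ c * gsl Z a := fun a => h.mono i0 a (Fin.mk_le_of_le_val (Nat.zero_le _))
      have h4 : (gsl Z i0) ^ r ≤ c ^ r * T := by
        calc (gsl Z i0) ^ r = ∏ _a : Fin r, gsl Z i0 := by
              rw [prod_const, card_univ, Fintype.card_fin]
          _ ≤ ∏ a : Fin r, (c * gsl Z a) := prod_le_prod (fun _ _ => (hp i0).le) fun a _ => h3 a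
          _ = c ^ r * sgr Z := by
              rw [prod_mul_distrib, prod_const, card_univ, Fintype.card_fin,
                sgr_eq_prod (hS Z hZ).2.1]
          _ ≤ c ^ r * T := mul_le_mul_of_nonneg_left (hS Z hZ).2.2 (by positivity)
      have h5 : (gsl Z i0) ^ r ≤ (c * T) ^ r := by
        refine h4.trans ?_
        rw [mul_pow]
        refine mul_le_mul_of_nonneg_left ?_ (by positivity)
        exact le_self_pow₀ hT hr.ne'
      have h6 : gsl Z i0 ≤ c * T := le_of_pow_le_pow_left₀ hr.ne' (by positivity) h5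
      rw [← Real.log_mul hc0.ne' (by linarith)]
      exact Real.log_le_log (hp i0) h6

end Pool.Agent.Lib.MP_1acd66_nt.Gen
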