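import Pool.Agent.Lib.MP_1acd66_nt.Gen.RealNorm

/-! Integral arrays, congruence classes and counting functions. -/

set_option linter.unusedSectionVars false

namespace Pool.Agent.Lib.MP_1acd66_nt.Gen

open MeasureTheory Metric Set Filter Topology

variable {k : ℕ} {r N : Fin k → ℕ} {W : Type} [Fintype W]

section casts

theorem realW_ne_zero {A : W → ℤ} (hA : A ≠ 0) : realW A ≠ 0 := by
  intro h
  apply hA
  funext w
  have := congrFun h w
  simp only [realW, Pi.zero_apply] at this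
  exact_mod_cast this

theorem realW_injective : Function.Injective (realW : (W → ℤ) → W → ℝ) := by
  intro A B h
  funext w
  have := congrFun h w
  simp only [realW] at this
  exact_mod_cast this

theorem realF_injective : Function.Injective (realF : Frm ℤ r N → Frm ℝ r N) := by
  intro Z Z' h
  funext i a j
  have := congrFun (congrFun (congrFun h i) a) j
  simp only [realF] at this
  exact_mod_cast this

theorem realF_apply_ne_zero {Z : Frm ℤ r N} {i : Fin k} (hZ : Z i ≠ 0) : realF Z i ≠ 0 := by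
  intro h
  apply hZ
  funext a j
  have := congrFun (congrFun h a) j
  simp only [realF, Pi.zero_apply] at this
  exact_mod_cast this

theorem realF_apply_eq_zero_iff {Z : Frm ℤ r N} {i : Fin k} : realF Z i = 0 ↔ Z i = 0 := by
  constructor
  · intro h
    by_contra h0
    exact realF_apply_ne_zero h0 h
  · intro h
    funext a j
    simp [realF, h]

/-- one frame with real entries -/
def real1 {r N : ℕ} (Z : Fin r → Fin N → ℤ) : Fin r → Fin N → ℝ := fun a j => (Z a j : ℝ)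

theorem realF_apply (Z : Frm ℤ r N) (i : Fin k) : realF Z i = real1 (Z i) := rfl

theorem minor_real1 {r N : ℕ} (Z : Fin r → Fin N → ℤ) (s : Fin r → Fin N) :
    minor (real1 Z) s = ((minor Z s : ℤ) : ℝ) := minor_map (Int.castRingHom ℝ) Z s

theorem gram_real1 {r N : ℕ} (Z : Fin r → Fin N → ℤ) :
    gram (real1 Z) = ((gram Z : ℤ) : ℝ) := gram_map (Int.castRingHom ℝ) Z

theorem rowOp_real1 {r N : ℕ} (g : Matrix (Fin r) (Fin r) ℤ) (Z : Fin r → Fin N → ℤ) :
    real1 (rowOp g Z) = rowOp (castM g) (real1 Z) :=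
  (rowOp_map (Int.castRingHom ℝ) g Z).symm

theorem isFrame_real1 {r N : ℕ} {Z : Fin r → Fin N → ℤ} : IsFrame (real1 Z) ↔ IsFrame Z := by
  constructor
  · rintro ⟨s, hs⟩
    rw [minor_real1] at hs
    exact ⟨s, by exact_mod_cast hs⟩
  · rintro ⟨s, hs⟩
    exact ⟨s, by rw [minor_real1]; exact_mod_cast hs⟩

theorem allFrame_realF {Z : Frm ℤ r N} : AllFrame (realF Z) ↔ AllFrame Z :=
  forall_congr' fun _ => isFrame_real1

theorem IsFrame.ne_zero {K : Type*} [CommRing K] {r N : ℕ} (hr : 0 < r) {Z : Fin r → Fin N → K}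
    (hZ : IsFrame Z) : Z ≠ 0 := by
  rintro rfl
  obtain ⟨s, hs⟩ := hZ
  apply hs
  rw [minor]
  apply Matrix.det_eq_zero_of_row_eq_zero ⟨0, hr⟩
  intro j
  rfl

theorem one_le_norm_real1 {r N : ℕ} {Z : Fin r → Fin N → ℤ} (hZ : Z ≠ 0) : 1 ≤ ‖real1 Z‖ := by
  obtain ⟨i, hi⟩ : ∃ i, Z i ≠ 0 := by
    by_contra h
    push Not at h
    exact hZ (funext h)
  obtain ⟨j, hj⟩ : ∃ j, Z i j ≠ 0 := by
    by_contra h
    push Not at h
    exact hi (funext h)
  have h1 : |((Z i j : ℤ) : ℝ)| ≤ ‖real1 Z‖ :=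
    (norm_le_pi_norm (real1 Z i) j).trans (norm_le_pi_norm (real1 Z) i)
  have h2 : (1:ℝ) ≤ |((Z i j : ℤ) : ℝ)| := by
    have := Int.one_le_abs hj
    exact_mod_cast this
  linarith

theorem one_le_norm_realW {A : W → ℤ} (hA : A ≠ 0) : 1 ≤ ‖realW A‖ := by
  obtain ⟨i, hi⟩ : ∃ i, A i ≠ 0 := by
    by_contra h
    push Not at h
    exact hA (funext h)
  have h1 : |((A i : ℤ) : ℝ)| ≤ ‖realW A‖ := norm_le_pi_norm (realW A) i
  have h2 : (1:ℝ) ≤ |((A i : ℤ) : ℝ)| := by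
    have := Int.one_le_abs hi
    exact_mod_cast this
  linarith

theorem abs_le_norm_realW (A : W → ℤ) (w : W) : |((A w : ℤ) : ℝ)| ≤ ‖realW A‖ :=
  norm_le_pi_norm (realW A) w

end casts

section counting

/-- integer vectors in a box -/
theorem card_boxW {B : W → ℝ} (hB : ∀ w, 1 ≤ B w) (S : Finset (W → ℤ))
    (hS : ∀ A ∈ S, ∀ w, |((A w : ℤ) : ℝ)| ≤ B w) : (S.card : ℝ) ≤ ∏ w, (3 * B w) := by
  classical
  have h1 : S ⊆ Fintype.piFinset (fun w : W => Finset.Icc (-⌊B w⌋) ⌊B w⌋) := by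
    intro x hx
    rw [Fintype.mem_piFinset]
    intro j
    have := hS x hx j
    rw [abs_le] at this
    rw [Finset.mem_Icc]
    constructor
    · have : -(x j) ≤ ⌊B j⌋ := Int.le_floor.2 (by push_cast; linarith)
      linarith
    · exact Int.le_floor.2 this.2
  have h2 := Finset.card_le_card h1
  rw [Fintype.card_piFinset] at h2
  calc (S.card : ℝ) ≤ ((∏ w, (Finset.Icc (-⌊B w⌋) ⌊B w⌋).card : ℕ) : ℝ) := by exact_mod_cast h2
    _ = ∏ w, (((Finset.Icc (-⌊B w⌋) ⌊B w⌋).card : ℕ) : ℝ) := by push_cast; rfl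
    _ ≤ _ := by
      refine Finset.prod_le_prod (fun _ _ => Nat.cast_nonneg _) ?_
      intro w _
      have hf : (0:ℤ) ≤ ⌊B w⌋ := Int.floor_nonneg.2 (by linarith [hB w])
      rw [Int.card_Icc]
      have h4 : (((⌊B w⌋ + 1 - -⌊B w⌋).toNat : ℕ) : ℤ) = 2 * ⌊B w⌋ + 1 := by
        rw [Int.toNat_of_nonneg (by omega)]; ring
      have h5 : (((⌊B w⌋ + 1 - -⌊B w⌋).toNat : ℕ) : ℝ) = 2 * (⌊B w⌋:ℝ) + 1 := by exact_mod_cast h4
      rw [h5]
      have := Int.floor_le (B w)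
      have := hB w
      linarith

/-- the real points congruent to `A0` modulo `q` -/
def lattW (q : ℕ) (A0 : W → ℤ) : Set (W → ℝ) :=
  {x | ∃ z : W → ℤ, ∀ w, x w = (A0 w : ℝ) + q * (z w : ℝ)}

theorem tiling_lattW {q : ℕ} (hq : 0 < q) (A0 : W → ℤ) :
    Tiling (volume : Measure (W → ℝ)) (lattW q A0) (Set.pi Set.univ (fun _ => Set.Ico (0:ℝ) q))
      ((q:ℝ) ^ (Fintype.card W)) q where
  meas := MeasurableSet.univ_pi fun _ => measurableSet_Ico
  vol := by
    rw [volume_pi_pi]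
    simp only [Real.volume_Ico, sub_zero, Finset.prod_const, Finset.card_univ]
    rw [ENNReal.ofReal_pow (by positivity)]
  vpos := by positivity
  rpos := by exact_mod_cast hq
  bdd := by
    intro x hx
    rw [pi_norm_le_iff_of_nonneg (by positivity)]
    intro w
    have := hx w (Set.mem_univ w)
    rw [Real.norm_eq_abs, abs_of_nonneg this.1]
    exact this.2.le
  cover := by
    intro y
    have hq' : (0:ℝ) < q := by exact_mod_cast hq
    refine ⟨fun w => (A0 w : ℝ) + q * ((⌊(y w - A0 w) / q⌋ : ℤ) : ℝ),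
      ⟨fun w => ⌊(y w - A0 w) / q⌋, fun w => rfl⟩, ?_⟩
    intro w _
    have h1 := Int.floor_le ((y w - A0 w) / q)
    have h2 := Int.lt_floor_add_one ((y w - A0 w) / q)
    rw [le_div_iff₀ hq'] at h1
    rw [div_lt_iff₀ hq'] at h2
    simp only [Pi.sub_apply, Set.mem_Ico]
    constructor
    · linarith
    · linarith
  disj := by
    rintro x ⟨z, hz⟩ x' ⟨z', hz'⟩ y hy hy'
    have hq' : (0:ℝ) < q := by exact_mod_cast hq
    funext w
    have h1 := hy w (Set.mem_univ w)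
    have h2 := hy' w (Set.mem_univ w)
    simp only [Pi.sub_apply, Set.mem_Ico] at h1 h2
    have h3 : (q:ℝ) * (((z w - z' w : ℤ)) : ℝ) < q * 1 := by
      push_cast
      have e1 := hz w
      have e2 := hz' w
      have : (q:ℝ) * ((z w : ℝ) - z' w) = x w - x' w := by rw [e1, e2]; ring
      rw [this]; linarith [h1.1, h1.2, h2.1, h2.2]
    have h4 : (q:ℝ) * (-1) < (q:ℝ) * (((z w - z' w : ℤ)) : ℝ) := by
      push_cast
      have e1 := hz w
      have e2 := hz' w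
      have : (q:ℝ) * ((z w : ℝ) - z' w) = x w - x' w := by rw [e1, e2]; ring
      rw [this]; linarith [h1.1, h1.2, h2.1, h2.2]
    have h5 := lt_of_mul_lt_mul_left h3 hq'.le
    have h6 := lt_of_mul_lt_mul_left h4 hq'.le
    have h7 : z w - z' w < 1 := by exact_mod_cast h5
    have h8 : -1 < z w - z' w := by exact_mod_cast h6
    have h9 : z w = z' w := by omega
    rw [hz w, hz' w, h9]

/-- balanced frames of norm one -/
def Kt (r N : Fin k → ℕ) (t : ℝ) : Set (Frm ℝ r N) :=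
  {Z | ∀ i, ‖Z i‖ = 1 ∧ 1 ≤ t * √(gram (Z i))}

theorem isCompact_Kt (r N : Fin k → ℕ) (t : ℝ) : IsCompact (Kt r N t) := by
  have : Kt r N t = Set.pi Set.univ
      (fun i => {Z : Fin (r i) → Fin (N i) → ℝ | ‖Z‖ = 1 ∧ 1 ≤ t * √(gram Z)}) := by
    ext Z
    simp [Kt, Set.mem_pi]
  rw [this]
  refine isCompact_univ_pi fun i => ?_
  have h1 : IsCompact (sphere (0 : Fin (r i) → Fin (N i) → ℝ) 1) := isCompact_sphere 0 1
  have h2 : IsClosed {Z : Fin (r i) → Fin (N i) → ℝ | 1 ≤ t * √(gram Z)} :=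
    isClosed_le continuous_const (continuous_const.mul (Real.continuous_sqrt.comp continuous_gram))
  have : {Z : Fin (r i) → Fin (N i) → ℝ | ‖Z‖ = 1 ∧ 1 ≤ t * √(gram Z)} =
      sphere 0 1 ∩ {Z | 1 ≤ t * √(gram Z)} := by
    ext Z
    simp
  rw [this]
  exact h1.inter_right h2

theorem allFrame_of_mem_Kt {t : ℝ} {Z : Frm ℝ r N} (hZ : Z ∈ Kt r N t) : AllFrame Z := by
  intro i
  rw [← gram_pos_iff]
  have h := (hZ i).2
  by_contra hcon
  have : √(gram (Z i)) = 0 := Real.sqrt_eq_zero'.2 (not_lt.1 hcon)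
  rw [this, mul_zero] at h
  linarith

/-- the normalised family -/
noncomputable def nrm (Z : Frm ℝ r N) : Frm ℝ r N := scal (fun i => ‖Z i‖⁻¹) Z

/-- the product of the powers of the norms -/
noncomputable def PN (Z : Frm ℝ r N) : ℝ := ∏ i, ‖Z i‖ ^ (r i * N i)

theorem PN_pos {Z : Frm ℝ r N} (hZ : ∀ i, Z i ≠ 0) : 0 < PN Z :=
  Finset.prod_pos fun i _ => pow_pos (norm_pos_iff.2 (hZ i)) _

theorem scal_nrm {Z : Frm ℝ r N} (hZ : ∀ i, Z i ≠ 0) : scal (fun i => ‖Z i‖) (nrm Z) = Z := by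
  funext i
  simp only [scal, nrm, smul_smul]
  rw [mul_inv_cancel₀ (norm_pos_iff.2 (hZ i)).ne', one_smul]

/-- the product of the weights -/
noncomputable def wtt (t : ℝ) (Z : Frm ℝ r N) : ℝ := ∏ i, wt t (Z i)

theorem wtt_nonneg (t : ℝ) (Z : Frm ℝ r N) : 0 ≤ wtt t Z :=
  Finset.prod_nonneg fun _ _ => wt_nonneg _ _

theorem wtt_le_one (t : ℝ) (Z : Frm ℝ r N) : wtt t Z ≤ 1 :=
  Finset.prod_le_one (fun _ _ => wt_nonneg _ _) fun _ _ => wt_le_one _ _

theorem wtt_ne_zero {t : ℝ} {Z : Frm ℝ r N} (h : wtt t Z ≠ 0) (i : Fin k) : 0 < bal t (Z i) := by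
  apply wt_pos
  intro h0
  exact h (Finset.prod_eq_zero (Finset.mem_univ i) h0)

theorem mem_Kt_of_bal (hr : ∀ i, 0 < r i) {t : ℝ} {Z : Frm ℝ r N} (h : ∀ i, 0 < bal t (Z i)) :
    nrm Z ∈ Kt r N t := by
  intro i
  obtain ⟨h1, h2⟩ := bal_pos (hr i) (h i)
  have hn : 0 < ‖Z i‖ := norm_pos_iff.2 h2
  refine ⟨?_, ?_⟩
  · simp only [nrm, scal]
    rw [norm_smul, norm_inv, norm_norm, inv_mul_cancel₀ hn.ne']
  · simp only [nrm, scal]
    rw [sqrt_gram_smul (inv_pos.2 hn), inv_pow]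
    have : t * ((‖Z i‖ ^ r i)⁻¹ * √(gram (Z i))) = (t * √(gram (Z i))) / ‖Z i‖ ^ r i := by
      rw [div_eq_mul_inv]; ring
    rw [this, one_le_div (by positivity)]
    exact h1.le

/-- integral arrays with property `p` in a sublevel set -/
def cset (p : (W → ℤ) → Prop) (M : Frm ℝ r N → (W → ℝ) → ℝ) (Z : Frm ℝ r N) (Y : ℝ) :
    Set (W → ℤ) :=
  {A | A ≠ 0 ∧ p A ∧ M Z (realW A) ≤ Y}

/-- their number -/
noncomputable def cnt (p : (W → ℤ) → Prop) (M : Frm ℝ r N → (W → ℝ) → ℝ) (Z : Frm ℝ r N)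
    (Y : ℝ) : ℝ := (cset p M Z Y).ncard

theorem cnt_nonneg (p : (W → ℤ) → Prop) (M : Frm ℝ r N → (W → ℝ) → ℝ) (Z : Frm ℝ r N) (Y : ℝ) :
    0 ≤ cnt p M Z Y := Nat.cast_nonneg _

variable {ρ : FRep r W} {M : Frm ℝ r N → (W → ℝ) → ℝ}

theorem cset_scale (hM : IsLocalNorm ℝ N ρ M) (hw : ∀ i, ρ.b i ≤ N i) (p : (W → ℤ) → Prop)
    {Z : Frm ℝ r N} (hZ : ∀ i, Z i ≠ 0) (hF : AllFrame (nrm Z)) (Y : ℝ) :
    cset p M Z Y = cset p M (nrm Z) (Y * (PN Z)⁻¹) := by
  ext A
  simp only [cset, mem_ofPred_eq]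
  refine and_congr_right fun hA => and_congr_right fun _ => ?_
  have h1 := hM.scaleZ hw hF (realW_ne_zero hA) (s := fun i => ‖Z i‖)
    (fun i => norm_pos_iff.2 (hZ i))
  rw [scal_nrm hZ] at h1
  have h2 := PN_pos hZ
  rw [h1, ← div_eq_mul_inv, le_div_iff₀ h2, mul_comm]
  rfl

/-- radius corresponding to a bound -/
theorem exists_rad {D : ℕ} (hD : 0 < D) {Q : ℝ} (hQ : 0 < Q) : ∃ X : ℝ, 0 < X ∧ X ^ D = Q := by
  refine ⟨Q ^ (1 / (D:ℝ)), Real.rpow_pos_of_pos hQ _, ?_⟩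
  rw [← Real.rpow_natCast, ← Real.rpow_mul hQ.le]
  have : (D:ℝ) ≠ 0 := by positivity
  field_simp
  exact Real.rpow_one Q

theorem cset_bound (hM : IsLocalNorm ℝ N ρ M) (hW : 0 < Fintype.card W) (t : ℝ) :
    ∃ c C : ℝ, 0 < c ∧ 0 < C ∧ ∀ p : (W → ℤ) → Prop, ∀ Z ∈ Kt r N t, ∀ Y : ℝ,
      (Y < c → cset p M Z Y = ∅) ∧ (cset p M Z Y).Finite ∧ (0 < Y → cnt p M Z Y ≤ C * Y) := by
  obtain ⟨c, _, hc, _, hb⟩ := hM.compact_bound (isCompact_Kt r N t)
    (fun k hk => allFrame_of_mem_Kt hk)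
  set D := Fintype.card W with hD
  refine ⟨c, 3 ^ D / c, hc, by positivity, ?_⟩
  intro p Z hZ Y
  have hlow : ∀ A ∈ cset p M Z Y, c * ‖realW A‖ ^ D ≤ Y := by
    rintro A ⟨hA, _, hMA⟩
    exact (hb Z hZ _ (realW_ne_zero hA)).1.trans hMA
  have h1 : Y < c → cset p M Z Y = ∅ := by
    intro hY
    by_contra hne
    obtain ⟨A, hA⟩ := Set.nonempty_iff_ne_empty.2 hne
    have h2 := hlow A hA
    have h3 := one_le_pow₀ (n := D) (one_le_norm_realW hA.1)
    nlinarith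
  have hcard : ∀ S : Finset (W → ℤ), (∀ A ∈ S, A ∈ cset p M Z Y) → 0 < Y →
      (S.card : ℝ) ≤ 3 ^ D / c * Y := by
    intro S hS hY
    rcases S.eq_empty_or_nonempty with rfl | ⟨A0, hA0⟩
    · simp only [Finset.card_empty, Nat.cast_zero]; positivity
    · obtain ⟨X, hX, hXD⟩ := exists_rad hW (Q := Y / c) (by positivity)
      have hle : ∀ A ∈ S, ‖realW A‖ ≤ X := by
        intro A hA
        have := hlow A (hS A hA)
        have h2 : ‖realW A‖ ^ D ≤ X ^ D := by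
          rw [hXD, le_div_iff₀ hc]; linarith
        exact (pow_le_pow_iff_left₀ (norm_nonneg _) hX.le hW.ne').1 h2
      have hX1 : 1 ≤ X := (one_le_norm_realW (hS A0 hA0).1).trans (hle A0 hA0)
      have h3 := card_boxW (B := fun _ : W => X) (fun _ => hX1) S
        (fun A hA w => (abs_le_norm_realW A w).trans (hle A hA))
      refine h3.trans (le_of_eq ?_)
      rw [Finset.prod_const, Finset.card_univ, ← hD, mul_pow, hXD]
      ring
  have hfin : (cset p M Z Y).Finite := by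
    by_cases hY : 0 < Y
    · by_contra hinf
      have hinf : (cset p M Z Y).Infinite := hinf
      obtain ⟨n, hn⟩ := exists_nat_gt (3 ^ D / c * Y)
      obtain ⟨s, hs, hs2⟩ := hinf.exists_subset_card_eq n
      have := hcard s (fun A hA => hs hA) hY
      rw [hs2] at this
      linarith
    · rw [h1 (by linarith)]; exact Set.finite_empty
  refine ⟨h1, hfin, ?_⟩
  intro hY
  rw [cnt, Set.ncard_eq_toFinset_card _ hfin]
  exact hcard _ (fun A hA => hfin.mem_toFinset.1 hA) hY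

/-- upper bound for the volume on the balanced part -/
theorem bodyVol_le (hM : IsLocalNorm ℝ N ρ M) (hW : 0 < Fintype.card W) (t : ℝ) :
    ∃ U : ℝ, ∀ Z ∈ Kt r N t, bodyVol M Z ≤ U := by
  obtain ⟨c, _, hc, _, hb⟩ := hM.compact_bound (isCompact_Kt r N t)
    (fun k hk => allFrame_of_mem_Kt hk)
  obtain ⟨X, hX, hXD⟩ := exists_rad hW (Q := 1 / c) (by positivity)
  refine ⟨(volume : Measure (W → ℝ)).real (closedBall 0 X), ?_⟩
  intro Z hZ
  refine measureReal_mono ?_ measure_closedBall_lt_top.ne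
  rintro A ⟨hA, hMA⟩
  rw [mem_closedBall_zero_iff]
  have h1 := (hb Z hZ A hA).1
  have h2 : ‖A‖ ^ (Fintype.card W) ≤ X ^ (Fintype.card W) := by
    rw [hXD, le_div_iff₀ hc]; linarith
  exact (pow_le_pow_iff_left₀ (norm_nonneg _) hX.le hW.ne').1 h2

/-- congruence of integral vectors -/
def CongW (q : ℕ) (x y : W → ℤ) : Prop := ∀ w, (q:ℤ) ∣ (x w - y w)

/-- congruence of families of integral frames -/
def CongF (q : ℕ) (x y : Frm ℤ r N) : Prop := ∀ i a j, (q:ℤ) ∣ (x i a j - y i a j)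

theorem mem_lattW {q : ℕ} {A A0 : W → ℤ} : realW A ∈ lattW q A0 ↔ CongW q A A0 := by
  constructor
  · rintro ⟨z, hz⟩ w
    refine ⟨z w, ?_⟩
    have := hz w
    simp only [realW] at this
    have h2 : ((A w - A0 w : ℤ) : ℝ) = (((q:ℤ) * z w : ℤ) : ℝ) := by
      push_cast; linarith
    exact_mod_cast h2
  · intro h
    choose z hz using h
    refine ⟨z, ?_⟩
    intro w
    simp only [realW]
    have h2 : ((A w - A0 w : ℤ) : ℝ) = (((q:ℤ) * z w : ℤ) : ℝ) := by
      rw [hz w]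
    push_cast at h2
    linarith

theorem cnt_cong (M : Frm ℝ r N → (W → ℝ) → ℝ) (q : ℕ) (A0 : W → ℤ) (Z : Frm ℝ r N) (Y : ℝ) :
    cnt (fun A => CongW q A A0) M Z Y = ((lattW q A0 ∩ sub (M Z) Y).ncard : ℝ) := by
  rw [cnt, ← Set.ncard_image_of_injective _ realW_injective]
  congr 2
  ext x
  simp only [mem_image, cset, sub, mem_ofPred_eq, mem_inter_iff]
  constructor
  · rintro ⟨A, ⟨hA, hc, hMA⟩, rfl⟩
    exact ⟨mem_lattW.2 hc, realW_ne_zero hA, hMA⟩
  · rintro ⟨hx, hx0, hMx⟩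
    obtain ⟨z, hz⟩ := hx
    refine ⟨fun w => A0 w + q * z w, ⟨?_, ?_, ?_⟩, ?_⟩
    · intro h0
      apply hx0
      funext w
      rw [hz w]
      have := congrFun h0 w
      simp only [Pi.zero_apply] at this ⊢
      exact_mod_cast this
    · intro w
      exact ⟨z w, by ring⟩
    · have : realW (fun w => A0 w + q * z w) = x := by
        funext w
        simp only [realW, hz w]
        push_cast; rfl
      rw [this]; exact hMx
    · funext w
      simp only [realW, hz w]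
      push_cast; rfl

end counting

end Pool.Agent.Lib.MP_1acd66_nt.Gen
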