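import Pool.Agent.Lib.MP_1acd66_nt.Gen.CuspMain

/-!
Counting integral frames with a given shape.
-/

namespace Pool.Agent.Lib.MP_1acd66_nt.Gen

open Finset MeasureTheory

/-- Integral points in a rotated box. -/
theorem card_le_of_matrix {N : ℕ} (O : Matrix (Fin N) (Fin N) ℝ) (hdet : |O.det| = 1)
    (hO : ∀ i j, |O i j| ≤ 1) (ρ : Fin N → ℝ) (hρ : ∀ i, 0 ≤ ρ i) (S : Finset (Fin N → ℤ))
    (hS : ∀ z ∈ S, ∀ i, |∑ j, O i j * (z j : ℝ)| ≤ ρ i) :
    (S.card : ℝ) ≤ ∏ i, (2 * (ρ i + N)) := by
  classical
  set U : (Fin N → ℤ) → Set (Fin N → ℝ) := fun z =>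
    Set.univ.pi (fun j => Set.Ico (z j : ℝ) ((z j : ℝ) + 1)) with hU
  set Bx : Set (Fin N → ℝ) :=
    Set.univ.pi (fun i => Set.Icc (-(ρ i + N)) (ρ i + N)) with hB
  have hUvol : ∀ z, volume (U z) = 1 := by
    intro z
    rw [hU, Real.volume_pi_Ico]
    simp
  have hUmeas : ∀ z, MeasurableSet (U z) := fun z =>
    MeasurableSet.univ_pi fun j => measurableSet_Ico
  have hBmeas : MeasurableSet Bx := MeasurableSet.univ_pi fun j => measurableSet_Icc
  have hdet0 : O.det ≠ 0 := by
    intro h
    rw [h, abs_zero] at hdet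
    exact zero_ne_one hdet
  have hdisj : (S : Set (Fin N → ℤ)).PairwiseDisjoint U := by
    intro z _ z' _ hne
    rw [Function.onFun, Set.disjoint_left]
    intro v hv hv'
    apply hne
    funext j
    have h1 := hv j (Set.mem_univ j)
    have h2 := hv' j (Set.mem_univ j)
    rw [Set.mem_Ico] at h1 h2
    have h3 : (z j : ℝ) < z' j + 1 := by linarith
    have h4 : (z' j : ℝ) < z j + 1 := by linarith
    have h5 : z j < z' j + 1 := by exact_mod_cast h3
    have h6 : z' j < z j + 1 := by exact_mod_cast h4
    omega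
  have hsub : (⋃ z ∈ S, U z) ⊆ (Matrix.toLin' O) ⁻¹' Bx := by
    intro v hv
    rw [Set.mem_iUnion₂] at hv
    obtain ⟨z, hz, hv⟩ := hv
    intro i _
    have h1 := hS z hz i
    have h2 : (Matrix.toLin' O v) i = ∑ j, O i j * (z j : ℝ) + ∑ j, O i j * (v j - z j) := by
      rw [Matrix.toLin'_apply, Matrix.mulVec, dotProduct, ← sum_add_distrib]
      refine sum_congr rfl fun j _ => ?_
      ring
    have h3 : |∑ j, O i j * (v j - z j)| ≤ N := by
      calc |∑ j, O i j * (v j - z j)| ≤ ∑ j, |O i j * (v j - z j)| := abs_sum_le_sum_abs _ _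
        _ ≤ ∑ _j : Fin N, (1 : ℝ) := by
            refine sum_le_sum fun j _ => ?_
            have h4 := hv j (Set.mem_univ j)
            rw [Set.mem_Ico] at h4
            rw [abs_mul]
            have h5 : |v j - z j| ≤ 1 := by rw [abs_le]; constructor <;> linarith
            calc |O i j| * |v j - z j| ≤ 1 * 1 :=
                  mul_le_mul (hO i j) h5 (abs_nonneg _) zero_le_one
              _ = 1 := one_mul 1
        _ = N := by rw [sum_const, card_univ, Fintype.card_fin, nsmul_eq_mul, mul_one]
    rw [h2, Set.mem_Icc, ← abs_le]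
    exact (abs_add_le _ _).trans (add_le_add h1 h3)
  have hvol : volume ((Matrix.toLin' O) ⁻¹' Bx) = ENNReal.ofReal (∏ i, (2 * (ρ i + N))) := by
    have h1 := Real.map_matrix_volume_pi_eq_smul_volume_pi hdet0
    have h2 : Measurable (Matrix.toLin' O) :=
      (LinearMap.continuous_of_finiteDimensional _).measurable
    rw [← Measure.map_apply h2 hBmeas, h1]
    have h3 : |O.det⁻¹| = 1 := by rw [abs_inv, hdet, inv_one]
    rw [Measure.smul_apply, h3, ENNReal.ofReal_one, one_smul, hB, Set.pi_univ_Icc,
      Real.volume_Icc_pi]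
    · rw [← ENNReal.ofReal_prod_of_nonneg]
      · congr 1
        refine prod_congr rfl fun i _ => ?_
        ring
      · intro i _
        have := hρ i
        have h4 : (0 : ℝ) ≤ N := Nat.cast_nonneg _
        linarith
  have hkey : (S.card : ENNReal) ≤ ENNReal.ofReal (∏ i, (2 * (ρ i + N))) := by
    rw [← hvol]
    refine le_trans ?_ (measure_mono hsub)
    rw [measure_biUnion_finset hdisj fun z _ => hUmeas z, sum_congr rfl fun z _ => hUvol z,
      sum_const, nsmul_eq_mul, mul_one]
  have h0 : 0 ≤ ∏ i, (2 * (ρ i + (N : ℝ))) := prod_nonneg fun i _ => by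
    have := hρ i
    positivity
  have h1 := ENNReal.toReal_mono ENNReal.ofReal_ne_top hkey
  rwa [ENNReal.toReal_natCast, ENNReal.toReal_ofReal h0] at h1

/-- Counting row by row. -/
theorem seqCount {α : Type*} [DecidableEq α] : ∀ (r : ℕ) (S : Finset (Fin r → α))
    (K : Fin r → ℝ), (∀ a, 0 ≤ K a) →
    (∀ a : Fin r, ∀ Z ∈ S, (((S.filter (fun Z' => ∀ b, b < a → Z' b = Z b)).image
      (fun Z' => Z' a)).card : ℝ) ≤ K a) →
    (S.card : ℝ) ≤ ∏ a, K a := by
  intro r
  induction r with
  | zero =>
    intro S K _ _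
    rw [Fin.prod_univ_zero]
    have : S.card ≤ 1 := card_le_one.2 fun a _ b _ => Subsingleton.elim a b
    exact_mod_cast this
  | succ r ih =>
    intro S K hK hS
    set S' : Finset (Fin r → α) := S.image (fun Z => Fin.init (α := fun _ => α) Z) with hS'
    have h1 := ih S' (fun a => K a.castSucc) (fun a => hK _) ?_
    · have h2 : S.card = ∑ Y ∈ S', (S.filter (fun Z => Fin.init (α := fun _ => α) Z = Y)).card :=
        card_eq_sum_card_fiberwise fun Z hZ => mem_image_of_mem _ hZ
      have h3 : ∀ Y ∈ S', ((S.filter (fun Z => Fin.init (α := fun _ => α) Z = Y)).card : ℝ) ≤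
          K (Fin.last r) := by
        intro Y hY
        obtain ⟨Z, hZ, rfl⟩ := mem_image.1 hY
        refine le_trans ?_ (hS (Fin.last r) Z hZ)
        have h4 : S.filter (fun Z' => Fin.init (α := fun _ => α) Z' =
            Fin.init (α := fun _ => α) Z) ⊆
            S.filter (fun Z' => ∀ b, b < Fin.last r → Z' b = Z b) := by
          intro Z' hZ'
          rw [mem_filter] at hZ' ⊢
          refine ⟨hZ'.1, fun b hb => ?_⟩
          have h5 := congrFun hZ'.2 (b.castLT hb)
          exact h5
        rw [← card_image_of_injOn (f := fun Z' : Fin (r + 1) → α => Z' (Fin.last r))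
          (s := S.filter (fun Z' => Fin.init (α := fun _ => α) Z' =
            Fin.init (α := fun _ => α) Z))]
        · exact_mod_cast card_le_card (image_subset_image h4)
        · intro Z1 h1 Z2 h2 h12
          rw [mem_coe, mem_filter] at h1 h2
          funext b
          refine Fin.lastCases ?_ (fun b => ?_) b
          · exact h12
          · have h6 := congrFun (h1.2.trans h2.2.symm) b
            exact h6
      rw [h2, Nat.cast_sum, Fin.prod_univ_castSucc]
      refine (sum_le_sum h3).trans ?_
      rw [sum_const, nsmul_eq_mul]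
      exact mul_le_mul_of_nonneg_right h1 (hK _)
    · intro a Y hY
      obtain ⟨Z, hZ, rfl⟩ := mem_image.1 hY
      refine le_trans ?_ (hS a.castSucc Z hZ)
      have h4 : (S'.filter (fun Y' => ∀ b, b < a → Y' b =
          Fin.init (α := fun _ => α) Z b)).image (fun Y' => Y' a) ⊆
          (S.filter (fun Z' => ∀ b, b < a.castSucc → Z' b = Z b)).image
            (fun Z' => Z' a.castSucc) := by
        intro x hx
        obtain ⟨Y', hY', rfl⟩ := mem_image.1 hx
        rw [mem_filter] at hY'
        obtain ⟨Z', hZ', rfl⟩ := mem_image.1 hY'.1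
        refine mem_image.2 ⟨Z', mem_filter.2 ⟨hZ', fun b hb => ?_⟩, rfl⟩
        have hb' : (b : ℕ) < r := lt_trans (Fin.lt_def.1 hb) a.2
        have h5 := hY'.2 (b.castLT hb') (by rw [Fin.lt_def] at hb ⊢; exact hb)
        exact h5
      exact_mod_cast card_le_card h4

/-- An orthogonal matrix with given first rows. -/
theorem exists_orthogonal {r N : ℕ} {Q : Fin r → Fin N → ℝ} (hQ : Orthonormal' Q)
    (hrN : r ≤ N) (a : Fin r) :
    ∃ O : Matrix (Fin N) (Fin N) ℝ, |O.det| = 1 ∧ (∀ i j, |O i j| ≤ 1) ∧
      (∀ i i', dot (O i) (O i') = if i = i' then 1 else 0) ∧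
      ∀ b : Fin r, b < a → O (Fin.castLE hrN b) = Q b := by
  classical
  set v : Fin N → EuclideanSpace ℝ (Fin N) := fun i =>
    if h : (i : ℕ) < r then WithLp.toLp 2 (Q ⟨i, h⟩) else 0 with hv
  set s : Set (Fin N) := {i | (i : ℕ) < a} with hs
  have hor : Orthonormal ℝ (s.domRestrict v) := by
    rw [orthonormal_iff_ite]
    intro i j
    have hi : ((i : Fin N) : ℕ) < r := lt_trans i.2 a.2
    have hj : ((j : Fin N) : ℕ) < r := lt_trans j.2 a.2
    have h1 : s.domRestrict v i = WithLp.toLp 2 (Q ⟨i, hi⟩) := by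
      change v i = _
      rw [hv]
      simp only [hi, dif_pos]
    have h2 : s.domRestrict v j = WithLp.toLp 2 (Q ⟨j, hj⟩) := by
      change v j = _
      rw [hv]
      simp only [hj, dif_pos]
    rw [h1, h2, PiLp.inner_apply]
    have h3 : ∑ k, inner ℝ ((WithLp.toLp 2 (Q ⟨i, hi⟩) : EuclideanSpace ℝ (Fin N)) k)
        ((WithLp.toLp 2 (Q ⟨j, hj⟩) : EuclideanSpace ℝ (Fin N)) k) =
        dot (Q ⟨i, hi⟩) (Q ⟨j, hj⟩) := by
      rw [dot]
      refine sum_congr rfl fun k _ => ?_
      simp [mul_comm]
    rw [h3, hQ]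
    by_cases hij : i = j
    · subst hij; simp
    · have : ¬ ((⟨((i : Fin N) : ℕ), hi⟩ : Fin r) = ⟨((j : Fin N) : ℕ), hj⟩) := by
        intro h
        apply hij
        rw [Fin.mk.injEq] at h
        exact Subtype.ext (Fin.ext h)
      rw [if_neg this, if_neg hij]
  obtain ⟨b, hb⟩ := hor.exists_orthonormalBasis_extension_of_card_eq (by simp)
  have hdot : ∀ i i', dot (fun j => (b i) j) (fun j => (b i') j) = if i = i' then 1 else 0 := by
    intro i i'
    have h1 := orthonormal_iff_ite.1 b.orthonormal i i'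
    rw [PiLp.inner_apply] at h1
    rw [← h1, dot]
    refine sum_congr rfl fun k _ => ?_
    simp [mul_comm]
  refine ⟨Matrix.of fun i j => (b i) j, ?_, ?_, ?_, ?_⟩
  · have h1 : (Matrix.of fun i j => (b i) j) * (Matrix.of fun i j => (b i) j).transpose =
        (1 : Matrix (Fin N) (Fin N) ℝ) := by
      ext i i'
      rw [Matrix.mul_apply, Matrix.one_apply, ← hdot i i']
      rfl
    have h2 := congrArg Matrix.det h1
    rw [Matrix.det_mul, Matrix.det_transpose, Matrix.det_one] at h2
    have h3 : |(Matrix.of fun i j => (b i) j).det| * |(Matrix.of fun i j => (b i) j).det| = 1 := by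
      rw [← abs_mul, h2, abs_one]
    nlinarith [abs_nonneg (Matrix.of fun i j => (b i) j).det]
  · intro i j
    have h1 : Orthonormal' (fun i j => (b i) j) := hdot
    exact h1.abs_le i j
  · exact hdot
  · intro c hc
    have h1 : Fin.castLE hrN c ∈ s := by
      rw [hs]
      exact hc
    have h2 := hb _ h1
    funext j
    rw [Matrix.of_apply, h2, hv]
    simp

/-- QR data of a frame -/
structure QR {r N : ℕ} (Z : Fin r → Fin N → ℤ) (T : Matrix (Fin r) (Fin r) ℝ)
    (Q : Fin r → Fin N → ℝ) (l : Fin r → ℝ) : Prop where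
  ortho : Orthonormal' Q
  eq : (fun a j => (Z a j : ℝ)) = rowOp T Q
  diag : ∀ a, T a a = l a
  upper : ∀ a b, a < b → T a b = 0
  pos : ∀ a, 0 < l a

theorem QR.row {r N : ℕ} {Z : Fin r → Fin N → ℤ} {T : Matrix (Fin r) (Fin r) ℝ}
    {Q : Fin r → Fin N → ℝ} {l : Fin r → ℝ} (h : QR Z T Q l) (a : Fin r) (j : Fin N) :
    (Z a j : ℝ) = ∑ b, T a b * Q b j := congrFun (congrFun h.eq a) j

theorem QR.dot_eq {r N : ℕ} {Z : Fin r → Fin N → ℤ} {T : Matrix (Fin r) (Fin r) ℝ}
    {Q : Fin r → Fin N → ℝ} {l : Fin r → ℝ} (h : QR Z T Q l) (a b : Fin r) :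
    dot (fun j => (Z a j : ℝ)) (Q b) = T a b := by
  rw [dot]
  have h1 : ∑ j, (Z a j : ℝ) * Q b j = ∑ c, T a c * dot (Q c) (Q b) := by
    simp only [dot, mul_sum]
    rw [sum_comm]
    refine sum_congr rfl fun j _ => ?_
    rw [h.row a j, sum_mul]
    refine sum_congr rfl fun c _ => ?_
    ring
  rw [h1, sum_eq_single b]
  · rw [h.ortho b b, if_pos rfl, mul_one]
  · intro c _ hc
    rw [h.ortho c b, if_neg hc, mul_zero]
  · intro hb
    exact absurd (mem_univ b) hb

/-- The first rows determine the first orthonormal vectors. -/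
theorem QR.unique {r N : ℕ} {Z Z' : Fin r → Fin N → ℤ} {T T' : Matrix (Fin r) (Fin r) ℝ}
    {Q Q' : Fin r → Fin N → ℝ} {l l' : Fin r → ℝ} (h : QR Z T Q l) (h' : QR Z' T' Q' l')
    (a : Fin r) (hZ : ∀ b, b < a → Z b = Z' b) : ∀ b, b < a → Q b = Q' b := by
  have key : ∀ n : ℕ, ∀ b : Fin r, (b : ℕ) < n → b < a → Q b = Q' b := by
    intro n
    induction n with
    | zero => intro b hb; omega
    | succ n ih =>
      intro b hb hba
      have h1 : ∀ c, c < b → Q c = Q' c := fun c hc => ih c (by
        have := Fin.lt_def.1 hc; omega) (hc.trans hba)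
      have h2 : ∀ c, c < b → T b c = T' b c := by
        intro c hc
        rw [← h.dot_eq b c, ← h'.dot_eq b c, h1 c hc, hZ b hba]
      have h3 : ∀ j, l b * Q b j = l' b * Q' b j := by
        intro j
        have h4 := h.row b j
        have h5 := h'.row b j
        rw [hZ b hba] at h4
        have h6 : ∑ c, T b c * Q c j = ∑ c ∈ univ.erase b, T b c * Q c j + T b b * Q b j := by
          rw [add_comm, add_sum_erase univ (fun c => T b c * Q c j) (mem_univ b)]
        have h7 : ∑ c, T' b c * Q' c j =
            ∑ c ∈ univ.erase b, T' b c * Q' c j + T' b b * Q' b j := by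
          rw [add_comm, add_sum_erase univ (fun c => T' b c * Q' c j) (mem_univ b)]
        have h8 : ∑ c ∈ univ.erase b, T b c * Q c j = ∑ c ∈ univ.erase b, T' b c * Q' c j := by
          refine sum_congr rfl fun c hc => ?_
          rw [mem_erase] at hc
          rcases lt_trichotomy c b with hcb | hcb | hcb
          · rw [h2 c hcb, h1 c hcb]
          · exact absurd hcb hc.1
          · rw [h.upper b c hcb, h'.upper b c hcb, zero_mul, zero_mul]
        rw [h.diag b] at h6
        rw [h'.diag b] at h7
        linarith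
      have h9 : l b * l b = l' b * l' b := by
        have h10 : dot (fun j => l b * Q b j) (fun j => l b * Q b j) =
            dot (fun j => l' b * Q' b j) (fun j => l' b * Q' b j) := by
          congr 1 <;> funext j <;> exact h3 j
        have h11 : ∀ (t : ℝ) (x : Fin N → ℝ), dot (fun j => t * x j) (fun j => t * x j) =
            t * t * dot x x := by
          intro t x
          rw [dot, dot, mul_sum]
          refine sum_congr rfl fun j _ => ?_
          ring
        rw [h11, h11, h.ortho b b, h'.ortho b b, if_pos rfl, mul_one, mul_one] at h10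
        exact h10
      have h12 : l b = l' b := by
        have hp := h.pos b
        have hp' := h'.pos b
        nlinarith
      funext j
      have h13 := h3 j
      rw [← h12] at h13
      exact mul_left_cancel₀ (h.pos b).ne' h13
  intro b hb
  exact key ((b : ℕ) + 1) b (Nat.lt_succ_self _) hb

theorem Orthonormal'.le {r N : ℕ} {Q : Fin r → Fin N → ℝ} (h : Orthonormal' Q) : r ≤ N := by
  have h1 : LinearIndependent ℝ Q := by
    rw [Fintype.linearIndependent_iff]
    intro g hg b
    have h2 : dot (∑ a, g a • Q a) (Q b) = g b := by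
      have h3 : dot (∑ a, g a • Q a) (Q b) = ∑ a, g a * dot (Q a) (Q b) := by
        simp only [dot, Finset.sum_apply, Pi.smul_apply, smul_eq_mul, sum_mul, mul_sum]
        rw [sum_comm]
        refine sum_congr rfl fun a _ => sum_congr rfl fun j _ => ?_
        ring
      rw [h3, sum_eq_single b]
      · rw [h b b, if_pos rfl, mul_one]
      · intro c _ hc
        rw [h c b, if_neg hc, mul_zero]
      · intro hb
        exact absurd (mem_univ b) hb
    rw [hg] at h2
    rw [← h2, dot]
    simp
  have h2 := h1.fintype_card_le_finrank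
  simpa using h2

/-- The rows which extend given first rows. -/
theorem card_rows {r N : ℕ} (L : Fin r → ℝ) (a : Fin r) (hrN : r ≤ N)
    (Z : Fin r → Fin N → ℤ) (S : Finset (Fin r → Fin N → ℤ)) (hL : ∀ a, 0 < L a)
    (hZ : ∃ T Q l, QR Z T Q l)
    (hS : ∀ Z' ∈ S, (∀ b, b < a → Z' b = Z b) ∧ ∃ T Q l, QR Z' T Q l ∧
      (∀ b, b < a → |T a b| ≤ l b) ∧ (∀ b, l b ≤ 3 * L b)) :
    ((S.image (fun Z' => Z' a)).card : ℝ) ≤
      (∏ b ∈ univ.filter (fun b => b < a), (2 * (3 * L b + N))) *
        (2 * (3 * L a + N)) ^ (N - a) := by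
  classical
  obtain ⟨T, Q, l, hQR⟩ := hZ
  obtain ⟨O, hO1, hO2, hO3, hO4⟩ := exists_orthogonal hQR.ortho hrN a
  set ρ : Fin N → ℝ := fun i => if h : (i : ℕ) < a then 3 * L ⟨i, h.trans a.2⟩ else 3 * L a
    with hρ
  have h1 := card_le_of_matrix O hO1 hO2 ρ ?_ (S.image (fun Z' => Z' a)) ?_
  · refine h1.trans (le_of_eq ?_)
    rw [← prod_filter_mul_prod_filter_not univ (fun i : Fin N => (i : ℕ) < a)]
    congr 1
    · symm
      refine prod_bij (fun b _ => Fin.castLE hrN b) ?_ ?_ ?_ ?_
      · intro b hb
        rw [mem_filter] at hb ⊢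
        exact ⟨mem_univ _, Fin.lt_def.1 hb.2⟩
      · intro b _ b' _ hbb
        exact Fin.castLE_injective hrN hbb
      · intro i hi
        rw [mem_filter] at hi
        refine ⟨⟨i, hi.2.trans a.2⟩, ?_, ?_⟩
        · rw [mem_filter]
          exact ⟨mem_univ _, hi.2⟩
        · exact Fin.ext rfl
      · intro b hb
        rw [mem_filter] at hb
        have h2 : ((Fin.castLE hrN b : Fin N) : ℕ) < a := hb.2
        rw [hρ]
        simp only [h2, dif_pos]
        rfl
    · have h2 : ∀ i ∈ univ.filter (fun i : Fin N => ¬ (i : ℕ) < a),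
          2 * (ρ i + (N : ℝ)) = 2 * (3 * L a + N) := by
        intro i hi
        rw [mem_filter] at hi
        rw [hρ]
        simp only [hi.2, dif_neg, not_false_iff]
      rw [prod_congr rfl h2, prod_const]
      congr 1
      have h3 := card_filter_add_card_filter_not (s := (univ : Finset (Fin N)))
        (fun i : Fin N => (i : ℕ) < a)
      rw [card_univ, Fintype.card_fin] at h3
      have h4 : (univ.filter (fun i : Fin N => (i : ℕ) < a)).card = (a : ℕ) := by
        have haN : (a : ℕ) < N := lt_of_lt_of_le a.2 hrN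
        have h5 : univ.filter (fun i : Fin N => (i : ℕ) < a) = Finset.Iio (⟨a, haN⟩ : Fin N) := by
          ext i
          rw [mem_filter, mem_Iio, Fin.lt_def]
          simp
        rw [h5, Fin.card_Iio]
      omega
  · intro i
    rw [hρ]
    by_cases h : (i : ℕ) < a
    · simp only [h, dif_pos]
      have := hL ⟨i, h.trans a.2⟩
      linarith
    · simp only [h, dif_neg, not_false_iff]
      have := hL a
      linarith
  · intro z hz i
    obtain ⟨Z', hZ', rfl⟩ := mem_image.1 hz
    obtain ⟨hb, T', Q', l', hQR', hT', hl'⟩ := hS Z' hZ'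
    have hQQ : ∀ b, b < a → Q' b = Q b := hQR'.unique hQR a hb
    by_cases h : (i : ℕ) < a
    · have h2 : O i = Q' ⟨i, h.trans a.2⟩ := by
        rw [hQQ _ (Fin.lt_def.2 h), ← hO4 ⟨i, h.trans a.2⟩ (Fin.lt_def.2 h)]
        rfl
      have h3 : ∑ j, O i j * (Z' a j : ℝ) = T' a ⟨i, h.trans a.2⟩ := by
        rw [← hQR'.dot_eq, dot, h2]
        exact sum_congr rfl fun j _ => mul_comm _ _
      rw [h3, hρ]
      simp only [h, dif_pos]
      exact (hT' _ (Fin.lt_def.2 h)).trans (hl' _)
    · have h3 : ∑ j, O i j * (Z' a j : ℝ) = l' a * dot (O i) (Q' a) := by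
        have h4 : ∑ j, O i j * (Z' a j : ℝ) = ∑ b, T' a b * dot (O i) (Q' b) := by
          simp only [dot, mul_sum]
          rw [sum_comm]
          refine sum_congr rfl fun j _ => ?_
          rw [hQR'.row a j, mul_sum]
          refine sum_congr rfl fun c _ => ?_
          ring
        rw [h4, sum_eq_single a, hQR'.diag]
        · intro b _ hba
          rcases lt_or_gt_of_ne hba with h5 | h5
          · have h6 : dot (O i) (Q' b) = 0 := by
              rw [hQQ b h5, ← hO4 b h5, hO3]
              rw [if_neg]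
              intro h7
              apply h
              rw [h7]
              exact Fin.lt_def.1 h5
            rw [h6, mul_zero]
          · rw [hQR'.upper a b h5, zero_mul]
        · intro ha
          exact absurd (mem_univ a) ha
      have h5 : |dot (O i) (Q' a)| ≤ 1 := by
        have h6 : 0 ≤ dot (fun j => O i j - Q' a j) (fun j => O i j - Q' a j) :=
          sum_nonneg fun j _ => mul_self_nonneg _
        have h7 : 0 ≤ dot (fun j => O i j + Q' a j) (fun j => O i j + Q' a j) :=
          sum_nonneg fun j _ => mul_self_nonneg _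
        have h8 : dot (fun j => O i j - Q' a j) (fun j => O i j - Q' a j) =
            dot (O i) (O i) - 2 * dot (O i) (Q' a) + dot (Q' a) (Q' a) := by
          simp only [dot, mul_sum]
          rw [← sum_sub_distrib, ← sum_add_distrib]
          refine sum_congr rfl fun j _ => ?_
          ring
        have h9 : dot (fun j => O i j + Q' a j) (fun j => O i j + Q' a j) =
            dot (O i) (O i) + 2 * dot (O i) (Q' a) + dot (Q' a) (Q' a) := by
          simp only [dot, mul_sum]
          rw [← sum_add_distrib, ← sum_add_distrib]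
          refine sum_congr rfl fun j _ => ?_
          ring
        rw [hO3 i i, if_pos rfl, hQR'.ortho a a, if_pos rfl] at h8 h9
        rw [abs_le]
        constructor <;> linarith
      rw [h3, hρ, abs_mul, abs_of_pos (hQR'.pos a)]
      simp only [h, dif_neg, not_false_iff]
      calc l' a * |dot (O i) (Q' a)| ≤ l' a * 1 :=
            mul_le_mul_of_nonneg_left h5 (hQR'.pos a).le
        _ ≤ 3 * L a := by rw [mul_one]; exact hl' a

/-- The number of reduced integral frames of a given shape. -/
theorem count_of_QR (r N : ℕ) (c : ℝ) (hc : 1 ≤ c) : ∃ C : ℝ, 0 < C ∧ ∀ L : Fin r → ℝ,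
    (∀ a, 0 < L a) → ∀ S : Finset (Fin r → Fin N → ℤ),
      (∀ Z ∈ S, ∃ (T : Matrix (Fin r) (Fin r) ℝ) (Q : Fin r → Fin N → ℝ) (l : Fin r → ℝ),
        QR Z T Q l ∧ (∀ a b, b < a → |T a b| ≤ l b) ∧ (∀ a b, a ≤ b → l a ≤ c * l b) ∧
        (∀ a : Fin r, (a : ℕ) = 0 → 1 ≤ l a) ∧ ∀ a, L a ≤ l a ∧ l a ≤ 3 * L a) →
      (S.card : ℝ) ≤ C * (∏ a, L a) ^ N * Real.exp (-spread (fun a => Real.log (L a))) := by
  classical
  have hc0 : 0 < c := by linarith
  set c1 : ℝ := 2 * (3 + 3 * c * N) with hc1
  have hc10 : 0 < c1 := by positivity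
  set C : ℝ := c1 ^ (N * r) * Real.exp (2 * Real.log (3 * c) * (r : ℝ) ^ 2) with hC
  refine ⟨C, by positivity, ?_⟩
  intro L hL S hS
  rcases S.eq_empty_or_nonempty with hSe | ⟨Z0, hZ0⟩
  · rw [hSe, card_empty, Nat.cast_zero]
    have : 0 < ∏ a, L a := prod_pos fun a _ => hL a
    positivity
  obtain ⟨T0, Q0, l0, hQR0, hT0, hm0, h10, hl0⟩ := hS Z0 hZ0
  have hrN : r ≤ N := hQR0.ortho.le
  have hLL : ∀ a b, a ≤ b → L a ≤ 3 * c * L b := by
    intro a b hab
    calc L a ≤ l0 a := (hl0 a).1
      _ ≤ c * l0 b := hm0 a b hab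
      _ ≤ c * (3 * L b) := mul_le_mul_of_nonneg_left (hl0 b).2 hc0.le
      _ = 3 * c * L b := by ring
  have hL1 : ∀ a, 1 ≤ 3 * c * L a := by
    intro a
    have hr : 0 < r := Fin.pos a
    have h1 := h10 ⟨0, hr⟩ rfl
    have h2 := hm0 ⟨0, hr⟩ a (Fin.le_def.2 (Nat.zero_le _))
    have h3 := (hl0 a).2
    calc (1 : ℝ) ≤ c * l0 a := h1.trans h2
      _ ≤ c * (3 * L a) := mul_le_mul_of_nonneg_left h3 hc0.le
      _ = 3 * c * L a := by ring
  have hNb : ∀ a, 2 * (3 * L a + N) ≤ c1 * L a := by
    intro a
    have h1 := hL1 a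
    have h2 : (N : ℝ) * 1 ≤ N * (3 * c * L a) :=
      mul_le_mul_of_nonneg_left h1 (Nat.cast_nonneg _)
    rw [hc1]
    nlinarith
  set K : Fin r → ℝ := fun a => (∏ b ∈ univ.filter (fun b => b < a), (2 * (3 * L b + N))) *
        (2 * (3 * L a + N)) ^ (N - a) with hK
  have hK0 : ∀ a, 0 ≤ K a := by
    intro a
    refine mul_nonneg (prod_nonneg fun b _ => ?_) (pow_nonneg ?_ _)
    · have := hL b; positivity
    · have := hL a; positivity
  have h1 := seqCount r S K hK0 ?_
  · refine h1.trans ?_
    -- bound of K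
    have h2 : ∀ a, K a ≤ c1 ^ N * (L a ^ N *
        ∏ b ∈ univ.filter (fun b => b < a), (L b / L a)) := by
      intro a
      have hcard : (univ.filter (fun b : Fin r => b < a)).card = (a : ℕ) := by
        rw [Finset.filter_gt_eq_Iio, Fin.card_Iio]
      have haN : (a : ℕ) ≤ N := (a.2.le.trans hrN)
      calc K a ≤ (∏ b ∈ univ.filter (fun b => b < a), (c1 * L b)) * (c1 * L a) ^ (N - a) := by
            refine mul_le_mul ?_ ?_ ?_ ?_
            · exact prod_le_prod (fun b _ => by have := hL b; positivity) fun b _ => hNb b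
            · exact pow_le_pow_left₀ (by have := hL a; positivity) (hNb a) _
            · have := hL a; positivity
            · exact prod_nonneg fun b _ => by have := hL b; positivity
        _ = c1 ^ N * (L a ^ N * ∏ b ∈ univ.filter (fun b => b < a), (L b / L a)) := by
            rw [prod_mul_distrib, prod_const, hcard, prod_div_distrib, prod_const, hcard,
              mul_pow c1]
            clear_value c1
            have h3 : c1 ^ N = c1 ^ (a : ℕ) * c1 ^ (N - a) := by
              rw [← pow_add, Nat.add_sub_cancel' haN]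
            have h4 : L a ^ N = L a ^ (a : ℕ) * L a ^ (N - a) := by
              rw [← pow_add, Nat.add_sub_cancel' haN]
            have h5 : L a ^ (a : ℕ) ≠ 0 := pow_ne_zero _ (hL a).ne'
            rw [h3, h4]
            field_simp
    calc ∏ a, K a ≤ ∏ a, (c1 ^ N * (L a ^ N *
        ∏ b ∈ univ.filter (fun b => b < a), (L b / L a))) :=
          prod_le_prod (fun a _ => hK0 a) fun a _ => h2 a
      _ = c1 ^ (N * r) * ((∏ a, L a) ^ N *
          ∏ a, ∏ b ∈ univ.filter (fun b => b < a), (L b / L a)) := by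
          rw [prod_mul_distrib, prod_const, card_univ, Fintype.card_fin, prod_mul_distrib,
            ← pow_mul, prod_pow]
      _ ≤ c1 ^ (N * r) * ((∏ a, L a) ^ N *
          (Real.exp (2 * Real.log (3 * c) * (r : ℝ) ^ 2) *
            Real.exp (-spread (fun a => Real.log (L a))))) := by
          have hP : 0 < ∏ a, L a := prod_pos fun a _ => hL a
          refine mul_le_mul_of_nonneg_left (mul_le_mul_of_nonneg_left ?_ (by positivity))
            (by positivity)
          have h3 : ∏ a, ∏ b ∈ univ.filter (fun b => b < a), (L b / L a) =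
              Real.exp (∑ a, ∑ b ∈ univ.filter (fun b => b < a),
                (Real.log (L b) - Real.log (L a))) := by
            rw [Real.exp_sum]
            refine prod_congr rfl fun a _ => ?_
            rw [Real.exp_sum]
            refine prod_congr rfl fun b _ => ?_
            rw [Real.exp_sub, Real.exp_log (hL b), Real.exp_log (hL a)]
          rw [h3, ← Real.exp_add, Real.exp_le_exp]
          have hlc : 0 ≤ Real.log (3 * c) := Real.log_nonneg (by linarith)
          have h4 : ∀ a b : Fin r, b ≤ a →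
              Real.log (L b) ≤ Real.log (3 * c) + Real.log (L a) := by
            intro a b hab
            rw [← Real.log_mul (by positivity) (hL a).ne']
            exact Real.log_le_log (hL b) (hLL b a hab)
          have h5 : spread (fun a => Real.log (L a)) +
              ∑ a, ∑ b ∈ univ.filter (fun b => b < a), (Real.log (L b) - Real.log (L a)) ≤
              ∑ _a : Fin r, ∑ _b : Fin r, 2 * Real.log (3 * c) := by
            have h6 : ∑ a, ∑ b ∈ univ.filter (fun b => b < a),
                (Real.log (L b) - Real.log (L a)) =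
                ∑ a, ∑ b, (if b < a then (Real.log (L b) - Real.log (L a)) else 0) := by
              refine sum_congr rfl fun a _ => ?_
              rw [sum_filter]
            rw [h6, spread, ← sum_add_distrib]
            refine sum_le_sum fun a _ => ?_
            rw [← sum_add_distrib]
            refine sum_le_sum fun b _ => ?_
            by_cases hba : b < a
            · rw [if_pos hba]
              have h7 := h4 a b hba.le
              rcases le_total 0 (Real.log (L a) - Real.log (L b)) with h8 | h8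
              · rw [max_eq_right h8]; linarith
              · rw [max_eq_left h8]; linarith
            · rw [if_neg hba, add_zero]
              have h7 := h4 b a (not_lt.1 hba)
              refine max_le (by linarith) (by linarith)
          rw [sum_const, sum_const, card_univ, Fintype.card_fin, nsmul_eq_mul,
            nsmul_eq_mul] at h5
          have h9 : (r : ℝ) * ((r : ℝ) * (2 * Real.log (3 * c))) =
              2 * Real.log (3 * c) * (r : ℝ) ^ 2 := by ring
          rw [h9] at h5
          linarith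
      _ = _ := by rw [hC]; ring
  · intro a Z hZ
    obtain ⟨T, Q, l, hQR, _⟩ := hS Z hZ
    refine card_rows L a hrN Z _ hL ⟨T, Q, l, hQR⟩ ?_
    intro Z' hZ'
    rw [mem_filter] at hZ'
    obtain ⟨T', Q', l', hQR', h5, _, _, h6⟩ := hS Z' hZ'.1
    exact ⟨hZ'.2, T', Q', l', hQR', fun b hb => h5 a b hb, fun b => (h6 b).2⟩

end Pool.Agent.Lib.MP_1acd66_nt.Gen
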