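import Pool.Agent.Lib.MP_1acd66_nt.Gen.CuspMain
import Pool.Agent.Lib.MP_1acd66_nt.Gen.Packing
import Pool.Agent.Lib.MP_1acd66_nt.Gen.Latt

/-!
Reduced integral frames in any rank: existence in every class under `GL_r(ℤ)`, and the interface
needed for the cusp bound.
-/

namespace Pool.Agent.Lib.MP_1acd66_nt.Gen

open Finset

section cons

variable {K : Type*} [CommRing K] {n N : ℕ}

theorem dot_sum_left' {ι : Type*} (s : Finset ι) (c : ι → K) (x : ι → Fin N → K)
    (y : Fin N → K) : dot (fun j => ∑ i ∈ s, c i * x i j) y = ∑ i ∈ s, c i * dot (x i) y := by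
  simp only [dot, Finset.sum_mul, Finset.mul_sum]
  rw [Finset.sum_comm]
  exact Finset.sum_congr rfl fun _ _ => Finset.sum_congr rfl fun _ _ => by ring

/-- block matrix with first row `(1, 0)` and other rows `(a i, h i)` -/
def consMat (a : Fin n → K) (h : Matrix (Fin n) (Fin n) K) :
    Matrix (Fin (n + 1)) (Fin (n + 1)) K :=
  Matrix.of (Fin.cons (Fin.cons 1 0) (fun i => Fin.cons (a i) (h i)))

theorem det_consMat (a : Fin n → K) (h : Matrix (Fin n) (Fin n) K) :
    (consMat a h).det = h.det := by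
  rw [Matrix.det_succ_row_zero, Fin.sum_univ_succ, Finset.sum_eq_zero]
  · simp only [Fin.val_zero, pow_zero, add_zero, one_mul]
    have e1 : consMat a h 0 0 = 1 := rfl
    rw [e1, one_mul]
    congr 1
  · intro j _
    have e1 : consMat a h 0 j.succ = 0 := rfl
    rw [e1]
    ring

theorem rowOp_consMat_zero (a : Fin n → K) (h : Matrix (Fin n) (Fin n) K)
    (W : Fin (n + 1) → Fin N → K) : rowOp (consMat a h) W 0 = W 0 := by
  funext j
  simp only [rowOp, Fin.sum_univ_succ]
  have e1 : consMat a h 0 0 = 1 := rfl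
  have e2 : ∀ k : Fin n, consMat a h 0 k.succ = 0 := fun _ => rfl
  simp [e1, e2]

theorem rowOp_consMat_succ (a : Fin n → K) (h : Matrix (Fin n) (Fin n) K)
    (W : Fin (n + 1) → Fin N → K) (i : Fin n) :
    rowOp (consMat a h) W i.succ = fun j => a i * W 0 j + rowOp h (fun k => W k.succ) i j := by
  funext j
  simp only [rowOp, Fin.sum_univ_succ]
  rfl

theorem gram_cons (u : Fin N → K) (Y : Fin n → Fin N → K) (h : ∀ i, dot u (Y i) = 0) :
    gram (Fin.cons u Y : Fin (n + 1) → Fin N → K) = dot u u * gram Y := by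
  rw [gram, Matrix.det_succ_row_zero, Fin.sum_univ_succ, Finset.sum_eq_zero]
  · simp only [Fin.val_zero, pow_zero, add_zero, one_mul]
    congr 1
  · intro j _
    have e : (Matrix.of fun i k => dot ((Fin.cons u Y : Fin (n + 1) → Fin N → K) i)
        ((Fin.cons u Y : Fin (n + 1) → Fin N → K) k)) 0 j.succ = dot u (Y j) := rfl
    rw [e, h j]
    ring

end cons

section int

variable {r N : ℕ}

theorem dot_self_nonneg_int (x : Fin N → ℤ) : 0 ≤ dot x x :=
  Finset.sum_nonneg fun _ _ => mul_self_nonneg _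

theorem dot_self_eq_zero_int {x : Fin N → ℤ} (h : dot x x = 0) : x = 0 := by
  funext j
  have h1 := (Finset.sum_eq_zero_iff_of_nonneg (fun _ _ => mul_self_nonneg _)).1 h j
    (mem_univ j)
  exact mul_self_eq_zero.1 h1

theorem gram_pos_iff_int (Z : Fin r → Fin N → ℤ) : 0 < gram Z ↔ IsFrame Z := by
  have h := gram_pos_iff (real1 Z)
  rw [gram_real1, isFrame_real1] at h
  rw [← h]
  exact_mod_cast Iff.rfl

theorem row_ne_zero {Z : Fin r → Fin N → ℤ} (h : IsFrame Z) (i : Fin r) : Z i ≠ 0 := by
  obtain ⟨f, hf⟩ := h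
  intro h0
  apply hf
  refine Matrix.det_eq_zero_of_row_eq_zero i fun j => ?_
  simp [h0]

theorem det_sq_int {g : Matrix (Fin r) (Fin r) ℤ} (hg : IsUnit g.det) : g.det ^ 2 = 1 := by
  rcases Int.isUnit_iff.1 hg with h | h <;> rw [h] <;> norm_num

theorem gram_unit {g : Matrix (Fin r) (Fin r) ℤ} (hg : IsUnit g.det) (Z : Fin r → Fin N → ℤ) :
    gram (rowOp g Z) = gram Z := by
  rw [gram_rowOp, det_sq_int hg, one_mul]

/-- permuting the rows -/
theorem exists_perm (g : Matrix (Fin r) (Fin r) ℤ) (hg : IsUnit g.det) (σ : Equiv.Perm (Fin r)) :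
    IsUnit (g.submatrix σ id).det ∧ ∀ Z : Fin r → Fin N → ℤ, rowOp (g.submatrix σ id) Z =
      fun i => rowOp g Z (σ i) := by
  constructor
  · rw [Matrix.det_permute]
    refine IsUnit.mul ?_ hg
    rcases Int.units_eq_one_or (Equiv.Perm.sign σ) with h | h <;> rw [h] <;> simp
  · intro Z
    rfl

theorem exists_min_row (Z : Fin (r + 1) → Fin N → ℤ) :
    ∃ g : Matrix (Fin (r + 1)) (Fin (r + 1)) ℤ,
    IsUnit g.det ∧ ∀ h : Matrix (Fin (r + 1)) (Fin (r + 1)) ℤ, IsUnit h.det → ∀ i,
      dot (rowOp g Z 0) (rowOp g Z 0) ≤ dot (rowOp h Z i) (rowOp h Z i) := by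
  classical
  have hex : ∃ m : ℕ, ∃ g : Matrix (Fin (r + 1)) (Fin (r + 1)) ℤ, IsUnit g.det ∧
      (dot (rowOp g Z 0) (rowOp g Z 0)).toNat = m := ⟨_, 1, by simp, rfl⟩
  obtain ⟨g, hg, hm⟩ := Nat.find_spec hex
  refine ⟨g, hg, ?_⟩
  intro h hh i
  obtain ⟨h1, h2⟩ := exists_perm (N := N) h hh (Equiv.swap 0 i)
  have h3 := Nat.find_min' hex ⟨_, h1, rfl⟩
  rw [← hm, h2 Z] at h3
  simp only [Equiv.swap_apply_left] at h3
  have h4 := dot_self_nonneg_int (rowOp g Z 0)
  have h5 := dot_self_nonneg_int (rowOp h Z i)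
  omega

/-- the key inequality of the induction -/
theorem size_step {q : ℝ} (hq : 0 < q) {u w : Fin N → ℝ} (hu : dot u u = q)
    (hw : q ≤ dot w w) (hc : |dot w u| ≤ q / 2) :
    3 * q ^ 2 * dot w w ≤ 4 * dot (fun j => q * w j - dot w u * u j)
      (fun j => q * w j - dot w u * u j) := by
  set c := dot w u with hc'
  have e : dot (fun j => q * w j - c * u j) (fun j => q * w j - c * u j) =
      q ^ 2 * dot w w - 2 * q * c * dot w u + c ^ 2 * dot u u := by
    simp only [dot, Finset.mul_sum, ← Finset.sum_sub_distrib, ← Finset.sum_add_distrib]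
    refine Finset.sum_congr rfl fun j _ => ?_
    ring
  rw [e, hu, ← hc']
  have h1 : c ^ 2 ≤ q ^ 2 / 4 := by
    have := sq_le_sq' (by linarith [(abs_le.1 hc).1]) (abs_le.1 hc).2
    calc c ^ 2 ≤ (q / 2) ^ 2 := this
      _ = q ^ 2 / 4 := by ring
  have h2 : q * c ^ 2 ≤ q ^ 2 / 4 * dot w w := by
    calc q * c ^ 2 ≤ q * (q ^ 2 / 4) := mul_le_mul_of_nonneg_left h1 hq.le
      _ = q ^ 2 / 4 * q := by ring
      _ ≤ q ^ 2 / 4 * dot w w := mul_le_mul_of_nonneg_left hw (by positivity)
  nlinarith

theorem cast_dot (x y : Fin N → ℤ) : ((dot x y : ℤ) : ℝ) = dot (fun j => (x j : ℝ)) (fun j => (y j : ℝ)) := by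
  simp [dot]

end int

/-- Size-reduced Gram-Schmidt data satisfying the Siegel condition. -/
structure Redu {r N : ℕ} (Y : Fin r → Fin N → ℝ) (T : Matrix (Fin r) (Fin r) ℝ)
    (Q : Fin r → Fin N → ℝ) (l : Fin r → ℝ) : Prop where
  ortho : Orthonormal' Q
  eq : Y = rowOp T Q
  diag : ∀ a, T a a = l a
  upper : ∀ a b, a < b → T a b = 0
  pos : ∀ a, 0 < l a
  small : ∀ a b, b < a → |T a b| ≤ l b / 2
  siegel : ∀ a b : Fin r, (b : ℕ) = a + 1 → 3 * l a ^ 2 ≤ 4 * l b ^ 2

theorem Redu.dot_self {r N : ℕ} {Y : Fin (r + 1) → Fin N → ℝ}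
    {T : Matrix (Fin (r + 1)) (Fin (r + 1)) ℝ}
    {Q : Fin (r + 1) → Fin N → ℝ} {l : Fin (r + 1) → ℝ} (h : Redu Y T Q l) :
    dot (Y 0) (Y 0) = l 0 ^ 2 := by
  have h1 : Y 0 = fun j => l 0 * Q 0 j := by
    rw [h.eq]
    funext j
    rw [rowOp, Fin.sum_univ_succ, Finset.sum_eq_zero, add_zero, h.diag]
    intro b _
    rw [h.upper 0 b.succ (Fin.succ_pos b), zero_mul]
  have h2 := h.ortho 0 0
  rw [if_pos rfl, dot] at h2
  rw [h1, dot]
  calc ∑ j, l 0 * Q 0 j * (l 0 * Q 0 j) = l 0 ^ 2 * ∑ j, Q 0 j * Q 0 j := by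
        rw [Finset.mul_sum]
        exact Finset.sum_congr rfl fun j _ => by ring
    _ = l 0 ^ 2 := by rw [h2, mul_one]

theorem Redu.det_pos {r N : ℕ} {Y : Fin r → Fin N → ℝ} {T : Matrix (Fin r) (Fin r) ℝ}
    {Q : Fin r → Fin N → ℝ} {l : Fin r → ℝ} (h : Redu Y T Q l) : 0 < T.det := by
  rw [Matrix.det_of_isLowerTriangular]
  · exact prod_pos fun a _ => by rw [h.diag]; exact h.pos a
  · intro a b hab
    exact h.upper a b hab

/-- vectors orthogonal to all rows are orthogonal to the orthonormal frame -/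
theorem Redu.orth {r N : ℕ} {Y : Fin r → Fin N → ℝ} {T : Matrix (Fin r) (Fin r) ℝ}
    {Q : Fin r → Fin N → ℝ} {l : Fin r → ℝ} (h : Redu Y T Q l) {u : Fin N → ℝ}
    (hu : ∀ i, dot (Y i) u = 0) (b : Fin r) : dot (Q b) u = 0 := by
  have h1 : T.mulVec (fun b => dot (Q b) u) = 0 := by
    funext i
    have h2 := hu i
    rw [h.eq] at h2
    have h3 := dot_sum_left' univ (fun b => T i b) Q u
    simp only [Matrix.mulVec, dotProduct, Pi.zero_apply]
    rw [← h3]
    exact h2
  have h2 := Matrix.eq_zero_of_mulVec_eq_zero h.det_pos.ne' h1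
  exact congrFun h2 b

/-- Existence of reduced bases. -/
theorem exists_redu (n : ℕ) : ∀ (N : ℕ) (Z : Fin n → Fin N → ℤ), IsFrame Z →
    ∃ g : Matrix (Fin n) (Fin n) ℤ, IsUnit g.det ∧ ∃ T Q l, Redu (real1 (rowOp g Z)) T Q l ∧
      ∀ a : Fin n, (a : ℕ) = 0 → 1 ≤ l a := by
  induction n with
  | zero =>
    intro N Z _
    refine ⟨1, by simp, 0, fun a => a.elim0, fun a => a.elim0, ?_, fun a => a.elim0⟩
    exact { ortho := fun a => a.elim0, eq := funext fun a => a.elim0, diag := fun a => a.elim0,
            upper := fun a => a.elim0, pos := fun a => a.elim0, small := fun a => a.elim0,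
            siegel := fun a => a.elim0 }
  | succ n IH =>
    intro N Z hZ
    obtain ⟨g0, hg0, hmin⟩ := exists_min_row Z
    set W := rowOp g0 Z with hW
    have hmin' : ∀ h : Matrix (Fin (n + 1)) (Fin (n + 1)) ℤ, IsUnit h.det → ∀ i,
        dot (W 0) (W 0) ≤ dot (rowOp h W i) (rowOp h W i) := by
      intro h hh i
      rw [hW, ← rowOp_mul]
      exact hmin (h * g0) (by rw [Matrix.det_mul]; exact hh.mul hg0) i
    set u := W 0 with hu
    set q := dot u u with hq
    have hWf : IsFrame W := by
      rw [← gram_pos_iff_int, hW, gram_unit hg0, gram_pos_iff_int]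
      exact hZ
    have hq0 : 0 < q := by
      refine lt_of_le_of_ne (dot_self_nonneg_int u) ?_
      intro h0
      exact row_ne_zero hWf 0 (dot_self_eq_zero_int h0.symm)
    have hqR : (0:ℝ) < (q:ℝ) := by exact_mod_cast hq0
    set Z' : Fin n → Fin N → ℤ := fun i j => q * W i.succ j - dot (W i.succ) u * u j with hZ'
    have hgZ' : q * gram Z' = q ^ (2 * n) * gram W := by
      have e1 : rowOp (consMat (fun i => -dot (W i.succ) u) (q • (1 : Matrix (Fin n) (Fin n) ℤ))) W =
          (Fin.cons u Z' : Fin (n + 1) → Fin N → ℤ) := by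
        funext i
        refine Fin.cases ?_ (fun i => ?_) i
        · rw [rowOp_consMat_zero]
          rfl
        · rw [rowOp_consMat_succ, ← smul_eq_rowOp]
          funext j
          simp only [Fin.cons_succ, Pi.smul_apply, smul_eq_mul, hZ']
          ring
      have e2 : ∀ i, dot u (Z' i) = 0 := by
        intro i
        have : dot u (Z' i) = q * dot (W i.succ) u - dot (W i.succ) u * dot u u := by
          simp only [hZ', dot, Finset.mul_sum, ← Finset.sum_sub_distrib]
          refine Finset.sum_congr rfl fun j _ => ?_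
          ring
        rw [this, ← hq]
        ring
      have e3 := gram_cons u Z' e2
      rw [← e1, gram_rowOp, det_consMat, Matrix.det_smul, Matrix.det_one, Fintype.card_fin,
        mul_one, ← pow_mul] at e3
      rw [← hq] at e3
      rw [← e3, mul_comm n 2]
    have hgZ'0 : 0 < gram Z' := by
      have h0 := (gram_pos_iff_int W).2 hWf
      have h1 : 0 < q * gram Z' := by rw [hgZ']; positivity
      exact (mul_pos_iff_of_pos_left hq0).1 h1
    obtain ⟨h, hh, T', Q', l', hred, -⟩ := IH N Z' ((gram_pos_iff_int Z').1 hgZ'0)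
    -- size reduction
    set v : Fin n → Fin N → ℤ := rowOp h (fun k => W k.succ) with hv
    set m : Fin n → ℤ := fun i => round (((dot (v i) u : ℤ) : ℝ) / (q:ℝ)) with hm
    set g1 := consMat (fun i => -m i) h with hg1
    have hg1u : IsUnit g1.det := by rw [hg1, det_consMat]; exact hh
    set w : Fin n → Fin N → ℤ := fun i => rowOp g1 W i.succ with hw
    have hwv : ∀ i, w i = fun j => -m i * u j + v i j := fun i => rowOp_consMat_succ _ _ _ _
    have hdotw : ∀ i, dot (w i) u = dot (v i) u - m i * q := by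
      intro i
      rw [hwv i, hq]
      simp only [dot, Finset.mul_sum, ← Finset.sum_sub_distrib]
      refine Finset.sum_congr rfl fun j _ => ?_
      ring
    have hy : ∀ i, rowOp h Z' i = fun j => q * w i j - dot (w i) u * u j := by
      intro i
      have e1 : rowOp h Z' i = fun j => q * v i j - dot (v i) u * u j := by
        funext j
        have e2 : dot (v i) u = ∑ k, h i k * dot (W k.succ) u :=
          dot_sum_left' univ (fun k => h i k) (fun k => W k.succ) u
        rw [e2]
        simp only [rowOp, hv, hZ', Finset.mul_sum, Finset.sum_mul, ← Finset.sum_sub_distrib]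
        refine Finset.sum_congr rfl fun k _ => ?_
        ring
      rw [e1, hdotw i, hwv i]
      funext j
      ring
    have hsmall : ∀ i, |((dot (w i) u : ℤ) : ℝ)| ≤ (q:ℝ) / 2 := by
      intro i
      rw [hdotw i]
      push_cast
      have h2 := abs_sub_round (((dot (v i) u : ℤ) : ℝ) / (q:ℝ))
      have h3 : ((dot (v i) u : ℤ) : ℝ) - (m i : ℝ) * q =
          (((dot (v i) u : ℤ) : ℝ) / (q:ℝ) - (m i : ℝ)) * q := by
        field_simp
      rw [h3, abs_mul, abs_of_pos hqR]
      calc |((dot (v i) u : ℤ) : ℝ) / (q:ℝ) - (m i : ℝ)| * q ≤ 1 / 2 * q :=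
            mul_le_mul_of_nonneg_right h2 hqR.le
        _ = q / 2 := by ring
    have hstep : ∀ i, 3 * (q:ℝ) ^ 2 * ((dot (w i) (w i) : ℤ) : ℝ) ≤
        4 * ((dot (rowOp h Z' i) (rowOp h Z' i) : ℤ) : ℝ) := by
      intro i
      have h1 := size_step (N := N) hqR (u := fun j => (u j : ℝ)) (w := fun j => (w i j : ℝ))
        (by rw [← cast_dot]) (by
          rw [← cast_dot]
          exact_mod_cast hmin' g1 hg1u i.succ) (by
          rw [← cast_dot]
          exact hsmall i)
      rw [← cast_dot] at h1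
      refine h1.trans (le_of_eq ?_)
      rw [hy i]
      have e6 := cast_dot (fun j => q * w i j - dot (w i) u * u j)
        (fun j => q * w i j - dot (w i) u * u j)
      have e7 := cast_dot (w i) u
      rw [e6]
      simp only [Int.cast_sub, Int.cast_mul, e7]
    -- the data
    set s : ℝ := √(q:ℝ) with hs
    have hs0 : 0 < s := Real.sqrt_pos.2 hqR
    have hss : s * s = q := Real.mul_self_sqrt hqR.le
    set uR : Fin N → ℝ := fun j => (u j : ℝ) with huR
    have huu : dot uR uR = q := by rw [huR, ← cast_dot]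
    have hyu : ∀ i, dot (real1 (rowOp h Z') i) uR = 0 := by
      intro i
      have e1 : dot (rowOp h Z' i) u = 0 := by
        rw [hy i]
        have : dot (fun j => q * w i j - dot (w i) u * u j) u =
            q * dot (w i) u - dot (w i) u * dot u u := by
          simp only [dot, Finset.mul_sum, ← Finset.sum_sub_distrib]
          refine Finset.sum_congr rfl fun j _ => ?_
          ring
        rw [this, ← hq]
        ring
      have e2 := cast_dot (rowOp h Z' i) u
      rw [e1, Int.cast_zero] at e2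
      exact e2.symm
    have hQu : ∀ b, dot (Q' b) uR = 0 := fun b => hred.orth hyu b
    set Q : Fin (n + 1) → Fin N → ℝ := Fin.cons (fun j => uR j / s) Q' with hQ
    set T : Matrix (Fin (n + 1)) (Fin (n + 1)) ℝ := Matrix.of (Fin.cons (Fin.cons s 0)
      (fun i => Fin.cons (((dot (w i) u : ℤ) : ℝ) / s) (fun b => T' i b / q))) with hT
    set l : Fin (n + 1) → ℝ := Fin.cons s (fun b => l' b / q) with hl
    have T00 : T 0 0 = s := rfl
    have T0s : ∀ b : Fin n, T 0 b.succ = 0 := fun _ => rfl
    have Ts0 : ∀ i : Fin n, T i.succ 0 = ((dot (w i) u : ℤ) : ℝ) / s := fun _ => rfl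
    have Tss : ∀ i b : Fin n, T i.succ b.succ = T' i b / q := fun _ _ => rfl
    have l0 : l 0 = s := rfl
    have ls : ∀ b : Fin n, l b.succ = l' b / q := fun _ => rfl
    have hd0 : dot (fun j => uR j / s) (fun j => uR j / s) = 1 := by
      have : dot (fun j => uR j / s) (fun j => uR j / s) = dot uR uR / (s * s) := by
        simp only [dot, Finset.sum_div]
        refine Finset.sum_congr rfl fun j _ => ?_
        field_simp
      rw [this, huu, hss, div_self hqR.ne']
    have hd1 : ∀ b, dot (Q' b) (fun j => uR j / s) = 0 := by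
      intro b
      have : dot (Q' b) (fun j => uR j / s) = dot (Q' b) uR / s := by
        simp only [dot, Finset.sum_div]
        refine Finset.sum_congr rfl fun j _ => ?_
        ring
      rw [this, hQu b, zero_div]
    refine ⟨g1 * g0, by rw [Matrix.det_mul]; exact hg1u.mul hg0, T, Q, l, ?_, ?_⟩
    · rw [rowOp_mul, ← hW]
      refine { ortho := ?_, eq := ?_, diag := ?_, upper := ?_, pos := ?_, small := ?_,
               siegel := ?_ }
      · intro a b
        refine Fin.cases ?_ (fun a => ?_) a <;> refine Fin.cases ?_ (fun b => ?_) b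
        · rw [if_pos rfl]; exact hd0
        · rw [if_neg (Fin.succ_ne_zero b).symm, dot_comm]; exact hd1 b
        · rw [if_neg (Fin.succ_ne_zero a)]; exact hd1 a
        · have := hred.ortho a b
          simp only [Fin.succ_inj]
          exact this
      · funext a j
        refine Fin.cases ?_ (fun a => ?_) a
        · rw [rowOp, Fin.sum_univ_succ, Finset.sum_eq_zero, add_zero, T00]
          · have e0 : rowOp g1 W 0 = u := rowOp_consMat_zero _ _ _
            change ((rowOp g1 W 0 j : ℤ) : ℝ) = s * (uR j / s)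
            rw [e0, mul_div_cancel₀ _ hs0.ne']
          · intro b _
            rw [T0s, zero_mul]
        · rw [rowOp, Fin.sum_univ_succ, Ts0]
          have e1 : ∑ b : Fin n, T a.succ b.succ * Q b.succ j =
              ((rowOp h Z' a j : ℤ) : ℝ) / q := by
            have e2 : ((rowOp h Z' a j : ℤ) : ℝ) = ∑ b, T' a b * Q' b j :=
              congrFun (congrFun hred.eq a) j
            rw [e2, Finset.sum_div]
            refine Finset.sum_congr rfl fun b _ => ?_
            rw [Tss]
            change T' a b / q * Q' b j = _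
            ring
          rw [e1]
          have e3 : rowOp h Z' a j = q * w a j - dot (w a) u * u j := congrFun (hy a) j
          rw [e3]
          change ((w a j : ℤ) : ℝ) = ((dot (w a) u : ℤ) : ℝ) / s * (uR j / s) + _
          push_cast
          rw [huR]
          have : ((dot (w a) u : ℤ) : ℝ) / s * ((u j : ℝ) / s) =
              ((dot (w a) u : ℤ) : ℝ) * (u j : ℝ) / q := by
            rw [← hss]; field_simp
          rw [this]
          field_simp
          ring
      · intro a
        refine Fin.cases ?_ (fun a => ?_) a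
        · rfl
        · rw [Tss, ls, hred.diag]
      · intro a b hab
        revert hab
        refine Fin.cases ?_ (fun a => ?_) a <;> refine Fin.cases ?_ (fun b => ?_) b
        · intro h; exact absurd h (lt_irrefl _)
        · intro _; exact T0s b
        · intro h; exact absurd h (not_lt.2 (Fin.zero_le _))
        · intro h
          rw [Tss, hred.upper a b (Fin.succ_lt_succ_iff.1 h), zero_div]
      · intro a
        refine Fin.cases ?_ (fun a => ?_) a
        · exact hs0
        · rw [ls]; exact div_pos (hred.pos a) hqR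
      · intro a b hab
        revert hab
        refine Fin.cases ?_ (fun a => ?_) a <;> refine Fin.cases ?_ (fun b => ?_) b
        · intro h; exact absurd h (lt_irrefl _)
        · intro h; exact absurd h (not_lt.2 (Fin.zero_le _))
        · intro _
          rw [Ts0, l0, abs_div, abs_of_pos hs0, div_le_iff₀ hs0]
          have : s / 2 * s = q / 2 := by rw [← hss]; ring
          rw [this]
          exact hsmall a
        · intro h
          rw [Tss, ls, abs_div, abs_of_pos hqR]
          have := hred.small a b (Fin.succ_lt_succ_iff.1 h)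
          rw [div_div, mul_comm (q:ℝ) 2, ← div_div]
          exact div_le_div_of_nonneg_right this hqR.le
      · intro a b hab
        revert hab
        refine Fin.cases ?_ (fun a => ?_) a <;> refine Fin.cases ?_ (fun b => ?_) b
        · intro h; simp at h
        · intro hb0
          rw [Fin.val_zero, Fin.val_succ] at hb0
          obtain ⟨n', rfl⟩ : ∃ n', n = n' + 1 := ⟨n - 1, by have := b.2; omega⟩
          have hb : b = 0 := by
            apply Fin.ext; rw [Fin.val_zero]; omega
          subst hb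
          rw [l0, ls, sq s, hss]
          have e1 := hstep 0
          have e2 := hred.dot_self
          have e3 : ((dot (rowOp h Z' 0) (rowOp h Z' 0) : ℤ) : ℝ) = l' 0 ^ 2 := by
            rw [cast_dot]; exact e2
          rw [e3] at e1
          have e4 : (q:ℝ) ≤ ((dot (w 0) (w 0) : ℤ) : ℝ) := by
            exact_mod_cast hmin' g1 hg1u (Fin.succ 0)
          rw [div_pow, mul_div_assoc', le_div_iff₀ (by positivity)]
          calc 3 * (q:ℝ) * (q:ℝ) ^ 2 = 3 * (q:ℝ) ^ 2 * q := by ring
            _ ≤ 3 * (q:ℝ) ^ 2 * ((dot (w 0) (w 0) : ℤ) : ℝ) :=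
              mul_le_mul_of_nonneg_left e4 (by positivity)
            _ ≤ _ := e1
        · intro h
          rw [Fin.val_zero, Fin.val_succ] at h
          omega
        · intro h
          rw [Fin.val_succ, Fin.val_succ] at h
          have := hred.siegel a b (by omega)
          rw [ls, ls, div_pow, div_pow, mul_div_assoc', mul_div_assoc']
          exact div_le_div_of_nonneg_right this (by positivity)
    · intro a ha
      have ha0 : a = 0 := by apply Fin.ext; rw [ha]; rfl
      subst ha0
      rw [l0, hs]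
      apply Real.one_le_sqrt.2
      exact_mod_cast hq0

/-- Reduced integral frames. -/
def Red {r N : ℕ} (Z : Fin r → Fin N → ℤ) : Prop :=
  ∃ T Q l, Redu (real1 Z) T Q l ∧ ∀ a : Fin r, (a : ℕ) = 0 → 1 ≤ l a

open Classical in
/-- The Gram-Schmidt lengths of a reduced frame. -/
noncomputable def gsl {r N : ℕ} (Z : Fin r → Fin N → ℤ) (a : Fin r) : ℝ :=
  if h : Red Z then h.choose_spec.choose_spec.choose a else 1

theorem Red.spec {r N : ℕ} {Z : Fin r → Fin N → ℤ} (h : Red Z) :
    ∃ T Q, Redu (real1 Z) T Q (gsl Z) ∧ ∀ a : Fin r, (a : ℕ) = 0 → 1 ≤ gsl Z a := by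
  have e : gsl Z = h.choose_spec.choose_spec.choose := by
    funext a
    rw [gsl, dif_pos h]
  rw [e]
  exact ⟨_, _, h.choose_spec.choose_spec.choose_spec⟩

/-- Every frame can be reduced. -/
theorem exists_red {r N : ℕ} {Z : Fin r → Fin N → ℤ} (hZ : IsFrame Z) :
    ∃ g : Matrix (Fin r) (Fin r) ℤ, IsUnit g.det ∧ Red (rowOp g Z) := by
  obtain ⟨g, hg, h⟩ := exists_redu r N Z hZ
  exact ⟨g, hg, h⟩

theorem Redu.mono {r N : ℕ} {Y : Fin r → Fin N → ℝ} {T : Matrix (Fin r) (Fin r) ℝ}
    {Q : Fin r → Fin N → ℝ} {l : Fin r → ℝ} (h : Redu Y T Q l) (a b : Fin r) (hab : a ≤ b) :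
    l a ≤ 2 ^ r * l b := by
  have key : ∀ n : ℕ, ∀ b : Fin r, (b : ℕ) = a + n → l a ≤ 2 ^ n * l b := by
    intro n
    induction n with
    | zero =>
      intro b hb
      have : b = a := Fin.ext (by omega)
      rw [this]; simp
    | succ n ih =>
      intro b hb
      have hb' : (a : ℕ) + n < r := by have := b.2; omega
      have h1 := ih ⟨a + n, hb'⟩ rfl
      have h2 := h.siegel ⟨a + n, hb'⟩ b (by simp only; omega)
      have h3 : l ⟨a + n, hb'⟩ ≤ 2 * l b := by
        have p1 := h.pos ⟨a + n, hb'⟩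
        have p2 := h.pos b
        nlinarith
      calc l a ≤ 2 ^ n * l ⟨a + n, hb'⟩ := h1
        _ ≤ 2 ^ n * (2 * l b) := mul_le_mul_of_nonneg_left h3 (by positivity)
        _ = 2 ^ (n + 1) * l b := by ring
  have hab' : (a : ℕ) ≤ b := hab
  have h1 := key (b - a) b (by omega)
  refine h1.trans (mul_le_mul_of_nonneg_right ?_ (h.pos b).le)
  exact pow_le_pow_right₀ (by norm_num) (by have := b.2; omega)

/-- The interface for the cusp bound. -/
theorem redAPI : RedAPI (fun {_ _} Z => Red Z) (fun {_ _} Z a => gsl Z a) where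
  decomp := by
    intro r N Z _ hred
    obtain ⟨T, Q, h, -⟩ := hred.spec
    refine ⟨T, Q, h.ortho, h.eq, h.diag, h.upper, ?_⟩
    intro a b hba
    have := h.small a b hba
    have := h.pos b
    linarith
  mono := by
    intro r
    refine ⟨2 ^ r, one_le_pow₀ (by norm_num), ?_⟩
    intro N Z _ hred a b hab
    obtain ⟨T, Q, h, -⟩ := hred.spec
    exact h.mono a b hab
  pos := by
    intro r N Z _ a
    by_cases hred : Red Z
    · obtain ⟨T, Q, h, -⟩ := hred.spec
      exact h.pos a
    · rw [gsl, dif_neg hred]; exact one_pos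
  one_le := by
    intro r N Z _ a ha
    by_cases hred : Red Z
    · obtain ⟨T, Q, -, h⟩ := hred.spec
      exact h a ha
    · rw [gsl, dif_neg hred]
  count := by
    intro r N
    obtain ⟨C, hC, h⟩ := count_of_QR r N (2 ^ r) (one_le_pow₀ (by norm_num))
    refine ⟨C, hC, ?_⟩
    intro L hL S hS
    refine h L hL S ?_
    intro Z hZ
    obtain ⟨-, hred, hl⟩ := hS Z hZ
    obtain ⟨T, Q, h, h1⟩ := hred.spec
    refine ⟨T, Q, gsl Z, ⟨h.ortho, h.eq, h.diag, h.upper, h.pos⟩, ?_, h.mono, h1, hl⟩
    intro a b hba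
    have := h.small a b hba
    have := h.pos b
    linarith

end Pool.Agent.Lib.MP_1acd66_nt.Gen
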