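import Pool.Agent.Lib.MP_1acd66_nt.Gen.KappaMain
import Pool.Agent.Lib.MP_1acd66_nt.Gen.KapPos
import Pool.Agent.Lib.MP_1acd66_nt.Gen.Final
import Pool.Agent.Lib.MP_1acd66_nt.Gen.CuspFinal
import Pool.Agent.Lib.MP_1acd66_nt.Gen.Reduce
import Pool.Agent.Lib.MP_1acd66_nt.Gen.RedSum

/-! The general asymptotic formula. -/

set_option linter.unusedSectionVars false

namespace Pool.Agent.Lib.MP_1acd66_nt.Gen

open MeasureTheory Filter Metric Set Topology

variable {k : ℕ} {r N : Fin k → ℕ} {W : Type} [Fintype W] {ρ : FRep r W}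
  {Good : (W → ℚ) → Prop}

/-- The asymptotic formula for projective bundles attached to representations. -/
theorem engine (hG : GoodInv ρ Good) (hcd : CuspData ρ Good) (hdz : DensityZero Good)
    (hr : ∀ i, 0 < r i) (hrN : ∀ i, r i < N i) (hb : ∀ i, ρ.b i ≤ N i)
    (hD : 2 ≤ Fintype.card W) (h : AdelicNorm N ρ.toRepData) :
    (∀ B, (countSet Good h B).Finite) ∧ ∃ c : ℝ, 0 < c ∧
      Tendsto (fun B : ℝ => ((countSet Good h B).ncard : ℝ) / (B * Real.log B ^ k))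
        atTop (𝓝 c) := by
  have hn : ∀ i, 0 < r i * N i := fun i => Nat.mul_pos (hr i) ((hr i).trans (hrN i))
  have hW : 0 < Fintype.card W := by omega
  have hcusp : CuspBound N ρ (fun {_ _} Z => Red Z) Good := cuspBound_of redAPI hcd hr hb
  obtain ⟨f0, f1, hf⟩ := h.tame
  have hex : ∀ i, RedEx (fun {_ _} Z => Red Z) (r i) (N i) := fun i Z hZ => exists_red hZ
  have hsum : ∀ i, RedSum (fun {_ _} Z => Red Z) (r i) (N i) := fun i => redSum (hr i)
  have hκ : ∀ t : ℝ, 0 < t → ∃ κ : ℝ,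
      (1 / 12 : ℝ) ^ k * (1 / 3) * f1⁻¹ * kapM (dens t h.inf) ≤ κ ∧
      κ ≤ f0⁻¹ * kapM (dens t h.inf) ∧
      Tendsto (fun B => XH Good h.inf h.ff t B / (B * Real.log B ^ k)) atTop (𝓝 κ) :=
    fun t ht => exists_kappa (Red := fun {_ _} Z => Red Z) h.isNorm_inf hb hr hrN hD hdz hex hsum
      hf ht
  refine main_of_kappa (fun {_ _} Z => Red Z) hG (fun Z hZ => exists_red hZ) hcusp h hr hn hb hW
    ?_ ?_
  · intro t ht
    obtain ⟨κ, _, _, h3⟩ := hκ t (by linarith)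
    exact ⟨κ, h3⟩
  · obtain ⟨κ, h1, _, h3⟩ := hκ 2 (by norm_num)
    refine ⟨2, κ, by norm_num, lt_of_lt_of_le ?_ h1, h3⟩
    have h4 := kapM_dens_pos h.isNorm_inf hb hr (fun i => (hrN i).le) hW (t := 2) le_rfl
    have h5 : 0 < f1 := hf.pos.trans_le hf.le
    positivity

end Pool.Agent.Lib.MP_1acd66_nt.Gen
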