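import Pool.Agent.Lib.MP_1acd66_nt.Gen.FormsDensity
import Pool.Agent.Lib.MP_1acd66_nt.Gen.Engine

/-! The asymptotic formula for systems of multihomogeneous forms. -/

namespace Pool.Agent.Lib.MP_1acd66_nt.Gen

open Filter Topology

variable {k : ℕ}

theorem choose_pos {r d : ℕ} (hr : 0 < r) : 0 < (r + d - 1).choose d :=
  Nat.choose_pos (by omega)

theorem two_le_card_WF {m : ℕ} {r d : Fin k → ℕ} (hr : ∀ i, 0 < r i) (hd : ∀ i, 0 < d i)
    (hm : (∑ i, (r i - 1) < m ∧ 2 ≤ m) ∨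
      (m = ∑ i, (r i - 1) ∧ 0 < m ∧ ∀ i, 2 ≤ r i → 2 ≤ d i)) :
    2 ≤ Fintype.card (WF m r d) := by
  rw [card_WF]
  have hp : ∀ i, 0 < (r i + d i - 1).choose (d i) := fun i => choose_pos (hr i)
  have h1 : 1 ≤ ∏ j, (r j + d j - 1).choose (d j) := Finset.prod_pos fun i _ => hp i
  rcases hm with ⟨_, h2⟩ | ⟨h2, h3, _⟩
  · calc 2 = 2 * 1 := rfl
      _ ≤ m * ∏ j, (r j + d j - 1).choose (d j) := Nat.mul_le_mul h2 h1
  · obtain ⟨i, hi⟩ : ∃ i, 2 ≤ r i := by
      by_contra hcon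
      push Not at hcon
      have : ∑ i, (r i - 1) = 0 := Finset.sum_eq_zero fun i _ => by have := hcon i; omega
      omega
    have h4 : 2 ≤ (r i + d i - 1).choose (d i) := by
      have h5 : (d i + 1).choose (d i) ≤ (r i + d i - 1).choose (d i) :=
        Nat.choose_le_choose _ (by omega)
      rw [Nat.choose_succ_self_right] at h5
      have := hd i
      omega
    have h5 : 2 ≤ ∏ j, (r j + d j - 1).choose (d j) := by
      refine h4.trans ?_
      exact Finset.single_le_prod' (f := fun j => (r j + d j - 1).choose (d j))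
        (fun j _ => hp j) (Finset.mem_univ i)
    calc 2 = 1 * 2 := rfl
      _ ≤ m * ∏ j, (r j + d j - 1).choose (d j) := Nat.mul_le_mul h3 h5

theorem formsMain (r d N : Fin k → ℕ) (m : ℕ) (hr : ∀ i, 0 < r i) (hd : ∀ i, 0 < d i)
    (hN : ∀ i, r i < N i)
    (hb : ∀ i, m * (∏ j, (r j + d j - 1).choose (d j)) * d i ≤ r i * N i)
    (hm : (∑ i, (r i - 1) < m ∧ 2 ≤ m) ∨
      (m = ∑ i, (r i - 1) ∧ 0 < m ∧ ∀ i, 2 ≤ r i → 2 ≤ d i))
    (h : AdelicNorm N (formsData m r d)) :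
    (∀ B, (countSet (goodForms m r d) h B).Finite) ∧ ∃ c : ℝ, 0 < c ∧
      Tendsto (fun B : ℝ => ((countSet (goodForms m r d) h B).ncard : ℝ) / (B * Real.log B ^ k))
        atTop (𝓝 c) := by
  have hm' : ∑ i, (r i - 1) < m ∨ (m = ∑ i, (r i - 1) ∧ 0 < m ∧ ∀ i, 2 ≤ r i → 2 ≤ d i) := by
    rcases hm with h1 | h1
    · exact Or.inl h1.1
    · exact Or.inr h1
  refine engine (ρ := repForms m r d) (Good := goodForms m r d) (goodInv_forms m r d)
    (cuspData_forms m hr hd) (densityZero_goodForms hr hm') hr hN ?_ (two_le_card_WF hr hd hm) h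
  intro i
  have h1 := repForms_b (m := m) (d := d) i (hr i)
  rw [card_WF] at h1
  have h2 := hb i
  rw [← h1] at h2
  exact Nat.le_of_mul_le_mul_left h2 (hr i)

end Pool.Agent.Lib.MP_1acd66_nt.Gen
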