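import Pool.Agent.Lib.MP_1acd66_nt.Gen.CuspMain

/-!
Tools for the families of representations: density of the zeros of a polynomial; triangularity
from the basis vectors.
-/

namespace Pool.Agent.Lib.MP_1acd66_nt.Gen

open Finset

variable {k : ℕ} {r : Fin k → ℕ} {W : Type} [Fintype W]

/-- Zeros of a nonzero polynomial over a finite prime field. -/
theorem card_zeros_le [DecidableEq W] {p : ℕ} [Fact p.Prime] (F : MvPolynomial W (ZMod p))
    (hF : F ≠ 0) :
    ((univ.filter (fun x : W → ZMod p => MvPolynomial.eval x F = 0)).card : ℝ) * p ≤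
      F.totalDegree * (p : ℝ) ^ (Fintype.card W) := by
  classical
  set e := Fintype.equivFin W with he
  have h1 := MvPolynomial.schwartz_zippel_totalDegree (R := ZMod p)
    (p := MvPolynomial.rename e F) ?_ univ
  · have h2 : (univ.filter (fun x : W → ZMod p => MvPolynomial.eval x F = 0)).card =
        ((Fintype.piFinset fun _ : Fin (Fintype.card W) => (univ : Finset (ZMod p))).filter
          (fun f => MvPolynomial.eval f (MvPolynomial.rename e F) = 0)).card := by
      refine card_bij (fun x _ => fun i => x (e.symm i)) ?_ ?_ ?_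
      · intro x hx
        rw [mem_filter] at hx ⊢
        refine ⟨Fintype.mem_piFinset.2 fun _ => mem_univ _, ?_⟩
        rw [MvPolynomial.eval_rename]
        have h3 : (fun i => x (e.symm i)) ∘ e = x := by
          funext w; simp
        rw [h3]; exact hx.2
      · intro x _ y _ hxy
        funext w
        have := congrFun hxy (e w)
        simpa using this
      · intro f hf
        rw [mem_filter] at hf
        refine ⟨f ∘ e, ?_, ?_⟩
        · rw [mem_filter]
          refine ⟨mem_univ _, ?_⟩
          rw [← MvPolynomial.eval_rename]; exact hf.2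
        · funext i; simp
    rw [← h2, card_univ, ZMod.card] at h1
    have h4 : MvPolynomial.totalDegree (MvPolynomial.rename e F) ≤ F.totalDegree :=
      MvPolynomial.totalDegree_rename_le _ _
    have hp : 0 < p := (Fact.out : p.Prime).pos
    have hp' : (0 : ℝ) < p := by exact_mod_cast hp
    have h5 : ((univ.filter (fun x : W → ZMod p => MvPolynomial.eval x F = 0)).card : ℝ) /
        (p : ℝ) ^ (Fintype.card W) ≤ F.totalDegree / p := by
      have h6 : ((univ.filter (fun x : W → ZMod p => MvPolynomial.eval x F = 0)).card : ℚ) /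
          (p : ℚ) ^ (Fintype.card W) ≤
          (MvPolynomial.totalDegree (MvPolynomial.rename e F) : ℚ) / p := by
        exact_mod_cast h1
      have h7 : ((univ.filter (fun x : W → ZMod p => MvPolynomial.eval x F = 0)).card : ℝ) /
          (p : ℝ) ^ (Fintype.card W) ≤
          (MvPolynomial.totalDegree (MvPolynomial.rename e F) : ℝ) / p := by
        have h8 := (Rat.cast_le (K := ℝ)).2 h6
        push_cast at h8
        exact h8
      refine h7.trans ?_
      gcongr
    rw [div_le_div_iff₀ (by positivity) hp'] at h5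
    exact h5
  · intro h
    apply hF
    exact MvPolynomial.rename_injective e e.injective (by rw [h, map_zero])

/-- Vectors on a hypersurface have density zero. -/
theorem densityZero_of_poly {Good : (W → ℚ) → Prop} (F : MvPolynomial W ℤ) (hF : F ≠ 0)
    (h : ∀ A : W → ℤ, ¬ Good (ratW A) → MvPolynomial.eval A F = 0) : DensityZero Good := by
  classical
  intro ε hε
  obtain ⟨m, hm⟩ : ∃ m, MvPolynomial.coeff m F ≠ 0 := by
    by_contra hcon
    push Not at hcon
    exact hF (MvPolynomial.ext _ _ fun m => by rw [hcon m, MvPolynomial.coeff_zero])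
  obtain ⟨M, hM⟩ := exists_nat_gt ((F.totalDegree : ℝ) / ε)
  obtain ⟨p, hp1, hp2⟩ := Nat.exists_infinite_primes (M + (MvPolynomial.coeff m F).natAbs + 1)
  have hpf : Fact p.Prime := ⟨hp2⟩
  have hp0 : 0 < p := hp2.pos
  have hp0' : (0 : ℝ) < p := by exact_mod_cast hp0
  set φ := Int.castRingHom (ZMod p) with hφ
  have hF' : MvPolynomial.map φ F ≠ 0 := by
    intro h0
    have h1 := congrArg (MvPolynomial.coeff m) h0
    rw [MvPolynomial.coeff_map, MvPolynomial.coeff_zero, hφ, eq_intCast,
      ZMod.intCast_zmod_eq_zero_iff_dvd] at h1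
    have h2 := Int.natAbs_dvd_natAbs.2 h1
    rw [Int.natAbs_natCast] at h2
    have h3 := Nat.le_of_dvd (Int.natAbs_pos.2 hm) h2
    omega
  have hcard := card_zeros_le (MvPolynomial.map φ F) hF'
  set I : Finset (W → ℤ) := (Fintype.piFinset fun _ : W => Finset.Ico (0 : ℤ) p).filter
    (fun x => ((MvPolynomial.eval x F : ℤ) : ZMod p) = 0) with hI
  have heval : ∀ x : W → ℤ, ((MvPolynomial.eval x F : ℤ) : ZMod p) =
      MvPolynomial.eval (fun w => (x w : ZMod p)) (MvPolynomial.map φ F) := by
    intro x
    have h1 := MvPolynomial.eval₂_comp_left φ (RingHom.id ℤ) x F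
    rw [MvPolynomial.eval_map]
    have h2 : ((MvPolynomial.eval x F : ℤ) : ZMod p) = φ (MvPolynomial.eval x F) := rfl
    rw [h2, ← MvPolynomial.eval₂_id, h1]
    rfl
  refine ⟨p, hp0, I, ?_, ?_, ?_⟩
  · intro x hx w
    rw [hI, mem_filter, Fintype.mem_piFinset] at hx
    have := hx.1 w
    rw [mem_Ico] at this
    exact this
  · have h1 : I.card ≤ (univ.filter (fun x : W → ZMod p =>
        MvPolynomial.eval x (MvPolynomial.map φ F) = 0)).card := by
      refine card_le_card_of_injOn (fun x w => (x w : ZMod p)) ?_ ?_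
      · intro x hx
        rw [mem_coe, hI, mem_filter] at hx
        rw [mem_coe, mem_filter]
        refine ⟨mem_univ _, ?_⟩
        rw [← heval]; exact hx.2
      · intro x hx y hy hxy
        rw [mem_coe, hI, mem_filter, Fintype.mem_piFinset] at hx hy
        funext w
        have h2 := congrFun hxy w
        simp only at h2
        rw [ZMod.intCast_eq_intCast_iff] at h2
        have h3 := hx.1 w
        have h4 := hy.1 w
        rw [mem_Ico] at h3 h4
        have h5 := h2.eq
        rwa [Int.emod_eq_of_lt h3.1 h3.2, Int.emod_eq_of_lt h4.1 h4.2] at h5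
    have h2 : (I.card : ℝ) * p ≤ F.totalDegree * (p : ℝ) ^ (Fintype.card W) := by
      refine le_trans (mul_le_mul_of_nonneg_right (by exact_mod_cast h1) hp0'.le)
        (hcard.trans ?_)
      have h3 : (MvPolynomial.map φ F).totalDegree ≤ F.totalDegree := by
        rw [MvPolynomial.totalDegree, MvPolynomial.totalDegree]
        exact Finset.sup_mono (MvPolynomial.support_map_subset _ _)
      gcongr
    have h3 : (F.totalDegree : ℝ) ≤ ε * p := by
      rw [div_lt_iff₀ hε] at hM
      have h4 : (M : ℝ) ≤ p := by exact_mod_cast (by omega : M ≤ p)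
      nlinarith
    have h4 : (I.card : ℝ) * p ≤ ε * (p : ℝ) ^ (Fintype.card W) * p := by
      refine h2.trans ?_
      have : 0 ≤ (p : ℝ) ^ (Fintype.card W) := by positivity
      nlinarith
    exact le_of_mul_le_mul_right h4 hp0'
  · intro A hA
    rw [hI, mem_filter, Fintype.mem_piFinset]
    refine ⟨fun w => ?_, ?_⟩
    · rw [mem_Ico]
      exact ⟨Int.emod_nonneg _ (by exact_mod_cast hp0.ne'), Int.emod_lt_of_pos _ (by exact_mod_cast hp0)⟩
    · rw [heval]
      have h1 : (fun w => (((A w % (p : ℤ) : ℤ)) : ZMod p)) = fun w => (A w : ZMod p) := by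
        funext w
        rw [ZMod.intCast_eq_intCast_iff]
        exact Int.mod_modEq _ _
      rw [h1, ← heval, h A hA]
      simp

theorem FRep.pull_sum (ρ : FRep r W) {K : Type} [CommRing K] (g : Grp K r) {ι : Type*}
    (s : Finset ι) (A : ι → W → K) :
    ρ.pull K g (∑ i ∈ s, A i) = ∑ i ∈ s, ρ.pull K g (A i) := by
  classical
  induction s using Finset.induction_on with
  | empty =>
    rw [sum_empty, sum_empty]
    have h := ρ.pull_smul K g 0 0
    rwa [zero_smul, zero_smul] at h
  | insert i s hi ih => rw [sum_insert hi, sum_insert hi, ρ.pull_add, ih]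

theorem FRep.pull_eq_sum [DecidableEq W] (ρ : FRep r W) {K : Type} [CommRing K] (g : Grp K r)
    (A : W → K) (w : W) :
    ρ.pull K g A w = ∑ w', ρ.pull K g (Pi.single w' 1) w * A w' := by
  have h1 : A = ∑ w', A w' • (Pi.single w' (1 : K) : W → K) := by
    funext v
    rw [Finset.sum_apply, sum_eq_single v]
    · simp
    · intro w' _ hne
      simp [hne.symm]
    · intro hv
      exact absurd (mem_univ v) hv
  conv_lhs => rw [h1]
  rw [ρ.pull_sum, Finset.sum_apply]
  refine sum_congr rfl fun w' _ => ?_
  rw [ρ.pull_smul, Pi.smul_apply, smul_eq_mul, mul_comm]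

/-- Triangularity from basis vectors. -/
theorem tri_of_basis [DecidableEq W] (ρ : FRep r W) (ht : W → ℕ)
    (h : ∀ μ : Grp ℝ r, UniLower μ → (∀ w, ρ.pull ℝ μ (Pi.single w 1) w = 1) ∧
      ∀ w w', w' ≠ w → ht w' ≤ ht w → ρ.pull ℝ μ (Pi.single w' 1) w = 0) :
    ∃ ht : W → ℕ, ∀ μ : Grp ℝ r, UniLower μ → ∃ U : W → W → ℝ, UniTri ht U ∧
    ∀ (A : W → ℝ) w, ρ.pull ℝ μ A w = ∑ w', U w w' * A w' := by
  refine ⟨ht, fun μ hμ => ⟨fun w w' => ρ.pull ℝ μ (Pi.single w' 1) w, ⟨?_, ?_⟩, ?_⟩⟩
  · exact (h μ hμ).1
  · exact (h μ hμ).2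
  · intro A w
    exact ρ.pull_eq_sum μ A w

end Pool.Agent.Lib.MP_1acd66_nt.Gen
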