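import Pool.Agent.Lib.MP_1acd66_nt.Gen.Sat

/-! Integral coordinates of rational points. -/

set_option linter.unusedSectionVars false

namespace Pool.Agent.Lib.MP_1acd66_nt.Gen

variable {k : ℕ} {r N : Fin k → ℕ} {W : Type} [Fintype W]

section grp

variable {K : Type} [CommRing K]

theorem act_one (Z : Frm K r N) : act 1 Z = Z := by
  funext i
  exact rowOp_one (Z i)

theorem act_mul (g h : Grp K r) (Z : Frm K r N) : act (g * h) Z = act g (act h Z) := by
  funext i
  exact rowOp_mul (g i) (h i) (Z i)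

theorem inv_mul_grp {g : Grp K r} (hg : ∀ i, IsUnit (g i).det) : g⁻¹ * g = 1 := by
  funext i
  exact Matrix.nonsing_inv_mul _ (hg i)

theorem mul_inv_grp {g : Grp K r} (hg : ∀ i, IsUnit (g i).det) : g * g⁻¹ = 1 := by
  funext i
  exact Matrix.mul_nonsing_inv _ (hg i)

theorem isUnit_inv_grp {g : Grp K r} (hg : ∀ i, IsUnit (g i).det) (i : Fin k) :
    IsUnit ((g⁻¹ : Grp K r) i).det := Matrix.isUnit_nonsing_inv_det _ (hg i)

theorem isUnit_mul_grp {g h : Grp K r} (hg : ∀ i, IsUnit (g i).det) (hh : ∀ i, IsUnit (h i).det)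
    (i : Fin k) : IsUnit ((g * h : Grp K r) i).det := by
  rw [Pi.mul_apply, Matrix.det_mul]
  exact (hg i).mul (hh i)

variable (ρ : FRep r W)

theorem pull_inv_pull {g : Grp K r} (hg : ∀ i, IsUnit (g i).det) (A : W → K) :
    ρ.pull K g⁻¹ (ρ.pull K g A) = A := by
  rw [ρ.pull_mul, mul_inv_grp hg, ρ.pull_one]

theorem pull_pull_inv {g : Grp K r} (hg : ∀ i, IsUnit (g i).det) (A : W → K) :
    ρ.pull K g (ρ.pull K g⁻¹ A) = A := by
  rw [ρ.pull_mul, inv_mul_grp hg, ρ.pull_one]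

theorem pull_zero (g : Grp K r) : ρ.pull K g 0 = 0 := by
  have h := ρ.pull_smul K g 0 0
  simpa using h

theorem pull_neg (g : Grp K r) (A : W → K) : ρ.pull K g (-A) = -ρ.pull K g A := by
  have h := ρ.pull_smul K g (-1) A
  simpa using h

theorem pull_injective {g : Grp K r} (hg : ∀ i, IsUnit (g i).det) :
    Function.Injective (ρ.pull K g) := by
  intro A B h
  rw [← pull_inv_pull ρ hg A, h, pull_inv_pull ρ hg]

theorem pull_ne_zero {g : Grp K r} (hg : ∀ i, IsUnit (g i).det) {A : W → K} (hA : A ≠ 0) :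
    ρ.pull K g A ≠ 0 := by
  intro h
  apply hA
  apply pull_injective ρ hg
  rw [h, pull_zero]

end grp

variable {ρ : FRep r W}

theorem same_equivalence (N : Fin k → ℕ) (ρ : FRep r W) : Equivalence (Same (W := W) (N := N) ρ.toRepData) where
  refl x := ⟨1, 1, by intro i; simp, one_ne_zero, (act_one _).symm, by
    rw [ρ.pull_one, one_smul]⟩
  symm := by
    rintro x y ⟨g, s, hg, hs, h1, h2⟩
    have hu : ∀ i, IsUnit (g i).det := fun i => isUnit_iff_ne_zero.2 (hg i)
    refine ⟨g⁻¹, s⁻¹, fun i => (isUnit_inv_grp hu i).ne_zero, inv_ne_zero hs, ?_, ?_⟩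
    · rw [h1, ← act_mul, inv_mul_grp hu, act_one]
    · have h3 : ρ.pull ℚ g⁻¹ (s • x.A) = y.A := by rw [h2, pull_inv_pull ρ hu]
      rw [← h3, ρ.pull_smul, smul_smul, inv_mul_cancel₀ hs, one_smul]
  trans := by
    rintro x y z ⟨g, s, hg, hs, h1, h2⟩ ⟨g', s', hg', hs', h1', h2'⟩
    refine ⟨g' * g, s' * s, ?_, mul_ne_zero hs' hs, ?_, ?_⟩
    · intro i
      rw [Pi.mul_apply, Matrix.det_mul]
      exact mul_ne_zero (hg' i) (hg i)
    · rw [h1', h1, act_mul]
    · rw [← ρ.pull_mul, ← h2', ρ.pull_smul, ← h2, smul_smul]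

theorem pt_eq_iff {x y : Rep r N W} : pt ρ x = pt ρ y ↔ Same ρ x y :=
  ⟨fun h => by
    have := Quot.eqvGen_exact h
    rwa [(same_equivalence N ρ).eqvGen_iff] at this, fun h => Quot.sound h⟩

/-- integral families with rational entries -/
def ratF (Z : Frm ℤ r N) : Frm ℚ r N := fun i a j => (Z i a j : ℚ)

/-- integral matrices with rational entries -/
def matQ (g : Grp ℤ r) : Grp ℚ r := fun i => (g i).map (Int.castRingHom ℚ)

theorem ratF_injective : Function.Injective (ratF : Frm ℤ r N → Frm ℚ r N) := by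
  intro Z Z' h
  funext i a j
  have := congrFun (congrFun (congrFun h i) a) j
  simp only [ratF] at this
  exact_mod_cast this

theorem ratW_injective : Function.Injective (ratW : (W → ℤ) → W → ℚ) := by
  intro A B h
  funext w
  have := congrFun h w
  simp only [ratW] at this
  exact_mod_cast this

theorem ratW_ne_zero {A : W → ℤ} (hA : A ≠ 0) : ratW A ≠ 0 := by
  intro h
  apply hA
  apply ratW_injective
  rw [h]
  funext w
  simp [ratW]

theorem minor_ratF (Z : Frm ℤ r N) (i : Fin k) (s : Fin (r i) → Fin (N i)) :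
    minor (ratF Z i) s = ((minor (Z i) s : ℤ) : ℚ) := minor_map (Int.castRingHom ℚ) (Z i) s

theorem allFrame_ratF {Z : Frm ℤ r N} : AllFrame (ratF Z) ↔ AllFrame Z := by
  refine forall_congr' fun i => ?_
  constructor
  · rintro ⟨s, hs⟩
    rw [minor_ratF] at hs
    exact ⟨s, by exact_mod_cast hs⟩
  · rintro ⟨s, hs⟩
    exact ⟨s, by rw [minor_ratF]; exact_mod_cast hs⟩

theorem matQ_det (g : Grp ℤ r) (i : Fin k) : (matQ g i).det = ((g i).det : ℚ) := by
  have := RingHom.map_det (Int.castRingHom ℚ) (g i)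
  simpa [matQ] using this.symm

theorem matQ_mul (g h : Grp ℤ r) : matQ (g * h) = matQ g * matQ h := by
  funext i
  simp only [matQ, Pi.mul_apply, Matrix.map_mul]

theorem matQ_one : matQ (1 : Grp ℤ r) = 1 := by
  funext i
  simp only [matQ, Pi.one_apply]
  exact Matrix.map_one _ (map_zero _) (map_one _)

theorem matQ_injective : Function.Injective (matQ : Grp ℤ r → Grp ℚ r) := by
  intro g h e
  funext i
  ext a b
  have := congrFun (congrFun (congrFun e i) a) b
  simpa [matQ] using this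

theorem act_ratF (g : Grp ℤ r) (Z : Frm ℤ r N) : act (matQ g) (ratF Z) = ratF (act g Z) := by
  funext i
  exact rowOp_map (Int.castRingHom ℚ) (g i) (Z i)

theorem pull_ratW (ρ : FRep r W) (g : Grp ℤ r) (A : W → ℤ) :
    ρ.pull ℚ (matQ g) (ratW A) = ratW (ρ.pull ℤ g A) :=
  ρ.pull_map ℤ ℚ (Int.castRingHom ℚ) g A

/-- the coordinates given by integral data -/
def ofInt (Z : Frm ℤ r N) (A : W → ℤ) (hZ : AllFrame Z) (hA : A ≠ 0) : Rep r N W :=
  ⟨ratF Z, ratW A, allFrame_ratF.2 hZ, ratW_ne_zero hA⟩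

/-- integral pairs in the same orbit describe the same point -/
theorem same_of_orbit {Z : Frm ℤ r N} {A : W → ℤ} {Z' : Frm ℤ r N} {A' : W → ℤ}
    (hZ : AllFrame Z) (hA : A ≠ 0) (hZ' : AllFrame Z') (hA' : A' ≠ 0) {g : Grp ℤ r}
    (hg : ∀ i, IsUnit (g i).det) (h1 : Z' = act g Z)
    (h2 : ρ.pull ℤ g A' = A ∨ ρ.pull ℤ g A' = -A) :
    Same ρ (ofInt Z A hZ hA) (ofInt Z' A' hZ' hA') := by
  have hdet : ∀ i, (matQ g i).det ≠ 0 := by
    intro i
    rw [matQ_det]
    exact_mod_cast (hg i).ne_zero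
  have h3 : (ofInt Z' A' hZ' hA').Z = act (matQ g) (ofInt Z A hZ hA).Z := by
    simp only [ofInt]
    rw [act_ratF, h1]
  rcases h2 with h2 | h2
  · refine ⟨matQ g, 1, hdet, one_ne_zero, h3, ?_⟩
    simp only [ofInt]
    rw [pull_ratW, h2, one_smul]
  · refine ⟨matQ g, -1, hdet, by norm_num, h3, ?_⟩
    simp only [ofInt]
    rw [pull_ratW, h2]
    funext w
    simp [ratW]

/-- a rational number whose products with integers without common factor are integral -/
theorem isInt_of_mul {ι : Type*} (c : ι → ℤ) (hc : ∀ p : ℕ, p.Prime → ∃ i, ¬ (p:ℤ) ∣ c i) (q : ℚ)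
    (h : ∀ i, ∃ n : ℤ, q * c i = n) : ∃ l : ℤ, q = l := by
  have hden : q.den = 1 := by
    by_contra hne
    obtain ⟨p, hp, hpd⟩ := Nat.exists_prime_and_dvd hne
    obtain ⟨i, hi⟩ := hc p hp
    apply hi
    obtain ⟨n, hn⟩ := h i
    have h1 : (q.num : ℚ) * c i = n * q.den := by
      have h2 : q * q.den = q.num := Rat.mul_den_eq_num q
      calc (q.num : ℚ) * c i = (q * q.den) * c i := by rw [h2]
        _ = (q * c i) * q.den := by ring
        _ = _ := by rw [hn]
    have h3 : q.num * c i = n * q.den := by exact_mod_cast h1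
    have h4 : (p:ℤ) ∣ q.num * c i := by
      rw [h3]
      exact Dvd.dvd.mul_left (Int.natCast_dvd_natCast.2 hpd) n
    have hp' : Prime (p:ℤ) := Nat.prime_iff_prime_int.1 hp
    refine (hp'.dvd_or_dvd h4).resolve_left ?_
    intro h5
    have h6 : p ∣ q.num.natAbs := Int.natCast_dvd.1 h5
    have h7 := Nat.dvd_gcd h6 hpd
    rw [q.reduced] at h7
    exact hp.one_lt.ne' (Nat.dvd_one.1 h7)
  refine ⟨q.num, ?_⟩
  exact (Rat.den_eq_one_iff q).1 hden |>.symm

/-- The coordinates of an integral vector with respect to a saturated frame are integral. -/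
theorem sat_int {r N : ℕ} {Z : Fin r → Fin N → ℤ} (hZ : SatZ Z) {c : Fin r → ℚ}
    (h : ∀ j, ∃ n : ℤ, ∑ b, c b * (Z b j : ℚ) = n) (a : Fin r) : ∃ l : ℤ, c a = l := by
  choose n hn using h
  refine isInt_of_mul (fun s : Fin r → Fin N => minor Z s) hZ (c a) ?_
  intro s
  -- replace row `a` by the integral vector
  refine ⟨((Matrix.of fun a b => Z a (s b)).updateRow a (fun b => n (s b))).det, ?_⟩
  set A : Matrix (Fin r) (Fin r) ℚ := Matrix.of fun a b => ((Z a (s b) : ℤ) : ℚ) with hA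
  have e1 : ((minor Z s : ℤ) : ℚ) = A.det := by
    rw [minor]
    have := RingHom.map_det (Int.castRingHom ℚ) (Matrix.of fun a b => Z a (s b))
    have h2 : (Int.castRingHom ℚ) (Matrix.of fun a b => Z a (s b)).det =
        (((Matrix.of fun a b => Z a (s b)).det : ℤ) : ℚ) := rfl
    rw [← h2, this]
    rfl
  have e2 : (((Matrix.of fun a b => Z a (s b)).updateRow a (fun b => n (s b))).det : ℚ) =
      (A.updateRow a (∑ b, c b • A b)).det := by
    have := RingHom.map_det (Int.castRingHom ℚ)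
      ((Matrix.of fun a b => Z a (s b)).updateRow a (fun b => n (s b)))
    have h2 : (Int.castRingHom ℚ) ((Matrix.of fun a b => Z a (s b)).updateRow a
        (fun b => n (s b))).det =
        ((((Matrix.of fun a b => Z a (s b)).updateRow a (fun b => n (s b))).det : ℤ) : ℚ) := rfl
    rw [← h2, this]
    congr 1
    ext b j
    by_cases hb : b = a
    · subst hb
      simp only [RingHom.mapMatrix_apply, Matrix.map_apply, Matrix.updateRow_self]
      rw [Finset.sum_apply]
      simp only [Pi.smul_apply, smul_eq_mul, hA, Matrix.of_apply]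
      have := hn (s j)
      rw [this]
      simp
    · simp only [RingHom.mapMatrix_apply, Matrix.map_apply, Matrix.updateRow_ne hb, hA,
        Matrix.of_apply]
      simp
  rw [e2, Matrix.det_updateRow_sum, e1, smul_eq_mul]

/-- two saturated frames of the same subspace differ by an integral matrix -/
theorem sat_act {Z Z' : Frm ℤ r N} (hZ : ∀ i, SatZ (Z i)) {g : Grp ℚ r}
    (h : ratF Z' = act g (ratF Z)) : ∃ l : Grp ℤ r, g = matQ l := by
  have key : ∀ i a b, ∃ l : ℤ, g i a b = l := by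
    intro i a b
    refine sat_int (hZ i) (c := g i a) ?_ b
    intro j
    refine ⟨Z' i a j, ?_⟩
    have := congrFun (congrFun (congrFun h i) a) j
    simp only [ratF, act, rowOp] at this
    exact this.symm
  choose l hl using key
  exact ⟨fun i => Matrix.of (l i), by
    funext i
    ext a b
    simp only [matQ, Matrix.map_apply, Matrix.of_apply]
    rw [hl i a b]
    simp⟩

theorem act_injective {K : Type} [Field K] {Z : Frm K r N} (hZ : AllFrame Z) {g h : Grp K r}
    (e : act g Z = act h Z) : g = h := by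
  funext i
  exact rowOp_injective (hZ i) (congrFun e i)

theorem act_inj_int {Z : Frm ℤ r N} (hZ : AllFrame Z) {g h : Grp ℤ r}
    (e : act g Z = act h Z) : g = h := by
  apply matQ_injective
  apply act_injective (allFrame_ratF.2 hZ)
  rw [act_ratF, act_ratF, e]

/-- vectors divisible by `p` -/
def DivW (p : ℕ) (A : W → ℤ) : Prop := ∀ w, (p:ℤ) ∣ A w

/-- primitive vectors -/
def PrimW (A : W → ℤ) : Prop := ∀ p : ℕ, p.Prime → ∃ w, ¬ (p:ℤ) ∣ A w

theorem primW_iff {A : W → ℤ} : PrimW A ↔ ∀ p : ℕ, p.Prime → ¬ DivW p A := by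
  simp only [PrimW, DivW, not_forall]

theorem PrimW.ne_zero {A : W → ℤ} (h : PrimW A) : A ≠ 0 := by
  rintro rfl
  obtain ⟨w, hw⟩ := h 2 Nat.prime_two
  exact hw (by simp)

theorem divW_iff {p : ℕ} {A : W → ℤ} : DivW p A ↔ ∃ B : W → ℤ, A = (p:ℤ) • B := by
  constructor
  · intro h
    have h' : ∀ w, ∃ c : ℤ, A w = (p:ℤ) * c := fun w => h w
    choose B hB using h'
    exact ⟨B, by funext w; exact hB w⟩
  · rintro ⟨B, rfl⟩ w
    exact ⟨B w, rfl⟩

theorem PrimW.pull {A : W → ℤ} (hA : PrimW A) (ρ : FRep r W) {g : Grp ℤ r}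
    (hg : ∀ i, IsUnit (g i).det) : PrimW (ρ.pull ℤ g A) := by
  rw [primW_iff] at hA ⊢
  intro p hp hdiv
  apply hA p hp
  obtain ⟨B, hB⟩ := divW_iff.1 hdiv
  refine divW_iff.2 ⟨ρ.pull ℤ g⁻¹ B, ?_⟩
  rw [← ρ.pull_smul, ← hB, pull_inv_pull ρ hg]

theorem PrimW.neg {A : W → ℤ} (hA : PrimW A) : PrimW (-A) := by
  intro p hp
  obtain ⟨w, hw⟩ := hA p hp
  exact ⟨w, by simpa using hw⟩

/-- integral coordinates are unique up to units -/
theorem same_unique {Z : Frm ℤ r N} {A : W → ℤ} {Z' : Frm ℤ r N} {A' : W → ℤ}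
    (hZ : ∀ i, SatZ (Z i)) (hA : PrimW A) (hZ' : ∀ i, SatZ (Z' i)) (hA' : PrimW A')
    (h : Same ρ (ofInt Z A (fun i => (hZ i).isFrame) hA.ne_zero)
      (ofInt Z' A' (fun i => (hZ' i).isFrame) hA'.ne_zero)) :
    ∃ g : Grp ℤ r, (∀ i, IsUnit (g i).det) ∧ Z' = act g Z ∧
      (ρ.pull ℤ g A' = A ∨ ρ.pull ℤ g A' = -A) := by
  obtain ⟨g, s, hg, hs, h1, h2⟩ := h
  simp only [ofInt] at h1 h2
  have hu : ∀ i, IsUnit (g i).det := fun i => isUnit_iff_ne_zero.2 (hg i)
  obtain ⟨l, rfl⟩ := sat_act hZ h1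
  have h3 : ratF Z = act (matQ l)⁻¹ (ratF Z') := by
    rw [h1, ← act_mul, inv_mul_grp hu, act_one]
  obtain ⟨m, hm⟩ := sat_act hZ' h3
  have hlm : l * m = 1 := by
    apply matQ_injective
    rw [matQ_mul, ← hm, mul_inv_grp hu, matQ_one]
  have hl : ∀ i, IsUnit (l i).det := by
    intro i
    have : (l i).det * (m i).det = 1 := by
      rw [← Matrix.det_mul]
      have := congrFun hlm i
      rw [Pi.mul_apply, Pi.one_apply] at this
      rw [this, Matrix.det_one]
    exact IsUnit.of_mul_eq_one _ this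
  have hZZ : Z' = act l Z := by
    apply ratF_injective
    rw [h1, act_ratF]
  rw [pull_ratW] at h2
  obtain ⟨n, hn⟩ : ∃ n : ℤ, s = n := by
    refine isInt_of_mul A hA s ?_
    intro w
    refine ⟨ρ.pull ℤ l A' w, ?_⟩
    have := congrFun h2 w
    simp only [ratW, Pi.smul_apply, smul_eq_mul] at this
    exact this
  have hpull : ρ.pull ℤ l A' = n • A := by
    funext w
    have := congrFun h2 w
    simp only [ratW, Pi.smul_apply, smul_eq_mul, hn] at this ⊢
    exact_mod_cast this.symm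
  have hprim : PrimW (ρ.pull ℤ l A') := hA'.pull ρ hl
  have hn1 : n.natAbs = 1 := by
    by_contra hne
    obtain ⟨p, hp, hpn⟩ := Nat.exists_prime_and_dvd hne
    obtain ⟨w, hw⟩ := hprim p hp
    apply hw
    rw [hpull]
    exact (Int.natCast_dvd.2 hpn).mul_right _
  refine ⟨l, hl, hZZ, ?_⟩
  rw [hpull]
  rcases Int.natAbs_eq n with h5 | h5
  · left; rw [h5, hn1]; simp
  · right; rw [h5, hn1]; simp

theorem clear_denomsW (x : W → ℚ) : ∃ (D : ℕ) (y : W → ℤ), 0 < D ∧ (D:ℚ) • x = ratW y := by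
  classical
  set D : ℕ := ∏ w, (x w).den with hD
  have hdvd : ∀ w, (x w).den ∣ D := fun w =>
    Finset.dvd_prod_of_mem (fun w => (x w).den) (Finset.mem_univ w)
  have hpos : 0 < D := Finset.prod_pos fun w _ => (x w).den_pos
  choose e he using hdvd
  refine ⟨D, fun w => (x w).num * e w, hpos, ?_⟩
  funext w
  simp only [Pi.smul_apply, smul_eq_mul, ratW]
  push_cast
  rw [he w]
  push_cast
  have h2 : x w * (x w).den = (x w).num := Rat.mul_den_eq_num _
  calc ((x w).den : ℚ) * (e w) * x w = (x w * (x w).den) * e w := by ring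
    _ = _ := by rw [h2]

theorem exists_prim {A : W → ℤ} (hA : A ≠ 0) : ∃ (l : ℤ) (B : W → ℤ), l ≠ 0 ∧ PrimW B ∧
    A = l • B := by
  have key : ∀ n : ℕ, ∀ A : W → ℤ, A ≠ 0 → ∑ w, (A w).natAbs ≤ n →
      ∃ (l : ℤ) (B : W → ℤ), l ≠ 0 ∧ PrimW B ∧ A = l • B := by
    intro n
    induction n with
    | zero =>
      intro A hA h
      exfalso
      apply hA
      funext w
      have h1 : ∑ w, (A w).natAbs = 0 := by omega
      exact Int.natAbs_eq_zero.1 ((Finset.sum_eq_zero_iff.1 h1) w (Finset.mem_univ w))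
    | succ n ih =>
      intro A hA h
      by_cases hP : PrimW A
      · exact ⟨1, A, one_ne_zero, hP, (one_smul _ _).symm⟩
      · rw [primW_iff] at hP
        push Not at hP
        obtain ⟨p, hp, hdiv⟩ := hP
        obtain ⟨B, rfl⟩ := divW_iff.1 hdiv
        have hB : B ≠ 0 := by
          rintro rfl
          exact hA (smul_zero _)
        have h1 : ∑ w, (((p:ℤ) • B) w).natAbs = p * ∑ w, (B w).natAbs := by
          simp only [Pi.smul_apply, smul_eq_mul, Int.natAbs_mul, Int.natAbs_natCast, Finset.mul_sum]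
        rw [h1] at h
        have h2 : 0 < ∑ w, (B w).natAbs := by
          rw [Nat.pos_iff_ne_zero]
          intro h0
          apply hB
          funext w
          exact Int.natAbs_eq_zero.1 ((Finset.sum_eq_zero_iff.1 h0) w (Finset.mem_univ w))
        have h3 : ∑ w, (B w).natAbs ≤ n := by
          have := hp.two_le
          nlinarith
        obtain ⟨l, C, hl, hC, hBC⟩ := ih B hB h3
        refine ⟨p * l, C, mul_ne_zero (by exact_mod_cast hp.ne_zero) hl, hC, ?_⟩
        rw [hBC, smul_smul]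
  exact key _ A hA le_rfl

theorem gram_pos_int {r N : ℕ} {Z : Fin r → Fin N → ℤ} (hZ : IsFrame Z) : 0 < gram Z := by
  have h := (gram_pos_iff (real1 Z)).2 (isFrame_real1.2 hZ)
  rw [gram_real1] at h
  exact_mod_cast h

/-- every rational frame can be changed to a saturated integral frame -/
theorem exists_sat1 {r N : ℕ} (x : Fin r → Fin N → ℚ) (hx : IsFrame x) :
    ∃ (Z : Fin r → Fin N → ℤ) (g : Matrix (Fin r) (Fin r) ℚ), g.det ≠ 0 ∧ SatZ Z ∧
      (fun a j => (Z a j : ℚ)) = rowOp g x := by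
  classical
  have hclear : ∃ (D : ℕ) (y : Fin r → Fin N → ℤ), 0 < D ∧ (D:ℚ) • x = fun a j => (y a j : ℚ) := by
    obtain ⟨D, y, hD, hy⟩ := clear_denomsW (fun w : Fin r × Fin N => x w.1 w.2)
    refine ⟨D, fun a j => y (a, j), hD, ?_⟩
    funext a j
    exact congrFun hy (a, j)
  obtain ⟨D, y, hD, hy⟩ := hclear
  have hD' : (D:ℚ) ≠ 0 := by exact_mod_cast hD.ne'
  set P : ℕ → Prop := fun n => ∃ (V : Fin r → Fin N → ℤ) (g : Matrix (Fin r) (Fin r) ℚ),
    g.det ≠ 0 ∧ (fun a j => (V a j : ℚ)) = rowOp g x ∧ (gram V).natAbs = n with hP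
  have hex : ∃ n, P n := by
    refine ⟨_, y, (D:ℚ) • 1, ?_, ?_, rfl⟩
    · rw [Matrix.det_smul, Matrix.det_one, mul_one]
      exact pow_ne_zero _ hD'
    · rw [← hy, smul_eq_rowOp]
  obtain ⟨V, g, hg, hV, hn⟩ := Nat.find_spec hex
  have hmin : ∀ n, P n → Nat.find hex ≤ n := fun n hn => Nat.find_min' hex hn
  have hframe : ∀ (V : Fin r → Fin N → ℤ) (g : Matrix (Fin r) (Fin r) ℚ), g.det ≠ 0 →
      (fun a j => (V a j : ℚ)) = rowOp g x → IsFrame V := by
    intro V g hg hV
    obtain ⟨s, hs⟩ := hx.rowOp hg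
    refine ⟨s, ?_⟩
    intro h0
    apply hs
    rw [← hV]
    have := minor_map (Int.castRingHom ℚ) V s
    simp only [eq_intCast] at this
    rw [this, h0, Int.cast_zero]
  refine ⟨V, g, hg, ?_, hV⟩
  rw [satZ_iff]
  intro p hp hns
  obtain ⟨l, U, hl, hVU⟩ := exists_super hp hns
  set L : Matrix (Fin r) (Fin r) ℚ := l.map (Int.castRingHom ℚ) with hL
  have hLd : L.det = (p:ℚ) := by
    have := RingHom.map_det (Int.castRingHom ℚ) l
    rw [hl] at this
    simpa [hL] using this.symm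
  have hLd0 : L.det ≠ 0 := by rw [hLd]; exact_mod_cast hp.ne_zero
  have hLu : IsUnit L.det := isUnit_iff_ne_zero.2 hLd0
  have hU : (fun a j => (U a j : ℚ)) = rowOp (L⁻¹ * g) x := by
    have h1 : (fun a j => (V a j : ℚ)) = rowOp L (fun a j => (U a j : ℚ)) := by
      rw [hVU]
      exact (rowOp_map (Int.castRingHom ℚ) l U).symm
    rw [rowOp_mul, ← hV, h1, ← rowOp_mul, Matrix.nonsing_inv_mul _ hLu, rowOp_one]
  have hdet : (L⁻¹ * g).det ≠ 0 := by
    rw [Matrix.det_mul]
    exact mul_ne_zero (Matrix.isUnit_nonsing_inv_det _ hLu).ne_zero hg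
  have h1 := hmin _ ⟨U, _, hdet, hU, rfl⟩
  rw [← hn] at h1
  have h2 : gram V = (p:ℤ) ^ 2 * gram U := by rw [hVU, gram_rowOp, hl]
  have h4 : 0 < gram U := gram_pos_int (hframe U _ hdet hU)
  have h5 : (2:ℤ) ≤ p := by exact_mod_cast hp.two_le
  have h7 : (4:ℤ) ≤ (p:ℤ) ^ 2 := by nlinarith
  have h6 : gram U < gram V := by rw [h2]; nlinarith
  omega

/-- every rational point has integral coordinates -/
theorem exists_int (ρ : FRep r W) (x : Rep r N W) :
    ∃ (Z : Frm ℤ r N) (A : W → ℤ) (hZ : ∀ i, SatZ (Z i)) (hA : PrimW A),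
    Same ρ x (ofInt Z A (fun i => (hZ i).isFrame) hA.ne_zero) := by
  have hex : ∀ i, ∃ (Z : Fin (r i) → Fin (N i) → ℤ) (g : Matrix (Fin (r i)) (Fin (r i)) ℚ),
      g.det ≠ 0 ∧ SatZ Z ∧ (fun a j => (Z a j : ℚ)) = rowOp g (x.Z i) :=
    fun i => exists_sat1 (x.Z i) (x.frame i)
  choose Z g hg hsat hZ using hex
  have hgu : ∀ i, IsUnit (g i).det := fun i => isUnit_iff_ne_zero.2 (hg i)
  have hZ' : ratF Z = act g x.Z := by
    funext i
    exact hZ i
  set A1 := ρ.pull ℚ (g : Grp ℚ r)⁻¹ x.A with hA1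
  have hA1g : ρ.pull ℚ g A1 = x.A := pull_pull_inv ρ hgu x.A
  obtain ⟨E, A2, hE, hA2⟩ := clear_denomsW A1
  have hE' : (E:ℚ) ≠ 0 := by exact_mod_cast hE.ne'
  have hA2ne : A2 ≠ 0 := by
    rintro rfl
    have h0 : ratW (0 : W → ℤ) = 0 := by
      funext w
      simp [ratW]
    rw [h0] at hA2
    have h1 : A1 = 0 := (smul_eq_zero.1 hA2).resolve_left hE'
    rw [h1, pull_zero] at hA1g
    exact x.ne hA1g.symm
  obtain ⟨l, A3, hl, hA3, hl3⟩ := exists_prim hA2ne
  have hl' : (l:ℚ) ≠ 0 := by exact_mod_cast hl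
  refine ⟨Z, A3, hsat, hA3, g, (l:ℚ)⁻¹ * E, hg, mul_ne_zero (inv_ne_zero hl') hE', hZ', ?_⟩
  simp only [ofInt]
  have h1 : ratW A3 = (l:ℚ)⁻¹ • ((E:ℚ) • A1) := by
    rw [hA2, hl3]
    funext w
    simp only [ratW, Pi.smul_apply, smul_eq_mul]
    push_cast
    field_simp
  rw [h1, ρ.pull_smul, ρ.pull_smul, hA1g, smul_smul]

end Pool.Agent.Lib.MP_1acd66_nt.Gen
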