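import Pool.Agent.Lib.MP_1acd66_nt.Gen.FamDense
import Pool.Agent.Lib.MP_1acd66_nt.Gen.Points

/-!
Systems of `∑ (r i - 1)` multihomogeneous forms of degrees at least two with a common rational zero
have density zero.
-/

namespace Pool.Agent.Lib.MP_1acd66_nt.Gen

open Finset

section defs

variable {k : ℕ} {r : Fin k → ℕ} {Ex : Type} [Fintype Ex] {m : ℕ}

/-- the value of a monomial -/
def monV {K : Type} [CommRing K] (ex : Ex → ∀ i, Fin (r i) → ℕ) (u : ∀ i, Fin (r i) → K)
    (e : Ex) : K := ∏ i, ∏ a, u i a ^ ex e i a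

/-- the value of a form -/
def valV {K : Type} [CommRing K] (ex : Ex → ∀ i, Fin (r i) → ℕ) (A : Ex → K)
    (u : ∀ i, Fin (r i) → K) : K := ∑ e, A e * monV ex u e

/-- no common rational zero -/
def NoZeroV (ex : Ex → ∀ i, Fin (r i) → ℕ) (m : ℕ) (A : Fin m × Ex → ℚ) : Prop :=
  ∀ u : ∀ i, Fin (r i) → ℚ, (∀ i, u i ≠ 0) → ∃ j, valV ex (fun e => A (j, e)) u ≠ 0

/-- scaling the variables -/
theorem monV_smul {K : Type} [CommRing K] {ex : Ex → ∀ i, Fin (r i) → ℕ} {d : Fin k → ℕ}
    (hsum : ∀ e i, ∑ a, ex e i a = d i) (t : Fin k → K) (u : ∀ i, Fin (r i) → K) (e : Ex) :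
    monV ex (fun i => t i • u i) e = (∏ i, t i ^ d i) * monV ex u e := by
  unfold monV
  rw [← prod_mul_distrib]
  refine prod_congr rfl fun i _ => ?_
  rw [← hsum e i, ← prod_pow_eq_pow_sum, ← prod_mul_distrib]
  refine prod_congr rfl fun a _ => ?_
  change (t i * u i a) ^ _ = _
  rw [mul_pow]

theorem valV_smul {K : Type} [CommRing K] {ex : Ex → ∀ i, Fin (r i) → ℕ} {d : Fin k → ℕ}
    (hsum : ∀ e i, ∑ a, ex e i a = d i) (t : Fin k → K) (A : Ex → K) (u : ∀ i, Fin (r i) → K) :
    valV ex A (fun i => t i • u i) = (∏ i, t i ^ d i) * valV ex A u := by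
  unfold valV
  rw [mul_sum]
  refine sum_congr rfl fun e _ => ?_
  rw [monV_smul hsum]
  ring

theorem valV_map {K L : Type} [CommRing K] [CommRing L] (f : K →+* L)
    (ex : Ex → ∀ i, Fin (r i) → ℕ) (A : Ex → K) (u : ∀ i, Fin (r i) → K) :
    valV ex (fun e => f (A e)) (fun i a => f (u i a)) = f (valV ex A u) := by
  simp only [valV, monV, map_sum, map_mul, map_prod, map_pow]

/-- products of linear forms -/
theorem exists_prod_forms {K : Type} [CommRing K] {ex : Ex → ∀ i, Fin (r i) → ℕ} {d : Fin k → ℕ}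
    (hsurj : ∀ c : ∀ i, Fin (r i) → ℕ, (∀ i, ∑ a, c i a = d i) → ∃ e, ex e = c)
    (L : ∀ i, Fin (d i) → Fin (r i) → K) :
    ∃ A : Ex → K, ∀ u : ∀ i, Fin (r i) → K,
      valV ex A u = ∏ i, ∏ j, ∑ a, L i j a * u i a := by
  classical
  -- the content of a choice
  have hc : ∀ c : ∀ i, Fin (d i) → Fin (r i), ∃ e, ex e = fun i a =>
      (univ.filter (fun j => c i j = a)).card := by
    intro c
    refine hsurj _ fun i => ?_
    have := card_eq_sum_card_fiberwise (s := (univ : Finset (Fin (d i)))) (t := univ)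
      (f := fun j => c i j) (fun _ _ => mem_univ _)
    rw [card_univ, Fintype.card_fin] at this
    exact this.symm
  choose κ hκ using hc
  refine ⟨fun e => ∑ c ∈ univ.filter (fun c => κ c = e), ∏ i, ∏ j, L i j (c i j), ?_⟩
  intro u
  have h1 : ∏ i, ∏ j, ∑ a, L i j a * u i a =
      ∑ c : ∀ i, Fin (d i) → Fin (r i), ∏ i, ∏ j, L i j (c i j) * u i (c i j) := by
    have h2 : ∀ i, ∏ j : Fin (d i), ∑ a, L i j a * u i a =
        ∑ c : Fin (d i) → Fin (r i), ∏ j, L i j (c j) * u i (c j) := by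
      intro i
      rw [prod_univ_sum, Fintype.piFinset_univ]
    rw [prod_congr rfl fun i _ => h2 i, prod_univ_sum, Fintype.piFinset_univ]
  have h3 : ∀ c : ∀ i, Fin (d i) → Fin (r i), ∏ i, ∏ j, u i (c i j) = monV ex u (κ c) := by
    intro c
    unfold monV
    rw [hκ c]
    refine prod_congr rfl fun i _ => ?_
    rw [← prod_fiberwise_of_maps_to (s := univ) (t := univ) (g := fun j => c i j)
      (fun _ _ => mem_univ _)]
    refine prod_congr rfl fun a _ => ?_
    rw [prod_congr rfl (g := fun _ => u i a), prod_const]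
    intro j hj
    rw [(mem_filter.1 hj).2]
  rw [h1]
  unfold valV
  have h4 : ∑ c : ∀ i, Fin (d i) → Fin (r i), ∏ i, ∏ j, L i j (c i j) * u i (c i j) =
      ∑ c : ∀ i, Fin (d i) → Fin (r i), (∏ i, ∏ j, L i j (c i j)) * monV ex u (κ c) := by
    refine sum_congr rfl fun c _ => ?_
    rw [← h3 c]
    simp only [prod_mul_distrib]
  rw [h4, ← sum_fiberwise_of_maps_to (s := univ) (t := univ) (g := κ) (fun _ _ => mem_univ _)]
  refine sum_congr rfl fun e _ => ?_
  rw [sum_mul]
  refine sum_congr rfl fun c hc => ?_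
  rw [(mem_filter.1 hc).2]

/-- a linear form with value one -/
theorem exists_lin_one {K : Type} [Field K] {n : ℕ} {u : Fin n → K} (hu : u ≠ 0) :
    ∃ L : Fin n → K, ∑ a, L a * u a = 1 := by
  classical
  obtain ⟨b, hb⟩ : ∃ b, u b ≠ 0 := by
    by_contra h
    push Not at h
    exact hu (funext h)
  refine ⟨Pi.single b (u b)⁻¹, ?_⟩
  rw [sum_eq_single b]
  · rw [Pi.single_eq_same, inv_mul_cancel₀ hb]
  · intro a _ ha
    rw [Pi.single_eq_of_ne ha, zero_mul]
  · intro h; exact absurd (mem_univ b) h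

/-- a linear form separating two points -/
theorem exists_lin_sep {K : Type} [Field K] {n : ℕ} {u v : Fin n → K} (hv : v ≠ 0)
    (h : ∀ t : K, u ≠ t • v) : ∃ L : Fin n → K, ∑ a, L a * u a = 1 ∧ ∑ a, L a * v a = 0 := by
  classical
  obtain ⟨b, hb⟩ : ∃ b, v b ≠ 0 := by
    by_contra h
    push Not at h
    exact hv (funext h)
  obtain ⟨c, hc⟩ : ∃ c, u c * v b - u b * v c ≠ 0 := by
    by_contra hcon
    push Not at hcon
    apply h (u b / v b)
    funext c
    have := hcon c
    rw [Pi.smul_apply, smul_eq_mul, div_mul_eq_mul_div, eq_div_iff hb]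
    linear_combination this
  have hbc : b ≠ c := by
    rintro rfl
    apply hc
    ring
  set D := u c * v b - u b * v c with hD
  refine ⟨Pi.single c (v b / D) - Pi.single b (v c / D), ?_, ?_⟩
  · simp only [Pi.sub_apply, sub_mul, sum_sub_distrib]
    rw [sum_eq_single c, sum_eq_single b, Pi.single_eq_same, Pi.single_eq_same]
    · rw [div_mul_eq_mul_div, div_mul_eq_mul_div, ← sub_div, div_eq_one_iff_eq hc, hD]
      ring
    · intro a _ ha
      rw [Pi.single_eq_of_ne ha, zero_mul]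
    · intro h; exact absurd (mem_univ _) h
    · intro a _ ha
      rw [Pi.single_eq_of_ne ha, zero_mul]
    · intro h; exact absurd (mem_univ _) h
  · simp only [Pi.sub_apply, sub_mul, sum_sub_distrib]
    rw [sum_eq_single c, sum_eq_single b, Pi.single_eq_same, Pi.single_eq_same]
    · ring
    · intro a _ ha
      rw [Pi.single_eq_of_ne ha, zero_mul]
    · intro h; exact absurd (mem_univ _) h
    · intro a _ ha
      rw [Pi.single_eq_of_ne ha, zero_mul]
    · intro h; exact absurd (mem_univ _) h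

end defs

section points

open scoped LinearAlgebra.Projectivization

variable {k : ℕ} {r : Fin k → ℕ} {Ex : Type} [Fintype Ex] {m : ℕ}

/-- points of the product of projective spaces -/
abbrev PX (K : Type) [Field K] (r : Fin k → ℕ) : Type := ∀ i, ℙ K (Fin (r i) → K)

/-- coordinates of a point -/
noncomputable def PX.co {K : Type} [Field K] (x : PX K r) : ∀ i, Fin (r i) → K :=
  fun i => (x i).rep

theorem PX.co_ne {K : Type} [Field K] (x : PX K r) (i : Fin k) : x.co i ≠ 0 :=
  (x i).rep_nonzero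

theorem PX.exists_sep {K : Type} [Field K] {x y : PX K r} (h : y ≠ x) :
    ∃ i, 2 ≤ r i ∧ ∃ L : Fin (r i) → K, ∑ a, L a * x.co i a = 1 ∧ ∑ a, L a * y.co i a = 0 := by
  obtain ⟨i, hi⟩ : ∃ i, y i ≠ x i := by
    by_contra hcon
    push Not at hcon
    exact h (funext hcon)
  have h1 : ∀ t : K, x.co i ≠ t • y.co i := by
    intro t ht
    apply hi
    rw [← (x i).mk_rep, ← (y i).mk_rep]
    symm
    rw [Projectivization.mk_eq_mk_iff']
    exact ⟨t, ht.symm⟩
  refine ⟨i, ?_, exists_lin_sep (y.co_ne i) h1⟩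
  by_contra hr
  have h2 : r i = 0 ∨ r i = 1 := by omega
  rcases h2 with h2 | h2
  · have : IsEmpty (Fin (r i)) := by rw [h2]; infer_instance
    exact x.co_ne i (Subsingleton.elim _ _)
  · obtain ⟨b, hb⟩ : ∃ b, y.co i b ≠ 0 := by
      by_contra hcon
      push Not at hcon
      exact y.co_ne i (funext hcon)
    apply h1 (x.co i b / y.co i b)
    funext c
    have : c = b := by
      apply Fin.ext
      have := c.2
      have := b.2
      omega
    rw [this, Pi.smul_apply, smul_eq_mul, div_mul_cancel₀ _ hb]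

/-- a form with value one at a point -/
theorem exists_form_one {K : Type} [Field K] {ex : Ex → ∀ i, Fin (r i) → ℕ} {d : Fin k → ℕ}
    (hsurj : ∀ c : ∀ i, Fin (r i) → ℕ, (∀ i, ∑ a, c i a = d i) → ∃ e, ex e = c) (x : PX K r) :
    ∃ A : Ex → K, valV ex A x.co = 1 := by
  choose L hL using fun i => exists_lin_one (x.co_ne i)
  obtain ⟨A, hA⟩ := exists_prod_forms hsurj (fun i _ => L i)
  refine ⟨A, ?_⟩
  rw [hA]
  refine prod_eq_one fun i _ => prod_eq_one fun j _ => hL i

/-- a form with value one at a point and zero at two others -/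
theorem exists_form_sep {K : Type} [Field K] {ex : Ex → ∀ i, Fin (r i) → ℕ} {d : Fin k → ℕ}
    (hsurj : ∀ c : ∀ i, Fin (r i) → ℕ, (∀ i, ∑ a, c i a = d i) → ∃ e, ex e = c)
    (hd : ∀ i, 2 ≤ r i → 2 ≤ d i) {x y z : PX K r} (hy : y ≠ x) (hz : z ≠ x) :
    ∃ A : Ex → K, valV ex A x.co = 1 ∧ valV ex A y.co = 0 ∧ valV ex A z.co = 0 := by
  classical
  obtain ⟨i1, hi1, L1, hL1, hL1'⟩ := PX.exists_sep hy
  obtain ⟨i2, hi2, L2, hL2, hL2'⟩ := PX.exists_sep hz
  choose L hL using fun i => exists_lin_one (x.co_ne i)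
  set M : ∀ i, Fin (d i) → Fin (r i) → K := fun i j =>
    if h : i1 = i ∧ (j : ℕ) = 0 then h.1 ▸ L1 else
      if h : i2 = i ∧ (j : ℕ) = 1 then h.1 ▸ L2 else L i with hM
  obtain ⟨A, hA⟩ := exists_prod_forms hsurj M
  have hx : ∀ i j, ∑ a, M i j a * x.co i a = 1 := by
    intro i j
    simp only [hM]
    by_cases h1 : i1 = i ∧ (j : ℕ) = 0
    · rw [dif_pos h1]
      obtain ⟨h, _⟩ := h1
      subst h
      exact hL1
    · rw [dif_neg h1]
      by_cases h2 : i2 = i ∧ (j : ℕ) = 1
      · rw [dif_pos h2]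
        obtain ⟨h, _⟩ := h2
        subst h
        exact hL2
      · rw [dif_neg h2]
        exact hL i
  refine ⟨A, ?_, ?_, ?_⟩
  · rw [hA]
    exact prod_eq_one fun i _ => prod_eq_one fun j _ => hx i j
  · rw [hA]
    refine prod_eq_zero (mem_univ i1) (prod_eq_zero (mem_univ ⟨0, by have := hd i1 hi1; omega⟩) ?_)
    have : M i1 ⟨0, by have := hd i1 hi1; omega⟩ = L1 := by
      simp only [hM]
      rw [dif_pos (by simp)]
    rw [this]
    exact hL1'
  · rw [hA]
    refine prod_eq_zero (mem_univ i2) (prod_eq_zero (mem_univ ⟨1, by have := hd i2 hi2; omega⟩) ?_)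
    have : M i2 ⟨1, by have := hd i2 hi2; omega⟩ = L2 := by
      simp only [hM]
      rw [dif_neg (by simp), dif_pos (by simp)]
    rw [this]
    exact hL2'

/-- the evaluation of a system of forms at a point -/
noncomputable def evX {K : Type} [Field K] (ex : Ex → ∀ i, Fin (r i) → ℕ) (m : ℕ) (x : PX K r) :
    (Fin m × Ex → K) →+ (Fin m → K) where
  toFun A := fun j => valV ex (fun e => A (j, e)) x.co
  map_zero' := by
    funext j
    simp [valV]
  map_add' A B := by
    funext j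
    simp only [valV, Pi.add_apply, add_mul, sum_add_distrib]

theorem evX_apply {K : Type} [Field K] (ex : Ex → ∀ i, Fin (r i) → ℕ) (m : ℕ) (x : PX K r)
    (A : Fin m × Ex → K) (j : Fin m) : evX ex m x A j = valV ex (fun e => A (j, e)) x.co := rfl

theorem valV_scal {K : Type} [CommRing K] (ex : Ex → ∀ i, Fin (r i) → ℕ) (c : K) (A : Ex → K)
    (u : ∀ i, Fin (r i) → K) : valV ex (fun e => c * A e) u = c * valV ex A u := by
  simp only [valV, mul_sum, mul_assoc]

/-- the number of points of the product of projective spaces over `𝔽_p` -/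
theorem card_PX (p : ℕ) [Fact p.Prime] (r : Fin k → ℕ) [Fintype (PX (ZMod p) r)] :
    Fintype.card (PX (ZMod p) r) = ∏ i, ∑ a ∈ range (r i), p ^ a := by
  classical
  rw [← Nat.card_eq_fintype_card, Nat.card_pi]
  refine prod_congr rfl fun i => ?_
  rw [Projectivization.card_of_finrank (ZMod p) (Fin (r i) → ZMod p) (n := r i) (by simp)]
  simp

/-- The bad systems modulo a prime. -/
theorem boundary_mod_p [DecidableEq Ex] {ex : Ex → ∀ i, Fin (r i) → ℕ} {d : Fin k → ℕ}
    (hsurj : ∀ c : ∀ i, Fin (r i) → ℕ, (∀ i, ∑ a, c i a = d i) → ∃ e, ex e = c)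
    (hd : ∀ i, 2 ≤ r i → 2 ≤ d i) (p : ℕ) [Fact p.Prime] [Fintype (PX (ZMod p) r)]
    [DecidablePred fun A : Fin m × Ex → ZMod p => ∃ x, evX ex m x A = 0] :
    ((univ.filter (fun A : Fin m × Ex → ZMod p => ∃ x, evX ex m x A = 0)).card : ℝ) ≤
      (p : ℝ) ^ (Fintype.card (Fin m × Ex)) *
      ((Fintype.card (PX (ZMod p) r) : ℝ) / (p : ℝ) ^ m -
        ((Fintype.card (PX (ZMod p) r) : ℝ) / (p : ℝ) ^ m) ^ 2 / 2 +
        ((Fintype.card (PX (ZMod p) r) : ℝ) / (p : ℝ) ^ m) ^ 3 / 6 +
        ((Fintype.card (PX (ZMod p) r) : ℝ) / (p : ℝ) ^ m) / (p : ℝ) ^ m) := by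
  classical
  have hp : p.Prime := Fact.out
  have : NeZero p := ⟨hp.ne_zero⟩
  have h := card_exists_zero_le (V := Fin m × Ex → ZMod p) (E := Fin m → ZMod p)
    (evX (r := r) ex m) ?_ ?_
  · have e1 : (Fintype.card (Fin m × Ex → ZMod p) : ℝ) = (p : ℝ) ^ (Fintype.card (Fin m × Ex)) := by
      rw [Fintype.card_fun, ZMod.card]; push_cast; rfl
    have e2 : (Fintype.card (Fin m → ZMod p) : ℝ) = (p : ℝ) ^ m := by
      rw [Fintype.card_fun, ZMod.card, Fintype.card_fin]; push_cast; rfl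
    rw [e1, e2] at h
    convert h
  · intro x c
    obtain ⟨A, hA⟩ := exists_form_one hsurj x
    refine ⟨fun w => c w.1 * A w.2, ?_⟩
    funext j
    rw [evX_apply]
    change valV ex (fun e => c j * A e) _ = _
    rw [valV_scal, hA, mul_one]
  · intro x y z hy hz c
    obtain ⟨A, hA1, hA2, hA3⟩ := exists_form_sep hsurj hd hy hz
    refine ⟨fun w => c w.1 * A w.2, ?_, ?_, ?_⟩
    · funext j
      rw [evX_apply]
      change valV ex (fun e => c j * A e) _ = _
      rw [valV_scal, hA1, mul_one]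
    · funext j
      rw [evX_apply]
      change valV ex (fun e => c j * A e) _ = _
      rw [valV_scal, hA2, mul_zero]
      rfl
    · funext j
      rw [evX_apply]
      change valV ex (fun e => c j * A e) _ = _
      rw [valV_scal, hA3, mul_zero]
      rfl

/-- a system with a common rational zero has a zero modulo every prime -/
theorem exists_zero_mod {ex : Ex → ∀ i, Fin (r i) → ℕ} {d : Fin k → ℕ}
    (hsum : ∀ e i, ∑ a, ex e i a = d i) {A : Fin m × Ex → ℤ}
    (hA : ¬ NoZeroV ex m (ratW A)) (p : ℕ) [Fact p.Prime] :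
    ∃ x : PX (ZMod p) r, evX ex m x (fun w => (A w : ZMod p)) = 0 := by
  classical
  have hp : p.Prime := Fact.out
  unfold NoZeroV at hA
  push Not at hA
  obtain ⟨u, hu, huz⟩ := hA
  -- primitive integral vectors
  have hprim : ∀ i, ∃ (t : ℚ) (v : Fin (r i) → ℤ), t ≠ 0 ∧ PrimW v ∧ (fun a => (v a : ℚ)) = t • u i := by
    intro i
    obtain ⟨D, y, hD, hy⟩ := clear_denomsW (u i)
    have hy0 : y ≠ 0 := by
      intro h0
      apply hu i
      have hD' : (D:ℚ) ≠ 0 := by exact_mod_cast hD.ne'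
      have : (D:ℚ) • u i = 0 := by
        rw [hy, h0]; funext a; simp [ratW]
      exact (smul_eq_zero.1 this).resolve_left hD'
    obtain ⟨l, v, hl, hv, hlv⟩ := exists_prim hy0
    have hl' : (l:ℚ) ≠ 0 := by exact_mod_cast hl
    have hD' : (D:ℚ) ≠ 0 := by exact_mod_cast hD.ne'
    refine ⟨(l:ℚ)⁻¹ * D, v, mul_ne_zero (inv_ne_zero hl') hD', hv, ?_⟩
    rw [mul_smul, hy]
    funext a
    rw [Pi.smul_apply, smul_eq_mul, ratW, hlv]
    rw [Pi.smul_apply, smul_eq_mul]
    push_cast
    rw [inv_mul_cancel_left₀ hl']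
  choose t v ht hv htv using hprim
  -- reduction modulo `p`
  have hvz : ∀ j, valV ex (fun e => A (j, e)) v = 0 := by
    intro j
    have h1 : valV ex (fun e => ((A (j, e) : ℤ) : ℚ)) (fun i a => ((v i a : ℤ) : ℚ)) = 0 := by
      have h2 : (fun i a => ((v i a : ℤ) : ℚ)) = fun i => t i • u i := funext fun i => htv i
      rw [h2, valV_smul hsum]
      have h3 := huz j
      rw [show (fun e => ((A (j, e) : ℤ) : ℚ)) = fun e => ratW A (j, e) from rfl, h3, mul_zero]
    have h2 := valV_map (Int.castRingHom ℚ) ex (fun e => A (j, e)) v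
    have h3 : Int.castRingHom ℚ (valV ex (fun e => A (j, e)) v) = 0 := by
      rw [← h2]; exact h1
    rw [eq_intCast] at h3
    exact_mod_cast h3
  have hne : ∀ i, (fun a => ((v i a : ℤ) : ZMod p)) ≠ 0 := by
    intro i h0
    obtain ⟨a, ha⟩ := hv i p hp
    apply ha
    have := congrFun h0 a
    simp only [Pi.zero_apply] at this
    exact (ZMod.intCast_zmod_eq_zero_iff_dvd _ _).1 this
  refine ⟨fun i => Projectivization.mk (ZMod p) _ (hne i), ?_⟩
  set x : PX (ZMod p) r := fun i => Projectivization.mk (ZMod p) _ (hne i) with hx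
  have hrep : ∀ i, ∃ s : ZMod p, x.co i = s • (fun a => ((v i a : ℤ) : ZMod p)) := by
    intro i
    have h1 := (x i).mk_rep
    have h2 : x i = Projectivization.mk (ZMod p) _ (hne i) := rfl
    rw [h2, Projectivization.mk_eq_mk_iff'] at h1
    obtain ⟨s, hs⟩ := h1
    exact ⟨s, hs.symm⟩
  choose s hs using hrep
  funext j
  rw [evX_apply]
  have h1 : x.co = fun i => s i • (fun a => ((v i a : ℤ) : ZMod p)) := funext hs
  rw [h1, valV_smul hsum]
  have h2 := valV_map (Int.castRingHom (ZMod p)) ex (fun e => A (j, e)) v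
  rw [hvz j, map_zero] at h2
  have h3 : valV ex (fun e => ((A (j, e) : ℤ) : ZMod p))
      (fun i a => ((v i a : ℤ) : ZMod p)) = 0 := h2
  rw [h3, mul_zero]
  rfl

/-- Density zero in the boundary case. -/
theorem densityZero_boundary {ex : Ex → ∀ i, Fin (r i) → ℕ} {d : Fin k → ℕ}
    (hsum : ∀ e i, ∑ a, ex e i a = d i)
    (hsurj : ∀ c : ∀ i, Fin (r i) → ℕ, (∀ i, ∑ a, c i a = d i) → ∃ e, ex e = c)
    (hr : ∀ i, 0 < r i) (hd : ∀ i, 2 ≤ r i → 2 ≤ d i) (hm : m = ∑ i, (r i - 1)) (hm0 : 0 < m) :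
    DensityZero (NoZeroV ex m) := by
  classical
  refine densityZero_of_primes (θ := 3 / 4) (by norm_num) (by norm_num) ?_
  intro P0
  obtain ⟨P, hP⟩ : ∃ P : ℕ, ∀ p : ℕ, P ≤ p → (((p : ℝ) / (p - 1)) ^ k ≤ 101 / 100) ∧ 1000 ≤ p := by
    have h1 : Filter.Tendsto (fun p : ℕ => ((p : ℝ) / (p - 1)) ^ k) Filter.atTop (nhds (1 ^ k)) := by
      refine Filter.Tendsto.pow ?_ k
      have h2 : Filter.Tendsto (fun p : ℕ => (p : ℝ) / ((p : ℝ) + (-1))) Filter.atTop (nhds 1) :=
        tendsto_natCast_div_add_atTop (-1 : ℝ)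
      exact h2
    rw [one_pow] at h1
    have h2 := h1.eventually (gt_mem_nhds (show (1:ℝ) < 101 / 100 by norm_num))
    obtain ⟨P, hP⟩ := Filter.eventually_atTop.1 h2
    refine ⟨max P 1000, fun p hp => ⟨(hP p ((le_max_left _ _).trans hp)).le,
      (le_max_right _ _).trans hp⟩⟩
  obtain ⟨p, hp1, hp2⟩ := Nat.exists_infinite_primes (max P (P0 + 1))
  have : Fact p.Prime := ⟨hp2⟩
  have hPp : P ≤ p := (le_max_left _ _).trans hp1
  obtain ⟨hq, h1000⟩ := hP p hPp
  have hp0 : (0:ℝ) < p := by exact_mod_cast hp2.pos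
  have hp1' : (1:ℝ) < p := by exact_mod_cast hp2.one_lt
  have hfin : Finite (PX (ZMod p) r) := by
    have : ∀ i, Finite (ℙ (ZMod p) (Fin (r i) → ZMod p)) := fun i => inferInstance
    infer_instance
  have : Fintype (PX (ZMod p) r) := Fintype.ofFinite _
  refine ⟨p, by have := (le_max_right P (P0 + 1)).trans hp1; omega, hp2,
    univ.filter (fun A : Fin m × Ex → ZMod p => ∃ x, evX ex m x A = 0), ?_, ?_⟩
  · refine (boundary_mod_p (m := m) hsurj hd p).trans ?_
    rw [mul_comm]
    refine mul_le_mul_of_nonneg_right ?_ (by positivity)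
    set lam : ℝ := (Fintype.card (PX (ZMod p) r) : ℝ) / (p : ℝ) ^ m with hlam
    -- bounds for the number of points
    have hcard : (Fintype.card (PX (ZMod p) r) : ℝ) = ∏ i, ∑ a ∈ range (r i), (p : ℝ) ^ a := by
      rw [card_PX]; push_cast; rfl
    have hpm : (p : ℝ) ^ m = ∏ i, (p : ℝ) ^ (r i - 1) := by
      rw [hm, prod_pow_eq_pow_sum]
    have hpm0 : 0 < (p : ℝ) ^ m := by positivity
    have hlow : 1 ≤ lam := by
      rw [hlam, le_div_iff₀ hpm0, one_mul, hcard, hpm]
      refine prod_le_prod (fun i _ => by positivity) fun i _ => ?_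
      exact single_le_sum (f := fun a => (p : ℝ) ^ a) (fun a _ => by positivity)
        (mem_range.2 (by have := hr i; omega))
    have hup : lam ≤ 101 / 100 := by
      refine le_trans ?_ hq
      rw [hlam, div_le_iff₀ hpm0, hcard, hpm]
      have h1 : ((p : ℝ) / (p - 1)) ^ k * ∏ i, (p : ℝ) ^ (r i - 1) =
          ∏ i : Fin k, ((p : ℝ) / (p - 1) * (p : ℝ) ^ (r i - 1)) := by
        rw [prod_mul_distrib, prod_const, card_univ, Fintype.card_fin]
      rw [h1]
      refine prod_le_prod (fun i _ => sum_nonneg fun a _ => by positivity) fun i _ => ?_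
      rw [geom_sum_eq hp1'.ne', div_mul_eq_mul_div]
      refine div_le_div_of_nonneg_right ?_ (by linarith)
      have h2 : (p : ℝ) * (p : ℝ) ^ (r i - 1) = (p : ℝ) ^ (r i) := by
        rw [← pow_succ']
        congr 1
        have := hr i; omega
      rw [h2]; linarith
    have hinv : lam / (p : ℝ) ^ m ≤ 101 / 100000 := by
      rw [div_le_iff₀ hpm0]
      have h1 : (1000 : ℝ) ≤ (p : ℝ) ^ m := by
        have h2 : (1000 : ℝ) ≤ p := by exact_mod_cast h1000
        exact h2.trans (le_self_pow₀ hp1'.le hm0.ne')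
      nlinarith
    have h2 : lam ^ 3 ≤ (101 / 100) ^ 3 := pow_le_pow_left₀ (by linarith) hup 3
    nlinarith
  · intro A hA
    rw [mem_filter]
    exact ⟨mem_univ _, exists_zero_mod hsum hA p⟩

/-- Density zero when there are more forms than the dimension of the product. -/
theorem densityZero_many {ex : Ex → ∀ i, Fin (r i) → ℕ} {d : Fin k → ℕ}
    (hsum : ∀ e i, ∑ a, ex e i a = d i)
    (hsurj : ∀ c : ∀ i, Fin (r i) → ℕ, (∀ i, ∑ a, c i a = d i) → ∃ e, ex e = c)
    (hr : ∀ i, 0 < r i) (hm : ∑ i, (r i - 1) < m) :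
    DensityZero (NoZeroV ex m) := by
  classical
  refine densityZero_of_primes (θ := 1 / 2) (by norm_num) (by norm_num) ?_
  intro P0
  obtain ⟨P, hP⟩ : ∃ P : ℕ, ∀ p : ℕ, P ≤ p → (((p : ℝ) / (p - 1)) ^ k ≤ 101 / 100) ∧ 1000 ≤ p := by
    have h1 : Filter.Tendsto (fun p : ℕ => ((p : ℝ) / (p - 1)) ^ k) Filter.atTop (nhds (1 ^ k)) := by
      refine Filter.Tendsto.pow ?_ k
      have h2 : Filter.Tendsto (fun p : ℕ => (p : ℝ) / ((p : ℝ) + (-1))) Filter.atTop (nhds 1) :=
        tendsto_natCast_div_add_atTop (-1 : ℝ)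
      exact h2
    rw [one_pow] at h1
    have h2 := h1.eventually (gt_mem_nhds (show (1:ℝ) < 101 / 100 by norm_num))
    obtain ⟨P, hP⟩ := Filter.eventually_atTop.1 h2
    refine ⟨max P 1000, fun p hp => ⟨(hP p ((le_max_left _ _).trans hp)).le,
      (le_max_right _ _).trans hp⟩⟩
  obtain ⟨p, hp1, hp2⟩ := Nat.exists_infinite_primes (max P (P0 + 1))
  have : Fact p.Prime := ⟨hp2⟩
  have : NeZero p := ⟨hp2.ne_zero⟩
  have hPp : P ≤ p := (le_max_left _ _).trans hp1
  obtain ⟨hq, h1000⟩ := hP p hPp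
  have hp0 : (0:ℝ) < p := by exact_mod_cast hp2.pos
  have hp1' : (1:ℝ) < p := by exact_mod_cast hp2.one_lt
  have hfin : Finite (PX (ZMod p) r) := by
    have : ∀ i, Finite (ℙ (ZMod p) (Fin (r i) → ZMod p)) := fun i => inferInstance
    infer_instance
  have : Fintype (PX (ZMod p) r) := Fintype.ofFinite _
  refine ⟨p, by have := (le_max_right P (P0 + 1)).trans hp1; omega, hp2,
    univ.filter (fun A : Fin m × Ex → ZMod p => ∃ x, evX ex m x A = 0), ?_, ?_⟩
  · -- the union bound
    have hker : ∀ x : PX (ZMod p) r,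
        ((univ.filter (fun A : Fin m × Ex → ZMod p => evX ex m x A = 0)).card : ℝ) =
          (p : ℝ) ^ Fintype.card (Fin m × Ex) / (p : ℝ) ^ m := by
      intro x
      have h := card_ker (V := Fin m × Ex → ZMod p) (F := Fin m → ZMod p) (evX ex m x) (by
        intro c
        obtain ⟨A, hA⟩ := exists_form_one hsurj x
        refine ⟨fun w => c w.1 * A w.2, ?_⟩
        funext j
        rw [evX_apply]
        change valV ex (fun e => c j * A e) _ = _
        rw [valV_scal, hA, mul_one])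
      have e1 : (Fintype.card (Fin m × Ex → ZMod p) : ℝ) =
          (p : ℝ) ^ (Fintype.card (Fin m × Ex)) := by
        rw [Fintype.card_fun, ZMod.card]; push_cast; rfl
      have e2 : (Fintype.card (Fin m → ZMod p) : ℝ) = (p : ℝ) ^ m := by
        rw [Fintype.card_fun, ZMod.card, Fintype.card_fin]; push_cast; rfl
      rw [e1, e2] at h
      rw [eq_div_iff (by positivity), ← h]
      congr!
    have hsub : univ.filter (fun A : Fin m × Ex → ZMod p => ∃ x, evX ex m x A = 0) ⊆
        (univ : Finset (PX (ZMod p) r)).biUnion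
          (fun x => univ.filter (fun A : Fin m × Ex → ZMod p => evX ex m x A = 0)) := by
      intro A hA
      obtain ⟨x, hx⟩ := (mem_filter.1 hA).2
      exact mem_biUnion.2 ⟨x, mem_univ _, mem_filter.2 ⟨mem_univ _, hx⟩⟩
    have hle : ((univ.filter (fun A : Fin m × Ex → ZMod p => ∃ x, evX ex m x A = 0)).card : ℝ) ≤
        (Fintype.card (PX (ZMod p) r) : ℝ) *
          ((p : ℝ) ^ Fintype.card (Fin m × Ex) / (p : ℝ) ^ m) := by
      calc ((univ.filter (fun A : Fin m × Ex → ZMod p => ∃ x, evX ex m x A = 0)).card : ℝ)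
          ≤ (((univ : Finset (PX (ZMod p) r)).biUnion
            (fun x => univ.filter (fun A : Fin m × Ex → ZMod p => evX ex m x A = 0))).card : ℝ) := by
            exact_mod_cast card_le_card hsub
        _ ≤ ∑ x : PX (ZMod p) r,
            ((univ.filter (fun A : Fin m × Ex → ZMod p => evX ex m x A = 0)).card : ℝ) := by
            exact_mod_cast card_biUnion_le
        _ = _ := by
            rw [sum_congr rfl fun x _ => hker x, sum_const, card_univ, nsmul_eq_mul]
    refine hle.trans ?_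
    have hre : (Fintype.card (PX (ZMod p) r) : ℝ) *
          ((p : ℝ) ^ Fintype.card (Fin m × Ex) / (p : ℝ) ^ m) =
        (Fintype.card (PX (ZMod p) r) : ℝ) / (p : ℝ) ^ m *
          (p : ℝ) ^ Fintype.card (Fin m × Ex) := by ring
    rw [hre]
    refine mul_le_mul_of_nonneg_right ?_ (by positivity)
    have hcard : (Fintype.card (PX (ZMod p) r) : ℝ) = ∏ i, ∑ a ∈ range (r i), (p : ℝ) ^ a := by
      rw [card_PX]; push_cast; rfl
    have hX : (Fintype.card (PX (ZMod p) r) : ℝ) ≤ 101 / 100 * (p : ℝ) ^ (∑ i, (r i - 1)) := by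
      refine le_trans ?_ (mul_le_mul_of_nonneg_right hq (by positivity))
      have h1 : ((p : ℝ) / (p - 1)) ^ k * (p : ℝ) ^ (∑ i, (r i - 1)) =
          ∏ i : Fin k, ((p : ℝ) / (p - 1) * (p : ℝ) ^ (r i - 1)) := by
        rw [prod_mul_distrib, prod_const, card_univ, Fintype.card_fin, prod_pow_eq_pow_sum]
      rw [h1, hcard]
      refine prod_le_prod (fun i _ => sum_nonneg fun a _ => by positivity) fun i _ => ?_
      rw [geom_sum_eq hp1'.ne', div_mul_eq_mul_div]
      refine div_le_div_of_nonneg_right ?_ (by linarith)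
      have h2 : (p : ℝ) * (p : ℝ) ^ (r i - 1) = (p : ℝ) ^ (r i) := by
        rw [← pow_succ']
        congr 1
        have := hr i; omega
      rw [h2]; linarith
    rw [div_le_iff₀ (by positivity)]
    have h3 : (p : ℝ) ^ (∑ i, (r i - 1)) * 1000 ≤ (p : ℝ) ^ m := by
      calc (p : ℝ) ^ (∑ i, (r i - 1)) * 1000 ≤ (p : ℝ) ^ (∑ i, (r i - 1)) * p := by
            refine mul_le_mul_of_nonneg_left ?_ (by positivity)
            exact_mod_cast h1000
        _ = (p : ℝ) ^ (∑ i, (r i - 1) + 1) := by rw [pow_succ]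
        _ ≤ (p : ℝ) ^ m := pow_le_pow_right₀ hp1'.le hm
    have h4 : 0 < (p : ℝ) ^ (∑ i, (r i - 1)) := by positivity
    nlinarith
  · intro A hA
    rw [mem_filter]
    exact ⟨mem_univ _, exists_zero_mod hsum hA p⟩

/-- Density zero of the systems of forms with a common rational zero. -/
theorem densityZero_noZero {ex : Ex → ∀ i, Fin (r i) → ℕ} {d : Fin k → ℕ}
    (hsum : ∀ e i, ∑ a, ex e i a = d i)
    (hsurj : ∀ c : ∀ i, Fin (r i) → ℕ, (∀ i, ∑ a, c i a = d i) → ∃ e, ex e = c)
    (hr : ∀ i, 0 < r i)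
    (hm : ∑ i, (r i - 1) < m ∨ (m = ∑ i, (r i - 1) ∧ 0 < m ∧ ∀ i, 2 ≤ r i → 2 ≤ d i)) :
    DensityZero (NoZeroV ex m) := by
  rcases hm with hm | ⟨hm, hm0, hd⟩
  · exact densityZero_many hsum hsurj hr hm
  · exact densityZero_boundary hsum hsurj hr hd hm hm0

end points

end Pool.Agent.Lib.MP_1acd66_nt.Gen
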