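import Pool.Agent.Lib.MP_1acd66_nt.Gen.FormsRep

/-!
Density zero of the systems of forms with a common rational zero.
-/

namespace Pool.Agent.Lib.MP_1acd66_nt.Gen

open Finset

/-- density zero from sets of residue vectors -/
theorem densityZero_of_zmod {W : Type} [Fintype W] {Good : (W → ℚ) → Prop}
    (h : ∀ ε : ℝ, 0 < ε → ∃ q : ℕ, 0 < q ∧ ∃ S : Finset (W → ZMod q),
      (S.card : ℝ) ≤ ε * (q : ℝ) ^ (Fintype.card W) ∧
      ∀ A : W → ℤ, ¬ Good (ratW A) → (fun w => (A w : ZMod q)) ∈ S) : DensityZero Good := by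
  classical
  intro ε hε
  obtain ⟨q, hq, S, hS, hA⟩ := h ε hε
  refine ⟨q, hq, (Fintype.piFinset fun _ : W => Finset.Ico (0 : ℤ) q).filter
    (fun x => (fun w => (x w : ZMod q)) ∈ S), ?_, ?_, ?_⟩
  · intro x hx w
    rw [mem_filter, Fintype.mem_piFinset] at hx
    have := hx.1 w
    rw [mem_Ico] at this
    exact this
  · refine le_trans ?_ hS
    norm_cast
    refine card_le_card_of_injOn (fun x w => (x w : ZMod q)) ?_ ?_
    · intro x hx
      rw [mem_coe, mem_filter] at hx
      exact hx.2
    · intro x hx y hy hxy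
      rw [mem_coe, mem_filter, Fintype.mem_piFinset] at hx hy
      funext w
      have h2 := congrFun hxy w
      simp only at h2
      rw [ZMod.intCast_eq_intCast_iff] at h2
      have h3 := hx.1 w
      have h4 := hy.1 w
      rw [mem_Ico] at h3 h4
      have h5 := h2.eq
      rwa [Int.emod_eq_of_lt h3.1 h3.2, Int.emod_eq_of_lt h4.1 h4.2] at h5
  · intro A hA'
    rw [mem_filter, Fintype.mem_piFinset]
    refine ⟨fun w => ?_, ?_⟩
    · rw [mem_Ico]
      exact ⟨Int.emod_nonneg _ (by exact_mod_cast hq.ne'),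
        Int.emod_lt_of_pos _ (by exact_mod_cast hq)⟩
    · have h1 : (fun w => (((A w % (q : ℤ) : ℤ)) : ZMod q)) = fun w => (A w : ZMod q) := by
        funext w
        rw [ZMod.intCast_eq_intCast_iff]
        exact Int.mod_modEq _ _
      rw [h1]
      exact hA A hA'

variable {k : ℕ} {r d : Fin k → ℕ} {m : ℕ}

/-- a common rational zero gives a common integral zero with primitive coordinates -/
theorem exists_int_zero {A : WF m r d → ℤ} (h : ¬ goodForms m r d (ratW A)) :
    ∃ u : ∀ i, Fin (r i) → ℤ, (∀ i, PrimW (u i)) ∧ ∀ e, formVal A e u = 0 := by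
  unfold goodForms at h
  push Not at h
  obtain ⟨u, hu, he⟩ := h
  have key : ∀ i, ∃ (s : ℚ) (B : Fin (r i) → ℤ), PrimW B ∧ ratW B = s • u i := by
    intro i
    obtain ⟨D, y, hD, hy⟩ := clear_denomsW (u i)
    have hD' : (D:ℚ) ≠ 0 := by exact_mod_cast hD.ne'
    have hy0 : y ≠ 0 := by
      rintro rfl
      apply hu i
      have h0 : ratW (0 : Fin (r i) → ℤ) = 0 := by
        funext w
        simp [ratW]
      rw [h0] at hy
      exact (smul_eq_zero.1 hy).resolve_left hD'
    obtain ⟨l, B, hl, hB, hlB⟩ := exists_prim hy0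
    have hl' : (l:ℚ) ≠ 0 := by exact_mod_cast hl
    refine ⟨(l:ℚ)⁻¹ * D, B, hB, ?_⟩
    rw [mul_smul, hy, hlB]
    funext w
    simp only [ratW, Pi.smul_apply, smul_eq_mul]
    push_cast
    field_simp
  choose s B hB hs using key
  refine ⟨B, hB, fun e => ?_⟩
  have h1 := formVal_smul_pt s (ratW A) e u
  rw [he e, mul_zero] at h1
  have h2 : (fun i => s i • u i) = fun i a => (Int.castRingHom ℚ) (B i a) := by
    funext i
    rw [← hs i]
    rfl
  rw [h2] at h1
  have h3 := formVal_map (Int.castRingHom ℚ) A e B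
  have h4 : (Int.castRingHom ℚ) (formVal A e B) = 0 := by
    rw [← h3]
    exact h1
  rw [eq_intCast] at h4
  exact_mod_cast h4

/-- reduction of a common rational zero modulo primes -/
theorem notGood_mod {A : WF m r d → ℤ} (h : ¬ goodForms m r d (ratW A)) {p : ℕ} (hp : p.Prime) :
    ∃ u : ∀ i, Fin (r i) → ZMod p, (∀ i, u i ≠ 0) ∧
      ∀ e, formVal (fun w => (A w : ZMod p)) e u = 0 := by
  obtain ⟨u, hu, he⟩ := exists_int_zero h
  refine ⟨fun i a => (u i a : ZMod p), fun i h0 => ?_, fun e => ?_⟩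
  · obtain ⟨a, ha⟩ := hu i p hp
    apply ha
    rw [← ZMod.intCast_zmod_eq_zero_iff_dvd]
    exact congrFun h0 a
  · have h1 := formVal_map (Int.castRingHom (ZMod p)) A e u
    rw [he e, map_zero] at h1
    exact h1

/-- a zero can be normalised -/
theorem exists_normal_zero {K : Type} [Field K] {A : WF m r d → K} {u : ∀ i, Fin (r i) → K}
    (hu : ∀ i, u i ≠ 0) (h : ∀ e, formVal A e u = 0) :
    ∃ a : ∀ i, Fin (r i), ∃ v : ∀ i, Fin (r i) → K, (∀ i, v i (a i) = 1) ∧
      ∀ e, formVal A e v = 0 := by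
  have h1 : ∀ i, ∃ a, u i a ≠ 0 := fun i => Function.ne_iff.1 (hu i)
  choose a ha using h1
  refine ⟨a, fun i => (u i (a i))⁻¹ • u i, fun i => ?_, fun e => ?_⟩
  · exact inv_mul_cancel₀ (ha i)
  · rw [formVal_smul_pt (fun i => (u i (a i))⁻¹), h e, mul_zero]

/-- the exponent vector of `∏ i, x_(i, a i) ^ (d i)` -/
def ptE (a : ∀ i, Fin (r i)) (d : Fin k → ℕ) : ExF r d := fun i =>
  ⟨Pi.single (a i) (d i), by
    rw [mem_piAntidiag]
    refine ⟨?_, fun _ _ => mem_univ _⟩
    rw [sum_eq_single (a i)]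
    · exact Pi.single_eq_same _ _
    · intro b _ hb
      exact Pi.single_eq_of_ne hb _
    · intro h; exact absurd (mem_univ _) h⟩

theorem prod_ptE {K : Type} [CommRing K] (a : ∀ i, Fin (r i)) {v : ∀ i, Fin (r i) → K}
    (hv : ∀ i, v i (a i) = 1) : ∏ i, ∏ c, v i c ^ (ptE a d i).1 c = 1 := by
  refine prod_eq_one fun i _ => ?_
  rw [prod_eq_single (a i)]
  · rw [hv i, one_pow]
  · intro b _ hb
    simp only [ptE]
    rw [Pi.single_eq_of_ne hb, pow_zero]
  · intro h; exact absurd (mem_univ _) h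

open scoped Classical in
/-- the number of systems vanishing at a point -/
theorem card_vanish {p : ℕ} [NeZero p] (a : ∀ i, Fin (r i)) {v : ∀ i, Fin (r i) → ZMod p}
    (hv : ∀ i, v i (a i) = 1) :
    (univ.filter (fun A : WF m r d → ZMod p => ∀ e, formVal A e v = 0)).card * p ^ m ≤
      p ^ Fintype.card (WF m r d) := by
  have h1 : (univ.filter (fun A : WF m r d → ZMod p => ∀ e, formVal A e v = 0)).card * p ^ m =
      ((univ.filter (fun A : WF m r d → ZMod p => ∀ e, formVal A e v = 0)) ×ˢ
        (univ : Finset (Fin m → ZMod p))).card := by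
    rw [card_product, card_univ, Fintype.card_fun, Fintype.card_fin, ZMod.card]
  have h2 : p ^ Fintype.card (WF m r d) = (univ : Finset (WF m r d → ZMod p)).card := by
    rw [card_univ, Fintype.card_fun, ZMod.card]
  rw [h1, h2]
  have hval : ∀ (A : WF m r d → ZMod p) (t : Fin m → ZMod p) (e : Fin m),
      formVal (A + fun w => if w.2 = ptE a d then t w.1 else 0) e v = formVal A e v + t e := by
    intro A t e
    rw [formVal_add]
    congr 1
    rw [formVal, sum_eq_single (ptE a d)]
    · simp only [if_true]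
      rw [prod_ptE a hv, mul_one]
    · intro β _ hβ
      simp only
      rw [if_neg hβ, zero_mul]
    · intro h; exact absurd (mem_univ _) h
  refine card_le_card_of_injOn (fun x => x.1 + fun w => if w.2 = ptE a d then x.2 w.1 else 0)
    (fun _ _ => mem_coe.2 (mem_univ _)) ?_
  rintro ⟨A, t⟩ hA ⟨B, s⟩ hB hAB
  rw [mem_coe, mem_product, mem_filter] at hA hB
  simp only at hA hB hAB
  have hts : t = s := by
    funext e
    have h3 := (hval A t e).symm.trans ((congrArg (fun C => formVal C e v) hAB).trans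
      (hval B s e))
    rw [hA.1.2 e, hB.1.2 e, zero_add, zero_add] at h3
    exact h3
  subst hts
  have hAB' : A = B := add_right_cancel hAB
  rw [hAB']

theorem card_normal {n p : ℕ} [NeZero p] (a : Fin n) :
    (Fintype.piFinset (fun b : Fin n => if b = a then ({1} : Finset (ZMod p)) else univ)).card =
      p ^ (n - 1) := by
  classical
  rw [Fintype.card_piFinset]
  have h1 : ∀ b : Fin n, (if b = a then ({1} : Finset (ZMod p)) else univ).card =
      if b = a then 1 else p := by
    intro b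
    by_cases h : b = a
    · rw [if_pos h, if_pos h, card_singleton]
    · rw [if_neg h, if_neg h, card_univ, ZMod.card]
  rw [prod_congr rfl fun b _ => h1 b,
    ← prod_erase (univ : Finset (Fin n)) (f := fun b => if b = a then 1 else p) (a := a)
      (if_pos rfl)]
  rw [prod_congr rfl fun b hb => if_neg (ne_of_mem_erase hb), prod_const,
    card_erase_of_mem (mem_univ _), card_univ, Fintype.card_fin]

open scoped Classical in
/-- the number of systems with a zero modulo `p` -/
theorem card_withZero {p : ℕ} [Fact p.Prime] :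
    (univ.filter (fun A : WF m r d → ZMod p => ∃ u : ∀ i, Fin (r i) → ZMod p,
      (∀ i, u i ≠ 0) ∧ ∀ e, formVal A e u = 0)).card * p ^ m ≤
      (∏ i, r i) * (p ^ (∑ i, (r i - 1)) * p ^ Fintype.card (WF m r d)) := by
  set nrm : (∀ i, Fin (r i)) → Finset (∀ i, Fin (r i) → ZMod p) := fun a =>
    Fintype.piFinset fun i => Fintype.piFinset
      (fun b : Fin (r i) => if b = a i then ({1} : Finset (ZMod p)) else univ) with hnrm
  have hmem : ∀ a v, v ∈ nrm a ↔ ∀ i, v i (a i) = 1 := by
    intro a v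
    rw [hnrm]
    simp only [Fintype.mem_piFinset]
    constructor
    · intro h i
      have := h i (a i)
      rw [if_pos rfl, mem_singleton] at this
      exact this
    · intro h i b
      by_cases hb : b = a i
      · rw [if_pos hb, hb, h i]; exact mem_singleton_self _
      · rw [if_neg hb]; exact mem_univ _
  have hcard : ∀ a, (nrm a).card = p ^ (∑ i, (r i - 1)) := by
    intro a
    rw [hnrm, Fintype.card_piFinset, prod_congr rfl fun i _ => card_normal (a i),
      prod_pow_eq_pow_sum]
  have hsub : (univ.filter (fun A : WF m r d → ZMod p => ∃ u : ∀ i, Fin (r i) → ZMod p,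
      (∀ i, u i ≠ 0) ∧ ∀ e, formVal A e u = 0)) ⊆
      (univ : Finset (∀ i, Fin (r i))).biUnion fun a => (nrm a).biUnion fun v =>
        univ.filter (fun A : WF m r d → ZMod p => ∀ e, formVal A e v = 0) := by
    intro A hA
    rw [mem_filter] at hA
    obtain ⟨_, u, hu, h⟩ := hA
    obtain ⟨a, v, hv, h'⟩ := exists_normal_zero hu h
    rw [mem_biUnion]
    refine ⟨a, mem_univ _, ?_⟩
    rw [mem_biUnion]
    exact ⟨v, (hmem a v).2 hv, by rw [mem_filter]; exact ⟨mem_univ _, h'⟩⟩
  calc _ ≤ ((univ : Finset (∀ i, Fin (r i))).biUnion fun a => (nrm a).biUnion fun v =>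
        univ.filter (fun A : WF m r d → ZMod p => ∀ e, formVal A e v = 0)).card * p ^ m :=
        Nat.mul_le_mul_right _ (card_le_card hsub)
    _ ≤ (∑ a : (∀ i, Fin (r i)), ∑ v ∈ nrm a, (univ.filter
          (fun A : WF m r d → ZMod p => ∀ e, formVal A e v = 0)).card) * p ^ m := by
        refine Nat.mul_le_mul_right _ (card_biUnion_le.trans ?_)
        exact sum_le_sum fun a _ => card_biUnion_le
    _ = ∑ a : (∀ i, Fin (r i)), ∑ v ∈ nrm a, (univ.filter
          (fun A : WF m r d → ZMod p => ∀ e, formVal A e v = 0)).card * p ^ m := by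
        rw [sum_mul]
        refine sum_congr rfl fun a _ => ?_
        rw [sum_mul]
    _ ≤ ∑ a : (∀ i, Fin (r i)), ∑ v ∈ nrm a, p ^ Fintype.card (WF m r d) := by
        refine sum_le_sum fun a _ => sum_le_sum fun v hv => ?_
        exact card_vanish a ((hmem a v).1 hv)
    _ = _ := by
        simp only [sum_const, hcard, smul_eq_mul, card_univ, Fintype.card_pi, Fintype.card_fin]

/-- More forms than the dimension of the product of projective spaces: the systems with a common
rational zero have density zero. -/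
theorem densityZero_forms (hm : ∑ i, (r i - 1) < m) :
    DensityZero (goodForms m r d) := by
  classical
  refine densityZero_of_zmod fun ε hε => ?_
  obtain ⟨M, hM⟩ := exists_nat_gt (((∏ i, r i : ℕ) : ℝ) / ε)
  obtain ⟨p, hp1, hp2⟩ := Nat.exists_infinite_primes (M + 1)
  have hpf : Fact p.Prime := ⟨hp2⟩
  have hp0 : 0 < p := hp2.pos
  have hp0' : (0 : ℝ) < p := by exact_mod_cast hp0
  refine ⟨p, hp0, univ.filter (fun A : WF m r d → ZMod p => ∃ u : ∀ i, Fin (r i) → ZMod p,
      (∀ i, u i ≠ 0) ∧ ∀ e, formVal A e u = 0), ?_, ?_⟩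
  · have h1 := card_withZero (m := m) (r := r) (d := d) (p := p)
    set c := (univ.filter (fun A : WF m r d → ZMod p => ∃ u : ∀ i, Fin (r i) → ZMod p,
      (∀ i, u i ≠ 0) ∧ ∀ e, formVal A e u = 0)).card with hc
    set s := ∑ i, (r i - 1) with hs
    have h2 : c * p * p ^ s ≤ (∏ i, r i) * p ^ Fintype.card (WF m r d) * p ^ s := by
      calc c * p * p ^ s = c * p ^ (s + 1) := by ring
        _ ≤ c * p ^ m := Nat.mul_le_mul_left _ (Nat.pow_le_pow_right hp0 hm)
        _ ≤ _ := h1
        _ = _ := by ring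
    have h3 : c * p ≤ (∏ i, r i) * p ^ Fintype.card (WF m r d) :=
      Nat.le_of_mul_le_mul_right h2 (pow_pos hp0 s)
    have h4 : (c : ℝ) * p ≤ ((∏ i, r i : ℕ) : ℝ) * (p : ℝ) ^ Fintype.card (WF m r d) := by
      exact_mod_cast h3
    have h5 : ((∏ i, r i : ℕ) : ℝ) ≤ ε * p := by
      rw [div_lt_iff₀ hε] at hM
      have h6 : (M : ℝ) ≤ p := by exact_mod_cast (by omega : M ≤ p)
      nlinarith
    have h6 : (0:ℝ) ≤ (p : ℝ) ^ Fintype.card (WF m r d) := by positivity
    have h7 : (c : ℝ) * p ≤ ε * (p : ℝ) ^ Fintype.card (WF m r d) * p := by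
      refine h4.trans ?_
      nlinarith
    exact le_of_mul_le_mul_right h7 hp0'
  · intro A hA
    rw [mem_filter]
    exact ⟨mem_univ _, notGood_mod hA hp2⟩

end Pool.Agent.Lib.MP_1acd66_nt.Gen
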