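import Mathlib

/-! Sums over the integral points of a simplex. -/

namespace Pool.Agent.Lib.MP_1acd66_nt.Gen

open Filter Topology

/-- the integral points of a simplex -/
def simpl (k L : ℕ) : Finset (Fin k → ℕ) :=
  (Fintype.piFinset fun _ : Fin k => Finset.range (L + 1)).filter (fun j => ∑ i, j i ≤ L)

theorem mem_simpl {k L : ℕ} {j : Fin k → ℕ} : j ∈ simpl k L ↔ ∑ i, j i ≤ L := by
  simp only [simpl, Finset.mem_filter, Fintype.mem_piFinset, Finset.mem_range]
  constructor
  · exact fun h => h.2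
  · intro h
    refine ⟨fun i => ?_, h⟩
    have := Finset.single_le_sum (f := j) (fun _ _ => Nat.zero_le _) (Finset.mem_univ i)
    omega

theorem card_simpl (k L : ℕ) : (simpl k L).card = (L + k).choose k := by
  induction k generalizing L with
  | zero =>
    have : simpl 0 L = {Fin.elim0} := by
      ext j
      rw [mem_simpl, Finset.mem_singleton]
      constructor
      · intro _; exact Subsingleton.elim _ _
      · intro _; simp
    rw [this]; simp
  | succ k ih =>
    have h1 := Finset.card_eq_sum_card_fiberwise (s := simpl (k + 1) L)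
      (t := Finset.range (L + 1)) (f := fun j => L - j 0) (by
        intro j _
        simp only [Finset.coe_range, Set.mem_Iio]
        omega)
    rw [h1, ← add_assoc L k 1, ← Nat.sum_range_add_choose]
    refine Finset.sum_congr rfl fun i hi => ?_
    rw [← ih i]
    rw [Finset.mem_range] at hi
    refine Finset.card_bij' (fun j _ => Fin.tail j) (fun j _ => Fin.cons (L - i) j) ?_ ?_ ?_ ?_
    · intro j hj
      rw [Finset.mem_filter, mem_simpl, Fin.sum_univ_succ] at hj
      rw [mem_simpl]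
      have : ∑ a, Fin.tail j a = ∑ a : Fin k, j a.succ := rfl
      rw [this]
      omega
    · intro j hj
      rw [mem_simpl] at hj
      rw [Finset.mem_filter, mem_simpl, Fin.sum_univ_succ]
      simp only [Fin.cons_zero, Fin.cons_succ]
      omega
    · intro j hj
      rw [Finset.mem_filter, mem_simpl, Fin.sum_univ_succ] at hj
      have : L - i = j 0 := by omega
      rw [this]
      exact Fin.cons_self_tail j
    · intro j _
      exact Fin.tail_cons _ _

theorem card_simpl_bounds (k L : ℕ) :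
    (L:ℝ) ^ k / (Nat.factorial k : ℝ) ≤ ((simpl k L).card : ℝ) ∧
      ((simpl k L).card : ℝ) ≤ ((L:ℝ) + k) ^ k / (Nat.factorial k : ℝ) := by
  have hf : (0:ℝ) < (Nat.factorial k : ℝ) := by exact_mod_cast Nat.factorial_pos k
  have h1 := Nat.ascFactorial_eq_factorial_mul_choose L k
  have h2 : L ^ k ≤ Nat.factorial k * (L + k).choose k := by
    rw [← h1]
    exact (Nat.pow_le_pow_left (Nat.le_succ L) k).trans (Nat.pow_succ_le_ascFactorial (L + 1) k)
  have h3 : Nat.factorial k * (L + k).choose k ≤ (L + k) ^ k := by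
    rw [← h1]
    exact Nat.ascFactorial_le_pow_add L k
  rw [card_simpl]
  constructor
  · rw [div_le_iff₀ hf, mul_comm]
    exact_mod_cast h2
  · rw [le_div_iff₀ hf, mul_comm]
    exact_mod_cast h3

theorem tendsto_add_div (c : ℝ) :
    Tendsto (fun L : ℕ => ((L:ℝ) + c) / (L:ℝ)) atTop (𝓝 1) := by
  have h1 : Tendsto (fun L : ℕ => 1 + c / (L:ℝ)) atTop (𝓝 (1 + 0)) :=
    tendsto_const_nhds.add (tendsto_const_nhds.div_atTop tendsto_natCast_atTop_atTop)
  rw [add_zero] at h1
  refine h1.congr' ?_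
  filter_upwards [eventually_gt_atTop 0] with L hL
  have : (L:ℝ) ≠ 0 := by exact_mod_cast hL.ne'
  field_simp

theorem card_simpl_tendsto (k : ℕ) :
    Tendsto (fun L : ℕ => ((simpl k L).card : ℝ) / (L:ℝ) ^ k) atTop
      (𝓝 (1 / (Nat.factorial k : ℝ))) := by
  have hf : (0:ℝ) < (Nat.factorial k : ℝ) := by exact_mod_cast Nat.factorial_pos k
  have hup : Tendsto (fun L : ℕ => (((L:ℝ) + k) / (L:ℝ)) ^ k * (1 / (Nat.factorial k : ℝ))) atTop
      (𝓝 (1 ^ k * (1 / (Nat.factorial k : ℝ)))) :=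
    ((tendsto_add_div (k:ℝ)).pow k).mul_const _
  rw [one_pow, one_mul] at hup
  refine tendsto_of_tendsto_of_tendsto_of_le_of_le' tendsto_const_nhds hup ?_ ?_
  · filter_upwards [eventually_gt_atTop 0] with L hL
    have hL' : (0:ℝ) < (L:ℝ) := by exact_mod_cast hL
    have h1 := (card_simpl_bounds k L).1
    rw [le_div_iff₀ (by positivity)]
    calc 1 / (Nat.factorial k : ℝ) * (L:ℝ) ^ k = (L:ℝ) ^ k / (Nat.factorial k : ℝ) := by ring
      _ ≤ _ := h1
  · filter_upwards [eventually_gt_atTop 0] with L hL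
    have hL' : (0:ℝ) < (L:ℝ) := by exact_mod_cast hL
    have h1 := (card_simpl_bounds k L).2
    rw [div_le_iff₀ (by positivity)]
    refine h1.trans (le_of_eq ?_)
    rw [div_pow]
    field_simp

/-- points with a small coordinate are rare -/
theorem card_bad (k L J : ℕ) :
    (((simpl k L).filter (fun j => ∃ i, j i < J)).card : ℝ) * ((L:ℝ) + 1) ≤
      k * J * ((L:ℝ) + 1) ^ k := by
  classical
  have h1 : (simpl k L).filter (fun j => ∃ i, j i < J) ⊆
      Finset.univ.biUnion (fun i : Fin k =>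
        Fintype.piFinset (fun i' => if i' = i then Finset.range J else Finset.range (L + 1))) := by
    intro j hj
    rw [Finset.mem_filter] at hj
    obtain ⟨hj, i, hi⟩ := hj
    rw [Finset.mem_biUnion]
    refine ⟨i, Finset.mem_univ _, ?_⟩
    rw [Fintype.mem_piFinset]
    intro i'
    by_cases h : i' = i
    · rw [if_pos h, h]; exact Finset.mem_range.2 hi
    · rw [if_neg h]
      have := (Finset.mem_filter.1 hj).1
      exact (Fintype.mem_piFinset.1 this) i'
  have h2 : ∀ i : Fin k, (Fintype.piFinset (fun i' => if i' = i then Finset.range J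
      else Finset.range (L + 1))).card * (L + 1) = J * (L + 1) ^ k := by
    intro i
    rw [Fintype.card_piFinset, ← Finset.mul_prod_erase _ _ (Finset.mem_univ i)]
    simp only [if_true, Finset.card_range]
    have : ∏ x ∈ Finset.univ.erase i, (if x = i then Finset.range J
        else Finset.range (L + 1)).card = (L + 1) ^ (k - 1) := by
      rw [Finset.prod_congr rfl (g := fun _ => L + 1)]
      · rw [Finset.prod_const, Finset.card_erase_of_mem (Finset.mem_univ i), Finset.card_univ,
          Fintype.card_fin]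
      · intro x hx
        rw [if_neg (Finset.ne_of_mem_erase hx), Finset.card_range]
    rw [this, mul_assoc, ← pow_succ]
    have : k - 1 + 1 = k := by have := i.pos; omega
    rw [this]
  have h3 : ((simpl k L).filter (fun j => ∃ i, j i < J)).card * (L + 1) ≤
      k * (J * (L + 1) ^ k) := by
    calc _ ≤ (∑ i : Fin k, (Fintype.piFinset (fun i' => if i' = i then Finset.range J
          else Finset.range (L + 1))).card) * (L + 1) :=
          Nat.mul_le_mul_right _ ((Finset.card_le_card h1).trans Finset.card_biUnion_le)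
      _ = ∑ i : Fin k, J * (L + 1) ^ k := by
          rw [Finset.sum_mul]; exact Finset.sum_congr rfl fun i _ => h2 i
      _ = _ := by simp
  have h4 : ((((simpl k L).filter (fun j => ∃ i, j i < J)).card * (L + 1) : ℕ) : ℝ) ≤
      ((k * (J * (L + 1) ^ k) : ℕ) : ℝ) := by exact_mod_cast h3
  push_cast at h4
  linarith

theorem simplex_sum {k : ℕ} {a : (Fin k → ℕ) → ℝ} {C : ℝ} (hC : ∀ j, |a j| ≤ C) {I : ℝ}
    (h : Tendsto a atTop (𝓝 I)) :
    Tendsto (fun L : ℕ => (∑ j ∈ simpl k L, a j) / (L:ℝ) ^ k) atTop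
      (𝓝 (I / (Nat.factorial k : ℝ))) := by
  classical
  have hf : (0:ℝ) < (Nat.factorial k : ℝ) := by exact_mod_cast Nat.factorial_pos k
  have hC0 : 0 ≤ C := (abs_nonneg _).trans (hC 0)
  -- it is enough to compare with the number of points
  have hmain : Tendsto (fun L : ℕ => I * (((simpl k L).card : ℝ) / (L:ℝ) ^ k)) atTop
      (𝓝 (I / (Nat.factorial k : ℝ))) := by
    have := (card_simpl_tendsto k).const_mul I
    rwa [mul_one_div] at this
  suffices hd : Tendsto (fun L : ℕ => (∑ j ∈ simpl k L, (a j - I)) / (L:ℝ) ^ k) atTop (𝓝 0) by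
    have := hd.add hmain
    rw [zero_add] at this
    refine this.congr fun L => ?_
    rw [Finset.sum_sub_distrib, Finset.sum_const, nsmul_eq_mul]
    ring
  rw [Metric.tendsto_atTop]
  intro ε hε
  have hε' : 0 < ε * (Nat.factorial k : ℝ) / 4 := by positivity
  obtain ⟨J0, hJ0⟩ : ∃ J0 : Fin k → ℕ, ∀ j ≥ J0, |a j - I| ≤ ε * (Nat.factorial k : ℝ) / 4 := by
    rw [Metric.tendsto_atTop] at h
    obtain ⟨J0, hJ0⟩ := h _ hε'
    exact ⟨J0, fun j hj => (hJ0 j hj).le⟩
  set J := ∑ i, J0 i with hJ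
  -- the bad part
  have hbad : Tendsto (fun L : ℕ => (C + |I|) * (k * J) * (((L:ℝ) + 1) / (L:ℝ)) ^ k *
      (1 / ((L:ℝ) + 1))) atTop (𝓝 ((C + |I|) * (k * J) * 1 ^ k * 0)) := by
    refine (((tendsto_add_div 1).pow k).const_mul _).mul ?_
    exact tendsto_one_div_add_atTop_nhds_zero_nat
  rw [mul_zero] at hbad
  have hcard := card_simpl_tendsto k
  have e1 : ∀ᶠ L : ℕ in atTop, (C + |I|) * (k * J) * (((L:ℝ) + 1) / (L:ℝ)) ^ k *
      (1 / ((L:ℝ) + 1)) < ε / 4 := hbad.eventually (gt_mem_nhds (by positivity))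
  have e2 : ∀ᶠ L : ℕ in atTop, ((simpl k L).card : ℝ) / (L:ℝ) ^ k <
      2 / (Nat.factorial k : ℝ) := hcard.eventually (gt_mem_nhds (by
        rw [div_lt_div_iff_of_pos_right hf]; norm_num))
  obtain ⟨L0, hL0⟩ := eventually_atTop.1 (e1.and (e2.and (eventually_gt_atTop 0)))
  refine ⟨L0, fun L hL => ?_⟩
  obtain ⟨b1, b2, b3⟩ := hL0 L hL
  have hL' : (0:ℝ) < (L:ℝ) := by exact_mod_cast b3
  have hLk : (0:ℝ) < (L:ℝ) ^ k := by positivity
  rw [Real.dist_eq, sub_zero, abs_div, abs_of_pos hLk]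
  have hsum : |∑ j ∈ simpl k L, (a j - I)| ≤
      (C + |I|) * (((simpl k L).filter (fun j => ∃ i, j i < J)).card : ℝ) +
        ε * (Nat.factorial k : ℝ) / 4 * ((simpl k L).card : ℝ) := by
    refine (Finset.abs_sum_le_sum_abs _ _).trans ?_
    rw [← Finset.sum_filter_add_sum_filter_not (simpl k L) (fun j => ∃ i, j i < J)]
    refine add_le_add ?_ ?_
    · rw [mul_comm, ← nsmul_eq_mul]
      refine Finset.sum_le_card_nsmul _ _ _ fun j _ => ?_
      calc |a j - I| ≤ |a j| + |I| := abs_sub _ _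
        _ ≤ C + |I| := by linarith [hC j]
    · have h1 : ((((simpl k L).filter (fun j => ¬ ∃ i, j i < J)).card : ℕ) : ℝ) ≤
          ((simpl k L).card : ℝ) := by exact_mod_cast Finset.card_filter_le _ _
      refine le_trans ?_ (mul_le_mul_of_nonneg_left h1 hε'.le)
      rw [mul_comm, ← nsmul_eq_mul]
      refine Finset.sum_le_card_nsmul _ _ _ fun j hj => ?_
      rw [Finset.mem_filter] at hj
      obtain ⟨_, hj⟩ := hj
      push Not at hj
      refine hJ0 j fun i => ?_
      exact (Finset.single_le_sum (f := J0) (fun _ _ => Nat.zero_le _)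
        (Finset.mem_univ i)).trans (hj i)
  rw [div_lt_iff₀ hLk]
  refine lt_of_le_of_lt hsum ?_
  have c1 : (C + |I|) * (((simpl k L).filter (fun j => ∃ i, j i < J)).card : ℝ) ≤
      ε / 4 * (L:ℝ) ^ k := by
    have hb := card_bad k L J
    have hL1 : (0:ℝ) < (L:ℝ) + 1 := by positivity
    have h1 : (((simpl k L).filter (fun j => ∃ i, j i < J)).card : ℝ) ≤
        k * J * ((L:ℝ) + 1) ^ k / ((L:ℝ) + 1) := by rwa [le_div_iff₀ hL1]
    have h2 : (C + |I|) * (k * J * ((L:ℝ) + 1) ^ k / ((L:ℝ) + 1)) =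
        ((C + |I|) * (k * J) * (((L:ℝ) + 1) / (L:ℝ)) ^ k * (1 / ((L:ℝ) + 1))) * (L:ℝ) ^ k := by
      rw [div_pow]; field_simp
    calc (C + |I|) * (((simpl k L).filter (fun j => ∃ i, j i < J)).card : ℝ)
        ≤ (C + |I|) * (k * J * ((L:ℝ) + 1) ^ k / ((L:ℝ) + 1)) :=
          mul_le_mul_of_nonneg_left h1 (by positivity)
      _ = _ := h2
      _ ≤ ε / 4 * (L:ℝ) ^ k := mul_le_mul_of_nonneg_right b1.le hLk.le
  have c2 : ε * (Nat.factorial k : ℝ) / 4 * ((simpl k L).card : ℝ) ≤ ε / 2 * (L:ℝ) ^ k := by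
    rw [div_lt_iff₀ hLk] at b2
    calc ε * (Nat.factorial k : ℝ) / 4 * ((simpl k L).card : ℝ)
        ≤ ε * (Nat.factorial k : ℝ) / 4 * (2 / (Nat.factorial k : ℝ) * (L:ℝ) ^ k) :=
          mul_le_mul_of_nonneg_left b2.le hε'.le
      _ = _ := by field_simp; ring
  have : 0 < ε * (L:ℝ) ^ k := by positivity
  linarith

end Pool.Agent.Lib.MP_1acd66_nt.Gen
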