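import Pool.Agent.Lib.MP_1acd66_nt.Gen.MultiLevel
import Pool.Agent.Lib.MP_1acd66_nt.Gen.SimplexSum

/-! Multi-parameter logarithmic sums and summation of functions which are asymptotically linear. -/

set_option linter.unusedSectionVars false

namespace Pool.Agent.Lib.MP_1acd66_nt.Gen

open MeasureTheory Metric Set Filter Topology
open scoped Classical

variable {k : ℕ} {r N : Fin k → ℕ}

theorem one_le_norm_realF {Z : Frm ℤ r N} {i : Fin k} (hZ : Z i ≠ 0) : 1 ≤ ‖realF Z i‖ :=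
  one_le_norm_real1 hZ

/-- the level vector of a lattice point -/
noncomputable def lvl (Z : Frm ℤ r N) : Fin k → ℕ :=
  fun i => ⌊Real.log (‖realF Z i‖ ^ (r i * N i))⌋₊

theorem lvl_spec {Z : Frm ℤ r N} (hZ : ∀ i, Z i ≠ 0) (i : Fin k) :
    Real.exp (lvl Z i) ≤ ‖realF Z i‖ ^ (r i * N i) ∧
      ‖realF Z i‖ ^ (r i * N i) < Real.exp (lvl Z i + 1) := by
  have h1 : 1 ≤ ‖realF Z i‖ ^ (r i * N i) := one_le_pow₀ (one_le_norm_realF (hZ i))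
  have h0 : 0 < ‖realF Z i‖ ^ (r i * N i) := one_pos.trans_le h1
  have h2 : 0 ≤ Real.log (‖realF Z i‖ ^ (r i * N i)) := Real.log_nonneg h1
  have h3 : ((lvl Z i : ℕ) : ℝ) ≤ Real.log (‖realF Z i‖ ^ (r i * N i)) := Nat.floor_le h2
  have h4 : Real.log (‖realF Z i‖ ^ (r i * N i)) < (lvl Z i : ℕ) + 1 := Nat.lt_floor_add_one _
  rw [Real.le_log_iff_exp_le h0] at h3
  rw [Real.log_lt_iff_lt_exp h0] at h4
  exact ⟨h3, h4⟩

theorem mem_lbox_iff_lvl (hn : ∀ i, 0 < r i * N i) {q : ℕ} {Z Z0 : Frm ℤ r N} {j : Fin k → ℕ} :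
    Z ∈ lbox q Z0 j ↔ CongF q Z Z0 ∧ (∀ i, Z i ≠ 0) ∧ lvl Z = j := by
  constructor
  · rintro ⟨h1, h2⟩
    have h3 : ∀ i, Z i ≠ 0 := by
      intro i hi
      have := (h2 i).1
      rw [realF_apply_eq_zero_iff.2 hi, norm_zero, zero_pow (hn i).ne'] at this
      exact absurd (Real.exp_pos _) (not_lt.2 this)
    refine ⟨h1, h3, ?_⟩
    funext i
    obtain ⟨a1, a2⟩ := lvl_spec h3 i
    obtain ⟨b1, b2⟩ := h2 i
    have c1 := Real.exp_lt_exp.1 (a1.trans_lt b2)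
    have c2 := Real.exp_lt_exp.1 (b1.trans_lt a2)
    have d1 : lvl Z i < j i + 1 := by exact_mod_cast c1
    have d2 : j i < lvl Z i + 1 := by exact_mod_cast c2
    omega
  · rintro ⟨h1, h2, rfl⟩
    exact ⟨h1, lvl_spec h2⟩

theorem exp_sum_lvl {Z : Frm ℤ r N} (hZ : ∀ i, Z i ≠ 0) :
    Real.exp (∑ i, lvl Z i : ℕ) ≤ PN (realF Z) ∧
      PN (realF Z) ≤ Real.exp ((∑ i, lvl Z i : ℕ) + k) := by
  constructor
  · push_cast
    rw [Real.exp_sum]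
    exact Finset.prod_le_prod (fun _ _ => (Real.exp_pos _).le) fun i _ => (lvl_spec hZ i).1
  · have h : ((∑ i, lvl Z i : ℕ) : ℝ) + k = ∑ i, ((lvl Z i : ℝ) + 1) := by
      rw [Finset.sum_add_distrib]
      simp
    rw [h, Real.exp_sum]
    exact Finset.prod_le_prod (fun _ _ => by positivity) fun i _ => (lvl_spec hZ i).2.le

theorem one_le_PN {Z : Frm ℤ r N} (hZ : ∀ i, Z i ≠ 0) : 1 ≤ PN (realF Z) := by
  refine le_trans ?_ (exp_sum_lvl hZ).1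
  exact Real.one_le_exp (Nat.cast_nonneg _)

theorem norm_le_of_PN (hn : ∀ i, 0 < r i * N i) {Z : Frm ℤ r N} (hZ : ∀ i, Z i ≠ 0) (i : Fin k) :
    ‖realF Z i‖ ≤ PN (realF Z) := by
  have h1 : ∀ i, 1 ≤ ‖realF Z i‖ := fun i => one_le_norm_realF (hZ i)
  refine (le_self_pow₀ (h1 i) (hn i).ne').trans ?_
  rw [PN, ← Finset.mul_prod_erase _ _ (Finset.mem_univ i)]
  refine le_mul_of_one_le_right (by positivity) ?_
  calc (1:ℝ) = ∏ _i ∈ Finset.univ.erase i, (1:ℝ) := by simp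
    _ ≤ _ := Finset.prod_le_prod (fun _ _ => zero_le_one) fun i _ => one_le_pow₀ (h1 i)

theorem ps_finite (hn : ∀ i, 0 < r i * N i) (q : ℕ) (Z0 : Frm ℤ r N) (X : ℝ) :
    {Z : Frm ℤ r N | CongF q Z Z0 ∧ (∀ i, Z i ≠ 0) ∧ PN (realF Z) ≤ X}.Finite := by
  refine (finite_norm_le (r := r) (N := N) X).subset ?_
  rintro Z ⟨_, h1, h2⟩ i
  exact (norm_le_of_PN hn h1 i).trans h2

/-- the lattice points of bounded size -/
noncomputable def ps (hn : ∀ i, 0 < r i * N i) (q : ℕ) (Z0 : Frm ℤ r N) (X : ℝ) :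
    Finset (Frm ℤ r N) := (ps_finite hn q Z0 X).toFinset

theorem mem_ps (hn : ∀ i, 0 < r i * N i) {q : ℕ} {Z0 : Frm ℤ r N} {X : ℝ} {Z : Frm ℤ r N} :
    Z ∈ ps hn q Z0 X ↔ CongF q Z Z0 ∧ (∀ i, Z i ≠ 0) ∧ PN (realF Z) ≤ X := by
  rw [ps, Set.Finite.mem_toFinset]; rfl

/-- the sum over the lattice points of bounded size -/
noncomputable def gsum (hn : ∀ i, 0 < r i * N i) (Φ : Frm ℝ r N → ℝ) (q : ℕ) (Z0 : Frm ℤ r N)
    (X : ℝ) : ℝ := (q:ℝ) ^ (∑ i, r i * N i) * ∑ Z ∈ ps hn q Z0 X, Φ (realF Z)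

/-- the sum over a simplex of levels -/
noncomputable def ssum (Φ : Frm ℝ r N → ℝ) (q : ℕ) (Z0 : Frm ℤ r N) (L : ℕ) : ℝ :=
  ∑ j ∈ simpl k L, lsum Φ q Z0 j

theorem ssum_eq (hn : ∀ i, 0 < r i * N i) (Φ : Frm ℝ r N → ℝ) (q : ℕ) (Z0 : Frm ℤ r N) (L : ℕ) :
    ssum Φ q Z0 L = (q:ℝ) ^ (∑ i, r i * N i) * ∑ Z ∈ (ps hn q Z0 (Real.exp (L + k))).filter
      (fun Z => ∑ i, lvl Z i ≤ L), Φ (realF Z) := by
  rw [ssum, ← Finset.sum_fiberwise_of_maps_to (t := simpl k L) (g := lvl), Finset.mul_sum]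
  · refine Finset.sum_congr rfl fun j hj => ?_
    rw [lsum, finsum_mem_eq_finite_toFinset_sum _ (lbox_finite hn q Z0 j)]
    congr 1
    refine Finset.sum_congr ?_ fun _ _ => rfl
    ext Z
    rw [Set.Finite.mem_toFinset, mem_lbox_iff_lvl hn, Finset.mem_filter, Finset.mem_filter,
      mem_ps]
    rw [mem_simpl] at hj
    constructor
    · rintro ⟨h1, h2, rfl⟩
      refine ⟨⟨⟨h1, h2, ?_⟩, hj⟩, rfl⟩
      refine (exp_sum_lvl h2).2.trans (Real.exp_le_exp.2 ?_)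
      have : ((∑ i, lvl Z i : ℕ) : ℝ) ≤ L := by exact_mod_cast hj
      linarith
    · rintro ⟨⟨⟨h1, h2, _⟩, _⟩, h4⟩
      exact ⟨h1, h2, h4⟩
  · intro Z hZ
    rw [Finset.mem_filter] at hZ
    exact mem_simpl.2 hZ.2

theorem ssum_le_gsum (hn : ∀ i, 0 < r i * N i) {Φ : Frm ℝ r N → ℝ} (hΦ : MHom Φ) (q : ℕ)
    (Z0 : Frm ℤ r N) {L : ℕ} {X : ℝ} (hX : Real.exp (L + k) ≤ X) :
    ssum Φ q Z0 L ≤ gsum hn Φ q Z0 X := by
  rw [ssum_eq hn, gsum]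
  refine mul_le_mul_of_nonneg_left ?_ (by positivity)
  refine Finset.sum_le_sum_of_subset_of_nonneg ?_ fun _ _ _ => hΦ.nonneg _
  intro Z hZ
  rw [Finset.mem_filter, mem_ps] at hZ
  rw [mem_ps]
  exact ⟨hZ.1.1, hZ.1.2.1, hZ.1.2.2.trans hX⟩

theorem gsum_le_ssum (hn : ∀ i, 0 < r i * N i) {Φ : Frm ℝ r N → ℝ} (hΦ : MHom Φ) (q : ℕ)
    (Z0 : Frm ℤ r N) {L : ℕ} {X : ℝ} (hX : X < Real.exp (L + 1)) :
    gsum hn Φ q Z0 X ≤ ssum Φ q Z0 L := by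
  rw [ssum_eq hn, gsum]
  refine mul_le_mul_of_nonneg_left ?_ (by positivity)
  refine Finset.sum_le_sum_of_subset_of_nonneg ?_ fun _ _ _ => hΦ.nonneg _
  intro Z hZ
  rw [mem_ps] at hZ
  obtain ⟨h1, h2, h3⟩ := hZ
  have h4 : ∑ i, lvl Z i ≤ L := by
    have := Real.exp_lt_exp.1 (((exp_sum_lvl h2).1.trans h3).trans_lt hX)
    have : (∑ i, lvl Z i) < L + 1 := by exact_mod_cast this
    omega
  rw [Finset.mem_filter, mem_ps]
  refine ⟨⟨h1, h2, ?_⟩, h4⟩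
  refine (exp_sum_lvl h2).2.trans (Real.exp_le_exp.2 ?_)
  have : ((∑ i, lvl Z i : ℕ) : ℝ) ≤ L := by exact_mod_cast h4
  linarith

/-- the constant -/
noncomputable def kapM (Φ : Frm ℝ r N → ℝ) : ℝ := kapI Φ / (Nat.factorial k : ℝ)

theorem kapM_nonneg {Φ : Frm ℝ r N → ℝ} (hΦ : MHom Φ) : 0 ≤ kapM Φ :=
  div_nonneg (kapI_nonneg hΦ) (Nat.cast_nonneg _)

theorem kapM_pos (hn : ∀ i, 0 < r i * N i) {Φ : Frm ℝ r N → ℝ} (hΦ : MHom Φ)
    {x : Frm ℝ r N} (hx : ∀ i, x i ≠ 0) (hpos : 0 < Φ x) : 0 < kapM Φ :=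
  div_pos (kapI_pos hn hΦ hx hpos) (by exact_mod_cast Nat.factorial_pos k)

theorem tendsto_comp_pow {f : ℕ → ℝ} {a : ℝ} {k : ℕ}
    (hf : Tendsto (fun L : ℕ => f L / (L:ℝ) ^ k) atTop (𝓝 a)) {u : ℝ → ℕ}
    (hu : Tendsto u atTop atTop) (hu2 : Tendsto (fun X => (u X : ℝ) / Real.log X) atTop (𝓝 1)) :
    Tendsto (fun X => f (u X) / Real.log X ^ k) atTop (𝓝 a) := by
  have h1 := (hf.comp hu).mul (hu2.pow k)
  rw [one_pow, mul_one] at h1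
  refine h1.congr' ?_
  filter_upwards [hu.eventually_gt_atTop 0, eventually_gt_atTop 1] with X hX hX1
  have h2 : (0:ℝ) < (u X : ℝ) := by exact_mod_cast hX
  have h3 : 0 < Real.log X := Real.log_pos hX1
  simp only [Function.comp]
  rw [div_pow]
  field_simp

theorem tendsto_floor_log (c : ℕ) :
    Tendsto (fun X : ℝ => ⌊Real.log X⌋₊ - c) atTop atTop ∧
      Tendsto (fun X : ℝ => ((⌊Real.log X⌋₊ - c : ℕ) : ℝ) / Real.log X) atTop (𝓝 1) := by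
  have h1 : Tendsto (fun X : ℝ => ⌊Real.log X⌋₊) atTop atTop :=
    tendsto_nat_floor_atTop.comp Real.tendsto_log_atTop
  have h2 : Tendsto (fun n : ℕ => n - c) atTop atTop := tendsto_sub_atTop_nat c
  refine ⟨h2.comp h1, ?_⟩
  have hlow : Tendsto (fun X : ℝ => 1 - (c + 1) / Real.log X) atTop (𝓝 (1 - 0)) :=
    tendsto_const_nhds.sub (tendsto_const_nhds.div_atTop Real.tendsto_log_atTop)
  rw [sub_zero] at hlow
  refine tendsto_of_tendsto_of_tendsto_of_le_of_le' hlow tendsto_const_nhds ?_ ?_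
  · filter_upwards [eventually_gt_atTop 1] with X hX
    have h3 : 0 < Real.log X := Real.log_pos hX
    rw [le_div_iff₀ h3, sub_mul, div_mul_cancel₀ _ h3.ne', one_mul]
    have h4 := Nat.lt_floor_add_one (Real.log X)
    have h5 : (⌊Real.log X⌋₊ : ℝ) ≤ ((⌊Real.log X⌋₊ - c : ℕ) : ℝ) + c := by
      have : ⌊Real.log X⌋₊ ≤ (⌊Real.log X⌋₊ - c) + c := by omega
      exact_mod_cast this
    linarith
  · filter_upwards [eventually_gt_atTop 1] with X hX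
    have h3 : 0 < Real.log X := Real.log_pos hX
    rw [div_le_one h3]
    have h4 := Nat.floor_le h3.le
    have h5 : ((⌊Real.log X⌋₊ - c : ℕ) : ℝ) ≤ (⌊Real.log X⌋₊ : ℝ) := by
      exact_mod_cast Nat.sub_le _ _
    linarith

/-- The multi-parameter logarithmic sum lemma. -/
theorem gsum_tendsto (hn : ∀ i, 0 < r i * N i) {Φ : Frm ℝ r N → ℝ} (hΦ : MHom Φ) {q : ℕ}
    (hq : 0 < q) (Z0 : Frm ℤ r N) :
    Tendsto (fun X => gsum hn Φ q Z0 X / Real.log X ^ k) atTop (𝓝 (kapM Φ)) := by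
  obtain ⟨C, hC0, hC⟩ := lsum_bound hn hΦ hq Z0
  have h1 : Tendsto (fun L : ℕ => ssum Φ q Z0 L / (L:ℝ) ^ k) atTop (𝓝 (kapM Φ)) := by
    refine simplex_sum (C := C) (fun j => ?_) (lsum_tendsto hn hΦ hq Z0)
    rw [abs_of_nonneg (hC j).1]
    exact (hC j).2
  obtain ⟨u1, u2⟩ := tendsto_floor_log k
  obtain ⟨v1, v2⟩ := tendsto_floor_log 0
  have hlow := tendsto_comp_pow h1 u1 u2
  have hup := tendsto_comp_pow h1 v1 v2
  refine tendsto_of_tendsto_of_tendsto_of_le_of_le' hlow hup ?_ ?_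
  · filter_upwards [eventually_ge_atTop (Real.exp k), eventually_gt_atTop 1] with X hX hX1
    have h3 : 0 < Real.log X := Real.log_pos hX1
    refine div_le_div_of_nonneg_right ?_ (by positivity)
    refine ssum_le_gsum hn hΦ q Z0 ?_
    have hX0 : 0 < X := by linarith
    rw [← Real.le_log_iff_exp_le hX0]
    have h4 : (k:ℝ) ≤ Real.log X := (Real.le_log_iff_exp_le hX0).2 hX
    have h5 : k ≤ ⌊Real.log X⌋₊ := Nat.le_floor h4
    rw [Nat.cast_sub h5]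
    have := Nat.floor_le h3.le
    linarith
  · filter_upwards [eventually_gt_atTop 1] with X hX1
    have h3 : 0 < Real.log X := Real.log_pos hX1
    refine div_le_div_of_nonneg_right ?_ (by positivity)
    refine gsum_le_ssum hn hΦ q Z0 ?_
    have hX0 : 0 < X := by linarith
    rw [← Real.log_lt_iff_lt_exp hX0, Nat.sub_zero]
    exact Nat.lt_floor_add_one _

theorem gsum_shift (hn : ∀ i, 0 < r i * N i) {Φ : Frm ℝ r N → ℝ} (hΦ : MHom Φ) {q : ℕ}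
    (hq : 0 < q) (Z0 : Frm ℤ r N) {c : ℝ} (hc : 0 < c) :
    Tendsto (fun X => gsum hn Φ q Z0 (X / c) / Real.log X ^ k) atTop (𝓝 (kapM Φ)) := by
  have h1 : Tendsto (fun X : ℝ => X / c) atTop atTop := tendsto_id.atTop_div_const hc
  have h2 := (gsum_tendsto hn hΦ hq Z0).comp h1
  have h3 : Tendsto (fun X : ℝ => Real.log (X / c) / Real.log X) atTop (𝓝 1) := by
    have h4 : Tendsto (fun X : ℝ => 1 - Real.log c / Real.log X) atTop (𝓝 (1 - 0)) :=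
      tendsto_const_nhds.sub (tendsto_const_nhds.div_atTop Real.tendsto_log_atTop)
    rw [sub_zero] at h4
    refine h4.congr' ?_
    filter_upwards [eventually_gt_atTop 1] with X hX
    have h5 : 0 < Real.log X := Real.log_pos hX
    rw [Real.log_div (by linarith) hc.ne']
    field_simp
  have h4 := h2.mul (h3.pow k)
  rw [one_pow, mul_one] at h4
  refine h4.congr' ?_
  filter_upwards [eventually_gt_atTop (max 1 c)] with X hX
  have hX1 : 1 < X := lt_of_le_of_lt (le_max_left _ _) hX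
  have hXc : c < X := lt_of_le_of_lt (le_max_right _ _) hX
  have h5 : 0 < Real.log X := Real.log_pos hX1
  have h6 : 0 < Real.log (X / c) := Real.log_pos (by rwa [one_lt_div hc])
  simp only [Function.comp]
  rw [div_pow]
  field_simp

/-- the reciprocal of the product of the powers of the norms -/
theorem mHom_PN : MHom (fun x : Frm ℝ r N => (PN x)⁻¹) where
  nonneg x := inv_nonneg.2 (Finset.prod_nonneg fun _ _ => by positivity)
  cont := by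
    refine ContinuousOn.inv₀ ?_ ?_
    · have : Continuous (fun x : Frm ℝ r N => PN x) :=
        continuous_finsetProd _ fun i _ => (continuous_norm.comp (continuous_apply i)).pow _
      exact this.continuousOn
    · intro x hx
      exact (PN_pos hx).ne'
  hom := by
    intro x hx s hs
    rw [← mul_inv]
    congr 1
    rw [PN, PN, ← Finset.prod_mul_distrib]
    refine Finset.prod_congr rfl fun i _ => ?_
    rw [norm_scal_apply hs, mul_pow]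

theorem multi_sum (hn : ∀ i, 0 < r i * N i) {Φ : Frm ℝ r N → ℝ} (hΦ : MHom Φ) {q : ℕ}
    (hq : 0 < q) (Z0 : Frm ℤ r N) {g : Frm ℤ r N → ℝ → ℝ} {C c0 : ℝ} (hC : 0 ≤ C) (hc0 : 0 < c0)
    (hg1 : ∀ ε : ℝ, 0 < ε → ∃ Y0 : ℝ, 0 < Y0 ∧ ∀ Z : Frm ℤ r N, CongF q Z Z0 → (∀ i, Z i ≠ 0) →
      ∀ Y : ℝ, Y0 * PN (realF Z) ≤ Y → |g Z Y - Φ (realF Z) * Y| ≤ ε * Y * (PN (realF Z))⁻¹)
    (hg2 : ∀ Z : Frm ℤ r N, CongF q Z Z0 → (∀ i, Z i ≠ 0) → ∀ Y : ℝ, 0 < Y →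
      0 ≤ g Z Y ∧ g Z Y ≤ C * Y * (PN (realF Z))⁻¹)
    (hg3 : ∀ Z : Frm ℤ r N, CongF q Z Z0 → (∀ i, Z i ≠ 0) → ∀ Y : ℝ,
      Y < c0 * PN (realF Z) → g Z Y = 0)
    {ε : ℝ} (hε : 0 < ε) :
    ∃ Y1 : ℝ, ∀ Y : ℝ, Y1 ≤ Y → ∀ S : Finset (Frm ℤ r N),
      (∀ Z ∈ S, CongF q Z Z0 ∧ ∀ i, Z i ≠ 0) →
      (∀ Z : Frm ℤ r N, CongF q Z Z0 → (∀ i, Z i ≠ 0) → c0 * PN (realF Z) ≤ Y → Z ∈ S) →
      |(q:ℝ) ^ (∑ i, r i * N i) * ∑ Z ∈ S, g Z Y - kapM Φ * (Y * Real.log Y ^ k)| ≤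
        ε * (Y * Real.log Y ^ k) := by
  set Ψ : Frm ℝ r N → ℝ := fun x => (PN x)⁻¹ with hΨdef
  have hΨ : MHom Ψ := mHom_PN
  set κ := kapM Φ with hκ
  set κ1 := kapM Ψ with hκ1
  have hκ10 : 0 ≤ κ1 := kapM_nonneg hΨ
  set v : ℝ := (q:ℝ) ^ (∑ i, r i * N i) with hv
  have hv0 : 0 ≤ v := by positivity
  set ε1 := ε / (4 * (κ1 + 1)) with hε1
  have hε1p : 0 < ε1 := by positivity
  obtain ⟨Y0', hY0', Hg1'⟩ := hg1 ε1 hε1p
  set Y0 := max Y0' c0 with hY0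
  have hY0c : c0 ≤ Y0 := le_max_right _ _
  have hY0p : 0 < Y0 := hc0.trans_le hY0c
  -- asymptotics
  have T1 := gsum_shift hn hΨ hq Z0 hY0p
  have T2 := gsum_shift hn hΦ hq Z0 hY0p
  have T3 := gsum_shift hn hΨ hq Z0 hc0
  have T4 := T3.sub T1
  rw [sub_self] at T4
  have ev1 : ∀ᶠ Y in atTop, gsum hn Ψ q Z0 (Y / Y0) / Real.log Y ^ k < κ1 + 1 :=
    T1.eventually (gt_mem_nhds (by linarith))
  have ev2 : ∀ᶠ Y in atTop, |gsum hn Φ q Z0 (Y / Y0) / Real.log Y ^ k - κ| < ε / 4 := by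
    have := Metric.tendsto_nhds.1 T2 (ε / 4) (by positivity)
    simpa only [Real.dist_eq] using this
  have ev3 : ∀ᶠ Y in atTop, gsum hn Ψ q Z0 (Y / c0) / Real.log Y ^ k -
      gsum hn Ψ q Z0 (Y / Y0) / Real.log Y ^ k < ε / (4 * (C + 1)) :=
    T4.eventually (gt_mem_nhds (by positivity))
  obtain ⟨Y1, hY1⟩ := eventually_atTop.1 (ev1.and (ev2.and (ev3.and (eventually_gt_atTop 1))))
  refine ⟨Y1, fun Y hY S hS1 hS2 => ?_⟩
  obtain ⟨a1, a2, a3, a4⟩ := hY1 Y hY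
  have hYpos : 0 < Y := by linarith
  set D := Real.log Y ^ k with hD
  have hDpos : 0 < D := pow_pos (Real.log_pos a4) _
  rw [div_lt_iff₀ hDpos] at a1
  have a2' : |gsum hn Φ q Z0 (Y / Y0) - κ * D| ≤ ε / 4 * D := by
    have e : gsum hn Φ q Z0 (Y / Y0) - κ * D = (gsum hn Φ q Z0 (Y / Y0) / D - κ) * D := by
      field_simp
    rw [e, abs_mul, abs_of_pos hDpos]
    exact mul_le_mul_of_nonneg_right a2.le hDpos.le
  have a3' : gsum hn Ψ q Z0 (Y / c0) - gsum hn Ψ q Z0 (Y / Y0) ≤ ε / (4 * (C + 1)) * D := by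
    rw [← sub_div, div_lt_iff₀ hDpos] at a3
    exact a3.le
  have mem1 : ∀ Z, Z ∈ ps hn q Z0 (Y / Y0) ↔
      CongF q Z Z0 ∧ (∀ i, Z i ≠ 0) ∧ Y0 * PN (realF Z) ≤ Y := by
    intro Z
    rw [mem_ps, le_div_iff₀ hY0p, mul_comm]
  have mem2 : ∀ Z, Z ∈ ps hn q Z0 (Y / c0) ↔
      CongF q Z Z0 ∧ (∀ i, Z i ≠ 0) ∧ c0 * PN (realF Z) ≤ Y := by
    intro Z
    rw [mem_ps, le_div_iff₀ hc0, mul_comm]
  have hsub : ps hn q Z0 (Y / Y0) ⊆ ps hn q Z0 (Y / c0) := by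
    intro Z hZ
    obtain ⟨h1, h2, h3⟩ := (mem1 Z).1 hZ
    refine (mem2 Z).2 ⟨h1, h2, le_trans ?_ h3⟩
    exact mul_le_mul_of_nonneg_right hY0c (PN_pos fun i => realF_apply_ne_zero (h2 i)).le
  have hsum1 : ∑ Z ∈ S, g Z Y = ∑ Z ∈ ps hn q Z0 (Y / c0), g Z Y := by
    refine (Finset.sum_subset ?_ ?_).symm
    · intro Z hZ
      obtain ⟨h1, h2, h3⟩ := (mem2 Z).1 hZ
      exact hS2 Z h1 h2 h3
    · intro Z hZ hnZ
      obtain ⟨h1, h2⟩ := hS1 Z hZ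
      refine hg3 Z h1 h2 Y ?_
      by_contra hcon
      push Not at hcon
      exact hnZ ((mem2 Z).2 ⟨h1, h2, hcon⟩)
  have hsum2 : ∑ Z ∈ ps hn q Z0 (Y / c0), g Z Y = ∑ Z ∈ ps hn q Z0 (Y / Y0), g Z Y +
      ∑ Z ∈ ps hn q Z0 (Y / c0) \ ps hn q Z0 (Y / Y0), g Z Y := by
    rw [add_comm, Finset.sum_sdiff hsub]
  -- near part
  have hnear : |v * ∑ Z ∈ ps hn q Z0 (Y / Y0), g Z Y - Y * gsum hn Φ q Z0 (Y / Y0)| ≤
      ε1 * Y * gsum hn Ψ q Z0 (Y / Y0) := by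
    have e : v * ∑ Z ∈ ps hn q Z0 (Y / Y0), g Z Y - Y * gsum hn Φ q Z0 (Y / Y0) =
        v * ∑ Z ∈ ps hn q Z0 (Y / Y0), (g Z Y - Φ (realF Z) * Y) := by
      rw [gsum, Finset.sum_sub_distrib, ← Finset.sum_mul]; ring
    rw [e, abs_mul, abs_of_nonneg hv0]
    calc v * |∑ Z ∈ ps hn q Z0 (Y / Y0), (g Z Y - Φ (realF Z) * Y)|
        ≤ v * ∑ Z ∈ ps hn q Z0 (Y / Y0), |g Z Y - Φ (realF Z) * Y| :=
          mul_le_mul_of_nonneg_left (Finset.abs_sum_le_sum_abs _ _) hv0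
      _ ≤ v * ∑ Z ∈ ps hn q Z0 (Y / Y0), ε1 * Y * Ψ (realF Z) := by
          refine mul_le_mul_of_nonneg_left (Finset.sum_le_sum fun Z hZ => ?_) hv0
          obtain ⟨h1, h2, h3⟩ := (mem1 Z).1 hZ
          refine Hg1' Z h1 h2 Y (le_trans ?_ h3)
          exact mul_le_mul_of_nonneg_right (le_max_left _ _)
            (PN_pos fun i => realF_apply_ne_zero (h2 i)).le
      _ = _ := by rw [← Finset.mul_sum, gsum]; ring
  -- far part
  have hfar0 : 0 ≤ v * ∑ Z ∈ ps hn q Z0 (Y / c0) \ ps hn q Z0 (Y / Y0), g Z Y := by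
    refine mul_nonneg hv0 (Finset.sum_nonneg fun Z hZ => ?_)
    obtain ⟨h1, h2, _⟩ := (mem2 Z).1 (Finset.mem_sdiff.1 hZ).1
    exact (hg2 Z h1 h2 Y hYpos).1
  have hfar : v * ∑ Z ∈ ps hn q Z0 (Y / c0) \ ps hn q Z0 (Y / Y0), g Z Y ≤
      C * Y * (gsum hn Ψ q Z0 (Y / c0) - gsum hn Ψ q Z0 (Y / Y0)) := by
    have h1 : ∑ Z ∈ ps hn q Z0 (Y / c0) \ ps hn q Z0 (Y / Y0), g Z Y ≤
        ∑ Z ∈ ps hn q Z0 (Y / c0) \ ps hn q Z0 (Y / Y0), C * Y * Ψ (realF Z) := by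
      refine Finset.sum_le_sum fun Z hZ => ?_
      obtain ⟨h1, h2, _⟩ := (mem2 Z).1 (Finset.mem_sdiff.1 hZ).1
      exact (hg2 Z h1 h2 Y hYpos).2
    rw [← Finset.mul_sum] at h1
    have h2 : ∑ Z ∈ ps hn q Z0 (Y / c0) \ ps hn q Z0 (Y / Y0), Ψ (realF Z) =
        ∑ Z ∈ ps hn q Z0 (Y / c0), Ψ (realF Z) - ∑ Z ∈ ps hn q Z0 (Y / Y0), Ψ (realF Z) := by
      rw [← Finset.sum_sdiff hsub]; ring
    calc v * ∑ Z ∈ ps hn q Z0 (Y / c0) \ ps hn q Z0 (Y / Y0), g Z Y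
        ≤ v * (C * Y * ∑ Z ∈ ps hn q Z0 (Y / c0) \ ps hn q Z0 (Y / Y0), Ψ (realF Z)) :=
          mul_le_mul_of_nonneg_left h1 hv0
      _ = _ := by rw [h2, gsum, gsum]; ring
  -- combine
  have hmain : |v * ∑ Z ∈ S, g Z Y - κ * (Y * D)| ≤
      ε1 * Y * gsum hn Ψ q Z0 (Y / Y0) + Y * |gsum hn Φ q Z0 (Y / Y0) - κ * D| +
        C * Y * (gsum hn Ψ q Z0 (Y / c0) - gsum hn Ψ q Z0 (Y / Y0)) := by
    rw [hsum1, hsum2]
    have e1 : v * (∑ Z ∈ ps hn q Z0 (Y / Y0), g Z Y +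
        ∑ Z ∈ ps hn q Z0 (Y / c0) \ ps hn q Z0 (Y / Y0), g Z Y) - κ * (Y * D) =
        (v * ∑ Z ∈ ps hn q Z0 (Y / Y0), g Z Y - Y * gsum hn Φ q Z0 (Y / Y0)) +
        Y * (gsum hn Φ q Z0 (Y / Y0) - κ * D) +
        v * ∑ Z ∈ ps hn q Z0 (Y / c0) \ ps hn q Z0 (Y / Y0), g Z Y := by ring
    rw [e1]
    refine (abs_add_le _ _).trans ?_
    refine add_le_add ((abs_add_le _ _).trans (add_le_add hnear ?_)) ?_
    · rw [abs_mul, abs_of_pos hYpos]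
    · rw [abs_of_nonneg hfar0]
      exact hfar
  refine hmain.trans ?_
  have hYD : 0 < Y * D := mul_pos hYpos hDpos
  have B1 : ε1 * Y * gsum hn Ψ q Z0 (Y / Y0) ≤ ε / 4 * (Y * D) := by
    calc ε1 * Y * gsum hn Ψ q Z0 (Y / Y0) ≤ ε1 * Y * ((κ1 + 1) * D) :=
          mul_le_mul_of_nonneg_left a1.le (by positivity)
      _ = (ε1 * (κ1 + 1)) * (Y * D) := by ring
      _ = ε / 4 * (Y * D) := by
          congr 1
          rw [hε1]; field_simp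
  have B2 : Y * |gsum hn Φ q Z0 (Y / Y0) - κ * D| ≤ ε / 4 * (Y * D) := by
    calc Y * |gsum hn Φ q Z0 (Y / Y0) - κ * D| ≤ Y * (ε / 4 * D) :=
          mul_le_mul_of_nonneg_left a2' hYpos.le
      _ = _ := by ring
  have B3 : C * Y * (gsum hn Ψ q Z0 (Y / c0) - gsum hn Ψ q Z0 (Y / Y0)) ≤
      ε / 4 * (Y * D) := by
    calc C * Y * (gsum hn Ψ q Z0 (Y / c0) - gsum hn Ψ q Z0 (Y / Y0))
        ≤ C * Y * (ε / (4 * (C + 1)) * D) := mul_le_mul_of_nonneg_left a3' (by positivity)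
      _ = (ε / 4 * (Y * D)) * (C / (C + 1)) := by field_simp
      _ ≤ (ε / 4 * (Y * D)) * 1 := by
          refine mul_le_mul_of_nonneg_left ?_ (by positivity)
          rw [div_le_one (by linarith)]; linarith
      _ = _ := mul_one _
  have : 0 < ε * (Y * D) := by positivity
  linarith

end Pool.Agent.Lib.MP_1acd66_nt.Gen
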