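import Pool.Agent.Lib.MP_1acd66_nt.Gen.Tight
import Pool.Agent.Lib.MP_1acd66_nt.Gen.MultiSum

/-! The weighted number of integral pairs. -/

set_option linter.unusedSectionVars false

namespace Pool.Agent.Lib.MP_1acd66_nt.Gen

open Filter Metric Set Topology
open scoped Classical

variable {k : ℕ} {r N : Fin k → ℕ} {W : Type} [Fintype W] {ρ : FRep r W}
  {M : Frm ℝ r N → (W → ℝ) → ℝ} {Good : (W → ℚ) → Prop}

/-- the weighted number of pairs -/
noncomputable def XH (Good : (W → ℚ) → Prop) (M : Frm ℝ r N → (W → ℝ) → ℝ)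
    (f : Frm ℤ r N → (W → ℤ) → ℝ) (t B : ℝ) : ℝ :=
  ∑ᶠ Z : Frm ℤ r N,
    (if SatF Z then wtt t (realF Z) * ((hset Good M f Z B).ncard : ℝ) else 0)

theorem SatF.ne_zero (hr : ∀ i, 0 < r i) {Z : Frm ℤ r N} (hZ : SatF Z) (i : Fin k) : Z i ≠ 0 :=
  (hZ i).isFrame.ne_zero (hr i)

theorem hset_subset (hM : IsLocalNorm ℝ N ρ M) {f : Frm ℤ r N → (W → ℤ) → ℝ} {f0 f1 : ℝ}
    (hf : Tame f f0 f1) {Z : Frm ℤ r N} (hZ : SatF Z) (B : ℝ) :
    hset Good M f Z B ⊆ cset (fun _ => True) M (realF Z) (f0⁻¹ * B) := by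
  rintro A ⟨hP, _, hMf⟩
  refine ⟨hP.ne_zero, trivial, ?_⟩
  have hfl := hf.lo Z A hZ hP
  have hMpos : 0 < M (realF Z) (realW A) :=
    hM.pos _ _ (allFrame_realF.2 hZ.allFrame) (realW_ne_zero hP.ne_zero)
  rw [← div_eq_inv_mul, le_div_iff₀ hf.pos]
  have h5 : M (realF Z) (realW A) * f0 ≤ M (realF Z) (realW A) * f Z A :=
    mul_le_mul_of_nonneg_left hfl hMpos.le
  linarith

theorem XH_eq (hM : IsLocalNorm ℝ N ρ M) (hr : ∀ i, 0 < r i)
    {f : Frm ℤ r N → (W → ℤ) → ℝ} {f0 f1 : ℝ} (hf : Tame f f0 f1) {t B : ℝ} {c : ℝ}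
    (hwc : ∀ Z : Frm ℝ r N, wtt t Z ≠ 0 → ∀ (p : (W → ℤ) → Prop) (Y : ℝ),
      Y < c * PN Z → cset p M Z Y = ∅) (S : Finset (Frm ℤ r N))
    (hS : ∀ Z, (∀ i, Z i ≠ 0) → c * PN (realF Z) ≤ f0⁻¹ * B → Z ∈ S) :
    XH Good M f t B =
      ∑ Z ∈ S.filter SatF, wtt t (realF Z) * ((hset Good M f Z B).ncard : ℝ) := by
  rw [XH, finsum_eq_sum_of_support_subset (s := S), Finset.sum_filter]
  intro Z hZ
  rw [Function.mem_support] at hZ
  rw [Finset.mem_coe]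
  have hsat : SatF Z := by
    by_contra h
    rw [if_neg h] at hZ
    exact hZ rfl
  rw [if_pos hsat] at hZ
  have hw0 : wtt t (realF Z) ≠ 0 := left_ne_zero_of_mul hZ
  have hn0 : ((hset Good M f Z B).ncard : ℝ) ≠ 0 := right_ne_zero_of_mul hZ
  have hne : (hset Good M f Z B).Nonempty := by
    by_contra h
    rw [Set.not_nonempty_iff_eq_empty] at h
    rw [h, Set.ncard_empty] at hn0
    exact hn0 Nat.cast_zero
  obtain ⟨A, hA⟩ := hne
  refine hS Z (hsat.ne_zero hr) ?_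
  by_contra hcon
  push Not at hcon
  have hemp := hwc (realF Z) hw0 (fun _ => True) (f0⁻¹ * B) hcon
  have hmem := hset_subset hM hf hsat B hA
  rw [hemp] at hmem
  exact hmem

theorem finite_SB (R : ℝ) : {Z : Frm ℤ r N | ∀ i, Z i ≠ 0 ∧ ‖realF Z i‖ ≤ R}.Finite :=
  (finite_norm_le (r := r) (N := N) R).subset fun _ hZ i => (hZ i).2

/-- the box of families of frames used for the height bound `B` -/
noncomputable def SB (r N : Fin k → ℕ) (κ B : ℝ) : Finset (Frm ℤ r N) :=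
  (finite_SB (r := r) (N := N) (max 1 (κ * B))).toFinset

theorem mem_SB_iff {κ B : ℝ} {Z : Frm ℤ r N} :
    Z ∈ SB r N κ B ↔ ∀ i, Z i ≠ 0 ∧ ‖realF Z i‖ ≤ max 1 (κ * B) := by
  rw [SB, Set.Finite.mem_toFinset]; rfl

theorem mem_SB (hn : ∀ i, 0 < r i * N i) {κ B l c : ℝ} (hc : 0 < c) (hl : 0 < l)
    (hlk : l ≤ κ * c) {Z : Frm ℤ r N}
    (hZ : ∀ i, Z i ≠ 0) (h : c * PN (realF Z) ≤ l * B) : Z ∈ SB r N κ B := by
  have hpos : 0 < PN (realF Z) := PN_pos fun i => realF_apply_ne_zero (hZ i)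
  have hB : 0 < B := by
    have : 0 < l * B := lt_of_lt_of_le (by positivity) h
    exact (mul_pos_iff_of_pos_left hl).1 this
  rw [mem_SB_iff]
  intro i
  refine ⟨hZ i, le_trans ?_ (le_max_right _ _)⟩
  have h2 : ‖realF Z i‖ ≤ PN (realF Z) := norm_le_of_PN hn hZ i
  have h3 : c * ‖realF Z i‖ ≤ c * (κ * B) := by
    calc c * ‖realF Z i‖ ≤ c * PN (realF Z) := mul_le_mul_of_nonneg_left h2 hc.le
      _ ≤ l * B := h
      _ ≤ (κ * c) * B := mul_le_mul_of_nonneg_right hlk hB.le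
      _ = c * (κ * B) := by ring
  exact le_of_mul_le_mul_left h3 hc

theorem log_max_le {κ : ℝ} (hκ : 0 < κ) :
    ∀ᶠ B : ℝ in atTop, 1 + Real.log (max 1 (κ * B)) ≤ 2 * Real.log B := by
  filter_upwards [eventually_ge_atTop (Real.exp (1 + |Real.log κ|))] with B hB
  have hB0 : 0 < B := lt_of_lt_of_le (Real.exp_pos _) hB
  have h1 : 1 + |Real.log κ| ≤ Real.log B := by
    rw [Real.le_log_iff_exp_le hB0]; exact hB
  have h2 := abs_nonneg (Real.log κ)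
  rcases le_total 1 (κ * B) with h | h
  · rw [max_eq_right h, Real.log_mul hκ.ne' hB0.ne']
    have := le_abs_self (Real.log κ)
    linarith
  · rw [max_eq_left h, Real.log_one]
    linarith

end Pool.Agent.Lib.MP_1acd66_nt.Gen
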