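import Pool.Agent.Lib.MP_1acd66_nt.Gen.MainSum
import Pool.Agent.Lib.MP_1acd66_nt.Gen.XH

/-! Upper and lower bounds for the weighted count by class sums. -/

set_option linter.unusedSectionVars false

namespace Pool.Agent.Lib.MP_1acd66_nt.Gen

open MeasureTheory Metric Set Filter Topology
open scoped Classical

variable {k : ℕ} {r N : Fin k → ℕ} {W : Type} [Fintype W] {ρ : FRep r W}
  {M : Frm ℝ r N → (W → ℝ) → ℝ} {Good : (W → ℚ) → Prop}
  {f : Frm ℤ r N → (W → ℤ) → ℝ} {cc : Frm ℤ r N → (W → ℤ) → ℝ} {f0 f1 ε : ℝ}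

theorem sat_mem_JP {q P : ℕ} (hq : 0 < q) (hPq : ∀ p : ℕ, p.Prime → p ≤ P → p ∣ q)
    {Z : Frm ℤ r N} (hZ : SatF Z) : resF q Z ∈ JP r N q P := by
  rw [mem_JP]
  refine ⟨resF_mem hq Z, ?_⟩
  intro i p hp hpP hns
  exact (satZ_iff.1 (hZ i)) p hp (hns.congr (hPq p hp hpP) ((congF_res q Z).symm i))

theorem JP_subset (q P : ℕ) : JP r N q P ⊆ RSF r N q := fun _ hZ => (mem_JP.1 hZ).1

theorem XH_upper (hM : IsLocalNorm ℝ N ρ M) (hr : ∀ i, 0 < r i)
    (hw : ∀ i, ρ.b i ≤ N i) (hW : 0 < Fintype.card W) {t : ℝ} {q P : ℕ} (hq : 0 < q)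
    (hPq : ∀ p : ℕ, p.Prime → p ≤ P → p ∣ q)
    (hcc : ClassApprox f q cc f0 f1 ε) {B : ℝ} (hB : 0 < B)
    (S : Finset (Frm ℤ r N))
    (hXH : XH Good M f t B =
      ∑ Z ∈ S.filter SatF, wtt t (realF Z) * ((hset Good M f Z B).ncard : ℝ)) :
    XH Good M f t B ≤ ∑ Z0 ∈ JP r N q P, ∑ A0 ∈ IP W q P,
      Gs M t q Z0 A0 S ((1 + ε) * cc Z0 A0 * B) := by
  obtain ⟨c, C, hc, hC, hb⟩ := wt_cset hM hr hw hW t
  have e : ∑ Z0 ∈ JP r N q P, ∑ A0 ∈ IP W q P, Gs M t q Z0 A0 S ((1 + ε) * cc Z0 A0 * B) =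
      ∑ Z ∈ S.filter (fun Z => resF q Z ∈ JP r N q P), wtt t (realF Z) *
        ∑ A0 ∈ IP W q P, cnt (fun A => CongW q A A0) M (realF Z)
          ((1 + ε) * cc (resF q Z) A0 * B) := by
    rw [← sum_classes (JP r N q P) (JP_subset q P) S (fun Z Z0 => wtt t (realF Z) *
        ∑ A0 ∈ IP W q P, cnt (fun A => CongW q A A0) M (realF Z) ((1 + ε) * cc Z0 A0 * B))]
    refine Finset.sum_congr rfl fun Z0 _ => ?_
    simp only [Gs, Finset.mul_sum]
    rw [Finset.sum_comm]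
  rw [e, hXH]
  have h1 : ∀ Z ∈ S.filter SatF, wtt t (realF Z) * ((hset Good M f Z B).ncard : ℝ) ≤
      wtt t (realF Z) * ∑ A0 ∈ IP W q P, cnt (fun A => CongW q A A0) M (realF Z)
          ((1 + ε) * cc (resF q Z) A0 * B) := by
    intro Z hZ
    by_cases h0 : wtt t (realF Z) = 0
    · rw [h0, zero_mul, zero_mul]
    · exact mul_le_mul_of_nonneg_left (upper_local hM hq hPq hcc (Finset.mem_filter.1 hZ).2
        (fun Y => (hb _ h0 _ Y).1) hB) (wtt_nonneg _ _)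
  refine (Finset.sum_le_sum h1).trans ?_
  refine Finset.sum_le_sum_of_subset_of_nonneg ?_ ?_
  · intro Z hZ
    obtain ⟨h2, h3⟩ := Finset.mem_filter.1 hZ
    exact Finset.mem_filter.2 ⟨h2, sat_mem_JP hq hPq h3⟩
  · intro Z _ _
    exact mul_nonneg (wtt_nonneg _ _) (Finset.sum_nonneg fun _ _ => cnt_nonneg _ _ _ _)

/-- families of frames one member of which is not saturated at a large prime -/
def NonF (P : ℕ) (Z : Frm ℤ r N) : Prop :=
  AllFrame Z ∧ ∃ i, ∃ p : ℕ, p.Prime ∧ P < p ∧ NonSatAt p (Z i)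

theorem XH_lower (hM : IsLocalNorm ℝ N ρ M) (hr : ∀ i, 0 < r i)
    (hD : 2 ≤ Fintype.card W) {t : ℝ} {q P : ℕ} (hP : 0 < P)
    (hPq : ∀ p : ℕ, p.Prime → p ≤ P → p ∣ q)
    (hcc : ClassApprox f q cc f0 f1 ε) {B : ℝ} (hB : 0 < B)
    (S : Finset (Frm ℤ r N))
    (hXH : XH Good M f t B =
      ∑ Z ∈ S.filter SatF, wtt t (realF Z) * ((hset Good M f Z B).ncard : ℝ))
    {C : ℝ} (hC : 0 < C)
    (hb : ∀ Z : Frm ℝ r N, wtt t Z ≠ 0 → ∀ (p : (W → ℤ) → Prop) (Y : ℝ),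
      (cset p M Z Y).Finite ∧ (0 < Y → cnt p M Z Y ≤ C * Y * (PN Z)⁻¹)) :
    ∑ Z0 ∈ JP r N q P, ∑ A0 ∈ IP W q P, Gs M t q Z0 A0 S ((1 + ε)⁻¹ * cc Z0 A0 * B) ≤
      XH Good M f t B +
      ∑ Z ∈ S, wtt t (realF Z) * cnt (fun A => ¬ Good (ratW A)) M (realF Z) (f0⁻¹ * B) +
      C * (f0⁻¹ * B) * (P:ℝ)⁻¹ * ∑ Z ∈ S, (PN (realF Z))⁻¹ +
      C * (f0⁻¹ * B) * ∑ Z ∈ S.filter (NonF P), wtt t (realF Z) * (PN (realF Z))⁻¹ := by
  have hf0B : 0 < f0⁻¹ * B := mul_pos (inv_pos.2 hcc.pos) hB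
  have hε := hcc.eps
  have hle1 : (1 + ε)⁻¹ ≤ 1 := inv_le_one_of_one_le₀ (by linarith)
  have hPNn : ∀ Z : Frm ℤ r N, 0 ≤ (PN (realF Z))⁻¹ := fun Z =>
    inv_nonneg.2 (Finset.prod_nonneg fun _ _ => by positivity)
  have hYle : ∀ Z0 A0, (1 + ε)⁻¹ * cc Z0 A0 * B ≤ f0⁻¹ * B := by
    intro Z0 A0
    apply mul_le_mul_of_nonneg_right _ hB.le
    have h1 := hcc.hi Z0 A0
    have h3 : 0 < cc Z0 A0 := (inv_pos.2 hcc.pos1).trans_le (hcc.lo _ _)
    calc (1 + ε)⁻¹ * cc Z0 A0 ≤ 1 * cc Z0 A0 :=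
          mul_le_mul_of_nonneg_right hle1 h3.le
      _ ≤ f0⁻¹ := by rw [one_mul]; exact h1
  have e : ∑ Z0 ∈ JP r N q P, ∑ A0 ∈ IP W q P, Gs M t q Z0 A0 S ((1 + ε)⁻¹ * cc Z0 A0 * B) =
      ∑ Z ∈ S.filter (fun Z => resF q Z ∈ JP r N q P), wtt t (realF Z) *
        ∑ A0 ∈ IP W q P, cnt (fun A => CongW q A A0) M (realF Z)
          ((1 + ε)⁻¹ * cc (resF q Z) A0 * B) := by
    rw [← sum_classes (JP r N q P) (JP_subset q P) S (fun Z Z0 => wtt t (realF Z) *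
        ∑ A0 ∈ IP W q P, cnt (fun A => CongW q A A0) M (realF Z) ((1 + ε)⁻¹ * cc Z0 A0 * B))]
    refine Finset.sum_congr rfl fun Z0 _ => ?_
    simp only [Gs, Finset.mul_sum]
    rw [Finset.sum_comm]
  rw [e, hXH]
  set g : Frm ℤ r N → ℝ := fun Z => wtt t (realF Z) *
        ∑ A0 ∈ IP W q P, cnt (fun A => CongW q A A0) M (realF Z)
          ((1 + ε)⁻¹ * cc (resF q Z) A0 * B) with hg
  -- pointwise bound for saturated frames
  have h1 : ∀ Z ∈ S.filter SatF, g Z ≤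
      wtt t (realF Z) * ((hset Good M f Z B).ncard : ℝ) +
      wtt t (realF Z) * cnt (fun A => ¬ Good (ratW A)) M (realF Z) (f0⁻¹ * B) +
      C * (f0⁻¹ * B) * (P:ℝ)⁻¹ * (PN (realF Z))⁻¹ := by
    intro Z hZ
    have hsat := (Finset.mem_filter.1 hZ).2
    by_cases h0 : wtt t (realF Z) = 0
    · simp only [hg, h0, zero_mul, zero_add]
      have := hPNn Z
      positivity
    · have h2 := lower_local (Good := Good) hM hPq hcc hsat (fun Y => (hb _ h0 _ Y).1) hB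
      have hPN := hPNn Z
      have h3 := cnt_large_div hM hD (allFrame_realF.2 hsat.allFrame)
        (K := C * (PN (realF Z))⁻¹) (by positivity) (fun Y => (hb _ h0 _ Y).1)
        (fun Y hY => by
          have := (hb _ h0 (fun _ => True) Y).2 hY
          calc cnt (fun _ => True) M (realF Z) Y ≤ C * Y * (PN (realF Z))⁻¹ := this
            _ = _ := by ring) hP hf0B
      have h4 : wtt t (realF Z) * cnt (fun A => ∃ p : ℕ, p.Prime ∧ P < p ∧ DivW p A) M (realF Z)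
          (f0⁻¹ * B) ≤ C * (f0⁻¹ * B) * (P:ℝ)⁻¹ * (PN (realF Z))⁻¹ := by
        calc wtt t (realF Z) * cnt (fun A => ∃ p : ℕ, p.Prime ∧ P < p ∧ DivW p A) M (realF Z)
              (f0⁻¹ * B) ≤ 1 * (C * (PN (realF Z))⁻¹ * (f0⁻¹ * B) * (P:ℝ)⁻¹) :=
              mul_le_mul (wtt_le_one _ _) h3 (cnt_nonneg _ _ _ _) zero_le_one
          _ = _ := by ring
      have h5 := mul_le_mul_of_nonneg_left h2 (wtt_nonneg t (realF Z))
      simp only [hg]
      rw [mul_add, mul_add] at h5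
      linarith
  -- pointwise bound for the other frames
  have h2 : ∀ Z ∈ (S.filter (fun Z => resF q Z ∈ JP r N q P)).filter (fun Z => ¬ SatF Z), g Z ≤
      (if NonF P Z then C * (f0⁻¹ * B) * (wtt t (realF Z) * (PN (realF Z))⁻¹) else 0) := by
    intro Z hZ
    obtain ⟨hZ1, hns⟩ := Finset.mem_filter.1 hZ
    obtain ⟨hZ2, hJ⟩ := Finset.mem_filter.1 hZ1
    by_cases h0 : wtt t (realF Z) = 0
    · simp only [hg, h0, zero_mul, mul_zero, ite_self, le_refl]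
    · have hfr : AllFrame Z := allFrame_realF.1 fun i => bal_pos_frame (hr i) (wtt_ne_zero h0 i)
      have hcond : NonF P Z := by
        refine ⟨hfr, ?_⟩
        have hex : ∃ i, ¬ SatZ (Z i) := by
          by_contra hcon
          push Not at hcon
          exact hns hcon
        obtain ⟨i, hi⟩ := hex
        rw [satZ_iff] at hi
        push Not at hi
        obtain ⟨p, hp, hnp⟩ := hi
        refine ⟨i, p, hp, ?_, hnp⟩
        by_contra hcon
        push Not at hcon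
        exact (mem_JP.1 hJ).2 i p hp hcon (hnp.congr (hPq p hp hcon) (congF_res q Z i))
      rw [if_pos hcond]
      obtain ⟨e1, e2⟩ := sum_cnt (M := M) (Z := realF Z) (q := q) (IP W q P)
        (Finset.filter_subset _ _)
        (fun A0 => (1 + ε)⁻¹ * cc (resF q Z) A0 * B) (Ym := f0⁻¹ * B) (fun A0 _ => hYle _ A0)
        ((hb _ h0 _ _).1)
      simp only [hg]
      rw [e1]
      have h3 : (({A : W → ℤ | A ≠ 0 ∧ resW q A ∈ IP W q P ∧
          M (realF Z) (realW A) ≤ (1 + ε)⁻¹ * cc (resF q Z) (resW q A) * B}.ncard : ℕ) : ℝ) ≤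
          cnt (fun _ => True) M (realF Z) (f0⁻¹ * B) := by
        rw [cnt]
        have : {A : W → ℤ | A ≠ 0 ∧ resW q A ∈ IP W q P ∧
          M (realF Z) (realW A) ≤ (1 + ε)⁻¹ * cc (resF q Z) (resW q A) * B} ⊆
            cset (fun _ => True) M (realF Z) (f0⁻¹ * B) := by
          rintro A ⟨a1, _, a3⟩
          exact ⟨a1, trivial, a3.trans (hYle _ _)⟩
        exact_mod_cast Set.ncard_le_ncard this (hb _ h0 _ _).1
      have h4 := (hb _ h0 (fun _ => True) (f0⁻¹ * B)).2 hf0B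
      calc wtt t (realF Z) * _ ≤ wtt t (realF Z) * (C * (f0⁻¹ * B) * (PN (realF Z))⁻¹) :=
            mul_le_mul_of_nonneg_left (h3.trans h4) (wtt_nonneg _ _)
        _ = _ := by ring
  -- splitting
  have hgn : ∀ Z, 0 ≤ g Z := fun Z =>
    mul_nonneg (wtt_nonneg _ _) (Finset.sum_nonneg fun _ _ => cnt_nonneg _ _ _ _)
  have h3 : ∑ Z ∈ S.filter (fun Z => resF q Z ∈ JP r N q P), g Z ≤
      ∑ Z ∈ S.filter SatF, g Z +
      ∑ Z ∈ (S.filter (fun Z => resF q Z ∈ JP r N q P)).filter (fun Z => ¬ SatF Z), g Z := by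
    rw [← Finset.sum_filter_add_sum_filter_not (S.filter (fun Z => resF q Z ∈ JP r N q P)) SatF]
    refine add_le_add_left ?_ _
    refine Finset.sum_le_sum_of_subset_of_nonneg ?_ (fun Z _ _ => hgn Z)
    intro Z hZ
    obtain ⟨a1, a2⟩ := Finset.mem_filter.1 hZ
    exact Finset.mem_filter.2 ⟨(Finset.mem_filter.1 a1).1, a2⟩
  have h4 : ∑ Z ∈ (S.filter (fun Z => resF q Z ∈ JP r N q P)).filter (fun Z => ¬ SatF Z), g Z ≤
      C * (f0⁻¹ * B) * ∑ Z ∈ S.filter (NonF P), wtt t (realF Z) * (PN (realF Z))⁻¹ := by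
    refine (Finset.sum_le_sum h2).trans ?_
    rw [Finset.mul_sum]
    rw [Finset.sum_filter (NonF P)]
    refine Finset.sum_le_sum_of_subset_of_nonneg
      ((Finset.filter_subset _ _).trans (Finset.filter_subset _ _)) ?_
    intro Z _ _
    split_ifs
    · have := wtt_nonneg t (realF Z)
      have := hPNn Z
      positivity
    · exact le_refl _
  have h5 : ∑ Z ∈ S.filter SatF, g Z ≤
      ∑ Z ∈ S.filter SatF, wtt t (realF Z) * ((hset Good M f Z B).ncard : ℝ) +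
      ∑ Z ∈ S, wtt t (realF Z) * cnt (fun A => ¬ Good (ratW A)) M (realF Z) (f0⁻¹ * B) +
      C * (f0⁻¹ * B) * (P:ℝ)⁻¹ * ∑ Z ∈ S, (PN (realF Z))⁻¹ := by
    refine (Finset.sum_le_sum h1).trans ?_
    rw [Finset.sum_add_distrib, Finset.sum_add_distrib, Finset.mul_sum]
    refine add_le_add (add_le_add (le_refl _) ?_) ?_
    · refine Finset.sum_le_sum_of_subset_of_nonneg (Finset.filter_subset _ _) ?_
      intro Z _ _
      exact mul_nonneg (wtt_nonneg _ _) (cnt_nonneg _ _ _ _)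
    · refine Finset.sum_le_sum_of_subset_of_nonneg (Finset.filter_subset _ _) ?_
      intro Z _ _
      have := hPNn Z
      positivity
  linarith

end Pool.Agent.Lib.MP_1acd66_nt.Gen
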