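import Pool.Agent.Lib.MP_1acd66_nt.Gen.XH

/-! Comparison of the number of points with the weighted count, continued. -/

set_option linter.unusedSectionVars false

namespace Pool.Agent.Lib.MP_1acd66_nt.Gen

open Filter Metric Set Topology
open scoped Classical

variable {k : ℕ} {r N : Fin k → ℕ} {W : Type} [Fintype W] {ρ : FRep r W}
  {Good : (W → ℚ) → Prop}

/-- the pairs of positive weight and bounded height -/
def qSet (Good : (W → ℚ) → Prop) (h : AdelicNorm N ρ.toRepData) (t B : ℝ) : Set (IPair r N W) :=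
  {x | x ∈ hQ Good h B ∧ wtt t (realF x.1.1) ≠ 0}

theorem exists_box {h : AdelicNorm N ρ.toRepData} {f0 f1 : ℝ} (hf : Tame h.ff f0 f1)
    (hr : ∀ i, 0 < r i) (hn : ∀ i, 0 < r i * N i)
    {t c : ℝ} (hc : 0 < c)
    (hwc : ∀ Z : Frm ℝ r N, wtt t Z ≠ 0 → ∀ (p : (W → ℤ) → Prop) (Y : ℝ),
      Y < c * PN Z → cset p h.inf Z Y = ∅) (B : ℝ) :
    ∃ S : Finset (Frm ℤ r N),
      (∀ Z, (∀ i, Z i ≠ 0) → c * PN (realF Z) ≤ f0⁻¹ * B → Z ∈ S) ∧
      ∀ x ∈ qSet Good h t B, x.1.1 ∈ S := by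
  have hf0 : 0 < f0⁻¹ := inv_pos.2 hf.pos
  refine ⟨SB r N (f0⁻¹ / c) B, ?_, ?_⟩
  · intro Z hZ hle
    exact mem_SB hn hc hf0 (by rw [div_mul_cancel₀ _ hc.ne']) hZ hle
  · rintro x ⟨hx, hw0⟩
    have hsat := x.2.1
    refine mem_SB hn hc hf0 (by rw [div_mul_cancel₀ _ hc.ne']) (hsat.ne_zero hr) ?_
    by_contra hcon
    push Not at hcon
    have hemp := hwc (realF x.1.1) hw0 (fun _ => True) (f0⁻¹ * B) hcon
    have hmem := hset_subset h.isNorm_inf hf hsat B hx
    rw [hemp] at hmem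
    exact hmem

theorem finite_qSet {h : AdelicNorm N ρ.toRepData} {f0 f1 : ℝ} (hf : Tame h.ff f0 f1)
    (hr : ∀ i, 0 < r i) (hn : ∀ i, 0 < r i * N i)
    (hw : ∀ i, ρ.b i ≤ N i) (hW : 0 < Fintype.card W) (t B : ℝ) :
    (qSet Good h t B).Finite := by
  obtain ⟨c, C, hc, hC, hb⟩ := wt_cset h.isNorm_inf hr hw hW t
  obtain ⟨S, _, hS⟩ := exists_box (Good := Good) hf hr hn hc
    (fun Z hZ p Y hY => (hb Z hZ p Y).2.2 hY) B
  have hT : Set.Finite (⋃ Z ∈ S, (fun A : W → ℤ => (Z, A)) ''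
      {A | A ∈ hset Good h.inf h.ff Z B ∧ SatF Z ∧ wtt t (realF Z) ≠ 0}) := by
    refine S.finite_toSet.biUnion ?_
    intro Z _
    refine Set.Finite.image _ ?_
    by_cases hcase : SatF Z ∧ wtt t (realF Z) ≠ 0
    · refine ((hb _ hcase.2 (fun _ => True) (f0⁻¹ * B)).1).subset ?_
      rintro A ⟨hA, _⟩
      exact hset_subset h.isNorm_inf hf hcase.1 B hA
    · refine Set.Finite.subset Set.finite_empty ?_
      rintro A ⟨_, hA⟩
      exact hcase hA
  refine Set.Finite.subset (hT.preimage (f := fun x : IPair r N W => x.1)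
    (Subtype.val_injective.injOn)) ?_
  intro x hx
  simp only [mem_preimage, mem_iUnion]
  exact ⟨x.1.1, hS x hx, x.1.2, ⟨hx.1, x.2.1, hx.2⟩, rfl⟩

theorem XH_eq_sum {h : AdelicNorm N ρ.toRepData} {f0 f1 : ℝ} (hf : Tame h.ff f0 f1)
    (hr : ∀ i, 0 < r i) (hn : ∀ i, 0 < r i * N i)
    (hw : ∀ i, ρ.b i ≤ N i) (hW : 0 < Fintype.card W) (t B : ℝ)
    (hfin : (qSet Good h t B).Finite) :
    XH Good h.inf h.ff t B = ∑ x ∈ hfin.toFinset, wtt t (realF x.1.1) := by
  obtain ⟨c, C, hc, hC, hb⟩ := wt_cset h.isNorm_inf hr hw hW t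
  obtain ⟨S, hS1, hS⟩ := exists_box (Good := Good) hf hr hn hc
    (fun Z hZ p Y hY => (hb Z hZ p Y).2.2 hY) B
  rw [XH_eq h.isNorm_inf hr hf (fun Z hZ p Y hY => (hb Z hZ p Y).2.2 hY) S hS1]
  rw [← Finset.sum_fiberwise_of_maps_to (s := hfin.toFinset) (t := S.filter SatF)
    (g := fun x : IPair r N W => x.1.1) (by
      intro x hx
      exact Finset.mem_filter.2 ⟨hS x (hfin.mem_toFinset.1 hx), x.2.1⟩)]
  refine Finset.sum_congr rfl ?_
  intro Z hZ
  have hsat := (Finset.mem_filter.1 hZ).2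
  have e : ∑ x ∈ hfin.toFinset with x.1.1 = Z, wtt t (realF x.1.1) =
      ((hfin.toFinset.filter (fun x => x.1.1 = Z)).card : ℝ) * wtt t (realF Z) := by
    rw [← nsmul_eq_mul, ← Finset.sum_const]
    refine Finset.sum_congr rfl fun x hx => ?_
    rw [(Finset.mem_filter.1 hx).2]
  rw [e]
  by_cases h0 : wtt t (realF Z) = 0
  · rw [h0, zero_mul, mul_zero]
  · have hfinA : (hset Good h.inf h.ff Z B).Finite :=
      ((hb _ h0 (fun _ => True) (f0⁻¹ * B)).1).subset (hset_subset h.isNorm_inf hf hsat B)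
    have hcard : (hfin.toFinset.filter (fun x => x.1.1 = Z)).card =
        (hset Good h.inf h.ff Z B).ncard := by
      rw [Set.ncard_eq_toFinset_card _ hfinA]
      refine Finset.card_bij (fun x _ => x.1.2) ?_ ?_ ?_
      · intro x hx
        obtain ⟨a1, a2⟩ := Finset.mem_filter.1 hx
        have a3 := (hfin.mem_toFinset.1 a1).1
        rw [Set.Finite.mem_toFinset, ← a2]
        exact a3
      · intro x hx y hy hxy
        have a2 := (Finset.mem_filter.1 hx).2
        have b2 := (Finset.mem_filter.1 hy).2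
        exact Subtype.ext (Prod.ext (a2.trans b2.symm) hxy)
      · intro A hA
        rw [Set.Finite.mem_toFinset] at hA
        refine ⟨⟨(Z, A), hsat, hA.1⟩, ?_, rfl⟩
        rw [Finset.mem_filter, Set.Finite.mem_toFinset]
        exact ⟨⟨hA, h0⟩, rfl⟩
    rw [hcard, mul_comm]

section bad

variable (Red : ∀ {r N : ℕ}, (Fin r → Fin N → ℤ) → Prop)

/-- the reduced pairs that are not fully balanced -/
def badSet (Good : (W → ℚ) → Prop) (h : AdelicNorm N ρ.toRepData) (t B : ℝ) : Set (IPair r N W) :=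
  {x | x ∈ hQ Good h B ∧ (∀ i, Red (x.1.1 i)) ∧ ∃ i, bal t (realF x.1.1 i) < 1}

/-- the number of reduced pairs that are not fully balanced -/
theorem bad_bound (h : AdelicNorm N ρ.toRepData) {f0 f1 : ℝ} (hf : Tame h.ff f0 f1)
    (hcusp : CuspBound N ρ Red Good) :
    ∃ C c : ℝ, 0 < C ∧ 0 < c ∧ ∀ t : ℝ, 1 ≤ t → ∀ B : ℝ, 0 < B →
      (badSet Red Good h t B).Finite ∧
      ((badSet Red Good h t B).ncard : ℝ) ≤
        C * t ^ (-c) * B * (1 + Real.log (max 1 (C * B))) ^ k := by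
  obtain ⟨C0, c, hC0, hc, hb⟩ := hcusp h.inf h.isNorm_inf
  have hf0 : 0 < f0⁻¹ := inv_pos.2 hf.pos
  set C : ℝ := C0 * f0⁻¹ with hC
  have hCp : 0 < C := by positivity
  refine ⟨C, c, hCp, hc, ?_⟩
  intro t ht B hB
  have ht0 : 0 < t := by linarith
  have key : ∀ F : Finset (IPair r N W), (∀ x ∈ F, x ∈ badSet Red Good h t B) →
      (F.card : ℝ) ≤ C * t ^ (-c) * B * (1 + Real.log (max 1 (C * B))) ^ k := by
    intro F hF
    have h1 := hb t ht (f0⁻¹ * B) (by positivity) (F.image (fun x => x.1)) (by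
      intro y hy
      obtain ⟨x, hx, rfl⟩ := Finset.mem_image.1 hy
      obtain ⟨hxQ, hxr, hxb⟩ := hF x hx
      exact ⟨x.2.1.allFrame, hxr, x.2.2.ne_zero, hxQ.2.1,
        (hset_subset h.isNorm_inf hf x.2.1 B hxQ).2.2, hxb⟩)
    rw [Finset.card_image_of_injective _ Subtype.val_injective] at h1
    refine h1.trans (le_of_eq ?_)
    have e1 : C0 * (f0⁻¹ * B) = C * B := by rw [hC]; ring
    have e2 : C0 * t ^ (-c) * (f0⁻¹ * B) = C * t ^ (-c) * B := by rw [hC]; ring
    rw [e1, e2]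
  have hfin : (badSet Red Good h t B).Finite := by
    by_contra hinf
    have hinf : (badSet Red Good h t B).Infinite := hinf
    obtain ⟨n, hn⟩ := exists_nat_gt (C * t ^ (-c) * B * (1 + Real.log (max 1 (C * B))) ^ k)
    obtain ⟨s, hs, hs2⟩ := hinf.exists_subset_card_eq n
    have := key s (fun x hx => hs hx)
    rw [hs2] at this
    linarith
  refine ⟨hfin, ?_⟩
  rw [Set.ncard_eq_toFinset_card _ hfin]
  exact key _ (fun x hx => hfin.mem_toFinset.1 hx)

/-- comparison of the counts -/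
theorem count_compare (hG : GoodInv ρ Good)
    (hred : ∀ {r N : ℕ} (Z : Fin r → Fin N → ℤ), IsFrame Z →
      ∃ g : Matrix (Fin r) (Fin r) ℤ, IsUnit g.det ∧ Red (rowOp g Z))
    (h : AdelicNorm N ρ.toRepData) {f0 f1 : ℝ} (hf : Tame h.ff f0 f1)
    (hr : ∀ i, 0 < r i) (hn : ∀ i, 0 < r i * N i)
    (hw : ∀ i, ρ.b i ≤ N i) (hW : 0 < Fintype.card W) {t B : ℝ} (ht : 0 < t)
    (hbad : (badSet Red Good h t B).Finite) :
    (countSet Good h B).Finite ∧ XH Good h.inf h.ff t B ≤ 2 * ((countSet Good h B).ncard : ℝ) ∧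
      2 * ((countSet Good h B).ncard : ℝ) ≤
        XH Good h.inf h.ff t B + 2 * ((badSet Red Good h t B).ncard : ℝ) := by
  have hfin := finite_qSet (Good := Good) hf hr hn hw hW t B
  have hXH := XH_eq_sum hf hr hn hw hW t B hfin
  set π : IPair r N W → Pt N ρ.toRepData := fun x => pt ρ x.rep with hπ
  set F := hfin.toFinset with hF
  have hFmem : ∀ x, x ∈ F ↔ x ∈ qSet Good h t B := fun x => hfin.mem_toFinset
  -- good points
  set G : Finset (Pt N ρ.toRepData) := (F.filter (fun x => ∀ i, bal t (realF x.1.1 i) = 1)).image π with hGd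
  set Bd : Finset (Pt N ρ.toRepData) := hbad.toFinset.image π with hBd
  have hcov : countSet Good h B ⊆ ((G ∪ Bd : Finset (Pt N ρ.toRepData)) : Set (Pt N ρ.toRepData)) := by
    intro P hP
    rw [countSet_eq hG] at hP
    obtain ⟨x, hx, rfl⟩ := hP
    have hex : ∀ i, ∃ g : Matrix (Fin (r i)) (Fin (r i)) ℤ, IsUnit g.det ∧
        Red (rowOp g (x.1.1 i)) := fun i => hred (x.1.1 i) (x.2.1 i).isFrame
    choose g hg hgr using hex
    set y := x.act ρ g hg true with hy
    have e : pt ρ y.rep = pt ρ x.rep := pt_act x g hg true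
    have hyQ : y ∈ hQ Good h B := (hQ_congr hG e).2 hx
    rw [Finset.mem_coe, Finset.mem_union]
    by_cases hb : ∀ i, bal t (realF y.1.1 i) = 1
    · left
      rw [hGd, Finset.mem_image]
      refine ⟨y, Finset.mem_filter.2 ⟨(hFmem y).2 ⟨hyQ, ?_⟩, hb⟩, e⟩
      rw [wtt]
      refine Finset.prod_ne_zero_iff.2 fun i _ => ?_
      rw [wt, hb i]
      exact (div_pos one_pos (lt_of_lt_of_le one_pos (le_max_left _ _))).ne'
    · right
      push Not at hb
      obtain ⟨i, hi⟩ := hb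
      rw [hBd, Finset.mem_image]
      exact ⟨y, hbad.mem_toFinset.2 ⟨hyQ, hgr, i, lt_of_le_of_ne (bal_le_one _ _) hi⟩, e⟩
  have hcfin : (countSet Good h B).Finite := (Finset.finite_toSet _).subset hcov
  refine ⟨hcfin, ?_, ?_⟩
  · -- upper bound for the weighted count
    rw [hXH]
    rw [← Finset.sum_fiberwise_of_maps_to (s := F) (t := F.image π) (g := π)
      (fun x hx => Finset.mem_image_of_mem _ hx)]
    have h1 : ∀ P ∈ F.image π, ∑ x ∈ F with π x = P, wtt t (realF x.1.1) ≤ 2 :=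
      fun P _ => fib_upper hr ht F P
    refine (Finset.sum_le_sum h1).trans ?_
    rw [Finset.sum_const, nsmul_eq_mul, mul_comm]
    apply mul_le_mul_of_nonneg_left _ zero_le_two
    have h2 : ((F.image π : Finset (Pt N ρ.toRepData)) : Set (Pt N ρ.toRepData)) ⊆ countSet Good h B := by
      intro P hP
      obtain ⟨x, hx, rfl⟩ := Finset.mem_image.1 (Finset.mem_coe.1 hP)
      rw [countSet_eq hG]
      exact ⟨x, ((hFmem x).1 hx).1, rfl⟩
    have h3 := Set.ncard_le_ncard h2 hcfin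
    rw [Set.ncard_coe_finset] at h3
    exact_mod_cast h3
  · -- lower bound for the weighted count
    have h1 : (2:ℝ) * G.card ≤ XH Good h.inf h.ff t B := by
      rw [hXH]
      have h2 : ∑ P ∈ G, (2:ℝ) ≤ ∑ P ∈ G, ∑ x ∈ F with π x = P, wtt t (realF x.1.1) := by
        refine Finset.sum_le_sum ?_
        intro P hP
        obtain ⟨x0, hx0, rfl⟩ := Finset.mem_image.1 hP
        obtain ⟨a1, a2⟩ := Finset.mem_filter.1 hx0
        refine fib_lower hr ht F x0 a2 ?_
        intro x hx hwx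
        exact (hFmem x).2 ⟨(hQ_congr hG hx).2 ((hFmem x0).1 a1).1, hwx⟩
      rw [Finset.sum_const, nsmul_eq_mul] at h2
      have h3 : ∑ P ∈ G, ∑ x ∈ F with π x = P, wtt t (realF x.1.1) ≤
          ∑ P ∈ F.image π, ∑ x ∈ F with π x = P, wtt t (realF x.1.1) := by
        refine Finset.sum_le_sum_of_subset_of_nonneg ?_ ?_
        · exact Finset.image_subset_image (Finset.filter_subset _ _)
        · intro P _ _
          exact Finset.sum_nonneg fun _ _ => wtt_nonneg _ _
      rw [Finset.sum_fiberwise_of_maps_to (s := F) (t := F.image π) (g := π)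
        (fun x hx => Finset.mem_image_of_mem _ hx)] at h3
      linarith
    have h4 := Set.ncard_le_ncard hcov (Finset.finite_toSet _)
    rw [Set.ncard_coe_finset] at h4
    have h5 := h4.trans (Finset.card_union_le G Bd)
    have h6 : Bd.card ≤ (badSet Red Good h t B).ncard := by
      rw [Set.ncard_eq_toFinset_card _ hbad]
      exact Finset.card_image_le
    have h7 : ((countSet Good h B).ncard : ℝ) ≤ G.card + (badSet Red Good h t B).ncard := by
      exact_mod_cast h5.trans (Nat.add_le_add_left h6 _)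
    linarith

end bad

end Pool.Agent.Lib.MP_1acd66_nt.Gen
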