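import Mathlib

/-!
Cusp inequalities for the determinantal families (general rank): if `x i + y (σ i) ≤ s` for a
permutation `σ`, the entries `(i, j)` with `x i + y j > s` cost at most half of the gain coming
from the count of unbalanced reduced frames.
-/

namespace Pool.Agent.Lib.MP_1acd66_nt.Gen

open Finset

/-- The sum of `|x i - x j|` over the pairs `i < j`. -/
noncomputable def spread {k : ℕ} (x : Fin k → ℝ) : ℝ := ∑ i, ∑ j, max 0 (x i - x j)

theorem spread_nonneg {k : ℕ} (x : Fin k → ℝ) : 0 ≤ spread x :=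
  sum_nonneg fun _ _ => sum_nonneg fun _ _ => le_max_left _ _

theorem cusp_pair {a b u v : ℝ} {s w : ℝ} (h1 : w ≤ a - u) (h2 : w ≤ b - v) :
    max 0 w ≤ (max 0 (a - u) + max 0 (b - v)) / 2 := by
  rcases le_total w 0 with h | h
  · rw [max_eq_left h]
    have := le_max_left 0 (a - u)
    have := le_max_left 0 (b - v)
    linarith
  · rw [max_eq_right h]
    have := le_max_right 0 (a - u)
    have := le_max_right 0 (b - v)
    linarith

/-- all matrices -/
theorem cusp_gen {k : ℕ} (x y : Fin k → ℝ) (s : ℝ) (σ : Equiv.Perm (Fin k))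
    (h : ∀ i, x i + y (σ i) ≤ s) :
    ∑ i, ∑ j, max 0 (x i + y j - s) ≤ (spread x + spread y) / 2 := by
  have h1 : ∀ i j, max 0 (x i + y j - s) ≤
      (max 0 (x i - x (σ.symm j)) + max 0 (y j - y (σ i))) / 2 := by
    intro i j
    refine cusp_pair (s := s) ?_ ?_
    · have := h (σ.symm j)
      rw [Equiv.apply_symm_apply] at this
      linarith
    · have := h i
      linarith
  calc ∑ i, ∑ j, max 0 (x i + y j - s)
      ≤ ∑ i, ∑ j, (max 0 (x i - x (σ.symm j)) + max 0 (y j - y (σ i))) / 2 :=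
        sum_le_sum fun i _ => sum_le_sum fun j _ => h1 i j
    _ = (∑ i, ∑ j, max 0 (x i - x (σ.symm j)) + ∑ i, ∑ j, max 0 (y j - y (σ i))) / 2 := by
        rw [← sum_add_distrib, sum_div]
        refine sum_congr rfl fun i _ => ?_
        rw [← sum_add_distrib, sum_div]
    _ = (spread x + spread y) / 2 := by
        congr 2
        · refine sum_congr rfl fun i _ => ?_
          exact Equiv.sum_comp σ.symm (fun j => max 0 (x i - x j))
        · rw [sum_comm, spread]
          refine sum_congr rfl fun j _ => ?_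
          exact Equiv.sum_comp σ (fun i => max 0 (y j - y i))

/-- a permutation moves little compared with the spread -/
theorem perm_shift {k : ℕ} (x : Fin k → ℝ) (σ : Equiv.Perm (Fin k)) :
    (k : ℝ) * ∑ i, max 0 (x i - x (σ i)) ≤ 2 * spread x := by
  have h1 : ∀ i j, max 0 (x i - x (σ i)) ≤ max 0 (x i - x j) + max 0 (x j - x (σ i)) := by
    intro i j
    refine max_le ?_ ?_
    · have := le_max_left 0 (x i - x j)
      have := le_max_left 0 (x j - x (σ i))
      linarith
    · have := le_max_right 0 (x i - x j)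
      have := le_max_right 0 (x j - x (σ i))
      linarith
  have h2 : ∑ i, ∑ _j : Fin k, max 0 (x i - x (σ i)) ≤
      ∑ i, ∑ j, (max 0 (x i - x j) + max 0 (x j - x (σ i))) :=
    sum_le_sum fun i _ => sum_le_sum fun j _ => h1 i j
  have h3 : ∑ i, ∑ _j : Fin k, max 0 (x i - x (σ i)) = (k : ℝ) * ∑ i, max 0 (x i - x (σ i)) := by
    rw [mul_sum]
    refine sum_congr rfl fun i _ => ?_
    rw [sum_const, card_univ, Fintype.card_fin, nsmul_eq_mul]
  have h4 : ∑ i, ∑ j, (max 0 (x i - x j) + max 0 (x j - x (σ i))) = 2 * spread x := by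
    have e1 : ∑ i, ∑ j, (max 0 (x i - x j) + max 0 (x j - x (σ i))) =
        spread x + ∑ i, ∑ j, max 0 (x j - x (σ i)) := by
      rw [spread, ← sum_add_distrib]
      refine sum_congr rfl fun i _ => ?_
      rw [sum_add_distrib]
    rw [e1, sum_comm]
    have e2 : ∑ j, ∑ i, max 0 (x j - x (σ i)) = spread x := by
      rw [spread]
      refine sum_congr rfl fun j _ => ?_
      exact Equiv.sum_comp σ (fun i => max 0 (x j - x i))
    rw [e2]; ring
  rw [← h3, ← h4]; exact h2

/-- symmetric matrices of size at least three -/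
theorem cusp_sym {k : ℕ} (hk : 3 ≤ k) (x : Fin k → ℝ) (s : ℝ) (σ : Equiv.Perm (Fin k))
    (h : ∀ i, x i + x (σ i) ≤ s) :
    (∑ i, ∑ j, max 0 (x i + x j - s) + ∑ i, max 0 (2 * x i - s)) / 2 ≤ 5 / 6 * spread x := by
  have h1 := cusp_gen x x s σ h
  have h2 := perm_shift x σ
  have h3 : ∑ i, max 0 (2 * x i - s) ≤ ∑ i, max 0 (x i - x (σ i)) := by
    refine sum_le_sum fun i _ => max_le_max le_rfl ?_
    have := h i
    linarith
  have h4 : 0 ≤ ∑ i, max 0 (x i - x (σ i)) := sum_nonneg fun _ _ => le_max_left _ _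
  have h5 : (3 : ℝ) ≤ k := by exact_mod_cast hk
  have h6 : 3 * ∑ i, max 0 (x i - x (σ i)) ≤ 2 * spread x :=
    (mul_le_mul_of_nonneg_right h5 h4).trans h2
  linarith

/-- alternating matrices -/
theorem cusp_alt {k : ℕ} (x : Fin k → ℝ) (s : ℝ) (σ : Equiv.Perm (Fin k))
    (h : ∀ i, x i + x (σ i) ≤ s) :
    (∑ i, ∑ j, max 0 (x i + x j - s)) / 2 ≤ 1 / 2 * spread x := by
  have h1 := cusp_gen x x s σ h
  linarith

end Pool.Agent.Lib.MP_1acd66_nt.Gen
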