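import Pool.Agent.Lib.MP_1acd66_nt.Gen.SpreadSum

/-!
Counting integral vectors in a triangular system, and the support lemma for nonsingular matrices.
-/

namespace Pool.Agent.Lib.MP_1acd66_nt.Gen

open Finset

/-- `U` is unipotent and increases the height `ht`. -/
structure UniTri {W : Type} (ht : W → ℕ) (U : W → W → ℝ) : Prop where
  diag : ∀ w, U w w = 1
  tri : ∀ w w', w' ≠ w → ht w' ≤ ht w → U w w' = 0

theorem wf_ht {W : Type} [Finite W] (ht : W → ℕ) : WellFounded (fun w' w : W => ht w < ht w') := by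
  have : IsTrans W (fun w' w : W => ht w < ht w') := ⟨fun a b c h1 h2 => lt_trans h2 h1⟩
  have : Std.Irrefl (fun w' w : W => ht w < ht w') := ⟨fun a h => lt_irrefl _ h⟩
  exact Finite.wellFounded_of_trans_of_irrefl _

theorem UniTri.floor_inj {W : Type} [Fintype W] {ht : W → ℕ} {U : W → W → ℝ}
    (hU : UniTri ht U) {A A' : W → ℤ}
    (h : ∀ w, ⌊∑ w', U w w' * (A w' : ℝ)⌋ = ⌊∑ w', U w w' * (A' w' : ℝ)⌋) : A = A' := by
  classical
  funext w
  induction w using (wf_ht ht).induction with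
  | _ w ih =>
    have h1 : ∑ w', U w w' * (A w' : ℝ) - ∑ w', U w w' * (A' w' : ℝ) = ((A w - A' w : ℤ) : ℝ) := by
      rw [← sum_sub_distrib, ← add_sum_erase univ _ (mem_univ w)]
      have h2 : ∑ w' ∈ univ.erase w, (U w w' * (A w' : ℝ) - U w w' * (A' w' : ℝ)) = 0 := by
        refine sum_eq_zero fun w' hw' => ?_
        rcases lt_or_ge (ht w) (ht w') with h3 | h3
        · rw [ih w' h3]; ring
        · rw [hU.tri w w' (ne_of_mem_erase hw') h3]; ring
      rw [h2, hU.diag]; push_cast; ring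
    have h3 := Int.abs_sub_lt_one_of_floor_eq_floor (h w)
    rw [h1, ← Int.cast_abs] at h3
    have h4 : |A w - A' w| < 1 := by exact_mod_cast h3
    have h5 := Int.abs_lt_one_iff.1 h4
    omega

/-- counting integral vectors with bounded triangular coordinates -/
theorem UniTri.card_le {W : Type} [Fintype W] {ht : W → ℕ} {U : W → W → ℝ}
    (hU : UniTri ht U) {ρ : W → ℝ} (hρ : ∀ w, 0 ≤ ρ w) (S : Finset (W → ℤ))
    (hS : ∀ A ∈ S, ∀ w, |∑ w', U w w' * (A w' : ℝ)| ≤ ρ w) :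
    (S.card : ℝ) ≤ ∏ w, (4 * max 1 (ρ w)) := by
  classical
  set φ : (W → ℤ) → (W → ℤ) := fun A w => ⌊∑ w', U w w' * (A w' : ℝ)⌋ with hφ
  have hinj : Function.Injective φ := by
    intro A A' h
    exact hU.floor_inj fun w => congrFun h w
  have hsub : S.image φ ⊆ Fintype.piFinset (fun w => Icc (⌊-(ρ w)⌋) ⌊ρ w⌋) := by
    intro y hy
    obtain ⟨A, hA, rfl⟩ := mem_image.1 hy
    rw [Fintype.mem_piFinset]
    intro w
    rw [mem_Icc]
    have h1 := abs_le.1 (hS A hA w)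
    exact ⟨Int.floor_le_floor h1.1, Int.floor_le_floor h1.2⟩
  have h1 : S.card ≤ ∏ w, (Icc (⌊-(ρ w)⌋) ⌊ρ w⌋).card := by
    rw [← card_image_of_injective S hinj, ← Fintype.card_piFinset]
    exact card_le_card hsub
  calc (S.card : ℝ) ≤ ((∏ w, (Icc (⌊-(ρ w)⌋) ⌊ρ w⌋).card : ℕ) : ℝ) := by exact_mod_cast h1
    _ = ∏ w, ((Icc (⌊-(ρ w)⌋) ⌊ρ w⌋).card : ℝ) := by push_cast; rfl
    _ ≤ ∏ w, (4 * max 1 (ρ w)) := by
        refine prod_le_prod (fun w _ => Nat.cast_nonneg _) fun w _ => ?_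
        rw [Int.card_Icc]
        have h2 : ⌊-(ρ w)⌋ ≤ 0 := by
          have := Int.floor_le (-(ρ w))
          have h3 : ((⌊-(ρ w)⌋ : ℤ) : ℝ) ≤ 0 := by linarith [hρ w]
          exact_mod_cast h3
        have h3 : 0 ≤ ⌊ρ w⌋ := Int.floor_nonneg.2 (hρ w)
        have h4 : (((⌊ρ w⌋ + 1 - ⌊-(ρ w)⌋).toNat : ℕ) : ℝ) = ((⌊ρ w⌋ + 1 - ⌊-(ρ w)⌋ : ℤ) : ℝ) := by
          have h5 : (((⌊ρ w⌋ + 1 - ⌊-(ρ w)⌋).toNat : ℕ) : ℤ) = ⌊ρ w⌋ + 1 - ⌊-(ρ w)⌋ :=
            Int.toNat_of_nonneg (by omega)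
          exact_mod_cast h5
        rw [h4]; push_cast
        have h6 := Int.floor_le (ρ w)
        have h7 := Int.lt_floor_add_one (-(ρ w))
        have h8 := le_max_left 1 (ρ w)
        have h9 := le_max_right 1 (ρ w)
        linarith

/-- A nonsingular matrix has a nonzero entry in each row along some permutation. -/
theorem exists_perm_ne_zero {k : ℕ} {R : Type*} [CommRing R] {A : Matrix (Fin k) (Fin k) R}
    (hA : A.det ≠ 0) : ∃ σ : Equiv.Perm (Fin k), ∀ i, A i (σ i) ≠ 0 := by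
  by_contra h
  push Not at h
  apply hA
  rw [← Matrix.det_transpose, Matrix.det_apply]
  refine sum_eq_zero fun σ _ => ?_
  obtain ⟨i, hi⟩ := h σ
  rw [prod_eq_zero (mem_univ i), smul_zero]
  rw [Matrix.transpose_apply]
  exact hi

/-- Support lemma. The coordinates `Y j j'` are `l j * m j' * (A j j' + later entries)`. -/
theorem support_entry {k : ℕ} {A : Matrix (Fin k) (Fin k) ℤ} {U V : Fin k → Fin k → ℝ}
    {l m : Fin k → ℝ} {R c : ℝ} (hc : 0 ≤ c)
    (hU : ∀ j, U j j = 1) (hU' : ∀ j i, i < j → U j i = 0)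
    (hV : ∀ j, V j j = 1) (hV' : ∀ j i, i < j → V j i = 0)
    (hl : ∀ j, 0 < l j) (hm : ∀ j, 0 < m j)
    (hl' : ∀ j i, j ≤ i → l j ≤ c * l i) (hm' : ∀ j i, j ≤ i → m j ≤ c * m i)
    (hY : ∀ j j', |l j * m j' * ∑ i, ∑ i', U j i * V j' i' * (A i i' : ℝ)| ≤ R)
    {i i' : Fin k} (hA : A i i' ≠ 0) : l i * m i' ≤ c ^ 2 * R := by
  classical
  set P : Finset (Fin k × Fin k) := univ.filter (fun p => i ≤ p.1 ∧ i' ≤ p.2 ∧ A p.1 p.2 ≠ 0)
    with hP
  have hPne : P.Nonempty := ⟨(i, i'), by rw [hP, mem_filter]; exact ⟨mem_univ _, le_rfl, le_rfl, hA⟩⟩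
  obtain ⟨⟨a, b⟩, hab, hmax⟩ := exists_max_image P (fun p => (p.1 : ℕ) + (p.2 : ℕ)) hPne
  rw [hP, mem_filter] at hab
  obtain ⟨_, hia, hib, hAab⟩ := hab
  simp only at hia hib hAab
  have hsum : ∑ x, ∑ x', U a x * V b x' * (A x x' : ℝ) = (A a b : ℝ) := by
    rw [sum_eq_single a, sum_eq_single b]
    · rw [hU, hV]; ring
    · intro x' _ hx'
      rcases lt_or_gt_of_ne hx' with h | h
      · rw [hV' b x' h]; ring
      · have : A a x' = 0 := by
          by_contra hne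
          have := hmax (a, x') (by rw [hP, mem_filter]; exact ⟨mem_univ _, hia, hib.trans h.le, hne⟩)
          simp only at this
          have h' : (b : ℕ) < (x' : ℕ) := h
          omega
        rw [this]; simp
    · intro h; exact absurd (mem_univ _) h
    · intro x _ hx
      refine sum_eq_zero fun x' _ => ?_
      rcases lt_or_gt_of_ne hx with h | h
      · rw [hU' a x h]; ring
      · rcases lt_or_ge x' b with h2 | h2
        · rw [hV' b x' h2]; ring
        · have : A x x' = 0 := by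
            by_contra hne
            have := hmax (x, x') (by
              rw [hP, mem_filter]; exact ⟨mem_univ _, hia.trans h.le, hib.trans h2, hne⟩)
            simp only at this
            have h' : (a : ℕ) < (x : ℕ) := h
            have h'' : (b : ℕ) ≤ (x' : ℕ) := h2
            omega
          rw [this]; simp
    · intro h; exact absurd (mem_univ _) h
  have h1 := hY a b
  rw [hsum, abs_mul, abs_of_pos (mul_pos (hl a) (hm b))] at h1
  have h2 : (1 : ℝ) ≤ |(A a b : ℝ)| := by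
    have : (1 : ℤ) ≤ |A a b| := Int.one_le_abs hAab
    exact_mod_cast this
  have h3 : l a * m b ≤ R := by
    have h4 : l a * m b * 1 ≤ l a * m b * |(A a b : ℝ)| :=
      mul_le_mul_of_nonneg_left h2 (mul_pos (hl a) (hm b)).le
    linarith
  calc l i * m i' ≤ (c * l a) * (c * m b) :=
        mul_le_mul (hl' _ _ hia) (hm' _ _ hib) (hm _).le (mul_nonneg hc (hl _).le)
    _ = c ^ 2 * (l a * m b) := by ring
    _ ≤ c ^ 2 * R := mul_le_mul_of_nonneg_left h3 (sq_nonneg _)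

/-- Support lemma for nonsingular matrices. -/
theorem support_perm {k : ℕ} {A : Matrix (Fin k) (Fin k) ℤ} (hA : A.det ≠ 0)
    {U V : Fin k → Fin k → ℝ} {l m : Fin k → ℝ} {R c : ℝ} (hc : 0 ≤ c)
    (hU : ∀ j, U j j = 1) (hU' : ∀ j i, i < j → U j i = 0)
    (hV : ∀ j, V j j = 1) (hV' : ∀ j i, i < j → V j i = 0)
    (hl : ∀ j, 0 < l j) (hm : ∀ j, 0 < m j)
    (hl' : ∀ j i, j ≤ i → l j ≤ c * l i) (hm' : ∀ j i, j ≤ i → m j ≤ c * m i)
    (hY : ∀ j j', |l j * m j' * ∑ i, ∑ i', U j i * V j' i' * (A i i' : ℝ)| ≤ R) :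
    ∃ σ : Equiv.Perm (Fin k), ∀ i, l i * m (σ i) ≤ c ^ 2 * R := by
  obtain ⟨σ, hσ⟩ := exists_perm_ne_zero hA
  exact ⟨σ, fun i => support_entry hc hU hU' hV hV' hl hm hl' hm' hY (hσ i)⟩

end Pool.Agent.Lib.MP_1acd66_nt.Gen
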