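import Pool.Agent.Lib.MP_1acd66_nt.Gen.Ortho
import Pool.Agent.Lib.MP_1acd66_nt.Gen.Tri

/-!
The cusp bound from an interface on reduced frames and an exponent inequality for the good
vectors.
-/

namespace Pool.Agent.Lib.MP_1acd66_nt.Gen

open Finset

/-- What is needed about reduced integral frames; `gsl Z a` is the Gram-Schmidt length of the
row `a`. -/
structure RedAPI (Red : ∀ {r N : ℕ}, (Fin r → Fin N → ℤ) → Prop)
    (gsl : ∀ {r N : ℕ}, (Fin r → Fin N → ℤ) → Fin r → ℝ) : Prop where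
  decomp : ∀ {r N : ℕ} (Z : Fin r → Fin N → ℤ), IsFrame Z → Red Z →
    ∃ (T : Matrix (Fin r) (Fin r) ℝ) (Q : Fin r → Fin N → ℝ),
      (∀ a b, dot (Q a) (Q b) = if a = b then 1 else 0) ∧
      (fun a j => (Z a j : ℝ)) = rowOp T Q ∧
      (∀ a, T a a = gsl Z a) ∧ (∀ a b, a < b → T a b = 0) ∧
      (∀ a b, b < a → |T a b| ≤ gsl Z b)
  mono : ∀ r : ℕ, ∃ c : ℝ, 1 ≤ c ∧ ∀ (N : ℕ) (Z : Fin r → Fin N → ℤ), IsFrame Z → Red Z →
    ∀ a b, a ≤ b → gsl Z a ≤ c * gsl Z b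
  pos : ∀ {r N : ℕ} (Z : Fin r → Fin N → ℤ), IsFrame Z → ∀ a, 0 < gsl Z a
  one_le : ∀ {r N : ℕ} (Z : Fin r → Fin N → ℤ), IsFrame Z → ∀ a : Fin r, (a : ℕ) = 0 →
    1 ≤ gsl Z a
  count : ∀ r N : ℕ, ∃ C : ℝ, 0 < C ∧ ∀ (L : Fin r → ℝ), (∀ a, 0 < L a) →
    ∀ S : Finset (Fin r → Fin N → ℤ),
      (∀ Z ∈ S, IsFrame Z ∧ Red Z ∧ ∀ a, L a ≤ gsl Z a ∧ gsl Z a ≤ 3 * L a) →
      (S.card : ℝ) ≤ C * (∏ a, L a) ^ N * Real.exp (-spread (fun a => Real.log (L a)))

variable {k : ℕ} {r N : Fin k → ℕ} {W : Type} [Fintype W]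

/-- Unipotent lower triangular families with entries bounded by one. -/
def UniLower (μ : Grp ℝ r) : Prop :=
  (∀ i a, μ i a a = 1) ∧ (∀ i a b, a < b → μ i a b = 0) ∧ ∀ i a b, |μ i a b| ≤ 1

/-- the monomial of a weight -/
noncomputable def mono (ρ : FRep r W) (l : ∀ i, Fin (r i) → ℝ) (w : W) : ℝ :=
  ∏ i, ∏ a, l i a ^ ρ.wt w i a

/-- The data on a representation and a set of good vectors from which the cusp bound follows. -/
structure CuspData (ρ : FRep r W) (Good : (W → ℚ) → Prop) : Prop where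
  deg_pos : ∀ i, 0 < ρ.deg i
  tri : ∃ ht : W → ℕ, ∀ μ : Grp ℝ r, UniLower μ → ∃ U : W → W → ℝ, UniTri ht U ∧
    ∀ (A : W → ℝ) w, ρ.pull ℝ μ A w = ∑ w', U w w' * A w'
  cusp : ∃ θ : ℝ, θ < 1 ∧ ∀ c : ℝ, 1 ≤ c → ∃ C : ℝ, ∀ (μ : Grp ℝ r), UniLower μ →
    ∀ l : ∀ i, Fin (r i) → ℝ, (∀ i a, 0 < l i a) → (∀ i a b, a ≤ b → l i a ≤ c * l i b) →
    ∀ R : ℝ, 0 < R → ∀ A : W → ℤ, Good (ratW A) →
      (∀ w, |mono ρ l w * ρ.pull ℝ μ (realW A) w| ≤ R) →
      ∑ w, max 0 (Real.log (mono ρ l w) - Real.log R) ≤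
        θ * ∑ i, spread (fun a => Real.log (l i a)) + C

theorem mono_pos (ρ : FRep r W) {l : ∀ i, Fin (r i) → ℝ} (hl : ∀ i a, 0 < l i a) (w : W) :
    0 < mono ρ l w := prod_pos fun i _ => prod_pos fun a _ => pow_pos (hl i a) _

theorem prod_mono (ρ : FRep r W) (l : ∀ i, Fin (r i) → ℝ) :
    ∏ w, mono ρ l w = ∏ i, (∏ a, l i a) ^ ρ.b i := by
  unfold mono
  rw [prod_comm]
  refine prod_congr rfl fun i _ => ?_
  rw [prod_comm, ← prod_pow]
  refine prod_congr rfl fun a _ => ?_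
  rw [prod_pow_eq_pow_sum, ρ.wt_total i a]

/-- the monomials are bounded below -/
theorem mono_ge (ρ : FRep r W) {c : ℝ} (hc : 1 ≤ c) {l : ∀ i, Fin (r i) → ℝ}
    (hl : ∀ i a, 0 < l i a) (i0 : ∀ i, Fin (r i)) (h : ∀ i a, l i (i0 i) ≤ c * l i a) (w : W) :
    ∏ i, (l i (i0 i) / c) ^ ρ.deg i ≤ mono ρ l w := by
  unfold mono
  refine prod_le_prod (fun i _ => ?_) fun i _ => ?_
  · have := hl i (i0 i)
    positivity
  · rw [← ρ.wt_sum w i, ← prod_pow_eq_pow_sum]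
    refine prod_le_prod (fun a _ => ?_) fun a _ => ?_
    · have := hl i (i0 i)
      positivity
    · refine pow_le_pow_left₀ ?_ ?_ _
      · have := hl i (i0 i)
        positivity
      · rw [div_le_iff₀ (by linarith)]
        have := h i a
        linarith

theorem pull_ne_zero_of_det (ρ : FRep r W) {g : Grp ℝ r} (hg : ∀ i, (g i).det ≠ 0) {A : W → ℝ}
    (hA : A ≠ 0) : ρ.pull ℝ g A ≠ 0 := by
  intro h
  apply hA
  have h1 : g * (fun i => (g i)⁻¹) = 1 := by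
    funext i
    exact Matrix.mul_nonsing_inv _ (isUnit_iff_ne_zero.2 (hg i))
  have h2 := ρ.pull_mul ℝ g (fun i => (g i)⁻¹) A
  rw [h1, ρ.pull_one, h] at h2
  rw [← h2]
  have h3 := ρ.pull_smul ℝ (fun i => (g i)⁻¹) 0 0
  rw [zero_smul, zero_smul] at h3
  exact h3

variable {Red : ∀ {r N : ℕ}, (Fin r → Fin N → ℤ) → Prop}
  {gsl : ∀ {r N : ℕ}, (Fin r → Fin N → ℤ) → Fin r → ℝ}

/-- Lower bound of a local norm in a reduced frame. -/
theorem per_frame (hapi : RedAPI Red gsl) {ρ : FRep r W} {M : Frm ℝ r N → (W → ℝ) → ℝ}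
    (hM : IsLocalNorm ℝ N ρ M) : ∃ c0 : ℝ, 0 < c0 ∧ ∀ Z : Frm ℤ r N, AllFrame Z →
      (∀ i, Red (Z i)) → ∃ μ : Grp ℝ r, UniLower μ ∧ ∀ A : W → ℝ, A ≠ 0 → ∃ R : ℝ, 0 < R ∧
        (∀ w, |mono ρ (fun i => gsl (Z i)) w * ρ.pull ℝ μ A w| ≤ R) ∧
        c0 * (∏ i, (∏ a, gsl (Z i) a) ^ (N i - ρ.b i)) * R ^ Fintype.card W ≤
          M (realF Z) A := by
  obtain ⟨c0, hc0, hlow⟩ := hM.ortho_lower
  refine ⟨c0, hc0, ?_⟩
  intro Z hZ hred
  choose T Q hQ hZQ hTd hTu hTl using fun i => hapi.decomp (Z i) (hZ i) (hred i)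
  have hl : ∀ i a, 0 < gsl (Z i) a := fun i a => hapi.pos (Z i) (hZ i) a
  set l : ∀ i, Fin (r i) → ℝ := fun i => gsl (Z i) with hldef
  set μ : Grp ℝ r := fun i => Matrix.of fun a b => T i a b / l i b with hμ
  have hμd : (fun i => μ i * Matrix.diagonal (l i)) = T := by
    funext i
    ext a b
    rw [Matrix.mul_diagonal, hμ]
    simp only [Matrix.of_apply]
    rw [div_mul_cancel₀ _ (hl i b).ne']
  refine ⟨μ, ⟨?_, ?_, ?_⟩, ?_⟩
  · intro i a
    change T i a a / l i a = 1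
    rw [hTd i a]
    exact div_self (hl i a).ne'
  · intro i a b hab
    change T i a b / l i b = 0
    rw [hTu i a b hab, zero_div]
  · intro i a b
    change |T i a b / l i b| ≤ 1
    rw [abs_div, abs_of_pos (hl i b), div_le_one (hl i b)]
    rcases lt_trichotomy a b with h | h | h
    · rw [hTu i a b h, abs_zero]; exact (hl i b).le
    · subst h
      rw [hTd i a, abs_of_pos (hl i a)]
    · exact hTl i a b h
  · intro A hA
    have hdet : ∀ i, (T i).det = ∏ a, l i a := by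
      intro i
      rw [Matrix.det_of_isLowerTriangular]
      · exact prod_congr rfl fun a _ => hTd i a
      · intro a b hab
        exact hTu i a b hab
    have hdet0 : ∀ i, (T i).det ≠ 0 := by
      intro i
      rw [hdet i]
      exact (prod_pos fun a _ => hl i a).ne'
    have hne := pull_ne_zero_of_det ρ hdet0 hA
    refine ⟨‖ρ.pull ℝ T A‖, norm_pos_iff.2 hne, ?_, ?_⟩
    · intro w
      have h1 : mono ρ l w * ρ.pull ℝ μ A w = ρ.pull ℝ T A w := by
        rw [← hμd]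
        have h2 := ρ.pull_mul ℝ μ (fun i => Matrix.diagonal (l i)) A
        have h3 : (μ * fun i => Matrix.diagonal (l i)) = fun i => μ i * Matrix.diagonal (l i) := rfl
        rw [h3] at h2
        rw [← h2, ρ.pull_diag]
        rfl
      rw [h1, ← Real.norm_eq_abs]
      exact norm_le_pi_norm _ w
    · have h1 : realF Z = act T Q := by
        funext i
        exact hZQ i
      have hQo : ∀ i, Orthonormal' (Q i) := hQ
      rw [h1, hM.frame Q A (fun i => (hQo i).isFrame) hA T hdet0]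
      have h2 := hlow Q (ρ.pull ℝ T A) hQo hne
      have h3 : ∏ i, ‖(T i).det‖ ^ (N i - ρ.b i) = ∏ i, (∏ a, l i a) ^ (N i - ρ.b i) := by
        refine prod_congr rfl fun i _ => ?_
        rw [hdet i, Real.norm_eq_abs, abs_of_pos (prod_pos fun a _ => hl i a)]
      rw [h3]
      have h4 : 0 ≤ ∏ i, (∏ a, l i a) ^ (N i - ρ.b i) :=
        prod_nonneg fun i _ => pow_nonneg (prod_nonneg fun a _ => (hl i a).le) _
      calc c0 * (∏ i, (∏ a, l i a) ^ (N i - ρ.b i)) * ‖ρ.pull ℝ T A‖ ^ Fintype.card W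
          = (∏ i, (∏ a, l i a) ^ (N i - ρ.b i)) * (c0 * ‖ρ.pull ℝ T A‖ ^ Fintype.card W) := by ring
        _ ≤ _ := mul_le_mul_of_nonneg_left h2 h4

/-- the product of the pieces `4 max(1, R / x)` -/
theorem prod_four_max {D : ℕ} (hD : D = Fintype.card W) {R : ℝ} (hR : 0 < R) {x : W → ℝ}
    (hx : ∀ w, 0 < x w) :
    ∏ w, (4 * max 1 (R / x w)) = 4 ^ D * (R ^ D / ∏ w, x w) *
      Real.exp (∑ w, max 0 (Real.log (x w) - Real.log R)) := by
  have h1 : ∀ w, 4 * max 1 (R / x w) =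
      4 * (R / x w) * Real.exp (max 0 (Real.log (x w) - Real.log R)) := by
    intro w
    have hxw := hx w
    have h2 : Real.exp (max 0 (Real.log (x w) - Real.log R)) = max 1 (x w / R) := by
      rw [Real.exp_monotone.map_max, Real.exp_zero, ← Real.log_div hxw.ne' hR.ne',
        Real.exp_log (div_pos hxw hR)]
    rw [h2, mul_assoc, mul_max_of_nonneg _ _ (div_pos hR hxw).le, mul_one,
      div_mul_div_comm, mul_comm R (x w), div_self (mul_pos hxw hR).ne', max_comm]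
  rw [prod_congr rfl fun w _ => h1 w, prod_mul_distrib, prod_mul_distrib, ← Real.exp_sum,
    prod_const, prod_div_distrib, prod_const, card_univ, ← hD]

/-- The number of good vectors over one reduced frame. -/
theorem count_over_frame (hapi : RedAPI Red gsl) {ρ : FRep r W} {Good : (W → ℚ) → Prop}
    (hd : CuspData ρ Good) [Nonempty W] (hb : ∀ i, ρ.b i ≤ N i)
    {M : Frm ℝ r N → (W → ℝ) → ℝ} (hM : IsLocalNorm ℝ N ρ M) :
    ∃ C θ : ℝ, 0 < C ∧ θ < 1 ∧ ∀ B : ℝ, 0 < B → ∀ Z : Frm ℤ r N, AllFrame Z → (∀ i, Red (Z i)) →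
      ∀ S : Finset (W → ℤ), (∀ A ∈ S, A ≠ 0 ∧ Good (ratW A) ∧ M (realF Z) (realW A) ≤ B) →
        (S.card : ℝ) ≤ C * B * (∏ i, ((∏ a, gsl (Z i) a) ^ N i)⁻¹) *
          Real.exp (θ * ∑ i, spread (fun a => Real.log (gsl (Z i) a))) := by
  classical
  obtain ⟨c0, hc0, hper⟩ := per_frame (N := N) hapi hM
  obtain ⟨ht, htri⟩ := hd.tri
  obtain ⟨θ, hθ, hcusp⟩ := hd.cusp
  choose cr hcr hmono using fun i => hapi.mono (r i)
  obtain ⟨c, hc1, hc⟩ : ∃ c : ℝ, 1 ≤ c ∧ ∀ i, cr i ≤ c := by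
    refine ⟨∏ i, cr i, ?_, fun i => ?_⟩
    · have : ∏ _i : Fin k, (1 : ℝ) ≤ ∏ i, cr i := prod_le_prod (fun _ _ => zero_le_one) fun i _ => hcr i
      simpa using this
    · rw [← mul_prod_erase univ cr (mem_univ i)]
      have h1 : 1 ≤ ∏ j ∈ univ.erase i, cr j := by
        have : ∏ _j ∈ univ.erase i, (1 : ℝ) ≤ ∏ j ∈ univ.erase i, cr j :=
          prod_le_prod (fun _ _ => zero_le_one) fun j _ => hcr j
        simpa using this
      have := hcr i
      nlinarith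
  obtain ⟨C1, hC1⟩ := hcusp c hc1
  set D := Fintype.card W with hD
  have hD0 : 0 < D := Fintype.card_pos
  refine ⟨4 ^ D * c0⁻¹ * Real.exp C1, θ, by positivity, hθ, ?_⟩
  intro B hB Z hZ hred S hS
  have hl : ∀ i a, 0 < gsl (Z i) a := fun i a => hapi.pos (Z i) (hZ i) a
  set l : ∀ i, Fin (r i) → ℝ := fun i => gsl (Z i) with hldef
  have hlmono : ∀ i a b, a ≤ b → l i a ≤ c * l i b := by
    intro i a b hab
    refine (hmono i (N i) (Z i) (hZ i) (hred i) a b hab).trans ?_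
    exact mul_le_mul_of_nonneg_right (hc i) (hl i b).le
  obtain ⟨μ, hμ, hlow⟩ := hper Z hZ hred
  obtain ⟨U, hU, hpull⟩ := htri μ hμ
  set P : ℝ := ∏ i, (∏ a, l i a) ^ (N i - ρ.b i) with hP
  have hP0 : 0 < P := prod_pos fun i _ => pow_pos (prod_pos fun a _ => hl i a) _
  set R0 : ℝ := (B / (c0 * P)) ^ ((D : ℝ)⁻¹) with hR0
  have hBP : 0 < B / (c0 * P) := by positivity
  have hR00 : 0 < R0 := Real.rpow_pos_of_pos hBP _
  have hR0D : R0 ^ D = B / (c0 * P) := by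
    rw [hR0, ← Real.rpow_natCast, ← Real.rpow_mul hBP.le, inv_mul_cancel₀ (by exact_mod_cast hD0.ne'),
      Real.rpow_one]
  have hbound : ∀ A ∈ S, ∀ w, |mono ρ l w * ρ.pull ℝ μ (realW A) w| ≤ R0 := by
    intro A hA w
    obtain ⟨hA0, _, hAM⟩ := hS A hA
    have hrA : realW A ≠ 0 := by
      intro h
      apply hA0
      funext w
      have := congrFun h w
      simp only [realW, Pi.zero_apply] at this
      exact_mod_cast this
    obtain ⟨R, hR, hRw, hRM⟩ := hlow (realW A) hrA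
    refine (hRw w).trans ?_
    have h1 : c0 * P * R ^ D ≤ B := hRM.trans hAM
    have h2 : R ^ D ≤ R0 ^ D := by
      rw [hR0D, le_div_iff₀ (by positivity)]
      linarith
    exact le_of_pow_le_pow_left₀ hD0.ne' hR00.le h2
  have hm := mono_pos ρ hl
  have hcard : (S.card : ℝ) ≤ ∏ w, (4 * max 1 (R0 / mono ρ l w)) := by
    refine hU.card_le (fun w => (div_pos hR00 (hm w)).le) S ?_
    intro A hA w
    have h1 := hbound A hA w
    rw [hpull, abs_mul, abs_of_pos (hm w)] at h1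
    rw [le_div_iff₀ (hm w), mul_comm]
    exact h1
  rcases S.eq_empty_or_nonempty with h0 | ⟨A0, hA0⟩
  · rw [h0, card_empty, Nat.cast_zero]
    have h5 : 0 ≤ ∏ i, ((∏ a, l i a) ^ N i)⁻¹ :=
      prod_nonneg fun i _ => inv_nonneg.2 (pow_nonneg (prod_nonneg fun a _ => (hl i a).le) _)
    positivity
  · have hA0' := hS A0 hA0
    have hcu := hC1 μ hμ l hl hlmono R0 hR00 A0 hA0'.2.1 (hbound A0 hA0)
    rw [prod_four_max hD hR00 hm, hR0D, prod_mono] at hcard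
    refine hcard.trans ?_
    have h5 : B / (c0 * P) / ∏ i, (∏ a, l i a) ^ ρ.b i =
        c0⁻¹ * B * ∏ i, ((∏ a, l i a) ^ N i)⁻¹ := by
      rw [prod_inv_distrib]
      have h6 : P * ∏ i, (∏ a, l i a) ^ ρ.b i = ∏ i, (∏ a, l i a) ^ N i := by
        rw [hP, ← prod_mul_distrib]
        refine prod_congr rfl fun i _ => ?_
        rw [← pow_add, Nat.sub_add_cancel (hb i)]
      rw [div_div, mul_assoc, h6]
      have h7 : (∏ i, (∏ a, l i a) ^ N i) ≠ 0 :=
        (prod_pos fun i _ => pow_pos (prod_pos fun a _ => hl i a) _).ne'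
      field_simp
    rw [h5]
    have h8 : Real.exp (∑ w, max 0 (Real.log (mono ρ l w) - Real.log R0)) ≤
        Real.exp C1 * Real.exp (θ * ∑ i, spread (fun a => Real.log (l i a))) := by
      rw [← Real.exp_add, Real.exp_le_exp]
      linarith
    have h9 : 0 ≤ ∏ i, ((∏ a, l i a) ^ N i)⁻¹ :=
      prod_nonneg fun i _ => inv_nonneg.2 (pow_nonneg (prod_nonneg fun a _ => (hl i a).le) _)
    calc 4 ^ D * (c0⁻¹ * B * ∏ i, ((∏ a, l i a) ^ N i)⁻¹) *
          Real.exp (∑ w, max 0 (Real.log (mono ρ l w) - Real.log R0))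
        ≤ 4 ^ D * (c0⁻¹ * B * ∏ i, ((∏ a, l i a) ^ N i)⁻¹) *
          (Real.exp C1 * Real.exp (θ * ∑ i, spread (fun a => Real.log (l i a)))) := by
          refine mul_le_mul_of_nonneg_left h8 (by positivity)
      _ = _ := by ring

end Pool.Agent.Lib.MP_1acd66_nt.Gen
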