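import Mathlib

/-!
Frames of subspaces, products of Grassmannians, and polynomial representations of products of
general linear groups.
-/

namespace Pool.Agent.Lib.MP_1acd66_nt.Gen

section single

variable {K : Type*} [CommRing K] {r N : ℕ}

/-- The maximal minors of `r` vectors of `K ^ N`: the columns are chosen by `s`. -/
def minor (Z : Fin r → Fin N → K) (s : Fin r → Fin N) : K :=
  Matrix.det (Matrix.of fun a b => Z a (s b))

/-- A frame: `r` vectors of `K ^ N` with a nonzero maximal minor. -/
def IsFrame (Z : Fin r → Fin N → K) : Prop := ∃ s, minor Z s ≠ 0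

/-- Change of frame by an `r × r` matrix. -/
def rowOp (g : Matrix (Fin r) (Fin r) K) (Z : Fin r → Fin N → K) : Fin r → Fin N → K :=
  fun a j => ∑ b, g a b * Z b j

/-- The dot product. -/
def dot (x y : Fin N → K) : K := ∑ j, x j * y j

/-- The Gram determinant. -/
def gram (Z : Fin r → Fin N → K) : K := Matrix.det (Matrix.of fun a b => dot (Z a) (Z b))

end single

section product

variable {k : ℕ}

/-- Families of vectors, one family of `r i` vectors of `K ^ (N i)` for every `i`. -/
abbrev Frm (K : Type*) (r N : Fin k → ℕ) : Type _ := ∀ i, Fin (r i) → Fin (N i) → K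

/-- Families of square matrices. -/
abbrev Grp (K : Type*) (r : Fin k → ℕ) : Type _ := ∀ i, Matrix (Fin (r i)) (Fin (r i)) K

variable {r N : Fin k → ℕ}

/-- All members of the family are frames. -/
def AllFrame {K : Type*} [CommRing K] (Z : Frm K r N) : Prop := ∀ i, IsFrame (Z i)

/-- Change of frames. -/
def act {K : Type*} [CommRing K] (g : Grp K r) (Z : Frm K r N) : Frm K r N :=
  fun i => rowOp (g i) (Z i)

end product

/-- An action of families of matrices on coordinate vectors, given by formulas for all commutative
rings: `pull g A` is the vector of coordinates in the frame `Z` of the element which has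
coordinates `A` in the frame `act g Z`; `b i` is the weight of the determinant of the
representation at the factor `i`. -/
structure RepData {k : ℕ} (r : Fin k → ℕ) (W : Type) where
  /-- the action on coordinates -/
  pull : ∀ (K : Type) [CommRing K], Grp K r → (W → K) → (W → K)
  /-- the weights of the determinant -/
  b : Fin k → ℕ

/-- A representation of `∏ i, GL (r i)` on the free module with basis `W`, given functorially for
all commutative rings by formulas which are polynomial in the entries of the matrices. -/
structure FRep {k : ℕ} (r : Fin k → ℕ) (W : Type) [Fintype W] extends RepData r W where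
  pull_one : ∀ (K : Type) [CommRing K] (A : W → K), pull K 1 A = A
  pull_mul : ∀ (K : Type) [CommRing K] (g h : Grp K r) (A : W → K),
    pull K h (pull K g A) = pull K (g * h) A
  pull_add : ∀ (K : Type) [CommRing K] (g : Grp K r) (A B : W → K),
    pull K g (A + B) = pull K g A + pull K g B
  pull_smul : ∀ (K : Type) [CommRing K] (g : Grp K r) (s : K) (A : W → K),
    pull K g (s • A) = s • pull K g A
  pull_map : ∀ (K L : Type) [CommRing K] [CommRing L] (f : K →+* L) (g : Grp K r) (A : W → K),
    pull L (fun i => (g i).map f) (fun w => f (A w)) = fun w => f (pull K g A w)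
  cont : ∀ (K : Type) [NormedField K],
    Continuous (fun x : Grp K r × (W → K) => pull K x.1 x.2)
  /-- the weights of the basis vectors -/
  wt : W → ∀ i, Fin (r i) → ℕ
  pull_diag : ∀ (K : Type) [CommRing K] (l : ∀ i, Fin (r i) → K) (A : W → K) (w : W),
    pull K (fun i => Matrix.diagonal (l i)) A w = (∏ i, ∏ a, l i a ^ wt w i a) * A w
  /-- the degrees -/
  deg : Fin k → ℕ
  wt_sum : ∀ w i, ∑ a, wt w i a = deg i
  wt_total : ∀ i a, ∑ w, wt w i a = b i

instance {k : ℕ} {r : Fin k → ℕ} {W : Type} [Fintype W] : Coe (FRep r W) (RepData r W) :=
  ⟨FRep.toRepData⟩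

end Pool.Agent.Lib.MP_1acd66_nt.Gen
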