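import Pool.Agent.Lib.MP_1acd66_nt.Gen.MatFam

/-!
The representation of `GL_n` on alternating matrices.
-/

namespace Pool.Agent.Lib.MP_1acd66_nt.Gen

open Finset

/-- alternating matrices -/
def IsAltM {n : ℕ} {K : Type} [CommRing K] (M : Matrix (Fin n) (Fin n) K) : Prop :=
  (∀ a, M a a = 0) ∧ ∀ a b, M b a = -M a b

theorem matA_alt {n : ℕ} {K : Type} [CommRing K] (A : PosA n → K) : IsAltM (matA A) := by
  constructor
  · intro a
    simp [matA]
  · intro a b
    simp only [matA, Matrix.of_apply]
    rcases lt_trichotomy a b with h | h | h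
    · rw [dif_neg (not_lt.2 h.le), dif_pos h, dif_pos h]
    · subst h; simp
    · rw [dif_pos h, dif_neg (not_lt.2 h.le), dif_pos h, neg_neg]

theorem matA_pos {n : ℕ} {K : Type} [CommRing K] (A : PosA n → K) (w : PosA n) :
    matA A w.1.1 w.1.2 = A w := by
  simp only [matA, Matrix.of_apply]
  rw [dif_pos w.2]

theorem matA_restrict {n : ℕ} {K : Type} [CommRing K] (M : Matrix (Fin n) (Fin n) K)
    (hM : IsAltM M) : matA (fun w : PosA n => M w.1.1 w.1.2) = M := by
  ext a b
  simp only [matA, Matrix.of_apply]
  rcases lt_trichotomy a b with h | h | h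
  · rw [dif_pos h]
  · subst h
    rw [dif_neg (lt_irrefl _), dif_neg (lt_irrefl _), hM.1]
  · rw [dif_neg (not_lt.2 h.le), dif_pos h, hM.2 b a]

theorem alt_quad {n : ℕ} {K : Type} [CommRing K] {M : Matrix (Fin n) (Fin n) K}
    (hM : IsAltM M) (x : Fin n → K) : ∑ c, ∑ d, x c * x d * M c d = 0 := by
  have h1 : ∀ c d : Fin n, x c * x d * M c d = (if c < d then x c * x d * M c d else 0) -
      (if d < c then x d * x c * M d c else 0) := by
    intro c d
    rcases lt_trichotomy c d with h | h | h
    · rw [if_pos h, if_neg (not_lt.2 h.le), sub_zero]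
    · subst h
      rw [hM.1, if_neg (lt_irrefl _)]
      ring
    · rw [if_neg (not_lt.2 h.le), if_pos h, hM.2 d c]
      ring
  rw [sum_congr rfl fun c _ => sum_congr rfl fun d _ => h1 c d]
  simp only [sum_sub_distrib]
  rw [sub_eq_zero]
  exact sum_comm

theorem conj_apply {n : ℕ} {K : Type} [CommRing K] (g M : Matrix (Fin n) (Fin n) K)
    (a b : Fin n) : (g.transpose * M * g) a b = ∑ c, ∑ d, g c a * g d b * M c d := by
  rw [Matrix.mul_apply, sum_comm]
  refine sum_congr rfl fun d _ => ?_
  rw [Matrix.mul_apply, sum_mul]
  refine sum_congr rfl fun c _ => ?_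
  rw [Matrix.transpose_apply]
  ring

theorem alt_conj {n : ℕ} {K : Type} [CommRing K] (g : Matrix (Fin n) (Fin n) K)
    {M : Matrix (Fin n) (Fin n) K} (hM : IsAltM M) : IsAltM (g.transpose * M * g) := by
  constructor
  · intro a
    rw [conj_apply]
    exact alt_quad hM fun c => g c a
  · intro a b
    rw [conj_apply, conj_apply, sum_comm, ← sum_neg_distrib]
    refine sum_congr rfl fun c _ => ?_
    rw [← sum_neg_distrib]
    refine sum_congr rfl fun d _ => ?_
    rw [hM.2 c d]
    ring

theorem prod_singleA {n : ℕ} {K : Type} [CommRing K] (x : Fin n → K) (b : Fin n) :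
    ∏ a, x a ^ (if a = b then 1 else 0) = x b := by
  rw [prod_eq_single b]
  · simp
  · intro a _ hab
    simp [hab]
  · intro hb
    exact absurd (mem_univ b) hb

theorem sum_PosA {n : ℕ} {M : Type*} [AddCommMonoid M] (f : Fin n → Fin n → M) :
    ∑ w : PosA n, f w.1.1 w.1.2 = ∑ a, ∑ b, if a < b then f a b else 0 := by
  rw [← Fintype.sum_prod_type' (f := fun a b => if a < b then f a b else 0), ← sum_filter]
  exact (sum_subtype (univ.filter (fun p : Fin n × Fin n => p.1 < p.2)) (by simp)
    (fun p : Fin n × Fin n => f p.1 p.2)).symm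

theorem matA_add {n : ℕ} {K : Type} [CommRing K] (A B : PosA n → K) :
    matA (A + B) = matA A + matA B := by
  ext a b
  simp only [matA, Matrix.of_apply, Matrix.add_apply, Pi.add_apply]
  rcases lt_trichotomy a b with h | h | h
  · simp [h]
  · subst h; simp
  · simp only [h, not_lt.2 h.le, dif_pos, dif_neg, not_false_iff]
    ring

theorem matA_smul {n : ℕ} {K : Type} [CommRing K] (s : K) (A : PosA n → K) :
    matA (s • A) = s • matA A := by
  ext a b
  simp only [matA, Matrix.of_apply, Matrix.smul_apply, Pi.smul_apply, smul_eq_mul]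
  rcases lt_trichotomy a b with h | h | h
  · simp [h]
  · subst h; simp
  · simp only [h, not_lt.2 h.le, dif_pos, dif_neg, not_false_iff]
    ring

theorem matA_map {n : ℕ} {K L : Type} [CommRing K] [CommRing L] (f : K →+* L) (A : PosA n → K) :
    matA (fun w => f (A w)) = (matA A).map f := by
  ext a b
  simp only [matA, Matrix.of_apply, Matrix.map_apply]
  rcases lt_trichotomy a b with h | h | h
  · simp [h]
  · subst h; simp
  · simp only [h, not_lt.2 h.le, dif_pos, dif_neg, not_false_iff]
    rw [map_neg]

/-- The representation on alternating matrices. -/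
def repAlt (n : ℕ) : FRep (fun _ : Fin 1 => n) (PosA n) where
  toRepData := altData n
  pull_one K _ A := by
    funext w
    dsimp only [altData]
    have h0 : (1 : Grp K (fun _ : Fin 1 => n)) 0 = 1 := rfl
    rw [h0, Matrix.transpose_one, one_mul, mul_one]
    exact matA_pos A w
  pull_mul K _ g h A := by
    funext w
    dsimp only [altData]
    rw [matA_restrict _ (alt_conj (g 0) (matA_alt A))]
    have h2 : (g * h) 0 = g 0 * h 0 := rfl
    rw [h2, Matrix.transpose_mul]
    simp only [Matrix.mul_assoc]
  pull_add K _ g A B := by
    funext w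
    dsimp only [altData]
    rw [matA_add, mul_add, add_mul]
    rfl
  pull_smul K _ g s A := by
    funext w
    dsimp only [altData]
    rw [matA_smul, Matrix.mul_smul, Matrix.smul_mul]
    rfl
  pull_map K L _ _ f g A := by
    funext w
    dsimp only [altData]
    have h2 : ((g 0).map f).transpose = ((g 0).transpose).map f := rfl
    rw [matA_map, h2, ← Matrix.map_mul, ← Matrix.map_mul, Matrix.map_apply]
  cont K _ := by
    refine continuous_pi fun w => ?_
    have h0 : Continuous fun x : Grp K (fun _ : Fin 1 => n) × (PosA n → K) =>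
        ((x.1 0).transpose * matA x.2 * x.1 0) := by
      refine Continuous.matrix_mul (Continuous.matrix_mul ?_ ?_) ?_
      · exact Continuous.matrix_transpose ((continuous_apply 0).comp continuous_fst)
      · refine continuous_matrix fun i j => ?_
        simp only [matA, Matrix.of_apply]
        rcases lt_trichotomy i j with h | h | h
        · simp only [h, dif_pos]
          exact (continuous_apply (⟨(i, j), h⟩ : PosA n)).comp continuous_snd
        · subst h
          simp only [lt_irrefl, dif_neg, not_false_iff]
          exact continuous_const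
        · simp only [h, not_lt.2 h.le, dif_pos, dif_neg, not_false_iff]
          exact ((continuous_apply (⟨(j, i), h⟩ : PosA n)).comp continuous_snd).neg
      · exact (continuous_apply 0).comp continuous_fst
    exact h0.matrix_elem w.1.1 w.1.2
  wt w _ a := (if a = w.1.1 then 1 else 0) + (if a = w.1.2 then 1 else 0)
  pull_diag K _ l A w := by
    dsimp only [altData]
    rw [Matrix.diagonal_transpose, Matrix.mul_diagonal, Matrix.diagonal_mul,
      Fin.prod_univ_one]
    simp only [pow_add]
    rw [prod_mul_distrib, prod_singleA, prod_singleA, matA_pos]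
    ring
  deg _ := 2
  wt_sum w i := by
    rw [sum_add_distrib]
    simp
  wt_total i a := by
    dsimp only [altData]
    rw [sum_PosA (fun c d => (if a = c then 1 else 0) + (if a = d then 1 else 0))]
    have h1 : ∀ c d : Fin n, (if c < d then (if a = c then 1 else 0) + (if a = d then 1 else 0)
        else 0 : ℕ) = (if a = c then (if a < d then 1 else 0) else 0) +
          (if a = d then (if c < a then 1 else 0) else 0) := by
      intro c d
      by_cases h2 : a = c
      · by_cases h3 : a = d
        · subst h2; subst h3; simp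
        · subst h2
          by_cases h4 : a < d <;> simp [h3, h4]
      · by_cases h3 : a = d
        · subst h3
          by_cases h4 : c < a <;> simp [h2, h4]
        · simp [h2, h3]
    have h2 : ∑ c : Fin n, ∑ d : Fin n, (if a = c then (if a < d then 1 else 0) else 0 : ℕ) =
        ∑ d : Fin n, (if a < d then 1 else 0) := by
      rw [sum_comm]
      refine sum_congr rfl fun d _ => ?_
      rw [sum_ite_eq]
      simp
    have h3 : ∑ c : Fin n, ∑ d : Fin n, (if a = d then (if c < a then 1 else 0) else 0 : ℕ) =
        ∑ c : Fin n, (if c < a then 1 else 0) := by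
      refine sum_congr rfl fun c _ => ?_
      rw [sum_ite_eq]
      simp
    rw [sum_congr rfl fun c _ => sum_congr rfl fun d _ => h1 c d]
    simp only [sum_add_distrib]
    rw [h2, h3, ← sum_add_distrib]
    have h4 : ∀ d : Fin n, ((if a < d then 1 else 0) + (if d < a then 1 else 0) : ℕ) =
        (if d ∈ univ.erase a then 1 else 0) := by
      intro d
      simp only [mem_erase]
      rcases lt_trichotomy a d with h | h | h
      · simp [h, not_lt.2 h.le, h.ne']
      · subst h; simp
      · simp [h, not_lt.2 h.le, h.ne]
    rw [sum_congr rfl fun d _ => h4 d, ← sum_filter, sum_const, smul_eq_mul, mul_one,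
      filter_mem_eq_inter, univ_inter, card_erase_of_mem (mem_univ a), card_univ, Fintype.card_fin]

end Pool.Agent.Lib.MP_1acd66_nt.Gen
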