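import Pool.Agent.Lib.MP_1acd66_nt.Gen.FamTools
import Pool.Agent.Lib.MP_1acd66_nt.Gen.RepAlt

/-!
The cusp data and the density for the representation on alternating matrices.
-/

namespace Pool.Agent.Lib.MP_1acd66_nt.Gen

open Finset

theorem repAlt_pull (n : ℕ) {K : Type} [CommRing K] (g : Grp K (fun _ : Fin 1 => n))
    (A : PosA n → K) (w : PosA n) :
    (repAlt n).pull K g A w = ∑ c, ∑ d, g 0 c w.1.1 * g 0 d w.1.2 * matA A c d :=
  conj_apply (g 0) (matA A) w.1.1 w.1.2

/-- nonsingular alternating matrices -/
def goodAlt (n : ℕ) (A : PosA n → ℚ) : Prop := (matA A).det ≠ 0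

theorem mono_alt (n : ℕ) (l : ∀ _i : Fin 1, Fin n → ℝ) (w : PosA n) :
    mono (repAlt n) l w = l 0 w.1.1 * l 0 w.1.2 := by
  rw [mono, Fin.prod_univ_one]
  change (∏ a, l 0 a ^ ((if a = w.1.1 then 1 else 0) + (if a = w.1.2 then 1 else 0))) = _
  simp only [pow_add]
  rw [prod_mul_distrib, prod_singleA, prod_singleA]

theorem det_ratW_matA {n : ℕ} (A : PosA n → ℤ) :
    (matA (ratW A)).det = (((matA A).det : ℤ) : ℚ) := by
  have h1 : matA (ratW A) = (matA A).map (Int.castRingHom ℚ) := matA_map (Int.castRingHom ℚ) A
  rw [h1, ← RingHom.mapMatrix_apply, ← RingHom.map_det]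
  rfl

theorem matA_single_ne {n : ℕ} {w : PosA n} {c d : Fin n}
    (h : matA (Pi.single w (1 : ℝ)) c d ≠ 0) :
    (c = w.1.1 ∧ d = w.1.2) ∨ (c = w.1.2 ∧ d = w.1.1) := by
  simp only [matA, Matrix.of_apply] at h
  rcases lt_trichotomy c d with h1 | h1 | h1
  · rw [dif_pos h1, Pi.single_apply] at h
    by_cases h2 : (⟨(c, d), h1⟩ : PosA n) = w
    · left
      rw [← h2]
      exact ⟨rfl, rfl⟩
    · rw [if_neg h2] at h
      exact absurd rfl h
  · subst h1
    rw [dif_neg (lt_irrefl _), dif_neg (lt_irrefl _)] at h
    exact absurd rfl h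
  · rw [dif_neg (not_lt.2 h1.le), dif_pos h1, Pi.single_apply] at h
    by_cases h2 : (⟨(d, c), h1⟩ : PosA n) = w
    · right
      rw [← h2]
      exact ⟨rfl, rfl⟩
    · rw [if_neg h2, neg_zero] at h
      exact absurd rfl h

theorem cuspData_alt (n : ℕ) : CuspData (repAlt n) (goodAlt n) where
  deg_pos _ := Nat.two_pos
  tri := by
    refine tri_of_basis (repAlt n) (fun w => (w.1.1 : ℕ) + (w.1.2 : ℕ)) ?_
    intro μ hμ
    obtain ⟨hd, hu, _⟩ := hμ
    constructor
    · intro w
      rw [repAlt_pull, sum_eq_single w.1.1, sum_eq_single w.1.2, hd, hd, matA_pos]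
      · simp
      · intro d _ hne
        by_cases h2 : matA (Pi.single w (1 : ℝ)) w.1.1 d = 0
        · rw [h2, mul_zero]
        · rcases matA_single_ne h2 with h3 | h3
          · exact absurd h3.2 hne
          · exact absurd h3.1 w.2.ne
      · intro h; exact absurd (mem_univ _) h
      · intro c _ hne
        refine sum_eq_zero fun d _ => ?_
        by_cases h2 : matA (Pi.single w (1 : ℝ)) c d = 0
        · rw [h2, mul_zero]
        · rcases matA_single_ne h2 with h3 | h3
          · exact absurd h3.1 hne
          · have h4 : d < w.1.2 := by rw [h3.2]; exact w.2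
            rw [hu 0 _ _ h4]; ring
      · intro h; exact absurd (mem_univ _) h
    · intro w w' hne hle
      rw [repAlt_pull]
      refine sum_eq_zero fun c _ => sum_eq_zero fun d _ => ?_
      rcases lt_or_ge c w.1.1 with h1 | h1
      · rw [hu 0 _ _ h1]; ring
      · rcases lt_or_ge d w.1.2 with h2 | h2
        · rw [hu 0 _ _ h2]; ring
        · by_cases h3 : matA (Pi.single w' (1 : ℝ)) c d = 0
          · rw [h3, mul_zero]
          · exfalso
            have h0 := w.2
            have h0' := w'.2
            rw [Fin.le_def] at h1 h2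
            rw [Fin.lt_def] at h0 h0'
            rcases matA_single_ne h3 with ⟨h4, h5⟩ | ⟨h4, h5⟩
            · apply hne
              rw [h4] at h1
              rw [h5] at h2
              apply Subtype.ext
              exact Prod.ext (Fin.ext (by omega)) (Fin.ext (by omega))
            · rw [h4] at h1
              rw [h5] at h2
              omega
  cusp := by
    refine ⟨1 / 2, by norm_num, ?_⟩
    intro c hc
    have hc0 : 0 < c := by linarith
    refine ⟨∑ _w : PosA n, 2 * Real.log c, ?_⟩
    intro μ hμ l hl hlc R hR A hA hle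
    obtain ⟨hd, hu, _⟩ := hμ
    have hdet : (matA A).det ≠ 0 := by
      intro h
      apply hA
      rw [det_ratW_matA, h, Int.cast_zero]
    have hcast : ∀ x y, matA (realW A) x y = ((matA A x y : ℤ) : ℝ) := by
      intro x y
      have h1 : matA (realW A) = (matA A).map (Int.castRingHom ℝ) :=
        matA_map (Int.castRingHom ℝ) A
      rw [h1]
      rfl
    obtain ⟨σ, hσ⟩ := support_perm (k := n) (A := matA A) hdet (U := fun j i => μ 0 i j)
      (V := fun j i => μ 0 i j) (l := l 0) (m := l 0) (R := R) (c := c) hc0.le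
      (fun j => hd 0 j) (fun j i h => hu 0 i j h) (fun j => hd 0 j) (fun j i h => hu 0 i j h)
      (fun j => hl 0 j) (fun j => hl 0 j) (fun j i h => hlc 0 j i h) (fun j i h => hlc 0 j i h)
      (fun j j' => by
        rcases lt_trichotomy j j' with hjj | hjj | hjj
        · have h1 := hle ⟨(j, j'), hjj⟩
          rw [mono_alt, repAlt_pull] at h1
          simp only [hcast] at h1
          exact h1
        · subst hjj
          have h1 := alt_quad (matA_alt (realW A)) fun c => μ 0 c j
          simp only [hcast] at h1
          have h2 : ∑ i, ∑ i', μ 0 i j * μ 0 i' j * ((matA A i i' : ℤ) : ℝ) = 0 := h1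
          rw [h2, mul_zero, abs_zero]
          exact hR.le
        · have h1 := hle ⟨(j', j), hjj⟩
          rw [mono_alt, repAlt_pull] at h1
          simp only [hcast] at h1
          have h2 : l 0 j * l 0 j' * ∑ i, ∑ i', μ 0 i j * μ 0 i' j' * ((matA A i i' : ℤ) : ℝ) =
              -(l 0 j' * l 0 j * ∑ c, ∑ d, μ 0 c j' * μ 0 d j * ((matA A c d : ℤ) : ℝ)) := by
            rw [mul_comm (l 0 j), sum_comm, ← mul_neg, ← sum_neg_distrib]
            congr 1
            refine sum_congr rfl fun x _ => ?_
            rw [← sum_neg_distrib]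
            refine sum_congr rfl fun y _ => ?_
            rw [(matA_alt A).2 x y]
            push_cast
            ring
          rw [h2, abs_neg]
          exact h1)
    have h2 := cusp_alt (fun a => Real.log (l 0 a))
      (Real.log (c ^ 2 * R)) σ (fun i => by
        rw [← Real.log_mul (hl 0 i).ne' (hl 0 _).ne']
        exact Real.log_le_log (mul_pos (hl 0 i) (hl 0 _)) (hσ i))
    have hlogc : 0 ≤ Real.log c := Real.log_nonneg hc
    have h3 : ∀ w : PosA n, max 0 (Real.log (mono (repAlt n) l w) - Real.log R) ≤
        max 0 (Real.log (l 0 w.1.1) + Real.log (l 0 w.1.2) - Real.log (c ^ 2 * R)) +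
          2 * Real.log c := by
      intro w
      rw [mono_alt, Real.log_mul (hl 0 _).ne' (hl 0 _).ne',
        Real.log_mul (by positivity) hR.ne', Real.log_pow]
      push_cast
      refine max_le ?_ ?_
      · have := le_max_left 0 (Real.log (l 0 w.1.1) + Real.log (l 0 w.1.2) -
          (2 * Real.log c + Real.log R))
        linarith
      · have := le_max_right 0 (Real.log (l 0 w.1.1) + Real.log (l 0 w.1.2) -
          (2 * Real.log c + Real.log R))
        linarith
    set s := Real.log (c ^ 2 * R) with hs
    set x : Fin n → ℝ := fun a => Real.log (l 0 a) with hx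
    have h4 : ∑ w : PosA n, max 0 (x w.1.1 + x w.1.2 - s) ≤
        (∑ i, ∑ j, max 0 (x i + x j - s)) / 2 := by
      rw [sum_PosA (fun a b => max 0 (x a + x b - s))]
      have h5 : ∑ a, ∑ b, (if a < b then max 0 (x a + x b - s) else 0) =
          ∑ a, ∑ b, (if b < a then max 0 (x a + x b - s) else 0) := by
        rw [sum_comm]
        refine sum_congr rfl fun a _ => sum_congr rfl fun b _ => ?_
        rw [add_comm (x b)]
      have h6 : ∑ a, ∑ b, (if a < b then max 0 (x a + x b - s) else 0) +
          ∑ a, ∑ b, (if b < a then max 0 (x a + x b - s) else 0) ≤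
          ∑ i, ∑ j, max 0 (x i + x j - s) := by
        rw [← sum_add_distrib]
        refine sum_le_sum fun a _ => ?_
        rw [← sum_add_distrib]
        refine sum_le_sum fun b _ => ?_
        have h8 := le_max_left 0 (x a + x b - s)
        rcases lt_trichotomy a b with h | h | h
        · simp only [h, if_pos, not_lt.2 h.le, if_neg, not_false_iff]
          linarith
        · subst h
          simp only [lt_irrefl, if_neg, not_false_iff]
          linarith
        · simp only [h, if_pos, not_lt.2 h.le, if_neg, not_false_iff]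
          linarith
      linarith
    calc ∑ w, max 0 (Real.log (mono (repAlt n) l w) - Real.log R)
        ≤ ∑ w : PosA n, (max 0 (x w.1.1 + x w.1.2 - s) + 2 * Real.log c) :=
          sum_le_sum fun w _ => h3 w
      _ = ∑ w : PosA n, max 0 (x w.1.1 + x w.1.2 - s) + ∑ _w : PosA n, 2 * Real.log c :=
          sum_add_distrib
      _ ≤ _ := by
          rw [Fin.sum_univ_one]
          linarith

/-- the determinant as a polynomial -/
noncomputable def detPolyAlt (n : ℕ) : MvPolynomial (PosA n) ℤ :=
  (matA (fun w => MvPolynomial.X w)).det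

theorem eval_detPolyAlt {n : ℕ} (A : PosA n → ℤ) :
    MvPolynomial.eval A (detPolyAlt n) = (matA A).det := by
  rw [detPolyAlt, RingHom.map_det, RingHom.mapMatrix_apply, ← matA_map]
  congr 2
  funext w
  rw [MvPolynomial.eval_X]

/-- The standard alternating matrix of even size is nonsingular. -/
theorem exists_alt_det_ne_zero {n : ℕ} (hn : Even n) : ∃ A : PosA n → ℤ, (matA A).det ≠ 0 := by
  obtain ⟨m, hm⟩ := hn
  -- the fixed point free involution `i ↦ n - 1 - i`
  set M : Matrix (Fin n) (Fin n) ℤ := Matrix.of fun a b =>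
    if b = Fin.rev a then (if a < b then 1 else -1) else 0 with hM
  have hrev : ∀ a : Fin n, Fin.rev a ≠ a := by
    intro a h
    have h1 := congrArg Fin.val h
    rw [Fin.val_rev] at h1
    have := a.2
    omega
  have halt : IsAltM M := by
    constructor
    · intro a
      rw [hM, Matrix.of_apply, if_neg (hrev a).symm]
    · intro a b
      rw [hM, Matrix.of_apply, Matrix.of_apply]
      by_cases h : b = Fin.rev a
      · have h2 : a = Fin.rev b := by rw [h, Fin.rev_rev]
        rw [if_pos h, if_pos h2]
        rcases lt_or_gt_of_ne (show a ≠ b from fun h3 => hrev a (by rw [← h, h3])) with h3 | h3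
        · rw [if_neg (not_lt.2 h3.le), if_pos h3]
        · rw [if_pos h3, if_neg (not_lt.2 h3.le), neg_neg]
      · have h2 : ¬ a = Fin.rev b := by
          intro h3
          apply h
          rw [h3, Fin.rev_rev]
        rw [if_neg h, if_neg h2, neg_zero]
  refine ⟨fun w => M w.1.1 w.1.2, ?_⟩
  rw [matA_restrict M halt]
  have h1 : M * M = -1 := by
    ext a b
    rw [Matrix.mul_apply, Matrix.neg_apply, Matrix.one_apply, sum_eq_single (Fin.rev a)]
    · rw [hM, Matrix.of_apply, Matrix.of_apply, if_pos rfl, Fin.rev_rev]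
      by_cases h : a = b
      · subst h
        rw [if_pos rfl, if_pos rfl]
        rcases lt_or_gt_of_ne (hrev a) with h3 | h3
        · rw [if_neg (not_lt.2 h3.le), if_pos h3]; norm_num
        · rw [if_pos h3, if_neg (not_lt.2 h3.le)]; norm_num
      · rw [if_neg (Ne.symm h), if_neg h, mul_zero, neg_zero]
    · intro c _ hc
      rw [hM, Matrix.of_apply, if_neg hc, zero_mul]
    · intro h; exact absurd (mem_univ _) h
  intro h0
  have h2 := congrArg Matrix.det h1
  rw [Matrix.det_mul, h0, zero_mul, Matrix.det_neg, Matrix.det_one, mul_one] at h2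
  have h3 : ((-1 : ℤ) ^ Fintype.card (Fin n)) ≠ 0 := pow_ne_zero _ (by norm_num)
  exact h3 h2.symm

theorem densityZero_alt {n : ℕ} (hn : Even n) : DensityZero (goodAlt n) := by
  refine densityZero_of_poly (detPolyAlt n) ?_ ?_
  · intro h
    obtain ⟨A, hA⟩ := exists_alt_det_ne_zero hn
    apply hA
    rw [← eval_detPolyAlt, h, map_zero]
  · intro A hA
    rw [eval_detPolyAlt]
    unfold goodAlt at hA
    push Not at hA
    rw [det_ratW_matA] at hA
    exact_mod_cast hA

end Pool.Agent.Lib.MP_1acd66_nt.Gen
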