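import Pool.Agent.Lib.MP_1acd66_nt.Gen.FamTools

/-!
Density zero from a positive proportion at infinitely many primes, and the third Bonferroni
inequality for the number of common zeros.
-/

namespace Pool.Agent.Lib.MP_1acd66_nt.Gen

open Finset

section crt

variable {W : Type} [Fintype W]

/-- Vectors which lie in a fixed proportion of the residue classes modulo infinitely many primes
have density zero. -/
theorem densityZero_of_primes {Good : (W → ℚ) → Prop} {θ : ℝ} (hθ0 : 0 ≤ θ) (hθ1 : θ < 1)
    (h : ∀ P0 : ℕ, ∃ p : ℕ, P0 < p ∧ p.Prime ∧ ∃ I : Finset (W → ZMod p),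
      (I.card : ℝ) ≤ θ * (p : ℝ) ^ Fintype.card W ∧
      ∀ A : W → ℤ, ¬ Good (ratW A) → (fun w => (A w : ZMod p)) ∈ I) : DensityZero Good := by
  classical
  have key : ∀ J : ℕ, ∃ q : ℕ, 0 < q ∧ ∃ I : Finset (W → ℤ),
      (∀ x ∈ I, ∀ w, 0 ≤ x w ∧ x w < q) ∧ (I.card : ℝ) ≤ θ ^ J * (q : ℝ) ^ Fintype.card W ∧
      ∀ A : W → ℤ, ¬ Good (ratW A) → (fun w => A w % (q:ℤ)) ∈ I := by
    intro J
    induction J with
    | zero =>
      refine ⟨1, one_pos, {fun _ => 0}, ?_, ?_, ?_⟩
      · intro x hx w
        rw [mem_singleton] at hx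
        subst hx
        simp
      · simp
      · intro A _
        rw [mem_singleton]
        funext w
        simp
    | succ J ih =>
      obtain ⟨q, hq, I, hI1, hI2, hI3⟩ := ih
      obtain ⟨p, hqp, hp, I', hI'1, hI'2⟩ := h q
      have hp0 : 0 < p := hp.pos
      have : NeZero p := ⟨hp0.ne'⟩
      have hcop : Nat.Coprime q p := by
        rw [Nat.coprime_comm]
        exact (Nat.Prime.coprime_iff_not_dvd hp).2 fun hd => absurd (Nat.le_of_dvd hq hd) (by omega)
      set I2 : Finset (W → ℤ) := (Fintype.piFinset fun _ : W => Finset.Ico (0:ℤ) ((q * p : ℕ) : ℤ)).filter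
        (fun x => (fun w => x w % (q:ℤ)) ∈ I ∧ (fun w => (x w : ZMod p)) ∈ I') with hI2def
      refine ⟨q * p, Nat.mul_pos hq hp0, I2, ?_, ?_, ?_⟩
      · intro x hx w
        rw [hI2def, mem_filter, Fintype.mem_piFinset] at hx
        have := hx.1 w
        rw [mem_Ico] at this
        exact this
      · have hinj : Set.InjOn (fun x : W → ℤ => ((fun w => x w % (q:ℤ)), (fun w => (x w : ZMod p))))
            (I2 : Set (W → ℤ)) := by
          intro x hx y hy hxy
          rw [mem_coe, hI2def, mem_filter, Fintype.mem_piFinset] at hx hy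
          simp only [Prod.mk.injEq] at hxy
          funext w
          have h1 : x w % (q:ℤ) = y w % (q:ℤ) := congrFun hxy.1 w
          have h2 : (x w : ZMod p) = (y w : ZMod p) := congrFun hxy.2 w
          rw [ZMod.intCast_eq_intCast_iff] at h2
          have h3 : (q:ℤ) ∣ x w - y w := Int.ModEq.dvd h1.symm
          have h4 : (p:ℤ) ∣ x w - y w := Int.ModEq.dvd h2.symm
          have h5 : ((q * p : ℕ) : ℤ) ∣ x w - y w := by
            push_cast
            refine IsCoprime.mul_dvd ?_ h3 h4
            exact Nat.isCoprime_iff_coprime.2 hcop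
          have h6 := hx.1 w
          have h7 := hy.1 w
          rw [mem_Ico] at h6 h7
          have h9 : x w % ((q * p : ℕ) : ℤ) = y w % ((q * p : ℕ) : ℤ) :=
            Int.emod_eq_emod_iff_emod_sub_eq_zero.2 (Int.emod_eq_zero_of_dvd h5)
          rwa [Int.emod_eq_of_lt h6.1 h6.2, Int.emod_eq_of_lt h7.1 h7.2] at h9
        have h1 : I2.card ≤ (I ×ˢ I').card := by
          refine card_le_card_of_injOn _ ?_ hinj
          intro x hx
          rw [mem_coe, hI2def, mem_filter] at hx
          rw [mem_coe, mem_product]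
          exact hx.2
        rw [card_product] at h1
        calc (I2.card : ℝ) ≤ ((I.card * I'.card : ℕ) : ℝ) := by exact_mod_cast h1
          _ = (I.card : ℝ) * (I'.card : ℝ) := by push_cast; rfl
          _ ≤ (θ ^ J * (q : ℝ) ^ Fintype.card W) * (θ * (p : ℝ) ^ Fintype.card W) :=
              mul_le_mul hI2 hI'1 (Nat.cast_nonneg _) (by positivity)
          _ = θ ^ (J + 1) * ((q * p : ℕ) : ℝ) ^ Fintype.card W := by
              push_cast; rw [mul_pow]; ring
      · intro A hA
        rw [hI2def, mem_filter, Fintype.mem_piFinset]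
        have hqp0 : (0:ℤ) < ((q * p : ℕ) : ℤ) := by exact_mod_cast Nat.mul_pos hq hp0
        refine ⟨fun w => ?_, ?_, ?_⟩
        · rw [mem_Ico]
          exact ⟨Int.emod_nonneg _ hqp0.ne', Int.emod_lt_of_pos _ hqp0⟩
        · have : (fun w => A w % ((q * p : ℕ) : ℤ) % (q:ℤ)) = fun w => A w % (q:ℤ) := by
            funext w
            exact Int.emod_emod_of_dvd _ (by push_cast; exact dvd_mul_right _ _)
          rw [this]
          exact hI3 A hA
        · have : (fun w => ((A w % ((q * p : ℕ) : ℤ) : ℤ) : ZMod p)) = fun w => (A w : ZMod p) := by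
            funext w
            rw [ZMod.intCast_eq_intCast_iff]
            have h1 : A w % ((q * p : ℕ) : ℤ) % (p:ℤ) = A w % (p:ℤ) :=
              Int.emod_emod_of_dvd _ (by push_cast; exact dvd_mul_left _ _)
            exact h1
          rw [this]
          exact hI'2 A hA
  intro ε hε
  obtain ⟨J, hJ⟩ := exists_pow_lt_of_lt_one hε hθ1
  obtain ⟨q, hq, I, hI1, hI2, hI3⟩ := key J
  exact ⟨q, hq, I, hI1, hI2.trans (mul_le_mul_of_nonneg_right hJ.le (by positivity)), hI3⟩

end crt

section bonferroni

variable {V E X : Type} [AddCommGroup V] [Fintype V] [AddCommGroup E] [Fintype E] [Fintype X]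

open Classical in
theorem card_ker {F : Type} [AddCommGroup F] [Fintype F] (f : V →+ F)
    (hf : Function.Surjective f) :
    ((univ.filter (fun v => f v = 0)).card : ℝ) * Fintype.card F = Fintype.card V := by
  have h1 : Nat.card V = Nat.card F * Nat.card f.ker := by
    rw [AddSubgroup.card_eq_card_quotient_mul_card_addSubgroup f.ker]
    rw [Nat.card_congr (QuotientAddGroup.quotientKerEquivOfSurjective f hf).toEquiv]
  have h2 : Nat.card f.ker = (univ.filter (fun v => f v = 0)).card := by
    rw [Nat.card_eq_fintype_card]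
    rw [← Fintype.card_subtype]
    refine Fintype.card_congr (Equiv.subtypeEquivRight fun v => ?_)
    exact AddMonoidHom.mem_ker
  rw [Nat.card_eq_fintype_card, Nat.card_eq_fintype_card, h2] at h1
  have h3 : (Fintype.card V : ℝ) = ((Fintype.card F * (univ.filter (fun v => f v = 0)).card : ℕ) : ℝ) := by
    exact_mod_cast h1
  rw [h3]; push_cast; ring

open Classical in
/-- The third Bonferroni inequality. -/
theorem card_exists_zero_le (ev : X → V →+ E) (h1 : ∀ x, Function.Surjective (ev x))
    (h3 : ∀ x y z, y ≠ x → z ≠ x → ∀ c : E, ∃ v, ev x v = c ∧ ev y v = 0 ∧ ev z v = 0) :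
    ((univ.filter (fun v => ∃ x, ev x v = 0)).card : ℝ) ≤ (Fintype.card V : ℝ) *
      ((Fintype.card X : ℝ) / Fintype.card E -
        ((Fintype.card X : ℝ) / Fintype.card E) ^ 2 / 2 +
        ((Fintype.card X : ℝ) / Fintype.card E) ^ 3 / 6 +
        ((Fintype.card X : ℝ) / Fintype.card E) / Fintype.card E) := by
  set e : ℝ := (Fintype.card E : ℝ) with he
  have he0 : 0 < e := by rw [he]; exact_mod_cast Fintype.card_pos
  set n : ℝ := (Fintype.card X : ℝ) with hn
  set M : ℝ := (Fintype.card V : ℝ) with hM
  have hM0 : 0 ≤ M := by rw [hM]; exact Nat.cast_nonneg _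
  have hn0 : 0 ≤ n := by rw [hn]; exact Nat.cast_nonneg _
  set a : X → V → ℝ := fun x v => if ev x v = 0 then 1 else 0 with ha
  have ha0 : ∀ x v, 0 ≤ a x v := by
    intro x v; simp only [ha]; split_ifs <;> norm_num
  have ha1 : ∀ x v, a x v ≤ 1 := by
    intro x v; simp only [ha]; split_ifs <;> norm_num
  have hasq : ∀ x v, a x v * a x v = a x v := by
    intro x v; simp only [ha]; split_ifs <;> norm_num
  set Z : V → ℝ := fun v => ∑ x, a x v with hZ
  -- one point
  have m1 : ∀ x, ∑ v, a x v = M / e := by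
    intro x
    have h := card_ker (ev x) (h1 x)
    rw [eq_div_iff he0.ne', hM, ← h]
    congr 1
    simp only [ha]
    rw [sum_ite, sum_const, sum_const_zero, add_zero, nsmul_eq_mul, mul_one]
  -- two points
  have m2 : ∀ x y, x ≠ y → ∑ v, a x v * a y v = M / e ^ 2 := by
    intro x y hxy
    have hsurj : Function.Surjective ((ev x).prod (ev y)) := by
      rintro ⟨c, d⟩
      obtain ⟨v, hv1, hv2, _⟩ := h3 x y y hxy.symm hxy.symm c
      obtain ⟨w, hw1, hw2, _⟩ := h3 y x x hxy hxy d
      refine ⟨v + w, ?_⟩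
      simp only [AddMonoidHom.prod_apply, map_add, hv1, hv2, hw1, hw2, add_zero, zero_add,
        Prod.mk_add_mk]
    have h := card_ker ((ev x).prod (ev y)) hsurj
    rw [eq_div_iff (by positivity), hM, ← h, Fintype.card_prod]
    push_cast
    rw [sq]
    congr 1
    have : ∀ v, a x v * a y v = if ((ev x).prod (ev y)) v = 0 then 1 else 0 := by
      intro v
      simp only [ha, AddMonoidHom.prod_apply, Prod.mk_eq_zero]
      by_cases h1 : ev x v = 0 <;> by_cases h2 : ev y v = 0 <;> simp [h1, h2]
    rw [sum_congr rfl fun v _ => this v, sum_ite, sum_const, sum_const_zero, add_zero,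
      nsmul_eq_mul, mul_one]
    congr!
  -- three points
  have m3 : ∀ x y z, x ≠ y → y ≠ z → x ≠ z → ∑ v, a x v * a y v * a z v = M / e ^ 3 := by
    intro x y z hxy hyz hxz
    have hsurj : Function.Surjective ((ev x).prod ((ev y).prod (ev z))) := by
      rintro ⟨c, d, f⟩
      obtain ⟨v, hv1, hv2, hv3⟩ := h3 x y z hxy.symm hxz.symm c
      obtain ⟨w, hw1, hw2, hw3⟩ := h3 y x z hxy hyz.symm d
      obtain ⟨u, hu1, hu2, hu3⟩ := h3 z x y hxz hyz f
      refine ⟨v + w + u, ?_⟩
      simp only [AddMonoidHom.prod_apply, map_add, hv1, hv2, hv3, hw1, hw2, hw3, hu1, hu2, hu3,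
        add_zero, zero_add, Prod.mk_add_mk]
    have h := card_ker ((ev x).prod ((ev y).prod (ev z))) hsurj
    rw [eq_div_iff (by positivity), hM, ← h, Fintype.card_prod, Fintype.card_prod]
    push_cast
    have e3 : (e : ℝ) ^ 3 = e * (e * e) := by ring
    rw [e3]
    congr 1
    have : ∀ v, a x v * a y v * a z v =
        if ((ev x).prod ((ev y).prod (ev z))) v = 0 then 1 else 0 := by
      intro v
      simp only [ha, AddMonoidHom.prod_apply, Prod.mk_eq_zero]
      by_cases h1 : ev x v = 0 <;> by_cases h2 : ev y v = 0 <;> by_cases h3 : ev z v = 0 <;>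
        simp [h1, h2, h3]
    rw [sum_congr rfl fun v _ => this v, sum_ite, sum_const, sum_const_zero, add_zero,
      nsmul_eq_mul, mul_one]
    congr!
  -- the moments
  have S1 : ∑ v, Z v = n * (M / e) := by
    simp only [hZ]
    rw [sum_comm, sum_congr rfl fun x _ => m1 x, sum_const, card_univ, nsmul_eq_mul]
  have S2 : ∑ v, Z v ^ 2 = n * (M / e) + (n ^ 2 - n) * (M / e ^ 2) := by
    have e1 : ∀ v, Z v ^ 2 = ∑ x, ∑ y, a x v * a y v := by
      intro v
      rw [sq]
      simp only [hZ]
      rw [sum_mul_sum]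
    rw [sum_congr rfl fun v _ => e1 v, sum_comm]
    have e2 : ∀ x, ∑ v, ∑ y, a x v * a y v = M / e + (n - 1) * (M / e ^ 2) := by
      intro x
      rw [sum_comm, ← add_sum_erase univ _ (mem_univ x)]
      congr 1
      · rw [← m1 x]
        exact sum_congr rfl fun v _ => hasq x v
      · rw [sum_congr rfl fun y hy => m2 x y (ne_of_mem_erase hy).symm, sum_const,
          card_erase_of_mem (mem_univ x), card_univ, nsmul_eq_mul, Nat.cast_sub, Nat.cast_one]
        exact Fintype.card_pos_iff.2 ⟨x⟩
    rw [sum_congr rfl fun x _ => e2 x, sum_const, card_univ, nsmul_eq_mul]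
    ring
  have S3 : ∑ v, Z v ^ 3 ≤ n * (M / e) + 3 * n ^ 2 * (M / e ^ 2) + n ^ 3 * (M / e ^ 3) := by
    have e1 : ∀ v, Z v ^ 3 = ∑ x, ∑ y, ∑ z, a x v * a y v * a z v := by
      intro v
      have : Z v ^ 3 = Z v * Z v * Z v := by ring
      rw [this]
      simp only [hZ]
      rw [sum_mul_sum, sum_mul]
      refine sum_congr rfl fun x _ => ?_
      rw [sum_mul]
      refine sum_congr rfl fun y _ => ?_
      rw [mul_sum]
    have e2 : ∀ x y z, ∑ v, a x v * a y v * a z v ≤ (if x = y ∧ y = z then M / e else 0) +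
        (if x = y then M / e ^ 2 else 0) + (if y = z then M / e ^ 2 else 0) +
        (if x = z then M / e ^ 2 else 0) + M / e ^ 3 := by
      intro x y z
      have p1 : 0 ≤ M / e := by positivity
      have p2 : 0 ≤ M / e ^ 2 := by positivity
      have p3 : 0 ≤ M / e ^ 3 := by positivity
      by_cases hxy : x = y
      · subst hxy
        by_cases hxz : x = z
        · subst hxz
          have : ∑ v, a x v * a x v * a x v = M / e := by
            rw [← m1 x]
            exact sum_congr rfl fun v _ => by rw [hasq, hasq]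
          rw [this]
          simp only [and_self, if_true]
          linarith
        · have : ∑ v, a x v * a x v * a z v = M / e ^ 2 := by
            rw [← m2 x z hxz]
            exact sum_congr rfl fun v _ => by rw [hasq]
          rw [this]
          simp only [hxz, and_false, if_false, if_true]
          linarith
      · by_cases hyz : y = z
        · subst hyz
          have : ∑ v, a x v * a y v * a y v = M / e ^ 2 := by
            rw [← m2 x y hxy]
            exact sum_congr rfl fun v _ => by rw [mul_assoc, hasq]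
          rw [this]
          simp only [hxy, false_and, if_false, if_true]
          linarith
        · by_cases hxz : x = z
          · subst hxz
            have : ∑ v, a x v * a y v * a x v = M / e ^ 2 := by
              rw [← m2 x y hxy]
              refine sum_congr rfl fun v _ => ?_
              rw [mul_comm (a x v) (a y v), mul_assoc, hasq, mul_comm]
            rw [this]
            simp only [hxy, hyz, false_and, if_false, if_true]
            linarith
          · rw [m3 x y z hxy hyz hxz]
            simp only [hxy, hyz, hxz, false_and, if_false]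
            linarith
    have e3 : ∑ v, Z v ^ 3 = ∑ x, ∑ y, ∑ z, ∑ v, a x v * a y v * a z v := by
      rw [sum_congr rfl fun v _ => e1 v, sum_comm]
      refine sum_congr rfl fun x _ => ?_
      rw [sum_comm]
      refine sum_congr rfl fun y _ => ?_
      rw [sum_comm]
    rw [e3]
    refine (sum_le_sum fun x _ => sum_le_sum fun y _ => sum_le_sum fun z _ => e2 x y z).trans
      (le_of_eq ?_)
    simp only [sum_add_distrib]
    have q1 : ∑ x : X, ∑ y : X, ∑ z : X, (if x = y ∧ y = z then M / e else 0) = n * (M / e) := by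
      have : ∀ x : X, ∑ y : X, ∑ z : X, (if x = y ∧ y = z then M / e else 0) = M / e := by
        intro x
        rw [sum_eq_single x, sum_eq_single x]
        · simp
        · intro z _ hz; simp [hz.symm]
        · intro h; exact absurd (mem_univ _) h
        · intro y _ hy
          refine sum_eq_zero fun z _ => ?_
          simp [hy.symm]
        · intro h; exact absurd (mem_univ _) h
      rw [sum_congr rfl fun x _ => this x, sum_const, card_univ, nsmul_eq_mul]
    have q2 : ∑ x : X, ∑ y : X, ∑ _z : X, (if x = y then M / e ^ 2 else 0) =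
        n ^ 2 * (M / e ^ 2) := by
      have : ∀ x : X, ∑ y : X, ∑ _z : X, (if x = y then M / e ^ 2 else 0) = n * (M / e ^ 2) := by
        intro x
        rw [sum_comm, sum_congr rfl fun z _ => sum_ite_eq univ x _]
        simp [hn]
      rw [sum_congr rfl fun x _ => this x, sum_const, card_univ, nsmul_eq_mul]
      ring
    have q3 : ∑ _x : X, ∑ y : X, ∑ z : X, (if y = z then M / e ^ 2 else 0) =
        n ^ 2 * (M / e ^ 2) := by
      have : ∀ y : X, ∑ z : X, (if y = z then M / e ^ 2 else 0) = M / e ^ 2 := by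
        intro y
        rw [sum_ite_eq]; simp
      rw [sum_congr rfl fun x _ => sum_congr rfl fun y _ => this y]
      simp only [sum_const, card_univ, nsmul_eq_mul]
      ring
    have q4 : ∑ x : X, ∑ _y : X, ∑ z : X, (if x = z then M / e ^ 2 else 0) =
        n ^ 2 * (M / e ^ 2) := by
      have : ∀ x : X, ∑ z : X, (if x = z then M / e ^ 2 else 0) = M / e ^ 2 := by
        intro x
        rw [sum_ite_eq]; simp
      rw [sum_congr rfl fun x _ => sum_congr rfl fun y _ => this x]
      simp only [sum_const, card_univ, nsmul_eq_mul]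
      ring
    have q5 : ∑ _x : X, ∑ _y : X, ∑ _z : X, M / e ^ 3 = n ^ 3 * (M / e ^ 3) := by
      simp only [sum_const, card_univ, nsmul_eq_mul]
      ring
    rw [q1, q2, q3, q4, q5]
    ring
  -- the pointwise inequality
  have hZnat : ∀ v, ∃ k : ℕ, Z v = k ∧ ((∃ x, ev x v = 0) ↔ 1 ≤ k) := by
    intro v
    refine ⟨(univ.filter (fun x => ev x v = 0)).card, ?_, ?_⟩
    · simp only [hZ, ha]
      rw [sum_ite, sum_const, sum_const_zero, add_zero, nsmul_eq_mul, mul_one]
    · rw [Nat.one_le_iff_ne_zero, Finset.card_ne_zero]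
      constructor
      · rintro ⟨x, hx⟩
        exact ⟨x, mem_filter.2 ⟨mem_univ _, hx⟩⟩
      · rintro ⟨x, hx⟩
        exact ⟨x, (mem_filter.1 hx).2⟩
  have hpt : ∀ v, (if ∃ x, ev x v = 0 then (1:ℝ) else 0) ≤ 11 / 6 * Z v - Z v ^ 2 + Z v ^ 3 / 6 := by
    intro v
    obtain ⟨k, hk, hk'⟩ := hZnat v
    rw [hk]
    have key : ∀ k : ℕ, 1 ≤ k → (1:ℝ) ≤ 11 / 6 * (k:ℝ) - (k:ℝ) ^ 2 + (k:ℝ) ^ 3 / 6 := by
      intro k hk
      rcases Nat.lt_or_ge k 4 with h4 | h4
      · interval_cases k <;> norm_num
      · have : (4:ℝ) ≤ k := by exact_mod_cast h4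
        nlinarith [mul_nonneg (sub_nonneg.2 this) (sub_nonneg.2 this),
          mul_nonneg (mul_nonneg (sub_nonneg.2 this) (sub_nonneg.2 this)) (sub_nonneg.2 this)]
    split_ifs with h
    · exact key k (hk'.1 h)
    · have : k = 0 := by
        by_contra h0
        exact h (hk'.2 (Nat.one_le_iff_ne_zero.2 h0))
      rw [this]; norm_num
  have hsum : ((univ.filter (fun v => ∃ x, ev x v = 0)).card : ℝ) =
      ∑ v, (if ∃ x, ev x v = 0 then (1:ℝ) else 0) := by
    rw [sum_ite, sum_const, sum_const_zero, add_zero, nsmul_eq_mul, mul_one]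
  rw [hsum]
  refine (sum_le_sum fun v _ => hpt v).trans ?_
  rw [sum_add_distrib, sum_sub_distrib, ← mul_sum, ← sum_div, S1, S2]
  have : 11 / 6 * (n * (M / e)) - (n * (M / e) + (n ^ 2 - n) * (M / e ^ 2)) +
      (∑ v, Z v ^ 3) / 6 ≤ 11 / 6 * (n * (M / e)) - (n * (M / e) + (n ^ 2 - n) * (M / e ^ 2)) +
      (n * (M / e) + 3 * n ^ 2 * (M / e ^ 2) + n ^ 3 * (M / e ^ 3)) / 6 := by linarith
  refine this.trans (le_of_eq ?_)
  field_simp
  ring

end bonferroni

end Pool.Agent.Lib.MP_1acd66_nt.Gen
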