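import Pool.Agent.Lib.MP_1acd66_nt.Gen.MatFam

/-!
The representation of `GL_n × GL_n` on all square matrices.
-/

namespace Pool.Agent.Lib.MP_1acd66_nt.Gen

open Finset

/-- The representation on all square matrices. -/
def repGen (n : ℕ) : FRep (fun _ : Fin 2 => n) (Fin n × Fin n) where
  toRepData := genData n
  pull_one K _ A := by
    funext w
    dsimp only [genData]
    have h0 : (1 : Grp K (fun _ : Fin 2 => n)) 0 = 1 := rfl
    have h1 : (1 : Grp K (fun _ : Fin 2 => n)) 1 = 1 := rfl
    rw [h0, h1, Matrix.transpose_one, one_mul, mul_one]
    rfl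
  pull_mul K _ g h A := by
    funext w
    dsimp only [genData]
    have h1 : matG (fun w : Fin n × Fin n => ((g 0).transpose * matG A * g 1) w.1 w.2) =
        (g 0).transpose * matG A * g 1 := rfl
    have h2 : (g * h) 0 = g 0 * h 0 := rfl
    have h3 : (g * h) 1 = g 1 * h 1 := rfl
    rw [h1, h2, h3, Matrix.transpose_mul]
    simp only [Matrix.mul_assoc]
  pull_add K _ g A B := by
    funext w
    dsimp only [genData]
    have h1 : matG (A + B) = matG A + matG B := rfl
    rw [h1, mul_add, add_mul]
    rfl
  pull_smul K _ g s A := by
    funext w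
    dsimp only [genData]
    have h1 : matG (s • A) = s • matG A := rfl
    rw [h1, Matrix.mul_smul, Matrix.smul_mul]
    rfl
  pull_map K L _ _ f g A := by
    funext w
    dsimp only [genData]
    have h1 : matG (fun w => f (A w)) = (matG A).map f := rfl
    have h2 : ((g 0).map f).transpose = ((g 0).transpose).map f := rfl
    rw [h1, h2, ← Matrix.map_mul, ← Matrix.map_mul, Matrix.map_apply]
  cont K _ := by
    refine continuous_pi fun w => ?_
    have h0 : Continuous fun x : Grp K (fun _ : Fin 2 => n) × (Fin n × Fin n → K) =>
        ((x.1 0).transpose * matG x.2 * x.1 1) := by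
      refine Continuous.matrix_mul (Continuous.matrix_mul ?_ ?_) ?_
      · exact Continuous.matrix_transpose ((continuous_apply 0).comp continuous_fst)
      · exact continuous_matrix fun i j => (continuous_apply (i, j)).comp continuous_snd
      · exact (continuous_apply 1).comp continuous_fst
    exact h0.matrix_elem w.1 w.2
  wt w i a := if i = 0 then (if a = w.1 then 1 else 0) else (if a = w.2 then 1 else 0)
  pull_diag K _ l A w := by
    dsimp only [genData]
    rw [Matrix.diagonal_transpose, Matrix.mul_diagonal, Matrix.diagonal_mul,
      Fin.prod_univ_two]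
    simp only [Fin.isValue, if_true, one_ne_zero, if_false]
    have h1 : ∀ (x : Fin n → K) (b : Fin n), ∏ a, x a ^ (if a = b then 1 else 0) = x b := by
      intro x b
      rw [prod_eq_single b]
      · simp
      · intro a _ hab
        simp [hab]
      · intro hb
        exact absurd (mem_univ b) hb
    rw [h1, h1]
    simp only [matG, Matrix.of_apply]
    ring
  deg _ := 1
  wt_sum w i := by
    fin_cases i <;> simp
  wt_total i a := by
    dsimp only [genData]
    fin_cases i
    · rw [Fintype.sum_prod_type, sum_comm]
      simp
    · rw [Fintype.sum_prod_type]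
      simp

end Pool.Agent.Lib.MP_1acd66_nt.Gen
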