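import Pool.Agent.Lib.MP_1acd66_nt.Gen.FamTools
import Pool.Agent.Lib.MP_1acd66_nt.Gen.RepGen

/-!
The cusp data and the density for the representation on square matrices.
-/

namespace Pool.Agent.Lib.MP_1acd66_nt.Gen

open Finset

theorem repGen_pull (n : ℕ) {K : Type} [CommRing K] (g : Grp K (fun _ : Fin 2 => n))
    (A : Fin n × Fin n → K) (w : Fin n × Fin n) :
    (repGen n).pull K g A w = ∑ c, ∑ d, g 0 c w.1 * g 1 d w.2 * A (c, d) := by
  change ((g 0).transpose * matG A * g 1) w.1 w.2 = _
  rw [Matrix.mul_apply, sum_comm]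
  refine sum_congr rfl fun d _ => ?_
  rw [Matrix.mul_apply, sum_mul]
  refine sum_congr rfl fun c _ => ?_
  rw [Matrix.transpose_apply]
  change g 0 c w.1 * A (c, d) * g 1 d w.2 = _
  ring

/-- nonsingular matrices -/
def goodGen (n : ℕ) (A : Fin n × Fin n → ℚ) : Prop := (matG A).det ≠ 0

theorem mono_gen (n : ℕ) (l : ∀ _i : Fin 2, Fin n → ℝ) (w : Fin n × Fin n) :
    mono (repGen n) l w = l 0 w.1 * l 1 w.2 := by
  have h1 : ∀ (x : Fin n → ℝ) (b : Fin n), ∏ a, x a ^ (if a = b then 1 else 0) = x b := by
    intro x b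
    rw [prod_eq_single b]
    · simp
    · intro a _ hab
      simp [hab]
    · intro hb
      exact absurd (mem_univ b) hb
  rw [mono, Fin.prod_univ_two]
  change (∏ a, l 0 a ^ (if a = w.1 then 1 else 0)) * (∏ a, l 1 a ^ (if a = w.2 then 1 else 0)) = _
  rw [h1, h1]

theorem det_ratW_matG {n : ℕ} (A : Fin n × Fin n → ℤ) :
    (matG (ratW A)).det = (((matG A).det : ℤ) : ℚ) := by
  have h1 : matG (ratW A) = (matG A).map (Int.castRingHom ℚ) := rfl
  rw [h1, ← RingHom.mapMatrix_apply, ← RingHom.map_det]
  rfl

theorem cuspData_gen (n : ℕ) : CuspData (repGen n) (goodGen n) where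
  deg_pos _ := Nat.one_pos
  tri := by
    refine tri_of_basis (repGen n) (fun w => (w.1 : ℕ) + (w.2 : ℕ)) ?_
    intro μ hμ
    obtain ⟨hd, hu, _⟩ := hμ
    have h0 : ∀ w w' : Fin n × Fin n, (repGen n).pull ℝ μ (Pi.single w' 1) w =
        μ 0 w'.1 w.1 * μ 1 w'.2 w.2 := by
      intro w w'
      rw [repGen_pull, sum_eq_single w'.1, sum_eq_single w'.2]
      · simp
      · intro d _ hd
        have : ((w'.1, d) : Fin n × Fin n) ≠ w' := fun h => hd (by rw [← h])
        simp [this]
      · intro h; exact absurd (mem_univ _) h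
      · intro c _ hc
        refine sum_eq_zero fun d _ => ?_
        have : ((c, d) : Fin n × Fin n) ≠ w' := fun h => hc (by rw [← h])
        simp [this]
      · intro h; exact absurd (mem_univ _) h
    constructor
    · intro w
      rw [h0, hd, hd, one_mul]
    · intro w w' hne hle
      rw [h0]
      rcases lt_or_ge w'.1 w.1 with h1 | h1
      · rw [hu 0 _ _ h1, zero_mul]
      · rcases lt_or_ge w'.2 w.2 with h2 | h2
        · rw [hu 1 _ _ h2, mul_zero]
        · exfalso
          apply hne
          rw [Fin.le_def] at h1 h2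
          exact Prod.ext (Fin.ext (by omega)) (Fin.ext (by omega))
  cusp := by
    refine ⟨1 / 2, by norm_num, ?_⟩
    intro c hc
    have hc0 : 0 < c := by linarith
    refine ⟨(n : ℝ) * ((n : ℝ) * (2 * Real.log c)), ?_⟩
    intro μ hμ l hl hlc R hR A hA hle
    obtain ⟨hd, hu, _⟩ := hμ
    have hdet : (matG A).det ≠ 0 := by
      intro h
      apply hA
      rw [det_ratW_matG, h, Int.cast_zero]
    obtain ⟨σ, hσ⟩ := support_perm (k := n) (A := matG A) hdet (U := fun j i => μ 0 i j)
      (V := fun j i => μ 1 i j) (l := l 0) (m := l 1) (R := R) (c := c) hc0.le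
      (fun j => hd 0 j) (fun j i h => hu 0 i j h) (fun j => hd 1 j) (fun j i h => hu 1 i j h)
      (fun j => hl 0 j) (fun j => hl 1 j) (fun j i h => hlc 0 j i h) (fun j i h => hlc 1 j i h)
      (fun j j' => by
        have h1 := hle (j, j')
        rw [mono_gen, repGen_pull] at h1
        exact h1)
    have h2 := cusp_gen (fun a => Real.log (l 0 a)) (fun a => Real.log (l 1 a))
      (Real.log (c ^ 2 * R)) σ (fun i => by
        rw [← Real.log_mul (hl 0 i).ne' (hl 1 _).ne']
        exact Real.log_le_log (mul_pos (hl 0 i) (hl 1 _)) (hσ i))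
    have hlogc : 0 ≤ Real.log c := Real.log_nonneg hc
    have h3 : ∀ w : Fin n × Fin n, max 0 (Real.log (mono (repGen n) l w) - Real.log R) ≤
        max 0 (Real.log (l 0 w.1) + Real.log (l 1 w.2) - Real.log (c ^ 2 * R)) +
          2 * Real.log c := by
      intro w
      rw [mono_gen, Real.log_mul (hl 0 _).ne' (hl 1 _).ne',
        Real.log_mul (by positivity) hR.ne', Real.log_pow]
      push_cast
      refine max_le ?_ ?_
      · have := le_max_left 0 (Real.log (l 0 w.1) + Real.log (l 1 w.2) -
          (2 * Real.log c + Real.log R))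
        linarith
      · have := le_max_right 0 (Real.log (l 0 w.1) + Real.log (l 1 w.2) -
          (2 * Real.log c + Real.log R))
        linarith
    calc ∑ w, max 0 (Real.log (mono (repGen n) l w) - Real.log R)
        ≤ ∑ w : Fin n × Fin n,
          (max 0 (Real.log (l 0 w.1) + Real.log (l 1 w.2) - Real.log (c ^ 2 * R)) +
          2 * Real.log c) := sum_le_sum fun w _ => h3 w
      _ = ∑ i, ∑ j, max 0 (Real.log (l 0 i) + Real.log (l 1 j) - Real.log (c ^ 2 * R)) +
          (n : ℝ) * ((n : ℝ) * (2 * Real.log c)) := by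
          rw [Fintype.sum_prod_type, ← sum_congr rfl fun i _ => (sum_add_distrib).symm]
          rw [sum_add_distrib]
          simp only [sum_const, card_univ, Fintype.card_fin, nsmul_eq_mul]
      _ ≤ _ := by
          rw [Fin.sum_univ_two]
          linarith

/-- the determinant as a polynomial -/
noncomputable def detPolyGen (n : ℕ) : MvPolynomial (Fin n × Fin n) ℤ :=
  (matG (fun w => MvPolynomial.X w)).det

theorem eval_detPolyGen {n : ℕ} (A : Fin n × Fin n → ℤ) :
    MvPolynomial.eval A (detPolyGen n) = (matG A).det := by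
  rw [detPolyGen, RingHom.map_det]
  congr 1
  ext a b
  rw [RingHom.mapMatrix_apply, Matrix.map_apply]
  simp [matG]

theorem densityZero_gen (n : ℕ) : DensityZero (goodGen n) := by
  refine densityZero_of_poly (detPolyGen n) ?_ ?_
  · intro h
    have h1 := eval_detPolyGen (fun w : Fin n × Fin n => if w.1 = w.2 then (1 : ℤ) else 0)
    have h2 : matG (fun w : Fin n × Fin n => if w.1 = w.2 then (1 : ℤ) else 0) = 1 := by
      ext a b
      rw [Matrix.one_apply]
      rfl
    rw [h, map_zero, h2, Matrix.det_one] at h1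
    exact zero_ne_one h1
  · intro A hA
    rw [eval_detPolyGen]
    unfold goodGen at hA
    push Not at hA
    rw [det_ratW_matG] at hA
    exact_mod_cast hA

end Pool.Agent.Lib.MP_1acd66_nt.Gen
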