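import Pool.Agent.Lib.MP_1acd66_nt.Gen.MatFam

/-!
The representation of `GL_n` on symmetric matrices.
-/

namespace Pool.Agent.Lib.MP_1acd66_nt.Gen

open Finset

theorem matS_symm {n : ℕ} {K : Type} (A : PosS n → K) (a b : Fin n) :
    matS A a b = matS A b a := by
  simp only [matS, Matrix.of_apply]
  congr 1
  apply Subtype.ext
  exact Prod.ext (min_comm a b) (max_comm a b)

theorem matS_pos {n : ℕ} {K : Type} (A : PosS n → K) (w : PosS n) :
    matS A w.1.1 w.1.2 = A w := by
  simp only [matS, Matrix.of_apply]
  congr 1
  apply Subtype.ext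
  exact Prod.ext (min_eq_left w.2) (max_eq_right w.2)

theorem matS_restrict {n : ℕ} {K : Type} (M : Matrix (Fin n) (Fin n) K)
    (hM : ∀ a b, M a b = M b a) : matS (fun w : PosS n => M w.1.1 w.1.2) = M := by
  ext a b
  simp only [matS, Matrix.of_apply]
  rcases le_total a b with h | h
  · rw [min_eq_left h, max_eq_right h]
  · rw [min_eq_right h, max_eq_left h, hM]

theorem symm_conj {n : ℕ} {K : Type} [CommRing K] (g M : Matrix (Fin n) (Fin n) K)
    (hM : ∀ a b, M a b = M b a) (a b : Fin n) :
    (g.transpose * M * g) a b = (g.transpose * M * g) b a := by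
  have h1 : M.transpose = M := by
    ext i j
    rw [Matrix.transpose_apply, hM]
  have h2 : (g.transpose * M * g).transpose = g.transpose * M * g := by
    rw [Matrix.transpose_mul, Matrix.transpose_mul, Matrix.transpose_transpose, h1,
      Matrix.mul_assoc]
  calc (g.transpose * M * g) a b = (g.transpose * M * g).transpose b a := rfl
    _ = (g.transpose * M * g) b a := by rw [h2]

theorem prod_single {n : ℕ} {K : Type} [CommRing K] (x : Fin n → K) (b : Fin n) :
    ∏ a, x a ^ (if a = b then 1 else 0) = x b := by
  rw [prod_eq_single b]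
  · simp
  · intro a _ hab
    simp [hab]
  · intro hb
    exact absurd (mem_univ b) hb

theorem sum_PosS {n : ℕ} {M : Type*} [AddCommMonoid M] (f : Fin n → Fin n → M) :
    ∑ w : PosS n, f w.1.1 w.1.2 = ∑ a, ∑ b, if a ≤ b then f a b else 0 := by
  rw [← Fintype.sum_prod_type' (f := fun a b => if a ≤ b then f a b else 0), ← sum_filter]
  exact (sum_subtype (univ.filter (fun p : Fin n × Fin n => p.1 ≤ p.2)) (by simp)
    (fun p : Fin n × Fin n => f p.1 p.2)).symm

/-- The representation on symmetric matrices. -/
def repSym (n : ℕ) : FRep (fun _ : Fin 1 => n) (PosS n) where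
  toRepData := symData n
  pull_one K _ A := by
    funext w
    dsimp only [symData]
    have h0 : (1 : Grp K (fun _ : Fin 1 => n)) 0 = 1 := rfl
    rw [h0, Matrix.transpose_one, one_mul, mul_one]
    exact matS_pos A w
  pull_mul K _ g h A := by
    funext w
    dsimp only [symData]
    rw [matS_restrict _ (symm_conj (g 0) (matS A) (matS_symm A))]
    have h2 : (g * h) 0 = g 0 * h 0 := rfl
    rw [h2, Matrix.transpose_mul]
    simp only [Matrix.mul_assoc]
  pull_add K _ g A B := by
    funext w
    dsimp only [symData]
    have h1 : matS (A + B) = matS A + matS B := rfl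
    rw [h1, mul_add, add_mul]
    rfl
  pull_smul K _ g s A := by
    funext w
    dsimp only [symData]
    have h1 : matS (s • A) = s • matS A := rfl
    rw [h1, Matrix.mul_smul, Matrix.smul_mul]
    rfl
  pull_map K L _ _ f g A := by
    funext w
    dsimp only [symData]
    have h1 : matS (fun w => f (A w)) = (matS A).map f := rfl
    have h2 : ((g 0).map f).transpose = ((g 0).transpose).map f := rfl
    rw [h1, h2, ← Matrix.map_mul, ← Matrix.map_mul, Matrix.map_apply]
  cont K _ := by
    refine continuous_pi fun w => ?_
    have h0 : Continuous fun x : Grp K (fun _ : Fin 1 => n) × (PosS n → K) =>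
        ((x.1 0).transpose * matS x.2 * x.1 0) := by
      refine Continuous.matrix_mul (Continuous.matrix_mul ?_ ?_) ?_
      · exact Continuous.matrix_transpose ((continuous_apply 0).comp continuous_fst)
      · exact continuous_matrix fun i j =>
          (continuous_apply (⟨(min i j, max i j), min_le_max⟩ : PosS n)).comp continuous_snd
      · exact (continuous_apply 0).comp continuous_fst
    exact h0.matrix_elem w.1.1 w.1.2
  wt w _ a := (if a = w.1.1 then 1 else 0) + (if a = w.1.2 then 1 else 0)
  pull_diag K _ l A w := by
    dsimp only [symData]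
    rw [Matrix.diagonal_transpose, Matrix.mul_diagonal, Matrix.diagonal_mul,
      Fin.prod_univ_one]
    simp only [pow_add]
    rw [prod_mul_distrib, prod_single, prod_single, matS_pos]
    ring
  deg _ := 2
  wt_sum w i := by
    rw [sum_add_distrib]
    simp
  wt_total i a := by
    dsimp only [symData]
    rw [sum_PosS (fun c d => (if a = c then 1 else 0) + (if a = d then 1 else 0))]
    have h1 : ∀ c d : Fin n, (if c ≤ d then (if a = c then 1 else 0) + (if a = d then 1 else 0)
        else 0 : ℕ) = (if a = c then (if a ≤ d then 1 else 0) else 0) +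
          (if a = d then (if c ≤ a then 1 else 0) else 0) := by
      intro c d
      by_cases h2 : a = c
      · by_cases h3 : a = d
        · subst h2; subst h3; simp
        · subst h2
          by_cases h4 : a ≤ d <;> simp [h3, h4]
      · by_cases h3 : a = d
        · subst h3
          by_cases h4 : c ≤ a <;> simp [h2, h4]
        · simp [h2, h3]
    have h2 : ∑ c : Fin n, ∑ d : Fin n, (if a = c then (if a ≤ d then 1 else 0) else 0 : ℕ) =
        ∑ d : Fin n, (if a ≤ d then 1 else 0) := by
      rw [sum_comm]
      refine sum_congr rfl fun d _ => ?_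
      rw [sum_ite_eq]
      simp
    have h3 : ∑ c : Fin n, ∑ d : Fin n, (if a = d then (if c ≤ a then 1 else 0) else 0 : ℕ) =
        ∑ c : Fin n, (if c ≤ a then 1 else 0) := by
      refine sum_congr rfl fun c _ => ?_
      rw [sum_ite_eq]
      simp
    rw [sum_congr rfl fun c _ => sum_congr rfl fun d _ => h1 c d]
    simp only [sum_add_distrib]
    rw [h2, h3, ← sum_add_distrib]
    have h4 : ∀ d : Fin n, ((if a ≤ d then 1 else 0) + (if d ≤ a then 1 else 0) : ℕ) =
        1 + (if a = d then 1 else 0) := by
      intro d
      rcases lt_trichotomy a d with h | h | h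
      · simp [h.le, not_le.2 h, h.ne]
      · subst h; simp
      · simp [h.le, not_le.2 h, h.ne']
    rw [sum_congr rfl fun d _ => h4 d, sum_add_distrib]
    simp

end Pool.Agent.Lib.MP_1acd66_nt.Gen
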