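import Pool.Agent.Lib.MP_1acd66_nt.Gen.FamTools
import Pool.Agent.Lib.MP_1acd66_nt.Gen.RepSym

/-!
The cusp data and the density for the representation on symmetric matrices.
-/

namespace Pool.Agent.Lib.MP_1acd66_nt.Gen

open Finset

theorem repSym_pull (n : ℕ) {K : Type} [CommRing K] (g : Grp K (fun _ : Fin 1 => n))
    (A : PosS n → K) (w : PosS n) :
    (repSym n).pull K g A w = ∑ c, ∑ d, g 0 c w.1.1 * g 0 d w.1.2 * matS A c d := by
  change ((g 0).transpose * matS A * g 0) w.1.1 w.1.2 = _
  rw [Matrix.mul_apply, sum_comm]
  refine sum_congr rfl fun d _ => ?_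
  rw [Matrix.mul_apply, sum_mul]
  refine sum_congr rfl fun c _ => ?_
  rw [Matrix.transpose_apply]
  ring

/-- nonsingular symmetric matrices -/
def goodSym (n : ℕ) (A : PosS n → ℚ) : Prop := (matS A).det ≠ 0

theorem mono_sym (n : ℕ) (l : ∀ _i : Fin 1, Fin n → ℝ) (w : PosS n) :
    mono (repSym n) l w = l 0 w.1.1 * l 0 w.1.2 := by
  rw [mono, Fin.prod_univ_one]
  change (∏ a, l 0 a ^ ((if a = w.1.1 then 1 else 0) + (if a = w.1.2 then 1 else 0))) = _
  simp only [pow_add]
  rw [prod_mul_distrib, prod_single, prod_single]

theorem det_ratW_matS {n : ℕ} (A : PosS n → ℤ) :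
    (matS (ratW A)).det = (((matS A).det : ℤ) : ℚ) := by
  have h1 : matS (ratW A) = (matS A).map (Int.castRingHom ℚ) := rfl
  rw [h1, ← RingHom.mapMatrix_apply, ← RingHom.map_det]
  rfl

theorem cuspData_sym (n : ℕ) (hn : 3 ≤ n) : CuspData (repSym n) (goodSym n) where
  deg_pos _ := Nat.two_pos
  tri := by
    refine tri_of_basis (repSym n) (fun w => (w.1.1 : ℕ) + (w.1.2 : ℕ)) ?_
    intro μ hμ
    obtain ⟨hd, hu, _⟩ := hμ
    constructor
    · intro w
      rw [repSym_pull, sum_eq_single w.1.1, sum_eq_single w.1.2, hd, hd, matS_pos]
      · simp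
      · intro d _ hne
        rcases lt_or_gt_of_ne hne with h | h
        · rw [hu 0 _ _ h]; ring
        · have h2 : matS (Pi.single w (1 : ℝ)) w.1.1 d = 0 := by
            simp only [matS, Matrix.of_apply]
            rw [Pi.single_apply, if_neg]
            intro h3
            have h4 := congrArg (fun q : PosS n => (q.1.2 : Fin n)) h3
            simp only at h4
            rw [max_eq_right (w.2.trans h.le)] at h4
            exact hne h4
          rw [h2, mul_zero]
      · intro h; exact absurd (mem_univ _) h
      · intro c _ hne
        refine sum_eq_zero fun d _ => ?_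
        rcases lt_or_gt_of_ne hne with h | h
        · rw [hu 0 _ _ h]; ring
        · rcases lt_or_ge d w.1.2 with h1 | h1
          · rw [hu 0 _ _ h1]; ring
          · have h2 : matS (Pi.single w (1 : ℝ)) c d = 0 := by
              simp only [matS, Matrix.of_apply]
              rw [Pi.single_apply, if_neg]
              intro h3
              have h4 := congrArg (fun q : PosS n => (q.1.1 : ℕ) + (q.1.2 : ℕ)) h3
              simp only at h4
              rw [Fin.lt_def] at h
              rw [Fin.le_def] at h1
              have h5 : ((min c d : Fin n) : ℕ) + ((max c d : Fin n) : ℕ) = c + d := by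
                rcases le_total c d with h6 | h6
                · rw [min_eq_left h6, max_eq_right h6]
                · rw [min_eq_right h6, max_eq_left h6, add_comm]
              omega
            rw [h2, mul_zero]
      · intro h; exact absurd (mem_univ _) h
    · intro w w' hne hle
      rw [repSym_pull]
      refine sum_eq_zero fun c _ => sum_eq_zero fun d _ => ?_
      rcases lt_or_ge c w.1.1 with h1 | h1
      · rw [hu 0 _ _ h1]; ring
      · rcases lt_or_ge d w.1.2 with h2 | h2
        · rw [hu 0 _ _ h2]; ring
        · have h3 : matS (Pi.single w' (1 : ℝ)) c d = 0 := by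
            simp only [matS, Matrix.of_apply]
            rw [Pi.single_apply, if_neg]
            intro h3
            apply hne
            have h4 := congrArg (fun q : PosS n => (q.1.1 : ℕ) + (q.1.2 : ℕ)) h3
            simp only at h4
            rw [Fin.le_def] at h1 h2
            have h5 : ((min c d : Fin n) : ℕ) + ((max c d : Fin n) : ℕ) = c + d := by
              rcases le_total c d with h6 | h6
              · rw [min_eq_left h6, max_eq_right h6]
              · rw [min_eq_right h6, max_eq_left h6, add_comm]
            have h7 : c = w.1.1 := Fin.ext (by omega)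
            have h8 : d = w.1.2 := Fin.ext (by omega)
            subst h7
            subst h8
            rw [← h3]
            apply Subtype.ext
            exact Prod.ext (min_eq_left w.2) (max_eq_right w.2)
          rw [h3, mul_zero]
  cusp := by
    refine ⟨5 / 6, by norm_num, ?_⟩
    intro c hc
    have hc0 : 0 < c := by linarith
    refine ⟨∑ _w : PosS n, 2 * Real.log c, ?_⟩
    intro μ hμ l hl hlc R hR A hA hle
    obtain ⟨hd, hu, _⟩ := hμ
    have hdet : (matS A).det ≠ 0 := by
      intro h
      apply hA
      rw [det_ratW_matS, h, Int.cast_zero]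
    obtain ⟨σ, hσ⟩ := support_perm (k := n) (A := matS A) hdet (U := fun j i => μ 0 i j)
      (V := fun j i => μ 0 i j) (l := l 0) (m := l 0) (R := R) (c := c) hc0.le
      (fun j => hd 0 j) (fun j i h => hu 0 i j h) (fun j => hd 0 j) (fun j i h => hu 0 i j h)
      (fun j => hl 0 j) (fun j => hl 0 j) (fun j i h => hlc 0 j i h) (fun j i h => hlc 0 j i h)
      (fun j j' => by
        rcases le_total j j' with hjj | hjj
        · have h1 := hle ⟨(j, j'), hjj⟩
          rw [mono_sym, repSym_pull] at h1
          exact h1
        · have h1 := hle ⟨(j', j), hjj⟩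
          rw [mono_sym, repSym_pull] at h1
          simp only at h1
          have h2 : l 0 j * l 0 j' * ∑ i, ∑ i', μ 0 i j * μ 0 i' j' * ((matS A i i' : ℤ) : ℝ) =
              l 0 j' * l 0 j * ∑ c, ∑ d, μ 0 c j' * μ 0 d j * matS (realW A) c d := by
            rw [mul_comm (l 0 j), sum_comm]
            congr 1
            refine sum_congr rfl fun x _ => sum_congr rfl fun y _ => ?_
            have h3 : matS (realW A) x y = ((matS A y x : ℤ) : ℝ) := by
              rw [matS_symm A y x]
              rfl
            rw [h3]
            ring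
          rw [h2]
          exact h1)
    have h2 := cusp_sym hn (fun a => Real.log (l 0 a))
      (Real.log (c ^ 2 * R)) σ (fun i => by
        rw [← Real.log_mul (hl 0 i).ne' (hl 0 _).ne']
        exact Real.log_le_log (mul_pos (hl 0 i) (hl 0 _)) (hσ i))
    have hlogc : 0 ≤ Real.log c := Real.log_nonneg hc
    have h3 : ∀ w : PosS n, max 0 (Real.log (mono (repSym n) l w) - Real.log R) ≤
        max 0 (Real.log (l 0 w.1.1) + Real.log (l 0 w.1.2) - Real.log (c ^ 2 * R)) +
          2 * Real.log c := by
      intro w
      rw [mono_sym, Real.log_mul (hl 0 _).ne' (hl 0 _).ne',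
        Real.log_mul (by positivity) hR.ne', Real.log_pow]
      push_cast
      refine max_le ?_ ?_
      · have := le_max_left 0 (Real.log (l 0 w.1.1) + Real.log (l 0 w.1.2) -
          (2 * Real.log c + Real.log R))
        linarith
      · have := le_max_right 0 (Real.log (l 0 w.1.1) + Real.log (l 0 w.1.2) -
          (2 * Real.log c + Real.log R))
        linarith
    set s := Real.log (c ^ 2 * R) with hs
    set x : Fin n → ℝ := fun a => Real.log (l 0 a) with hx
    have h4 : ∑ w : PosS n, max 0 (x w.1.1 + x w.1.2 - s) =
        (∑ i, ∑ j, max 0 (x i + x j - s) + ∑ i, max 0 (2 * x i - s)) / 2 := by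
      rw [sum_PosS (fun a b => max 0 (x a + x b - s))]
      have h5 : ∑ a, ∑ b, (if a ≤ b then max 0 (x a + x b - s) else 0) =
          ∑ a, ∑ b, (if b ≤ a then max 0 (x a + x b - s) else 0) := by
        rw [sum_comm]
        refine sum_congr rfl fun a _ => sum_congr rfl fun b _ => ?_
        rw [add_comm (x b)]
      have h6 : ∑ a, ∑ b, (if a ≤ b then max 0 (x a + x b - s) else 0) +
          ∑ a, ∑ b, (if b ≤ a then max 0 (x a + x b - s) else 0) =
          ∑ i, ∑ j, max 0 (x i + x j - s) + ∑ i, max 0 (2 * x i - s) := by
        rw [← sum_add_distrib, ← sum_add_distrib]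
        refine sum_congr rfl fun a _ => ?_
        rw [← sum_add_distrib]
        have h7 : ∀ b, ((if a ≤ b then max 0 (x a + x b - s) else 0) +
            (if b ≤ a then max 0 (x a + x b - s) else 0) : ℝ) =
            max 0 (x a + x b - s) + (if b = a then max 0 (2 * x a - s) else 0) := by
          intro b
          rcases lt_trichotomy a b with h | h | h
          · simp [h.le, not_le.2 h, h.ne']
          · subst h
            simp [two_mul]
          · simp [h.le, not_le.2 h, h.ne]
        rw [sum_congr rfl fun b _ => h7 b, sum_add_distrib, sum_ite_eq']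
        simp
      linarith
    calc ∑ w, max 0 (Real.log (mono (repSym n) l w) - Real.log R)
        ≤ ∑ w : PosS n, (max 0 (x w.1.1 + x w.1.2 - s) + 2 * Real.log c) :=
          sum_le_sum fun w _ => h3 w
      _ = ∑ w : PosS n, max 0 (x w.1.1 + x w.1.2 - s) + ∑ _w : PosS n, 2 * Real.log c :=
          sum_add_distrib
      _ ≤ _ := by
          rw [Fin.sum_univ_one, h4]
          linarith

/-- the determinant as a polynomial -/
noncomputable def detPolySym (n : ℕ) : MvPolynomial (PosS n) ℤ :=
  (matS (fun w => MvPolynomial.X w)).det

theorem eval_detPolySym {n : ℕ} (A : PosS n → ℤ) :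
    MvPolynomial.eval A (detPolySym n) = (matS A).det := by
  rw [detPolySym, RingHom.map_det]
  congr 1
  ext a b
  rw [RingHom.mapMatrix_apply, Matrix.map_apply]
  simp [matS]

theorem densityZero_sym (n : ℕ) : DensityZero (goodSym n) := by
  refine densityZero_of_poly (detPolySym n) ?_ ?_
  · intro h
    have h1 := eval_detPolySym (fun w : PosS n => if w.1.1 = w.1.2 then (1 : ℤ) else 0)
    have h2 : matS (fun w : PosS n => if w.1.1 = w.1.2 then (1 : ℤ) else 0) = 1 := by
      ext a b
      rw [Matrix.one_apply]
      simp only [matS, Matrix.of_apply]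
      by_cases hab : a = b
      · subst hab; simp
      · have : ¬ (min a b = max a b) := by
          intro h
          rcases le_total a b with h' | h'
          · rw [min_eq_left h', max_eq_right h'] at h
            exact hab h
          · rw [min_eq_right h', max_eq_left h'] at h
            exact hab h.symm
        rw [if_neg this, if_neg hab]
    rw [h, map_zero, h2, Matrix.det_one] at h1
    exact zero_ne_one h1
  · intro A hA
    rw [eval_detPolySym]
    unfold goodSym at hA
    push Not at hA
    rw [det_ratW_matS] at hA
    exact_mod_cast hA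

end Pool.Agent.Lib.MP_1acd66_nt.Gen
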