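import Pool.Agent.Lib.MP_1acd66_nt.Gen.PadicTame

/-! Comparison of the number of points with the weighted count of integral pairs. -/

set_option linter.unusedSectionVars false

namespace Pool.Agent.Lib.MP_1acd66_nt.Gen

open Filter Metric Set
open scoped Classical

variable {k : ℕ} {r N : Fin k → ℕ} {W : Type} [Fintype W] {ρ : FRep r W}

/-- invariance of the condition `Good` -/
structure GoodInv (ρ : FRep r W) (Good : (W → ℚ) → Prop) : Prop where
  smul : ∀ (s : ℚ) (A : W → ℚ), s ≠ 0 → (Good (s • A) ↔ Good A)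
  pull : ∀ (g : Grp ℚ r) (A : W → ℚ), (∀ i, (g i).det ≠ 0) → (Good (ρ.pull ℚ g A) ↔ Good A)

theorem GoodInv.same {Good : (W → ℚ) → Prop} (hG : GoodInv ρ Good) {x y : Rep r N W}
    (h : Same ρ x y) : Good x.A ↔ Good y.A := by
  obtain ⟨g, s, hg, hs, _, h2⟩ := h
  rw [← hG.smul s x.A hs, h2, hG.pull g y.A hg]

/-- integral primitive pairs -/
abbrev IPair (r N : Fin k → ℕ) (W : Type) [Fintype W] : Type :=
  {x : Frm ℤ r N × (W → ℤ) // SatF x.1 ∧ PrimW x.2}

/-- the coordinates given by an integral pair -/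
def IPair.rep (x : IPair r N W) : Rep r N W :=
  ofInt x.1.1 x.1.2 (fun i => (x.2.1 i).isFrame) x.2.2.ne_zero

/-- the good pairs of height at most `B` -/
def hQ (Good : (W → ℚ) → Prop) (h : AdelicNorm N ρ.toRepData) (B : ℝ) : Set (IPair r N W) :=
  {x | x.1.2 ∈ hset Good h.inf h.ff x.1.1 B}

theorem mem_hQ_iff {Good : (W → ℚ) → Prop} {h : AdelicNorm N ρ.toRepData} {B : ℝ} {x : IPair r N W} :
    x ∈ hQ Good h B ↔ Good x.rep.A ∧ h.height x.rep ≤ B := by
  have e1 : h.height x.rep = h.inf (realF x.1.1) (realW x.1.2) * h.ff x.1.1 x.1.2 :=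
    h.height_ofInt _ _ _ _
  have e2 : x.rep.A = ratW x.1.2 := rfl
  rw [e1, e2]
  exact ⟨fun hx => ⟨hx.2.1, hx.2.2⟩, fun hx => ⟨x.2.2, hx.1, hx.2⟩⟩

theorem hQ_congr {Good : (W → ℚ) → Prop} (hG : GoodInv ρ Good) {h : AdelicNorm N ρ.toRepData} {B : ℝ}
    {x y : IPair r N W} (e : pt ρ x.rep = pt ρ y.rep) : x ∈ hQ Good h B ↔ y ∈ hQ Good h B := by
  have hs := pt_eq_iff.1 e
  rw [mem_hQ_iff, mem_hQ_iff, hG.same hs, h.height_same hs]

theorem countSet_eq {Good : (W → ℚ) → Prop} (hG : GoodInv ρ Good) (h : AdelicNorm N ρ.toRepData) (B : ℝ) :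
    countSet Good h B = (fun x : IPair r N W => pt ρ x.rep) '' hQ Good h B := by
  ext P
  constructor
  · rintro ⟨x, rfl, hx1, hx2⟩
    obtain ⟨Z, A, hZ, hA, hs⟩ := exists_int ρ x
    refine ⟨⟨(Z, A), hZ, hA⟩, ?_, (pt_eq_iff.2 hs).symm⟩
    rw [mem_hQ_iff]
    have e : IPair.rep ⟨(Z, A), hZ, hA⟩ = ofInt Z A (fun i => (hZ i).isFrame) hA.ne_zero := rfl
    rw [e, ← hG.same hs, h.height_same hs]
    exact ⟨hx1, hx2⟩
  · rintro ⟨x, hx, rfl⟩
    rw [mem_hQ_iff] at hx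
    exact ⟨x.rep, rfl, hx.1, hx.2⟩

theorem SatF.act {Z : Frm ℤ r N} (hZ : SatF Z) {g : Grp ℤ r} (hg : ∀ i, IsUnit (g i).det) :
    SatF (act g Z) := fun i => (hZ i).rowOp (hg i)

/-- the other integral coordinates of the same point -/
noncomputable def IPair.act (ρ : FRep r W) (x : IPair r N W) (g : Grp ℤ r)
    (hg : ∀ i, IsUnit (g i).det) (b : Bool) : IPair r N W :=
  ⟨(Gen.act g x.1.1, if b then ρ.pull ℤ g⁻¹ x.1.2 else -ρ.pull ℤ g⁻¹ x.1.2), x.2.1.act hg, by
    cases b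
    · exact (x.2.2.pull ρ (isUnit_inv_grp hg)).neg
    · exact x.2.2.pull ρ (isUnit_inv_grp hg)⟩

theorem pt_act (x : IPair r N W) (g : Grp ℤ r) (hg : ∀ i, IsUnit (g i).det) (b : Bool) :
    pt ρ (x.act ρ g hg b).rep = pt ρ x.rep := by
  refine (pt_eq_iff.2 ?_).symm
  refine same_of_orbit _ _ _ _ hg rfl ?_
  cases b
  · right
    simp only [IPair.act, Bool.false_eq_true, if_false]
    rw [pull_neg, pull_pull_inv ρ hg]
  · left
    simp only [IPair.act, if_true]
    rw [pull_pull_inv ρ hg]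

theorem realF_act (g : Grp ℤ r) (Z : Frm ℤ r N) (i : Fin k) :
    realF (act g Z) i = rowOp (castM (g i)) (realF Z i) := rowOp_real1 (g i) (Z i)

theorem wtt_act (t : ℝ) (g : Grp ℤ r) (Z : Frm ℤ r N) :
    wtt t (realF (act g Z)) = ∏ i, wt t (rowOp (castM (g i)) (realF Z i)) := by
  rw [wtt]
  exact Finset.prod_congr rfl fun i _ => by rw [realF_act]

theorem wtt_sum_le_one (hr : ∀ i, 0 < r i) {t : ℝ} (ht : 0 < t) (Z : Frm ℤ r N)
    (S : Finset (Grp ℤ r)) (hS : ∀ g ∈ S, ∀ i, IsUnit (g i).det) :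
    ∑ g ∈ S, wtt t (realF (act g Z)) ≤ 1 := by
  have h1 : S ⊆ Fintype.piFinset (fun i => S.image (fun g => g i)) := by
    intro g hg
    rw [Fintype.mem_piFinset]
    exact fun i => Finset.mem_image_of_mem _ hg
  refine (Finset.sum_le_sum_of_subset_of_nonneg h1 (fun _ _ _ => wtt_nonneg _ _)).trans ?_
  have h2 : ∑ g ∈ Fintype.piFinset (fun i => S.image (fun g => g i)), wtt t (realF (act g Z)) =
      ∏ i, ∑ g ∈ S.image (fun g => g i), wt t (rowOp (castM g) (realF Z i)) := by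
    rw [Finset.prod_univ_sum]
    exact Finset.sum_congr rfl fun g _ => wtt_act t g Z
  rw [h2]
  refine Finset.prod_le_one (fun i _ => Finset.sum_nonneg fun _ _ => wt_nonneg _ _) fun i _ => ?_
  refine wt_sum_le_one (hr i) ht _ _ ?_
  intro g hg
  obtain ⟨g', hg', rfl⟩ := Finset.mem_image.1 hg
  exact hS g' hg' i

/-- the weights of the coordinates of one point add up to at most two -/
theorem fib_upper (hr : ∀ i, 0 < r i) {t : ℝ} (ht : 0 < t) (F : Finset (IPair r N W))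
    (P : Pt N ρ.toRepData) :
    ∑ x ∈ F.filter (fun x => pt ρ x.rep = P), wtt t (realF x.1.1) ≤ 2 := by
  by_cases hE : F.filter (fun x => pt ρ x.rep = P) = ∅
  · rw [hE, Finset.sum_empty]; norm_num
  · obtain ⟨x0, hx0⟩ := Finset.nonempty_iff_ne_empty.2 hE
    have hx0P := (Finset.mem_filter.1 hx0).2
    have hex : ∀ x ∈ F.filter (fun x => pt ρ x.rep = P), ∃ g : Grp ℤ r,
        (∀ i, IsUnit (g i).det) ∧ x.1.1 = act g x0.1.1 ∧
          (ρ.pull ℤ g x.1.2 = x0.1.2 ∨ ρ.pull ℤ g x.1.2 = -x0.1.2) := by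
      intro x hx
      have hxP := (Finset.mem_filter.1 hx).2
      exact same_unique x0.2.1 x0.2.2 x.2.1 x.2.2 (pt_eq_iff.1 (hx0P.trans hxP.symm))
    choose! g hg1 hg2 hg3 using hex
    have key : ∀ F' ⊆ F.filter (fun x => pt ρ x.rep = P), Set.InjOn g F' →
        ∑ x ∈ F', wtt t (realF x.1.1) ≤ 1 := by
      intro F' hF' hinj
      have e : ∑ x ∈ F', wtt t (realF x.1.1) =
          ∑ l ∈ F'.image g, wtt t (realF (act l x0.1.1)) := by
        rw [Finset.sum_image hinj]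
        refine Finset.sum_congr rfl fun x hx => ?_
        rw [← hg2 x (hF' hx)]
      rw [e]
      refine wtt_sum_le_one hr ht _ _ ?_
      intro l hl
      obtain ⟨x, hx, rfl⟩ := Finset.mem_image.1 hl
      exact hg1 x (hF' hx)
    have hinv : ∀ x ∈ F.filter (fun x => pt ρ x.rep = P),
        x.1.2 = ρ.pull ℤ (g x)⁻¹ (ρ.pull ℤ (g x) x.1.2) := by
      intro x hx
      rw [pull_inv_pull ρ (hg1 x hx)]
    rw [← Finset.sum_filter_add_sum_filter_not (F.filter (fun x => pt ρ x.rep = P))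
      (fun x => ρ.pull ℤ (g x) x.1.2 = x0.1.2)]
    have h1 := key ((F.filter (fun x => pt ρ x.rep = P)).filter
      (fun x => ρ.pull ℤ (g x) x.1.2 = x0.1.2)) (Finset.filter_subset _ _) (by
        intro x hx y hy hxy
        obtain ⟨a1, a2⟩ := Finset.mem_filter.1 hx
        obtain ⟨b1, b2⟩ := Finset.mem_filter.1 hy
        apply Subtype.ext
        refine Prod.ext ?_ ?_
        · rw [hg2 x a1, hg2 y b1, hxy]
        · rw [hinv x a1, hinv y b1, a2, b2, hxy])
    have h2 := key ((F.filter (fun x => pt ρ x.rep = P)).filter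
      (fun x => ¬ ρ.pull ℤ (g x) x.1.2 = x0.1.2)) (Finset.filter_subset _ _) (by
        intro x hx y hy hxy
        obtain ⟨a1, a2⟩ := Finset.mem_filter.1 hx
        obtain ⟨b1, b2⟩ := Finset.mem_filter.1 hy
        apply Subtype.ext
        refine Prod.ext ?_ ?_
        · rw [hg2 x a1, hg2 y b1, hxy]
        · rw [hinv x a1, hinv y b1, (hg3 x a1).resolve_left a2, (hg3 y b1).resolve_left b2, hxy])
    linarith

/-- the weights of the coordinates of a balanced point add up to at least two -/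
theorem fib_lower (hr : ∀ i, 0 < r i) {t : ℝ} (ht : 0 < t) (F : Finset (IPair r N W))
    (x0 : IPair r N W) (hb : ∀ i, bal t (realF x0.1.1 i) = 1)
    (hF : ∀ x : IPair r N W, pt ρ x.rep = pt ρ x0.rep → wtt t (realF x.1.1) ≠ 0 → x ∈ F) :
    2 ≤ ∑ x ∈ F.filter (fun x => pt ρ x.rep = pt ρ x0.rep), wtt t (realF x.1.1) := by
  set Γ : Finset (Grp ℤ r) :=
    Fintype.piFinset (fun i => GammaR (r i) ⌈bc (r i) (N i) * t⌉₊) with hΓ
  have hΓu : ∀ g ∈ Γ, ∀ i, IsUnit (g i).det := fun g hg i =>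
    ((mem_GammaR _ _).1 ((Fintype.mem_piFinset.1 hg) i)).2
  have h1 : 1 ≤ ∑ g ∈ Γ, wtt t (realF (act g x0.1.1)) := by
    have e : ∑ g ∈ Γ, wtt t (realF (act g x0.1.1)) =
        ∏ i, ∑ g ∈ GammaR (r i) ⌈bc (r i) (N i) * t⌉₊,
          wt t (rowOp (castM g) (realF x0.1.1 i)) := by
      rw [Finset.prod_univ_sum]
      exact Finset.sum_congr rfl fun g _ => wtt_act t g x0.1.1
    rw [e]
    have h2 : ∀ i, 1 ≤ ∑ g ∈ GammaR (r i) ⌈bc (r i) (N i) * t⌉₊,
        wt t (rowOp (castM g) (realF x0.1.1 i)) := by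
      intro i
      have hcast1 : rowOp (castM 1) (realF x0.1.1 i) = realF x0.1.1 i := by
        rw [castM_one, rowOp_one]
      refine one_le_wt_sum _ _ (fun g hg => ((mem_GammaR _ _).1 hg).2) ?_
        ⟨1, by simp, by rw [hcast1]; exact hb i⟩
      intro g hg hbal
      have := mem_GammaR_of_bal (hr i) ht (Z := realF x0.1.1 i) (g := 1) (h := g) (by simp) hg
        (by rw [hcast1, hb i]; exact one_pos) hbal
      rwa [inv_one, Matrix.mul_one] at this
    calc (1:ℝ) = ∏ _i : Fin k, (1:ℝ) := by simp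
      _ ≤ _ := Finset.prod_le_prod (fun _ _ => zero_le_one) fun i _ => h2 i
  set Γ' := Γ.filter (fun g => wtt t (realF (act g x0.1.1)) ≠ 0) with hΓ'
  have h2 : ∑ g ∈ Γ', wtt t (realF (act g x0.1.1)) = ∑ g ∈ Γ, wtt t (realF (act g x0.1.1)) := by
    rw [hΓ', Finset.sum_filter_ne_zero]
  have h3 : ∀ b : Bool, ∀ g : {g // g ∈ Γ'},
      x0.act ρ g.1 (hΓu g.1 (Finset.mem_filter.1 g.2).1) b ∈
        F.filter (fun x => pt ρ x.rep = pt ρ x0.rep) := by
    intro b g
    rw [Finset.mem_filter]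
    have e := pt_act (ρ := ρ) x0 g.1 (hΓu g.1 (Finset.mem_filter.1 g.2).1) b
    exact ⟨hF _ e (Finset.mem_filter.1 g.2).2, e⟩
  set Φ : {g // g ∈ Γ'} × Bool → IPair r N W := fun x =>
    x0.act ρ x.1.1 (hΓu x.1.1 (Finset.mem_filter.1 x.1.2).1) x.2 with hΦ
  have hinj : Function.Injective Φ := by
    rintro ⟨⟨g, hg⟩, b⟩ ⟨⟨l, hl⟩, c⟩ hgl
    have e1 : act g x0.1.1 = act l x0.1.1 := congrArg (fun x : IPair r N W => x.1.1) hgl
    have e2 := act_inj_int x0.2.1.allFrame e1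
    subst e2
    have e3 : (if b then ρ.pull ℤ g⁻¹ x0.1.2 else -ρ.pull ℤ g⁻¹ x0.1.2) =
        (if c then ρ.pull ℤ g⁻¹ x0.1.2 else -ρ.pull ℤ g⁻¹ x0.1.2) :=
      congrArg (fun x : IPair r N W => x.1.2) hgl
    have hne : ρ.pull ℤ g⁻¹ x0.1.2 ≠ 0 :=
      (x0.2.2.pull ρ (isUnit_inv_grp (hΓu g (Finset.mem_filter.1 hg).1))).ne_zero
    have hne2 : ρ.pull ℤ g⁻¹ x0.1.2 ≠ -ρ.pull ℤ g⁻¹ x0.1.2 := by
      intro h0
      apply hne
      funext w
      have := congrFun h0 w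
      simp only [Pi.neg_apply, Pi.zero_apply] at this ⊢
      omega
    cases b <;> cases c
    · rfl
    · simp only [Bool.false_eq_true, if_false, if_true] at e3
      exact absurd e3.symm hne2
    · simp only [Bool.false_eq_true, if_false, if_true] at e3
      exact absurd e3 hne2
    · rfl
  have h4 : ∑ y ∈ (Finset.univ : Finset ({g // g ∈ Γ'} × Bool)), wtt t (realF (Φ y).1.1) ≤
      ∑ x ∈ F.filter (fun x => pt ρ x.rep = pt ρ x0.rep), wtt t (realF x.1.1) := by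
    rw [← Finset.sum_image (f := fun x : IPair r N W => wtt t (realF x.1.1))
      (fun a _ b _ hab => hinj hab)]
    refine Finset.sum_le_sum_of_subset_of_nonneg ?_ (fun _ _ _ => wtt_nonneg _ _)
    intro x hx
    obtain ⟨y, _, rfl⟩ := Finset.mem_image.1 hx
    exact h3 y.2 y.1
  have h5 : ∑ y ∈ (Finset.univ : Finset ({g // g ∈ Γ'} × Bool)), wtt t (realF (Φ y).1.1) =
      2 * ∑ g ∈ Γ', wtt t (realF (act g x0.1.1)) := by
    rw [← Finset.univ_product_univ, Finset.sum_product]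
    have e : ∀ x : {g // g ∈ Γ'}, ∑ y : Bool, wtt t (realF (Φ (x, y)).1.1) =
        2 * wtt t (realF (act x.1 x0.1.1)) := by
      intro x
      have e1 : ∀ y : Bool, (Φ (x, y)).1.1 = act x.1 x0.1.1 := fun y => rfl
      rw [Fintype.sum_bool, e1, e1]
      ring
    rw [Finset.sum_congr rfl (fun x _ => e x), ← Finset.mul_sum]
    congr 1
    exact Finset.sum_coe_sort Γ' (fun g => wtt t (realF (act g x0.1.1)))
  rw [h5, h2] at h4
  linarith

end Pool.Agent.Lib.MP_1acd66_nt.Gen
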