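import Pool.Agent.Lib.MP_1acd66_nt.Gen.FormsPoly
import Pool.Agent.Lib.MP_1acd66_nt.Gen.Tight

/-!
The representation of `∏ GL (r i)` on systems of `m` forms of multidegree `d`.
-/

namespace Pool.Agent.Lib.MP_1acd66_nt.Gen

open Finset

variable {k : ℕ} {r d : Fin k → ℕ} {m : ℕ}

/-! ### Weights -/

theorem sum_wt_WF (i : Fin k) : ∑ a, ∑ w : WF m r d, (w.2 i).1 a =
    Fintype.card (WF m r d) * d i := by
  rw [sum_comm]
  simp only [Ex.sum_eq, sum_const, card_univ, smul_eq_mul]

/-- exchange of two exponents -/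
def swapEx {n e : ℕ} (a a' : Fin n) (α : Ex n e) : Ex n e :=
  ⟨fun c => α.1 (Equiv.swap a a' c), by
    rw [mem_piAntidiag]
    refine ⟨?_, fun _ _ => mem_univ _⟩
    exact (Equiv.sum_comp (Equiv.swap a a') (fun c => α.1 c)).trans α.sum_eq⟩

theorem swapEx_swapEx {n e : ℕ} (a a' : Fin n) (α : Ex n e) :
    swapEx a a' (swapEx a a' α) = α := by
  apply Subtype.ext
  funext c
  simp [swapEx]

theorem wt_symm_WF (i : Fin k) (a a' : Fin (r i)) :
    ∑ w : WF m r d, (w.2 i).1 a = ∑ w : WF m r d, (w.2 i).1 a' := by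
  set f : WF m r d → WF m r d := fun w => (w.1, Function.update w.2 i (swapEx a a' (w.2 i)))
    with hf
  have hinv : Function.Involutive f := by
    intro w
    refine Prod.ext rfl ?_
    simp only [hf, Function.update_self, Function.update_idem, swapEx_swapEx,
      Function.update_eq_self]
  rw [← Equiv.sum_comp (Function.Involutive.toPerm f hinv) (fun w : WF m r d => (w.2 i).1 a)]
  refine sum_congr rfl fun w _ => ?_
  have h1 : (Function.Involutive.toPerm f hinv w) = f w := rfl
  rw [h1]
  simp only [hf, Function.update_self, swapEx, Equiv.swap_apply_left]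

theorem wt_total_WF (i : Fin k) (a : Fin (r i)) :
    ∑ w : WF m r d, (w.2 i).1 a = Fintype.card (WF m r d) * d i / r i := by
  have h1 := sum_wt_WF (m := m) (r := r) (d := d) i
  rw [sum_congr rfl fun a' _ => wt_symm_WF (m := m) (d := d) i a' a, sum_const, card_univ,
    Fintype.card_fin, smul_eq_mul] at h1
  have hr : 0 < r i := Fin.pos a
  rw [← h1, Nat.mul_div_cancel_left _ hr]

theorem card_Ex (n e : ℕ) :
    (Finset.piAntidiag (univ : Finset (Fin n)) e).card = (n + e - 1).choose e := by
  classical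
  rw [← map_sym_eq_piAntidiag, card_map, sym_univ, card_univ, Sym.card_sym_eq_multichoose,
    Fintype.card_fin, Nat.multichoose_eq]

theorem card_WF (m : ℕ) (r d : Fin k → ℕ) :
    Fintype.card (WF m r d) = m * ∏ j, (r j + d j - 1).choose (d j) := by
  rw [Fintype.card_prod, Fintype.card_fin, Fintype.card_pi]
  congr 1
  refine prod_congr rfl fun i _ => ?_
  rw [Fintype.card_coe, card_Ex]

/-- The representation on systems of `m` forms of multidegree `d`. -/
noncomputable def repForms (m : ℕ) (r d : Fin k → ℕ) : FRep r (WF m r d) where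
  toRepData := formsData m r d
  pull_one K _ A := by
    funext w
    exact congrFun (pullC_one (fun β => A (w.1, β))) w.2
  pull_mul K _ g h A := by
    funext w
    exact congrFun (pullC_mul g h (fun β => A (w.1, β))) w.2
  pull_add K _ g A B := by
    funext w
    exact congrFun (pullC_add g (fun β => A (w.1, β)) (fun β => B (w.1, β))) w.2
  pull_smul K _ g s A := by
    funext w
    exact congrFun (pullC_smul g s (fun β => A (w.1, β))) w.2
  pull_map K L _ _ f g A := by
    funext w
    exact congrFun (pullC_map f g (fun β => A (w.1, β))) w.2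
  cont K _ := by
    refine continuous_pi fun w => ?_
    have h := pullC_cont (X := Grp K r × (WF m r d → K)) (g := fun x => x.1) continuous_fst
      (c := fun x β => x.2 (w.1, β)) (continuous_pi fun β =>
        (continuous_apply (w.1, β)).comp continuous_snd)
    exact (continuous_apply w.2).comp h
  wt w i a := (w.2 i).1 a
  pull_diag K _ l A w := pullC_diag l (fun β => A (w.1, β)) w.2
  deg := d
  wt_sum w i := (w.2 i).sum_eq
  wt_total i a := by
    rw [wt_total_WF i a, card_WF]
    rfl

/-- `r i * b i = card W * d i` -/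
theorem repForms_b (i : Fin k) (hr : 0 < r i) :
    r i * (repForms m r d).b i = Fintype.card (WF m r d) * d i := by
  have h1 := sum_wt_WF (m := m) (r := r) (d := d) i
  rw [sum_congr rfl fun a' _ => wt_symm_WF (m := m) (d := d) i a' ⟨0, hr⟩, sum_const, card_univ,
    Fintype.card_fin, smul_eq_mul, wt_total_WF] at h1
  rw [← h1, card_WF]
  rfl

/-! ### Values -/

theorem eval_polyF {K : Type} [CommRing K] (c : ExF r d → K) (u : ∀ i, Fin (r i) → K) :
    MvPolynomial.eval (fun v : Vr r => u v.1 v.2) (polyF c) =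
      ∑ β, c β * ∏ i, ∏ a, u i a ^ (β i).1 a := by
  rw [polyF, map_sum]
  refine sum_congr rfl fun β _ => ?_
  rw [MvPolynomial.eval_monomial, Finsupp.prod_fintype _ _ (fun v => pow_zero _),
    Fintype.prod_sigma]
  rfl

theorem formVal_eq {K : Type} [CommRing K] (A : WF m r d → K) (e : Fin m)
    (u : ∀ i, Fin (r i) → K) : formVal A e u =
      MvPolynomial.eval (fun v : Vr r => u v.1 v.2) (polyF fun β => A (e, β)) := by
  rw [eval_polyF]
  rfl

theorem formVal_pull {K : Type} [CommRing K] (g : Grp K r) (A : WF m r d → K) (e : Fin m)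
    (u : ∀ i, Fin (r i) → K) :
    formVal ((repForms m r d).pull K g A) e u = formVal A e (fun i => (g i).mulVec (u i)) := by
  rw [formVal_eq, formVal_eq]
  have h1 : (polyF fun β => (repForms m r d).pull K g A (e, β)) =
      MvPolynomial.bind₁ (subF g) (polyF fun β => A (e, β)) :=
    polyF_pullC g (fun β => A (e, β))
  rw [h1]
  have h2 := MvPolynomial.eval₂Hom_bind₁ (RingHom.id K) (fun v : Vr r => u v.1 v.2) (subF g)
    (polyF fun β => A (e, β))
  have h3 : (fun v : Vr r => MvPolynomial.eval₂Hom (RingHom.id K) (fun v : Vr r => u v.1 v.2)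
      (subF g v)) = fun v : Vr r => (g v.1).mulVec (u v.1) v.2 := by
    funext v
    rw [subF, map_sum, Matrix.mulVec, dotProduct]
    refine sum_congr rfl fun b _ => ?_
    rw [map_mul, MvPolynomial.eval₂Hom_C, MvPolynomial.eval₂Hom_X']
    rfl
  rw [h3] at h2
  exact h2

theorem formVal_smul {K : Type} [CommRing K] (s : K) (A : WF m r d → K) (e : Fin m)
    (u : ∀ i, Fin (r i) → K) : formVal (s • A) e u = s * formVal A e u := by
  simp only [formVal, Pi.smul_apply, smul_eq_mul, mul_sum, mul_assoc]

theorem formVal_add {K : Type} [CommRing K] (A B : WF m r d → K) (e : Fin m)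
    (u : ∀ i, Fin (r i) → K) : formVal (A + B) e u = formVal A e u + formVal B e u := by
  simp only [formVal, Pi.add_apply, add_mul, sum_add_distrib]

/-- homogeneity in the point -/
theorem formVal_smul_pt {K : Type} [CommRing K] (s : Fin k → K) (A : WF m r d → K) (e : Fin m)
    (u : ∀ i, Fin (r i) → K) :
    formVal A e (fun i => s i • u i) = (∏ i, s i ^ d i) * formVal A e u := by
  rw [formVal, formVal, mul_sum]
  refine sum_congr rfl fun β _ => ?_
  have h1 : ∏ i, ∏ a, (s i • u i) a ^ (β i).1 a =
      (∏ i, s i ^ d i) * ∏ i, ∏ a, u i a ^ (β i).1 a := by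
    rw [← prod_mul_distrib]
    refine prod_congr rfl fun i _ => ?_
    simp only [Pi.smul_apply, smul_eq_mul, mul_pow, prod_mul_distrib]
    rw [prod_pow_eq_pow_sum, (β i).sum_eq]
  rw [h1]
  ring

theorem formVal_map {K L : Type} [CommRing K] [CommRing L] (f : K →+* L) (A : WF m r d → K)
    (e : Fin m) (u : ∀ i, Fin (r i) → K) :
    formVal (fun w => f (A w)) e (fun i a => f (u i a)) = f (formVal A e u) := by
  rw [formVal, formVal, map_sum]
  refine sum_congr rfl fun β _ => ?_
  simp only [map_mul, map_prod, map_pow]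

theorem goodForms_pull {g : Grp ℚ r} {A : WF m r d → ℚ} (hg : ∀ i, (g i).det ≠ 0)
    (hA : goodForms m r d A) : goodForms m r d ((repForms m r d).pull ℚ g A) := by
  intro u hu
  obtain ⟨e, he⟩ := hA (fun i => (g i).mulVec (u i)) (fun i h => hu i
    (Matrix.eq_zero_of_mulVec_eq_zero (hg i) h))
  exact ⟨e, by rw [formVal_pull]; exact he⟩

theorem goodInv_forms (m : ℕ) (r d : Fin k → ℕ) :
    GoodInv (repForms m r d) (goodForms m r d) where
  smul s A hs := by
    refine forall_congr' fun u => forall_congr' fun _ => exists_congr fun e => ?_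
    rw [formVal_smul]
    exact ⟨right_ne_zero_of_mul, mul_ne_zero hs⟩
  pull g A hg := by
    refine ⟨fun h => ?_, goodForms_pull hg⟩
    have hgu : ∀ i, IsUnit (g i).det := fun i => isUnit_iff_ne_zero.2 (hg i)
    have h1 : ∀ i, (g⁻¹ i).det ≠ 0 := fun i =>
      (Matrix.isUnit_nonsing_inv_det _ (hgu i)).ne_zero
    have h2 := goodForms_pull (g := g⁻¹) h1 h
    rwa [pull_inv_pull (repForms m r d) hgu A] at h2

/-! ### The cusp data -/

/-- the height of an exponent vector -/
def htE (n : Vr r →₀ ℕ) : ℕ := ∑ v : Vr r, (v.2 : ℕ) * n v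

theorem htE_add (n n' : Vr r →₀ ℕ) : htE (n + n') = htE n + htE n' := by
  simp only [htE, Finsupp.add_apply, mul_add, sum_add_distrib]

theorem htE_single (v : Vr r) : htE (Finsupp.single v 1) = (v.2 : ℕ) := by
  classical
  rw [htE, sum_eq_single v]
  · simp
  · intro v' _ h
    rw [Finsupp.single_apply, if_neg h.symm, mul_zero]
  · intro h; exact absurd (mem_univ _) h

/-- `F` is the monomial `n` plus terms of smaller height -/
def TT (F : MvPolynomial (Vr r) ℝ) (n : Vr r →₀ ℕ) : Prop :=
  MvPolynomial.coeff n F = 1 ∧ ∀ n', MvPolynomial.coeff n' F ≠ 0 → n' ≠ n → htE n' < htE n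

theorem TT.le {F : MvPolynomial (Vr r) ℝ} {n : Vr r →₀ ℕ} (h : TT F n) {n' : Vr r →₀ ℕ}
    (h' : MvPolynomial.coeff n' F ≠ 0) : htE n' ≤ htE n := by
  by_cases h1 : n' = n
  · rw [h1]
  · exact (h.2 n' h' h1).le

theorem TT.one : TT (1 : MvPolynomial (Vr r) ℝ) 0 := by
  classical
  refine ⟨?_, ?_⟩
  · rw [← MvPolynomial.C_1, MvPolynomial.coeff_C, if_pos rfl]
  · intro n' h1 h2
    rw [← MvPolynomial.C_1, MvPolynomial.coeff_C, if_neg (Ne.symm h2)] at h1
    exact absurd rfl h1

theorem TT.mul {F G : MvPolynomial (Vr r) ℝ} {n n' : Vr r →₀ ℕ} (hF : TT F n) (hG : TT G n') :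
    TT (F * G) (n + n') := by
  classical
  have key : ∀ x y : Vr r →₀ ℕ, MvPolynomial.coeff x F * MvPolynomial.coeff y G ≠ 0 →
      htE (n + n') ≤ htE (x + y) → x = n ∧ y = n' := by
    intro x y hne hle
    have h1 := hF.le (left_ne_zero_of_mul hne)
    have h2 := hG.le (right_ne_zero_of_mul hne)
    rw [htE_add, htE_add] at hle
    constructor
    · by_contra h3
      have := hF.2 x (left_ne_zero_of_mul hne) h3
      omega
    · by_contra h3
      have := hG.2 y (right_ne_zero_of_mul hne) h3
      omega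
  refine ⟨?_, ?_⟩
  · rw [MvPolynomial.coeff_mul, sum_eq_single (n, n')]
    · rw [hF.1, hG.1, one_mul]
    · intro x hx hne
      by_contra h
      rw [HasAntidiagonal.mem_antidiagonal] at hx
      obtain ⟨h1, h2⟩ := key x.1 x.2 h (by rw [hx])
      exact hne (Prod.ext h1 h2)
    · intro h
      apply absurd _ h
      rw [HasAntidiagonal.mem_antidiagonal]
  · intro y hy hne
    rw [MvPolynomial.coeff_mul] at hy
    obtain ⟨x, hx, hx2⟩ := exists_ne_zero_of_sum_ne_zero hy
    rw [HasAntidiagonal.mem_antidiagonal] at hx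
    by_contra hlt
    obtain ⟨h1, h2⟩ := key x.1 x.2 hx2 (by rw [hx]; omega)
    exact hne (by rw [← hx, h1, h2])

theorem TT.pow {F : MvPolynomial (Vr r) ℝ} {n : Vr r →₀ ℕ} (hF : TT F n) (j : ℕ) :
    TT (F ^ j) (j • n) := by
  induction j with
  | zero => rw [pow_zero, zero_smul]; exact TT.one
  | succ j ih => rw [pow_succ, succ_nsmul]; exact ih.mul hF

theorem TT.prod {ι : Type*} (s : Finset ι) {F : ι → MvPolynomial (Vr r) ℝ}
    {n : ι → Vr r →₀ ℕ} (h : ∀ i ∈ s, TT (F i) (n i)) : TT (∏ i ∈ s, F i) (∑ i ∈ s, n i) := by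
  classical
  induction s using Finset.induction_on with
  | empty => rw [prod_empty, sum_empty]; exact TT.one
  | insert i s hi ih =>
    rw [prod_insert hi, sum_insert hi]
    exact (h i (mem_insert_self _ _)).mul (ih fun j hj => h j (mem_insert_of_mem hj))

theorem coeff_subF {K : Type} [CommRing K] (g : Grp K r) (v : Vr r) (n : Vr r →₀ ℕ) :
    MvPolynomial.coeff n (subF g v) = ∑ b, g v.1 v.2 b *
      (if Finsupp.single (⟨v.1, b⟩ : Vr r) 1 = n then 1 else 0) := by
  classical
  rw [subF, MvPolynomial.coeff_sum]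
  refine sum_congr rfl fun b _ => ?_
  rw [MvPolynomial.coeff_C_mul, MvPolynomial.coeff_X]

theorem single_vr_injective (i : Fin k) {b b' : Fin (r i)}
    (h : (Finsupp.single (⟨i, b⟩ : Vr r) 1 : Vr r →₀ ℕ) = Finsupp.single (⟨i, b'⟩ : Vr r) 1) :
    b = b' := by
  have h1 := Finsupp.single_left_injective (one_ne_zero) h
  exact eq_of_heq (Sigma.mk.inj_iff.1 h1).2

theorem TT.subF {μ : Grp ℝ r} (hμ : UniLower μ) (v : Vr r) :
    TT (subF μ v) (Finsupp.single v 1) := by
  classical
  obtain ⟨hd, hu, _⟩ := hμ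
  obtain ⟨i, a⟩ := v
  refine ⟨?_, ?_⟩
  · rw [coeff_subF, sum_eq_single a]
    · simp [hd]
    · intro b _ hb
      rw [if_neg, mul_zero]
      intro h
      exact hb (single_vr_injective i h)
    · intro h; exact absurd (mem_univ _) h
  · intro n hn hne
    rw [coeff_subF] at hn
    obtain ⟨b, _, hb⟩ := exists_ne_zero_of_sum_ne_zero hn
    have h1 : (Finsupp.single (⟨i, b⟩ : Vr r) 1 : Vr r →₀ ℕ) = n := by
      by_contra h
      rw [if_neg h, mul_zero] at hb
      exact hb rfl
    have h2 : b ≤ a := by
      by_contra h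
      push Not at h
      have := left_ne_zero_of_mul hb
      exact this (hu i a b h)
    have h3 : b ≠ a := by
      intro h
      rw [h] at h1
      exact hne h1.symm
    rw [← h1, htE_single, htE_single]
    exact Fin.lt_def.1 (lt_of_le_of_ne h2 h3)

theorem TT.subM {μ : Grp ℝ r} (hμ : UniLower μ) (n : Vr r →₀ ℕ) :
    TT (subM μ n) n := by
  classical
  have h := TT.prod (univ : Finset (Vr r)) (F := fun v => Gen.subF μ v ^ n v)
    (n := fun v => n v • Finsupp.single v 1) (fun v _ => (TT.subF hμ v).pow _)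
  have h1 : ∑ v : Vr r, n v • (Finsupp.single v 1 : Vr r →₀ ℕ) = n := by
    ext v
    rw [Finsupp.finsetSum_apply, sum_eq_single v]
    · simp
    · intro v' _ hne
      rw [Finsupp.smul_apply, Finsupp.single_apply, if_neg hne, smul_zero]
    · intro h; exact absurd (mem_univ _) h
  rw [h1] at h
  exact h

theorem pull_single_forms {K : Type} [CommRing K] [DecidableEq (WF m r d)] (g : Grp K r)
    (w w' : WF m r d) :
    (repForms m r d).pull K g (Pi.single w' 1) w =
      if w.1 = w'.1 then MvPolynomial.coeff (expo w.2) (subM g (expo w'.2)) else 0 := by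
  change pullC g (fun β => (Pi.single w' (1:K) : WF m r d → K) (w.1, β)) w.2 = _
  rw [pullC_eq]
  by_cases h : w.1 = w'.1
  · rw [if_pos h, sum_eq_single w'.2]
    · rw [h]
      have : (w'.1, w'.2) = w' := rfl
      rw [this, Pi.single_eq_same, one_mul]
    · intro γ _ hne
      rw [Pi.single_eq_of_ne, zero_mul]
      intro h1
      exact hne (congrArg Prod.snd h1)
    · intro h; exact absurd (mem_univ _) h
  · rw [if_neg h]
    refine sum_eq_zero fun γ _ => ?_
    rw [Pi.single_eq_of_ne, zero_mul]
    intro h1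
    apply h
    rw [← h1]

/-- the last index -/
def lastI {n : ℕ} (hn : 0 < n) : Fin n := ⟨n - 1, by omega⟩

theorem le_lastI {n : ℕ} (hn : 0 < n) (a : Fin n) : a ≤ lastI hn := by
  rw [Fin.le_def]
  have : (lastI hn : ℕ) = n - 1 := rfl
  omega

/-- the exponent vector of the highest monomial -/
def topE (hr : ∀ i, 0 < r i) (d : Fin k → ℕ) : ExF r d := fun i =>
  ⟨Pi.single (lastI (hr i)) (d i), by
    rw [mem_piAntidiag]
    refine ⟨?_, fun _ _ => mem_univ _⟩
    rw [sum_eq_single (lastI (hr i))]
    · exact Pi.single_eq_same _ _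
    · intro b _ hb
      exact Pi.single_eq_of_ne hb _
    · intro h; exact absurd (mem_univ _) h⟩

theorem htE_topE (hr : ∀ i, 0 < r i) : htE (expo (topE hr d)) = ∑ i, (r i - 1) * d i := by
  rw [htE, Fintype.sum_sigma]
  refine sum_congr rfl fun i _ => ?_
  rw [sum_eq_single (lastI (hr i))]
  · simp only [expo_apply, topE, Pi.single_eq_same]
    rfl
  · intro b _ hb
    simp only [expo_apply, topE]
    rw [Pi.single_eq_of_ne hb, mul_zero]
  · intro h; exact absurd (mem_univ _) h

theorem htE_le_top (β : ExF r d) : htE (expo β) ≤ ∑ i, (r i - 1) * d i := by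
  rw [htE, Fintype.sum_sigma]
  refine sum_le_sum fun i _ => ?_
  rw [← (β i).sum_eq, mul_sum]
  refine sum_le_sum fun a _ => ?_
  have h1 : (a : ℕ) ≤ r i - 1 := by
    have := a.2
    omega
  exact Nat.mul_le_mul_right _ h1

/-- the top coefficient is not changed by a lower unipotent matrix -/
theorem pull_top {μ : Grp ℝ r} (hμ : UniLower μ) (hr : ∀ i, 0 < r i) (A : WF m r d → ℝ)
    (e : Fin m) : (repForms m r d).pull ℝ μ A (e, topE hr d) = A (e, topE hr d) := by
  change pullC μ (fun β => A (e, β)) (topE hr d) = _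
  rw [pullC_eq, sum_eq_single (topE hr d)]
  · rw [(TT.subM hμ _).1, mul_one]
  · intro γ _ hne
    have h0 : MvPolynomial.coeff (expo (topE hr d)) (subM μ (expo γ)) = 0 := by
      by_contra h
      have h1 := (TT.subM hμ (expo γ)).2 _ h (fun h2 => hne (expo_injective h2).symm)
      rw [htE_topE] at h1
      have := htE_le_top γ
      omega
    rw [h0, mul_zero]
  · intro h; exact absurd (mem_univ _) h

theorem formVal_last {K : Type} [CommRing K] (hr : ∀ i, 0 < r i) (A : WF m r d → K) (e : Fin m) :
    formVal A e (fun i => Pi.single (lastI (hr i)) 1) = A (e, topE hr d) := by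
  classical
  rw [formVal, sum_eq_single (topE hr d)]
  · have h1 : ∏ i, ∏ a, (Pi.single (lastI (hr i)) (1:K) : Fin (r i) → K) a ^
        (topE hr d i).1 a = 1 := by
      refine prod_eq_one fun i _ => prod_eq_one fun a _ => ?_
      by_cases h : a = lastI (hr i)
      · rw [h, Pi.single_eq_same, one_pow]
      · simp only [topE]
        rw [Pi.single_eq_of_ne h, Pi.single_eq_of_ne h, pow_zero]
    rw [h1, mul_one]
  · intro β _ hne
    have : ∃ i, ∃ a, a ≠ lastI (hr i) ∧ (β i).1 a ≠ 0 := by
      by_contra hcon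
      push Not at hcon
      apply hne
      funext i
      apply Subtype.ext
      funext a
      simp only [topE]
      by_cases h : a = lastI (hr i)
      · subst h
        rw [Pi.single_eq_same]
        have h2 := (β i).sum_eq
        rw [sum_eq_single (lastI (hr i))] at h2
        · exact h2
        · intro b _ hb
          exact hcon i b hb
        · intro h; exact absurd (mem_univ _) h
      · rw [Pi.single_eq_of_ne h, hcon i a h]
    obtain ⟨i, a, ha, hb⟩ := this
    rw [prod_eq_zero (mem_univ i), mul_zero]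
    rw [prod_eq_zero (mem_univ a)]
    rw [Pi.single_eq_of_ne ha, zero_pow hb]
  · intro h; exact absurd (mem_univ _) h

theorem mono_top_le {c : ℝ} (hc : 1 ≤ c) (hr : ∀ i, 0 < r i) {l : ∀ i, Fin (r i) → ℝ}
    (hl : ∀ i a, 0 < l i a) (hlc : ∀ i a b, a ≤ b → l i a ≤ c * l i b) (w : WF m r d) (e : Fin m) :
    mono (repForms m r d) l w ≤ c ^ (∑ i, d i) * mono (repForms m r d) l (e, topE hr d) := by
  have hc0 : 0 < c := by linarith
  have h1 : mono (repForms m r d) l (e, topE hr d) = ∏ i, l i (lastI (hr i)) ^ d i := by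
    rw [mono]
    refine prod_congr rfl fun i _ => ?_
    change ∏ a, l i a ^ (topE hr d i).1 a = _
    rw [prod_eq_single (lastI (hr i))]
    · simp only [topE, Pi.single_eq_same]
    · intro a _ ha
      simp only [topE]
      rw [Pi.single_eq_of_ne ha, pow_zero]
    · intro h; exact absurd (mem_univ _) h
  rw [h1, ← prod_pow_eq_pow_sum, ← prod_mul_distrib, mono]
  refine prod_le_prod (fun i _ => prod_nonneg fun a _ => (pow_pos (hl i a) _).le) fun i _ => ?_
  rw [← mul_pow]
  change ∏ a, l i a ^ (w.2 i).1 a ≤ _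
  calc ∏ a, l i a ^ (w.2 i).1 a ≤ ∏ a, (c * l i (lastI (hr i))) ^ (w.2 i).1 a := by
        refine prod_le_prod (fun a _ => (pow_pos (hl i a) _).le) fun a _ => ?_
        exact pow_le_pow_left₀ (hl i a).le (hlc i a _ (le_lastI (hr i) a)) _
    _ = (c * l i (lastI (hr i))) ^ d i := by
        rw [prod_pow_eq_pow_sum, (w.2 i).sum_eq]

theorem cuspData_forms (m : ℕ) (hr : ∀ i, 0 < r i) (hd : ∀ i, 0 < d i) :
    CuspData (repForms m r d) (goodForms m r d) where
  deg_pos := hd
  tri := by
    classical
    refine tri_of_basis (repForms m r d) (fun w => htE (expo w.2)) ?_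
    intro μ hμ
    constructor
    · intro w
      rw [pull_single_forms, if_pos rfl, (TT.subM hμ _).1]
    · intro w w' hne hle
      rw [pull_single_forms]
      by_cases h : w.1 = w'.1
      · rw [if_pos h]
        by_contra h1
        have h2 := (TT.subM hμ (expo w'.2)).2 _ h1 (fun h3 => hne
          (Prod.ext h.symm (expo_injective h3).symm))
        omega
      · rw [if_neg h]
  cusp := by
    refine ⟨0, zero_lt_one, ?_⟩
    intro c hc
    have hc0 : 0 < c := by linarith
    have hlogc : 0 ≤ Real.log c := Real.log_nonneg hc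
    refine ⟨∑ _w : WF m r d, (∑ i, d i : ℕ) * Real.log c, ?_⟩
    intro μ hμ l hl hlc R hR A hA hle
    obtain ⟨e, he⟩ := hA (fun i => Pi.single (lastI (hr i)) 1) (fun i h => by
      have := congrFun h (lastI (hr i))
      rw [Pi.single_eq_same] at this
      exact one_ne_zero this)
    rw [formVal_last] at he
    have hne : A (e, topE hr d) ≠ 0 := by
      intro h
      apply he
      rw [ratW, h, Int.cast_zero]
    have h1 := hle (e, topE hr d)
    rw [pull_top hμ, abs_mul, abs_of_pos (mono_pos _ hl _)] at h1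
    have h2 : (1:ℝ) ≤ |realW A (e, topE hr d)| := by
      rw [realW]
      have : (1:ℤ) ≤ |A (e, topE hr d)| := Int.one_le_abs hne
      exact_mod_cast this
    have hpos := mono_pos (repForms m r d) hl (e, topE hr d)
    have h3 : mono (repForms m r d) l (e, topE hr d) ≤ R := by nlinarith
    rw [zero_mul, zero_add]
    refine sum_le_sum fun w _ => ?_
    refine max_le (mul_nonneg (Nat.cast_nonneg _) hlogc) ?_
    have h4 := mono_top_le hc hr hl hlc w e
    have h5 : mono (repForms m r d) l w ≤ c ^ (∑ i, d i) * R :=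
      h4.trans (mul_le_mul_of_nonneg_left h3 (by positivity))
    have h6 := Real.log_le_log (mono_pos _ hl w) h5
    rw [Real.log_mul (by positivity) hR.ne', Real.log_pow] at h6
    linarith

end Pool.Agent.Lib.MP_1acd66_nt.Gen
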