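import Pool.Agent.Lib.MP_1acd66_nt.Gen.FamBoundary
import Pool.Agent.Lib.MP_1acd66_nt.Gen.FormsRep

/-!
Density of the systems of multihomogeneous forms without common rational zero.
-/

namespace Pool.Agent.Lib.MP_1acd66_nt.Gen

open Finset

variable {k : ℕ} {r d : Fin k → ℕ}

/-- Systems of forms with a common rational zero have density zero if there are more forms than
the dimension of the product of projective spaces, or as many and all degrees are at least two. -/
theorem densityZero_goodForms {m : ℕ} (hr : ∀ i, 0 < r i)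
    (hm : ∑ i, (r i - 1) < m ∨ (m = ∑ i, (r i - 1) ∧ 0 < m ∧ ∀ i, 2 ≤ r i → 2 ≤ d i)) :
    DensityZero (goodForms m r d) := by
  have h := densityZero_noZero (Ex := ExF r d) (ex := fun e i a => (e i).1 a) (d := d)
    (fun e i => (e i).sum_eq) (fun c hc => ⟨fun i => ⟨c i, by
      rw [mem_piAntidiag]
      exact ⟨hc i, fun _ _ => mem_univ _⟩⟩, rfl⟩) hr hm
  exact h

end Pool.Agent.Lib.MP_1acd66_nt.Gen
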