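import Pool.Agent.Lib.MP_1acd66_nt.Gen.Defs

/-!
Systems of multihomogeneous forms, with the action of general linear groups by linear
substitutions.
-/

namespace Pool.Agent.Lib.MP_1acd66_nt.Gen

open Finset

variable {k : ℕ}

/-- The variables: `r i` variables in the group `i`. -/
abbrev Vr (r : Fin k → ℕ) : Type := (i : Fin k) × Fin (r i)

/-- The exponent vectors of degree `e` in `n` variables. -/
abbrev Ex (n e : ℕ) : Type := {α : Fin n → ℕ // α ∈ Finset.piAntidiag (univ : Finset (Fin n)) e}

/-- The exponent vectors of multidegree `d`. -/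
abbrev ExF (r d : Fin k → ℕ) : Type := ∀ i, Ex (r i) (d i)

/-- The positions of the coefficients of `m` forms of multidegree `d`. -/
abbrev WF (m : ℕ) (r d : Fin k → ℕ) : Type := Fin m × ExF r d

variable {r d : Fin k → ℕ} {m : ℕ}

/-- The exponent vector as a finitely supported function on the variables. -/
noncomputable def expo (β : ExF r d) : Vr r →₀ ℕ :=
  Finsupp.equivFunOnFinite.symm (fun v => (β v.1).1 v.2)

/-- The form with given coefficients. -/
noncomputable def polyF {K : Type} [CommRing K] (c : ExF r d → K) : MvPolynomial (Vr r) K :=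
  ∑ β, MvPolynomial.monomial (expo β) (c β)

/-- The linear substitution given by `g`. -/
noncomputable def subF {K : Type} [CommRing K] (g : Grp K r) (v : Vr r) : MvPolynomial (Vr r) K :=
  ∑ b, MvPolynomial.C (g v.1 v.2 b) * MvPolynomial.X ⟨v.1, b⟩

/-- The coefficients of the form after the linear substitution given by `g`. -/
noncomputable def pullC {K : Type} [CommRing K] (g : Grp K r) (c : ExF r d → K) : ExF r d → K :=
  fun β => MvPolynomial.coeff (expo β) (MvPolynomial.bind₁ (subF g) (polyF c))

/-- The action of `∏ i, GL (r i)` on systems of `m` forms of multidegree `d`, that is, on the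
representation `(⊗ i, Sym ^ (d i)) ^ m`. -/
noncomputable def formsData (m : ℕ) (r d : Fin k → ℕ) : RepData r (WF m r d) where
  pull K _ g A := fun w => pullC g (fun β => A (w.1, β)) w.2
  b i := m * (∏ j, (r j + d j - 1).choose (d j)) * d i / r i

/-- The value of the form number `e` at the point `u`. -/
def formVal {K : Type} [CommRing K] (A : WF m r d → K) (e : Fin m) (u : ∀ i, Fin (r i) → K) : K :=
  ∑ β : ExF r d, A (e, β) * ∏ i, ∏ a, u i a ^ (β i).1 a

/-- The forms have no common zero in the product of the rational projective spaces. -/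
def goodForms (m : ℕ) (r d : Fin k → ℕ) (A : WF m r d → ℚ) : Prop :=
  ∀ u : ∀ i, Fin (r i) → ℚ, (∀ i, u i ≠ 0) → ∃ e, formVal A e u ≠ 0

end Pool.Agent.Lib.MP_1acd66_nt.Gen
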