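import Pool.Agent.Lib.MP_1acd66_nt.Gen.FamTools
import Pool.Agent.Lib.MP_1acd66_nt.Gen.FormsFam

/-!
Multihomogeneous forms: coefficients and linear substitutions.
-/

namespace Pool.Agent.Lib.MP_1acd66_nt.Gen

open Finset

variable {k : ℕ}

variable {r d : Fin k → ℕ}

theorem Ex.sum_eq {n e : ℕ} (α : Ex n e) : ∑ a, α.1 a = e := (mem_piAntidiag.1 α.2).1

@[simp] theorem expo_apply (β : ExF r d) (v : Vr r) : expo β v = (β v.1).1 v.2 := rfl

theorem expo_injective : Function.Injective (expo : ExF r d → (Vr r →₀ ℕ)) := by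
  intro β β' h
  funext i
  apply Subtype.ext
  funext a
  exact DFunLike.congr_fun h (⟨i, a⟩ : Vr r)

section ring

variable {K : Type} [CommRing K]

theorem coeff_polyF (c : ExF r d → K) (β : ExF r d) :
    MvPolynomial.coeff (expo β) (polyF c) = c β := by
  classical
  rw [polyF, MvPolynomial.coeff_sum, sum_eq_single β]
  · rw [MvPolynomial.coeff_monomial, if_pos rfl]
  · intro b _ hne
    rw [MvPolynomial.coeff_monomial, if_neg]
    intro h
    exact hne (expo_injective h)
  · intro h; exact absurd (mem_univ _) h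

theorem coeff_polyF_of_ne (c : ExF r d → K) (n : Vr r →₀ ℕ) (h : ∀ β : ExF r d, expo β ≠ n) :
    MvPolynomial.coeff n (polyF c) = 0 := by
  classical
  rw [polyF, MvPolynomial.coeff_sum]
  refine sum_eq_zero fun β _ => ?_
  rw [MvPolynomial.coeff_monomial, if_neg (h β)]

/-- multihomogeneous polynomials of multidegree `D` -/
def MH (D : Fin k → ℕ) (P : MvPolynomial (Vr r) K) : Prop :=
  ∀ n, MvPolynomial.coeff n P ≠ 0 → ∀ i, ∑ a, n ⟨i, a⟩ = D i

theorem MH.zero (D : Fin k → ℕ) : MH D (0 : MvPolynomial (Vr r) K) := by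
  intro n hn
  rw [MvPolynomial.coeff_zero] at hn
  exact absurd rfl hn

theorem MH.add {D : Fin k → ℕ} {P Q : MvPolynomial (Vr r) K} (hP : MH D P) (hQ : MH D Q) :
    MH D (P + Q) := by
  intro n hn
  rw [MvPolynomial.coeff_add] at hn
  by_cases h : MvPolynomial.coeff n P = 0
  · rw [h, zero_add] at hn
    exact hQ n hn
  · exact hP n h

theorem MH.sum {ι : Type*} {D : Fin k → ℕ} (s : Finset ι) {P : ι → MvPolynomial (Vr r) K}
    (h : ∀ i ∈ s, MH D (P i)) : MH D (∑ i ∈ s, P i) := by
  classical
  induction s using Finset.induction_on with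
  | empty => rw [sum_empty]; exact MH.zero D
  | insert i s hi ih =>
    rw [sum_insert hi]
    exact (h i (mem_insert_self _ _)).add (ih fun j hj => h j (mem_insert_of_mem hj))

theorem MH.mul {D E : Fin k → ℕ} {P Q : MvPolynomial (Vr r) K} (hP : MH D P) (hQ : MH E Q) :
    MH (D + E) (P * Q) := by
  classical
  intro n hn
  rw [MvPolynomial.coeff_mul] at hn
  obtain ⟨x, hx, hne⟩ := exists_ne_zero_of_sum_ne_zero hn
  rw [HasAntidiagonal.mem_antidiagonal] at hx
  have h1 := hP x.1 (left_ne_zero_of_mul hne)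
  have h2 := hQ x.2 (right_ne_zero_of_mul hne)
  intro i
  rw [← hx]
  simp only [Finsupp.add_apply, sum_add_distrib, Pi.add_apply]
  rw [h1, h2]

theorem MH.C (c : K) : MH 0 (MvPolynomial.C c : MvPolynomial (Vr r) K) := by
  classical
  intro n hn i
  rw [MvPolynomial.coeff_C] at hn
  by_cases h : 0 = n
  · rw [← h]; simp
  · rw [if_neg h] at hn
    exact absurd rfl hn

theorem MH.X (v : Vr r) : MH (Pi.single v.1 1) (MvPolynomial.X v : MvPolynomial (Vr r) K) := by
  classical
  intro n hn i
  rw [MvPolynomial.coeff_X] at hn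
  by_cases h : Finsupp.single v 1 = n
  · rw [← h]
    obtain ⟨j, b⟩ := v
    by_cases hij : i = j
    · subst hij
      rw [Pi.single_eq_same, sum_eq_single b]
      · simp
      · intro a _ hab
        rw [Finsupp.single_apply, if_neg]
        intro h'
        apply hab
        have := (Sigma.mk.inj_iff.1 h').2
        exact (eq_of_heq this).symm
      · intro h; exact absurd (mem_univ _) h
    · rw [Pi.single_eq_of_ne hij]
      refine sum_eq_zero fun a _ => ?_
      rw [Finsupp.single_apply, if_neg]
      intro h'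
      exact hij (Sigma.mk.inj_iff.1 h').1.symm
  · rw [if_neg h] at hn
    exact absurd rfl hn

theorem MH.pow {D : Fin k → ℕ} {P : MvPolynomial (Vr r) K} (hP : MH D P) (n : ℕ) :
    MH (n • D) (P ^ n) := by
  induction n with
  | zero =>
    rw [pow_zero, zero_smul, ← MvPolynomial.C_1]
    exact MH.C 1
  | succ n ih =>
    rw [pow_succ, succ_nsmul]
    exact ih.mul hP

theorem MH.prod {ι : Type*} {D : ι → Fin k → ℕ} (s : Finset ι) {P : ι → MvPolynomial (Vr r) K}
    (h : ∀ i ∈ s, MH (D i) (P i)) : MH (∑ i ∈ s, D i) (∏ i ∈ s, P i) := by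
  classical
  induction s using Finset.induction_on with
  | empty =>
    rw [prod_empty, sum_empty, ← MvPolynomial.C_1]
    exact MH.C 1
  | insert i s hi ih =>
    rw [prod_insert hi, sum_insert hi]
    exact (h i (mem_insert_self _ _)).mul (ih fun j hj => h j (mem_insert_of_mem hj))

/-- a multihomogeneous polynomial is a form -/
theorem polyF_coeff {P : MvPolynomial (Vr r) K} (hP : MH d P) :
    polyF (fun β : ExF r d => MvPolynomial.coeff (expo β) P) = P := by
  classical
  refine MvPolynomial.ext _ _ fun n => ?_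
  by_cases h : ∃ β : ExF r d, expo β = n
  · obtain ⟨β, rfl⟩ := h
    rw [coeff_polyF]
  · push Not at h
    rw [coeff_polyF_of_ne _ _ h]
    by_contra hne
    have h1 := hP n (Ne.symm hne)
    refine h (fun i => ⟨fun a => n ⟨i, a⟩, ?_⟩) ?_
    · rw [mem_piAntidiag]
      exact ⟨h1 i, fun a _ => mem_univ a⟩
    · ext v
      rfl

theorem subF_MH (g : Grp K r) (v : Vr r) : MH (Pi.single v.1 1) (subF g v) := by
  refine MH.sum _ fun b _ => ?_
  have h := (MH.C (r := r) (g v.1 v.2 b)).mul (MH.X (K := K) (⟨v.1, b⟩ : Vr r))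
  rwa [zero_add] at h

/-- the image of a monomial -/
noncomputable def subM (g : Grp K r) (n : Vr r → ℕ) : MvPolynomial (Vr r) K :=
  ∏ v, subF g v ^ n v

theorem subM_MH (g : Grp K r) (β : ExF r d) : MH d (subM g (expo β)) := by
  have h := MH.prod (univ : Finset (Vr r)) (P := fun v => subF g v ^ expo β v)
    (D := fun v => expo β v • Pi.single v.1 1) (fun v _ => (subF_MH g v).pow _)
  have h1 : ∑ v : Vr r, expo β v • (Pi.single v.1 1 : Fin k → ℕ) = d := by
    funext i
    rw [Finset.sum_apply, Fintype.sum_sigma]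
    rw [sum_eq_single i]
    · simp only [Pi.smul_apply, Pi.single_eq_same, smul_eq_mul, mul_one, expo_apply]
      exact (β i).sum_eq
    · intro j _ hj
      refine sum_eq_zero fun a _ => ?_
      rw [Pi.smul_apply, Pi.single_eq_of_ne hj.symm, smul_zero]
    · intro h; exact absurd (mem_univ _) h
  rw [h1] at h
  exact h

theorem bind_polyF (g : Grp K r) (c : ExF r d → K) :
    MvPolynomial.bind₁ (subF g) (polyF c) = ∑ β, MvPolynomial.C (c β) * subM g (expo β) := by
  rw [polyF, map_sum]
  refine sum_congr rfl fun β _ => ?_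
  rw [MvPolynomial.bind₁_monomial, subM]
  congr 1
  refine prod_subset (subset_univ _) fun v _ hv => ?_
  rw [Finsupp.notMem_support_iff.1 hv, pow_zero]

theorem bind_polyF_MH (g : Grp K r) (c : ExF r d → K) :
    MH d (MvPolynomial.bind₁ (subF g) (polyF c)) := by
  rw [bind_polyF]
  refine MH.sum _ fun β _ => ?_
  have h := (MH.C (r := r) (c β)).mul (subM_MH g β)
  rwa [zero_add] at h

theorem polyF_pullC (g : Grp K r) (c : ExF r d → K) :
    polyF (pullC g c) = MvPolynomial.bind₁ (subF g) (polyF c) :=
  polyF_coeff (bind_polyF_MH g c)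

theorem pullC_eq (g : Grp K r) (c : ExF r d → K) (β : ExF r d) :
    pullC g c β = ∑ γ, c γ * MvPolynomial.coeff (expo β) (subM g (expo γ)) := by
  rw [pullC, bind_polyF, MvPolynomial.coeff_sum]
  refine sum_congr rfl fun γ _ => ?_
  rw [MvPolynomial.coeff_C_mul]

theorem subF_one (v : Vr r) : subF (1 : Grp K r) v = MvPolynomial.X v := by
  rw [subF, sum_eq_single v.2]
  · have h0 : (1 : Grp K r) v.1 = 1 := rfl
    rw [h0, Matrix.one_apply_eq, MvPolynomial.C_1, one_mul]
  · intro b _ hb
    have h0 : (1 : Grp K r) v.1 = 1 := rfl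
    rw [h0, Matrix.one_apply_ne hb.symm, MvPolynomial.C_0, zero_mul]
  · intro h; exact absurd (mem_univ _) h

theorem pullC_one (c : ExF r d → K) : pullC (1 : Grp K r) c = c := by
  funext β
  have h : (subF (1 : Grp K r)) = MvPolynomial.X := by
    funext v
    exact subF_one v
  rw [pullC, h, MvPolynomial.bind₁_X_left, AlgHom.id_apply, coeff_polyF]

theorem bind_subF (g h : Grp K r) (v : Vr r) :
    MvPolynomial.bind₁ (subF h) (subF g v) = subF (g * h) v := by
  obtain ⟨i, a⟩ := v
  rw [subF, map_sum]
  simp only [map_mul, MvPolynomial.bind₁_C_right, MvPolynomial.bind₁_X_right]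
  have e1 : ∀ b : Fin (r i), subF h (⟨i, b⟩ : Vr r) =
      ∑ c, MvPolynomial.C (h i b c) * MvPolynomial.X ⟨i, c⟩ := fun b => rfl
  have e2 : subF (g * h) (⟨i, a⟩ : Vr r) =
      ∑ c, MvPolynomial.C ((g i * h i) a c) * MvPolynomial.X ⟨i, c⟩ := rfl
  rw [e2]
  simp only [e1, mul_sum]
  rw [sum_comm]
  refine sum_congr rfl fun c _ => ?_
  rw [Matrix.mul_apply, map_sum, sum_mul]
  refine sum_congr rfl fun b _ => ?_
  rw [map_mul, mul_assoc]

theorem pullC_mul (g h : Grp K r) (c : ExF r d → K) :
    pullC h (pullC g c) = pullC (g * h) c := by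
  funext β
  rw [pullC, polyF_pullC, MvPolynomial.bind₁_bind₁, pullC]
  congr 2
  congr 1
  funext v
  exact bind_subF g h v

theorem pullC_add (g : Grp K r) (c c' : ExF r d → K) :
    pullC g (c + c') = pullC g c + pullC g c' := by
  funext β
  simp only [pullC_eq, Pi.add_apply, add_mul, sum_add_distrib]

theorem pullC_smul (g : Grp K r) (s : K) (c : ExF r d → K) :
    pullC g (s • c) = s • pullC g c := by
  funext β
  simp only [pullC_eq, Pi.smul_apply, smul_eq_mul, mul_sum, mul_assoc]

theorem subM_map {L : Type} [CommRing L] (f : K →+* L) (g : Grp K r) (n : Vr r → ℕ) :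
    subM (fun i => (g i).map f) n = MvPolynomial.map f (subM g n) := by
  rw [subM, subM, map_prod]
  refine prod_congr rfl fun v _ => ?_
  rw [map_pow, subF, subF, map_sum]
  congr 1
  refine sum_congr rfl fun b _ => ?_
  rw [map_mul, MvPolynomial.map_C, MvPolynomial.map_X, Matrix.map_apply]

theorem pullC_map {L : Type} [CommRing L] (f : K →+* L) (g : Grp K r) (c : ExF r d → K) :
    pullC (fun i => (g i).map f) (fun β => f (c β)) = fun β => f (pullC g c β) := by
  funext β
  rw [pullC_eq, pullC_eq, map_sum]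
  refine sum_congr rfl fun γ _ => ?_
  rw [map_mul, subM_map, MvPolynomial.coeff_map]

theorem subF_diag (l : ∀ i, Fin (r i) → K) (v : Vr r) :
    subF (fun i => Matrix.diagonal (l i)) v = MvPolynomial.C (l v.1 v.2) * MvPolynomial.X v := by
  rw [subF, sum_eq_single v.2]
  · rw [Matrix.diagonal_apply_eq]
  · intro b _ hb
    rw [Matrix.diagonal_apply_ne _ hb.symm, MvPolynomial.C_0, zero_mul]
  · intro h; exact absurd (mem_univ _) h

theorem subM_diag (l : ∀ i, Fin (r i) → K) (β : ExF r d) :
    subM (fun i => Matrix.diagonal (l i)) (expo β) =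
      MvPolynomial.monomial (expo β) (∏ i, ∏ a, l i a ^ (β i).1 a) := by
  rw [subM]
  simp only [subF_diag, mul_pow, prod_mul_distrib]
  rw [MvPolynomial.monomial_eq, Finsupp.prod_fintype _ _ (fun v => pow_zero _)]
  congr 1
  rw [map_prod, Fintype.prod_sigma]
  refine prod_congr rfl fun i _ => ?_
  rw [map_prod]
  refine prod_congr rfl fun a _ => ?_
  rw [map_pow]
  rfl

theorem pullC_diag (l : ∀ i, Fin (r i) → K) (c : ExF r d → K) (β : ExF r d) :
    pullC (fun i => Matrix.diagonal (l i)) c β = (∏ i, ∏ a, l i a ^ (β i).1 a) * c β := by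
  classical
  rw [pullC_eq, sum_eq_single β]
  · rw [subM_diag, MvPolynomial.coeff_monomial, if_pos rfl, mul_comm]
  · intro γ _ hne
    rw [subM_diag, MvPolynomial.coeff_monomial, if_neg, mul_zero]
    intro h
    exact hne (expo_injective h)
  · intro h; exact absurd (mem_univ _) h

end ring

section cont

variable {X : Type*} [TopologicalSpace X] {σ K : Type} [NormedField K]

/-- the coefficients depend continuously on the parameter -/
def CC (P : X → MvPolynomial σ K) : Prop := ∀ n, Continuous fun x => MvPolynomial.coeff n (P x)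

theorem CC.const (P : MvPolynomial σ K) : CC (fun _ : X => P) := fun _ => continuous_const

theorem CC.mul {P Q : X → MvPolynomial σ K} (hP : CC P) (hQ : CC Q) :
    CC (fun x => P x * Q x) := by
  classical
  intro n
  simp only [MvPolynomial.coeff_mul]
  exact continuous_finsetSum _ fun y _ => (hP y.1).mul (hQ y.2)

theorem CC.C {f : X → K} (hf : Continuous f) : CC (fun x => (MvPolynomial.C (f x) :
    MvPolynomial σ K)) := by
  classical
  intro n
  simp only [MvPolynomial.coeff_C]
  by_cases h : 0 = n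
  · simp only [if_pos h]; exact hf
  · simp only [if_neg h]; exact continuous_const

theorem CC.sum {ι : Type*} (s : Finset ι) {P : ι → X → MvPolynomial σ K}
    (h : ∀ i ∈ s, CC (P i)) : CC (fun x => ∑ i ∈ s, P i x) := by
  intro n
  simp only [MvPolynomial.coeff_sum]
  exact continuous_finsetSum _ fun i hi => h i hi n

theorem CC.pow {P : X → MvPolynomial σ K} (hP : CC P) (n : ℕ) : CC (fun x => P x ^ n) := by
  induction n with
  | zero => simp only [pow_zero]; exact CC.const 1
  | succ n ih => simp only [pow_succ]; exact ih.mul hP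

theorem CC.prod {ι : Type*} (s : Finset ι) {P : ι → X → MvPolynomial σ K}
    (h : ∀ i ∈ s, CC (P i)) : CC (fun x => ∏ i ∈ s, P i x) := by
  classical
  induction s using Finset.induction_on with
  | empty => simp only [prod_empty]; exact CC.const 1
  | insert i s hi ih =>
    simp only [prod_insert hi]
    exact (h i (mem_insert_self _ _)).mul (ih fun j hj => h j (mem_insert_of_mem hj))

theorem subM_cont {g : X → Grp K r} (hg : Continuous g) (n : Vr r → ℕ) :
    CC (fun x => subM (g x) n) := by
  refine CC.prod _ fun v _ => CC.pow ?_ _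
  refine CC.sum _ fun b _ => CC.mul (CC.C ?_) (CC.const _)
  exact (continuous_pi_iff.1 ((continuous_pi_iff.1 ((continuous_pi_iff.1 hg) v.1)) v.2)) b

theorem pullC_cont {g : X → Grp K r} (hg : Continuous g) {c : X → ExF r d → K}
    (hc : Continuous c) : Continuous fun x => pullC (g x) (c x) := by
  refine continuous_pi fun β => ?_
  simp only [pullC_eq]
  exact continuous_finsetSum _ fun γ _ => (continuous_pi_iff.1 hc γ).mul (subM_cont hg _ _)

end cont

end Pool.Agent.Lib.MP_1acd66_nt.Gen
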