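import Pool.Agent.Lib.MP_1acd66_nt.Gen.Points

/-! Counting over one balanced family of frames. -/

set_option linter.unusedSectionVars false

namespace Pool.Agent.Lib.MP_1acd66_nt.Gen

open MeasureTheory Metric Set Filter Topology
open scoped Classical

variable {k : ℕ} {r N : Fin k → ℕ} {W : Type} [Fintype W] {ρ : FRep r W}
  {M : Frm ℝ r N → (W → ℝ) → ℝ}

/-! ### Residues of vectors -/

/-- reduced residues -/
def resW (q : ℕ) (x : W → ℤ) : W → ℤ := fun w => x w % q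

/-- reduced residues of families of frames -/
def resF (q : ℕ) (x : Frm ℤ r N) : Frm ℤ r N := fun i a j => x i a j % q

/-- the set of reduced residues of vectors -/
noncomputable def RSW (W : Type) [Fintype W] (q : ℕ) : Finset (W → ℤ) :=
  Fintype.piFinset (fun _ => Finset.Ico (0:ℤ) q)

/-- the set of reduced residues of families of frames -/
noncomputable def RSF (r N : Fin k → ℕ) (q : ℕ) : Finset (Frm ℤ r N) :=
  Fintype.piFinset (fun i => RS (r i) (N i) q)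

theorem mem_RSW {q : ℕ} {x : W → ℤ} : x ∈ RSW W q ↔ ∀ w, 0 ≤ x w ∧ x w < q := by
  simp only [RSW, Fintype.mem_piFinset, Finset.mem_Ico]

theorem mem_RSF {q : ℕ} {x : Frm ℤ r N} :
    x ∈ RSF r N q ↔ ∀ i a j, 0 ≤ x i a j ∧ x i a j < q := by
  simp only [RSF, Fintype.mem_piFinset, mem_RS]

theorem card_RSW (q : ℕ) : (RSW W q).card = q ^ (Fintype.card W) := by
  simp [RSW, Fintype.card_piFinset]

theorem card_RSF (q : ℕ) : (RSF r N q).card = q ^ (∑ i, r i * N i) := by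
  rw [RSF, Fintype.card_piFinset, ← Finset.prod_pow_eq_pow_sum]
  exact Finset.prod_congr rfl fun i _ => card_RS _ _ _

theorem resW_mem {q : ℕ} (hq : 0 < q) (x : W → ℤ) : resW q x ∈ RSW W q := by
  rw [mem_RSW]
  intro w
  have : (0:ℤ) < q := by exact_mod_cast hq
  exact ⟨Int.emod_nonneg _ this.ne', Int.emod_lt_of_pos _ this⟩

theorem resF_mem {q : ℕ} (hq : 0 < q) (x : Frm ℤ r N) : resF q x ∈ RSF r N q := by
  rw [mem_RSF]
  intro i a j
  have : (0:ℤ) < q := by exact_mod_cast hq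
  exact ⟨Int.emod_nonneg _ this.ne', Int.emod_lt_of_pos _ this⟩

theorem congW_res (q : ℕ) (x : W → ℤ) : CongW q x (resW q x) := fun _ => Int.dvd_self_sub_emod

theorem congF_res (q : ℕ) (x : Frm ℤ r N) : CongF q x (resF q x) :=
  fun _ _ _ => Int.dvd_self_sub_emod

theorem CongW.symm {q : ℕ} {x y : W → ℤ} (h : CongW q x y) : CongW q y x := by
  intro w
  have := h w
  rw [← dvd_neg]
  simpa using this

theorem CongF.symm {q : ℕ} {x y : Frm ℤ r N} (h : CongF q x y) : CongF q y x := by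
  intro i a j
  have := h i a j
  rw [← dvd_neg]
  simpa using this

theorem CongW.trans {q : ℕ} {x y z : W → ℤ} (h : CongW q x y) (h' : CongW q y z) :
    CongW q x z := by
  intro w
  have := dvd_add (h w) (h' w)
  simpa using this

theorem CongF.trans {q : ℕ} {x y z : Frm ℤ r N} (h : CongF q x y) (h' : CongF q y z) :
    CongF q x z := by
  intro i a j
  have := dvd_add (h i a j) (h' i a j)
  simpa using this

theorem CongW.of_dvd {q q' : ℕ} (hqq : q ∣ q') {x y : W → ℤ} (h : CongW q' x y) :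
    CongW q x y := fun w => (Int.natCast_dvd_natCast.2 hqq).trans (h w)

theorem CongF.of_dvd {q q' : ℕ} (hqq : q ∣ q') {x y : Frm ℤ r N} (h : CongF q' x y) :
    CongF q x y := fun i a j => (Int.natCast_dvd_natCast.2 hqq).trans (h i a j)

theorem int_eq_of_mod {q : ℕ} {x y : ℤ} (hy : 0 ≤ y ∧ y < q) (h : (q:ℤ) ∣ x - y) : x % q = y := by
  rw [Int.emod_eq_emod_iff_emod_sub_eq_zero.2 (Int.emod_eq_zero_of_dvd h)]
  exact Int.emod_eq_of_lt hy.1 hy.2

theorem resW_eq_iff {q : ℕ} {x y : W → ℤ} (hy : y ∈ RSW W q) : resW q x = y ↔ CongW q x y := by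
  constructor
  · rintro rfl; exact congW_res q x
  · intro h
    rw [mem_RSW] at hy
    funext w
    exact int_eq_of_mod (hy w) (h w)

theorem resF_eq_iff {q : ℕ} {x y : Frm ℤ r N} (hy : y ∈ RSF r N q) :
    resF q x = y ↔ CongF q x y := by
  constructor
  · rintro rfl; exact congF_res q x
  · intro h
    rw [mem_RSF] at hy
    funext i a j
    exact int_eq_of_mod (hy i a j) (h i a j)

theorem congW_of_res_eq {q : ℕ} {x y : W → ℤ} (h : resW q x = resW q y) : CongW q x y := by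
  have h1 := congW_res q x
  rw [h] at h1
  exact h1.trans (congW_res q y).symm

theorem congF_of_res_eq {q : ℕ} {x y : Frm ℤ r N} (h : resF q x = resF q y) : CongF q x y := by
  have h1 := congF_res q x
  rw [h] at h1
  exact h1.trans (congF_res q y).symm

theorem DivW.congr {p q : ℕ} (hpq : p ∣ q) {A A' : W → ℤ} (h : CongW q A A')
    (hA : DivW p A) : DivW p A' := by
  intro w
  have hp : (p:ℤ) ∣ A w - A' w := h.of_dvd hpq w
  have e : A' w = A w - (A w - A' w) := by ring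
  rw [e]
  exact dvd_sub (hA w) hp

theorem card_divW {p s : ℕ} (hp : 0 < p) :
    ((RSW W (p * s)).filter (fun A => DivW p A)).card ≤ s ^ (Fintype.card W) := by
  have hsub : (RSW W (p * s)).filter (fun A => DivW p A) ⊆
      Fintype.piFinset (fun _ : W =>
        (Finset.Ico (0:ℤ) ((p * s : ℕ) : ℤ)).filter (fun y => (p:ℤ) ∣ y - 0)) := by
    intro A hA
    obtain ⟨h1, h2⟩ := Finset.mem_filter.1 hA
    rw [mem_RSW] at h1
    simp only [Fintype.mem_piFinset, Finset.mem_filter, Finset.mem_Ico, sub_zero]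
    intro w
    exact ⟨h1 w, h2 w⟩
  refine (Finset.card_le_card hsub).trans ?_
  simp only [Fintype.card_piFinset, Finset.prod_const, Finset.card_univ]
  exact Nat.pow_le_pow_left (card_class hp 0) _

/-! ### Asymptotics -/

/-- uniform asymptotics in a residue class -/
theorem cong_asymp (hM : IsLocalNorm ℝ N ρ M) (hW : 0 < Fintype.card W) (t : ℝ)
    {q : ℕ} (hq : 0 < q) (A0 : W → ℤ) : ∀ ε > 0, ∃ Y0 > 0, ∀ Z ∈ Kt r N t, ∀ Y, Y0 ≤ Y →
      |cnt (fun A => CongW q A A0) M Z Y - ((q:ℝ) ^ (Fintype.card W))⁻¹ * bodyVol M Z * Y| ≤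
        ε * Y := by
  intro ε hε
  obtain ⟨U, hU⟩ := bodyVol_le hM hW t
  obtain ⟨c, _, hc, _, hb⟩ := hM.compact_bound (isCompact_Kt r N t)
    (fun k hk => allFrame_of_mem_Kt hk)
  set D := Fintype.card W with hD
  set ε' := min 1 (ε / (4 * (|U| + 1))) with hε'
  have hε'p : 0 < ε' := by positivity
  obtain ⟨δ, hδ, hδ2, hmod⟩ := hM.modulus (isCompact_Kt r N t)
    (fun k hk => allFrame_of_mem_Kt hk) hε'p
  set K0 := (volume : Measure (W → ℝ)).real (closedBall 0 ((q:ℝ) / δ + q)) with hK0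
  have hK0n : 0 ≤ K0 := measureReal_nonneg
  refine ⟨6 * K0 / ε + 1, by positivity, ?_⟩
  intro Z hZ Y hY
  have hYpos : 0 < Y := lt_of_lt_of_le (by positivity) hY
  have hfr := allFrame_of_mem_Kt hZ
  obtain ⟨c1, c2⟩ := (tiling_lattW hq A0).count (M Z) finrank_W hW
    (hM.homA hfr) hc (fun x hx => (hb Z hZ x hx).1) hε'p hδ (by
      intro x y hx hxy
      exact hmod Z hZ Z hZ (by rw [sub_self, norm_zero]; exact hδ.le) x y hx hxy) hYpos
  rw [cnt_cong]
  set n : ℝ := ((lattW q A0 ∩ sub (M Z) Y).ncard : ℝ) with hn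
  set u := bodyVol M Z with hu
  have hu' : (volume : Measure (W → ℝ)).real (sub (M Z) 1) = u := rfl
  rw [hu', ← hK0] at c1 c2
  have hu0 : 0 ≤ u := measureReal_nonneg
  have huU : u ≤ |U| := (hU Z hZ).trans (le_abs_self _)
  have hq1 : (1:ℝ) ≤ (q:ℝ) ^ D := one_le_pow₀ (by exact_mod_cast hq)
  set v := (q:ℝ) ^ D with hv
  have hvpos : 0 < v := by linarith
  have hε'1 : ε' ≤ 1 := min_le_left _ _
  have hε'2 : ε' * u ≤ ε / 4 := by
    have h1 : ε' ≤ ε / (4 * (|U| + 1)) := min_le_right _ _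
    have h2 : 0 ≤ |U| := abs_nonneg _
    calc ε' * u ≤ ε / (4 * (|U| + 1)) * (|U| + 1) := by
          apply mul_le_mul h1 (by linarith) hu0 (by positivity)
      _ = ε / 4 := by field_simp
  have hK : 3 * K0 ≤ ε / 2 * Y := by
    have : 6 * K0 / ε ≤ Y := by linarith
    rw [div_le_iff₀ hε] at this
    linarith
  have hYu : 0 ≤ Y * u := by positivity
  have key : |v * n - Y * u| ≤ ε * Y := by
    have e1 : ε' * (Y * u) ≤ ε / 4 * Y := by nlinarith
    rw [abs_le]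
    constructor
    · have h3 : Y * u - v * n ≤ ε' * (v * n) + (1 + ε') * K0 := by nlinarith
      have h4 : ε' * (v * n) ≤ ε' * ((1 + ε') * (Y * u) + K0) :=
        mul_le_mul_of_nonneg_left c1 hε'p.le
      have h5 : ε' * ((1 + ε') * (Y * u) + K0) ≤ 2 * (ε' * (Y * u)) + K0 := by
        have h6 : ε' * ((1 + ε') * (Y * u)) ≤ 2 * (ε' * (Y * u)) := by
          have : ε' * ((1 + ε') * (Y * u)) = (1 + ε') * (ε' * (Y * u)) := by ring
          rw [this]
          apply mul_le_mul_of_nonneg_right (by linarith) (by positivity)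
        have h7 : ε' * K0 ≤ 1 * K0 := mul_le_mul_of_nonneg_right hε'1 hK0n
        linarith
      have h8 : (1 + ε') * K0 ≤ 2 * K0 := mul_le_mul_of_nonneg_right (by linarith) hK0n
      linarith
    · have h3 : v * n - Y * u ≤ ε' * (Y * u) + K0 := by linarith
      have h4 : 0 ≤ ε * Y := by positivity
      linarith
  have e : n - v⁻¹ * u * Y = v⁻¹ * (v * n - Y * u) := by
    field_simp
  rw [e, abs_mul, abs_of_pos (inv_pos.2 hvpos)]
  calc v⁻¹ * |v * n - Y * u| ≤ 1 * (ε * Y) := by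
        apply mul_le_mul (inv_le_one_of_one_le₀ hq1) key (abs_nonneg _) zero_le_one
    _ = ε * Y := one_mul _

theorem cnt_mono {Z : Frm ℝ r N} {p p' : (W → ℤ) → Prop} {Y Y' : ℝ}
    (hp : ∀ A, p A → p' A) (hY : Y ≤ Y') (hfin : (cset p' M Z Y').Finite) :
    cnt p M Z Y ≤ cnt p' M Z Y' := by
  rw [cnt, cnt]
  have : cset p M Z Y ⊆ cset p' M Z Y' := by
    rintro A ⟨h1, h2, h3⟩
    exact ⟨h1, hp A h2, h3.trans hY⟩
  exact_mod_cast Set.ncard_le_ncard this hfin

/-- vectors outside a set of full density are negligible -/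
theorem bad_asymp (hM : IsLocalNorm ℝ N ρ M) (hW : 0 < Fintype.card W)
    {Good : (W → ℚ) → Prop} (hG : DensityZero Good) (t : ℝ) :
    ∀ ε > 0, ∃ Y0 > 0, ∀ Z ∈ Kt r N t, ∀ Y, Y0 ≤ Y →
      |cnt (fun A => ¬ Good (ratW A)) M Z Y - 0 * bodyVol M Z * Y| ≤ ε * Y := by
  intro ε hε
  obtain ⟨U, hU⟩ := bodyVol_le hM hW t
  obtain ⟨_, _, _, _, hfin⟩ := cset_bound hM hW t
  set D := Fintype.card W with hD
  obtain ⟨q, hq, I, hI, hIc, hIb⟩ := hG (ε / (2 * (|U| + 1))) (by positivity)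
  have hca : ∀ A0 ∈ I, ∃ Y0 > 0, ∀ Z ∈ Kt r N t, ∀ Y, Y0 ≤ Y →
      |cnt (fun A => CongW q A A0) M Z Y - ((q:ℝ) ^ D)⁻¹ * bodyVol M Z * Y| ≤
        (ε / (2 * (I.card + 1))) * Y := fun A0 _ =>
    cong_asymp hM hW t hq A0 _ (by positivity)
  choose! Y0 hY0 hY1 using hca
  refine ⟨1 + ∑ A0 ∈ I, Y0 A0, ?_, ?_⟩
  · have : 0 ≤ ∑ A0 ∈ I, Y0 A0 := Finset.sum_nonneg fun A hA => (hY0 A hA).le
    linarith
  · intro Z hZ Y hY
    have hYle : ∀ A0 ∈ I, Y0 A0 ≤ Y := by
      intro A0 hA0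
      have := Finset.single_le_sum (f := Y0) (fun A hA => (hY0 A hA).le) hA0
      linarith
    have hYpos : 0 < Y := by
      have : 0 ≤ ∑ A0 ∈ I, Y0 A0 := Finset.sum_nonneg fun A hA => (hY0 A hA).le
      linarith
    rw [zero_mul, zero_mul, sub_zero, abs_of_nonneg (cnt_nonneg _ _ _ _)]
    have hf : ∀ p : (W → ℤ) → Prop, (cset p M Z Y).Finite := fun p => (hfin p Z hZ Y).2.1
    have h1 : cset (fun A => ¬ Good (ratW A)) M Z Y ⊆
        ⋃ A0 ∈ I, cset (fun A => CongW q A A0) M Z Y := by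
      rintro A ⟨hA0, hbad, hMA⟩
      simp only [Set.mem_iUnion]
      exact ⟨_, hIb A hbad, hA0, congW_res q A, hMA⟩
    have h2 : cnt (fun A => ¬ Good (ratW A)) M Z Y ≤
        ∑ A0 ∈ I, cnt (fun A => CongW q A A0) M Z Y := by
      have h3 := Set.ncard_le_ncard h1 (I.finite_toSet.biUnion fun A0 _ => hf _)
      have h4 : (⋃ A0 ∈ I, cset (fun A => CongW q A A0) M Z Y).ncard ≤
          ∑ A0 ∈ I, (cset (fun A => CongW q A A0) M Z Y).ncard := by
        clear h3 h1 hYle hY hY1 hY0 hIb hIc hI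
        induction I using Finset.induction_on with
        | empty => simp
        | insert a s ha ih =>
          rw [Finset.set_biUnion_insert, Finset.sum_insert ha]
          exact (Set.ncard_union_le _ _).trans (Nat.add_le_add_left ih _)
      simp only [cnt]
      exact_mod_cast h3.trans h4
    refine h2.trans ?_
    have hu0 : 0 ≤ bodyVol M Z := measureReal_nonneg
    have huU : bodyVol M Z ≤ |U| := (hU Z hZ).trans (le_abs_self _)
    have hqD : (0:ℝ) < (q:ℝ) ^ D := by positivity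
    have h5 : ∀ A0 ∈ I, cnt (fun A => CongW q A A0) M Z Y ≤
        ((q:ℝ) ^ D)⁻¹ * |U| * Y + (ε / (2 * (I.card + 1))) * Y := by
      intro A0 hA0
      have := (abs_le.1 (hY1 A0 hA0 Z hZ Y (hYle A0 hA0))).2
      have h6 : ((q:ℝ) ^ D)⁻¹ * bodyVol M Z * Y ≤ ((q:ℝ) ^ D)⁻¹ * |U| * Y := by
        apply mul_le_mul_of_nonneg_right _ hYpos.le
        exact mul_le_mul_of_nonneg_left huU (by positivity)
      linarith
    refine (Finset.sum_le_sum h5).trans ?_
    rw [Finset.sum_const, nsmul_eq_mul, mul_add]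
    have h7 : (I.card : ℝ) * (((q:ℝ) ^ D)⁻¹ * |U| * Y) ≤ ε / 2 * Y := by
      have h8 : (I.card : ℝ) * ((q:ℝ) ^ D)⁻¹ ≤ ε / (2 * (|U| + 1)) := by
        rw [← div_eq_mul_inv, div_le_iff₀ hqD]; exact hIc
      have h9 : ε / (2 * (|U| + 1)) * |U| ≤ ε / 2 := by
        have : 0 ≤ |U| := abs_nonneg _
        rw [div_mul_eq_mul_div, div_le_div_iff₀ (by positivity) (by positivity)]
        nlinarith
      calc (I.card : ℝ) * (((q:ℝ) ^ D)⁻¹ * |U| * Y) =
            ((I.card : ℝ) * ((q:ℝ) ^ D)⁻¹) * |U| * Y := by ring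
        _ ≤ (ε / (2 * (|U| + 1))) * |U| * Y := by
            apply mul_le_mul_of_nonneg_right _ hYpos.le
            exact mul_le_mul_of_nonneg_right h8 (abs_nonneg _)
        _ ≤ _ := mul_le_mul_of_nonneg_right h9 hYpos.le
    have h10 : (I.card : ℝ) * ((ε / (2 * (I.card + 1))) * Y) ≤ ε / 2 * Y := by
      have h11 : (I.card : ℝ) * (ε / (2 * (I.card + 1))) ≤ ε / 2 := by
        rw [mul_div_assoc', div_le_div_iff₀ (by positivity) (by positivity)]
        nlinarith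
      calc (I.card : ℝ) * ((ε / (2 * (I.card + 1))) * Y) =
          ((I.card : ℝ) * (ε / (2 * (I.card + 1)))) * Y := by ring
        _ ≤ _ := mul_le_mul_of_nonneg_right h11 hYpos.le
    linarith

/-- bounds for the counting function over a balanced family of frames -/
theorem wt_cset (hM : IsLocalNorm ℝ N ρ M) (hr : ∀ i, 0 < r i)
    (hw : ∀ i, ρ.b i ≤ N i) (hW : 0 < Fintype.card W) (t : ℝ) :
    ∃ c C : ℝ, 0 < c ∧ 0 < C ∧ ∀ Z : Frm ℝ r N, wtt t Z ≠ 0 → ∀ (p : (W → ℤ) → Prop) (Y : ℝ),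
      (cset p M Z Y).Finite ∧ (0 < Y → cnt p M Z Y ≤ C * Y * (PN Z)⁻¹) ∧
      (Y < c * PN Z → cset p M Z Y = ∅) := by
  obtain ⟨c, C, hc, hC, hb⟩ := cset_bound hM hW t
  refine ⟨c, C, hc, hC, ?_⟩
  intro Z hZ p Y
  have hbal := wtt_ne_zero hZ
  have hZ0 : ∀ i, Z i ≠ 0 := fun i => (bal_pos (hr i) (hbal i)).2
  have hn := PN_pos hZ0
  have hK := mem_Kt_of_bal hr hbal
  have hs := cset_scale hM hw p hZ0 (allFrame_of_mem_Kt hK) Y
  obtain ⟨h1, h2, h3⟩ := hb p _ hK (Y * (PN Z)⁻¹)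
  refine ⟨by rw [hs]; exact h2, ?_, ?_⟩
  · intro hY
    have := h3 (by positivity)
    rw [cnt, hs]
    rw [cnt] at this
    linarith
  · intro hY
    rw [hs]
    refine h1 ?_
    rw [← div_eq_mul_inv, div_lt_iff₀ (by positivity)]
    exact hY

/-- summing over residue classes -/
theorem sum_cnt {Z : Frm ℝ r N} {q : ℕ} (I : Finset (W → ℤ))
    (hI : I ⊆ RSW W q) (Y : (W → ℤ) → ℝ) {Ym : ℝ} (hY : ∀ A0 ∈ I, Y A0 ≤ Ym)
    (hfin : (cset (fun _ => True) M Z Ym).Finite) :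
    ∑ A0 ∈ I, cnt (fun A => CongW q A A0) M Z (Y A0) =
      (({A : W → ℤ | A ≠ 0 ∧ resW q A ∈ I ∧ M Z (realW A) ≤ Y (resW q A)}.ncard : ℕ) : ℝ) ∧
    {A : W → ℤ | A ≠ 0 ∧ resW q A ∈ I ∧ M Z (realW A) ≤ Y (resW q A)}.Finite := by
  have hVfin : {A : W → ℤ | A ≠ 0 ∧ resW q A ∈ I ∧ M Z (realW A) ≤ Y (resW q A)}.Finite := by
    refine hfin.subset ?_
    rintro A ⟨hA, hAI, hMA⟩
    exact ⟨hA, trivial, hMA.trans (hY _ hAI)⟩
  refine ⟨?_, hVfin⟩
  rw [Set.ncard_eq_toFinset_card _ hVfin]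
  rw [Finset.card_eq_sum_card_fiberwise (f := fun A => resW q A) (t := I)
    (s := hVfin.toFinset) (by
      intro A hA
      exact ((Set.Finite.mem_toFinset _).1 hA).2.1)]
  push_cast
  refine Finset.sum_congr rfl ?_
  intro A0 hA0
  rw [cnt]
  have hcf : (cset (fun A => CongW q A A0) M Z (Y A0)).Finite := by
    refine hfin.subset ?_
    rintro A ⟨hA, _, hMA⟩
    exact ⟨hA, trivial, hMA.trans (hY _ hA0)⟩
  rw [Set.ncard_eq_toFinset_card _ hcf]
  congr 2
  ext A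
  simp only [Set.Finite.mem_toFinset, Finset.mem_filter, mem_ofPred_eq, cset]
  constructor
  · rintro ⟨hA, hc, hMA⟩
    have hr : resW q A = A0 := (resW_eq_iff (hI hA0)).2 hc
    refine ⟨⟨hA, ?_, ?_⟩, hr⟩
    · rw [hr]; exact hA0
    · rw [hr]; exact hMA
  · rintro ⟨⟨hA, _, hMA⟩, hr⟩
    refine ⟨hA, (resW_eq_iff (hI hA0)).1 hr, ?_⟩
    rw [← hr]; exact hMA

/-- vectors divisible by `p` -/
theorem cnt_div (hM : IsLocalNorm ℝ N ρ M) {Z : Frm ℝ r N} (hZ : AllFrame Z)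
    {p : ℕ} (hp : 0 < p) (Y : ℝ) :
    cnt (fun A => DivW p A) M Z Y =
      cnt (fun _ => True) M Z (Y * ((p:ℝ) ^ (Fintype.card W))⁻¹) := by
  have hp0 : (0:ℝ) < p := by exact_mod_cast hp
  have hpZ : (p:ℤ) ≠ 0 := by exact_mod_cast hp.ne'
  have hinj : Function.Injective (fun A : W → ℤ => (p:ℤ) • A) := by
    intro A B h
    funext w
    have := congrFun h w
    simp only [Pi.smul_apply, smul_eq_mul] at this
    exact mul_left_cancel₀ hpZ this
  rw [cnt, cnt, ← Set.ncard_image_of_injective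
    (cset (fun _ => True) M Z (Y * ((p:ℝ) ^ (Fintype.card W))⁻¹)) hinj]
  congr 2
  ext A
  simp only [cset, mem_ofPred_eq, mem_image, true_and]
  have hcast : ∀ B : W → ℤ, realW ((p:ℤ) • B) = (p:ℝ) • realW B := by
    intro B
    funext w
    simp only [realW, Pi.smul_apply, smul_eq_mul]
    push_cast
    rfl
  constructor
  · rintro ⟨hA, hdiv, hMA⟩
    obtain ⟨B, hAB⟩ := divW_iff.1 hdiv
    have hB0 : B ≠ 0 := by
      intro h0
      rw [h0, smul_zero] at hAB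
      exact hA hAB
    refine ⟨B, ⟨hB0, ?_⟩, hAB.symm⟩
    rw [hAB, hcast, hM.homA hZ _ (realW_ne_zero hB0) _ hp0] at hMA
    rw [← div_eq_mul_inv, le_div_iff₀ (by positivity)]
    linarith
  · rintro ⟨B, ⟨hB0, hMB⟩, rfl⟩
    refine ⟨smul_ne_zero hpZ hB0, ?_, ?_⟩
    · exact divW_iff.2 ⟨B, rfl⟩
    · rw [hcast, hM.homA hZ _ (realW_ne_zero hB0) _ hp0]
      rw [← div_eq_mul_inv, le_div_iff₀ (by positivity)] at hMB
      linarith

/-- vectors divisible by a large prime -/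
theorem cnt_large_div (hM : IsLocalNorm ℝ N ρ M)
    (hD : 2 ≤ Fintype.card W) {Z : Frm ℝ r N} (hZ : AllFrame Z) {K : ℝ} (hK : 0 ≤ K)
    (hfin : ∀ Y, (cset (fun _ => True) M Z Y).Finite)
    (hb : ∀ Y, 0 < Y → cnt (fun _ => True) M Z Y ≤ K * Y) {P : ℕ} (hP : 0 < P) {Y : ℝ}
    (hY : 0 < Y) :
    cnt (fun A => ∃ p : ℕ, p.Prime ∧ P < p ∧ DivW p A) M Z Y ≤ K * Y * (P:ℝ)⁻¹ := by
  set V := (hfin Y).toFinset with hV
  have hVmem : ∀ A, A ∈ V ↔ A ≠ 0 ∧ M Z (realW A) ≤ Y := by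
    intro A; simp [hV, cset]
  -- bound for the primes
  obtain ⟨L, hL⟩ : ∃ L : ℕ, ∀ A ∈ V, ∀ w, (A w).natAbs ≤ L := by
    refine ⟨V.sup (fun A => Finset.univ.sup (fun w => (A w).natAbs)), ?_⟩
    intro A hA w
    calc (A w).natAbs ≤ Finset.univ.sup (fun w => (A w).natAbs) :=
          Finset.le_sup (f := fun w => (A w).natAbs) (Finset.mem_univ w)
      _ ≤ _ := Finset.le_sup (f := fun A : W → ℤ => Finset.univ.sup
          (fun w => (A w).natAbs)) hA
  have hsub : cset (fun A => ∃ p : ℕ, p.Prime ∧ P < p ∧ DivW p A) M Z Y ⊆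
      ((Finset.Ioc P (max P L)).biUnion (fun p => V.filter (fun A => DivW p A)) :
        Finset (W → ℤ)) := by
    rintro A ⟨hA, ⟨p, hp, hPp, hdiv⟩, hMA⟩
    rw [Finset.mem_coe, Finset.mem_biUnion]
    have hAV : A ∈ V := (hVmem A).2 ⟨hA, hMA⟩
    refine ⟨p, Finset.mem_Ioc.2 ⟨hPp, ?_⟩, Finset.mem_filter.2 ⟨hAV, hdiv⟩⟩
    obtain ⟨w, hw⟩ : ∃ w, A w ≠ 0 := by
      by_contra h
      push Not at h
      exact hA (funext h)
    have h1 : p ∣ (A w).natAbs := Int.natCast_dvd.1 (hdiv w)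
    have h2 : p ≤ (A w).natAbs := Nat.le_of_dvd (Int.natAbs_pos.2 hw) h1
    exact (h2.trans (hL A hAV w)).trans (le_max_right _ _)
  have h1 := Set.ncard_le_ncard hsub (Finset.finite_toSet _)
  rw [Set.ncard_coe_finset] at h1
  have h2 : ∀ p ∈ Finset.Ioc P (max P L), ((V.filter (fun A => DivW p A)).card : ℝ) ≤
      K * Y * (((p:ℝ) ^ 2)⁻¹) := by
    intro p hp
    have hp0 : 0 < p := by have := (Finset.mem_Ioc.1 hp).1; omega
    have hp1 : (1:ℝ) ≤ p := by exact_mod_cast hp0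
    have e : ((V.filter (fun A => DivW p A)).card : ℝ) = cnt (fun A => DivW p A) M Z Y := by
      rw [cnt]
      have hf : (cset (fun A => DivW p A) M Z Y).Finite := by
        refine (hfin Y).subset ?_
        rintro A ⟨a1, _, a3⟩
        exact ⟨a1, trivial, a3⟩
      rw [Set.ncard_eq_toFinset_card _ hf]
      congr 2
      ext A
      simp only [Finset.mem_filter, hVmem, Set.Finite.mem_toFinset, cset, mem_ofPred_eq]
      tauto
    rw [e, cnt_div hM hZ hp0]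
    refine (hb _ (by positivity)).trans ?_
    rw [← mul_assoc]
    apply mul_le_mul_of_nonneg_left _ (by positivity)
    exact inv_anti₀ (by positivity) (pow_le_pow_right₀ hp1 hD)
  have h3 : (((Finset.Ioc P (max P L)).biUnion (fun p => V.filter (fun A => DivW p A))).card : ℝ) ≤
      ∑ p ∈ Finset.Ioc P (max P L), ((V.filter (fun A => DivW p A)).card : ℝ) := by
    exact_mod_cast Finset.card_biUnion_le
  have h4 : ∑ p ∈ Finset.Ioc P (max P L), (((p:ℝ) ^ 2)⁻¹) ≤ (P:ℝ)⁻¹ := by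
    have := sum_Ioc_inv_sq_le_sub (α := ℝ) hP.ne' (le_max_left P L)
    have h5 : (0:ℝ) ≤ ((max P L : ℕ) : ℝ)⁻¹ := by positivity
    linarith
  calc cnt (fun A => ∃ p : ℕ, p.Prime ∧ P < p ∧ DivW p A) M Z Y
      ≤ (((Finset.Ioc P (max P L)).biUnion (fun p => V.filter (fun A => DivW p A))).card : ℝ) := by
        rw [cnt]; exact_mod_cast h1
    _ ≤ _ := h3
    _ ≤ ∑ p ∈ Finset.Ioc P (max P L), K * Y * (((p:ℝ) ^ 2)⁻¹) := Finset.sum_le_sum h2
    _ = K * Y * ∑ p ∈ Finset.Ioc P (max P L), (((p:ℝ) ^ 2)⁻¹) := by rw [Finset.mul_sum]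
    _ ≤ K * Y * (P:ℝ)⁻¹ := mul_le_mul_of_nonneg_left h4 (by positivity)

/-- good primitive vectors, counted with a height function -/
def hset (Good : (W → ℚ) → Prop) (M : Frm ℝ r N → (W → ℝ) → ℝ)
    (f : Frm ℤ r N → (W → ℤ) → ℝ) (Z : Frm ℤ r N) (B : ℝ) : Set (W → ℤ) :=
  {A | PrimW A ∧ Good (ratW A) ∧ M (realF Z) (realW A) * f Z A ≤ B}

/-- all members of the family are saturated -/
def SatF (Z : Frm ℤ r N) : Prop := ∀ i, SatZ (Z i)

theorem SatF.allFrame {Z : Frm ℤ r N} (h : SatF Z) : AllFrame Z := fun i => (h i).isFrame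

/-- class functions approximating the height from both sides -/
structure ClassApprox (f : Frm ℤ r N → (W → ℤ) → ℝ) (q : ℕ) (cc : Frm ℤ r N → (W → ℤ) → ℝ)
    (f0 f1 ε : ℝ) : Prop where
  pos : 0 < f0
  pos1 : 0 < f1
  eps : 0 < ε
  eps1 : ε ≤ 1
  lo : ∀ Z A, f1⁻¹ ≤ cc Z A
  hi : ∀ Z A, cc Z A ≤ f0⁻¹
  flo : ∀ Z A, SatF Z → PrimW A → f0 ≤ f Z A
  up : ∀ Z A, SatF Z → PrimW A → 1 ≤ (1 + ε) * cc (resF q Z) (resW q A) * f Z A
  dn : ∀ Z A, SatF Z → PrimW A → cc (resF q Z) (resW q A) * f Z A ≤ 1 + ε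

variable {f : Frm ℤ r N → (W → ℤ) → ℝ} {cc : Frm ℤ r N → (W → ℤ) → ℝ} {f0 f1 ε : ℝ}

/-- classes of vectors without small prime divisor -/
noncomputable def IP (W : Type) [Fintype W] (q P : ℕ) : Finset (W → ℤ) :=
  (RSW W q).filter (fun A => ∀ p : ℕ, p.Prime → p ≤ P → ¬ DivW p A)

/-- classes of families of frames saturated at small primes -/
noncomputable def JP (r N : Fin k → ℕ) (q P : ℕ) : Finset (Frm ℤ r N) :=
  Fintype.piFinset (fun i => (RS (r i) (N i) q).filter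
    (fun Z => ∀ p : ℕ, p.Prime → p ≤ P → ¬ NonSatAt p Z))

theorem mem_JP {q P : ℕ} {Z : Frm ℤ r N} : Z ∈ JP r N q P ↔ Z ∈ RSF r N q ∧
    ∀ i, ∀ p : ℕ, p.Prime → p ≤ P → ¬ NonSatAt p (Z i) := by
  simp only [JP, RSF, Fintype.mem_piFinset, Finset.mem_filter]
  exact ⟨fun h => ⟨fun i => (h i).1, fun i => (h i).2⟩, fun h i => ⟨h.1 i, h.2 i⟩⟩

theorem dens_JP {P q : ℕ} (hrN : ∀ i, r i < N i) (hPq : ∀ p : ℕ, p.Prime → p ≤ P → p ∣ q) :
    (1 / 12 : ℝ) ^ k * (q:ℝ) ^ (∑ i, r i * N i) ≤ ((JP r N q P).card : ℝ) := by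
  rw [JP, Fintype.card_piFinset, Nat.cast_prod, ← Finset.prod_pow_eq_pow_sum]
  calc (1 / 12 : ℝ) ^ k * ∏ i, (q:ℝ) ^ (r i * N i)
      = ∏ i : Fin k, ((1 / 12 : ℝ) * (q:ℝ) ^ (r i * N i)) := by
        rw [Finset.prod_mul_distrib, Finset.prod_const, Finset.card_univ, Fintype.card_fin]
    _ ≤ _ := by
        refine Finset.prod_le_prod (fun _ _ => by positivity) fun i _ => ?_
        exact dens_sat (hrN i) hPq

/-- numerical sums -/
theorem sum_sq (P : ℕ) : ∑ n ∈ Finset.Icc 2 P, ((n:ℝ) ^ 2)⁻¹ ≤ 2 / 3 := by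
  have key : ∀ k : ℕ, ∑ n ∈ Finset.Icc 2 (k + 1), ((n:ℝ) ^ 2)⁻¹ ≤
      2 / 3 - 1 / ((k:ℝ) + 3 / 2) := by
    intro k
    induction k with
    | zero => norm_num
    | succ k ih =>
      rw [Finset.sum_Icc_succ_top (by omega)]
      refine (add_le_add_left ih _).trans ?_
      push_cast
      have h1 : (0:ℝ) ≤ k := Nat.cast_nonneg k
      have h2 : (((k:ℝ) + 1 + 1) ^ 2)⁻¹ ≤ 1 / ((k:ℝ) + 3 / 2) - 1 / ((k:ℝ) + 1 + 3 / 2) := by
        have e : 1 / ((k:ℝ) + 3 / 2) - 1 / ((k:ℝ) + 1 + 3 / 2) =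
            1 / (((k:ℝ) + 3 / 2) * (k + 1 + 3 / 2)) := by
          field_simp; ring
        rw [e, inv_eq_one_div]
        apply one_div_le_one_div_of_le (by positivity)
        nlinarith
      linarith
  rcases P with _ | k
  · norm_num
  · refine (key k).trans ?_
    have : (0:ℝ) ≤ 1 / ((k:ℝ) + 3 / 2) := by positivity
    linarith

/-- density of the vectors without small prime divisors -/
theorem dens_prim {P q : ℕ} (hD : 2 ≤ Fintype.card W)
    (hPq : ∀ p : ℕ, p.Prime → p ≤ P → p ∣ q) :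
    (1 / 3 : ℝ) * (q:ℝ) ^ (Fintype.card W) ≤ ((IP W q P).card : ℝ) := by
  set D := Fintype.card W with hDdef
  have hsub : RSW W q ⊆ IP W q P ∪
      ((Finset.Icc 2 P).filter Nat.Prime).biUnion
        (fun p => (RSW W q).filter (fun A => DivW p A)) := by
    intro A hA
    by_cases h : ∀ p : ℕ, p.Prime → p ≤ P → ¬ DivW p A
    · exact Finset.mem_union_left _ (Finset.mem_filter.2 ⟨hA, h⟩)
    · push Not at h
      obtain ⟨p, hp, hpP, hdiv⟩ := h
      refine Finset.mem_union_right _ (Finset.mem_biUnion.2 ⟨p, ?_, Finset.mem_filter.2 ⟨hA, hdiv⟩⟩)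
      exact Finset.mem_filter.2 ⟨Finset.mem_Icc.2 ⟨hp.two_le, hpP⟩, hp⟩
  have h1 := (Finset.card_le_card hsub).trans (Finset.card_union_le _ _)
  rw [card_RSW] at h1
  have h2 : ((((Finset.Icc 2 P).filter Nat.Prime).biUnion
        (fun p => (RSW W q).filter (fun A => DivW p A))).card : ℝ) ≤ (q:ℝ) ^ D * (2 / 3) := by
    have h3 : ((((Finset.Icc 2 P).filter Nat.Prime).biUnion
        (fun p => (RSW W q).filter (fun A => DivW p A))).card : ℝ) ≤
        ∑ p ∈ (Finset.Icc 2 P).filter Nat.Prime, (q:ℝ) ^ D * ((p:ℝ) ^ 2)⁻¹ := by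
      have h4 : ((((Finset.Icc 2 P).filter Nat.Prime).biUnion
        (fun p => (RSW W q).filter (fun A => DivW p A))).card : ℝ) ≤
        ∑ p ∈ (Finset.Icc 2 P).filter Nat.Prime,
          (((RSW W q).filter (fun A => DivW p A)).card : ℝ) := by
        exact_mod_cast Finset.card_biUnion_le
      refine h4.trans (Finset.sum_le_sum ?_)
      intro p hp
      obtain ⟨hp1, hp2⟩ := Finset.mem_filter.1 hp
      obtain ⟨s, rfl⟩ := hPq p hp2 (Finset.mem_Icc.1 hp1).2
      have h5 := card_divW (W := W) (p := p) (s := s) hp2.pos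
      have hp0 : (0:ℝ) < p := by exact_mod_cast hp2.pos
      have hp1' : (1:ℝ) ≤ p := by exact_mod_cast hp2.one_lt.le
      calc (((RSW W (p * s)).filter (fun A => DivW p A)).card : ℝ) ≤ ((s ^ D : ℕ) : ℝ) := by
            exact_mod_cast h5
        _ = ((p * s : ℕ) : ℝ) ^ D * ((p:ℝ) ^ D)⁻¹ := by
            push_cast; rw [mul_pow]; field_simp
        _ ≤ ((p * s : ℕ) : ℝ) ^ D * ((p:ℝ) ^ 2)⁻¹ := by
            apply mul_le_mul_of_nonneg_left _ (by positivity)
            exact inv_anti₀ (by positivity) (pow_le_pow_right₀ hp1' hD)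
    refine h3.trans ?_
    rw [← Finset.mul_sum]
    apply mul_le_mul_of_nonneg_left _ (by positivity)
    refine le_trans (Finset.sum_le_sum_of_subset_of_nonneg (Finset.filter_subset _ _)
      (fun _ _ _ => by positivity)) (sum_sq P)
  have h6 : ((q ^ D : ℕ) : ℝ) ≤ ((IP W q P).card : ℝ) +
      ((((Finset.Icc 2 P).filter Nat.Prime).biUnion
        (fun p => (RSW W q).filter (fun A => DivW p A))).card : ℝ) := by
    exact_mod_cast h1
  push_cast at h6
  linarith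

theorem upper_local (hM : IsLocalNorm ℝ N ρ M) {Good : (W → ℚ) → Prop} {q P : ℕ}
    (hq : 0 < q) (hPq : ∀ p : ℕ, p.Prime → p ≤ P → p ∣ q)
    (hcc : ClassApprox f q cc f0 f1 ε) {Z : Frm ℤ r N} (hZ : SatF Z)
    (hfin : ∀ Y, (cset (fun _ => True) M (realF Z) Y).Finite) {B : ℝ} (hB : 0 < B) :
    (((hset Good M f Z B).ncard : ℕ) : ℝ) ≤ ∑ A0 ∈ IP W q P,
      cnt (fun A => CongW q A A0) M (realF Z) ((1 + ε) * cc (resF q Z) A0 * B) := by
  obtain ⟨h1, h2⟩ := sum_cnt (M := M) (Z := realF Z) (q := q) (IP W q P)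
    (Finset.filter_subset _ _)
    (fun A0 => (1 + ε) * cc (resF q Z) A0 * B) (Ym := 2 * f0⁻¹ * B) (by
      intro A0 _
      apply mul_le_mul_of_nonneg_right _ hB.le
      have := hcc.hi (resF q Z) A0
      have h0 := inv_pos.2 hcc.pos
      have h3 : 0 < cc (resF q Z) A0 := (inv_pos.2 hcc.pos1).trans_le (hcc.lo _ _)
      nlinarith [hcc.eps, hcc.eps1]) (hfin _)
  rw [h1]
  have hsub : hset Good M f Z B ⊆ {A : W → ℤ | A ≠ 0 ∧ resW q A ∈ IP W q P ∧
      M (realF Z) (realW A) ≤ (1 + ε) * cc (resF q Z) (resW q A) * B} := by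
    rintro A ⟨hP, hnr, hMf⟩
    refine ⟨hP.ne_zero, ?_, ?_⟩
    · rw [IP, Finset.mem_filter]
      refine ⟨resW_mem hq A, ?_⟩
      intro p hp hpP hdiv
      exact (primW_iff.1 hP) p hp (hdiv.congr (hPq p hp hpP) (congW_res q A).symm)
    · have hf := hcc.flo Z A hZ hP
      have hfp : 0 < f Z A := hcc.pos.trans_le hf
      have hup := hcc.up Z A hZ hP
      have hMpos : 0 < M (realF Z) (realW A) :=
        hM.pos _ _ (allFrame_realF.2 hZ.allFrame) (realW_ne_zero hP.ne_zero)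
      set c := (1 + ε) * cc (resF q Z) (resW q A)
      have hcpos : 0 < c := by
        have := hcc.eps
        have h3 : 0 < cc (resF q Z) (resW q A) := (inv_pos.2 hcc.pos1).trans_le (hcc.lo _ _)
        positivity
      calc M (realF Z) (realW A) ≤ M (realF Z) (realW A) * (c * f Z A) :=
            le_mul_of_one_le_right hMpos.le hup
        _ = c * (M (realF Z) (realW A) * f Z A) := by ring
        _ ≤ c * B := mul_le_mul_of_nonneg_left hMf hcpos.le
  exact_mod_cast Set.ncard_le_ncard hsub h2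

theorem lower_local (hM : IsLocalNorm ℝ N ρ M) {Good : (W → ℚ) → Prop} {q P : ℕ}
    (hPq : ∀ p : ℕ, p.Prime → p ≤ P → p ∣ q)
    (hcc : ClassApprox f q cc f0 f1 ε) {Z : Frm ℤ r N} (hZ : SatF Z)
    (hfin : ∀ Y, (cset (fun _ => True) M (realF Z) Y).Finite) {B : ℝ} (hB : 0 < B) :
    ∑ A0 ∈ IP W q P,
      cnt (fun A => CongW q A A0) M (realF Z) ((1 + ε)⁻¹ * cc (resF q Z) A0 * B) ≤
    (((hset Good M f Z B).ncard : ℕ) : ℝ) +
      cnt (fun A => ¬ Good (ratW A)) M (realF Z) (f0⁻¹ * B) +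
      cnt (fun A => ∃ p : ℕ, p.Prime ∧ P < p ∧ DivW p A) M (realF Z) (f0⁻¹ * B) := by
  have hε := hcc.eps
  have hle1 : (1 + ε)⁻¹ ≤ 1 := inv_le_one_of_one_le₀ (by linarith)
  have hYle : ∀ A0, (1 + ε)⁻¹ * cc (resF q Z) A0 * B ≤ f0⁻¹ * B := by
    intro A0
    apply mul_le_mul_of_nonneg_right _ hB.le
    have h1 := hcc.hi (resF q Z) A0
    have h3 : 0 < cc (resF q Z) A0 := (inv_pos.2 hcc.pos1).trans_le (hcc.lo _ _)
    calc (1 + ε)⁻¹ * cc (resF q Z) A0 ≤ 1 * cc (resF q Z) A0 :=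
          mul_le_mul_of_nonneg_right hle1 h3.le
      _ ≤ f0⁻¹ := by rw [one_mul]; exact h1
  obtain ⟨h1, h2⟩ := sum_cnt (M := M) (Z := realF Z) (q := q) (IP W q P)
    (Finset.filter_subset _ _)
    (fun A0 => (1 + ε)⁻¹ * cc (resF q Z) A0 * B) (Ym := f0⁻¹ * B) (fun A0 _ => hYle A0) (hfin _)
  rw [h1]
  have hhfin : (hset Good M f Z B).Finite := by
    refine (hfin (f0⁻¹ * B)).subset ?_
    rintro A ⟨hP, _, hMf⟩
    refine ⟨hP.ne_zero, trivial, ?_⟩
    have hf := hcc.flo Z A hZ hP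
    have hMpos : 0 < M (realF Z) (realW A) :=
      hM.pos _ _ (allFrame_realF.2 hZ.allFrame) (realW_ne_zero hP.ne_zero)
    rw [← div_eq_inv_mul, le_div_iff₀ hcc.pos]
    have h5 : M (realF Z) (realW A) * f0 ≤ M (realF Z) (realW A) * f Z A :=
      mul_le_mul_of_nonneg_left hf hMpos.le
    linarith
  have hf2 : ∀ p : (W → ℤ) → Prop, (cset p M (realF Z) (f0⁻¹ * B)).Finite := by
    intro p
    refine (hfin (f0⁻¹ * B)).subset ?_
    rintro A ⟨a1, _, a3⟩
    exact ⟨a1, trivial, a3⟩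
  have hsub : {A : W → ℤ | A ≠ 0 ∧ resW q A ∈ IP W q P ∧
      M (realF Z) (realW A) ≤ (1 + ε)⁻¹ * cc (resF q Z) (resW q A) * B} ⊆
      (hset Good M f Z B ∪ cset (fun A => ¬ Good (ratW A)) M (realF Z) (f0⁻¹ * B)) ∪
        cset (fun A => ∃ p : ℕ, p.Prime ∧ P < p ∧ DivW p A) M (realF Z) (f0⁻¹ * B) := by
    rintro A ⟨hA0, hI, hMA⟩
    have hMA2 := hMA.trans (hYle (resW q A))
    by_cases hnr : Good (ratW A)
    · by_cases hP : PrimW A
      · left; left
        refine ⟨hP, hnr, ?_⟩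
        have hf := hcc.flo Z A hZ hP
        have hfp : 0 < f Z A := hcc.pos.trans_le hf
        have hdn := hcc.dn Z A hZ hP
        calc M (realF Z) (realW A) * f Z A
            ≤ ((1 + ε)⁻¹ * cc (resF q Z) (resW q A) * B) * f Z A :=
              mul_le_mul_of_nonneg_right hMA hfp.le
          _ = (1 + ε)⁻¹ * B * (cc (resF q Z) (resW q A) * f Z A) := by ring
          _ ≤ (1 + ε)⁻¹ * B * (1 + ε) := mul_le_mul_of_nonneg_left hdn (by positivity)
          _ = B := by field_simp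
      · right
        rw [primW_iff] at hP
        push Not at hP
        obtain ⟨p, hp, hdiv⟩ := hP
        refine ⟨hA0, ⟨p, hp, ?_, hdiv⟩, hMA2⟩
        by_contra hcon
        push Not at hcon
        rw [IP, Finset.mem_filter] at hI
        exact hI.2 p hp hcon (hdiv.congr (hPq p hp hcon) (congW_res q A))
    · left; right
      exact ⟨hA0, hnr, hMA2⟩
  have h3 := Set.ncard_le_ncard hsub ((hhfin.union (hf2 _)).union (hf2 _))
  have h4 := Set.ncard_union_le
    (hset Good M f Z B ∪ cset (fun A => ¬ Good (ratW A)) M (realF Z) (f0⁻¹ * B))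
    (cset (fun A => ∃ p : ℕ, p.Prime ∧ P < p ∧ DivW p A) M (realF Z) (f0⁻¹ * B))
  have h5 := Set.ncard_union_le (hset Good M f Z B)
    (cset (fun A => ¬ Good (ratW A)) M (realF Z) (f0⁻¹ * B))
  rw [cnt, cnt]
  exact_mod_cast (h3.trans h4).trans (Nat.add_le_add_right h5 _)

end Pool.Agent.Lib.MP_1acd66_nt.Gen
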