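import Pool.Agent.Lib.MP_1acd66_nt.Gen.MultiSum
import Pool.Agent.Lib.MP_1acd66_nt.Gen.Local

/-! Sums over integral families of frames. -/

set_option linter.unusedSectionVars false

namespace Pool.Agent.Lib.MP_1acd66_nt.Gen

open MeasureTheory Metric Set Filter Topology

variable {k : ℕ} {r N : Fin k → ℕ} {W : Type} [Fintype W] {ρ : FRep r W}
  {M : Frm ℝ r N → (W → ℝ) → ℝ}

/-- the density -/
noncomputable def dens (t : ℝ) (M : Frm ℝ r N → (W → ℝ) → ℝ) (Z : Frm ℝ r N) : ℝ :=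
  wtt t Z * bodyVol M Z

theorem wtt_scal (t : ℝ) {s : Fin k → ℝ} (hs : ∀ i, 0 < s i) (Z : Frm ℝ r N) :
    wtt t (scal s Z) = wtt t Z :=
  Finset.prod_congr rfl fun i _ => wt_smul t (hs i) (Z i)

theorem continuousAt_wtt (t : ℝ) {Z : Frm ℝ r N} (hZ : ∀ i, Z i ≠ 0) :
    ContinuousAt (wtt t : Frm ℝ r N → ℝ) Z := by
  unfold wtt
  refine tendsto_finsetProd _ fun i _ => ?_
  have h1 : ContinuousAt (wt t : (Fin (r i) → Fin (N i) → ℝ) → ℝ) (Z i) :=
    (continuousOn_wt t).continuousAt (isOpen_compl_singleton.mem_nhds (hZ i))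
  exact ContinuousAt.comp (f := fun Z : Frm ℝ r N => Z i) h1 (continuous_apply i).continuousAt

theorem mHom_dens (hM : IsLocalNorm ℝ N ρ M) (hw : ∀ i, ρ.b i ≤ N i) (hr : ∀ i, 0 < r i)
    (hW : 0 < Fintype.card W) (t : ℝ) : MHom (dens t M) where
  nonneg Z := mul_nonneg (wtt_nonneg _ _) measureReal_nonneg
  hom Z hZ s hs := by
    unfold dens
    rw [wtt_scal t hs]
    by_cases hF : AllFrame Z
    · rw [hM.bodyVol_scal hw hW hF hs]; ring
    · have : wtt t Z = 0 := by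
        by_contra hcon
        exact hF fun i => bal_pos_frame (hr i) (wtt_ne_zero hcon i)
      rw [this]; ring
  cont := by
    intro Z hZ
    have hZ0 : ∀ i, Z i ≠ 0 := hZ
    by_cases hF : AllFrame Z
    · exact ((continuousAt_wtt t hZ0).mul (hM.continuousAt_bodyVol hW hF)).continuousWithinAt
    · have hex : ∃ i, ¬ IsFrame (Z i) := by
        by_contra hcon
        push Not at hcon
        exact hF hcon
      obtain ⟨i, hi⟩ := hex
      have h1 := wt_eventually_zero t (hZ0 i) hi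
      have h2 : ∀ᶠ Z' : Frm ℝ r N in 𝓝 Z, wt t (Z' i) = 0 :=
        (continuous_apply i).continuousAt.eventually h1
      have hev : ∀ᶠ Z' in 𝓝 Z, dens t M Z' = 0 := by
        filter_upwards [h2] with Z' hZ'
        rw [dens, wtt, Finset.prod_eq_zero (Finset.mem_univ i) hZ', zero_mul]
      have h0 : dens t M Z = 0 := hev.self_of_nhds
      refine ContinuousAt.continuousWithinAt ?_
      rw [ContinuousAt, h0]
      exact tendsto_const_nhds.congr' (hev.mono fun _ h => h.symm)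

theorem kapM_mul (Φ : Frm ℝ r N → ℝ) (η : ℝ) : kapM (fun Z => η * Φ Z) = η * kapM Φ := by
  simp only [kapM, kapI]
  rw [integral_const_mul]
  ring

/-- The main summation theorem over integral families of frames in a congruence class. -/
theorem frame_sum (hM : IsLocalNorm ℝ N ρ M) (hw : ∀ i, ρ.b i ≤ N i) (hr : ∀ i, 0 < r i)
    (hN : ∀ i, 0 < N i) (hW : 0 < Fintype.card W) {t : ℝ}
    {q : ℕ} (hq : 0 < q) (Z0 : Frm ℤ r N) (p : (W → ℤ) → Prop) {η : ℝ} (hη : 0 ≤ η)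
    (hasymp : ∀ ε > 0, ∃ Y0 > 0, ∀ Z ∈ Kt r N t, ∀ Y, Y0 ≤ Y →
      |cnt p M Z Y - η * bodyVol M Z * Y| ≤ ε * Y)
    {c : ℝ} (hc : 0 < c)
    (hempty : ∀ Z ∈ Kt r N t, ∀ Y, Y < c → cset p M Z Y = ∅) {ε : ℝ} (hε : 0 < ε) :
    ∃ Y1 : ℝ, ∀ Y : ℝ, Y1 ≤ Y → ∀ S : Finset (Frm ℤ r N),
      (∀ Z ∈ S, CongF q Z Z0 ∧ ∀ i, Z i ≠ 0) →
      (∀ Z : Frm ℤ r N, CongF q Z Z0 → (∀ i, Z i ≠ 0) → c * PN (realF Z) ≤ Y → Z ∈ S) →
      |(q:ℝ) ^ (∑ i, r i * N i) * ∑ Z ∈ S, wtt t (realF Z) * cnt p M (realF Z) Y -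
        η * kapM (dens t M) * (Y * Real.log Y ^ k)| ≤ ε * (Y * Real.log Y ^ k) := by
  classical
  obtain ⟨_, C, _, hC, hbound⟩ := cset_bound hM hW t
  have hn : ∀ i, 0 < r i * N i := fun i => Nat.mul_pos (hr i) (hN i)
  set Φ : Frm ℝ r N → ℝ := fun Z => η * dens t M Z with hΦ
  have hdens := mHom_dens hM hw hr hW t
  have hΦn : MHom Φ :=
    { cont := continuousOn_const.mul hdens.cont
      nonneg := fun x => mul_nonneg hη (hdens.nonneg x)
      hom := by
        intro x hx s hs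
        simp only [hΦ]
        rw [hdens.hom x hx s hs]
        ring }
  have hkap : kapM Φ = η * kapM (dens t M) := kapM_mul _ _
  set g : Frm ℤ r N → ℝ → ℝ := fun Z Y => wtt t (realF Z) * cnt p M (realF Z) Y with hg
  have hcases : ∀ Z : Frm ℤ r N, (∀ i, Z i ≠ 0) → ∀ Y : ℝ, (wtt t (realF Z) = 0) ∨
      (nrm (realF Z) ∈ Kt r N t ∧ cset p M (realF Z) Y =
        cset p M (nrm (realF Z)) (Y * (PN (realF Z))⁻¹)) := by
    intro Z hZ Y
    by_cases h : wtt t (realF Z) = 0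
    · exact Or.inl h
    · right
      have h1 := mem_Kt_of_bal hr (wtt_ne_zero h)
      exact ⟨h1, cset_scale hM hw p (fun i => realF_apply_ne_zero (hZ i))
        (allFrame_of_mem_Kt h1) Y⟩
  have key := multi_sum hn hΦn hq Z0 (g := g) (C := C) (c0 := c) hC.le hc ?_ ?_ ?_ hε
  · obtain ⟨Y1, hY1⟩ := key
    refine ⟨Y1, ?_⟩
    intro Y hY S hS1 hS2
    have h := hY1 Y hY S hS1 hS2
    rw [hkap] at h
    exact h
  · -- asymptotics
    intro ε' hε'
    obtain ⟨Y0, hY0, H⟩ := hasymp ε' hε'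
    refine ⟨Y0, hY0, ?_⟩
    intro Z _ hZ0 Y hY
    have hZr : ∀ i, realF Z i ≠ 0 := fun i => realF_apply_ne_zero (hZ0 i)
    have hP := PN_pos hZr
    have hYpos : 0 < Y := lt_of_lt_of_le (by positivity) hY
    rcases hcases Z hZ0 Y with h | ⟨h1, h2⟩
    · simp only [hg, hΦ, dens, h, zero_mul, mul_zero, sub_zero, abs_zero]
      positivity
    · have hfr := allFrame_of_mem_Kt h1
      have e1 : g Z Y = wtt t (realF Z) * cnt p M (nrm (realF Z)) (Y * (PN (realF Z))⁻¹) := by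
        simp only [hg, cnt, h2]
      have e2 : bodyVol M (realF Z) = (PN (realF Z))⁻¹ * bodyVol M (nrm (realF Z)) := by
        have := hM.bodyVol_scal hw hW hfr (s := fun i => ‖realF Z i‖)
          (fun i => norm_pos_iff.2 (hZr i))
        rwa [scal_nrm hZr] at this
      have e3 : Φ (realF Z) * Y = wtt t (realF Z) *
          (η * bodyVol M (nrm (realF Z)) * (Y * (PN (realF Z))⁻¹)) := by
        simp only [hΦ, dens, e2]; ring
      rw [e1, e3, ← mul_sub, abs_mul, abs_of_nonneg (wtt_nonneg _ _)]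
      have h3 := H _ h1 (Y * (PN (realF Z))⁻¹) (by
        rw [← div_eq_mul_inv, le_div_iff₀ hP]; exact hY)
      calc wtt t (realF Z) * |cnt p M (nrm (realF Z)) (Y * (PN (realF Z))⁻¹) -
            η * bodyVol M (nrm (realF Z)) * (Y * (PN (realF Z))⁻¹)|
          ≤ 1 * (ε' * (Y * (PN (realF Z))⁻¹)) :=
            mul_le_mul (wtt_le_one _ _) h3 (abs_nonneg _) zero_le_one
        _ = _ := by ring
  · -- upper bound
    intro Z _ hZ0 Y hY
    have hZr : ∀ i, realF Z i ≠ 0 := fun i => realF_apply_ne_zero (hZ0 i)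
    have hP := PN_pos hZr
    refine ⟨mul_nonneg (wtt_nonneg _ _) (cnt_nonneg _ _ _ _), ?_⟩
    rcases hcases Z hZ0 Y with h | ⟨h1, h2⟩
    · simp only [hg, h, zero_mul]
      positivity
    · have e1 : g Z Y = wtt t (realF Z) * cnt p M (nrm (realF Z)) (Y * (PN (realF Z))⁻¹) := by
        simp only [hg, cnt, h2]
      rw [e1]
      have h3 := (hbound p _ h1 (Y * (PN (realF Z))⁻¹)).2.2 (by positivity)
      calc wtt t (realF Z) * cnt p M (nrm (realF Z)) (Y * (PN (realF Z))⁻¹)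
          ≤ 1 * (C * (Y * (PN (realF Z))⁻¹)) :=
            mul_le_mul (wtt_le_one _ _) h3 (cnt_nonneg _ _ _ _) zero_le_one
        _ = _ := by ring
  · -- vanishing
    intro Z _ hZ0 Y hY
    have hZr : ∀ i, realF Z i ≠ 0 := fun i => realF_apply_ne_zero (hZ0 i)
    have hP := PN_pos hZr
    rcases hcases Z hZ0 Y with h | ⟨h1, h2⟩
    · simp only [hg, h, zero_mul]
    · have e1 : g Z Y = wtt t (realF Z) * cnt p M (nrm (realF Z)) (Y * (PN (realF Z))⁻¹) := by
        simp only [hg, cnt, h2]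
      have h3 := hempty _ h1 (Y * (PN (realF Z))⁻¹) (by
        rw [← div_eq_mul_inv, div_lt_iff₀ hP]; exact hY)
      rw [e1, cnt, h3, Set.ncard_empty]
      simp

end Pool.Agent.Lib.MP_1acd66_nt.Gen
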