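import Pool.Agent.Lib.MP_1acd66_nt.Gen.Defs

/-! Gram determinants and minors of frames. -/

namespace Pool.Agent.Lib.MP_1acd66_nt.Gen

open Finset Matrix

section ring

variable {K : Type*} [CommRing K] {r N : ℕ}

theorem of_rowOp (g : Matrix (Fin r) (Fin r) K) (Z : Fin r → Fin N → K) :
    Matrix.of (rowOp g Z) = g * Matrix.of Z := by
  ext a j
  simp [rowOp, Matrix.mul_apply]

theorem rowOp_one (Z : Fin r → Fin N → K) : rowOp 1 Z = Z := by
  apply Matrix.of.injective
  rw [of_rowOp, Matrix.one_mul]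

theorem rowOp_mul (g h : Matrix (Fin r) (Fin r) K) (Z : Fin r → Fin N → K) :
    rowOp (g * h) Z = rowOp g (rowOp h Z) := by
  apply Matrix.of.injective
  rw [of_rowOp, of_rowOp, of_rowOp, Matrix.mul_assoc]

theorem minor_eq (Z : Fin r → Fin N → K) (s : Fin r → Fin N) :
    minor Z s = ((Matrix.of Z).submatrix id s).det := rfl

theorem minor_rowOp (g : Matrix (Fin r) (Fin r) K) (Z : Fin r → Fin N → K) (s : Fin r → Fin N) :
    minor (rowOp g Z) s = g.det * minor Z s := by
  rw [minor_eq, minor_eq, of_rowOp, ← Matrix.det_mul]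
  congr 1

theorem gram_eq (Z : Fin r → Fin N → K) : gram Z = (Matrix.of Z * (Matrix.of Z)ᵀ).det := rfl

theorem gram_rowOp (g : Matrix (Fin r) (Fin r) K) (Z : Fin r → Fin N → K) :
    gram (rowOp g Z) = g.det ^ 2 * gram Z := by
  rw [gram_eq, gram_eq, of_rowOp, Matrix.transpose_mul, Matrix.mul_assoc, Matrix.det_mul,
    ← Matrix.mul_assoc, Matrix.det_mul, Matrix.det_transpose]
  ring

theorem dot_comm (x y : Fin N → K) : dot x y = dot y x := by
  simp only [dot]; exact Finset.sum_congr rfl fun j _ => mul_comm _ _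

theorem dot_map {L : Type*} [CommRing L] (f : K →+* L) (x y : Fin N → K) :
    dot (fun j => f (x j)) (fun j => f (y j)) = f (dot x y) := by
  simp [dot, map_sum]

theorem minor_map {L : Type*} [CommRing L] (f : K →+* L) (Z : Fin r → Fin N → K)
    (s : Fin r → Fin N) : minor (fun i j => f (Z i j)) s = f (minor Z s) := by
  rw [minor, minor, RingHom.map_det]
  rfl

theorem gram_map {L : Type*} [CommRing L] (f : K →+* L) (Z : Fin r → Fin N → K) :
    gram (fun i j => f (Z i j)) = f (gram Z) := by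
  rw [gram, gram, RingHom.map_det]
  congr 1
  ext a b
  simp [dot_map f]

theorem rowOp_map {L : Type*} [CommRing L] (f : K →+* L) (g : Matrix (Fin r) (Fin r) K)
    (Z : Fin r → Fin N → K) :
    rowOp (g.map f) (fun a j => f (Z a j)) = fun a j => f (rowOp g Z a j) := by
  funext a j
  simp [rowOp, map_sum]

theorem rowOp_smul (g : Matrix (Fin r) (Fin r) K) (s : K) (Z : Fin r → Fin N → K) :
    rowOp g (s • Z) = s • rowOp g Z := by
  funext i j
  simp only [rowOp, Pi.smul_apply, smul_eq_mul, Finset.mul_sum]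
  exact Finset.sum_congr rfl fun _ _ => by ring

theorem smul_eq_rowOp (s : K) (Z : Fin r → Fin N → K) : s • Z = rowOp (s • 1) Z := by
  apply Matrix.of.injective
  rw [of_rowOp, Matrix.smul_mul, Matrix.one_mul]
  rfl

theorem gram_smul (s : K) (Z : Fin r → Fin N → K) : gram (s • Z) = s ^ (2 * r) * gram Z := by
  rw [smul_eq_rowOp, gram_rowOp, Matrix.det_smul, Matrix.det_one, mul_one, Fintype.card_fin,
    ← pow_mul, mul_comm r 2]

theorem minor_smul (s : K) (Z : Fin r → Fin N → K) (c : Fin r → Fin N) :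
    minor (s • Z) c = s ^ r * minor Z c := by
  rw [smul_eq_rowOp, minor_rowOp, Matrix.det_smul, Matrix.det_one, mul_one, Fintype.card_fin]

end ring

section field

variable {K : Type*} [Field K] {r N : ℕ}

/-- A family of vectors is a frame if and only if it is linearly independent. -/
theorem isFrame_iff (Z : Fin r → Fin N → K) : IsFrame Z ↔ LinearIndependent K Z := by
  constructor
  · rintro ⟨s, hs⟩
    have h1 : LinearIndependent K (fun a => (Matrix.of fun a b => Z a (s b)) a) :=
      Matrix.linearIndependent_rows_of_det_ne_zero hs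
    have h2 : (fun a => (Matrix.of fun a b => Z a (s b)) a) =
        (LinearMap.funLeft K K s) ∘ Z := by
      funext a b
      simp [LinearMap.funLeft]
    rw [h2] at h1
    exact h1.of_comp _
  · intro h
    set A : Matrix (Fin r) (Fin N) K := Matrix.of Z with hA
    have hrank : A.rank = r := by
      have h3 : LinearIndependent K A.row := h
      have := h3.rank_matrix
      simpa using this
    have hcol : Submodule.span K (Set.range A.col) = ⊤ := by
      apply Submodule.eq_top_of_finrank_eq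
      rw [← Matrix.rank_eq_finrank_span_cols, hrank]
      simp
    obtain ⟨κ, c, hc, hspan, hli⟩ := exists_linearIndependent' K A.col
    rw [hcol] at hspan
    have hfin : Finite κ := Finite.of_injective c hc
    have hfin' : Fintype κ := Fintype.ofFinite κ
    have hb : Module.Basis κ K (Fin r → K) := Module.Basis.mk hli (by rw [hspan])
    have hcard : Fintype.card κ = r := by
      rw [← Module.finrank_eq_card_basis hb]; simp
    let e : Fin r ≃ κ := (Fintype.equivFinOfCardEq hcard).symm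
    refine ⟨c ∘ e, ?_⟩
    have h4 : LinearIndependent K (A.col ∘ c ∘ e) := hli.comp e e.injective
    have h5 : IsUnit (Matrix.of fun a b => Z a ((c ∘ e) b)) := by
      rw [← Matrix.linearIndependent_cols_iff_isUnit]
      exact h4
    exact ((Matrix.isUnit_iff_isUnit_det _).1 h5).ne_zero

theorem IsFrame.rowOp {Z : Fin r → Fin N → K} (hZ : IsFrame Z) {g : Matrix (Fin r) (Fin r) K}
    (hg : g.det ≠ 0) : IsFrame (rowOp g Z) := by
  obtain ⟨s, hs⟩ := hZ
  exact ⟨s, by rw [minor_rowOp]; exact mul_ne_zero hg hs⟩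

theorem isFrame_rowOp_iff {Z : Fin r → Fin N → K} {g : Matrix (Fin r) (Fin r) K}
    (hg : g.det ≠ 0) : IsFrame (rowOp g Z) ↔ IsFrame Z := by
  refine ⟨?_, fun h => h.rowOp hg⟩
  rintro ⟨s, hs⟩
  rw [minor_rowOp] at hs
  exact ⟨s, right_ne_zero_of_mul hs⟩

theorem IsFrame.smul {Z : Fin r → Fin N → K} (hZ : IsFrame Z) {s : K} (hs : s ≠ 0) :
    IsFrame (s • Z) := by
  obtain ⟨c, hc⟩ := hZ
  exact ⟨c, by rw [minor_smul]; exact mul_ne_zero (pow_ne_zero _ hs) hc⟩

/-- A frame determines the matrix of a change of frame. -/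
theorem rowOp_injective {Z : Fin r → Fin N → K} (hZ : IsFrame Z) :
    Function.Injective (fun g : Matrix (Fin r) (Fin r) K => Gen.rowOp g Z) := by
  obtain ⟨s, hs⟩ := hZ
  intro g h hgh
  have h1 : g * (Matrix.of Z).submatrix id s = h * (Matrix.of Z).submatrix id s := by
    have h2 : Matrix.of (Gen.rowOp g Z) = Matrix.of (Gen.rowOp h Z) := congrArg _ hgh
    rw [of_rowOp, of_rowOp] at h2
    have h3 := congrArg (fun M : Matrix (Fin r) (Fin N) K => M.submatrix id s) h2
    exact h3
  have hu : IsUnit ((Matrix.of Z).submatrix id s).det := isUnit_iff_ne_zero.2 hs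
  have h4 := congrArg (fun M => M * ((Matrix.of Z).submatrix id s)⁻¹) h1
  simpa [Matrix.mul_assoc, Matrix.mul_nonsing_inv _ hu] using h4

end field

section real

variable {r N : ℕ}

theorem gram_eq_matrix_gram (Z : Fin r → Fin N → ℝ) :
    gram Z = (Matrix.gram ℝ (fun a => WithLp.toLp 2 (Z a) : Fin r → EuclideanSpace ℝ (Fin N))).det := by
  rw [gram]
  congr 1
  ext a b
  rw [Matrix.gram_apply, Matrix.of_apply, dot]
  rw [PiLp.inner_apply]
  refine Finset.sum_congr rfl fun j _ => ?_
  simp [mul_comm]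

theorem linearIndependent_toLp (Z : Fin r → Fin N → ℝ) :
    LinearIndependent ℝ (fun a => WithLp.toLp 2 (Z a) : Fin r → EuclideanSpace ℝ (Fin N)) ↔
      LinearIndependent ℝ Z := by
  have : (fun a => WithLp.toLp 2 (Z a) : Fin r → EuclideanSpace ℝ (Fin N)) =
      (WithLp.linearEquiv 2 ℝ (Fin N → ℝ)).symm ∘ Z := rfl
  rw [this]
  exact LinearMap.linearIndependent_iff _ (LinearEquiv.ker _)

theorem gram_nonneg (Z : Fin r → Fin N → ℝ) : 0 ≤ gram Z := by
  rw [gram_eq_matrix_gram]
  exact (Matrix.posSemidef_gram _ _).det_nonneg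

theorem gram_pos_iff (Z : Fin r → Fin N → ℝ) : 0 < gram Z ↔ IsFrame Z := by
  rw [isFrame_iff, ← linearIndependent_toLp, ← Matrix.det_gram_ne_zero_iff_linearIndependent,
    ← gram_eq_matrix_gram]
  exact ⟨fun h => h.ne', fun h => lt_of_le_of_ne (gram_nonneg Z) h.symm⟩

theorem dot_self_nonneg (x : Fin N → ℝ) : 0 ≤ dot x x :=
  Finset.sum_nonneg fun _ _ => mul_self_nonneg _

theorem continuous_dot : Continuous (fun x : (Fin N → ℝ) × (Fin N → ℝ) => dot x.1 x.2) := by
  unfold dot
  fun_prop

theorem continuous_gram : Continuous (fun Z : Fin r → Fin N → ℝ => gram Z) := by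
  unfold gram
  refine Continuous.matrix_det ?_
  refine continuous_matrix fun a b => ?_
  simp only [Matrix.of_apply]
  unfold dot
  fun_prop

theorem isOpen_frames : IsOpen {Z : Fin r → Fin N → ℝ | IsFrame Z} := by
  have : {Z : Fin r → Fin N → ℝ | IsFrame Z} = (fun Z => gram Z) ⁻¹' Set.Ioi 0 := by
    ext Z
    simp [gram_pos_iff]
  rw [this]
  exact isOpen_Ioi.preimage continuous_gram

theorem abs_dot_le (x y : Fin N → ℝ) : |dot x y| ≤ N * (‖x‖ * ‖y‖) := by
  rw [dot]
  refine (Finset.abs_sum_le_sum_abs _ _).trans ?_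
  have : ∀ j ∈ (Finset.univ : Finset (Fin N)), |x j * y j| ≤ ‖x‖ * ‖y‖ := by
    intro j _
    rw [abs_mul]
    exact mul_le_mul (norm_le_pi_norm x j) (norm_le_pi_norm y j) (abs_nonneg _) (norm_nonneg _)
  refine (Finset.sum_le_sum this).trans ?_
  simp

/-- a Hadamard type bound for the Gram determinant -/
theorem gram_le (Z : Fin r → Fin N → ℝ) :
    gram Z ≤ (r.factorial : ℝ) * (N:ℝ) ^ r * (∏ a, ‖Z a‖) ^ 2 := by
  rw [gram, Matrix.det_apply]
  have h : ∀ σ ∈ (Finset.univ : Finset (Equiv.Perm (Fin r))),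
      Equiv.Perm.sign σ • ∏ i, (Matrix.of fun a b => dot (Z a) (Z b)) (σ i) i ≤
        (N:ℝ) ^ r * (∏ a, ‖Z a‖) ^ 2 := by
    intro σ _
    have h1 : |Equiv.Perm.sign σ • ∏ i, (Matrix.of fun a b => dot (Z a) (Z b)) (σ i) i| ≤
        (N:ℝ) ^ r * (∏ a, ‖Z a‖) ^ 2 := by
      have e1 : |Equiv.Perm.sign σ • ∏ i, (Matrix.of fun a b => dot (Z a) (Z b)) (σ i) i| =
          ∏ i, |dot (Z (σ i)) (Z i)| := by
        rcases Int.units_eq_one_or (Equiv.Perm.sign σ) with h | h
        · rw [h, one_smul, Finset.abs_prod]; rfl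
        · rw [h, Units.neg_smul, one_smul, abs_neg, Finset.abs_prod]; rfl
      rw [e1]
      have h2 : ∏ i, |dot (Z (σ i)) (Z i)| ≤ ∏ i, ((N:ℝ) * (‖Z (σ i)‖ * ‖Z i‖)) :=
        Finset.prod_le_prod (fun _ _ => abs_nonneg _) (fun i _ => abs_dot_le _ _)
      refine h2.trans (le_of_eq ?_)
      rw [Finset.prod_mul_distrib, Finset.prod_mul_distrib, Finset.prod_const, Finset.card_univ,
        Fintype.card_fin, Equiv.prod_comp σ (fun i => ‖Z i‖)]
      ring
    exact (le_abs_self _).trans h1
  refine (Finset.sum_le_sum h).trans (le_of_eq ?_)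
  rw [Finset.sum_const, Finset.card_univ, Fintype.card_perm, Fintype.card_fin, nsmul_eq_mul]
  ring

end real

end Pool.Agent.Lib.MP_1acd66_nt.Gen
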