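import Pool.Agent.Lib.MP_1acd66_nt.Gen.Points
import Pool.Agent.Lib.MP_1acd66_nt.Height

/-! The height on integral coordinates. -/

set_option linter.unusedSectionVars false

namespace Pool.Agent.Lib.MP_1acd66_nt.Gen

open Filter

variable {k : ℕ} {r N : Fin k → ℕ} {W : Type} [Fintype W] {ρ : FRep r W}

section field

variable {K : Type} [NormedField K] [CharZero K]

/-- rational matrices over a field -/
def matK (K : Type) [NormedField K] [CharZero K] (g : Grp ℚ r) : Grp K r :=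
  fun i => (g i).map (Rat.castHom K)

theorem castF_act (g : Grp ℚ r) (Z : Frm ℚ r N) :
    castF K (act g Z) = act (matK K g) (castF K Z) := by
  funext i
  exact (rowOp_map (Rat.castHom K) (g i) (Z i)).symm

theorem castW_pull (ρ : FRep r W) (g : Grp ℚ r) (A : W → ℚ) :
    ρ.pull K (matK K g) (castW K A) = castW K (ρ.pull ℚ g A) :=
  ρ.pull_map ℚ K (Rat.castHom K) g A

theorem castW_ne_zero {A : W → ℚ} (hA : A ≠ 0) : castW K A ≠ 0 := by
  intro h
  apply hA
  funext w
  have := congrFun h w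
  simp only [castW, Pi.zero_apply, Rat.cast_eq_zero] at this
  exact this

theorem minor_castF (Z : Frm ℚ r N) (i : Fin k) (s : Fin (r i) → Fin (N i)) :
    minor (castF K Z i) s = ((minor (Z i) s : ℚ) : K) := minor_map (Rat.castHom K) (Z i) s

theorem allFrame_castF {Z : Frm ℚ r N} (hZ : AllFrame Z) : AllFrame (castF K Z) := by
  intro i
  obtain ⟨s, hs⟩ := hZ i
  exact ⟨s, by rw [minor_castF]; exact Rat.cast_ne_zero.2 hs⟩

theorem matK_det (g : Grp ℚ r) (i : Fin k) : (matK K g i).det = (((g i).det : ℚ) : K) :=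
  (RingHom.map_det (Rat.castHom K) (g i)).symm

/-- the factor of automorphy -/
def autf (N : Fin k → ℕ) (ρ : FRep r W) (g : Grp ℚ r) : ℚ := ∏ i, (g i).det ^ (N i - ρ.b i)

theorem autf_ne_zero {g : Grp ℚ r} (hg : ∀ i, (g i).det ≠ 0) : autf N ρ g ≠ 0 :=
  Finset.prod_ne_zero_iff.2 fun i _ => pow_ne_zero _ (hg i)

theorem local_same {M : Frm K r N → (W → K) → ℝ}
    (hM : IsLocalNorm K N ρ M) {x y : Rep r N W} {g : Grp ℚ r} {s : ℚ}
    (hg : ∀ i, (g i).det ≠ 0) (hs : s ≠ 0) (h1 : y.Z = act g x.Z)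
    (h2 : s • x.A = ρ.pull ℚ g y.A) :
    M (castF K y.Z) (castW K y.A) = ‖((autf N ρ g : ℚ) : K)‖ *
      (‖(s : K)‖ ^ (Fintype.card W) * M (castF K x.Z) (castW K x.A)) := by
  have hdet0 : ∀ i, (matK K g i).det ≠ 0 := by
    intro i
    rw [matK_det]; exact Rat.cast_ne_zero.2 (hg i)
  have e : (s:K) • castW K x.A = ρ.pull K (matK K g) (castW K y.A) := by
    rw [castW_pull, ← h2]
    funext w
    simp only [castW, Pi.smul_apply, smul_eq_mul]
    push_cast
    rfl
  have h3 := hM.frame (castF K x.Z) (castW K y.A) (allFrame_castF x.frame)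
    (castW_ne_zero y.ne) _ hdet0
  rw [← e, hM.scale _ _ (allFrame_castF x.frame) (castW_ne_zero x.ne) _ (Rat.cast_ne_zero.2 hs),
    ← castF_act, ← h1] at h3
  rw [h3]
  congr 1
  rw [autf, Rat.cast_prod, norm_prod]
  refine Finset.prod_congr rfl fun i _ => ?_
  rw [matK_det, Rat.cast_pow, norm_pow]

end field

/-- the local height at the prime `p` in terms of coordinates -/
noncomputable def AdelicNorm.loc (h : AdelicNorm N ρ.toRepData) (x : Rep r N W) (p : Nat.Primes) : ℝ :=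
  h.fin p (castF ℚ_[(p : ℕ)] x.Z) (castW ℚ_[(p : ℕ)] x.A)

theorem norm_W_eq_one {K : Type*} [NormedField K] {x : W → K}
    (h1 : ∀ w, ‖x w‖ ≤ 1) {w : W} (h2 : ‖x w‖ = 1) : ‖x‖ = 1 := by
  refine le_antisymm ?_ ?_
  · rw [pi_norm_le_iff_of_nonneg zero_le_one]
    exact h1
  · rw [← h2]
    exact norm_le_pi_norm x w

theorem AdelicNorm.loc_eventually (h : AdelicNorm N ρ.toRepData) (x : Rep r N W) :
    ∀ᶠ p in cofinite, h.loc x p = 1 := by
  obtain ⟨S, hS⟩ := h.almost
  choose s0 h0 using x.frame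
  obtain ⟨w1, h1⟩ : ∃ w, x.A w ≠ 0 := by
    by_contra hcon
    push Not at hcon
    exact x.ne (by funext w; exact hcon w)
  have e0 : ∀ᶠ p : Nat.Primes in cofinite, p ∉ S := by
    rw [Filter.eventually_cofinite]
    simp only [not_not]
    exact S.finite_toSet
  have hle : ∀ q : ℚ, ∀ᶠ p : Nat.Primes in cofinite, pn q p ≤ 1 := by
    intro q
    by_cases hq : q = 0
    · filter_upwards with p
      simp [pn, hq]
    · filter_upwards [pn_eventually hq] with p hp
      exact hp.le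
  have e1 : ∀ᶠ p : Nat.Primes in cofinite, ∀ i a j, pn (x.Z i a j) p ≤ 1 := by
    rw [Filter.eventually_all]
    intro i
    rw [Filter.eventually_all]
    intro a
    rw [Filter.eventually_all]
    intro j
    exact hle _
  have e2 : ∀ᶠ p : Nat.Primes in cofinite, ∀ w, pn (x.A w) p ≤ 1 := by
    rw [Filter.eventually_all]
    intro w
    exact hle _
  have e3 : ∀ᶠ p : Nat.Primes in cofinite, ∀ i, pn (minor (x.Z i) (s0 i)) p = 1 := by
    rw [Filter.eventually_all]
    intro i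
    exact pn_eventually (h0 i)
  filter_upwards [e0, e1, e2, e3, pn_eventually h1] with p a0 a1 a2 a3 a4
  have hA : ‖castW ℚ_[(p : ℕ)] x.A‖ = 1 := norm_W_eq_one (fun w => a2 w) a4
  have h5 := hS p a0 (castF ℚ_[(p : ℕ)] x.Z) (castW ℚ_[(p : ℕ)] x.A) (fun i a j => a1 i a j)
    (fun i => ⟨s0 i, by rw [minor_castF]; exact a3 i⟩) (castW_ne_zero x.ne)
  rw [hA, one_pow] at h5
  exact h5

/-- the height is well defined on points -/
theorem AdelicNorm.height_same (h : AdelicNorm N ρ.toRepData) {x y : Rep r N W} (hxy : Same ρ x y) :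
    h.height y = h.height x := by
  obtain ⟨g, s, hg, hs, h1, h2⟩ := hxy
  set D := Fintype.card W with hD
  set δ := autf N ρ g with hδ
  have hδ0 : δ ≠ 0 := autf_ne_zero hg
  have e1 := local_same h.isNorm_inf hg hs h1 h2
  have e2 : ∀ p, h.loc y p = pn δ p * (pn s p ^ D * h.loc x p) := fun p =>
    local_same (h.isNorm_fin p) hg hs h1 h2
  have f1 : Function.HasFiniteMulSupport (fun p => pn δ p) := pn_hasFinite hδ0
  have f2 : Function.HasFiniteMulSupport (fun p => pn s p ^ D) :=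
    hasFinite_of_eventually (by
      filter_upwards [pn_eventually hs] with p hp
      rw [hp, one_pow])
  have f3 : Function.HasFiniteMulSupport (h.loc x) :=
    hasFinite_of_eventually (h.loc_eventually x)
  have f4 : Function.HasFiniteMulSupport (fun p => pn s p ^ D * h.loc x p) :=
    hasFinite_of_eventually (by
      filter_upwards [pn_eventually hs, h.loc_eventually x] with p hp hx
      rw [hp, hx, one_pow, mul_one])
  have e3 : ∏ᶠ p, h.loc y p = (∏ᶠ p, pn δ p) * ((∏ᶠ p, pn s p) ^ D * ∏ᶠ p, h.loc x p) := by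
    rw [finprod_congr e2, finprod_mul_distrib f1 f4, finprod_mul_distrib f2 f3,
      finprod_pow (pn_hasFinite hs)]
  have p1 := product_formula hδ0
  have p2 := product_formula hs
  have e4 : h.height y = h.inf (castF ℝ y.Z) (castW ℝ y.A) * ∏ᶠ p, h.loc y p := rfl
  have e5 : h.height x = h.inf (castF ℝ x.Z) (castW ℝ x.A) * ∏ᶠ p, h.loc x p := rfl
  rw [e4, e5, e3, e1, ← hδ, ← hD]
  have e6 : ‖((δ : ℚ) : ℝ)‖ * (‖(s:ℝ)‖ ^ D * h.inf (castF ℝ x.Z) (castW ℝ x.A)) *
      ((∏ᶠ p, pn δ p) * ((∏ᶠ p, pn s p) ^ D * ∏ᶠ p, h.loc x p)) =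
      (‖((δ : ℚ) : ℝ)‖ * ∏ᶠ p, pn δ p) * ((‖(s:ℝ)‖ * ∏ᶠ p, pn s p) ^ D *
        (h.inf (castF ℝ x.Z) (castW ℝ x.A) * ∏ᶠ p, h.loc x p)) := by
    rw [mul_pow]; ring
  rw [e6, p1, p2, one_pow, one_mul, one_mul]

end Pool.Agent.Lib.MP_1acd66_nt.Gen
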