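import Pool.Agent.Lib.MP_1acd66_nt.Gen.Gram

/-! The partition of unity on the space of frames (one Grassmannian). -/

namespace Pool.Agent.Lib.MP_1acd66_nt.Gen

open MeasureTheory Metric Set Filter Topology Matrix

variable {r N : ℕ}

/-- cast an integer matrix -/
def castM (g : Matrix (Fin r) (Fin r) ℤ) : Matrix (Fin r) (Fin r) ℝ := fun i j => (g i j : ℝ)

theorem castM_eq_map (g : Matrix (Fin r) (Fin r) ℤ) : castM g = g.map (Int.castRingHom ℝ) := rfl

theorem castM_mul (g h : Matrix (Fin r) (Fin r) ℤ) : castM (g * h) = castM g * castM h := by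
  rw [castM_eq_map, castM_eq_map, castM_eq_map, Matrix.map_mul]

theorem castM_one : castM (1 : Matrix (Fin r) (Fin r) ℤ) = 1 := by
  rw [castM_eq_map]
  exact Matrix.map_one _ (map_zero _) (map_one _)

theorem castM_det (g : Matrix (Fin r) (Fin r) ℤ) : (castM g).det = (g.det : ℝ) := by
  rw [castM_eq_map]
  have := RingHom.map_det (Int.castRingHom ℝ) g
  simpa using this.symm

theorem finite_GammaR (r R : ℕ) :
    {g : Matrix (Fin r) (Fin r) ℤ | (∀ i j, |g i j| ≤ R) ∧ IsUnit g.det}.Finite := by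
  have h : {g : Fin r → Fin r → ℤ | ∀ i, g i ∈ {r : Fin r → ℤ | ∀ j, r j ∈
      Set.Icc (-(R:ℤ)) R}}.Finite :=
    Set.Finite.pi' fun _ => Set.Finite.pi' fun _ => Set.finite_Icc _ _
  refine h.subset ?_
  rintro g ⟨hg, _⟩ i j
  exact abs_le.1 (hg i j)

/-- integer matrices with bounded entries and determinant `±1` -/
noncomputable def GammaR (r R : ℕ) : Finset (Matrix (Fin r) (Fin r) ℤ) :=
  (finite_GammaR r R).toFinset

theorem mem_GammaR (R : ℕ) (g : Matrix (Fin r) (Fin r) ℤ) :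
    g ∈ GammaR r R ↔ (∀ i j, |g i j| ≤ R) ∧ IsUnit g.det := by
  rw [GammaR, Set.Finite.mem_toFinset]
  rfl

/-- cut-off function for balanced frames -/
noncomputable def bal (t : ℝ) (Z : Fin r → Fin N → ℝ) : ℝ :=
  min 1 (max 0 (t * √(gram Z) / ‖Z‖ ^ r - 1))

theorem bal_nonneg (t : ℝ) (Z : Fin r → Fin N → ℝ) : 0 ≤ bal t Z :=
  le_min zero_le_one (le_max_left _ _)

theorem bal_le_one (t : ℝ) (Z : Fin r → Fin N → ℝ) : bal t Z ≤ 1 := min_le_left _ _

theorem bal_pos (hr : 0 < r) {t : ℝ} {Z : Fin r → Fin N → ℝ} (h : 0 < bal t Z) :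
    ‖Z‖ ^ r < t * √(gram Z) ∧ Z ≠ 0 := by
  have h1 : 0 < max 0 (t * √(gram Z) / ‖Z‖ ^ r - 1) := lt_of_lt_of_le h (min_le_right _ _)
  have h2 : 0 < t * √(gram Z) / ‖Z‖ ^ r - 1 := by
    rcases lt_max_iff.1 h1 with h3 | h3
    · exact absurd h3 (lt_irrefl _)
    · exact h3
  have hZ : Z ≠ 0 := by
    rintro rfl
    rw [norm_zero, zero_pow hr.ne', div_zero] at h2
    linarith
  have hn : 0 < ‖Z‖ ^ r := pow_pos (norm_pos_iff.2 hZ) _
  rw [sub_pos, lt_div_iff₀ hn, one_mul] at h2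
  exact ⟨h2, hZ⟩

theorem bal_pos_frame (hr : 0 < r) {t : ℝ} {Z : Fin r → Fin N → ℝ} (h : 0 < bal t Z) :
    IsFrame Z := by
  rw [← gram_pos_iff]
  obtain ⟨h1, h2⟩ := bal_pos hr h
  have hn : 0 < ‖Z‖ ^ r := pow_pos (norm_pos_iff.2 h2) _
  have h3 : √(gram Z) ≠ 0 := by
    intro h0
    rw [h0, mul_zero] at h1
    linarith
  exact Real.sqrt_pos.1 (lt_of_le_of_ne (Real.sqrt_nonneg _) (Ne.symm h3))

theorem bal_eq_one {t : ℝ} {Z : Fin r → Fin N → ℝ} (hZ : Z ≠ 0)
    (h : 2 * ‖Z‖ ^ r ≤ t * √(gram Z)) : bal t Z = 1 := by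
  have hn : 0 < ‖Z‖ ^ r := pow_pos (norm_pos_iff.2 hZ) _
  have : 1 ≤ t * √(gram Z) / ‖Z‖ ^ r - 1 := by
    rw [le_sub_iff_add_le, le_div_iff₀ hn]
    linarith
  rw [bal, min_eq_left]
  exact this.trans (le_max_right _ _)

theorem sqrt_gram_smul {s : ℝ} (hs : 0 < s) (Z : Fin r → Fin N → ℝ) :
    √(gram (s • Z)) = s ^ r * √(gram Z) := by
  rw [gram_smul, Real.sqrt_mul (by positivity)]
  congr 1
  rw [mul_comm 2 r, pow_mul, Real.sqrt_sq (by positivity)]

theorem bal_smul (t : ℝ) {s : ℝ} (hs : 0 < s) (Z : Fin r → Fin N → ℝ) :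
    bal t (s • Z) = bal t Z := by
  rw [bal, bal, sqrt_gram_smul hs, norm_smul, Real.norm_eq_abs, abs_of_pos hs]
  congr 2
  rw [mul_pow, ← mul_assoc, mul_comm t, mul_assoc, mul_div_mul_left _ _ (by positivity)]

/-- the constant in the bounds for matrices relating balanced frames -/
noncomputable def bc (r N : ℕ) : ℝ := (r.factorial : ℝ) * (N:ℝ) ^ r + 1

theorem one_le_bc (r N : ℕ) : 1 ≤ bc r N := by
  unfold bc
  have : (0:ℝ) ≤ (r.factorial : ℝ) * (N:ℝ) ^ r := by positivity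
  linarith

theorem norm_row_le (Z : Fin r → Fin N → ℝ) (i : Fin r) : ‖Z i‖ ≤ ‖Z‖ := norm_le_pi_norm Z i

/-- entries of a matrix relating two balanced frames of the same determinant are bounded -/
theorem entry_bound (hr : 0 < r) {t : ℝ} (ht : 0 < t) {Z : Fin r → Fin N → ℝ}
    {g : Matrix (Fin r) (Fin r) ℝ}
    (hg : g.det ^ 2 = 1) (h1 : 0 < bal t Z) (h2 : 0 < bal t (rowOp g Z)) (i j : Fin r) :
    |g i j| ≤ bc r N * t := by
  have hF : IsFrame Z := bal_pos_frame hr h1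
  have hG : 0 < gram Z := (gram_pos_iff Z).2 hF
  have b1 := (bal_pos hr h1).1
  have b2 := (bal_pos hr h2).1
  rw [gram_rowOp, hg, one_mul] at b2
  set G := gram Z with hGdef
  have hsG : √G ^ 2 = G := Real.sq_sqrt hG.le
  set h : Matrix (Fin r) (Fin r) ℝ := (1 : Matrix (Fin r) (Fin r) ℝ).updateRow j (g i) with hh
  have hdet : h.det = g i j := by
    have e := Matrix.det_updateRow_sum (1 : Matrix (Fin r) (Fin r) ℝ) j (g i)
    rw [Matrix.det_one, smul_eq_mul, mul_one] at e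
    rw [hh, ← e]
    congr 2
    funext l
    simp [Matrix.one_apply]
  have hrows : ∀ a, ‖rowOp h Z a‖ ^ r ≤ t * √G := by
    intro a
    by_cases ha : a = j
    · have : rowOp h Z a = rowOp g Z i := by
        funext l
        simp only [rowOp, hh, ha, Matrix.updateRow_self]
      rw [this]
      exact (pow_le_pow_left₀ (norm_nonneg _) (norm_row_le _ _) _).trans b2.le
    · have : rowOp h Z a = Z a := by
        funext l
        simp only [rowOp, hh, Matrix.updateRow_ne ha]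
        simp [Matrix.one_apply]
      rw [this]
      exact (pow_le_pow_left₀ (norm_nonneg _) (norm_row_le _ _) _).trans b1.le
  have hprod : ∏ a, ‖rowOp h Z a‖ ≤ t * √G := by
    have htG : 0 ≤ t * √G := by positivity
    refine (pow_le_pow_iff_left₀ (Finset.prod_nonneg fun _ _ => norm_nonneg _) htG hr.ne').1 ?_
    rw [← Finset.prod_pow]
    calc ∏ a, ‖rowOp h Z a‖ ^ r ≤ ∏ _a : Fin r, (t * √G) :=
          Finset.prod_le_prod (fun _ _ => by positivity) (fun a _ => hrows a)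
      _ = (t * √G) ^ r := by simp
  have e := gram_rowOp h Z
  rw [hdet, ← hGdef] at e
  have l := gram_le (rowOp h Z)
  rw [e] at l
  have l2 : (r.factorial : ℝ) * (N:ℝ) ^ r * (∏ a, ‖rowOp h Z a‖) ^ 2 ≤
      (r.factorial : ℝ) * (N:ℝ) ^ r * (t * √G) ^ 2 := by
    apply mul_le_mul_of_nonneg_left _ (by positivity)
    exact pow_le_pow_left₀ (Finset.prod_nonneg fun _ _ => norm_nonneg _) hprod 2
  have l3 : (r.factorial : ℝ) * (N:ℝ) ^ r * (t * √G) ^ 2 =
      (r.factorial : ℝ) * (N:ℝ) ^ r * t ^ 2 * G := by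
    rw [mul_pow, hsG]; ring
  have l4 : g i j ^ 2 * G ≤ (r.factorial : ℝ) * (N:ℝ) ^ r * t ^ 2 * G := by linarith
  have l5 : g i j ^ 2 ≤ (r.factorial : ℝ) * (N:ℝ) ^ r * t ^ 2 := le_of_mul_le_mul_right l4 hG
  have l6 : (r.factorial : ℝ) * (N:ℝ) ^ r * t ^ 2 ≤ (bc r N * t) ^ 2 := by
    rw [mul_pow]
    apply mul_le_mul_of_nonneg_right _ (sq_nonneg _)
    have h3 : (r.factorial : ℝ) * (N:ℝ) ^ r ≤ bc r N := by unfold bc; linarith
    have h4 := one_le_bc r N
    nlinarith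
  exact abs_le_of_sq_le_sq (l5.trans l6) (by have := one_le_bc r N; positivity)

/-- sum of the cut-offs over the orbit -/
noncomputable def balSum (t : ℝ) (Z : Fin r → Fin N → ℝ) : ℝ :=
  ∑ g ∈ GammaR r ⌈bc r N * t⌉₊, bal t (rowOp (castM g) Z)

theorem balSum_nonneg (t : ℝ) (Z : Fin r → Fin N → ℝ) : 0 ≤ balSum t Z :=
  Finset.sum_nonneg fun _ _ => bal_nonneg _ _

/-- the weight -/
noncomputable def wt (t : ℝ) (Z : Fin r → Fin N → ℝ) : ℝ := bal t Z / max 1 (balSum t Z)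

theorem wt_nonneg (t : ℝ) (Z : Fin r → Fin N → ℝ) : 0 ≤ wt t Z :=
  div_nonneg (bal_nonneg _ _) (zero_le_one.trans (le_max_left _ _))

theorem wt_le_bal (t : ℝ) (Z : Fin r → Fin N → ℝ) : wt t Z ≤ bal t Z :=
  div_le_self (bal_nonneg _ _) (le_max_left _ _)

theorem wt_le_one (t : ℝ) (Z : Fin r → Fin N → ℝ) : wt t Z ≤ 1 :=
  (wt_le_bal t Z).trans (bal_le_one t Z)

theorem wt_pos {t : ℝ} {Z : Fin r → Fin N → ℝ} (h : wt t Z ≠ 0) : 0 < bal t Z := by
  rcases (bal_nonneg t Z).lt_or_eq with h1 | h1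
  · exact h1
  · exfalso; apply h; rw [wt, ← h1, zero_div]

theorem det_sq_eq_one {g : Matrix (Fin r) (Fin r) ℤ} (hg : IsUnit g.det) :
    (castM g).det ^ 2 = 1 := by
  rw [castM_det]
  rcases Int.isUnit_iff.1 hg with h | h <;> rw [h] <;> norm_num

theorem castM_det_ne_zero {g : Matrix (Fin r) (Fin r) ℤ} (hg : IsUnit g.det) :
    (castM g).det ≠ 0 := by
  intro h0
  have := det_sq_eq_one hg
  rw [h0] at this
  norm_num at this

theorem isUnit_det_mul {g h : Matrix (Fin r) (Fin r) ℤ} (hg : IsUnit g.det) (hh : IsUnit h.det) :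
    IsUnit (g * h).det := by
  rw [Matrix.det_mul]; exact hg.mul hh

theorem isUnit_det_inv {g : Matrix (Fin r) (Fin r) ℤ} (hg : IsUnit g.det) :
    IsUnit (g⁻¹).det := by
  exact Matrix.isUnit_nonsing_inv_det g hg

/-- comparison of the orbit sums for two balanced members of the same orbit -/
theorem mem_GammaR_of_bal (hr : 0 < r) {t : ℝ} (ht : 0 < t) {Z : Fin r → Fin N → ℝ}
    {g h : Matrix (Fin r) (Fin r) ℤ}
    (hg : IsUnit g.det) (hh : IsUnit h.det) (h1 : 0 < bal t (rowOp (castM g) Z))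
    (h2 : 0 < bal t (rowOp (castM h) Z)) : h * g⁻¹ ∈ GammaR r ⌈bc r N * t⌉₊ := by
  have hu : IsUnit (h * g⁻¹).det := isUnit_det_mul hh (isUnit_det_inv hg)
  rw [mem_GammaR]
  refine ⟨?_, hu⟩
  intro i j
  have e : rowOp (castM (h * g⁻¹)) (rowOp (castM g) Z) = rowOp (castM h) Z := by
    rw [← rowOp_mul, ← castM_mul, Matrix.mul_assoc, Matrix.nonsing_inv_mul g hg, Matrix.mul_one]
  have := entry_bound hr ht (det_sq_eq_one hu) h1 (by rw [e]; exact h2) i j
  have h3 : ((|(h * g⁻¹) i j| : ℤ) : ℝ) ≤ (⌈bc r N * t⌉₊ : ℝ) := by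
    push_cast
    exact this.trans (Nat.le_ceil _)
  exact_mod_cast h3

theorem wt_sum_le_one (hr : 0 < r) {t : ℝ} (ht : 0 < t) (Z : Fin r → Fin N → ℝ)
    (S : Finset (Matrix (Fin r) (Fin r) ℤ))
    (hS : ∀ g ∈ S, IsUnit g.det) : ∑ g ∈ S, wt t (rowOp (castM g) Z) ≤ 1 := by
  classical
  set S' := S.filter (fun g => 0 < bal t (rowOp (castM g) Z)) with hS'
  have e1 : ∑ g ∈ S, wt t (rowOp (castM g) Z) = ∑ g ∈ S', wt t (rowOp (castM g) Z) := by
    rw [hS', Finset.sum_filter]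
    refine Finset.sum_congr rfl ?_
    intro g _
    split_ifs with h
    · rfl
    · have : bal t (rowOp (castM g) Z) = 0 := le_antisymm (not_lt.1 h) (bal_nonneg _ _)
      rw [wt, this, zero_div]
  rw [e1]
  set s := ∑ g ∈ S', bal t (rowOp (castM g) Z) with hs
  have hs0 : 0 ≤ s := Finset.sum_nonneg fun _ _ => bal_nonneg _ _
  have hle : ∀ g ∈ S', s ≤ balSum t (rowOp (castM g) Z) := by
    intro g hg
    obtain ⟨hg1, hg2⟩ := Finset.mem_filter.1 hg
    have hgu := hS g hg1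
    rw [hs, balSum]
    have e2 : ∑ h ∈ S', bal t (rowOp (castM h) Z) =
        ∑ k ∈ S'.image (fun h => h * g⁻¹), bal t (rowOp (castM k) (rowOp (castM g) Z)) := by
      rw [Finset.sum_image]
      · refine Finset.sum_congr rfl ?_
        intro h _
        congr 1
        rw [← rowOp_mul, ← castM_mul, Matrix.mul_assoc, Matrix.nonsing_inv_mul g hgu,
          Matrix.mul_one]
      · intro a _ b _ hab
        have := congrArg (fun x => x * g) hab
        simpa [Matrix.mul_assoc, Matrix.nonsing_inv_mul g hgu] using this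
    rw [e2]
    refine Finset.sum_le_sum_of_subset_of_nonneg ?_ (fun _ _ _ => bal_nonneg _ _)
    intro k hk
    obtain ⟨h, hh, rfl⟩ := Finset.mem_image.1 hk
    obtain ⟨hh1, hh2⟩ := Finset.mem_filter.1 hh
    exact mem_GammaR_of_bal hr ht hgu (hS h hh1) hg2 hh2
  have h3 : ∑ g ∈ S', wt t (rowOp (castM g) Z) ≤
      ∑ g ∈ S', bal t (rowOp (castM g) Z) / max 1 s := by
    refine Finset.sum_le_sum ?_
    intro g hg
    rw [wt]
    apply div_le_div_of_nonneg_left (bal_nonneg _ _)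
    · exact lt_of_lt_of_le one_pos (le_max_left _ _)
    · exact max_le_max le_rfl (hle g hg)
  refine h3.trans ?_
  rw [← Finset.sum_div, ← hs]
  rw [div_le_one (lt_of_lt_of_le one_pos (le_max_left _ _))]
  exact le_max_right _ _

theorem one_le_wt_sum {t : ℝ} (Z : Fin r → Fin N → ℝ) (S : Finset (Matrix (Fin r) (Fin r) ℤ))
    (hS : ∀ g ∈ S, IsUnit g.det)
    (hS2 : ∀ g : Matrix (Fin r) (Fin r) ℤ, IsUnit g.det → 0 < bal t (rowOp (castM g) Z) → g ∈ S)
    (h1 : ∃ g : Matrix (Fin r) (Fin r) ℤ, IsUnit g.det ∧ bal t (rowOp (castM g) Z) = 1) :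
    1 ≤ ∑ g ∈ S, wt t (rowOp (castM g) Z) := by
  classical
  obtain ⟨g1, hg1, hb1⟩ := h1
  set s := ∑ g ∈ S, bal t (rowOp (castM g) Z) with hs
  have hs1 : 1 ≤ s := by
    rw [hs, ← hb1]
    refine Finset.single_le_sum (f := fun g => bal t (rowOp (castM g) Z))
      (fun _ _ => bal_nonneg _ _) (hS2 g1 hg1 ?_)
    rw [hb1]; exact one_pos
  have hle : ∀ g ∈ S, balSum t (rowOp (castM g) Z) ≤ s := by
    intro g hg
    have hgu := hS g hg
    rw [hs, balSum]
    have e2 : ∑ k ∈ GammaR r ⌈bc r N * t⌉₊, bal t (rowOp (castM k) (rowOp (castM g) Z)) =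
        ∑ h ∈ (GammaR r ⌈bc r N * t⌉₊).image (fun k => k * g), bal t (rowOp (castM h) Z) := by
      rw [Finset.sum_image]
      · refine Finset.sum_congr rfl ?_
        intro h _
        congr 1
        rw [castM_mul, rowOp_mul]
      · intro a _ b _ hab
        have := congrArg (fun x => x * g⁻¹) hab
        simpa [Matrix.mul_assoc, Matrix.mul_nonsing_inv g hgu] using this
    rw [e2]
    rw [← Finset.sum_filter_add_sum_filter_not
      ((GammaR r ⌈bc r N * t⌉₊).image (fun k => k * g)) (fun h => 0 < bal t (rowOp (castM h) Z))]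
    have z : ∑ h ∈ ((GammaR r ⌈bc r N * t⌉₊).image (fun k => k * g)).filter
        (fun h => ¬ 0 < bal t (rowOp (castM h) Z)), bal t (rowOp (castM h) Z) = 0 := by
      refine Finset.sum_eq_zero ?_
      intro h hh
      exact le_antisymm (not_lt.1 (Finset.mem_filter.1 hh).2) (bal_nonneg _ _)
    rw [z, add_zero]
    refine Finset.sum_le_sum_of_subset_of_nonneg ?_ (fun _ _ _ => bal_nonneg _ _)
    intro h hh
    obtain ⟨hh1, hh2⟩ := Finset.mem_filter.1 hh
    obtain ⟨k, hk, rfl⟩ := Finset.mem_image.1 hh1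
    exact hS2 _ (isUnit_det_mul ((mem_GammaR _ _).1 hk).2 hgu) hh2
  have h3 : ∑ g ∈ S, bal t (rowOp (castM g) Z) / s ≤ ∑ g ∈ S, wt t (rowOp (castM g) Z) := by
    refine Finset.sum_le_sum ?_
    intro g hg
    rw [wt]
    apply div_le_div_of_nonneg_left (bal_nonneg _ _)
    · exact lt_of_lt_of_le one_pos (le_max_left _ _)
    · exact max_le hs1 (hle g hg)
  refine le_trans ?_ h3
  rw [← Finset.sum_div, ← hs, div_self (by linarith)]

theorem continuousOn_bal (t : ℝ) : ContinuousOn (bal t : (Fin r → Fin N → ℝ) → ℝ) {0}ᶜ := by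
  unfold bal
  refine ContinuousOn.inf continuousOn_const (ContinuousOn.sup continuousOn_const ?_)
  refine ContinuousOn.sub (ContinuousOn.div ?_ ?_ ?_) continuousOn_const
  · exact (continuous_const.mul (Real.continuous_sqrt.comp continuous_gram)).continuousOn
  · exact (continuous_norm.pow r).continuousOn
  · intro x hx
    have : x ≠ 0 := hx
    exact (pow_pos (norm_pos_iff.2 this) _).ne'

theorem rowOp_ne_zero {g : Matrix (Fin r) (Fin r) ℝ} (hg : g.det ≠ 0)
    {Z : Fin r → Fin N → ℝ} (hZ : Z ≠ 0) : rowOp g Z ≠ 0 := by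
  intro h
  apply hZ
  have hu : IsUnit g.det := isUnit_iff_ne_zero.2 hg
  have : rowOp (g⁻¹ * g) Z = 0 := by
    rw [rowOp_mul, h]
    funext i j
    simp [rowOp]
  rwa [Matrix.nonsing_inv_mul g hu, rowOp_one] at this

theorem continuous_rowOp (g : Matrix (Fin r) (Fin r) ℝ) :
    Continuous (fun Z : Fin r → Fin N → ℝ => rowOp g Z) := by
  unfold rowOp
  fun_prop

theorem continuousOn_wt (t : ℝ) : ContinuousOn (wt t : (Fin r → Fin N → ℝ) → ℝ) {0}ᶜ := by
  unfold wt
  refine ContinuousOn.div (continuousOn_bal t) ?_ ?_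
  · refine ContinuousOn.sup continuousOn_const ?_
    unfold balSum
    refine continuousOn_finsetSum _ ?_
    intro g hg
    refine (continuousOn_bal t).comp (continuous_rowOp _).continuousOn ?_
    intro Z hZ
    exact rowOp_ne_zero (castM_det_ne_zero ((mem_GammaR _ _).1 hg).2) hZ
  · intro Z _
    exact (lt_of_lt_of_le one_pos (le_max_left _ _)).ne'

theorem wt_smul (t : ℝ) {s : ℝ} (hs : 0 < s) (Z : Fin r → Fin N → ℝ) :
    wt t (s • Z) = wt t Z := by
  rw [wt, wt, bal_smul t hs]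
  congr 2
  unfold balSum
  refine Finset.sum_congr rfl ?_
  intro g _
  rw [rowOp_smul, bal_smul t hs]

/-- the weight vanishes near the nonzero arrays which are not frames -/
theorem wt_eventually_zero (t : ℝ) {Z : Fin r → Fin N → ℝ} (hZ0 : Z ≠ 0) (hF : ¬ IsFrame Z) :
    ∀ᶠ Z' in 𝓝 Z, wt t Z' = 0 := by
  have hG : gram Z = 0 := by
    refine le_antisymm ?_ (gram_nonneg Z)
    by_contra hcon
    exact hF ((gram_pos_iff Z).1 (not_le.1 hcon))
  have hcont : ContinuousAt (fun Z : Fin r → Fin N → ℝ => t * √(gram Z) / ‖Z‖ ^ r - 1) Z := by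
    refine ContinuousAt.sub (ContinuousAt.div ?_ ?_ ?_) continuousAt_const
    · exact (continuous_const.mul (Real.continuous_sqrt.comp continuous_gram)).continuousAt
    · exact (continuous_norm.pow r).continuousAt
    · exact (pow_pos (norm_pos_iff.2 hZ0) _).ne'
  have hneg : (fun Z : Fin r → Fin N → ℝ => t * √(gram Z) / ‖Z‖ ^ r - 1) Z < 0 := by
    simp only [hG, Real.sqrt_zero, mul_zero, zero_div, zero_sub]
    norm_num
  filter_upwards [hcont.eventually_lt continuousAt_const hneg] with Z' hZ'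
  have hb : bal t Z' = 0 := by
    rw [bal, max_eq_left hZ'.le, min_eq_right zero_le_one]
  rw [wt, hb, zero_div]

end Pool.Agent.Lib.MP_1acd66_nt.Gen
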