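import Pool.Agent.Lib.MP_1acd66_nt.Gen.Norm
import Pool.Agent.Lib.MP_1acd66_nt.Gen.Weight

/-!
The two hypotheses on a family of representations under which the asymptotic formula holds.
-/

namespace Pool.Agent.Lib.MP_1acd66_nt.Gen

variable {k : ℕ} {r N : Fin k → ℕ} {W : Type} [Fintype W]

/-- integral frames with real entries -/
def realF (Z : Frm ℤ r N) : Frm ℝ r N := fun i a j => (Z i a j : ℝ)

/-- integral vectors with real entries -/
def realW (A : W → ℤ) : W → ℝ := fun w => (A w : ℝ)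

/-- integral vectors with rational entries -/
def ratW (A : W → ℤ) : W → ℚ := fun w => (A w : ℚ)

/-- The vectors which do not satisfy `Good` have density zero, in the strong form: for every `ε`
they are contained in at most `ε q ^ D` residue classes modulo some `q`. -/
def DensityZero (Good : (W → ℚ) → Prop) : Prop :=
  ∀ ε : ℝ, 0 < ε → ∃ q : ℕ, 0 < q ∧ ∃ I : Finset (W → ℤ),
    (∀ x ∈ I, ∀ w, 0 ≤ x w ∧ x w < q) ∧ (I.card : ℝ) ≤ ε * (q:ℝ) ^ (Fintype.card W) ∧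
    ∀ A : W → ℤ, ¬ Good (ratW A) → (fun w => A w % (q:ℤ)) ∈ I

/-- The cusp bound, with respect to a notion `Red` of reduced integral frames: pairs `(Z, A)`, `Z`
reduced but not balanced and `A` good, are negligible. -/
def CuspBound (N : Fin k → ℕ) (ρ : FRep r W) (Red : ∀ {r N : ℕ}, (Fin r → Fin N → ℤ) → Prop)
    (Good : (W → ℚ) → Prop) : Prop :=
  ∀ M : Frm ℝ r N → (W → ℝ) → ℝ, IsLocalNorm ℝ N ρ M → ∃ C c : ℝ, 0 < C ∧ 0 < c ∧
    ∀ t : ℝ, 1 ≤ t → ∀ B : ℝ, 0 < B → ∀ F : Finset (Frm ℤ r N × (W → ℤ)),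
      (∀ x ∈ F, AllFrame x.1 ∧ (∀ i, Red (x.1 i)) ∧ x.2 ≠ 0 ∧ Good (ratW x.2) ∧
        M (realF x.1) (realW x.2) ≤ B ∧ ∃ i, bal t (realF x.1 i) < 1) →
      (F.card : ℝ) ≤ C * t ^ (-c) * B * (1 + Real.log (max 1 (C * B))) ^ k

end Pool.Agent.Lib.MP_1acd66_nt.Gen
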