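import Pool.Agent.Lib.MP_1acd66_nt.Gen.NonSat

/-! Existence of the limit for a fixed balance parameter. -/

set_option linter.unusedSectionVars false

namespace Pool.Agent.Lib.MP_1acd66_nt.Gen

open MeasureTheory Metric Set Filter Topology
open scoped Classical

variable {k : ℕ} {r N : Fin k → ℕ} {W : Type} [Fintype W] {ρ : FRep r W}
  {M : Frm ℝ r N → (W → ℝ) → ℝ} {Good : (W → ℚ) → Prop}
  {f : Frm ℤ r N → (W → ℤ) → ℝ} {f0 f1 ε : ℝ}

theorem sub_inv_mul_le {ε K : ℝ} (hε : 0 < ε) (hK : 0 ≤ K) : K - (1 + ε)⁻¹ * K ≤ ε * K := by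
  have h7 : 1 - ε ≤ (1 + ε)⁻¹ := by
    rw [← one_div, le_div_iff₀ (by linarith)]
    nlinarith
  nlinarith

theorem card_JP_le (q P : ℕ) : ((JP r N q P).card : ℝ) ≤ (q:ℝ) ^ (∑ i, r i * N i) := by
  have := Finset.card_le_card (JP_subset (r := r) (N := N) q P)
  rw [card_RSF] at this
  exact_mod_cast this

theorem card_IP_le (q P : ℕ) : ((IP W q P).card : ℝ) ≤ (q:ℝ) ^ (Fintype.card W) := by
  have := Finset.card_le_card (Finset.filter_subset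
    (fun A : W → ℤ => ∀ p : ℕ, p.Prime → p ≤ P → ¬ DivW p A) (RSW W q))
  rw [card_RSW] at this
  exact_mod_cast this

theorem exists_kappa {Red : ∀ {r N : ℕ}, (Fin r → Fin N → ℤ) → Prop}
    (hM : IsLocalNorm ℝ N ρ M) (hw : ∀ i, ρ.b i ≤ N i) (hr : ∀ i, 0 < r i)
    (hrN : ∀ i, r i < N i) (hD : 2 ≤ Fintype.card W) (hG : DensityZero Good)
    (hex : ∀ i, RedEx Red (r i) (N i)) (hsum : ∀ i, RedSum Red (r i) (N i))
    (hf : Tame f f0 f1) {t : ℝ} (ht : 0 < t) :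
    ∃ κ : ℝ, (1 / 12 : ℝ) ^ k * (1 / 3) * f1⁻¹ * kapM (dens t M) ≤ κ ∧
      κ ≤ f0⁻¹ * kapM (dens t M) ∧
      Tendsto (fun B => XH Good M f t B / (B * Real.log B ^ k)) atTop (𝓝 κ) := by
  have hW : 0 < Fintype.card W := by omega
  have hN : ∀ i, 0 < N i := fun i => (hr i).trans (hrN i)
  have hn : ∀ i, 0 < r i * N i := fun i => Nat.mul_pos (hr i) (hN i)
  have hf0 := hf.pos
  have hf1 : 0 < f1 := hf0.trans_le hf.le
  set D := Fintype.card W with hDdef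
  set n := ∑ i, r i * N i with hndef
  set κ0 : ℝ := kapM (dens t M) with hκ0
  have hκ0n : 0 ≤ κ0 := kapM_nonneg (mHom_dens hM hw hr hW t)
  obtain ⟨c1, C, hc1, hC, hb⟩ := wt_cset hM hr hw hW t
  obtain ⟨c2, _, hc2, _, hb2⟩ := cset_bound hM hW t
  obtain ⟨C3, hC3, hns⟩ := sum_nonF (Red := Red) hr hrN hex hsum
  obtain ⟨C4, hC4, hPNs⟩ := sum_PN r N
  set c := min c1 c2 with hcdef
  have hc : 0 < c := lt_min hc1 hc2
  have hempty : ∀ p : (W → ℤ) → Prop, ∀ Z ∈ Kt r N t, ∀ Y, Y < c → cset p M Z Y = ∅ :=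
    fun p Z hZ Y hY => (hb2 p Z hZ Y).1 (lt_of_lt_of_le hY (min_le_right _ _))
  have hPN0 : ∀ Z : Frm ℝ r N, 0 ≤ PN Z := fun Z => Finset.prod_nonneg fun _ _ => by positivity
  have hwc : ∀ Z : Frm ℝ r N, wtt t Z ≠ 0 → ∀ (p : (W → ℤ) → Prop) (Y : ℝ),
      Y < c * PN Z → cset p M Z Y = ∅ := by
    intro Z hZ p Y hY
    exact (hb Z hZ p Y).2.2 (lt_of_lt_of_le hY
      (mul_le_mul_of_nonneg_right (min_le_left _ _) (hPN0 Z)))
  set κB : ℝ := 2 * f0⁻¹ / c with hκB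
  have hκBp : 0 < κB := by positivity
  have hκBc : κB * c = 2 * f0⁻¹ := by rw [hκB]; field_simp
  have hf0i : 0 < f0⁻¹ := inv_pos.2 hf0
  have hSmem : ∀ l, 0 < l → l ≤ 2 * f0⁻¹ → ∀ B, ∀ Z : Frm ℤ r N, (∀ i, Z i ≠ 0) →
      c * PN (realF Z) ≤ l * B → Z ∈ SB r N κB B := by
    intro l hl hl2 B Z hZ h
    exact mem_SB hn hc hl (by rw [hκBc]; exact hl2) hZ h
  have hS0 : ∀ B, ∀ Z ∈ SB r N κB B, ∀ i, Z i ≠ 0 := fun B Z hZ i => (mem_SB_iff.1 hZ i).1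
  have hXH : ∀ B, XH Good M f t B =
      ∑ Z ∈ (SB r N κB B).filter SatF, wtt t (realF Z) * ((hset Good M f Z B).ncard : ℝ) := by
    intro B
    exact XH_eq hM hr hf hwc _ (fun Z hZ h => hSmem f0⁻¹ hf0i (by linarith) B Z hZ h)
  refine exists_lim_of_approx ?_
  intro δ hδ
  set b := f0⁻¹ * κ0 with hbdef
  have hbn : 0 ≤ b := mul_nonneg hf0i.le hκ0n
  set ε := min 1 (δ / (4 * (b + 1))) with hε
  have hεp : 0 < ε := lt_min one_pos (by positivity)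
  have hε1 : ε ≤ 1 := min_le_left _ _
  have hεb : ε * b ≤ δ / 4 := by
    calc ε * b ≤ δ / (4 * (b + 1)) * (b + 1) :=
          mul_le_mul (min_le_right _ _) (by linarith) hbn (by positivity)
      _ = δ / 4 := by field_simp
  set K2 : ℝ := C * f0⁻¹ * C4 + C * f0⁻¹ * C3 with hK2
  have hK2p : 0 < K2 := by positivity
  obtain ⟨P, hPbig⟩ := exists_nat_gt (4 * 2 ^ k * K2 / δ)
  have hP0 : (0:ℝ) < P := lt_of_le_of_lt (by positivity) hPbig
  have hP : 0 < P := by exact_mod_cast hP0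
  have hKP : 2 ^ k * K2 * (P:ℝ)⁻¹ ≤ δ / 4 := by
    rw [← div_eq_mul_inv, div_le_iff₀ hP0]
    rw [div_lt_iff₀ hδ] at hPbig
    linarith
  obtain ⟨q, hq, hPq, cc, hcc⟩ := hf.classApprox hεp hε1 P
  have hccp : ∀ Z0 A0, 0 < cc Z0 A0 := fun Z0 A0 => (inv_pos.2 hcc.pos1).trans_le (hcc.lo _ _)
  have hq' : (0:ℝ) < q := by exact_mod_cast hq
  set W' : ℝ := (((q:ℝ) ^ D)⁻¹ * κ0) / (q:ℝ) ^ n with hW'
  have hWeq : W' = κ0 * (((q:ℝ) ^ D) * (q:ℝ) ^ n)⁻¹ := by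
    rw [hW', mul_inv]
    simp only [div_eq_mul_inv]
    ring
  have hWn : 0 ≤ W' := by rw [hWeq]; positivity
  set K : ℝ := ∑ Z0 ∈ JP r N q P, ∑ A0 ∈ IP W q P, cc Z0 A0 * W' with hK
  -- bounds for `K`
  have hKle : K ≤ b := by
    have h1 : K ≤ ∑ Z0 ∈ JP r N q P, ∑ A0 ∈ IP W q P, f0⁻¹ * W' := by
      refine Finset.sum_le_sum fun Z0 _ => Finset.sum_le_sum fun A0 _ => ?_
      exact mul_le_mul_of_nonneg_right (hcc.hi _ _) hWn
    refine h1.trans ?_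
    simp only [Finset.sum_const, nsmul_eq_mul]
    have h2 : ((JP r N q P).card : ℝ) ≤ (q:ℝ) ^ n := card_JP_le q P
    have h3 : ((IP W q P).card : ℝ) ≤ (q:ℝ) ^ D := card_IP_le q P
    calc ((JP r N q P).card : ℝ) * (((IP W q P).card : ℝ) * (f0⁻¹ * W'))
        ≤ (q:ℝ) ^ n * ((q:ℝ) ^ D * (f0⁻¹ * W')) := by
          apply mul_le_mul h2 (mul_le_mul_of_nonneg_right h3 (by positivity)) (by positivity)
            (by positivity)
      _ = b := by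
          rw [hWeq, hbdef]
          field_simp
  have hKge : (1 / 12 : ℝ) ^ k * (1 / 3) * f1⁻¹ * κ0 ≤ K := by
    have h1 : ∑ Z0 ∈ JP r N q P, ∑ A0 ∈ IP W q P, f1⁻¹ * W' ≤ K := by
      refine Finset.sum_le_sum fun Z0 _ => Finset.sum_le_sum fun A0 _ => ?_
      exact mul_le_mul_of_nonneg_right (hcc.lo _ _) hWn
    refine le_trans ?_ h1
    simp only [Finset.sum_const, nsmul_eq_mul]
    have h2' : (1 / 12 : ℝ) ^ k * (q:ℝ) ^ n ≤ ((JP r N q P).card : ℝ) := dens_JP hrN hPq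
    have h3' : (1 / 3 : ℝ) * (q:ℝ) ^ D ≤ ((IP W q P).card : ℝ) := dens_prim hD hPq
    calc (1 / 12 : ℝ) ^ k * (1 / 3) * f1⁻¹ * κ0 = ((1 / 12 : ℝ) ^ k * (q:ℝ) ^ n) *
          (((1 / 3 : ℝ) * (q:ℝ) ^ D) * (f1⁻¹ * W')) := by
          rw [hWeq]
          field_simp
      _ ≤ _ := by
          apply mul_le_mul h2' (mul_le_mul_of_nonneg_right h3' (by positivity)) (by positivity)
            (by positivity)
  have hKn : 0 ≤ K := le_trans (by positivity) hKge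
  refine ⟨K, hKge, hKle, ?_⟩
  -- limits of the class sums
  have hlim : ∀ θ : ℝ, 0 < θ → θ ≤ 2 → Tendsto (fun B =>
      (∑ Z0 ∈ JP r N q P, ∑ A0 ∈ IP W q P, Gs M t q Z0 A0 (SB r N κB B) (θ * cc Z0 A0 * B)) /
        (B * Real.log B ^ k)) atTop (𝓝 (θ * K)) := by
    intro θ hθ hθ2
    have h1 : Tendsto (fun B => ∑ Z0 ∈ JP r N q P, ∑ A0 ∈ IP W q P,
        Gs M t q Z0 A0 (SB r N κB B) (θ * cc Z0 A0 * B) / (B * Real.log B ^ k)) atTop
        (𝓝 (∑ Z0 ∈ JP r N q P, ∑ A0 ∈ IP W q P, (θ * cc Z0 A0) *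
          (((q:ℝ) ^ D)⁻¹ * κ0) / (q:ℝ) ^ n)) := by
      refine tendsto_finsetSum _ fun Z0 _ => tendsto_finsetSum _ fun A0 _ => ?_
      have hl : 0 < θ * cc Z0 A0 := mul_pos hθ (hccp _ _)
      refine Gs_tendsto hM hw hr hN hW t hq Z0 A0 hc hempty hl hS0 ?_
      intro B Z hZ h
      refine hSmem _ hl ?_ B Z hZ h
      exact mul_le_mul hθ2 (hcc.hi _ _) (hccp _ _).le zero_le_two
    have e1 : θ * K = ∑ Z0 ∈ JP r N q P, ∑ A0 ∈ IP W q P, (θ * cc Z0 A0) *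
          (((q:ℝ) ^ D)⁻¹ * κ0) / (q:ℝ) ^ n := by
      rw [hK, Finset.mul_sum]
      refine Finset.sum_congr rfl fun Z0 _ => ?_
      rw [Finset.mul_sum]
      refine Finset.sum_congr rfl fun A0 _ => ?_
      rw [hW']
      ring
    rw [e1]
    refine h1.congr fun B => ?_
    rw [Finset.sum_div]
    refine Finset.sum_congr rfl fun Z0 _ => ?_
    rw [Finset.sum_div]
  have hU := hlim (1 + ε) (by linarith) (by linarith)
  have hL := hlim ((1 + ε)⁻¹) (by positivity)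
    ((inv_le_one_of_one_le₀ (by linarith)).trans one_le_two)
  -- the error term for the vectors which are not good
  have hE1 : Tendsto (fun B => (∑ Z ∈ SB r N κB B, wtt t (realF Z) *
      cnt (fun A => ¬ Good (ratW A)) M (realF Z) (f0⁻¹ * B)) / (B * Real.log B ^ k))
      atTop (𝓝 0) := by
    have h1 := tendsto_of_boundsk (F := fun B => ∑ Z ∈ SB r N κB B, wtt t (realF Z) *
      cnt (fun A => ¬ Good (ratW A)) M (realF Z) (f0⁻¹ * B)) (a := ((1:ℕ):ℝ) ^ n)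
      (L := 0 * κ0) (l := f0⁻¹) k (by positivity) hf0i ?_
    · simpa using h1
    · intro ε' hε'
      obtain ⟨Y1, hY1⟩ := frame_sum hM hw hr hN hW one_pos (0 : Frm ℤ r N)
        (fun A => ¬ Good (ratW A)) (le_refl (0:ℝ)) (bad_asymp hM hW hG t) hc (hempty _) hε'
      filter_upwards [eventually_ge_atTop (Y1 / f0⁻¹)] with B hB
      rw [div_le_iff₀ hf0i] at hB
      refine hY1 (f0⁻¹ * B) (by linarith) (SB r N κB B) ?_ ?_
      · intro Z hZ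
        refine ⟨?_, hS0 B Z hZ⟩
        intro i a j
        simp
      · intro Z _ h2 h3
        exact hSmem f0⁻¹ hf0i (by linarith) B Z h2 h3
  -- final estimates
  have e1 := (Metric.tendsto_nhds.1 hU) (δ / 4) (by positivity)
  have e2 := (Metric.tendsto_nhds.1 hL) (δ / 8) (by positivity)
  have e3 := (Metric.tendsto_nhds.1 hE1) (δ / 8) (by positivity)
  filter_upwards [e1, e2, e3, log_max_le hκBp, eventually_gt_atTop 1] with B h1 h2 h3 h4 hB1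
  have hB : 0 < B := by linarith
  have hlog : 0 < Real.log B := Real.log_pos hB1
  have hBl : 0 < B * Real.log B ^ k := mul_pos hB (pow_pos hlog k)
  have hup := XH_upper hM hr hw hW hq hPq hcc hB _ (hXH B)
  have hlo := XH_lower hM hr hD hP hPq hcc hB _ (hXH B) hC
    (fun Z hZ p Y => ⟨(hb Z hZ p Y).1, (hb Z hZ p Y).2.1⟩)
  set R := max 1 (κB * B) with hR
  have hR1 : 1 ≤ R := le_max_left _ _
  have hSR : ∀ Z ∈ SB r N κB B, ∀ i, Z i ≠ 0 ∧ ‖realF Z i‖ ≤ R := fun Z hZ => mem_SB_iff.1 hZ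
  have hs1 := hPNs R hR1 (SB r N κB B) hSR
  have hs2 := hns t ht P hP R hR1 (SB r N κB B) hSR
  rw [Real.dist_eq] at h1 h2 h3
  set U := ∑ Z0 ∈ JP r N q P, ∑ A0 ∈ IP W q P,
    Gs M t q Z0 A0 (SB r N κB B) ((1 + ε) * cc Z0 A0 * B) with hUdef
  set L := ∑ Z0 ∈ JP r N q P, ∑ A0 ∈ IP W q P,
    Gs M t q Z0 A0 (SB r N κB B) ((1 + ε)⁻¹ * cc Z0 A0 * B) with hLdef
  set E1 := ∑ Z ∈ SB r N κB B, wtt t (realF Z) *
      cnt (fun A => ¬ Good (ratW A)) M (realF Z) (f0⁻¹ * B) with hE1def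
  have hlogR0 : 0 ≤ 1 + Real.log R := by
    have := Real.log_nonneg hR1
    linarith
  have hlogRk : (1 + Real.log R) ^ k ≤ 2 ^ k * Real.log B ^ k := by
    rw [← mul_pow]
    exact pow_le_pow_left₀ hlogR0 h4 k
  have hE23 : C * (f0⁻¹ * B) * (P:ℝ)⁻¹ * ∑ Z ∈ SB r N κB B, (PN (realF Z))⁻¹ +
      C * (f0⁻¹ * B) * ∑ Z ∈ (SB r N κB B).filter (NonF P),
        wtt t (realF Z) * (PN (realF Z))⁻¹ ≤ δ / 4 * (B * Real.log B ^ k) := by
    have a1 : C * (f0⁻¹ * B) * (P:ℝ)⁻¹ * ∑ Z ∈ SB r N κB B, (PN (realF Z))⁻¹ ≤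
        C * (f0⁻¹ * B) * (P:ℝ)⁻¹ * (C4 * (1 + Real.log R) ^ k) :=
      mul_le_mul_of_nonneg_left hs1 (by positivity)
    have a2 : C * (f0⁻¹ * B) * ∑ Z ∈ (SB r N κB B).filter (NonF P),
        wtt t (realF Z) * (PN (realF Z))⁻¹ ≤
        C * (f0⁻¹ * B) * (C3 * (P:ℝ)⁻¹ * (1 + Real.log R) ^ k) :=
      mul_le_mul_of_nonneg_left hs2 (by positivity)
    calc _ ≤ C * (f0⁻¹ * B) * (P:ℝ)⁻¹ * (C4 * (1 + Real.log R) ^ k) +
          C * (f0⁻¹ * B) * (C3 * (P:ℝ)⁻¹ * (1 + Real.log R) ^ k) := add_le_add a1 a2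
      _ = K2 * (P:ℝ)⁻¹ * (B * (1 + Real.log R) ^ k) := by rw [hK2]; ring
      _ ≤ K2 * (P:ℝ)⁻¹ * (B * (2 ^ k * Real.log B ^ k)) := by
          apply mul_le_mul_of_nonneg_left _ (by positivity)
          exact mul_le_mul_of_nonneg_left hlogRk hB.le
      _ = 2 ^ k * K2 * (P:ℝ)⁻¹ * (B * Real.log B ^ k) := by ring
      _ ≤ _ := mul_le_mul_of_nonneg_right hKP hBl.le
  have f1' : XH Good M f t B / (B * Real.log B ^ k) ≤ U / (B * Real.log B ^ k) :=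
    div_le_div_of_nonneg_right hup hBl.le
  have f2' : L / (B * Real.log B ^ k) ≤ XH Good M f t B / (B * Real.log B ^ k) +
      E1 / (B * Real.log B ^ k) + δ / 4 := by
    rw [← add_div, div_le_iff₀ hBl, add_mul, div_mul_cancel₀ _ hBl.ne']
    linarith
  have g1 := (abs_lt.1 h1).2
  have g2 := (abs_lt.1 h2).1
  have g3 := (abs_lt.1 h3).2
  have hεK : ε * K ≤ δ / 4 := (mul_le_mul_of_nonneg_left hKle hεp.le).trans hεb
  have hinv : K - (1 + ε)⁻¹ * K ≤ ε * K := sub_inv_mul_le hεp hKn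
  rw [abs_le]
  constructor
  · linarith
  · linarith

end Pool.Agent.Lib.MP_1acd66_nt.Gen
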