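import Pool.Agent.Lib.MP_1acd66_nt.Gen.Defs

/-!
The three classical types of square matrices, with the action of general linear groups.
-/

namespace Pool.Agent.Lib.MP_1acd66_nt.Gen

/-- the matrix of a family of coordinates -/
def matG {n : ℕ} {K : Type} (A : Fin n × Fin n → K) : Matrix (Fin n) (Fin n) K :=
  Matrix.of fun a b => A (a, b)

/-- positions on or above the diagonal -/
abbrev PosS (n : ℕ) : Type := {p : Fin n × Fin n // p.1 ≤ p.2}

/-- the symmetric matrix with given coordinates -/
def matS {n : ℕ} {K : Type} (A : PosS n → K) : Matrix (Fin n) (Fin n) K :=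
  Matrix.of fun a b => A ⟨(min a b, max a b), min_le_max⟩

/-- positions above the diagonal -/
abbrev PosA (n : ℕ) : Type := {p : Fin n × Fin n // p.1 < p.2}

/-- the alternating matrix with given coordinates -/
def matA {n : ℕ} {K : Type} [CommRing K] (A : PosA n → K) : Matrix (Fin n) (Fin n) K :=
  Matrix.of fun a b => if h : a < b then A ⟨(a, b), h⟩ else
    if h : b < a then -A ⟨(b, a), h⟩ else 0

/-- The classical types of square matrices. -/
inductive MatType where
  /-- all matrices -/
  | general : MatType
  /-- symmetric matrices -/
  | symmetric : MatType
  /-- alternating matrices -/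
  | alternating : MatType

/-- The number of general linear groups acting. -/
def MatType.k : MatType → ℕ
  | general => 2
  | symmetric => 1
  | alternating => 1

/-- The positions of the independent entries of an `n × n` matrix of the given type. -/
def MatType.Pos : MatType → ℕ → Type
  | general, n => Fin n × Fin n
  | symmetric, n => PosS n
  | alternating, n => PosA n

instance instFintypePos : ∀ (t : MatType) (n : ℕ), Fintype (t.Pos n)
  | .general, n => inferInstanceAs (Fintype (Fin n × Fin n))
  | .symmetric, n => inferInstanceAs (Fintype (PosS n))
  | .alternating, n => inferInstanceAs (Fintype (PosA n))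

/-- The matrix with given independent entries. -/
def MatType.mat {K : Type} [CommRing K] :
    ∀ (t : MatType) {n : ℕ}, (t.Pos n → K) → Matrix (Fin n) (Fin n) K
  | general, _, A => matG A
  | symmetric, _, A => matS A
  | alternating, _, A => matA A

/-- The action of `GL_n × GL_n` on all matrices. -/
def genData (n : ℕ) : RepData (fun _ : Fin 2 => n) (Fin n × Fin n) where
  pull K _ g A := fun w => ((g 0).transpose * matG A * g 1) w.1 w.2
  b _ := n

/-- The action of `GL_n` on symmetric matrices. -/
def symData (n : ℕ) : RepData (fun _ : Fin 1 => n) (PosS n) where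
  pull K _ g A := fun w => ((g 0).transpose * matS A * g 0) w.1.1 w.1.2
  b _ := n + 1

/-- The action of `GL_n` on alternating matrices. -/
def altData (n : ℕ) : RepData (fun _ : Fin 1 => n) (PosA n) where
  pull K _ g A := fun w => ((g 0).transpose * matA A * g 0) w.1.1 w.1.2
  b _ := n - 1

/-- The representation of the general linear groups on the matrices of the given type. -/
def MatType.rep : ∀ (t : MatType) (n : ℕ), RepData (fun _ : Fin t.k => n) (t.Pos n)
  | general, n => genData n
  | symmetric, n => symData n
  | alternating, n => altData n

/-- Nonsingular matrices. -/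
def MatType.Good (t : MatType) {n : ℕ} (A : t.Pos n → ℚ) : Prop := (t.mat A).det ≠ 0

/-- The sizes which are allowed: `n ≥ 2` for all matrices, `n ≥ 3` for symmetric matrices, and
even `n ≥ 4` for alternating matrices. -/
def MatType.Size : MatType → ℕ → Prop
  | general, n => 2 ≤ n
  | symmetric, n => 3 ≤ n
  | alternating, n => 4 ≤ n ∧ Even n

end Pool.Agent.Lib.MP_1acd66_nt.Gen
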