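import Pool.Agent.Lib.MP_1acd66_nt.Gen.MatFam
import Pool.Agent.Lib.MP_1acd66_nt.Gen.FamGen
import Pool.Agent.Lib.MP_1acd66_nt.Gen.FamSym
import Pool.Agent.Lib.MP_1acd66_nt.Gen.FamAlt
import Pool.Agent.Lib.MP_1acd66_nt.Gen.Engine

/-! The asymptotic formula for nonsingular matrices of the classical types. -/

namespace Pool.Agent.Lib.MP_1acd66_nt.Gen

open Filter Topology

theorem matG_pull (n : ℕ) (g : Grp ℚ (fun _ : Fin 2 => n)) (A : Fin n × Fin n → ℚ) :
    matG ((repGen n).pull ℚ g A) = (g 0).transpose * matG A * g 1 := rfl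

theorem goodInv_gen (n : ℕ) : GoodInv (repGen n) (goodGen n) where
  smul s A hs := by
    have h1 : matG (s • A) = s • matG A := rfl
    rw [goodGen, goodGen, h1, Matrix.det_smul]
    exact mul_ne_zero_iff.trans (and_iff_right (pow_ne_zero _ hs))
  pull g A hg := by
    rw [goodGen, goodGen, matG_pull, Matrix.det_mul, Matrix.det_mul, Matrix.det_transpose]
    simp only [ne_eq, mul_eq_zero, not_or]
    exact ⟨fun h => h.1.2, fun h => ⟨⟨hg 0, h⟩, hg 1⟩⟩

theorem matS_pull (n : ℕ) (g : Grp ℚ (fun _ : Fin 1 => n)) (A : PosS n → ℚ) :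
    matS ((repSym n).pull ℚ g A) = (g 0).transpose * matS A * g 0 :=
  matS_restrict _ (symm_conj (g 0) (matS A) (matS_symm A))

theorem goodInv_sym (n : ℕ) : GoodInv (repSym n) (goodSym n) where
  smul s A hs := by
    have h1 : matS (s • A) = s • matS A := rfl
    rw [goodSym, goodSym, h1, Matrix.det_smul]
    exact mul_ne_zero_iff.trans (and_iff_right (pow_ne_zero _ hs))
  pull g A hg := by
    rw [goodSym, goodSym, matS_pull, Matrix.det_mul, Matrix.det_mul, Matrix.det_transpose]
    simp only [ne_eq, mul_eq_zero, not_or]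
    exact ⟨fun h => h.1.2, fun h => ⟨⟨hg 0, h⟩, hg 0⟩⟩

theorem matA_pull (n : ℕ) (g : Grp ℚ (fun _ : Fin 1 => n)) (A : PosA n → ℚ) :
    matA ((repAlt n).pull ℚ g A) = (g 0).transpose * matA A * g 0 :=
  matA_restrict _ (alt_conj (g 0) (matA_alt A))

theorem goodInv_alt (n : ℕ) : GoodInv (repAlt n) (goodAlt n) where
  smul s A hs := by
    rw [goodAlt, goodAlt, matA_smul, Matrix.det_smul]
    exact mul_ne_zero_iff.trans (and_iff_right (pow_ne_zero _ hs))
  pull g A hg := by
    rw [goodAlt, goodAlt, matA_pull, Matrix.det_mul, Matrix.det_mul, Matrix.det_transpose]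
    simp only [ne_eq, mul_eq_zero, not_or]
    exact ⟨fun h => h.1.2, fun h => ⟨⟨hg 0, h⟩, hg 0⟩⟩

theorem card_posS {n : ℕ} (hn : 2 ≤ n) : 2 ≤ Fintype.card (PosS n) := by
  have h : Function.Injective (fun i : Fin n => (⟨(i, i), le_rfl⟩ : PosS n)) := by
    intro i j hij
    exact congrArg (fun w : PosS n => w.1.1) hij
  have := Fintype.card_le_of_injective _ h
  rw [Fintype.card_fin] at this
  exact hn.trans this

theorem card_posA {n : ℕ} (hn : 3 ≤ n) : 2 ≤ Fintype.card (PosA n) := by
  set a : Fin n := ⟨0, by omega⟩ with ha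
  have h : Function.Injective (fun i : Fin 2 =>
      (⟨(a, ⟨i.1 + 1, by have := i.2; omega⟩), by
        rw [Fin.lt_def]; exact Nat.succ_pos _⟩ : PosA n)) := by
    intro i j hij
    have := congrArg (fun w : PosA n => (w.1.2 : ℕ)) hij
    simp only at this
    exact Fin.ext (by omega)
  have := Fintype.card_le_of_injective _ h
  rwa [Fintype.card_fin] at this

theorem matMain (t : MatType) (n : ℕ) (hn : t.Size n) (N : Fin t.k → ℕ) (hN : ∀ i, n < N i)
    (h : AdelicNorm N (t.rep n)) :
    (∀ B, (countSet t.Good h B).Finite) ∧ ∃ c : ℝ, 0 < c ∧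
      Tendsto (fun B : ℝ => ((countSet t.Good h B).ncard : ℝ) / (B * Real.log B ^ t.k))
        atTop (𝓝 c) := by
  cases t with
  | general =>
    have hn' : 2 ≤ n := hn
    exact engine (ρ := repGen n) (Good := goodGen n) (goodInv_gen n) (cuspData_gen n)
      (densityZero_gen n) (fun _ => by omega) hN (fun i => (hN i).le)
      (by
        rw [Fintype.card_prod, Fintype.card_fin]
        nlinarith) h
  | symmetric =>
    have hn' : 3 ≤ n := hn
    exact engine (ρ := repSym n) (Good := goodSym n) (goodInv_sym n) (cuspData_sym n hn')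
      (densityZero_sym n) (fun _ => by omega) hN (fun i => hN i)
      (card_posS (by omega)) h
  | alternating =>
    obtain ⟨hn', he⟩ := hn
    exact engine (ρ := repAlt n) (Good := goodAlt n) (goodInv_alt n) (cuspData_alt n)
      (densityZero_alt he) (fun _ => by omega) hN
      (fun i => (Nat.sub_le n 1).trans (hN i).le) (card_posA (by omega)) h

end Pool.Agent.Lib.MP_1acd66_nt.Gen
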