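import Pool.Agent.Lib.MP_1acd66_nt.Gen.Latt

/-! Riemann sums of multihomogeneous functions over boxes of levels. -/

set_option linter.unusedSectionVars false

namespace Pool.Agent.Lib.MP_1acd66_nt.Gen

open MeasureTheory Metric Set Filter Topology

variable {k : ℕ} {r N : Fin k → ℕ}

/-- Nonnegative functions, continuous where all members are nonzero, homogeneous of degree
`-(r i * N i)` in the member `i`. -/
structure MHom (Φ : Frm ℝ r N → ℝ) : Prop where
  nonneg : ∀ x, 0 ≤ Φ x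
  cont : ContinuousOn Φ {x | ∀ i, x i ≠ 0}
  hom : ∀ x : Frm ℝ r N, (∀ i, x i ≠ 0) → ∀ s : Fin k → ℝ, (∀ i, 0 < s i) →
    Φ (scal s x) = (∏ i, s i ^ (r i * N i))⁻¹ * Φ x

/-- the unit box of levels -/
def shell (r N : Fin k → ℕ) : Set (Frm ℝ r N) :=
  {x | ∀ i, 1 ≤ ‖x i‖ ^ (r i * N i) ∧ ‖x i‖ ^ (r i * N i) < Real.exp 1}

/-- the compact box containing the unit box of levels -/
def cshell (r N : Fin k → ℕ) : Set (Frm ℝ r N) :=
  {x | ∀ i, 1 ≤ ‖x i‖ ∧ ‖x i‖ ≤ Real.exp 1}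

theorem shell_subset_cshell (hn : ∀ i, 0 < r i * N i) : shell r N ⊆ cshell r N := by
  intro x hx i
  obtain ⟨h1, h2⟩ := hx i
  have h3 : 1 ≤ ‖x i‖ := by
    by_contra hcon
    push Not at hcon
    have := pow_lt_one₀ (norm_nonneg (x i)) hcon (hn i).ne'
    linarith
  exact ⟨h3, (le_self_pow₀ h3 (hn i).ne').trans h2.le⟩

theorem cshell_ne_zero {x : Frm ℝ r N} (hx : x ∈ cshell r N) (i : Fin k) : x i ≠ 0 := by
  intro h
  have := (hx i).1
  rw [h, norm_zero] at this
  linarith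

theorem isCompact_cshell (r N : Fin k → ℕ) : IsCompact (cshell r N) := by
  have : cshell r N = Set.pi Set.univ
      (fun i => {x : Fin (r i) → Fin (N i) → ℝ | 1 ≤ ‖x‖} ∩ closedBall 0 (Real.exp 1)) := by
    ext x
    simp [cshell, Set.mem_pi]
  rw [this]
  refine isCompact_univ_pi fun i => ?_
  refine IsCompact.inter_left (isCompact_closedBall 0 _) ?_
  exact isClosed_le continuous_const continuous_norm

theorem measurableSet_shell (r N : Fin k → ℕ) : MeasurableSet (shell r N) := by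
  have : shell r N = ⋂ i, ({x : Frm ℝ r N | 1 ≤ ‖x i‖ ^ (r i * N i)} ∩
      {x : Frm ℝ r N | ‖x i‖ ^ (r i * N i) < Real.exp 1}) := by
    ext x
    simp [shell]
  rw [this]
  refine MeasurableSet.iInter fun i => ?_
  have hm : Continuous (fun x : Frm ℝ r N => ‖x i‖ ^ (r i * N i)) :=
    (continuous_norm.comp (continuous_apply i)).pow _
  exact (measurableSet_le measurable_const hm.measurable).inter
    (measurableSet_lt hm.measurable measurable_const)

theorem MHom.bound {Φ : Frm ℝ r N → ℝ} (h : MHom Φ) :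
    ∃ M : ℝ, 0 ≤ M ∧ ∀ x ∈ cshell r N, Φ x ≤ M := by
  obtain ⟨M, hM⟩ := (isCompact_cshell r N).exists_bound_of_continuousOn
    (h.cont.mono fun x hx => cshell_ne_zero hx)
  refine ⟨max M 0, le_max_right _ _, fun x hx => ?_⟩
  exact ((le_abs_self _).trans (hM x hx)).trans (le_max_left _ _)

theorem MHom.integrableOn {Φ : Frm ℝ r N → ℝ} (hn : ∀ i, 0 < r i * N i) (h : MHom Φ) :
    IntegrableOn Φ (shell r N) volume := by
  have h1 : IntegrableOn Φ (cshell r N) volume :=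
    (h.cont.mono fun x hx => cshell_ne_zero hx).integrableOn_compact (isCompact_cshell r N)
  exact h1.mono_set (shell_subset_cshell hn)

/-- the scaling factors of a level vector -/
noncomputable def lev (r N : Fin k → ℕ) (j : Fin k → ℕ) (i : Fin k) : ℝ :=
  Real.exp ((j i : ℝ) / (r i * N i : ℕ))

theorem lev_pos (j : Fin k → ℕ) (i : Fin k) : 0 < lev r N j i := Real.exp_pos _

theorem one_le_lev (j : Fin k → ℕ) (i : Fin k) : 1 ≤ lev r N j i := by
  rw [lev, Real.one_le_exp_iff]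
  positivity

theorem lev_pow (hn : ∀ i, 0 < r i * N i) (j : Fin k → ℕ) (i : Fin k) :
    lev r N j i ^ (r i * N i) = Real.exp (j i) := by
  rw [lev, ← Real.exp_nat_mul]
  congr 1
  have : ((r i * N i : ℕ) : ℝ) ≠ 0 := by exact_mod_cast (hn i).ne'
  field_simp

/-- the lattice points of a box of levels -/
def lbox (q : ℕ) (Z0 : Frm ℤ r N) (j : Fin k → ℕ) : Set (Frm ℤ r N) :=
  {Z | CongF q Z Z0 ∧ ∀ i, Real.exp (j i) ≤ ‖realF Z i‖ ^ (r i * N i) ∧
    ‖realF Z i‖ ^ (r i * N i) < Real.exp (j i + 1)}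

theorem finite_norm_le (B : ℝ) : {Z : Frm ℤ r N | ∀ i, ‖realF Z i‖ ≤ B}.Finite := by
  refine (Set.finite_Icc (fun _ _ _ => -⌊B⌋ : Frm ℤ r N) (fun _ _ _ => ⌊B⌋)).subset ?_
  intro Z hZ
  have key : ∀ i a j, |((Z i a j : ℤ) : ℝ)| ≤ B := by
    intro i a j
    exact ((norm_le_pi_norm (realF Z i a) j).trans (norm_le_pi_norm (realF Z i) a)).trans (hZ i)
  constructor
  · intro i a j
    have := (abs_le.1 (key i a j)).1
    have h2 : -(Z i a j) ≤ ⌊B⌋ := Int.le_floor.2 (by push_cast; linarith)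
    linarith
  · intro i a j
    exact Int.le_floor.2 (abs_le.1 (key i a j)).2

theorem lbox_finite (hn : ∀ i, 0 < r i * N i) (q : ℕ) (Z0 : Frm ℤ r N) (j : Fin k → ℕ) :
    (lbox q Z0 j).Finite := by
  refine (finite_norm_le (r := r) (N := N) (∑ i, Real.exp (j i + 1))).subset ?_
  rintro Z ⟨_, hZ⟩ i
  have h1 := (hZ i).2
  have h2 : 1 ≤ ‖realF Z i‖ ^ (r i * N i) := (Real.one_le_exp (Nat.cast_nonneg _)).trans (hZ i).1
  have h3 : 1 ≤ ‖realF Z i‖ := by
    by_contra hcon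
    push Not at hcon
    have := pow_lt_one₀ (norm_nonneg (realF Z i)) hcon (hn i).ne'
    linarith
  have h4 : Real.exp (j i + 1) ≤ ∑ i, Real.exp (j i + 1) :=
    Finset.single_le_sum (f := fun i => Real.exp ((j i : ℝ) + 1))
      (fun _ _ => (Real.exp_pos _).le) (Finset.mem_univ i)
  exact ((le_self_pow₀ h3 (hn i).ne').trans h1.le).trans h4

/-- the sum over a box of levels -/
noncomputable def lsum (Φ : Frm ℝ r N → ℝ) (q : ℕ) (Z0 : Frm ℤ r N) (j : Fin k → ℕ) : ℝ :=
  (q:ℝ) ^ (∑ i, r i * N i) * ∑ᶠ Z ∈ lbox q Z0 j, Φ (realF Z)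

/-- the lattice point of the cell of the rescaled point -/
noncomputable def zt (q : ℕ) (Z0 : Frm ℤ r N) (t : Fin k → ℝ) (y : Frm ℝ r N) : Frm ℤ r N :=
  fun i a j => Z0 i a j + q * ⌊(t i * y i a j - Z0 i a j) / q⌋

theorem congF_zt (q : ℕ) (Z0 : Frm ℤ r N) (t : Fin k → ℝ) (y : Frm ℝ r N) :
    CongF q (zt q Z0 t y) Z0 := by
  intro i a j
  exact ⟨⌊(t i * y i a j - Z0 i a j) / q⌋, by simp [zt]⟩

/-- the cell of a lattice point -/
def mcell (q : ℕ) (t : Fin k → ℝ) (Z : Frm ℤ r N) : Set (Frm ℝ r N) :=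
  {y | ∀ i a j, (Z i a j : ℝ) / t i ≤ y i a j ∧ y i a j < ((Z i a j : ℝ) + q) / t i}

theorem mcell_eq_pi (q : ℕ) (t : Fin k → ℝ) (Z : Frm ℤ r N) :
    mcell q t Z = Set.pi Set.univ fun i => Set.pi Set.univ fun a => Set.pi Set.univ fun j =>
      Set.Ico ((Z i a j : ℝ) / t i) (((Z i a j : ℝ) + q) / t i) := by
  ext y
  simp [mcell, Set.mem_pi]

theorem measurableSet_mcell (q : ℕ) (t : Fin k → ℝ) (Z : Frm ℤ r N) :
    MeasurableSet (mcell q t Z) := by
  rw [mcell_eq_pi]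
  exact MeasurableSet.univ_pi fun i => MeasurableSet.univ_pi fun a => MeasurableSet.univ_pi
    fun j => measurableSet_Ico

theorem volume_mcell (q : ℕ) {t : Fin k → ℝ} (ht : ∀ i, 0 < t i) (Z : Frm ℤ r N) :
    (volume : Measure (Frm ℝ r N)) (mcell q t Z) =
      ENNReal.ofReal ((q:ℝ) ^ (∑ i, r i * N i) * (∏ i, t i ^ (r i * N i))⁻¹) := by
  rw [mcell_eq_pi, volume_pi_pi]
  have h1 : ∀ i, (volume : Measure (Fin (r i) → Fin (N i) → ℝ)) (Set.pi Set.univ fun a =>
      Set.pi Set.univ fun j => Set.Ico ((Z i a j : ℝ) / t i) (((Z i a j : ℝ) + q) / t i)) =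
      ENNReal.ofReal ((q / t i) ^ (r i * N i)) := by
    intro i
    rw [volume_pi_pi]
    have h2 : ∀ a, (volume : Measure (Fin (N i) → ℝ)) (Set.pi Set.univ fun j =>
        Set.Ico ((Z i a j : ℝ) / t i) (((Z i a j : ℝ) + q) / t i)) =
        ENNReal.ofReal (q / t i) ^ (N i) := by
      intro a
      rw [volume_pi_pi]
      have h3 : ∀ j, (volume : Measure ℝ)
          (Set.Ico ((Z i a j : ℝ) / t i) (((Z i a j : ℝ) + q) / t i)) =
          ENNReal.ofReal (q / t i) := by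
        intro j
        rw [Real.volume_Ico]
        congr 1
        ring
      rw [Finset.prod_congr rfl fun j _ => h3 j, Finset.prod_const, Finset.card_univ,
        Fintype.card_fin]
    rw [Finset.prod_congr rfl fun a _ => h2 a, Finset.prod_const, Finset.card_univ,
      Fintype.card_fin, ← pow_mul, mul_comm (N i), ENNReal.ofReal_pow]
    have := ht i
    positivity
  rw [Finset.prod_congr rfl fun i _ => h1 i, ← ENNReal.ofReal_prod_of_nonneg]
  · congr 1
    rw [← Finset.prod_inv_distrib, ← Finset.prod_pow_eq_pow_sum, ← Finset.prod_mul_distrib]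
    refine Finset.prod_congr rfl fun i _ => ?_
    rw [div_pow, div_eq_mul_inv]
  · intro i _
    have := ht i
    positivity

theorem mem_mcell_iff {q : ℕ} (hq : 0 < q) {t : Fin k → ℝ} (ht : ∀ i, 0 < t i)
    {Z Z0 : Frm ℤ r N} (hZ : CongF q Z Z0) {y : Frm ℝ r N} :
    y ∈ mcell q t Z ↔ zt q Z0 t y = Z := by
  have hq' : (0:ℝ) < q := by exact_mod_cast hq
  constructor
  · intro h
    funext i a j
    obtain ⟨z, hz⟩ := hZ i a j
    obtain ⟨h1, h2⟩ := h i a j
    rw [div_le_iff₀ (ht i)] at h1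
    rw [lt_div_iff₀ (ht i)] at h2
    have hz' : (Z i a j : ℝ) = Z0 i a j + q * z := by
      have : Z i a j = Z0 i a j + q * z := by linarith
      rw [this]; push_cast; rfl
    have hfl : ⌊(t i * y i a j - Z0 i a j) / q⌋ = z := by
      rw [Int.floor_eq_iff]
      rw [le_div_iff₀ hq', div_lt_iff₀ hq']
      constructor
      · rw [hz'] at h1; linarith
      · rw [hz'] at h2; linarith
    simp only [zt, hfl]
    linarith
  · intro h i a j
    have h1 := congrFun (congrFun (congrFun h i) a) j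
    simp only [zt] at h1
    have f1 := Int.floor_le ((t i * y i a j - Z0 i a j) / q)
    have f2 := Int.lt_floor_add_one ((t i * y i a j - Z0 i a j) / q)
    rw [le_div_iff₀ hq'] at f1
    rw [div_lt_iff₀ hq'] at f2
    rw [div_le_iff₀ (ht i), lt_div_iff₀ (ht i), ← h1]
    push_cast
    constructor
    · linarith
    · linarith

/-- the function in the integral representation -/
noncomputable def stp (Φ : Frm ℝ r N → ℝ) (q : ℕ) (Z0 : Frm ℤ r N) (t : Fin k → ℝ)
    (y : Frm ℝ r N) : ℝ :=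
  (shell r N).indicator Φ (scal (fun i => (t i)⁻¹) (realF (zt q Z0 t y)))

theorem norm_scal_apply {t : Fin k → ℝ} (ht : ∀ i, 0 < t i) (x : Frm ℝ r N) (i : Fin k) :
    ‖scal t x i‖ = t i * ‖x i‖ := by
  simp only [scal]
  rw [norm_smul, Real.norm_eq_abs, abs_of_pos (ht i)]

theorem mem_lbox_iff (hn : ∀ i, 0 < r i * N i) {q : ℕ} {Z Z0 : Frm ℤ r N} (hZ : CongF q Z Z0)
    (j : Fin k → ℕ) :
    Z ∈ lbox q Z0 j ↔ scal (fun i => (lev r N j i)⁻¹) (realF Z) ∈ shell r N := by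
  have key : ∀ i, ‖scal (fun i => (lev r N j i)⁻¹) (realF Z) i‖ ^ (r i * N i) =
      (Real.exp (j i))⁻¹ * ‖realF Z i‖ ^ (r i * N i) := by
    intro i
    rw [norm_scal_apply (fun i => inv_pos.2 (lev_pos j i)), mul_pow, inv_pow, lev_pow hn]
  constructor
  · rintro ⟨_, h⟩ i
    obtain ⟨h1, h2⟩ := h i
    rw [key i]
    constructor
    · rw [le_inv_mul_iff₀ (Real.exp_pos _), mul_one]; exact h1
    · rw [inv_mul_lt_iff₀ (Real.exp_pos _), ← Real.exp_add]; exact h2
  · intro h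
    refine ⟨hZ, fun i => ?_⟩
    obtain ⟨h1, h2⟩ := h i
    rw [key i] at h1 h2
    rw [le_inv_mul_iff₀ (Real.exp_pos _), mul_one] at h1
    rw [inv_mul_lt_iff₀ (Real.exp_pos _), ← Real.exp_add] at h2
    exact ⟨h1, h2⟩

theorem stp_eq_sum (hn : ∀ i, 0 < r i * N i) (Φ : Frm ℝ r N → ℝ) {q : ℕ} (hq : 0 < q)
    (Z0 : Frm ℤ r N) (j : Fin k → ℕ) (y : Frm ℝ r N) :
    stp Φ q Z0 (lev r N j) y = ∑ Z ∈ (lbox_finite hn q Z0 j).toFinset,
      (mcell q (lev r N j) Z).indicator
        (fun _ => Φ (scal (fun i => (lev r N j i)⁻¹) (realF Z))) y := by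
  classical
  have ht := lev_pos (r := r) (N := N) j
  set Z := zt q Z0 (lev r N j) y with hZdef
  have hZ : CongF q Z Z0 := congF_zt _ _ _ _
  have hmem : y ∈ mcell q (lev r N j) Z := (mem_mcell_iff hq ht hZ).2 rfl
  have hne : ∀ Z' ∈ (lbox_finite hn q Z0 j).toFinset, Z' ≠ Z →
      (mcell q (lev r N j) Z').indicator
        (fun _ => Φ (scal (fun i => (lev r N j i)⁻¹) (realF Z'))) y = 0 := by
    intro Z' hZ' hne
    rw [Set.indicator_of_notMem]
    intro hy
    rw [Set.Finite.mem_toFinset] at hZ'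
    exact hne ((mem_mcell_iff hq ht hZ'.1).1 hy).symm
  by_cases hb : Z ∈ lbox q Z0 j
  · rw [Finset.sum_eq_single_of_mem Z ((lbox_finite hn q Z0 j).mem_toFinset.2 hb) hne,
      Set.indicator_of_mem hmem, stp, ← hZdef,
      Set.indicator_of_mem ((mem_lbox_iff hn hZ j).1 hb)]
  · rw [Finset.sum_eq_zero, stp, ← hZdef, Set.indicator_of_notMem]
    · intro h
      exact hb ((mem_lbox_iff hn hZ j).2 h)
    · intro Z' hZ'
      refine hne Z' hZ' ?_
      rintro rfl
      exact hb ((lbox_finite hn q Z0 j).mem_toFinset.1 hZ')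

theorem lsum_eq_integral (hn : ∀ i, 0 < r i * N i) {Φ : Frm ℝ r N → ℝ} (hΦ : MHom Φ) {q : ℕ}
    (hq : 0 < q) (Z0 : Frm ℤ r N) (j : Fin k → ℕ) :
    lsum Φ q Z0 j = ∫ y, stp Φ q Z0 (lev r N j) y := by
  classical
  have ht := lev_pos (r := r) (N := N) j
  have hvol : ∀ Z : Frm ℤ r N, (volume : Measure (Frm ℝ r N)).real (mcell q (lev r N j) Z) =
      (q:ℝ) ^ (∑ i, r i * N i) * (∏ i, lev r N j i ^ (r i * N i))⁻¹ := by
    intro Z
    rw [Measure.real, volume_mcell q ht, ENNReal.toReal_ofReal]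
    have : 0 < ∏ i, lev r N j i ^ (r i * N i) := Finset.prod_pos fun i _ => pow_pos (ht i) _
    positivity
  have hfin : ∀ Z : Frm ℤ r N, (volume : Measure (Frm ℝ r N)) (mcell q (lev r N j) Z) ≠ ⊤ := by
    intro Z
    rw [volume_mcell q ht]
    exact ENNReal.ofReal_ne_top
  simp_rw [stp_eq_sum hn Φ hq Z0 j]
  rw [integral_finsetSum]
  · rw [lsum, finsum_mem_eq_finite_toFinset_sum _ (lbox_finite hn q Z0 j), Finset.mul_sum]
    refine Finset.sum_congr rfl fun Z hZ => ?_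
    rw [Set.Finite.mem_toFinset] at hZ
    rw [integral_indicator_const _ (measurableSet_mcell _ _ _), hvol, smul_eq_mul]
    have hx : ∀ i, scal (fun i => (lev r N j i)⁻¹) (realF Z) i ≠ 0 :=
      cshell_ne_zero (shell_subset_cshell hn ((mem_lbox_iff hn hZ.1 j).1 hZ))
    have h1 := hΦ.hom _ hx (lev r N j) ht
    have h2 : scal (lev r N j) (scal (fun i => (lev r N j i)⁻¹) (realF Z)) = realF Z := by
      funext i
      simp only [scal, smul_smul]
      rw [mul_inv_cancel₀ (ht i).ne', one_smul]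
    rw [h2] at h1
    rw [h1]
    ring
  · intro Z _
    exact (integrable_indicator_iff (measurableSet_mcell _ _ _)).2 (integrableOn_const (hfin Z))

theorem norm_sub_zt_le {q : ℕ} (hq : 0 < q) (Z0 : Frm ℤ r N) {t : Fin k → ℝ}
    (ht : ∀ i, 0 < t i) (y : Frm ℝ r N) (i : Fin k) :
    ‖y i - scal (fun i => (t i)⁻¹) (realF (zt q Z0 t y)) i‖ ≤ q / t i := by
  have hq' : (0:ℝ) < q := by exact_mod_cast hq
  have hti := ht i
  rw [pi_norm_le_iff_of_nonneg (by positivity)]
  intro a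
  rw [pi_norm_le_iff_of_nonneg (by positivity)]
  intro j
  have hmem := (mem_mcell_iff hq ht (congF_zt q Z0 t y)).2 rfl
  obtain ⟨h1, h2⟩ := hmem i a j
  simp only [Pi.sub_apply, scal, Pi.smul_apply, smul_eq_mul, realF]
  rw [Real.norm_eq_abs, abs_le]
  have e : (t i)⁻¹ * ((zt q Z0 t y i a j : ℤ) : ℝ) = ((zt q Z0 t y i a j : ℤ) : ℝ) / t i := by
    rw [div_eq_mul_inv, mul_comm]
  rw [e]
  have h3 : (((zt q Z0 t y i a j : ℤ) : ℝ) + q) / t i =
      ((zt q Z0 t y i a j : ℤ) : ℝ) / t i + q / t i := by ring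
  rw [h3] at h2
  have h4 : 0 ≤ (q:ℝ) / t i := by positivity
  constructor
  · linarith
  · linarith

theorem stp_le (hn : ∀ i, 0 < r i * N i) {Φ : Frm ℝ r N → ℝ} (hΦ : MHom Φ) {M : ℝ}
    (hM : ∀ x ∈ cshell r N, Φ x ≤ M) (hM0 : 0 ≤ M) {q : ℕ}
    (hq : 0 < q) (Z0 : Frm ℤ r N) {t : Fin k → ℝ} (ht : ∀ i, 1 ≤ t i) (y : Frm ℝ r N) :
    ‖stp Φ q Z0 t y‖ ≤ (closedBall (0 : Frm ℝ r N) (Real.exp 1 + q)).indicator (fun _ => M) y := by
  have ht0 : ∀ i, 0 < t i := fun i => one_pos.trans_le (ht i)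
  have hq' : (0:ℝ) < q := by exact_mod_cast hq
  by_cases hs : scal (fun i => (t i)⁻¹) (realF (zt q Z0 t y)) ∈ shell r N
  · have hc := shell_subset_cshell hn hs
    have hy : y ∈ closedBall (0 : Frm ℝ r N) (Real.exp 1 + q) := by
      rw [mem_closedBall_zero_iff, pi_norm_le_iff_of_nonneg (by positivity)]
      intro i
      have h1 := norm_sub_zt_le hq Z0 ht0 y i
      have h2 := (hc i).2
      have h3 : (q:ℝ) / t i ≤ q := div_le_self hq'.le (ht i)
      have h4 : ‖y i‖ ≤ ‖scal (fun i => (t i)⁻¹) (realF (zt q Z0 t y)) i‖ +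
          ‖y i - scal (fun i => (t i)⁻¹) (realF (zt q Z0 t y)) i‖ := norm_le_norm_add_norm_sub' _ _
      linarith
    rw [Set.indicator_of_mem hy, stp, Set.indicator_of_mem hs, Real.norm_eq_abs,
      abs_of_nonneg (hΦ.nonneg _)]
    exact hM _ hc
  · rw [stp, Set.indicator_of_notMem hs, norm_zero]
    exact Set.indicator_nonneg (fun _ _ => hM0) _

theorem aestronglyMeasurable_stp (hn : ∀ i, 0 < r i * N i) (Φ : Frm ℝ r N → ℝ) {q : ℕ}
    (hq : 0 < q) (Z0 : Frm ℤ r N) (j : Fin k → ℕ) :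
    AEStronglyMeasurable (stp Φ q Z0 (lev r N j)) volume := by
  have : stp Φ q Z0 (lev r N j) = fun y => ∑ Z ∈ (lbox_finite hn q Z0 j).toFinset,
      (mcell q (lev r N j) Z).indicator
        (fun _ => Φ (scal (fun i => (lev r N j i)⁻¹) (realF Z))) y :=
    funext fun y => stp_eq_sum hn Φ hq Z0 j y
  rw [this]
  refine Finset.aestronglyMeasurable_fun_sum _ fun Z _ => ?_
  exact (measurable_const.indicator (measurableSet_mcell _ _ _)).aestronglyMeasurable

/-- the sums over boxes of levels are bounded -/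
theorem lsum_bound (hn : ∀ i, 0 < r i * N i) {Φ : Frm ℝ r N → ℝ} (hΦ : MHom Φ) {q : ℕ}
    (hq : 0 < q) (Z0 : Frm ℤ r N) :
    ∃ C : ℝ, 0 ≤ C ∧ ∀ j, 0 ≤ lsum Φ q Z0 j ∧ lsum Φ q Z0 j ≤ C := by
  obtain ⟨M, hM0, hM⟩ := hΦ.bound
  have hi : Integrable ((closedBall (0 : Frm ℝ r N) (Real.exp 1 + q)).indicator
      (fun _ : Frm ℝ r N => M)) volume :=
    (integrable_indicator_iff measurableSet_closedBall).2
      (integrableOn_const measure_closedBall_lt_top.ne)
  refine ⟨∫ y, (closedBall (0 : Frm ℝ r N) (Real.exp 1 + q)).indicator (fun _ => M) y,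
    integral_nonneg fun y => Set.indicator_nonneg (fun _ _ => hM0) _, fun j => ⟨?_, ?_⟩⟩
  · exact mul_nonneg (by positivity) (finsum_nonneg fun Z => finsum_nonneg fun _ => hΦ.nonneg _)
  · rw [lsum_eq_integral hn hΦ hq]
    have hb := stp_le hn hΦ hM hM0 hq Z0 (one_le_lev (r := r) (N := N) j)
    refine integral_mono (hi.mono' (aestronglyMeasurable_stp hn Φ hq Z0 j)
      (Eventually.of_forall hb)) hi fun y => ?_
    exact (le_abs_self _).trans (hb y)

theorem tendsto_apply_nat (i : Fin k) :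
    Tendsto (fun j : Fin k → ℕ => j i) atTop atTop := by
  rw [Filter.tendsto_atTop]
  intro b
  filter_upwards [eventually_ge_atTop (fun _ => b : Fin k → ℕ)] with j hj
  exact hj i

theorem tendsto_div_lev (hn : ∀ i, 0 < r i * N i) (q : ℕ) (i : Fin k) :
    Tendsto (fun j : Fin k → ℕ => (q:ℝ) / lev r N j i) atTop (𝓝 0) := by
  refine tendsto_const_nhds.div_atTop ?_
  refine Real.tendsto_exp_atTop.comp ?_
  have h1 : Tendsto (fun j : Fin k → ℕ => (j i : ℝ)) atTop atTop :=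
    tendsto_natCast_atTop_atTop.comp (tendsto_apply_nat i)
  exact h1.atTop_div_const (by exact_mod_cast hn i)

theorem tendsto_zt (hn : ∀ i, 0 < r i * N i) {q : ℕ} (hq : 0 < q) (Z0 : Frm ℤ r N)
    (y : Frm ℝ r N) :
    Tendsto (fun j : Fin k → ℕ =>
      scal (fun i => (lev r N j i)⁻¹) (realF (zt q Z0 (lev r N j) y))) atTop (𝓝 y) := by
  rw [tendsto_pi_nhds]
  intro i
  rw [tendsto_iff_norm_sub_tendsto_zero]
  refine squeeze_zero (fun _ => norm_nonneg _) (fun j => ?_) (tendsto_div_lev hn q i)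
  rw [norm_sub_rev]
  exact norm_sub_zt_le hq Z0 (lev_pos j) y i

theorem null_sphere (hn : ∀ i, 0 < r i * N i) (i : Fin k) {c : ℝ} (hc : 0 < c) :
    (volume : Measure (Frm ℝ r N)) {y | ‖y i‖ ^ (r i * N i) = c} = 0 := by
  obtain ⟨c', hc', hcc⟩ := exists_rad (hn i) hc
  have h1 : {y : Frm ℝ r N | ‖y i‖ ^ (r i * N i) = c} ⊆
      Function.eval i ⁻¹' (sphere (0 : Fin (r i) → Fin (N i) → ℝ) c') := by
    intro y hy
    simp only [mem_preimage, Function.eval, mem_sphere_zero_iff_norm]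
    rw [mem_ofPred_eq, ← hcc] at hy
    exact (pow_left_inj₀ (norm_nonneg _) hc'.le (hn i).ne').1 hy
  refine measure_mono_null h1 ?_
  refine Measure.pi_eval_preimage_null _ ?_
  have : Measure.IsAddHaarMeasure (volume : Measure (Fin (r i) → Fin (N i) → ℝ)) :=
    Measure.pi.isAddHaarMeasure (fun _ : Fin (r i) => (volume : Measure (Fin (N i) → ℝ)))
  exact Measure.addHaar_sphere_of_ne_zero _ 0 hc'.ne'

theorem continuousAt_indicator (hn : ∀ i, 0 < r i * N i) {Φ : Frm ℝ r N → ℝ} (hΦ : MHom Φ)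
    {y : Frm ℝ r N} (h1 : ∀ i, ‖y i‖ ^ (r i * N i) ≠ 1)
    (h2 : ∀ i, ‖y i‖ ^ (r i * N i) ≠ Real.exp 1) :
    ContinuousAt ((shell r N).indicator Φ) y := by
  have hm : ∀ i, ContinuousAt (fun x : Frm ℝ r N => ‖x i‖ ^ (r i * N i)) y := fun i =>
    ((continuous_norm.comp (continuous_apply i)).pow _).continuousAt
  by_cases hy : y ∈ shell r N
  · have hU : ∀ᶠ x in 𝓝 y, x ∈ shell r N := by
      have : ∀ i, ∀ᶠ x : Frm ℝ r N in 𝓝 y,
          1 ≤ ‖x i‖ ^ (r i * N i) ∧ ‖x i‖ ^ (r i * N i) < Real.exp 1 := by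
        intro i
        obtain ⟨a1, a2⟩ := hy i
        filter_upwards [(hm i).eventually (lt_mem_nhds (lt_of_le_of_ne a1 (h1 i).symm)),
          (hm i).eventually (gt_mem_nhds a2)] with x b1 b2
        exact ⟨b1.le, b2⟩
      exact eventually_all.2 this
    have hopen : IsOpen {x : Frm ℝ r N | ∀ i, x i ≠ 0} := by
      have : {x : Frm ℝ r N | ∀ i, x i ≠ 0} = ⋂ i, (fun x : Frm ℝ r N => x i) ⁻¹' {0}ᶜ := by
        ext x; simp
      rw [this]
      exact isOpen_iInter_of_finite fun i => isOpen_compl_singleton.preimage (continuous_apply i)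
    have hc : ContinuousAt Φ y := hΦ.cont.continuousAt
      (hopen.mem_nhds (cshell_ne_zero (shell_subset_cshell hn hy)))
    refine hc.congr ?_
    filter_upwards [hU] with x hx
    rw [Set.indicator_of_mem hx]
  · have hU : ∀ᶠ x in 𝓝 y, x ∉ shell r N := by
      simp only [shell, mem_ofPred_eq, not_forall, not_and_or, not_le, not_lt] at hy
      obtain ⟨i, hi⟩ := hy
      rcases hi with hi | hi
      · filter_upwards [(hm i).eventually (gt_mem_nhds hi)] with x hx hcon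
        exact absurd (hcon i).1 (not_le.2 hx)
      · filter_upwards [(hm i).eventually (lt_mem_nhds (lt_of_le_of_ne hi (h2 i).symm))]
          with x hx hcon
        exact absurd (hcon i).2 (not_lt.2 (le_of_lt hx))
    have hc : ContinuousAt (fun _ : Frm ℝ r N => (0:ℝ)) y := continuousAt_const
    refine hc.congr ?_
    filter_upwards [hU] with x hx
    rw [Set.indicator_of_notMem hx]

/-- the integral over the unit box of levels -/
noncomputable def kapI (Φ : Frm ℝ r N → ℝ) : ℝ := ∫ x in shell r N, Φ x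

theorem kapI_nonneg {Φ : Frm ℝ r N → ℝ} (hΦ : MHom Φ) : 0 ≤ kapI Φ :=
  setIntegral_nonneg (measurableSet_shell r N) (fun x _ => hΦ.nonneg x)

/-- the sums over boxes of levels converge to the integral -/
theorem lsum_tendsto (hn : ∀ i, 0 < r i * N i) {Φ : Frm ℝ r N → ℝ} (hΦ : MHom Φ) {q : ℕ}
    (hq : 0 < q) (Z0 : Frm ℤ r N) :
    Tendsto (fun j => lsum Φ q Z0 j) atTop (𝓝 (kapI Φ)) := by
  obtain ⟨M, hM0, hM⟩ := hΦ.bound
  have hi : Integrable ((closedBall (0 : Frm ℝ r N) (Real.exp 1 + q)).indicator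
      (fun _ : Frm ℝ r N => M)) volume :=
    (integrable_indicator_iff measurableSet_closedBall).2
      (integrableOn_const measure_closedBall_lt_top.ne)
  rw [kapI, ← integral_indicator (measurableSet_shell r N)]
  simp_rw [lsum_eq_integral hn hΦ hq Z0]
  refine tendsto_integral_filter_of_dominated_convergence _
    (Eventually.of_forall fun j => aestronglyMeasurable_stp hn Φ hq Z0 j)
    (Eventually.of_forall fun j => Eventually.of_forall
      (stp_le hn hΦ hM hM0 hq Z0 (one_le_lev (r := r) (N := N) j))) hi ?_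
  have n1 : ∀ᵐ y : Frm ℝ r N, ∀ i, ‖y i‖ ^ (r i * N i) ≠ 1 := by
    rw [ae_all_iff]
    intro i
    rw [ae_iff]
    simpa using null_sphere hn i one_pos
  have n2 : ∀ᵐ y : Frm ℝ r N, ∀ i, ‖y i‖ ^ (r i * N i) ≠ Real.exp 1 := by
    rw [ae_all_iff]
    intro i
    rw [ae_iff]
    simpa using null_sphere hn i (Real.exp_pos 1)
  filter_upwards [n1, n2] with y h1 h2
  exact (continuousAt_indicator hn hΦ h1 h2).tendsto.comp (tendsto_zt hn hq Z0 y)

/-- positivity of the constant -/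
theorem kapI_pos (hn : ∀ i, 0 < r i * N i) {Φ : Frm ℝ r N → ℝ} (hΦ : MHom Φ)
    {x : Frm ℝ r N} (hx : ∀ i, x i ≠ 0) (hpos : 0 < Φ x) : 0 < kapI Φ := by
  -- rescale into the interior
  obtain ⟨c, hc, hcc⟩ : ∃ c : Fin k → ℝ, (∀ i, 0 < c i) ∧
      ∀ i, c i ^ (r i * N i) = Real.exp (1 / 2) := by
    have : ∀ i, ∃ X : ℝ, 0 < X ∧ X ^ (r i * N i) = Real.exp (1 / 2) :=
      fun i => exists_rad (hn i) (Real.exp_pos _)
    choose c h1 h2 using this
    exact ⟨c, h1, h2⟩
  set y : Frm ℝ r N := scal (fun i => c i * ‖x i‖⁻¹) x with hy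
  have hnx : ∀ i, 0 < ‖x i‖ := fun i => norm_pos_iff.2 (hx i)
  have hsp : ∀ i, 0 < c i * ‖x i‖⁻¹ := fun i => mul_pos (hc i) (inv_pos.2 (hnx i))
  have hyn : ∀ i, ‖y i‖ = c i := by
    intro i
    rw [hy, norm_scal_apply hsp, mul_assoc, inv_mul_cancel₀ (hnx i).ne', mul_one]
  have hyp : 0 < Φ y := by
    rw [hy, hΦ.hom x hx _ hsp]
    have : 0 < ∏ i, (c i * ‖x i‖⁻¹) ^ (r i * N i) := Finset.prod_pos fun i _ => pow_pos (hsp i) _
    positivity
  have hyI : ∀ i, 1 < ‖y i‖ ^ (r i * N i) ∧ ‖y i‖ ^ (r i * N i) < Real.exp 1 := by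
    intro i
    rw [hyn, hcc]
    exact ⟨Real.one_lt_exp_iff.2 (by norm_num), Real.exp_lt_exp.2 (by norm_num)⟩
  have hyS : y ∈ shell r N := fun i => ⟨(hyI i).1.le, (hyI i).2⟩
  have hcont := continuousAt_indicator hn hΦ (fun i => (hyI i).1.ne') (fun i => (hyI i).2.ne)
  have hy0 : (shell r N).indicator Φ y = Φ y := Set.indicator_of_mem hyS _
  have hev : ∀ᶠ z in 𝓝 y, Φ y / 2 < (shell r N).indicator Φ z := by
    apply hcont.eventually (lt_mem_nhds _)
    rw [hy0]; linarith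
  obtain ⟨ε, hε, hball⟩ := Metric.eventually_nhds_iff_ball.1 hev
  have hint : Integrable ((shell r N).indicator Φ) volume :=
    (integrable_indicator_iff (measurableSet_shell r N)).2 (hΦ.integrableOn hn)
  rw [kapI, ← integral_indicator (measurableSet_shell r N)]
  have h1 : ∫ z, (ball y ε).indicator (fun _ => Φ y / 2) z ≤
      ∫ z, (shell r N).indicator Φ z := by
    refine integral_mono ((integrable_indicator_iff measurableSet_ball).2
      (integrableOn_const measure_ball_lt_top.ne)) hint fun z => ?_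
    by_cases hz : z ∈ ball y ε
    · rw [Set.indicator_of_mem hz]
      exact (hball z hz).le
    · rw [Set.indicator_of_notMem hz]
      exact Set.indicator_nonneg (fun _ _ => hΦ.nonneg _) _
  rw [integral_indicator_const _ measurableSet_ball, smul_eq_mul] at h1
  have h2 : 0 < (volume : Measure (Frm ℝ r N)).real (ball y ε) :=
    ENNReal.toReal_pos (measure_ball_pos _ _ hε).ne' measure_ball_lt_top.ne
  have h3 : 0 < (volume : Measure (Frm ℝ r N)).real (ball y ε) * (Φ y / 2) :=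
    mul_pos h2 (by linarith)
  linarith

end Pool.Agent.Lib.MP_1acd66_nt.Gen
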