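import Pool.Agent.Lib.MP_1acd66_nt.Gen.Defs

/-!
Local and adelic norms on the anticanonical bundle of the projective bundle attached to a
representation, over a product of Grassmannians; rational points and their heights.
-/

namespace Pool.Agent.Lib.MP_1acd66_nt.Gen

variable {k : ℕ} {r : Fin k → ℕ} {W : Type} [Fintype W]

/-- Local norms on the anticanonical bundle, as functions on pairs `(Z, A)`: continuous, positive,
homogeneous of degree `card W` in `A`, and of weight `N i - b i` under change of frame. -/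
structure IsLocalNorm (K : Type) [NormedField K] (N : Fin k → ℕ) (ρ : RepData r W)
    (M : Frm K r N → (W → K) → ℝ) : Prop where
  cont : ContinuousOn (fun x : Frm K r N × (W → K) => M x.1 x.2) {x | AllFrame x.1 ∧ x.2 ≠ 0}
  pos : ∀ Z A, AllFrame Z → A ≠ 0 → 0 < M Z A
  scale : ∀ Z A, AllFrame Z → A ≠ 0 → ∀ s : K, s ≠ 0 →
    M Z (s • A) = ‖s‖ ^ (Fintype.card W) * M Z A
  frame : ∀ Z A, AllFrame Z → A ≠ 0 → ∀ g : Grp K r, (∀ i, (g i).det ≠ 0) →
    M (act g Z) A = (∏ i, ‖(g i).det‖ ^ (N i - ρ.b i)) * M Z (ρ.pull K g A)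

instance factPrime (p : Nat.Primes) : Fact p.1.Prime := ⟨p.2⟩

/-- Rational frames with entries regarded in a field `K`. -/
def castF (K : Type) [Field K] {r N : Fin k → ℕ} (Z : Frm ℚ r N) : Frm K r N :=
  fun i a j => (Z i a j : K)

/-- Rational vectors with entries regarded in a field `K`. -/
def castW (K : Type) [Field K] (A : W → ℚ) : W → K := fun w => (A w : K)

/-- Coordinates of a rational point: rational frames `Z` and a nonzero vector `A`. -/
structure Rep (r N : Fin k → ℕ) (W : Type) where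
  /-- the frames -/
  Z : Frm ℚ r N
  /-- the coefficients -/
  A : W → ℚ
  frame : AllFrame Z
  ne : A ≠ 0

/-- Two coordinate systems describe the same rational point: they differ by a change of frames
and a scalar. -/
def Same {N : Fin k → ℕ} (ρ : RepData r W) (x y : Rep r N W) : Prop :=
  ∃ (g : Grp ℚ r) (s : ℚ), (∀ i, (g i).det ≠ 0) ∧ s ≠ 0 ∧ y.Z = act g x.Z ∧
    s • x.A = ρ.pull ℚ g y.A

/-- The set of rational points. -/
def Pt (N : Fin k → ℕ) (ρ : RepData r W) : Type := Quot (Same (N := N) ρ)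

/-- The point with given coordinates. -/
def pt {N : Fin k → ℕ} (ρ : RepData r W) (x : Rep r N W) : Pt N ρ := Quot.mk _ x

/-- An adelic metric on the anticanonical bundle: local norms at all places of `ℚ`, given by the
standard integral model at all but finitely many primes. -/
structure AdelicNorm (N : Fin k → ℕ) (ρ : RepData r W) where
  /-- the norm at the real place -/
  inf : Frm ℝ r N → (W → ℝ) → ℝ
  /-- the norm at the prime `p` -/
  fin : ∀ p : Nat.Primes, Frm ℚ_[(p : ℕ)] r N → (W → ℚ_[(p : ℕ)]) → ℝ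
  isNorm_inf : IsLocalNorm ℝ N ρ inf
  isNorm_fin : ∀ p : Nat.Primes, IsLocalNorm ℚ_[(p : ℕ)] N ρ (fin p)
  almost : ∃ S : Finset Nat.Primes, ∀ p : Nat.Primes, p ∉ S → ∀ Z A,
    (∀ i a j, ‖Z i a j‖ ≤ 1) → (∀ i, ∃ s, ‖minor (Z i) s‖ = 1) → A ≠ 0 →
    fin p Z A = ‖A‖ ^ (Fintype.card W)

/-- The relative anticanonical height in terms of coordinates. -/
noncomputable def AdelicNorm.height {N : Fin k → ℕ} {ρ : RepData r W} (h : AdelicNorm N ρ)
    (x : Rep r N W) : ℝ :=
  h.inf (castF ℝ x.Z) (castW ℝ x.A) *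
    ∏ᶠ p : Nat.Primes, h.fin p (castF ℚ_[(p : ℕ)] x.Z) (castW ℚ_[(p : ℕ)] x.A)

/-- The points of height at most `B` whose coordinates satisfy the condition `Good`. -/
def countSet {N : Fin k → ℕ} {ρ : RepData r W} (Good : (W → ℚ) → Prop) (h : AdelicNorm N ρ)
    (B : ℝ) : Set (Pt N ρ) :=
  {P | ∃ x, pt ρ x = P ∧ Good x.A ∧ h.height x ≤ B}

end Pool.Agent.Lib.MP_1acd66_nt.Gen
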