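import Pool.Agent.Lib.MP_1acd66_nt.Gen.Hyp
import Pool.Agent.Lib.MP_1acd66_nt.Gen.Gram

/-!
Orthonormal frames are frames; compactness; minors of a transformed frame.
-/

namespace Pool.Agent.Lib.MP_1acd66_nt.Gen

open Finset

variable {K : Type*} [CommRing K] {r N : ℕ}

theorem gram_eq_sum (Z : Fin r → Fin N → K) :
    gram Z = ∑ s : Fin r → Fin N, (∏ a, Z a (s a)) * minor Z s := by
  have h1 : (Matrix.of fun a b => dot (Z a) (Z b)) =
      fun a => ∑ j, Z a j • fun b => Z b j := by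
    funext a b
    rw [Finset.sum_apply]
    rfl
  rw [gram, h1]
  have h2 := (Matrix.detRowAlternating (R := K) (n := Fin r)).toMultilinearMap.map_sum
    (g := fun a (j : Fin N) => Z a j • fun b => Z b j)
  have h3 : Matrix.det (fun a => ∑ j, Z a j • fun b => Z b j) =
      ∑ s : Fin r → Fin N, Matrix.det (fun a => Z a (s a) • fun b => Z b (s a)) := h2
  rw [h3]
  refine sum_congr rfl fun s _ => ?_
  have h4 := (Matrix.detRowAlternating (R := K) (n := Fin r)).toMultilinearMap.map_smul_univ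
    (fun a => Z a (s a)) (fun a b => Z b (s a))
  have h5 : Matrix.det (fun a => Z a (s a) • fun b => Z b (s a)) =
      (∏ a, Z a (s a)) • Matrix.det (fun a b => Z b (s a)) := h4
  rw [h5, smul_eq_mul, minor, ← Matrix.det_transpose]
  rfl

/-- orthonormal real frames -/
def Orthonormal' {r N : ℕ} (Q : Fin r → Fin N → ℝ) : Prop :=
  ∀ a b, dot (Q a) (Q b) = if a = b then 1 else 0

theorem Orthonormal'.gram {r N : ℕ} {Q : Fin r → Fin N → ℝ} (h : Orthonormal' Q) :
    gram Q = 1 := by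
  have h1 : (Matrix.of fun a b => dot (Q a) (Q b)) = (1 : Matrix (Fin r) (Fin r) ℝ) := by
    ext a b
    rw [Matrix.of_apply, h a b, Matrix.one_apply]
  rw [Gen.gram, h1, Matrix.det_one]

theorem Orthonormal'.isFrame {r N : ℕ} {Q : Fin r → Fin N → ℝ} (h : Orthonormal' Q) :
    IsFrame Q := by
  by_contra hne
  unfold IsFrame at hne
  push Not at hne
  have h1 := h.gram
  rw [gram_eq_sum, sum_eq_zero] at h1
  · norm_num at h1
  · intro s _
    rw [hne s, mul_zero]

theorem Orthonormal'.abs_le {r N : ℕ} {Q : Fin r → Fin N → ℝ} (h : Orthonormal' Q) (a : Fin r)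
    (j : Fin N) : |Q a j| ≤ 1 := by
  have h1 := h a a
  rw [if_pos rfl, dot] at h1
  have h2 : Q a j * Q a j ≤ ∑ j, Q a j * Q a j :=
    single_le_sum (f := fun j => Q a j * Q a j) (fun j _ => mul_self_nonneg _) (mem_univ j)
  rw [h1] at h2
  exact abs_le_one_iff_mul_self_le_one.2 h2

/-- The set of pairs of orthonormal frames and unit vectors. -/
def orthoUnit {k : ℕ} (r N : Fin k → ℕ) (W : Type) [Fintype W] : Set (Frm ℝ r N × (W → ℝ)) :=
  {x | (∀ i, Orthonormal' (x.1 i)) ∧ ‖x.2‖ = 1}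

theorem isCompact_orthoUnit {k : ℕ} (r N : Fin k → ℕ) (W : Type) [Fintype W] :
    IsCompact (orthoUnit r N W) := by
  refine Metric.isCompact_of_isClosed_isBounded ?_ ?_
  · have h1 : orthoUnit r N W = (⋂ i, ⋂ a, ⋂ b,
        {x : Frm ℝ r N × (W → ℝ) | dot (x.1 i a) (x.1 i b) = if a = b then 1 else 0}) ∩
        {x : Frm ℝ r N × (W → ℝ) | ‖x.2‖ = 1} := by
      ext x
      simp only [orthoUnit, Orthonormal', Set.mem_ofPred_eq, Set.mem_inter_iff, Set.mem_iInter]
    rw [h1]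
    refine IsClosed.inter (isClosed_iInter fun i => isClosed_iInter fun a => isClosed_iInter
      fun b => ?_) (isClosed_eq (continuous_norm.comp continuous_snd) continuous_const)
    refine isClosed_eq ?_ continuous_const
    have h2 : Continuous (fun x : Frm ℝ r N × (W → ℝ) => (x.1 i a, x.1 i b)) := by fun_prop
    exact continuous_dot.comp h2
  · refine (Metric.isBounded_closedBall (x := (0 : Frm ℝ r N × (W → ℝ))) (r := 1)).subset ?_
    rintro ⟨Q, A⟩ ⟨h1, h2⟩
    rw [mem_closedBall_zero_iff, Prod.norm_mk, max_le_iff]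
    refine ⟨?_, h2.le⟩
    rw [pi_norm_le_iff_of_nonneg zero_le_one]
    intro i
    rw [pi_norm_le_iff_of_nonneg zero_le_one]
    intro a
    rw [pi_norm_le_iff_of_nonneg zero_le_one]
    intro j
    exact (h1 i).abs_le a j

/-- A positive lower bound of a local norm on orthonormal frames. -/
theorem IsLocalNorm.ortho_lower {k : ℕ} {r N : Fin k → ℕ} {W : Type} [Fintype W] {ρ : FRep r W}
    {M : Frm ℝ r N → (W → ℝ) → ℝ} (hM : IsLocalNorm ℝ N ρ M) :
    ∃ c : ℝ, 0 < c ∧ ∀ Q A, (∀ i, Orthonormal' (Q i)) → A ≠ 0 →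
      c * ‖A‖ ^ Fintype.card W ≤ M Q A := by
  have hcont : ContinuousOn (fun x : Frm ℝ r N × (W → ℝ) => M x.1 x.2) (orthoUnit r N W) := by
    refine hM.cont.mono ?_
    rintro ⟨Q, A⟩ ⟨h1, h2⟩
    refine ⟨fun i => (h1 i).isFrame, ?_⟩
    rintro h3
    simp only at h3 h2
    rw [h3, norm_zero] at h2
    norm_num at h2
  have key : ∀ c : ℝ, (∀ x ∈ orthoUnit r N W, c ≤ M x.1 x.2) →
      ∀ Q A, (∀ i, Orthonormal' (Q i)) → A ≠ 0 → c * ‖A‖ ^ Fintype.card W ≤ M Q A := by
    intro c hc Q A hQ hA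
    have hn : 0 < ‖A‖ := norm_pos_iff.2 hA
    have h1 : ‖‖A‖⁻¹ • A‖ = 1 := by
      rw [norm_smul, norm_inv, norm_norm, inv_mul_cancel₀ hn.ne']
    have h2 := hc (Q, ‖A‖⁻¹ • A) ⟨hQ, h1⟩
    have h3 : A = ‖A‖ • (‖A‖⁻¹ • A) := by
      rw [smul_smul, mul_inv_cancel₀ hn.ne', one_smul]
    have h4 : ‖A‖⁻¹ • A ≠ 0 := by
      rw [← norm_pos_iff, h1]; norm_num
    rw [h3, hM.scale Q _ (fun i => (hQ i).isFrame) h4 ‖A‖ hn.ne', norm_norm, ← h3, mul_comm]
    exact mul_le_mul_of_nonneg_left h2 (by positivity)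
  rcases (orthoUnit r N W).eq_empty_or_nonempty with h0 | h0
  · refine ⟨1, one_pos, key 1 ?_⟩
    intro x hx
    rw [h0] at hx
    exact absurd hx (Set.notMem_empty _)
  · obtain ⟨⟨Q0, A0⟩, hx0, hmin⟩ := (isCompact_orthoUnit r N W).exists_isMinOn h0 hcont
    have hA0 : A0 ≠ 0 := by
      rintro rfl
      have := hx0.2
      simp only at this
      rw [norm_zero] at this
      norm_num at this
    exact ⟨M Q0 A0, hM.pos _ _ (fun i => (hx0.1 i).isFrame) hA0, key _ fun x hx => hmin hx⟩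

end Pool.Agent.Lib.MP_1acd66_nt.Gen
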