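import Pool.Agent.Lib.MP_1acd66_nt.Gen.Height
import Pool.Agent.Lib.MP_1acd66_nt.Gen.Local

/-! The finite part of the height on integral coordinates. -/

set_option linter.unusedSectionVars false

namespace Pool.Agent.Lib.MP_1acd66_nt.Gen

open Filter Metric Set
open scoped Classical

variable {k : ℕ} {r N : Fin k → ℕ} {W : Type} [Fintype W] {ρ : FRep r W}

/-- bounded functions on saturated frames and primitive vectors that are approximately constant on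
residue classes -/
structure Tame (f : Frm ℤ r N → (W → ℤ) → ℝ) (f0 f1 : ℝ) : Prop where
  pos : 0 < f0
  le : f0 ≤ f1
  lo : ∀ Z A, SatF Z → PrimW A → f0 ≤ f Z A
  hi : ∀ Z A, SatF Z → PrimW A → f Z A ≤ f1
  lp : ∀ ε > 0, ∃ q : ℕ, 0 < q ∧ ∀ Z A Z' A', SatF Z → PrimW A → SatF Z' → PrimW A' →
    CongF q Z Z' → CongW q A A' → f Z A ≤ (1 + ε) * f Z' A'

theorem Tame.one : Tame (fun (_ : Frm ℤ r N) (_ : W → ℤ) => (1:ℝ)) 1 1 where
  pos := one_pos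
  le := le_rfl
  lo _ _ _ _ := le_rfl
  hi _ _ _ _ := le_rfl
  lp ε hε := ⟨1, one_pos, fun _ _ _ _ _ _ _ _ _ _ => by linarith⟩

theorem Tame.mul {f g : Frm ℤ r N → (W → ℤ) → ℝ} {f0 f1 g0 g1 : ℝ} (hf : Tame f f0 f1)
    (hg : Tame g g0 g1) : Tame (fun Z A => f Z A * g Z A) (f0 * g0) (f1 * g1) where
  pos := mul_pos hf.pos hg.pos
  le := mul_le_mul hf.le hg.le hg.pos.le (hf.pos.le.trans hf.le)
  lo Z A hZ hA := mul_le_mul (hf.lo Z A hZ hA) (hg.lo Z A hZ hA) hg.pos.le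
    (hf.pos.le.trans (hf.lo Z A hZ hA))
  hi Z A hZ hA := mul_le_mul (hf.hi Z A hZ hA) (hg.hi Z A hZ hA)
    (hg.pos.le.trans (hg.lo Z A hZ hA)) (hf.pos.le.trans hf.le)
  lp ε hε := by
    set ε' := min 1 (ε / 3) with hε'
    have hp : 0 < ε' := lt_min one_pos (by positivity)
    have h1 : ε' ≤ 1 := min_le_left _ _
    have h3 : ε' ≤ ε / 3 := min_le_right _ _
    obtain ⟨q, hq, hqf⟩ := hf.lp ε' hp
    obtain ⟨r, hr, hrg⟩ := hg.lp ε' hp
    refine ⟨q * r, Nat.mul_pos hq hr, ?_⟩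
    intro Z A Z' A' hZ hA hZ' hA' hc1 hc2
    have e1 := hqf Z A Z' A' hZ hA hZ' hA' (hc1.of_dvd (Dvd.intro _ rfl)) (hc2.of_dvd (Dvd.intro _ rfl))
    have e2 := hrg Z A Z' A' hZ hA hZ' hA' (hc1.of_dvd (Dvd.intro_left _ rfl))
      (hc2.of_dvd (Dvd.intro_left _ rfl))
    have p1 : 0 < f Z' A' := hf.pos.trans_le (hf.lo _ _ hZ' hA')
    have p2 : 0 < g Z' A' := hg.pos.trans_le (hg.lo _ _ hZ' hA')
    have p3 : 0 < g Z A := hg.pos.trans_le (hg.lo _ _ hZ hA)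
    calc f Z A * g Z A ≤ ((1 + ε') * f Z' A') * ((1 + ε') * g Z' A') :=
          mul_le_mul e1 e2 p3.le (by positivity)
      _ = ((1 + ε') * (1 + ε')) * (f Z' A' * g Z' A') := by ring
      _ ≤ (1 + ε) * (f Z' A' * g Z' A') := by
          apply mul_le_mul_of_nonneg_right _ (by positivity)
          nlinarith

theorem Tame.congr {f g : Frm ℤ r N → (W → ℤ) → ℝ} {f0 f1 : ℝ} (hf : Tame f f0 f1)
    (h : ∀ Z A, SatF Z → PrimW A → f Z A = g Z A) : Tame g f0 f1 where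
  pos := hf.pos
  le := hf.le
  lo Z A hZ hA := by rw [← h Z A hZ hA]; exact hf.lo Z A hZ hA
  hi Z A hZ hA := by rw [← h Z A hZ hA]; exact hf.hi Z A hZ hA
  lp ε hε := by
    obtain ⟨q, hq, hqf⟩ := hf.lp ε hε
    refine ⟨q, hq, ?_⟩
    intro Z A Z' A' hZ hA hZ' hA' hc1 hc2
    rw [← h Z A hZ hA, ← h Z' A' hZ' hA']
    exact hqf Z A Z' A' hZ hA hZ' hA' hc1 hc2

theorem Tame.classApprox {f : Frm ℤ r N → (W → ℤ) → ℝ} {f0 f1 : ℝ} (hf : Tame f f0 f1) {ε : ℝ}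
    (hε : 0 < ε) (hε1 : ε ≤ 1) (P : ℕ) :
    ∃ q : ℕ, 0 < q ∧ (∀ p : ℕ, p.Prime → p ≤ P → p ∣ q) ∧
      ∃ cc : Frm ℤ r N → (W → ℤ) → ℝ, ClassApprox f q cc f0 f1 ε := by
  obtain ⟨q0, hq0, hlp⟩ := hf.lp ε hε
  have hf0 := hf.pos
  have hf1 : 0 < f1 := hf0.trans_le hf.le
  refine ⟨q0 * P.factorial, Nat.mul_pos hq0 (Nat.factorial_pos P), ?_, ?_⟩
  · intro p hp hpP
    exact ((Nat.dvd_factorial hp.pos hpP)).mul_left q0
  set q := q0 * P.factorial with hq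
  have hqd : q0 ∣ q := Dvd.intro _ rfl
  set Q : Frm ℤ r N → (W → ℤ) → Prop := fun Z0 A0 =>
    ∃ Z A, SatF Z ∧ PrimW A ∧ resF q Z = Z0 ∧ resW q A = A0 with hQ
  set cc : Frm ℤ r N → (W → ℤ) → ℝ := fun Z0 A0 =>
    if h : Q Z0 A0 then (f h.choose h.choose_spec.choose)⁻¹ else f1⁻¹ with hcc
  have hspec : ∀ Z0 A0, (h : Q Z0 A0) → ∃ Z A, SatF Z ∧ PrimW A ∧ resF q Z = Z0 ∧
      resW q A = A0 ∧ cc Z0 A0 = (f Z A)⁻¹ := by
    intro Z0 A0 h
    refine ⟨h.choose, h.choose_spec.choose, h.choose_spec.choose_spec.1,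
      h.choose_spec.choose_spec.2.1, h.choose_spec.choose_spec.2.2.1,
      h.choose_spec.choose_spec.2.2.2, ?_⟩
    simp only [hcc]
    rw [dif_pos h]
  have hspec2 : ∀ Z0 A0, ¬ Q Z0 A0 → cc Z0 A0 = f1⁻¹ := by
    intro Z0 A0 h
    simp only [hcc]
    rw [dif_neg h]
  refine ⟨cc, ?_⟩
  refine ⟨hf0, hf1, hε, hε1, ?_, ?_, hf.lo, ?_, ?_⟩
  · intro Z0 A0
    by_cases h : Q Z0 A0
    · obtain ⟨Z, A, h1, h2, _, _, h5⟩ := hspec Z0 A0 h
      rw [h5]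
      exact inv_anti₀ (hf0.trans_le (hf.lo Z A h1 h2)) (hf.hi Z A h1 h2)
    · rw [hspec2 Z0 A0 h]
  · intro Z0 A0
    by_cases h : Q Z0 A0
    · obtain ⟨Z, A, h1, h2, _, _, h5⟩ := hspec Z0 A0 h
      rw [h5]
      exact inv_anti₀ hf0 (hf.lo Z A h1 h2)
    · rw [hspec2 Z0 A0 h]
      exact inv_anti₀ hf0 hf.le
  · intro Z A hZ hA
    obtain ⟨Z', A', h1, h2, h3, h4, h5⟩ := hspec (resF q Z) (resW q A) ⟨Z, A, hZ, hA, rfl, rfl⟩
    have h6 := hlp Z' A' Z A h1 h2 hZ hA ((congF_of_res_eq h3).of_dvd hqd)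
      ((congW_of_res_eq h4).of_dvd hqd)
    have hp : 0 < f Z' A' := hf0.trans_le (hf.lo Z' A' h1 h2)
    rw [h5]
    have e : (1 + ε) * (f Z' A')⁻¹ * f Z A = ((1 + ε) * f Z A) / f Z' A' := by
      rw [div_eq_mul_inv]; ring
    rw [e, one_le_div hp]
    exact h6
  · intro Z A hZ hA
    obtain ⟨Z', A', h1, h2, h3, h4, h5⟩ := hspec (resF q Z) (resW q A) ⟨Z, A, hZ, hA, rfl, rfl⟩
    have h6 := hlp Z A Z' A' hZ hA h1 h2 ((congF_of_res_eq h3).symm.of_dvd hqd)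
      ((congW_of_res_eq h4).symm.of_dvd hqd)
    have hp : 0 < f Z' A' := hf0.trans_le (hf.lo Z' A' h1 h2)
    rw [h5, inv_mul_le_iff₀ hp, mul_comm]
    exact h6

section padic

variable (p : ℕ) [Fact p.Prime]

/-- integral frames with `p`-adic entries -/
noncomputable def padF (x : Frm ℤ r N) : Frm ℚ_[p] r N := fun i a j => ((x i a j : ℤ) : ℚ_[p])

/-- integral vectors with `p`-adic entries -/
noncomputable def padW (x : W → ℤ) : W → ℚ_[p] := fun w => ((x w : ℤ) : ℚ_[p])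

theorem castF_ratF (x : Frm ℤ r N) : castF ℚ_[p] (ratF x) = padF p x := by
  funext i a j
  simp [castF, ratF, padF]

theorem castW_ratW (x : W → ℤ) : castW ℚ_[p] (ratW x) = padW p x := by
  funext w
  simp [castW, ratW, padW]

/-- the compact set of integral pairs -/
def padicSet (r N : Fin k → ℕ) (W : Type) [Fintype W] : Set (Frm ℚ_[p] r N × (W → ℚ_[p])) :=
  {x | (‖x.1‖ ≤ 1 ∧ ‖x.2‖ ≤ 1) ∧ (∀ i, ∃ s, ‖minor (x.1 i) s‖ = 1) ∧ ∃ w, ‖x.2 w‖ = 1}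

theorem isCompact_padicSet : IsCompact (padicSet p r N W) := by
  have h1 : IsCompact ((closedBall (0 : Frm ℚ_[p] r N) 1) ×ˢ
      (closedBall (0 : W → ℚ_[p]) 1)) :=
    (isCompact_closedBall _ _).prod (isCompact_closedBall _ _)
  have h2 : IsClosed {x : Frm ℚ_[p] r N × (W → ℚ_[p]) |
      ∀ i, ∃ s, ‖minor (x.1 i) s‖ = 1} := by
    have : {x : Frm ℚ_[p] r N × (W → ℚ_[p]) | ∀ i, ∃ s, ‖minor (x.1 i) s‖ = 1} =
        ⋂ i, ⋃ s, {x | ‖minor (x.1 i) s‖ = 1} := by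
      ext x; simp
    rw [this]
    refine isClosed_iInter fun i => isClosed_iUnion_of_finite fun s => ?_
    refine isClosed_eq ?_ continuous_const
    refine continuous_norm.comp ?_
    unfold minor
    refine Continuous.matrix_det ?_
    refine continuous_matrix fun a b => ?_
    simp only [Matrix.of_apply]
    fun_prop
  have h3 : IsClosed {x : Frm ℚ_[p] r N × (W → ℚ_[p]) | ∃ w, ‖x.2 w‖ = 1} := by
    have : {x : Frm ℚ_[p] r N × (W → ℚ_[p]) | ∃ w, ‖x.2 w‖ = 1} =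
        ⋃ w, {x | ‖x.2 w‖ = 1} := by
      ext x; simp
    rw [this]
    refine isClosed_iUnion_of_finite fun w => ?_
    refine isClosed_eq ?_ continuous_const
    fun_prop
  have : padicSet p r N W = ((closedBall (0 : Frm ℚ_[p] r N) 1) ×ˢ
      (closedBall (0 : W → ℚ_[p]) 1)) ∩ ({x | ∀ i, ∃ s, ‖minor (x.1 i) s‖ = 1} ∩
        {x | ∃ w, ‖x.2 w‖ = 1}) := by
    ext x
    simp only [padicSet, mem_ofPred_eq, mem_inter_iff, mem_prod, mem_closedBall_zero_iff]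
  rw [this]
  exact h1.inter_right (h2.inter h3)

theorem padicSet_subset : padicSet p r N W ⊆ {x | AllFrame x.1 ∧ x.2 ≠ 0} := by
  rintro x ⟨_, h1, ⟨w, hw⟩⟩
  refine ⟨fun i => ?_, ?_⟩
  · obtain ⟨s, hs⟩ := h1 i
    refine ⟨s, ?_⟩
    intro h0
    rw [h0, norm_zero] at hs
    exact zero_ne_one hs
  · intro h0
    rw [h0] at hw
    simp at hw

theorem norm_padF_le (x : Frm ℤ r N) : ‖padF p x‖ ≤ 1 := by
  rw [pi_norm_le_iff_of_nonneg zero_le_one]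
  intro i
  rw [pi_norm_le_iff_of_nonneg zero_le_one]
  intro a
  rw [pi_norm_le_iff_of_nonneg zero_le_one]
  intro j
  exact Padic.norm_int_le_one _

theorem norm_padW_le (x : W → ℤ) : ‖padW p x‖ ≤ 1 := by
  rw [pi_norm_le_iff_of_nonneg zero_le_one]
  intro w
  exact Padic.norm_int_le_one _

theorem norm_int_eq_one {n : ℤ} (h : ¬ (p:ℤ) ∣ n) : ‖((n:ℤ) : ℚ_[p])‖ = 1 := by
  have h1 : ((n:ℤ) : ℚ_[p]) = (((n:ℤ) : ℚ) : ℚ_[p]) := by push_cast; rfl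
  rw [h1, Padic.eq_padicNorm, (padicNorm.int_eq_one_iff n).2 h, Rat.cast_one]

theorem minor_padF (Z : Frm ℤ r N) (i : Fin k) (s : Fin (r i) → Fin (N i)) :
    minor (padF p Z i) s = ((minor (Z i) s : ℤ) : ℚ_[p]) :=
  minor_map (Int.castRingHom ℚ_[p]) (Z i) s

theorem mem_padicSet {Z : Frm ℤ r N} {A : W → ℤ} (hZ : SatF Z) (hA : PrimW A) :
    ((padF p Z, padW p A) : Frm ℚ_[p] r N × (W → ℚ_[p])) ∈ padicSet p r N W := by
  have hp : p.Prime := Fact.out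
  obtain ⟨w, hw⟩ := hA p hp
  refine ⟨⟨norm_padF_le p Z, norm_padW_le p A⟩, fun i => ?_, ⟨w, norm_int_eq_one p hw⟩⟩
  obtain ⟨s, hs⟩ := hZ i p hp
  refine ⟨s, ?_⟩
  simp only
  rw [minor_padF]
  exact norm_int_eq_one p hs

theorem norm_sub_padF {x y : Frm ℤ r N} {e : ℕ} (h : CongF (p ^ e) x y) :
    ‖padF p x - padF p y‖ ≤ (p:ℝ) ^ (-(e:ℤ)) := by
  rw [pi_norm_le_iff_of_nonneg (by positivity)]
  intro i
  rw [pi_norm_le_iff_of_nonneg (by positivity)]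
  intro a
  rw [pi_norm_le_iff_of_nonneg (by positivity)]
  intro j
  have h1 : (padF p x - padF p y) i a j = (((x i a j - y i a j : ℤ)) : ℚ_[p]) := by
    simp [padF]
  rw [h1, Padic.norm_int_le_pow_iff_dvd]
  have := h i a j
  exact_mod_cast this

theorem norm_sub_padW {x y : W → ℤ} {e : ℕ} (h : CongW (p ^ e) x y) :
    ‖padW p x - padW p y‖ ≤ (p:ℝ) ^ (-(e:ℤ)) := by
  rw [pi_norm_le_iff_of_nonneg (by positivity)]
  intro w
  have h1 : (padW p x - padW p y) w = (((x w - y w : ℤ)) : ℚ_[p]) := by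
    simp [padW]
  rw [h1, Padic.norm_int_le_pow_iff_dvd]
  have := h w
  exact_mod_cast this

theorem tame_local {M : Frm ℚ_[p] r N → (W → ℚ_[p]) → ℝ} (hM : IsLocalNorm ℚ_[p] N ρ M) :
    ∃ f0 f1 : ℝ, Tame (fun (Z : Frm ℤ r N) (A : W → ℤ) => M (padF p Z) (padW p A)) f0 f1 := by
  have hp : p.Prime := Fact.out
  have hc := isCompact_padicSet p (r := r) (N := N) (W := W)
  have hcont : ContinuousOn (fun x : Frm ℚ_[p] r N × (W → ℚ_[p]) => M x.1 x.2)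
      (padicSet p r N W) := hM.cont.mono (padicSet_subset p)
  obtain ⟨f0, f1, h0, h01, hb⟩ : ∃ f0 f1 : ℝ, 0 < f0 ∧ f0 ≤ f1 ∧ ∀ x ∈ padicSet p r N W,
      f0 ≤ M x.1 x.2 ∧ M x.1 x.2 ≤ f1 := by
    rcases (padicSet p r N W).eq_empty_or_nonempty with hE | hne
    · refine ⟨1, 1, one_pos, le_rfl, ?_⟩
      intro x hx
      rw [hE] at hx
      exact absurd hx (Set.notMem_empty _)
    · obtain ⟨x0, hx0, hmin⟩ := hc.exists_isMinOn hne hcont
      obtain ⟨x1, hx1, hmax⟩ := hc.exists_isMaxOn hne hcont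
      have hpos := hM.pos x0.1 x0.2 (padicSet_subset p hx0).1 (padicSet_subset p hx0).2
      exact ⟨_, _, hpos, hmin hx1, fun x hx => ⟨hmin hx, hmax hx⟩⟩
  refine ⟨f0, f1, h0, h01, ?_, ?_, ?_⟩
  · intro Z A hZ hA
    exact (hb _ (mem_padicSet p hZ hA)).1
  · intro Z A hZ hA
    exact (hb _ (mem_padicSet p hZ hA)).2
  · intro ε hε
    have huc := hc.uniformContinuousOn_of_continuous hcont
    rw [Metric.uniformContinuousOn_iff] at huc
    obtain ⟨δ, hδ, hδ2⟩ := huc (ε * f0) (by positivity)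
    obtain ⟨e, he⟩ : ∃ e : ℕ, (p:ℝ) ^ (-(e:ℤ)) < δ := by
      have h1 : (1:ℝ) < p := by exact_mod_cast hp.one_lt
      obtain ⟨e, he⟩ := exists_pow_lt_of_lt_one hδ (inv_lt_one_of_one_lt₀ h1)
      refine ⟨e, ?_⟩
      rw [zpow_neg, zpow_natCast, ← inv_pow]
      exact he
    refine ⟨p ^ e, pow_pos hp.pos e, ?_⟩
    intro Z A Z' A' hZ hA hZ' hA' hc1 hc2
    have m1 := mem_padicSet p hZ hA
    have m2 := mem_padicSet p hZ' hA'
    have hd : dist ((padF p Z, padW p A) : Frm ℚ_[p] r N × (W → ℚ_[p]))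
        (padF p Z', padW p A') < δ := by
      rw [Prod.dist_eq, max_lt_iff, dist_eq_norm, dist_eq_norm]
      exact ⟨(norm_sub_padF p hc1).trans_lt he, (norm_sub_padW p hc2).trans_lt he⟩
    have h3 := hδ2 _ m1 _ m2 hd
    rw [Real.dist_eq] at h3
    have h4 := (abs_lt.1 h3).2
    have h5 := (hb _ m2).1
    simp only at h4 h5 ⊢
    nlinarith

end padic

/-- the finite part of the height -/
noncomputable def AdelicNorm.ff (h : AdelicNorm N ρ.toRepData) (Z : Frm ℤ r N) (A : W → ℤ) : ℝ :=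
  ∏ᶠ p : Nat.Primes, h.fin p (padF (p:ℕ) Z) (padW (p:ℕ) A)

theorem AdelicNorm.tame (h : AdelicNorm N ρ.toRepData) : ∃ f0 f1, Tame h.ff f0 f1 := by
  obtain ⟨S, hS⟩ := h.almost
  have key : ∀ T : Finset Nat.Primes, ∃ f0 f1, Tame (fun (Z : Frm ℤ r N) (A : W → ℤ) =>
      ∏ p ∈ T, h.fin p (padF (p:ℕ) Z) (padW (p:ℕ) A)) f0 f1 := by
    intro T
    induction T using Finset.induction_on with
    | empty => exact ⟨1, 1, by simpa using Tame.one⟩
    | insert a T ha ih =>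
      obtain ⟨f0, f1, hf⟩ := ih
      obtain ⟨g0, g1, hg⟩ := tame_local (a:ℕ) (h.isNorm_fin a)
      refine ⟨g0 * f0, g1 * f1, ?_⟩
      refine (hg.mul hf).congr ?_
      intro Z A _ _
      rw [Finset.prod_insert ha]
  obtain ⟨f0, f1, hf⟩ := key S
  refine ⟨f0, f1, hf.congr ?_⟩
  intro Z A hZ hA
  rw [AdelicNorm.ff, finprod_eq_prod_of_mulSupport_subset]
  intro p hp
  rw [Function.mem_mulSupport] at hp
  rw [Finset.mem_coe]
  by_contra hpS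
  apply hp
  obtain ⟨⟨_, _⟩, h3, ⟨w, hw⟩⟩ := mem_padicSet (p:ℕ) hZ hA
  have hA0 : padW (p:ℕ) A ≠ 0 := (padicSet_subset (p:ℕ) (mem_padicSet (p:ℕ) hZ hA)).2
  have h4 := hS p hpS (padF (p:ℕ) Z) (padW (p:ℕ) A) (fun i a j => Padic.norm_int_le_one _) h3 hA0
  have h5 : ‖padW (p:ℕ) A‖ = 1 :=
    norm_W_eq_one (x := padW (p:ℕ) A) (fun w => Padic.norm_int_le_one _) hw
  rw [h4, h5, one_pow]

theorem AdelicNorm.height_ofInt (h : AdelicNorm N ρ.toRepData) (Z : Frm ℤ r N) (A : W → ℤ)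
    (hZ : AllFrame Z) (hA : A ≠ 0) :
    h.height (ofInt Z A hZ hA) = h.inf (realF Z) (realW A) * h.ff Z A := by
  have e1 : castF ℝ (ratF Z) = realF Z := by
    funext i a j
    simp [castF, ratF, realF]
  have e2 : castW ℝ (ratW A) = realW A := by
    funext w
    simp [castW, ratW, realW]
  have e3 : h.height (ofInt Z A hZ hA) = h.inf (castF ℝ (ratF Z)) (castW ℝ (ratW A)) *
    ∏ᶠ p : Nat.Primes, h.fin p (castF ℚ_[(p : ℕ)] (ratF Z)) (castW ℚ_[(p : ℕ)] (ratW A)) := rfl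
  rw [e3, e1, e2, AdelicNorm.ff]
  simp only [castF_ratF, castW_ratW]

end Pool.Agent.Lib.MP_1acd66_nt.Gen
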