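import Pool.Agent.Lib.MP_1acd66_nt.Gen.Latt

/-! Saturated frames, sublattices of prime index, residues. -/

set_option linter.unusedSectionVars false

namespace Pool.Agent.Lib.MP_1acd66_nt.Gen

open Finset

variable {r N : ℕ}

/-- saturated frames -/
def SatZ (Z : Fin r → Fin N → ℤ) : Prop := ∀ p : ℕ, p.Prime → ∃ s, ¬ (p:ℤ) ∣ minor Z s

/-- frames that are not saturated at `p` -/
def NonSatAt (p : ℕ) (Z : Fin r → Fin N → ℤ) : Prop := ∀ s, (p:ℤ) ∣ minor Z s

theorem SatZ.isFrame {Z : Fin r → Fin N → ℤ} (h : SatZ Z) : IsFrame Z := by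
  obtain ⟨s, hs⟩ := h 2 Nat.prime_two
  exact ⟨s, fun h0 => hs (by rw [h0]; exact dvd_zero _)⟩

theorem satZ_iff {Z : Fin r → Fin N → ℤ} : SatZ Z ↔ ∀ p : ℕ, p.Prime → ¬ NonSatAt p Z := by
  simp only [SatZ, NonSatAt, not_forall]

theorem SatZ.rowOp {Z : Fin r → Fin N → ℤ} (hZ : SatZ Z) {g : Matrix (Fin r) (Fin r) ℤ}
    (hg : IsUnit g.det) : SatZ (rowOp g Z) := by
  intro p hp
  obtain ⟨s, hs⟩ := hZ p hp
  refine ⟨s, ?_⟩
  rw [minor_rowOp]
  intro hdvd
  exact hs ((hg.dvd_mul_left).1 hdvd)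

/-- congruent frames have congruent minors -/
theorem minor_congr {q : ℕ} {Z Z' : Fin r → Fin N → ℤ} (h : ∀ a j, (q:ℤ) ∣ Z a j - Z' a j)
    (s : Fin r → Fin N) : (q:ℤ) ∣ minor Z s - minor Z' s := by
  rw [← ZMod.intCast_zmod_eq_zero_iff_dvd, Int.cast_sub, sub_eq_zero]
  have e : ∀ V : Fin r → Fin N → ℤ, ((minor V s : ℤ) : ZMod q) =
      minor (fun a j => ((V a j : ℤ) : ZMod q)) s := by
    intro V
    have := minor_map (Int.castRingHom (ZMod q)) V s
    simpa using this.symm
  rw [e, e]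
  congr 1
  funext a j
  have := h a j
  rw [← ZMod.intCast_zmod_eq_zero_iff_dvd, Int.cast_sub, sub_eq_zero] at this
  exact this

theorem NonSatAt.congr {p q : ℕ} (hpq : p ∣ q) {Z Z' : Fin r → Fin N → ℤ}
    (h : ∀ a j, (q:ℤ) ∣ Z a j - Z' a j) (hZ : NonSatAt p Z) : NonSatAt p Z' := by
  intro s
  have h1 : (p:ℤ) ∣ minor Z s - minor Z' s :=
    minor_congr (fun a j => (Int.natCast_dvd_natCast.2 hpq).trans (h a j)) s
  have h2 : minor Z' s = minor Z s - (minor Z s - minor Z' s) := by ring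
  rw [h2]
  exact dvd_sub (hZ s) h1

/-- indices of the sublattices of index `p` -/
noncomputable def HI (r p : ℕ) : Finset (Fin r × (Fin r → ℤ)) :=
  Finset.univ.biUnion (fun a : Fin r => ({a} : Finset (Fin r)) ×ˢ
    Fintype.piFinset (fun b : Fin r => if b < a then Finset.Ico (0:ℤ) p else {0}))

theorem mem_HI {p : ℕ} {x : Fin r × (Fin r → ℤ)} :
    x ∈ HI r p ↔ ∀ b, (b < x.1 → 0 ≤ x.2 b ∧ x.2 b < p) ∧ (¬ b < x.1 → x.2 b = 0) := by
  rw [HI, Finset.mem_biUnion]
  constructor
  · rintro ⟨a, _, h⟩ b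
    rw [Finset.mem_product, Finset.mem_singleton, Fintype.mem_piFinset] at h
    obtain ⟨h1, h2⟩ := h
    have h3 := h2 b
    rw [h1]
    split_ifs at h3 with hb
    · exact ⟨fun _ => Finset.mem_Ico.1 h3, fun h => absurd hb h⟩
    · exact ⟨fun h => absurd h hb, fun _ => Finset.mem_singleton.1 h3⟩
  · intro h
    refine ⟨x.1, Finset.mem_univ _, ?_⟩
    rw [Finset.mem_product, Finset.mem_singleton, Fintype.mem_piFinset]
    refine ⟨rfl, fun b => ?_⟩
    split_ifs with hb
    · exact Finset.mem_Ico.2 ((h b).1 hb)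
    · exact Finset.mem_singleton.2 ((h b).2 hb)

theorem card_HI_le (r p : ℕ) : (HI r p).card ≤ ∑ a ∈ Finset.range r, p ^ a := by
  refine (Finset.card_biUnion_le).trans ?_
  rw [← Fin.sum_univ_eq_sum_range]
  refine Finset.sum_le_sum fun a _ => ?_
  rw [Finset.card_product, Finset.card_singleton, one_mul, Fintype.card_piFinset]
  have : ∀ b : Fin r, (if b < a then Finset.Ico (0:ℤ) p else {0}).card =
      if b < a then p else 1 := by
    intro b
    split_ifs
    · simp
    · simp
  rw [Finset.prod_congr rfl fun b _ => this b, Finset.prod_ite, Finset.prod_const,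
    Finset.prod_const_one, mul_one]
  apply le_of_eq
  congr 1
  have : Finset.univ.filter (fun b : Fin r => b < a) = Finset.Iio a := by
    ext b; simp
  rw [this, Fin.card_Iio]

/-- vectors which are dependent modulo `p` -/
theorem nonsat_cases {p : ℕ} (hp : p.Prime) {Z : Fin r → Fin N → ℤ} (hZ : NonSatAt p Z) :
    ∃ x ∈ HI r p, ∀ j, (p:ℤ) ∣ Z x.1 j - ∑ b, x.2 b * Z b j := by
  have : Fact p.Prime := ⟨hp⟩
  set Zp : Fin r → Fin N → ZMod p := fun a j => ((Z a j : ℤ) : ZMod p) with hZp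
  have hnf : ¬ IsFrame Zp := by
    rintro ⟨s, hs⟩
    apply hs
    have h1 := minor_map (Int.castRingHom (ZMod p)) Z s
    have h2 : minor Zp s = ((minor Z s : ℤ) : ZMod p) := by simpa using h1
    rw [h2, ZMod.intCast_zmod_eq_zero_iff_dvd]
    exact hZ s
  rw [isFrame_iff, Fintype.not_linearIndependent_iff] at hnf
  obtain ⟨c, hc, a0, ha0⟩ := hnf
  -- the last nonzero coefficient
  obtain ⟨a, ha, hmax⟩ := Finset.exists_max_image (Finset.univ.filter (fun a => c a ≠ 0)) id
    ⟨a0, by simp [ha0]⟩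
  have hca : c a ≠ 0 := (Finset.mem_filter.1 ha).2
  have hgt : ∀ b, a < b → c b = 0 := by
    intro b hb
    by_contra hcb
    have := hmax b (by simp [hcb])
    exact absurd (lt_of_lt_of_le hb this) (lt_irrefl _)
  set l : Fin r → ℤ := fun b => if b < a then (((-(c b) / c a : ZMod p)).val : ℤ) else 0 with hl
  refine ⟨(a, l), ?_, ?_⟩
  · rw [mem_HI]
    intro b
    refine ⟨fun hb => ?_, fun hb => ?_⟩
    · simp only at hb
      simp only [hl, hb, if_true]
      exact ⟨Int.natCast_nonneg _, by exact_mod_cast ZMod.val_lt _⟩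
    · simp only at hb
      simp only [hl, hb, if_false]
  · intro j
    rw [← ZMod.intCast_zmod_eq_zero_iff_dvd]
    push_cast
    have h1 : ∑ b, c b * Zp b j = 0 := by
      have := congrFun hc j
      simpa using this
    have h2 : ∀ b, ((l b : ℤ) : ZMod p) * Zp b j = if b < a then (-(c b) / c a) * Zp b j else 0 := by
      intro b
      simp only [hl]
      split_ifs
      · push_cast
        rw [ZMod.natCast_zmod_val]
      · simp
    have h3 : ∑ b, ((l b : ℤ) : ZMod p) * ((Z b j : ℤ) : ZMod p) = Zp a j := by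
      have e1 : ∑ b, ((l b : ℤ) : ZMod p) * ((Z b j : ℤ) : ZMod p) =
          ∑ b, ((l b : ℤ) : ZMod p) * Zp b j := rfl
      rw [e1, Finset.sum_congr rfl fun b _ => h2 b]
      have h4 : ∑ b, (if b < a then (-(c b) / c a) * Zp b j else 0) =
          -(c a)⁻¹ * ∑ b, (if b < a then c b * Zp b j else 0) := by
        rw [Finset.mul_sum]
        refine Finset.sum_congr rfl fun b _ => ?_
        split_ifs
        · field_simp
        · simp
      rw [h4]
      have h5 : ∑ b, c b * Zp b j = ∑ b, (if b < a then c b * Zp b j else 0) + c a * Zp a j := by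
        have h6 : ∀ b, c b * Zp b j = (if b < a then c b * Zp b j else 0) +
            (if b = a then c a * Zp a j else 0) := by
          intro b
          rcases lt_trichotomy b a with h | h | h
          · simp [h, h.ne]
          · simp [h]
          · simp [hgt b h, not_lt.2 h.le, h.ne']
        rw [Finset.sum_congr rfl fun b _ => h6 b, Finset.sum_add_distrib]
        simp
      rw [h1] at h5
      have h7 : ∑ b, (if b < a then c b * Zp b j else 0) = -(c a * Zp a j) :=
        eq_neg_of_add_eq_zero_left h5.symm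
      rw [h7]
      field_simp
    rw [h3]
    simp [hZp]

/-- elementary matrices of determinant `p`, row version -/
def hnfR (p : ℕ) (x : Fin r × (Fin r → ℤ)) : Matrix (Fin r) (Fin r) ℤ :=
  (1 : Matrix (Fin r) (Fin r) ℤ).updateRow x.1 (fun j => if j = x.1 then (p:ℤ) else x.2 j)

theorem det_updateRow_one (a : Fin r) (v : Fin r → ℤ) :
    ((1 : Matrix (Fin r) (Fin r) ℤ).updateRow a v).det = v a := by
  have e := Matrix.det_updateRow_sum (1 : Matrix (Fin r) (Fin r) ℤ) a v
  rw [Matrix.det_one, smul_eq_mul, mul_one] at e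
  rw [← e]
  congr 2
  funext l
  simp [Matrix.one_apply]

theorem det_hnfR (p : ℕ) (x : Fin r × (Fin r → ℤ)) : (hnfR p x).det = p := by
  rw [hnfR, det_updateRow_one]
  simp

/-- A frame that is not saturated at `p` comes from a lattice containing it with index `p`. -/
theorem exists_super {p : ℕ} (hp : p.Prime) {Z : Fin r → Fin N → ℤ} (hZ : NonSatAt p Z) :
    ∃ (h : Matrix (Fin r) (Fin r) ℤ) (V : Fin r → Fin N → ℤ), h.det = p ∧ Z = rowOp h V := by
  obtain ⟨x, hx, hdiv⟩ := nonsat_cases hp hZ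
  choose y hy using hdiv
  have hxa : x.2 x.1 = 0 := (mem_HI.1 hx x.1).2 (lt_irrefl _)
  refine ⟨hnfR p x, fun b j => if b = x.1 then y j else Z b j, det_hnfR p x, ?_⟩
  funext b j
  by_cases hb : b = x.1
  · subst hb
    simp only [rowOp, hnfR, Matrix.updateRow_self]
    have h1 : ∀ c : Fin r, (if c = x.1 then (p:ℤ) else x.2 c) *
        (if c = x.1 then y j else Z c j) = (if c = x.1 then (p:ℤ) * y j else 0) +
          x.2 c * Z c j := by
      intro c
      by_cases hc : c = x.1
      · simp [hc, hxa]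
      · simp [hc]
    rw [Finset.sum_congr rfl fun c _ => h1 c, Finset.sum_add_distrib]
    rw [Finset.sum_ite_eq' Finset.univ x.1 (fun _ => (p:ℤ) * y j)]
    simp only [Finset.mem_univ, if_true]
    have := hy j
    linarith
  · simp only [rowOp, hnfR, Matrix.updateRow_ne hb]
    rw [Finset.sum_eq_single b]
    · simp [hb]
    · intro c _ hc
      rw [Matrix.one_apply_ne hc.symm, zero_mul]
    · simp

/-- representatives of the integral matrices of determinant `± p` -/
def hnfC (p : ℕ) (x : Fin r × (Fin r → ℤ)) : Matrix (Fin r) (Fin r) ℤ := (hnfR p x).transpose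

theorem det_hnfC (p : ℕ) (x : Fin r × (Fin r → ℤ)) : (hnfC p x).det = p := by
  rw [hnfC, Matrix.det_transpose, det_hnfR]

theorem exists_hnf {p : ℕ} (hp : p.Prime) (h : Matrix (Fin r) (Fin r) ℤ)
    (hdet : |h.det| = p) : ∃ x ∈ HI r p, ∃ g : Matrix (Fin r) (Fin r) ℤ,
      IsUnit g.det ∧ h = g * hnfC p x := by
  have hns : NonSatAt p (fun a b => h b a : Fin r → Fin r → ℤ) := by
    intro s
    have h1 : minor (fun a b => h b a : Fin r → Fin r → ℤ) s =
        h.transpose.det * ((1 : Matrix (Fin r) (Fin r) ℤ).submatrix id s).det := by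
      rw [← Matrix.det_mul, minor]
      congr 1
      ext a b
      rw [Matrix.mul_apply, Finset.sum_eq_single (s b)]
      · simp [Matrix.one_apply]
      · intro c _ hc
        simp [hc]
      · simp
    rw [h1, Matrix.det_transpose]
    refine Dvd.dvd.mul_right ?_ _
    rw [← hdet]
    exact (abs_dvd _ _).2 dvd_rfl
  obtain ⟨x, hx, hdiv⟩ := nonsat_cases hp hns
  choose y hy using hdiv
  have hxa : x.2 x.1 = 0 := (mem_HI.1 hx x.1).2 (lt_irrefl _)
  set g : Matrix (Fin r) (Fin r) ℤ := fun i j => if j = x.1 then y i else h i j with hg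
  have hmul : h = g * hnfC p x := by
    ext i j
    rw [Matrix.mul_apply]
    by_cases hj : j = x.1
    · subst hj
      have h1 : ∀ c : Fin r, g i c * hnfC p x c x.1 =
          (if c = x.1 then (p:ℤ) * y i else 0) + x.2 c * h i c := by
        intro c
        simp only [hnfC, hnfR, Matrix.transpose_apply, Matrix.updateRow_self, hg]
        by_cases hc : c = x.1
        · simp [hc, hxa, mul_comm]
        · simp [hc, mul_comm]
      rw [Finset.sum_congr rfl fun c _ => h1 c, Finset.sum_add_distrib,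
        Finset.sum_ite_eq' Finset.univ x.1 (fun _ => (p:ℤ) * y i)]
      simp only [Finset.mem_univ, if_true]
      have := hy i
      linarith
    · rw [Finset.sum_eq_single j]
      · simp only [hnfC, hnfR, Matrix.transpose_apply, Matrix.updateRow_ne hj, hg, if_neg hj]
        simp
      · intro c _ hc
        simp only [hnfC, hnfR, Matrix.transpose_apply, Matrix.updateRow_ne hj]
        rw [Matrix.one_apply_ne hc.symm, mul_zero]
      · simp
  refine ⟨x, hx, g, ?_, hmul⟩
  have h2 : |g.det| * p = p := by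
    have h3 : |h.det| = |g.det| * |(hnfC p x).det| := by
      conv_lhs => rw [hmul, Matrix.det_mul, abs_mul]
    rw [hdet, det_hnfC, Nat.abs_cast] at h3
    exact h3.symm
  have hp0 : (p:ℤ) ≠ 0 := by exact_mod_cast hp.ne_zero
  rw [Int.isUnit_iff_abs_eq]
  exact mul_right_cancel₀ hp0 (by rw [h2, one_mul])

/-- `1 + p + ... + p ^ (r - 1)` -/
noncomputable def gs (r p : ℕ) : ℝ := ∑ a ∈ Finset.range r, (p:ℝ) ^ a

theorem gs_nonneg (r p : ℕ) : 0 ≤ gs r p := Finset.sum_nonneg fun _ _ => by positivity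

theorem gs_mul_le {p : ℕ} (hp : 2 ≤ p) (hrN : r < N) :
    gs r p * ((p:ℝ) ^ N)⁻¹ ≤ ((p:ℝ) * (p - 1))⁻¹ := by
  have hp' : (2:ℝ) ≤ p := by exact_mod_cast hp
  have h1 : gs r p * ((p:ℝ) - 1) = (p:ℝ) ^ r - 1 := by
    rw [gs]; exact geom_sum_mul _ _
  have h2 : (p:ℝ) ^ (r + 1) ≤ (p:ℝ) ^ N := pow_le_pow_right₀ (by linarith) hrN
  have hpN : (0:ℝ) < (p:ℝ) ^ N := by positivity
  have hp1 : (0:ℝ) < (p:ℝ) - 1 := by linarith
  rw [← div_eq_mul_inv, div_le_iff₀ hpN, inv_mul_eq_div, le_div_iff₀ (by positivity)]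
  calc gs r p * ((p:ℝ) * (p - 1)) = p * (gs r p * ((p:ℝ) - 1)) := by ring
    _ = p * ((p:ℝ) ^ r - 1) := by rw [h1]
    _ ≤ (p:ℝ) ^ (r + 1) := by rw [pow_succ]; nlinarith
    _ ≤ _ := h2

theorem wt_sum_det (hr : 0 < r) {t : ℝ} (ht : 0 < t) {p : ℕ} (hp : p.Prime)
    (Z : Fin r → Fin N → ℝ)
    (J : Finset (Matrix (Fin r) (Fin r) ℤ)) (hJ : ∀ h ∈ J, |h.det| = p) :
    ∑ h ∈ J, wt t (rowOp (castM h) Z) ≤ gs r p := by
  classical
  have hex : ∀ h ∈ J, ∃ i ∈ HI r p, ∃ g : Matrix (Fin r) (Fin r) ℤ,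
      IsUnit g.det ∧ h = g * hnfC p i := fun h hh => exists_hnf hp h (hJ h hh)
  have hne : Nonempty (Fin r × (Fin r → ℤ)) := ⟨(⟨0, hr⟩, 0)⟩
  choose! I hI G hG1 hG2 using hex
  rw [← Finset.sum_fiberwise_of_maps_to hI]
  calc ∑ i ∈ HI r p, ∑ h ∈ J with I h = i, wt t (rowOp (castM h) Z)
      ≤ ∑ i ∈ HI r p, (1:ℝ) := by
        refine Finset.sum_le_sum ?_
        intro i _
        have hinj : Set.InjOn G (J.filter (fun h => I h = i)) := by
          intro h hh h' hh' hGG
          obtain ⟨a1, a2⟩ := Finset.mem_filter.1 hh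
          obtain ⟨b1, b2⟩ := Finset.mem_filter.1 hh'
          rw [hG2 h a1, hG2 h' b1, hGG, a2, b2]
        have e : ∑ h ∈ J with I h = i, wt t (rowOp (castM h) Z) =
            ∑ g ∈ (J.filter (fun h => I h = i)).image G,
              wt t (rowOp (castM g) (rowOp (castM (hnfC p i)) Z)) := by
          rw [Finset.sum_image hinj]
          refine Finset.sum_congr rfl ?_
          intro h hh
          obtain ⟨a1, a2⟩ := Finset.mem_filter.1 hh
          rw [← rowOp_mul, ← castM_mul]
          congr 3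
          rw [← a2]
          exact hG2 h a1
        rw [e]
        refine wt_sum_le_one hr ht _ _ ?_
        intro g hg
        obtain ⟨h, hh, rfl⟩ := Finset.mem_image.1 hg
        exact hG1 h (Finset.mem_filter.1 hh).1
    _ ≤ gs r p := by
        rw [Finset.sum_const, nsmul_eq_mul, mul_one, gs]
        exact_mod_cast card_HI_le r p

theorem isFrame_of_rowOp {h : Matrix (Fin r) (Fin r) ℤ} {Z : Fin r → Fin N → ℤ}
    (hZ : IsFrame (rowOp h Z)) : IsFrame Z := by
  obtain ⟨s, hs⟩ := hZ
  refine ⟨s, ?_⟩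
  rw [minor_rowOp] at hs
  exact right_ne_zero_of_mul hs

/-! ### Residues -/

open scoped Classical

/-- the set of reduced residues, for one frame -/
noncomputable def RS (r N q : ℕ) : Finset (Fin r → Fin N → ℤ) :=
  Fintype.piFinset (fun _ => Fintype.piFinset (fun _ => Finset.Ico (0:ℤ) q))

theorem mem_RS {q : ℕ} {x : Fin r → Fin N → ℤ} : x ∈ RS r N q ↔ ∀ i j, 0 ≤ x i j ∧ x i j < q := by
  simp only [RS, Fintype.mem_piFinset, Finset.mem_Ico]

theorem card_RS (r N q : ℕ) : (RS r N q).card = q ^ (r * N) := by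
  simp [RS, Fintype.card_piFinset, ← pow_mul, mul_comm]

/-- integers in `[0, p s)` in a class modulo `p` -/
theorem card_class {p s : ℕ} (hp : 0 < p) (c : ℤ) :
    ((Finset.Ico (0:ℤ) ((p * s : ℕ) : ℤ)).filter (fun y => (p:ℤ) ∣ y - c)).card ≤ s := by
  have hp' : (0:ℤ) < p := by exact_mod_cast hp
  have hinj : Set.InjOn (fun y : ℤ => y / p)
      ((Finset.Ico (0:ℤ) ((p * s : ℕ) : ℤ)).filter (fun y => (p:ℤ) ∣ y - c)) := by
    intro y hy z hz hyz
    have h1 := (Finset.mem_filter.1 hy).2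
    have h2 := (Finset.mem_filter.1 hz).2
    have h3 : (p:ℤ) ∣ y - z := by
      have := dvd_sub h1 h2
      simpa using this
    have h4 : y % p = z % p := Int.emod_eq_emod_iff_emod_sub_eq_zero.2 (Int.emod_eq_zero_of_dvd h3)
    have h5 : y / p = z / p := hyz
    rw [← Int.mul_ediv_add_emod y p, ← Int.mul_ediv_add_emod z p, h4, h5]
  rw [← Finset.card_image_of_injOn hinj]
  have hsub : ((Finset.Ico (0:ℤ) ((p * s : ℕ) : ℤ)).filter (fun y => (p:ℤ) ∣ y - c)).image
      (fun y : ℤ => y / p) ⊆ Finset.Ico (0:ℤ) s := by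
    intro x hx
    obtain ⟨y, hy, rfl⟩ := Finset.mem_image.1 hx
    have h1 := Finset.mem_Ico.1 (Finset.mem_filter.1 hy).1
    rw [Finset.mem_Ico]
    refine ⟨Int.ediv_nonneg h1.1 hp'.le, ?_⟩
    apply Int.ediv_lt_of_lt_mul hp'
    have := h1.2
    push_cast at this
    linarith
  have := Finset.card_le_card hsub
  simpa using this

/-- vectors modulo `p s` satisfying a linear relation modulo `p` -/
theorem card_relation {p s : ℕ} (hp : 0 < p) (a : Fin r) (l : Fin r → ℤ) (hl : l a = 0) :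
    ((Fintype.piFinset (fun _ : Fin r => Finset.Ico (0:ℤ) ((p * s : ℕ) : ℤ))).filter
      (fun x => (p:ℤ) ∣ x a - ∑ b, l b * x b)).card ≤ (p * s) ^ (r - 1) * s := by
  classical
  set q := p * s with hq
  have hp' : (0:ℤ) < p := by exact_mod_cast hp
  set F := (Fintype.piFinset (fun _ : Fin r => Finset.Ico (0:ℤ) (q : ℤ))).filter
      (fun x => (p:ℤ) ∣ x a - ∑ b, l b * x b) with hF
  have hsum : ∀ x : Fin r → ℤ, ∑ b, l b * (Function.update x a 0) b = ∑ b, l b * x b := by
    intro x
    refine Finset.sum_congr rfl fun b _ => ?_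
    by_cases hb : b = a
    · rw [hb, hl, zero_mul, zero_mul]
    · rw [Function.update_of_ne hb]
  have hinj : Set.InjOn (fun x : Fin r → ℤ => (Function.update x a 0, x a / p)) F := by
    intro x hx y hy hxy
    simp only [Prod.mk.injEq] at hxy
    obtain ⟨h1, h2⟩ := hxy
    have hx2 := (Finset.mem_filter.1 hx).2
    have hy2 := (Finset.mem_filter.1 hy).2
    have hs : ∑ b, l b * x b = ∑ b, l b * y b := by rw [← hsum x, ← hsum y, h1]
    rw [hs] at hx2
    have h3 : (p:ℤ) ∣ x a - y a := by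
      have := dvd_sub hx2 hy2
      simpa using this
    have h4 : x a % p = y a % p := Int.emod_eq_emod_iff_emod_sub_eq_zero.2 (Int.emod_eq_zero_of_dvd h3)
    have h5 : x a = y a := by
      rw [← Int.mul_ediv_add_emod (x a) p, ← Int.mul_ediv_add_emod (y a) p, h4, h2]
    funext b
    by_cases hb : b = a
    · rw [hb, h5]
    · have := congrFun h1 b
      rwa [Function.update_of_ne hb, Function.update_of_ne hb] at this
  rw [← Finset.card_image_of_injOn hinj]
  have hsub : F.image (fun x : Fin r → ℤ => (Function.update x a 0, x a / p)) ⊆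
      (Fintype.piFinset (fun b : Fin r => if b = a then ({0} : Finset ℤ) else Finset.Ico (0:ℤ) q)) ×ˢ
        Finset.Ico (0:ℤ) s := by
    intro y hy
    obtain ⟨x, hx, rfl⟩ := Finset.mem_image.1 hy
    have hx1 := Fintype.mem_piFinset.1 (Finset.mem_filter.1 hx).1
    rw [Finset.mem_product]
    constructor
    · rw [Fintype.mem_piFinset]
      intro b
      by_cases hb : b = a
      · subst hb; simp
      · have e : (Function.update x a 0, x a / (p:ℤ)).1 b = x b := Function.update_of_ne hb _ _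
        rw [e, if_neg hb]
        exact hx1 b
    · have h1 := Finset.mem_Ico.1 (hx1 a)
      rw [Finset.mem_Ico]
      refine ⟨Int.ediv_nonneg h1.1 hp'.le, ?_⟩
      apply Int.ediv_lt_of_lt_mul hp'
      have := h1.2
      rw [hq] at this
      push_cast at this
      linarith
  refine (Finset.card_le_card hsub).trans ?_
  rw [Finset.card_product, Fintype.card_piFinset]
  have : ∀ b : Fin r, (if b = a then ({0} : Finset ℤ) else Finset.Ico (0:ℤ) q).card =
      if b = a then 1 else q := by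
    intro b
    split_ifs
    · simp
    · simp
  rw [Finset.prod_congr rfl fun b _ => this b, Finset.prod_ite, Finset.prod_const_one, one_mul,
    Finset.prod_const]
  have h2 : (Finset.univ.filter (fun b : Fin r => ¬ b = a)).card = r - 1 := by
    have : Finset.univ.filter (fun b : Fin r => ¬ b = a) = Finset.univ.erase a := by
      ext b; simp
    rw [this, Finset.card_erase_of_mem (Finset.mem_univ a)]
    simp
  rw [h2]
  simp

theorem card_nonsat {p s : ℕ} (hp : p.Prime) :
    (((RS r N (p * s)).filter (fun Z => NonSatAt p Z)).card : ℝ) ≤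
      ((p * s : ℕ) : ℝ) ^ (r * N) * (gs r p * ((p:ℝ) ^ N)⁻¹) := by
  classical
  set q := p * s with hq
  have hB : ∀ x ∈ HI r p,
      ((RS r N q).filter (fun Z => ∀ j, (p:ℤ) ∣ Z x.1 j - ∑ b, x.2 b * Z b j)).card ≤
        (q ^ (r - 1) * s) ^ N := by
    intro x hx
    have hxa : x.2 x.1 = 0 := (mem_HI.1 hx x.1).2 (lt_irrefl _)
    have hinj : Set.InjOn (fun (Z : Fin r → Fin N → ℤ) (j : Fin N) (b : Fin r) => Z b j)
        ((RS r N q).filter (fun Z => ∀ j, (p:ℤ) ∣ Z x.1 j - ∑ b, x.2 b * Z b j)) := by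
      intro Z _ Z' _ h
      funext b j
      exact congrFun (congrFun h j) b
    rw [← Finset.card_image_of_injOn hinj]
    have hsub : ((RS r N q).filter (fun Z => ∀ j, (p:ℤ) ∣ Z x.1 j - ∑ b, x.2 b * Z b j)).image
        (fun (Z : Fin r → Fin N → ℤ) (j : Fin N) (b : Fin r) => Z b j) ⊆
        Fintype.piFinset (fun _ : Fin N =>
          (Fintype.piFinset (fun _ : Fin r => Finset.Ico (0:ℤ) (q : ℤ))).filter
            (fun y => (p:ℤ) ∣ y x.1 - ∑ b, x.2 b * y b)) := by
      intro y hy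
      obtain ⟨Z, hZ, rfl⟩ := Finset.mem_image.1 hy
      obtain ⟨h1, h2⟩ := Finset.mem_filter.1 hZ
      rw [mem_RS] at h1
      rw [Fintype.mem_piFinset]
      intro j
      rw [Finset.mem_filter, Fintype.mem_piFinset]
      exact ⟨fun b => Finset.mem_Ico.2 (h1 b j), h2 j⟩
    refine (Finset.card_le_card hsub).trans ?_
    rw [Fintype.card_piFinset, Finset.prod_const, Finset.card_univ, Fintype.card_fin]
    exact Nat.pow_le_pow_left (card_relation hp.pos x.1 x.2 hxa) N
  have hsub : (RS r N q).filter (fun Z => NonSatAt p Z) ⊆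
      (HI r p).biUnion (fun x => (RS r N q).filter
        (fun Z => ∀ j, (p:ℤ) ∣ Z x.1 j - ∑ b, x.2 b * Z b j)) := by
    intro Z hZ
    obtain ⟨h1, h2⟩ := Finset.mem_filter.1 hZ
    obtain ⟨x, hx, h⟩ := nonsat_cases hp h2
    exact Finset.mem_biUnion.2 ⟨x, hx, Finset.mem_filter.2 ⟨h1, h⟩⟩
  have h1 : ((RS r N q).filter (fun Z => NonSatAt p Z)).card ≤
      (HI r p).card * (q ^ (r - 1) * s) ^ N := by
    refine (Finset.card_le_card hsub).trans ((Finset.card_biUnion_le).trans
      ((Finset.sum_le_sum hB).trans ?_))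
    rw [Finset.sum_const, smul_eq_mul]
  rcases Nat.eq_zero_or_pos r with hr | hr
  · -- no rows: the determinant is one
    subst hr
    have hempty : (RS 0 N q).filter (fun Z => NonSatAt p Z) = ∅ := by
      refine Finset.filter_eq_empty_iff.2 ?_
      intro Z _ hns
      have := hns Fin.elim0
      rw [minor, Matrix.det_isEmpty] at this
      have h2 : p ∣ 1 := by exact_mod_cast this
      exact hp.one_lt.ne' (Nat.dvd_one.1 h2)
    rw [hempty]
    simp only [Finset.card_empty, Nat.cast_zero]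
    have := gs_nonneg 0 p
    positivity
  · have h2 : (((RS r N q).filter (fun Z => NonSatAt p Z)).card : ℝ) ≤
        gs r p * (((q:ℝ) ^ (r - 1) * s) ^ N) := by
      have h3 : (((RS r N q).filter (fun Z => NonSatAt p Z)).card : ℝ) ≤
          (((HI r p).card * (q ^ (r - 1) * s) ^ N : ℕ) : ℝ) := by exact_mod_cast h1
      refine h3.trans ?_
      push_cast
      apply mul_le_mul_of_nonneg_right _ (by positivity)
      rw [gs]
      exact_mod_cast card_HI_le r p
    refine h2.trans (le_of_eq ?_)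
    have hp0 : (p:ℝ) ≠ 0 := by exact_mod_cast hp.ne_zero
    have h4 : ((q:ℝ) ^ (r - 1) * s) * p = (q:ℝ) ^ r := by
      obtain ⟨n, rfl⟩ : ∃ n, r = n + 1 := ⟨r - 1, by omega⟩
      rw [Nat.add_sub_cancel, pow_succ, hq]
      push_cast
      ring
    have h5 : (((q:ℝ) ^ (r - 1) * s) ^ N) * (p:ℝ) ^ N = (q:ℝ) ^ (r * N) := by
      rw [← mul_pow, h4, ← pow_mul]
    rw [← h5]
    field_simp

/-- numerical sums -/
theorem sum_prime_inv (P : ℕ) : ∑ n ∈ (Finset.Icc 2 P).filter Nat.Prime,
    ((n:ℝ) * (n - 1))⁻¹ ≤ 11 / 12 := by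
  have key : ∀ k : ℕ, ∑ n ∈ (Finset.Icc 2 (k + 4)).filter Nat.Prime, ((n:ℝ) * (n - 1))⁻¹ ≤
      11 / 12 - 1 / ((k:ℝ) + 4) := by
    intro k
    induction k with
    | zero =>
      have : (Finset.Icc 2 (0 + 4)).filter Nat.Prime = {2, 3} := by decide
      rw [this]
      norm_num
    | succ k ih =>
      have e : (Finset.Icc 2 (k + 1 + 4)).filter Nat.Prime ⊆
          insert (k + 5) ((Finset.Icc 2 (k + 4)).filter Nat.Prime) := by
        intro n hn
        simp only [Finset.mem_filter, Finset.mem_Icc, Finset.mem_insert] at hn ⊢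
        by_cases h : n = k + 5
        · exact Or.inl h
        · right; exact ⟨⟨hn.1.1, by omega⟩, hn.2⟩
      have hnn : ∀ n ∈ insert (k + 5) ((Finset.Icc 2 (k + 4)).filter Nat.Prime),
          n ∉ (Finset.Icc 2 (k + 1 + 4)).filter Nat.Prime → 0 ≤ ((n:ℝ) * (n - 1))⁻¹ := by
        intro n hn _
        have h2 : 1 ≤ n := by
          simp only [Finset.mem_filter, Finset.mem_Icc, Finset.mem_insert] at hn
          omega
        have h3 : (1:ℝ) ≤ n := by exact_mod_cast h2
        have : (0:ℝ) ≤ (n:ℝ) * (n - 1) := mul_nonneg (by linarith) (by linarith)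
        positivity
      refine (Finset.sum_le_sum_of_subset_of_nonneg e hnn).trans ?_
      rw [Finset.sum_insert (by simp)]
      refine (add_le_add_right ih _).trans ?_
      push_cast
      have h1 : (0:ℝ) ≤ k := Nat.cast_nonneg k
      have h2 : (((k:ℝ) + 5) * ((k:ℝ) + 5 - 1))⁻¹ = 1 / ((k:ℝ) + 4) - 1 / ((k:ℝ) + 1 + 4) := by
        have : (k:ℝ) + 5 - 1 = k + 4 := by ring
        rw [this]
        field_simp
        ring
      rw [h2]
      linarith
  rcases Nat.lt_or_ge P 4 with h | h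
  · have hsub : (Finset.Icc 2 P).filter Nat.Prime ⊆ (Finset.Icc 2 4).filter Nat.Prime := by
      intro n hn
      simp only [Finset.mem_filter, Finset.mem_Icc] at hn ⊢
      exact ⟨⟨hn.1.1, by omega⟩, hn.2⟩
    refine (Finset.sum_le_sum_of_subset_of_nonneg hsub ?_).trans ((key 0).trans ?_)
    · intro n hn _
      have h2 : 2 ≤ n := (Finset.mem_Icc.1 (Finset.mem_filter.1 hn).1).1
      have h3 : (2:ℝ) ≤ n := by exact_mod_cast h2
      have : (0:ℝ) ≤ (n:ℝ) * (n - 1) := mul_nonneg (by linarith) (by linarith)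
      positivity
    · norm_num
  · obtain ⟨k, rfl⟩ : ∃ k, P = k + 4 := ⟨P - 4, by omega⟩
    refine (key k).trans ?_
    have : (0:ℝ) ≤ 1 / ((k:ℝ) + 4) := by positivity
    linarith

/-- density of the frames that are saturated at small primes -/
theorem dens_sat {P q : ℕ} (hrN : r < N)
    (hPq : ∀ p : ℕ, p.Prime → p ≤ P → p ∣ q) :
    (1 / 12 : ℝ) * (q:ℝ) ^ (r * N) ≤
      (((RS r N q).filter (fun Z => ∀ p : ℕ, p.Prime → p ≤ P → ¬ NonSatAt p Z)).card : ℝ) := by
  classical
  have hsub : RS r N q ⊆ (RS r N q).filter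
      (fun A => ∀ p : ℕ, p.Prime → p ≤ P → ¬ NonSatAt p A) ∪
      ((Finset.Icc 2 P).filter Nat.Prime).biUnion
        (fun p => (RS r N q).filter (fun A => NonSatAt p A)) := by
    intro A hA
    by_cases h : ∀ p : ℕ, p.Prime → p ≤ P → ¬ NonSatAt p A
    · exact Finset.mem_union_left _ (Finset.mem_filter.2 ⟨hA, h⟩)
    · push Not at h
      obtain ⟨p, hp, hpP, hdiv⟩ := h
      refine Finset.mem_union_right _ (Finset.mem_biUnion.2 ⟨p, ?_, Finset.mem_filter.2 ⟨hA, hdiv⟩⟩)
      exact Finset.mem_filter.2 ⟨Finset.mem_Icc.2 ⟨hp.two_le, hpP⟩, hp⟩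
  have h1 := (Finset.card_le_card hsub).trans (Finset.card_union_le _ _)
  rw [card_RS] at h1
  have h2 : ((((Finset.Icc 2 P).filter Nat.Prime).biUnion
        (fun p => (RS r N q).filter (fun A => NonSatAt p A))).card : ℝ) ≤
      (q:ℝ) ^ (r * N) * (11 / 12) := by
    have h3 : ((((Finset.Icc 2 P).filter Nat.Prime).biUnion
        (fun p => (RS r N q).filter (fun A => NonSatAt p A))).card : ℝ) ≤
        ∑ p ∈ (Finset.Icc 2 P).filter Nat.Prime, (q:ℝ) ^ (r * N) * ((p:ℝ) * (p - 1))⁻¹ := by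
      have h4 : ((((Finset.Icc 2 P).filter Nat.Prime).biUnion
        (fun p => (RS r N q).filter (fun A => NonSatAt p A))).card : ℝ) ≤
        ∑ p ∈ (Finset.Icc 2 P).filter Nat.Prime,
          (((RS r N q).filter (fun A => NonSatAt p A)).card : ℝ) := by
        exact_mod_cast Finset.card_biUnion_le
      refine h4.trans (Finset.sum_le_sum ?_)
      intro p hp
      obtain ⟨hp1, hp2⟩ := Finset.mem_filter.1 hp
      obtain ⟨s, rfl⟩ := hPq p hp2 (Finset.mem_Icc.1 hp1).2
      have h5 := card_nonsat (r := r) (N := N) (s := s) hp2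
      refine h5.trans ?_
      apply mul_le_mul_of_nonneg_left _ (by positivity)
      exact gs_mul_le hp2.two_le hrN
    refine h3.trans ?_
    rw [← Finset.mul_sum]
    exact mul_le_mul_of_nonneg_left (sum_prime_inv P) (by positivity)
  have h6 : ((q ^ (r * N) : ℕ) : ℝ) ≤ (((RS r N q).filter
      (fun A => ∀ p : ℕ, p.Prime → p ≤ P → ¬ NonSatAt p A)).card : ℝ) +
      ((((Finset.Icc 2 P).filter Nat.Prime).biUnion
        (fun p => (RS r N q).filter (fun A => NonSatAt p A))).card : ℝ) := by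
    exact_mod_cast h1
  push_cast at h6
  linarith

end Pool.Agent.Lib.MP_1acd66_nt.Gen
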