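import Pool.Agent.Lib.MP_1acd66_nt.Gen.Cusp

/-!
Summation over exponent vectors with the weight `exp (-δ * spread)`.
-/

namespace Pool.Agent.Lib.MP_1acd66_nt.Gen

open Finset

/-- two-sided geometric sums are bounded -/
theorem geom_two_sided {δ : ℝ} (hδ : 0 < δ) : ∃ C : ℝ, 1 ≤ C ∧ ∀ M : ℤ,
    ∑ d ∈ Icc (-M) M, Real.exp (-δ * |(d : ℝ)|) ≤ C := by
  set q := Real.exp (-δ) with hq
  have hq0 : 0 < q := Real.exp_pos _
  have hq1 : q < 1 := by
    rw [hq, ← Real.exp_zero]; exact Real.exp_lt_exp.2 (by linarith)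
  have hpow : ∀ d : ℤ, Real.exp (-δ * |(d : ℝ)|) = q ^ d.natAbs := by
    intro d
    rw [hq, ← Real.exp_nat_mul]
    congr 1
    have : ((d.natAbs : ℕ) : ℝ) = |(d : ℝ)| := by
      rw [Nat.cast_natAbs]; push_cast; rfl
    rw [this]; ring
  refine ⟨2 * (1 - q)⁻¹, ?_, ?_⟩
  · have h1 : 1 ≤ (1 - q)⁻¹ := by
      rw [one_le_inv₀ (by linarith)]; linarith
    linarith
  · intro M
    have h1 : ∑ d ∈ Icc (-M) M, Real.exp (-δ * |(d : ℝ)|) ≤
        ∑ d ∈ Icc (-M) M, ∑ n ∈ range (M.toNat + 1), (if d.natAbs = n then q ^ n else 0) := by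
      refine sum_le_sum fun d hd => ?_
      rw [mem_Icc] at hd
      rw [hpow, sum_ite_eq, if_pos]
      rw [mem_range]; omega
    refine h1.trans ?_
    rw [sum_comm]
    have h2 : ∀ n ∈ range (M.toNat + 1), ∑ d ∈ Icc (-M) M, (if d.natAbs = n then q ^ n else 0) ≤
        2 * q ^ n := by
      intro n _
      rw [← sum_filter, sum_const, nsmul_eq_mul]
      refine mul_le_mul_of_nonneg_right ?_ (pow_nonneg hq0.le _)
      have h3 : (Icc (-M) M).filter (fun d : ℤ => d.natAbs = n) ⊆ {(n : ℤ), -(n : ℤ)} := by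
        intro d hd
        rw [mem_filter] at hd
        rw [mem_insert, mem_singleton]
        omega
      have h4 := (card_le_card h3).trans (card_le_two (a := (n : ℤ)) (b := -(n : ℤ)))
      exact_mod_cast h4
    refine (sum_le_sum h2).trans ?_
    rw [← mul_sum]
    refine mul_le_mul_of_nonneg_left ?_ (by norm_num)
    have h5 := (summable_geometric_of_lt_one hq0.le hq1).sum_le_tsum (range (M.toNat + 1))
      (fun i _ => pow_nonneg hq0.le i)
    rw [tsum_geometric_of_lt_one hq0.le hq1] at h5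
    exact h5

/-- integers as reals -/
def castR {r : ℕ} (n : Fin r → ℤ) : Fin r → ℝ := fun i => (n i : ℝ)

theorem abs_sub_le_spread_term {a b : ℝ} : |a - b| = max 0 (a - b) + max 0 (b - a) := by
  rcases le_total a b with h | h
  · rw [abs_of_nonpos (by linarith), max_eq_left (by linarith), max_eq_right (by linarith)]; ring
  · rw [abs_of_nonneg (by linarith), max_eq_right (by linarith), max_eq_left (by linarith)]; ring

/-- the distances to a fixed entry are controlled by the spread -/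
theorem sum_abs_le_spread {r : ℕ} (x : Fin r → ℝ) (i0 : Fin r) :
    ∑ i, |x i - x i0| ≤ spread x := by
  have h1 : ∑ i, |x i - x i0| = ∑ i, max 0 (x i - x i0) + ∑ j, max 0 (x i0 - x j) := by
    rw [← sum_add_distrib]
    exact sum_congr rfl fun i _ => abs_sub_le_spread_term
  have h2 : ∑ i, max 0 (x i - x i0) =
      ∑ i ∈ univ.erase i0, max 0 (x i - x i0) := by
    rw [← add_sum_erase univ _ (mem_univ i0)]
    simp
  have h3 : ∑ i ∈ univ.erase i0, max 0 (x i - x i0) ≤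
      ∑ i ∈ univ.erase i0, ∑ j, max 0 (x i - x j) :=
    sum_le_sum fun i _ => single_le_sum (f := fun j : Fin r => max 0 (x i - x j))
      (fun j _ => le_max_left _ _) (mem_univ i0)
  rw [h1, h2, spread, ← add_sum_erase univ (fun i => ∑ j, max 0 (x i - x j)) (mem_univ i0)]
  linarith

/-- the basic sum over exponent vectors -/
theorem sum_exp_spread {r : ℕ} (i0 : Fin r) {δ : ℝ} (hδ : 0 < δ) : ∃ C : ℝ, 1 ≤ C ∧
    ∀ (S : Finset (Fin r → ℤ)) (X : ℝ), 0 ≤ X → (∀ n ∈ S, 0 ≤ n i0 ∧ (n i0 : ℝ) ≤ X) →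
      ∑ n ∈ S, Real.exp (-δ * spread (castR n)) ≤ C * (1 + X) := by
  obtain ⟨C0, hC0, hgeom⟩ := geom_two_sided hδ
  have hC00 : 0 ≤ C0 := by linarith
  refine ⟨C0 ^ r, one_le_pow₀ hC0, ?_⟩
  intro S X hX hS
  -- a bound for all entries
  obtain ⟨M, hM⟩ : ∃ M : ℤ, ∀ n ∈ S, ∀ i, |n i - n i0| ≤ M := by
    refine ⟨∑ n ∈ S, ∑ i, |n i - n i0|, ?_⟩
    intro n hn i
    calc |n i - n i0| ≤ ∑ i, |n i - n i0| :=
          single_le_sum (f := fun i => |n i - n i0|) (fun _ _ => abs_nonneg _) (mem_univ i)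
      _ ≤ _ := single_le_sum (f := fun n : Fin r → ℤ => ∑ i, |n i - n i0|)
          (fun _ _ => sum_nonneg fun _ _ => abs_nonneg _) hn
  set F : ℤ × (Fin r → ℤ) → ℝ := fun p => ∏ i, Real.exp (-δ * |(p.2 i : ℝ)|) with hF
  set T : Finset (ℤ × (Fin r → ℤ)) := Icc 0 ⌊X⌋ ×ˢ Fintype.piFinset (fun _ : Fin r => Icc (-M) M)
    with hT
  set φ : (Fin r → ℤ) → ℤ × (Fin r → ℤ) := fun n => (n i0, fun i => n i - n i0) with hφ
  have hinj : Function.Injective φ := by
    intro n n' h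
    rw [hφ, Prod.mk.injEq] at h
    funext i
    have h0 : n i - n i0 = n' i - n' i0 := congrFun h.2 i
    have h1 := h.1
    omega
  have h1 : ∀ n ∈ S, Real.exp (-δ * spread (castR n)) ≤ F (φ n) := by
    intro n _
    change _ ≤ ∏ i, Real.exp (-δ * |((n i - n i0 : ℤ) : ℝ)|)
    rw [← Real.exp_sum, Real.exp_le_exp, ← mul_sum]
    have h2 := sum_abs_le_spread (castR n) i0
    have h3 : ∑ i, |((n i - n i0 : ℤ) : ℝ)| = ∑ i, |castR n i - castR n i0| := by
      refine sum_congr rfl fun i _ => ?_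
      simp [castR]
    rw [h3]
    nlinarith
  have h2 : ∀ n ∈ S, φ n ∈ T := by
    intro n hn
    rw [hT, hφ, mem_product, mem_Icc, Fintype.mem_piFinset]
    refine ⟨⟨(hS n hn).1, Int.le_floor.2 (hS n hn).2⟩, fun i => ?_⟩
    rw [mem_Icc]
    exact abs_le.1 (hM n hn i)
  have hF0 : ∀ p, 0 ≤ F p := fun p => prod_nonneg fun _ _ => (Real.exp_pos _).le
  calc ∑ n ∈ S, Real.exp (-δ * spread (castR n)) ≤ ∑ n ∈ S, F (φ n) := sum_le_sum h1
    _ = ∑ p ∈ S.image φ, F p := by rw [sum_image fun a _ b _ h => hinj h]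
    _ ≤ ∑ p ∈ T, F p := by
        refine sum_le_sum_of_subset_of_nonneg ?_ fun p _ _ => hF0 p
        intro p hp
        obtain ⟨n, hn, rfl⟩ := mem_image.1 hp
        exact h2 n hn
    _ = ∑ a ∈ Icc (0:ℤ) ⌊X⌋, ∑ d ∈ Fintype.piFinset (fun _ : Fin r => Icc (-M) M),
          ∏ i, Real.exp (-δ * |(d i : ℝ)|) := by rw [hT, sum_product]
    _ = ∑ a ∈ Icc (0:ℤ) ⌊X⌋, ∏ _i : Fin r, ∑ d ∈ Icc (-M) M, Real.exp (-δ * |(d : ℝ)|) := by
        refine sum_congr rfl fun a _ => ?_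
        rw [prod_univ_sum]
    _ ≤ ∑ a ∈ Icc (0:ℤ) ⌊X⌋, C0 ^ r := by
        refine sum_le_sum fun a _ => ?_
        rw [prod_const, card_univ, Fintype.card_fin]
        exact pow_le_pow_left₀ (sum_nonneg fun _ _ => (Real.exp_pos _).le) (hgeom M) r
    _ = ((⌊X⌋ + 1).toNat : ℝ) * C0 ^ r := by
        rw [sum_const, nsmul_eq_mul, Int.card_Icc, sub_zero]
    _ ≤ (1 + X) * C0 ^ r := by
        refine mul_le_mul_of_nonneg_right ?_ (pow_nonneg hC00 _)
        have h3 : 0 ≤ ⌊X⌋ := Int.floor_nonneg.2 hX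
        have h4 : (((⌊X⌋ + 1).toNat : ℕ) : ℝ) = ((⌊X⌋ + 1 : ℤ) : ℝ) := by
          have h5 : (((⌊X⌋ + 1).toNat : ℕ) : ℤ) = ⌊X⌋ + 1 := Int.toNat_of_nonneg (by omega)
          exact_mod_cast h5
        rw [h4]; push_cast
        have := Int.floor_le X
        linarith
    _ = C0 ^ r * (1 + X) := by ring

/-- the sum over tuples of exponent vectors with total spread at least `K` -/
theorem sum_exp_spread_prod {ι : Type} [Fintype ι] [DecidableEq ι] {r : ι → ℕ}
    (i0 : ∀ a, Fin (r a)) {δ : ℝ} (hδ : 0 < δ) : ∃ C : ℝ, 0 < C ∧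
    ∀ (S : Finset (∀ a, Fin (r a) → ℤ)) (X K : ℝ), 0 ≤ X →
      (∀ n ∈ S, ∀ a, 0 ≤ n a (i0 a) ∧ (n a (i0 a) : ℝ) ≤ X) →
      (∀ n ∈ S, K ≤ ∑ a, spread (castR (n a))) →
      ∑ n ∈ S, Real.exp (-δ * ∑ a, spread (castR (n a))) ≤
        C * (1 + X) ^ Fintype.card ι * Real.exp (-(δ / 2) * K) := by
  have hδ2 : 0 < δ / 2 := by linarith
  choose C hC hsum using fun a => sum_exp_spread (i0 a) hδ2
  refine ⟨∏ a, C a, prod_pos fun a _ => by linarith [hC a], ?_⟩
  intro S X K hX hS hK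
  have h1 : ∀ n ∈ S, Real.exp (-δ * ∑ a, spread (castR (n a))) ≤
      Real.exp (-(δ / 2) * K) * ∏ a, Real.exp (-(δ / 2) * spread (castR (n a))) := by
    intro n hn
    rw [← Real.exp_sum, ← Real.exp_add, Real.exp_le_exp, ← mul_sum]
    have := hK n hn
    nlinarith
  refine (sum_le_sum h1).trans ?_
  rw [← mul_sum, mul_comm]
  refine mul_le_mul_of_nonneg_right ?_ (Real.exp_pos _).le
  calc ∑ n ∈ S, ∏ a, Real.exp (-(δ / 2) * spread (castR (n a)))
      ≤ ∑ n ∈ Fintype.piFinset (fun a => S.image (fun n => n a)),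
          ∏ a, Real.exp (-(δ / 2) * spread (castR (n a))) := by
        refine sum_le_sum_of_subset_of_nonneg ?_
          fun p _ _ => prod_nonneg fun _ _ => (Real.exp_pos _).le
        intro n hn
        rw [Fintype.mem_piFinset]
        exact fun a => mem_image_of_mem _ hn
    _ = ∏ a, ∑ n ∈ S.image (fun n => n a), Real.exp (-(δ / 2) * spread (castR n)) := by
        rw [prod_univ_sum]
    _ ≤ ∏ a, (C a * (1 + X)) := by
        refine prod_le_prod (fun a _ => sum_nonneg fun _ _ => (Real.exp_pos _).le) ?_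
        intro a _
        refine hsum a _ X hX ?_
        intro n hn
        obtain ⟨n', hn', rfl⟩ := mem_image.1 hn
        exact hS n' hn' a
    _ = (∏ a, C a) * (1 + X) ^ Fintype.card ι := by
        rw [prod_mul_distrib, prod_const, card_univ]

end Pool.Agent.Lib.MP_1acd66_nt.Gen
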